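import Pool.Agent.H70.Net.Num

/-!
MP_77daaf_co, module `Approx` : nearest-integer expansions with respect to `√2`.

* `ratio_rec`: `ll (m+1) / ll (m+2) = 1 / (√2 a + s (ll m / ll (m+1)))`.
* `ratio_mem`: `0 ≤ ll m / ll (m+1) ≤ √2/2` (`ll_le`).
* `T_lip` : for `(a, s)` admissible and `x, y ∈ [0, √2/2]`:
   `|1/(√2 a + s x) - 1/(√2 a + s y)| ≤ |x - y| / 2`  (denominators are `≥ √2`, so the product is `≥ 2`:
   `s = 1`: `√2 a + x ≥ √2`; `s = -1`: `a ≥ 2`, `√2 a - x ≥ 2√2 - √2/2 ≥ √2`).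
* `digit_exists`: for `0 < ρ ≤ √2/2` there are admissible `(a, s)` and `ρ' ∈ [0, √2/2]` with
   `ρ = 1/(√2 a + s ρ')`: `a = round (1/(√2 ρ)) ≥ 1` (since `1/(√2 ρ) ≥ 1`),
   `ρ' = |1/ρ - √2 a| ≤ √2/2`, `s` the sign of `1/ρ - √2 a` (`s = 1` if it is `0`).
   If `a = 1` then `1/ρ ≥ √2 = √2 a` so `s = 1`; if `a ≥ 2` anything is allowed.
* `approx_low`: for every `r ≥ 1` and `ρ ∈ [0, √2/2]` there is a digit system `D` with
   `|ll r / ll (r+1) - ρ| ≤ 2 / 2^r`.  Induction on `r`.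
   `r = 1`: any `D` (e.g. all `a = 2`, `s = 1`): both numbers are in `[0, √2/2]`.
   `r + 1`: if `ρ = 0`: take any system and change the digit `r+1` to `a = 2^(r+1)`, `s = 1`
   (then the ratio is `≤ 1/(√2 a)`); if `ρ > 0`: `digit_exists`, induction for `ρ'`, change the digit
   `r+1` of that system to `(a, s)` (`Dig.set`), `ratio_rec`, `T_lip`, and `ll_congr`
   (the digit `r+1` does not change `ll j`, `j ≤ r+1`).
   NOTE for `r + 1 = 1`... does not occur; the condition `2 ≤ a 1` concerns index `1 ≤ r` only.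
* `approx_top`: take `r = 2 j + 1` large, `D0` from `approx_low` for `ρ`, then set
   `a (r+1) = 1, s (r+1) = 1`, `a (r+2) = 5, s (r+2) = 1`, `a (r+3) = 2, s (r+3) = -1`;
   here `k + 1 = r`, `k = 2 j`.
-/

namespace H70Net

theorem ratio_rec (D : Dig) (m : ℕ) :
    ll D (m + 1) / ll D (m + 2) =
      1 / (√2 * D.a (m + 1) + D.s (m + 1) * (ll D m / ll D (m + 1))) := by
  have h1 : 0 < ll D (m + 1) := ll_pos D m
  have h2 : 0 < ll D (m + 2) := ll_pos D (m + 1)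
  have e : ll D (m + 2) = √2 * D.a (m + 1) * ll D (m + 1) + D.s (m + 1) * ll D m := rfl
  have e2 : √2 * D.a (m + 1) + D.s (m + 1) * (ll D m / ll D (m + 1)) =
      ll D (m + 2) / ll D (m + 1) := by
    rw [e]; field_simp
  rw [e2, one_div, inv_div]

theorem ratio_mem (D : Dig) (m : ℕ) :
    0 ≤ ll D m / ll D (m + 1) ∧ ll D m / ll D (m + 1) ≤ √2 / 2 := by
  have h1 : 0 < ll D (m + 1) := ll_pos D m
  have h0 : 0 ≤ ll D m := ll_nonneg D m
  refine ⟨div_nonneg h0 h1.le, ?_⟩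
  rw [div_le_iff₀ h1]
  have h2 := ll_le D m
  have h3 : √2 * √2 = 2 := Real.mul_self_sqrt (by norm_num)
  have h4 : (0 : ℝ) ≤ √2 := Real.sqrt_nonneg 2
  nlinarith [mul_le_mul_of_nonneg_left h2 h4]

theorem T_lip (a s : ℤ) (hs : s = 1 ∨ s = -1) (ha : 1 ≤ a) (hsa : s = -1 → 2 ≤ a) (x y : ℝ)
    (hx : 0 ≤ x) (hx' : x ≤ √2 / 2) (hy : 0 ≤ y) (hy' : y ≤ √2 / 2) :
    |1 / (√2 * a + s * x) - 1 / (√2 * a + s * y)| ≤ |x - y| / 2 := by
  have h3 : √2 * √2 = 2 := Real.mul_self_sqrt (by norm_num)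
  have h4 : (0 : ℝ) < √2 := Real.sqrt_pos.2 (by norm_num)
  have key : ∀ z : ℝ, 0 ≤ z → z ≤ √2 / 2 → √2 ≤ √2 * a + s * z := by
    intro z hz hz'
    rcases hs with rfl | rfl
    · have ha' : (1 : ℝ) ≤ a := by exact_mod_cast ha
      push_cast
      nlinarith
    · have ha' : (2 : ℝ) ≤ a := by exact_mod_cast hsa rfl
      push_cast
      nlinarith
  have hP := key x hx hx'
  have hQ := key y hy hy'
  set P := √2 * a + s * x with hPd
  set Q := √2 * a + s * y with hQd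
  have hP0 : 0 < P := h4.trans_le hP
  have hQ0 : 0 < Q := h4.trans_le hQ
  have hPQ : 2 ≤ P * Q := by
    calc (2 : ℝ) = √2 * √2 := h3.symm
      _ ≤ P * Q := mul_le_mul hP hQ h4.le hP0.le
  have e1 : 1 / P - 1 / Q = (Q - P) / (P * Q) := by
    field_simp
  have e2 : |Q - P| = |x - y| := by
    have : Q - P = (s : ℝ) * (y - x) := by rw [hPd, hQd]; ring
    rw [this, abs_mul, abs_sub_comm y x]
    rcases hs with rfl | rfl <;> simp
  rw [e1, abs_div, e2, abs_of_pos (mul_pos hP0 hQ0)]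
  exact div_le_div_of_nonneg_left (abs_nonneg _) (by norm_num) hPQ

theorem digit_exists (ρ : ℝ) (h0 : 0 < ρ) (h1 : ρ ≤ √2 / 2) :
    ∃ (a s : ℤ) (ρ' : ℝ), (s = 1 ∨ s = -1) ∧ 1 ≤ a ∧ (s = -1 → 2 ≤ a) ∧ 0 ≤ ρ' ∧ ρ' ≤ √2 / 2 ∧
      ρ = 1 / (√2 * a + s * ρ') := by
  have h3 : √2 * √2 = 2 := Real.mul_self_sqrt (by norm_num)
  have h4 : (0 : ℝ) < √2 := Real.sqrt_pos.2 (by norm_num)
  obtain ⟨v, hv⟩ : ∃ v : ℝ, v = 1 / ρ := ⟨_, rfl⟩
  have hv2 : √2 ≤ v := by
    rw [hv, le_div_iff₀ h0]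
    nlinarith [mul_le_mul_of_nonneg_left h1 h4.le]
  obtain ⟨w, hw⟩ : ∃ w : ℝ, w = v / √2 := ⟨_, rfl⟩
  have hvw : v = √2 * w := by rw [hw]; field_simp
  have hw1 : 1 ≤ w := by rw [hw, le_div_iff₀ h4]; linarith
  have hr := abs_sub_round w
  obtain ⟨a, haw⟩ : ∃ a : ℤ, a = round w := ⟨_, rfl⟩
  rw [← haw] at hr
  have hr' := abs_le.1 hr
  have ha0 : 0 < a := by
    have : (0 : ℝ) < a := by linarith [hr'.2]
    exact_mod_cast this
  have hρv : ρ = 1 / v := by rw [hv]; field_simp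
  rcases le_or_gt (√2 * a) v with hle | hlt
  · refine ⟨a, 1, v - √2 * a, Or.inl rfl, ha0, fun h => by omega, by linarith, ?_, ?_⟩
    · rw [hvw]
      have : w - a ≤ 1 / 2 := hr'.2
      nlinarith
    · rw [hρv]
      congr 1
      push_cast
      ring
  · have ha2 : 2 ≤ a := by
      have h5 : (1 : ℝ) < a := by
        by_contra hc
        rw [not_lt] at hc
        nlinarith
      have : 1 < a := by exact_mod_cast h5
      omega
    refine ⟨a, -1, √2 * a - v, Or.inr rfl, ha0, fun _ => ha2, by linarith, ?_, ?_⟩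
    · rw [hvw]
      have : -(1 / 2) ≤ w - a := hr'.1
      nlinarith
    · rw [hρv]
      congr 1
      push_cast
      ring

/-- change the digit of index `j` (`2 ≤ j`) -/
def Dig.set (D : Dig) (j : ℕ) (hj : 2 ≤ j) (a s : ℤ) (hs : s = 1 ∨ s = -1) (ha : 1 ≤ a)
    (hsa : s = -1 → 2 ≤ a) : Dig where
  a := fun i => if i = j then a else D.a i
  s := fun i => if i = j then s else D.s i
  ha := fun m => by by_cases h : m = j <;> simp [h, ha, D.ha]
  hs := fun m => by by_cases h : m = j <;> simp [h, hs, D.hs]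
  hn := fun m => by
    by_cases h : m = j
    · simpa [h] using hsa
    · simpa [h] using D.hn m
  h1 := by
    have : (1 : ℕ) ≠ j := by omega
    simpa [this] using D.h1

end H70Net
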