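import Pool.Agent.H70.Net.Approx

/-!
MP_77daaf_co, module `ApproxB` : approximation by digit systems.
PROOF: see the header of module `Approx`.
-/

namespace H70Net

theorem approx_low (r : ℕ) (hr : 1 ≤ r) (ρ : ℝ) (h0 : 0 ≤ ρ) (h1 : ρ ≤ √2 / 2) :
    ∃ D : Dig, |ll D r / ll D (r + 1) - ρ| ≤ 2 / 2 ^ r := by
  induction r, hr using Nat.le_induction generalizing ρ with
  | base =>
    refine ⟨⟨fun _ => 2, fun _ => 1, fun _ => by norm_num, fun _ => Or.inl rfl,
      fun _ h => by norm_num at h, by norm_num⟩, ?_⟩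
    obtain ⟨hx, hx'⟩ := ratio_mem (⟨fun _ => 2, fun _ => 1, fun _ => by norm_num,
      fun _ => Or.inl rfl, fun _ h => by norm_num at h, by norm_num⟩ : Dig) 1
    have h4 : √2 ≤ 2 := by
      rw [Real.sqrt_le_left (by norm_num)]; norm_num
    have h5 : (2 : ℝ) / 2 = 1 := by norm_num
    rw [abs_le, pow_one, h5]
    constructor <;> linarith
  | succ r hr ih =>
    rcases h0.eq_or_lt with hz | hpos
    · subst hz
      obtain ⟨D, hDa, hDs⟩ : ∃ D : Dig, D.a (r + 1) = 2 ^ (r + 1) ∧ D.s (r + 1) = 1 :=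
        ⟨Dig.set ⟨fun _ => 2, fun _ => 1, fun _ => by norm_num,
          fun _ => Or.inl rfl, fun _ h => by norm_num at h, by norm_num⟩ (r + 1) (by omega)
          (2 ^ (r + 1)) 1 (Or.inl rfl) (one_le_pow₀ (by norm_num)) (by norm_num),
          by simp [Dig.set], by simp [Dig.set]⟩
      have hD := ratio_rec D r
      have hm := ratio_mem D r
      have hm' := ratio_mem D (r + 1)
      refine ⟨D, ?_⟩
      rw [sub_zero, abs_of_nonneg hm'.1, hD, hDa, hDs]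
      push_cast
      have h4 : (1 : ℝ) ≤ √2 := by
        rw [Real.one_le_sqrt]; norm_num
      have h5 : (0 : ℝ) < 2 ^ (r + 1) := by positivity
      rw [div_le_div_iff₀ (by nlinarith [hm.1]) h5]
      nlinarith [hm.1]
    · obtain ⟨a, s, ρ', hs, ha, hsa, h0', h1', e⟩ := digit_exists ρ hpos h1
      obtain ⟨D, hD⟩ := ih ρ' h0' h1'
      refine ⟨D.set (r + 1) (by omega) a s hs ha hsa, ?_⟩
      have hc1 : ll (D.set (r + 1) (by omega) a s hs ha hsa) (r + 1) = ll D (r + 1) := by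
        apply ll_congr
        intro i hi
        have : i ≠ r + 1 := by omega
        simp [Dig.set, this]
      have hc0 : ll (D.set (r + 1) (by omega) a s hs ha hsa) r = ll D r := by
        obtain ⟨q, rfl⟩ : ∃ q, r = q + 1 := ⟨r - 1, by omega⟩
        apply ll_congr
        intro i hi
        have : i ≠ q + 1 + 1 := by omega
        simp [Dig.set, this]
      have hrec := ratio_rec (D.set (r + 1) (by omega) a s hs ha hsa) r
      rw [hc1, hc0] at hrec
      rw [← hc1] at hrec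
      simp only [Dig.set, if_true] at hrec
      have hm := ratio_mem D r
      have hl := T_lip a s hs ha hsa _ ρ' hm.1 hm.2 h0' h1'
      rw [← e] at hl
      have e2 : ll (D.set (r + 1) (by omega) a s hs ha hsa) (r + 1) /
          ll (D.set (r + 1) (by omega) a s hs ha hsa) (r + 1 + 1) =
          1 / (√2 * a + s * (ll D r / ll D (r + 1))) := by
        have := ratio_rec (D.set (r + 1) (by omega) a s hs ha hsa) r
        rw [hc0, hc1] at this
        rw [hc1]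
        rw [this]
        simp [Dig.set]
      rw [e2]
      refine hl.trans ?_
      have e3 : (2 : ℝ) / 2 ^ (r + 1) = (2 / 2 ^ r) / 2 := by
        rw [pow_succ]; field_simp
      rw [e3]
      linarith

theorem approx_top (ρ : ℝ) (h0 : 0 ≤ ρ) (h1 : ρ ≤ √2 / 2) (δ : ℝ) (hδ : 0 < δ) :
    ∃ (D : Dig) (k : ℕ), k % 2 = 0 ∧ D.a (k + 3) = 5 ∧ D.s (k + 3) = 1 ∧ D.a (k + 2) = 1 ∧
      D.s (k + 2) = 1 ∧ D.s (k + 4) = -1 ∧
      |ll D (k + 3) / ll D (k + 4) - 1 / (√2 * 5 + 1 / (√2 + ρ))| < δ := by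
  obtain ⟨n, hn⟩ := exists_pow_lt_of_lt_one hδ (show (1 / 2 : ℝ) < 1 by norm_num)
  obtain ⟨k, hk⟩ : ∃ k : ℕ, k = 2 * n := ⟨_, rfl⟩
  obtain ⟨D0, hD0⟩ := approx_low (k + 1) (by omega) ρ h0 h1
  obtain ⟨D, hD⟩ : ∃ D : Dig, D = ((D0.set (k + 2) (by omega) 1 1 (Or.inl rfl) le_rfl
    (by norm_num)).set (k + 3) (by omega) 5 1 (Or.inl rfl) (by norm_num) (by norm_num)).set
    (k + 4) (by omega) 2 (-1) (Or.inr rfl) (by norm_num) (by norm_num) := ⟨_, rfl⟩
  have ha3 : D.a (k + 3) = 5 := by rw [hD]; simp [Dig.set]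
  have hs3 : D.s (k + 3) = 1 := by rw [hD]; simp [Dig.set]
  have ha2 : D.a (k + 2) = 1 := by rw [hD]; simp [Dig.set]
  have hs2 : D.s (k + 2) = 1 := by rw [hD]; simp [Dig.set]
  have hs4 : D.s (k + 4) = -1 := by rw [hD]; simp [Dig.set]
  have hc1 : ll D (k + 1) = ll D0 (k + 1) := by
    apply ll_congr
    intro i hi
    have h2 : i ≠ k + 2 := by omega
    have h3 : i ≠ k + 3 := by omega
    have h4 : i ≠ k + 4 := by omega
    rw [hD]
    simp [Dig.set, h2, h3, h4]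
  have hc2 : ll D (k + 2) = ll D0 (k + 2) := by
    apply ll_congr
    intro i hi
    have h2 : i ≠ k + 2 := by omega
    have h3 : i ≠ k + 3 := by omega
    have h4 : i ≠ k + 4 := by omega
    rw [hD]
    simp [Dig.set, h2, h3, h4]
  refine ⟨D, k, by omega, ha3, hs3, ha2, hs2, hs4, ?_⟩
  have hr1 := ratio_rec D (k + 2)
  have hr2 := ratio_rec D (k + 1)
  have e4 : k + 2 + 2 = k + 4 := rfl
  have e3 : k + 2 + 1 = k + 3 := rfl
  have e2 : k + 1 + 1 = k + 2 := rfl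
  have e3' : k + 1 + 2 = k + 3 := rfl
  rw [e4, e3, ha3, hs3] at hr1
  rw [e2, e3', ha2, hs2] at hr2
  have hm1 := ratio_mem D (k + 2)
  have hm2 := ratio_mem D (k + 1)
  rw [e3] at hm1
  rw [e2] at hm2
  rw [hc1, hc2] at hm2
  rw [hc1, hc2] at hr2
  have h4 : (0 : ℝ) < √2 := Real.sqrt_pos.2 (by norm_num)
  have h22 : √2 * √2 = 2 := Real.mul_self_sqrt (by norm_num)
  have l2 := T_lip 1 1 (Or.inl rfl) le_rfl (by norm_num) _ ρ hm2.1 hm2.2 h0 h1
  rw [← hr2] at l2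
  have hx0 : 0 ≤ 1 / (√2 * ((1 : ℤ) : ℝ) + ((1 : ℤ) : ℝ) * ρ) := by
    push_cast
    positivity
  have hx1 : 1 / (√2 * ((1 : ℤ) : ℝ) + ((1 : ℤ) : ℝ) * ρ) ≤ √2 / 2 := by
    push_cast
    rw [div_le_div_iff₀ (by positivity) (by norm_num)]
    nlinarith [mul_nonneg h4.le h0]
  have l1 := T_lip 5 1 (Or.inl rfl) (by norm_num) (by norm_num) _ _ hm1.1 hm1.2 hx0 hx1
  rw [hc2] at l1
  rw [hc2] at hr1
  rw [← hr1] at l1
  have e5 : 1 / (√2 * ((5 : ℤ) : ℝ) + ((1 : ℤ) : ℝ) *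
      (1 / (√2 * ((1 : ℤ) : ℝ) + ((1 : ℤ) : ℝ) * ρ))) = 1 / (√2 * 5 + 1 / (√2 + ρ)) := by
    push_cast
    simp
  rw [e5] at l1
  have h6 : (2 : ℝ) / 2 ^ (k + 1) ≤ (1 / 2) ^ n := by
    rw [pow_succ, hk, pow_mul, one_div, inv_pow]
    have h7 : ((2 : ℝ) ^ 2) ^ n = 2 ^ n * 2 ^ n := by rw [← pow_mul, two_mul, pow_add]
    have h8 : (1 : ℝ) ≤ 2 ^ n := one_le_pow₀ (by norm_num)
    rw [h7, inv_eq_one_div, div_le_div_iff₀ (by positivity) (by positivity)]
    nlinarith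
  linarith

end H70Net
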