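import Pool.Agent.H70.Net.TopMap

/-!
MP_77daaf_co, module `Band` : the cells of the band between `Γ - W` and `Γ`, `W = (7q-p, 3q)`
(doubled `(2(7q-p), 6q)`), and their images on the surface of the cube.

The half-turn `σ (cx,cy) = (-12q - cx, -8q - cy)` exchanges the upper and the lower half of the band.

PROOFS.
* `band_top`: if `-4q < cy` then `cy + 6q > 2q > p`, so the second condition of `Band` holds by
  `total_above`.
* `band_bot`: if `cy < -4q`: `total cx cy = 1` by `total_below`, and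
  `total (-12q - cx) (-8q - cy) = total (2(q-p) - (cx + 2(7q-p))) (-2q - (cy + 6q)) = 1 - total (c + 2W)`
  (`total_half`).
* `band_shift`, `mb_shift`: `total_shift` with `j = 4k`; `rho4 (4k + j) = rho4 j`; for the lower half
  `-12q - (cx + 16qk) = (-12q - cx) + 4q(-4k)`.
* `mb_isSC`, `hb_tan`, `hb_surj`: from `mm_isSC`, `hd_tan`, `hd_surj`, `Sig_*`.
* `hb_lin`: `hb C cx cy a b = a hb 1 0 + b hb 0 1`, `hb` of opposite direction is the opposite,
  `DF` is linear in `(a,b)`, `rho4`, `Sig` are linear.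
* `hb_perp`: `dot3 (hb 1 0) (hb 0 1) = 0`.
-/

namespace H70Net

def Band (C : Curve) (cx cy : ℤ) : Prop :=
  cx % 2 = 1 ∧ cy % 2 = 1 ∧ total C cx cy = 1 ∧
    total C (cx + 2 * (7 * C.q - C.p)) (cy + 6 * C.q) = 0

noncomputable def mb (C : Curve) (cx cy : ℤ) : ℤ × ℤ × ℤ :=
  if -4 * C.q < cy then mm C cx cy else Sig (mm C (-12 * C.q - cx) (-8 * C.q - cy))

noncomputable def hb (C : Curve) (cx cy a b : ℤ) : ℤ × ℤ × ℤ :=
  if -4 * C.q < cy then hd C cx cy a b
  else Sig (hd C (-12 * C.q - cx) (-8 * C.q - cy) (-a) (-b))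

theorem band_top (C : Curve) (cx cy : ℤ) (h : -4 * C.q < cy) : Band C cx cy ↔ Top C cx cy := by
  unfold Band Top
  have hq := C_q_pos C
  have h5 := C.hpq
  have h6 := C.hp
  have h7 := total_above C (cx + 2 * (7 * C.q - C.p)) (cy + 6 * C.q) (by omega)
  constructor
  · rintro ⟨h1, h2, h3, -⟩
    exact ⟨h1, h2, h, h3⟩
  · rintro ⟨h1, h2, -, h3⟩
    exact ⟨h1, h2, h3, h7⟩

theorem band_bot (C : Curve) (cx cy : ℤ) (h : cy < -4 * C.q) :
    Band C cx cy ↔ Top C (-12 * C.q - cx) (-8 * C.q - cy) := by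
  unfold Band Top
  have hq := C_q_pos C
  have h5 := C.hpq
  have h6 := C.hp
  constructor
  · rintro ⟨h1, h2, -, h4⟩
    refine ⟨by omega, by omega, by omega, ?_⟩
    have h8 := total_half C (cx + 2 * (7 * C.q - C.p)) (cy + 6 * C.q) (by omega) (by omega)
    rw [h4, show 2 * (C.q - C.p) - (cx + 2 * (7 * C.q - C.p)) = -12 * C.q - cx by ring,
      show -2 * C.q - (cy + 6 * C.q) = -8 * C.q - cy by ring] at h8
    rw [h8, sub_zero]
  · rintro ⟨h1, h2, -, h4⟩
    have h9 : cx % 2 = 1 := by omega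
    refine ⟨h9, by omega, total_below C cx cy h9 (by omega), ?_⟩
    have h8 := total_half C (cx + 2 * (7 * C.q - C.p)) (cy + 6 * C.q) (by omega) (by omega)
    rw [show 2 * (C.q - C.p) - (cx + 2 * (7 * C.q - C.p)) = -12 * C.q - cx by ring,
      show -2 * C.q - (cy + 6 * C.q) = -8 * C.q - cy by ring, h4] at h8
    omega

theorem band_range (C : Curve) (cx cy : ℤ) (h : Band C cx cy) :
    -8 * C.q - C.p < cy ∧ cy < C.p := by
  obtain ⟨h1, h2, h3, h4⟩ := h
  constructor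
  · by_contra hc
    have := total_below C (cx + 2 * (7 * C.q - C.p)) (cy + 6 * C.q) (by omega) (by omega)
    omega
  · by_contra hc
    have := total_above C cx cy (by omega)
    omega

theorem band_shift (C : Curve) (cx cy k : ℤ) : Band C (cx + 16 * C.q * k) cy ↔ Band C cx cy := by
  unfold Band
  have e1 : cx + 16 * C.q * k = cx + 4 * (4 * k) * C.q := by ring
  have e2 : cx + 16 * C.q * k + 2 * (7 * C.q - C.p) =
      cx + 2 * (7 * C.q - C.p) + 4 * (4 * k) * C.q := by ring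
  have e3 : (cx + 16 * C.q * k) % 2 = cx % 2 := by
    rw [show cx + 16 * C.q * k = cx + 2 * (8 * C.q * k) by ring]
    omega
  rw [e3, e2, total_shift, e1, total_shift]

theorem mb_shift (C : Curve) (cx cy k a b : ℤ) :
    mb C (cx + 16 * C.q * k) cy = mb C cx cy ∧
    hb C (cx + 16 * C.q * k) cy a b = hb C cx cy a b := by
  have e1 : cx + 16 * C.q * k = cx + 4 * C.q * (4 * k) := by ring
  have e2 : -12 * C.q - (cx + 16 * C.q * k) = -12 * C.q - cx + 4 * C.q * (4 * -k) := by ring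
  have hr : ∀ (j : ℤ) (m : ℤ × ℤ × ℤ), rho4 (4 * j) m = m := by
    intro j m
    unfold rho4
    rw [if_pos (by omega)]
  unfold mb hb
  split_ifs with h
  · rw [e1, (mm_shift C cx cy (4 * k) a b).1, (mm_shift C cx cy (4 * k) a b).2, hr, hr]
    exact ⟨rfl, rfl⟩
  · rw [e2, (mm_shift C (-12 * C.q - cx) (-8 * C.q - cy) (4 * -k) (-a) (-b)).1,
      (mm_shift C (-12 * C.q - cx) (-8 * C.q - cy) (4 * -k) (-a) (-b)).2, hr, hr]
    exact ⟨rfl, rfl⟩

theorem mb_isSC (C : Curve) (cx cy : ℤ) (h : Band C cx cy) : isSC C.q (mb C cx cy) := by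
  unfold mb
  split_ifs with h1
  · exact mm_isSC C cx cy ((band_top C cx cy h1).1 h)
  · have h2 : cy < -4 * C.q := by
      have := h.2.1
      omega
    exact Sig_isSC _ _ (mm_isSC C _ _ ((band_bot C cx cy h2).1 h))

theorem hb_tan (C : Curve) (cx cy a b : ℤ) (h : Band C cx cy) (hab : a * a + b * b = 1) :
    isTan C.q (mb C cx cy) (hb C cx cy a b) := by
  unfold mb hb
  split_ifs with h1
  · exact hd_tan C cx cy a b ((band_top C cx cy h1).1 h) hab
  · have h2 : cy < -4 * C.q := by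
      have := h.2.1
      omega
    exact (Sig_isTan _ (C_q_pos C) _ _).2
      (hd_tan C _ _ (-a) (-b) ((band_bot C cx cy h2).1 h) (by rw [neg_mul_neg, neg_mul_neg]; exact hab))

theorem hb_surj (C : Curve) (cx cy : ℤ) (h : Band C cx cy) (u : ℤ × ℤ × ℤ)
    (hu : isTan C.q (mb C cx cy) u) : ∃ a b : ℤ, a * a + b * b = 1 ∧ hb C cx cy a b = u := by
  unfold mb at hu
  unfold hb
  split_ifs at hu ⊢ with h1
  · exact hd_surj C cx cy ((band_top C cx cy h1).1 h) u hu
  · have h2 : cy < -4 * C.q := by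
      have := h.2.1
      omega
    have h3 : isTan C.q (mm C (-12 * C.q - cx) (-8 * C.q - cy)) (Sig u) := by
      have h4 := (Sig_isTan C.q (C_q_pos C) (Sig (mm C (-12 * C.q - cx) (-8 * C.q - cy))) u).2 hu
      rwa [Sig_Sig] at h4
    obtain ⟨a, b, hab, h5⟩ := hd_surj C _ _ ((band_bot C cx cy h2).1 h) (Sig u) h3
    refine ⟨-a, -b, by rw [neg_mul_neg, neg_mul_neg]; exact hab, ?_⟩
    rw [neg_neg, neg_neg, h5, Sig_Sig]

private theorem band_DF_lin (κ a b : ℤ) : DF κ a b = a • DF κ 1 0 + b • DF κ 0 1 := by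
  unfold DF rx ry
  split_ifs <;>
    simp only [Prod.smul_mk, Prod.mk_add_mk, Prod.mk.injEq, smul_eq_mul] <;>
    refine ⟨by ring, by ring, by ring⟩

private theorem band_rho4_lin (j a b : ℤ) (m m' : ℤ × ℤ × ℤ) :
    rho4 j (a • m + b • m') = a • rho4 j m + b • rho4 j m' := by
  unfold rho4
  split_ifs <;> refine Prod.ext ?_ (Prod.ext ?_ ?_) <;>
    simp only [Prod.fst_add, Prod.snd_add, Prod.smul_fst, Prod.smul_snd, smul_eq_mul] <;> ring

private theorem band_Sig_lin (a b : ℤ) (m m' : ℤ × ℤ × ℤ) :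
    Sig (a • m + b • m') = a • Sig m + b • Sig m' := by
  unfold Sig
  refine Prod.ext ?_ (Prod.ext ?_ ?_) <;>
    simp only [Prod.fst_add, Prod.snd_add, Prod.smul_fst, Prod.smul_snd, smul_eq_mul]
  ring

private theorem band_hd_lin (C : Curve) (cx cy a b : ℤ) :
    hd C cx cy a b = a • hd C cx cy 1 0 + b • hd C cx cy 0 1 := by
  unfold hd
  rw [band_DF_lin, band_rho4_lin]

private theorem band_DF_perp (κ : ℤ) : dot3 (DF κ 1 0) (DF κ 0 1) = 0 ∧ isUnit3 (DF κ 1 0) ∧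
    isUnit3 (DF κ 0 1) := by
  have h3 : κ % 3 = 0 ∨ κ % 3 = 1 ∨ κ % 3 = 2 := by omega
  have h4 : κ % 4 = 0 ∨ κ % 4 = 1 ∨ κ % 4 = 2 ∨ κ % 4 = 3 := by omega
  rcases h3 with h3 | h3 | h3
  · have h3' : (κ + 1) % 3 = 1 := by omega
    rcases h4 with h4 | h4 | h4 | h4 <;>
      simp [DF, rx, ry, e3, dot3, isUnit3, h3, h3', h4]
  · have h3' : (κ + 1) % 3 = 2 := by omega
    rcases h4 with h4 | h4 | h4 | h4 <;>
      simp [DF, rx, ry, e3, dot3, isUnit3, h3, h3', h4]
  · have h3' : (κ + 1) % 3 = 0 := by omega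
    rcases h4 with h4 | h4 | h4 | h4 <;>
      simp [DF, rx, ry, e3, dot3, isUnit3, h3, h3', h4]

private theorem band_rho4_dot (j : ℤ) (m m' : ℤ × ℤ × ℤ) :
    dot3 (rho4 j m) (rho4 j m') = dot3 m m' := by
  obtain ⟨x, y, z⟩ := m
  obtain ⟨x', y', z'⟩ := m'
  unfold rho4 dot3
  split_ifs <;> dsimp only <;> ring

private theorem band_Sig_dot (m m' : ℤ × ℤ × ℤ) : dot3 (Sig m) (Sig m') = dot3 m m' := by
  obtain ⟨x, y, z⟩ := m
  obtain ⟨x', y', z'⟩ := m'
  unfold Sig dot3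
  dsimp only
  ring

private theorem band_rho4_unit (j : ℤ) (m : ℤ × ℤ × ℤ) (h : isUnit3 m) : isUnit3 (rho4 j m) := by
  rcases h with rfl | rfl | rfl | rfl | rfl | rfl <;> unfold rho4 <;> split_ifs <;>
    simp [isUnit3]

private theorem band_Sig_unit (m : ℤ × ℤ × ℤ) (h : isUnit3 m) : isUnit3 (Sig m) := by
  rcases h with rfl | rfl | rfl | rfl | rfl | rfl <;> unfold Sig <;>
    simp [isUnit3]

private theorem band_neg_unit (m : ℤ × ℤ × ℤ) (h : isUnit3 m) : isUnit3 (-m) := by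
  rcases h with rfl | rfl | rfl | rfl | rfl | rfl <;>
    simp [isUnit3]

private theorem band_neg_dot (m m' : ℤ × ℤ × ℤ) : dot3 (-m) (-m') = dot3 m m' := by
  obtain ⟨x, y, z⟩ := m
  obtain ⟨x', y', z'⟩ := m'
  unfold dot3
  simp only [Prod.neg_mk]
  ring

private theorem band_hd_perp (C : Curve) (cx cy : ℤ) :
    dot3 (hd C cx cy 1 0) (hd C cx cy 0 1) = 0 ∧ isUnit3 (hd C cx cy 1 0) ∧
      isUnit3 (hd C cx cy 0 1) := by
  unfold hd
  obtain ⟨h1, h2, h3⟩ := band_DF_perp (kap C (cx % (4 * C.q)) cy)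
  exact ⟨by rw [band_rho4_dot]; exact h1, band_rho4_unit _ _ h2, band_rho4_unit _ _ h3⟩

private theorem band_hd_neg (C : Curve) (cx cy : ℤ) :
    hd C cx cy (-1) 0 = -hd C cx cy 1 0 ∧ hd C cx cy 0 (-1) = -hd C cx cy 0 1 := by
  constructor
  · rw [band_hd_lin C cx cy (-1) 0]
    simp
  · rw [band_hd_lin C cx cy 0 (-1)]
    simp

theorem hb_lin (C : Curve) (cx cy a b : ℤ) :
    hb C cx cy a b = a • hb C cx cy 1 0 + b • hb C cx cy 0 1 := by
  unfold hb
  split_ifs with h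
  · exact band_hd_lin C cx cy a b
  · rw [neg_zero, (band_hd_neg C _ _).1, (band_hd_neg C _ _).2, band_hd_lin, neg_smul, neg_smul,
      ← smul_neg, ← smul_neg, band_Sig_lin]

theorem hb_perp (C : Curve) (cx cy : ℤ) :
    dot3 (hb C cx cy 1 0) (hb C cx cy 0 1) = 0 ∧ isUnit3 (hb C cx cy 1 0) ∧
      isUnit3 (hb C cx cy 0 1) := by
  unfold hb
  split_ifs with h
  · exact band_hd_perp C cx cy
  · rw [neg_zero, (band_hd_neg C _ _).1, (band_hd_neg C _ _).2]
    obtain ⟨h1, h2, h3⟩ := band_hd_perp C (-12 * C.q - cx) (-8 * C.q - cy)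
    exact ⟨by rw [band_Sig_dot, band_neg_dot]; exact h1, band_Sig_unit _ (band_neg_unit _ h2),
      band_Sig_unit _ (band_neg_unit _ h3)⟩

end H70Net
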