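import Pool.Agent.H70.Net.TopMap

/-!
MP_77daaf_co, module `TopAdj` : neighbouring cells in the plane are neighbouring on the surface.
PROOF: see the header of module `TopMap`.
-/

namespace H70Net

private theorem topadj_noedge (C : Curve) (cx cy a b : ℤ) (hcx : cx % 2 = 1) (hcy : cy % 2 = 1)
    (hab : (a = 0 ∧ (b = 1 ∨ b = -1)) ∨ (b = 0 ∧ (a = 1 ∨ a = -1)))
    (h1 : total C cx cy = 1) (h2 : total C (cx + 2 * a) (cy + 2 * b) = 1) :
    ∀ i, ¬ (sx C i = cx + a ∧ sy C i = cy + b) := by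
  rintro i ⟨h3, h4⟩
  have h5 := total_edge C i
  unfold rcx rcy lcx lcy at h5
  rcases edge_cases C i with ⟨e1, e2, e3, e4⟩ | ⟨e1, e2, e3, e4⟩
  · have ha : a = 0 := by omega
    rw [h3, h4, e2, ha] at h5
    simp only [ha, mul_zero, add_zero] at h2
    simp only [add_zero, sub_zero] at h5
    have hb : b = 1 ∨ b = -1 := by omega
    rcases e1 with e1 | e1 <;> rcases hb with hb | hb <;> rw [e1, hb] at h5 <;> rw [hb] at h2
    · rw [show cy + 1 - 1 = cy by ring, show cy + 1 + 1 = cy + 2 * 1 by ring, h1, h2] at h5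
      omega
    · rw [show cy + -1 - 1 = cy + 2 * -1 by ring, show cy + -1 + 1 = cy by ring, h1, h2] at h5
      omega
    · rw [show cy + 1 - -1 = cy + 2 * 1 by ring, show cy + 1 + -1 = cy by ring, h1, h2] at h5
      omega
    · rw [show cy + -1 - -1 = cy by ring, show cy + -1 + -1 = cy + 2 * -1 by ring, h1, h2] at h5
      omega
  · have hb : b = 0 := by omega
    rw [h3, h4, e1, hb] at h5
    simp only [hb, mul_zero, add_zero] at h2
    simp only [add_zero, sub_zero] at h5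
    have ha : a = 1 ∨ a = -1 := by omega
    rcases e2 with e2 | e2 <;> rcases ha with ha | ha <;> rw [e2, ha] at h5 <;> rw [ha] at h2
    · rw [show cx + 1 - 1 = cx by ring, show cx + 1 + 1 = cx + 2 * 1 by ring, h1, h2] at h5
      omega
    · rw [show cx + -1 - 1 = cx + 2 * -1 by ring, show cx + -1 + 1 = cx by ring, h1, h2] at h5
      omega
    · rw [show cx + 1 - -1 = cx + 2 * 1 by ring, show cx + 1 + -1 = cx by ring, h1, h2] at h5
      omega
    · rw [show cx + -1 - -1 = cx by ring, show cx + -1 + -1 = cx + 2 * -1 by ring, h1, h2] at h5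
      omega

private theorem topadj_kap (C : Curve) (cx cy a b : ℤ) (hcx : cx % 2 = 1) (hcy : cy % 2 = 1)
    (hab : (a = 0 ∧ (b = 1 ∨ b = -1)) ∨ (b = 0 ∧ (a = 1 ∨ a = -1)))
    (h1 : total C cx cy = 1) (h2 : total C (cx + 2 * a) (cy + 2 * b) = 1) :
    -1 ≤ kap C (cx + 2 * a) (cy + 2 * b) - kap C cx cy ∧
      kap C (cx + 2 * a) (cy + 2 * b) - kap C cx cy ≤ 1 := by
  have h3 := topadj_noedge C cx cy a b hcx hcy hab h1 h2
  rcases hab with ⟨e1, e2 | e2⟩ | ⟨e1, e2 | e2⟩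
  · subst e1 e2
    rw [show cx + 2 * 0 = cx by ring, show cy + 2 * 1 = cy + 2 by ring]
    exact kap_up C cx cy hcx hcy (fun i _ hi => h3 i ⟨by omega, by omega⟩)
  · subst e1 e2
    rw [show cx + 2 * 0 = cx by ring, show cy + 2 * -1 = cy - 2 by ring]
    have h4 := kap_up C cx (cy - 2) hcx (by omega) (fun i _ hi => h3 i ⟨by omega, by omega⟩)
    rw [show cy - 2 + 2 = cy by ring] at h4
    omega
  · subst e1 e2
    rw [show cx + 2 * 1 = cx + 2 by ring, show cy + 2 * 0 = cy by ring]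
    exact kap_right C cx cy hcx hcy (fun i _ hi => h3 i ⟨by omega, by omega⟩)
  · subst e1 e2
    rw [show cx + 2 * -1 = cx - 2 by ring, show cy + 2 * 0 = cy by ring]
    have h4 := kap_right C (cx - 2) cy (by omega) hcy (fun i _ hi => h3 i ⟨by omega, by omega⟩)
    rw [show cx - 2 + 2 = cx by ring] at h4
    omega

private theorem topadj_dir (a b : ℤ) (hab : a * a + b * b = 1) :
    (a = 0 ∧ (b = 1 ∨ b = -1)) ∨ (b = 0 ∧ (a = 1 ∨ a = -1)) := by
  have h1 : a * a ≤ 1 := by nlinarith [mul_self_nonneg b]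
  have h2 : b * b ≤ 1 := by nlinarith [mul_self_nonneg a]
  have h3 : -1 ≤ a ∧ a ≤ 1 := ⟨by nlinarith, by nlinarith⟩
  have h4 : -1 ≤ b ∧ b ≤ 1 := ⟨by nlinarith, by nlinarith⟩
  have h5 : a = -1 ∨ a = 0 ∨ a = 1 := by omega
  have h6 : b = -1 ∨ b = 0 ∨ b = 1 := by omega
  rcases h5 with rfl | rfl | rfl <;> rcases h6 with rfl | rfl | rfl <;> simp at hab ⊢

private theorem topadj_base (C : Curve) (cx cy a b : ℤ) (hab : a * a + b * b = 1)
    (h : Top C cx cy) (h' : Top C (cx + 2 * a) (cy + 2 * b)) (h0 : 0 ≤ cx) (h1 : cx < 4 * C.q) :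
    mm C (cx + 2 * a) (cy + 2 * b) = surfadv C.q (mm C cx cy) (hd C cx cy a b) ∧
    ∀ a' b' : ℤ, a' * a' + b' * b' = 1 →
      hd C (cx + 2 * a) (cy + 2 * b) a' b' =
        tr C.q (mm C cx cy) (hd C cx cy a b) (hd C cx cy a' b') := by
  have hp := C.hp
  have hpq := C.hpq
  have hd1 := topadj_dir a b hab
  obtain ⟨p1, p2, p3, p4⟩ := h
  obtain ⟨q1, q2, q3, q4⟩ := h'
  have hk := topadj_kap C cx cy a b p1 p2 hd1 p4 q4
  have hlt := Top_lt C cx cy ⟨p1, p2, p3, p4⟩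
  have hlt' := Top_lt C (cx + 2 * a) (cy + 2 * b) ⟨q1, q2, q3, q4⟩
  obtain ⟨m1, m2⟩ := mm_chart C cx cy ⟨p1, p2, p3, p4⟩ (by omega) (by omega)
  obtain ⟨m3, m4⟩ := mm_chart C (cx + 2 * a) (cy + 2 * b) ⟨q1, q2, q3, q4⟩ (by omega) (by omega)
  have k1 := kap_quad C cx cy p1 p2
  have k2 := kap_quad C (cx + 2 * a) (cy + 2 * b) q1 q2
  have e1 : cx + 2 * a - 2 * C.q = cx - 2 * C.q + 2 * a := by ring
  have e2 : cy + 2 * b + 2 * C.q = cy + 2 * C.q + 2 * b := by ring
  rw [e1, e2] at k2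
  have key := Fw_adv C.q (kap C cx cy) (kap C (cx + 2 * a) (cy + 2 * b)) (cx - 2 * C.q)
    (cy + 2 * C.q) a b hab (by omega) (by omega) k1.1 k1.2 k2.1 k2.2 hk.1 hk.2 (by omega)
    (by omega) (by omega) (by omega) (by omega) (by omega) (by omega) (by omega)
  unfold Fi at m1 m3
  rw [e1, e2] at m3
  constructor
  · rw [m1, m3, m2]
    exact key.1
  · intro a' b' hab'
    rw [m1, m2, m2, m4]
    exact key.2 a' b' hab'

theorem top_adj (C : Curve) (cx cy a b : ℤ) (hab : a * a + b * b = 1) (h : Top C cx cy)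
    (h' : Top C (cx + 2 * a) (cy + 2 * b)) :
    mm C (cx + 2 * a) (cy + 2 * b) = surfadv C.q (mm C cx cy) (hd C cx cy a b) ∧
    ∀ a' b' : ℤ, a' * a' + b' * b' = 1 →
      hd C (cx + 2 * a) (cy + 2 * b) a' b' =
        tr C.q (mm C cx cy) (hd C cx cy a b) (hd C cx cy a' b') := by
  have hp := C.hp
  have hpq := C.hpq
  have hq : 0 < C.q := C_q_pos C
  have e0 := Int.emod_add_mul_ediv cx (4 * C.q)
  have e1 := Int.emod_nonneg cx (b := 4 * C.q) (by omega)
  have e2 := Int.emod_lt_of_pos cx (b := 4 * C.q) (by omega)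
  generalize hj : cx / (4 * C.q) = j at e0
  generalize hx : cx % (4 * C.q) = x at e0 e1 e2
  clear hj hx
  subst e0
  have e3 : x + 4 * C.q * j + 2 * a = x + 2 * a + 4 * C.q * j := by ring
  rw [e3] at h' ⊢
  rw [Top_shift] at h h'
  obtain ⟨k1, k2⟩ := topadj_base C x cy a b hab h h' e1 e2
  constructor
  · rw [(mm_shift C x cy j a b).1, (mm_shift C x cy j a b).2,
      (mm_shift C (x + 2 * a) (cy + 2 * b) j a b).1, k1, rho4_surfadv C.q hq]
  · intro a' b' hab'
    rw [(mm_shift C x cy j a b).1, (mm_shift C x cy j a b).2, (mm_shift C x cy j a' b').2,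
      (mm_shift C (x + 2 * a) (cy + 2 * b) j a' b').2, k2 a' b' hab', rho4_tr C.q hq]

end H70Net
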