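import Pool.Agent.H70.Net.TopMap

/-!
MP_77daaf_co, module `TopZip` : across an edge of the curve, the neighbour on the surface is the cell
across the partner edge.

PROOF.  Let the edge be `i` (`sx i = cx + a`, `sy i = cy + b`); `(cx,cy) = rc i` (`edge_cells`), and
`(cx + 2a, cy + 2b) = lc i`.  Translating by a multiple of `(4q, 0)` (`mm_shift`, `Top_shift`,
`vx_two`, `vy_two`: index shift by a multiple of `2n`) we may assume `0 ≤ i < 2n`
(`i % (2n)`); then `-p < sx i < 4q + p` (`sx_range` with `j = 0, 1`), so `(cx, cy)` and the other cell are in the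
domain of `mm_chart` (`|cx - sx i| ≤ 1`).
 Case `0 ≤ i < n`: `c' = rc (2n-1-i) = R (lc i)` (`zip_rc`), `Top c'` (`total_rc`, and `cy' ≥ -2q-p-1 > -4q`
   from `sy_range`).  `kap c' = kap (lc i) - 1` (`kap_zip`), put `κ' = kap (lc i) - 4`, so
   `kap c' = κ' + 3`; `|κ' - kap (rc i)| ≤ 1` (`kap_edge`).  `mm c' = Fi (κ'+3) (R (lc i))
   = Fi κ' (lc i)` (`rx_rot`, `Fw_three`) `= surfadv (Fi (kap (rc i)) (rc i)) (DF ..)` (`Fw_adv`,
   `kap_quad` for `lc i` gives the quadrant of `κ'` as `κ' ≡ kap (lc i) mod 4`).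
 Case `n ≤ i < 2n`: `i = 2n - 1 - i'`, `0 ≤ i' < n`, `c' = rc i'`; `rc i = R (lc i')`, `lc i = R (rc i')`.
   `kap (lc i) = kap (rc i') + 3` (`kap_zip'`), `|kap (lc i) - kap (rc i)| ≤ 1` (`kap_edge_fut`), and
   `mm c' = Fi (kap (rc i')) (rc i') = Fi (kap (rc i') + 3) (R (rc i')) = Fi (kap (lc i)) (lc i)
   = surfadv ...` (`Fw_adv`).
-/

namespace H70Net

private theorem tz_parity (C : Curve) (i : ℤ) :
    rcx C i % 2 = 1 ∧ rcy C i % 2 = 1 ∧ lcx C i % 2 = 1 ∧ lcy C i % 2 = 1 := by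
  unfold rcx rcy lcx lcy
  rcases edge_cases C i with ⟨h1, h2, h3, h4⟩ | ⟨h1, h2, h3, h4⟩ <;> omega

private theorem tz_bd (C : Curve) (i : ℤ) :
    -2 * C.q - C.p - 1 < rcy C i ∧ rcy C i < C.p + 1 ∧
    -2 * C.q - C.p - 1 < lcy C i ∧ lcy C i < C.p + 1 ∧
    sx C i - 1 ≤ rcx C i ∧ rcx C i ≤ sx C i + 1 := by
  have h0 := sy_range C i
  unfold rcx rcy lcy
  rcases edge_cases C i with ⟨h1, h2, h3, h4⟩ | ⟨h1, h2, h3, h4⟩ <;> omega

private theorem tz_top (C : Curve) (i : ℤ) : Top C (rcx C i) (rcy C i) := by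
  obtain ⟨h1, h2, -, -⟩ := tz_parity C i
  have h3 := tz_bd C i
  have hpq := C.hpq
  have hp := C.hp
  exact ⟨h1, h2, by omega, total_rc C i⟩

private theorem tz_sq (a b : ℤ) (h3 : a * a + b * b = 1) :
    (a = 0 ∧ (b = 1 ∨ b = -1)) ∨ (b = 0 ∧ (a = 1 ∨ a = -1)) := by
  have ha1 : a ≤ 1 := by nlinarith
  have ha2 : -1 ≤ a := by nlinarith
  have hb1 : b ≤ 1 := by nlinarith
  have hb2 : -1 ≤ b := by nlinarith
  interval_cases a <;> interval_cases b <;> simp_all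

private theorem tz_rx4 (κ x y : ℤ) : rx (κ - 4) x y = rx κ x y ∧ ry (κ - 4) x y = ry κ x y := by
  unfold rx ry
  have h : (κ - 4) % 4 = κ % 4 := by omega
  rw [h]
  exact ⟨rfl, rfl⟩

private theorem tz_base (C : Curve) (cx cy a b i : ℤ) (hab : a * a + b * b = 1) (h : Top C cx cy)
    (h1 : sx C i = cx + a) (h2 : sy C i = cy + b) (hi0 : 0 ≤ i) (hi1 : i < 2 * C.n) :
    ∃ cx' cy' : ℤ, Top C cx' cy' ∧
      mm C cx' cy' = surfadv C.q (mm C cx cy) (hd C cx cy a b) := by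
  have hpq := C.hpq
  have hp := C.hp
  have hlt := Top_lt C cx cy h
  obtain ⟨p1, p2, p3, p4⟩ := h
  have hcell := edge_cells C i cx cy (cx + 2 * a) (cy + 2 * b) p1 p2 (by rw [h1]; ring)
    (by rw [h2]; ring) (by rw [h1, h2]; linarith) p4
  obtain ⟨c1, c2, c3, c4⟩ := hcell
  have hs := tz_sq a b hab
  have l1 := lt_sx C i 0 (by omega)
  have l2 := sx_lt C i 2 hi1
  have hch := mm_chart C cx cy ⟨p1, p2, p3, p4⟩ (by omega) (by omega)
  have kq := kap_quad C cx cy p1 p2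
  obtain ⟨r1, r2, r3, r4⟩ := tz_parity C i
  have kq' := kap_quad C (lcx C i) (lcy C i) r3 r4
  have bd := tz_bd C i
  rcases lt_or_ge i C.n with hin | hin
  · -- first arm
    refine ⟨rcx C (2 * C.n - 1 - i), rcy C (2 * C.n - 1 - i), tz_top C _, ?_⟩
    obtain ⟨z1, z2, -, -⟩ := zip_rc C i hi0 hin
    have hch' := (mm_chart C (rcx C (2 * C.n - 1 - i)) (rcy C (2 * C.n - 1 - i)) (tz_top C _)
      (by rw [z1]; omega) (by rw [z1]; omega)).1
    have hz := kap_zip C i hi0 hin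
    have he := kap_edge C i hin
    rw [← c1, ← c2] at he
    rw [hch', hch.1, hch.2 a b, z1, z2, hz]
    unfold Fi
    have x1 := rx_rot (kap C (lcx C i) (lcy C i) - 4) (lcx C i - 2 * C.q) (lcy C i + 2 * C.q)
    have x2 := Fw_three C.q (kap C (lcx C i) (lcy C i) - 4)
      (rx (kap C (lcx C i) (lcy C i) - 4) (lcx C i - 2 * C.q) (lcy C i + 2 * C.q))
      (ry (kap C (lcx C i) (lcy C i) - 4) (lcx C i - 2 * C.q) (lcy C i + 2 * C.q))
    have x3 := tz_rx4 (kap C (lcx C i) (lcy C i)) (lcx C i - 2 * C.q) (lcy C i + 2 * C.q)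
    have e1 : 4 * C.q + lcy C i - 2 * C.q = lcy C i + 2 * C.q := by ring
    have e2 : -lcx C i + 2 * C.q = -(lcx C i - 2 * C.q) := by ring
    have e3' : kap C (lcx C i) (lcy C i) - 1 = kap C (lcx C i) (lcy C i) - 4 + 3 := by ring
    rw [e1, e2, e3', x1.1, x1.2, x2]
    have f1 : lcx C i - 2 * C.q = (cx - 2 * C.q) + 2 * a := by rw [← c3]; ring
    have f2 : lcy C i + 2 * C.q = (cy + 2 * C.q) + 2 * b := by rw [← c4]; ring
    rw [f1, f2] at kq' x3 ⊢
    exact (Fw_adv C.q (kap C cx cy) (kap C (lcx C i) (lcy C i) - 4) (cx - 2 * C.q) (cy + 2 * C.q)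
      a b hab (by omega) (by omega) kq.1 kq.2 (by rw [x3.1]; exact kq'.1)
      (by rw [x3.2]; exact kq'.2) (by omega) (by omega) (by omega) (by omega) (by omega) (by omega)
      (by omega) (by omega) (by omega) (by omega)).1
  · -- second arm
    obtain ⟨i', hi'⟩ : ∃ i', i' = 2 * C.n - 1 - i := ⟨_, rfl⟩
    have hii : i = 2 * C.n - 1 - i' := by omega
    have l1' := lt_sx C i' 0 (by omega)
    have l2' := sx_lt C i' 1 (by omega)
    have bd' := tz_bd C i'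
    refine ⟨rcx C i', rcy C i', tz_top C _, ?_⟩
    obtain ⟨-, -, z3, z4⟩ := zip_rc C i' (by omega) (by omega)
    rw [← hii] at z3 z4
    have hch' := (mm_chart C (rcx C i') (rcy C i') (tz_top C _) (by omega) (by omega)).1
    have hz := kap_zip' C i' (by omega) (by omega)
    rw [← z3, ← z4] at hz
    have he := kap_edge_fut C i hin
    rw [← c1, ← c2] at he
    rw [hch', hch.1, hch.2 a b]
    unfold Fi
    have x1 := rx_rot (kap C (rcx C i') (rcy C i')) (rcx C i' - 2 * C.q) (rcy C i' + 2 * C.q)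
    have x2 := Fw_three C.q (kap C (rcx C i') (rcy C i'))
      (rx (kap C (rcx C i') (rcy C i')) (rcx C i' - 2 * C.q) (rcy C i' + 2 * C.q))
      (ry (kap C (rcx C i') (rcy C i')) (rcx C i' - 2 * C.q) (rcy C i' + 2 * C.q))
    rw [← x2, ← x1.1, ← x1.2, ← hz]
    have e1 : rcy C i' + 2 * C.q = (cx - 2 * C.q) + 2 * a := by
      have : cx + 2 * a = 4 * C.q + rcy C i' := c3.trans z3
      linarith
    have e2 : -(rcx C i' - 2 * C.q) = (cy + 2 * C.q) + 2 * b := by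
      have : cy + 2 * b = -rcx C i' := c4.trans z4
      linarith
    have f1 : lcx C i - 2 * C.q = (cx - 2 * C.q) + 2 * a := by rw [← c3]; ring
    have f2 : lcy C i + 2 * C.q = (cy + 2 * C.q) + 2 * b := by rw [← c4]; ring
    rw [f1, f2] at kq'
    rw [e1, e2]
    exact (Fw_adv C.q (kap C cx cy) (kap C (lcx C i) (lcy C i)) (cx - 2 * C.q) (cy + 2 * C.q)
      a b hab (by omega) (by omega) kq.1 kq.2 kq'.1 kq'.2 (by omega) (by omega) (by omega)
      (by omega) (by omega) (by omega) (by omega) (by omega) (by omega) (by omega)).1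

theorem top_zip (C : Curve) (cx cy a b i : ℤ) (hab : a * a + b * b = 1) (h : Top C cx cy)
    (h1 : sx C i = cx + a) (h2 : sy C i = cy + b) :
    ∃ cx' cy' : ℤ, Top C cx' cy' ∧
      mm C cx' cy' = surfadv C.q (mm C cx cy) (hd C cx cy a b) := by
  have hn := C.hn
  obtain ⟨j, hj⟩ : ∃ j, j = i / (2 * C.n) := ⟨_, rfl⟩
  obtain ⟨i0, hi0⟩ : ∃ i0, i0 = i % (2 * C.n) := ⟨_, rfl⟩
  have hi : i = i0 + 2 * j * C.n := by
    have h3 := Int.mul_ediv_add_emod i (2 * C.n)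
    rw [← hj, ← hi0] at h3
    rw [← h3]; ring
  have h0 : 0 ≤ i0 := by rw [hi0]; exact Int.emod_nonneg _ (by omega)
  have h0' : i0 < 2 * C.n := by rw [hi0]; exact Int.emod_lt_of_pos _ (by omega)
  obtain ⟨c0, hc0⟩ : ∃ c0, c0 = cx - 4 * C.q * j := ⟨_, rfl⟩
  have hc : cx = c0 + 4 * C.q * j := by rw [hc0]; ring
  have s1 : sx C i = 4 * C.q * j + sx C i0 := by
    unfold sx
    rw [hi, show i0 + 2 * j * C.n + 1 = (i0 + 1) + 2 * j * C.n by ring, vx_two, vx_two]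
    ring
  have s2 : sy C i = sy C i0 := by
    unfold sy
    rw [hi, show i0 + 2 * j * C.n + 1 = (i0 + 1) + 2 * j * C.n by ring, vy_two, vy_two]
  rw [hc, Top_shift] at h
  obtain ⟨cx', cy', ht, hm⟩ := tz_base C c0 cy a b i0 hab h (by rw [hc0]; linarith)
    (by rw [← s2]; exact h2) h0 h0'
  refine ⟨cx' + 4 * C.q * j, cy', (Top_shift C cx' cy' j).2 ht, ?_⟩
  rw [hc, (mm_shift C cx' cy' j 0 0).1, (mm_shift C c0 cy j a b).1, (mm_shift C c0 cy j a b).2, hm,
    rho4_surfadv _ (C_q_pos C)]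

end H70Net
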