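import Pool.Agent.H70.Net.Band
import Pool.Agent.H70.Net.TopAdj
import Pool.Agent.H70.Net.TopZip

/-!
MP_77daaf_co, module `BandAdj` : neighbours in the band and on the surface.

PROOFS.
* `equator`: for a top cell `(cx, -4q+1)` and `c2 = (cx, -4q-1)`: `σ c2 = (-12q - cx, -4q+1)`.
  Translate by a multiple of `4q` so that `0 ≤ cx < 4q` (`rho4` and `Sig` satisfy
  `Sig (rho4 j m) = rho4 (-j) (Sig m)`).  As `-4q+1 ≤ -2q-p`: `past n cx cy = 1` if `cx < 2q` else `0`
  (`past_below`), so `kap cx (-4q+1) = 2` if `cx < 2q`, and `3` if `cx > 2q`.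
  Then both sides are explicit: for `cx < 2q`, `mm = (2q, cx, 1)`, `hd a b = (0, a, b)`, and for
  `2q < cx < 4q`: `mm = (4q - cx, 2q, 1)`, `hd a b = (-a, 0, b)`; the cell `(-12q-cx, -4q+1)` is
  `(4q·(-4) + (4q - cx), ...)`.
* `band_adj`: both cells in the upper half: `top_adj`; both in the lower half: `top_adj` for the images
  under `σ` (direction `(-a,-b)`) and `Sig_surfadv`, `Sig_tr`; one in each half: `cy = -4q ± 1`,
  `equator` (for `cy = -4q-1`, `b = 1`: apply it to `σ c`, and `Sig_Sig`).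
* `band_nbr`: `u = hb a b` (`hb_surj`).  Let `c2 = c + 2(a,b)`.  If `Band c2`: `band_adj`.  Otherwise, say
  `-4q < cy` (upper half).  If `total c2 = 0`: the common edge is in the curve (`edge_of_ne_*`) and
  `top_zip` gives the cell.  If `total c2 = 1` then `cy + 2b < -4q` (else `Top c2`, `Band c2` by
  `band_top`), and then `Band c2` by `band_bot` and ... the cell `σ c2` is in the row `-4q + 1`, which is
  `Top` by `total_below`; contradiction.  Lower half: apply the upper half case to `σ c`.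
-/

namespace H70Net

private theorem ba_dir (a b : ℤ) (hab : a * a + b * b = 1) :
    (a = 0 ∧ (b = 1 ∨ b = -1)) ∨ (b = 0 ∧ (a = 1 ∨ a = -1)) := by
  have h1 : a * a ≤ 1 := by nlinarith [mul_self_nonneg b]
  have h2 : b * b ≤ 1 := by nlinarith [mul_self_nonneg a]
  have h3 : -1 ≤ a ∧ a ≤ 1 := ⟨by nlinarith, by nlinarith⟩
  have h4 : -1 ≤ b ∧ b ≤ 1 := ⟨by nlinarith, by nlinarith⟩
  have h5 : a = -1 ∨ a = 0 ∨ a = 1 := by omega
  have h6 : b = -1 ∨ b = 0 ∨ b = 1 := by omega
  rcases h5 with rfl | rfl | rfl <;> rcases h6 with rfl | rfl | rfl <;> simp at hab ⊢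

private theorem ba_Sig_rho4 (j : ℤ) (m : ℤ × ℤ × ℤ) :
    Sig (rho4 (-4 - j) m) = rho4 j (Sig m) := by
  unfold Sig rho4
  have h : j % 4 = 0 ∨ j % 4 = 1 ∨ j % 4 = 2 ∨ j % 4 = 3 := by omega
  rcases h with h | h | h | h
  · have h' : (-4 - j) % 4 = 0 := by omega
    simp [h, h']
  · have h' : (-4 - j) % 4 = 3 := by omega
    simp [h, h']
  · have h' : (-4 - j) % 4 = 2 := by omega
    simp [h, h']
  · have h' : (-4 - j) % 4 = 1 := by omega
    simp [h, h']

/-- explicit values in the row `-4q + 1`, left half -/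
private theorem ba_left (C : Curve) (x : ℤ) (hx : x % 2 = 1) (h0 : 0 < x) (h1 : x < 2 * C.q) :
    mm C x (-4 * C.q + 1) = (2 * C.q, x, 1) ∧
    ∀ a b : ℤ, hd C x (-4 * C.q + 1) a b = (0, a, b) := by
  have hp := C.hp
  have hpq := C.hpq
  have e1 : x / (4 * C.q) = 0 := Int.ediv_eq_zero_of_lt h0.le (by omega)
  have e2 : x % (4 * C.q) = x := Int.emod_eq_of_lt h0.le (by omega)
  have hk : kap C x (-4 * C.q + 1) = 2 := by
    have h2 := past_below C C.n x (-4 * C.q + 1) hx (by omega)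
    rw [(v_n C).1, if_pos (by omega)] at h2
    unfold kap kdir
    rw [h2, if_pos (by omega), if_pos (by omega)]
    norm_num
  constructor
  · unfold mm
    rw [e1, e2, hk]
    simp [rho4, Fi, Fw, rx, ry, e3]
    ring
  · intro a b
    unfold hd
    rw [e1, e2, hk]
    simp [rho4, DF, rx, ry, e3]

/-- explicit values in the row `-4q + 1`, right half -/
private theorem ba_right (C : Curve) (x : ℤ) (hx : x % 2 = 1) (h0 : 2 * C.q < x)
    (h1 : x < 4 * C.q) :
    mm C x (-4 * C.q + 1) = (4 * C.q - x, 2 * C.q, 1) ∧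
    ∀ a b : ℤ, hd C x (-4 * C.q + 1) a b = (-a, 0, b) := by
  have hp := C.hp
  have hpq := C.hpq
  have e1 : x / (4 * C.q) = 0 := Int.ediv_eq_zero_of_lt (by omega) (by omega)
  have e2 : x % (4 * C.q) = x := Int.emod_eq_of_lt (by omega) (by omega)
  have hk : kap C x (-4 * C.q + 1) = 3 := by
    have h2 := past_below C C.n x (-4 * C.q + 1) hx (by omega)
    rw [(v_n C).1, if_neg (by omega)] at h2
    unfold kap kdir
    rw [h2, if_neg (by omega), if_pos (by omega)]
    norm_num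
  constructor
  · unfold mm
    rw [e1, e2, hk]
    simp [rho4, Fi, Fw, rx, ry, e3]
    constructor <;> ring
  · intro a b
    unfold hd
    rw [e1, e2, hk]
    simp [rho4, DF, rx, ry, e3]

private theorem ba_base (C : Curve) (x : ℤ) (hx : x % 2 = 1) (h0 : 0 < x) (h1 : x < 4 * C.q) :
    Sig (mm C (4 * C.q - x) (-4 * C.q + 1)) =
      surfadv C.q (mm C x (-4 * C.q + 1)) (hd C x (-4 * C.q + 1) 0 (-1)) ∧
    ∀ a b : ℤ, Sig (hd C (4 * C.q - x) (-4 * C.q + 1) (-a) (-b)) =
        tr C.q (mm C x (-4 * C.q + 1)) (hd C x (-4 * C.q + 1) 0 (-1))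
          (hd C x (-4 * C.q + 1) a b) := by
  have hp := C.hp
  have hpq := C.hpq
  rcases lt_or_ge x (2 * C.q) with h2 | h2
  · obtain ⟨m1, d1⟩ := ba_left C x hx h0 h2
    obtain ⟨m2, d2⟩ := ba_right C (4 * C.q - x) (by omega) (by omega) (by omega)
    have hbox : inBox C.q (2 * C.q, x, 1) (0, 0, -1) := by
      unfold inBox
      simp only
      omega
    rw [m1, m2, d1]
    constructor
    · unfold surfadv
      rw [if_pos hbox]
      unfold Sig
      simp only
      refine Prod.ext ?_ (Prod.ext ?_ ?_) <;> simp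
    · intro a b
      rw [d1, d2]
      unfold tr
      rw [if_pos hbox]
      unfold Sig
      simp
  · obtain ⟨m1, d1⟩ := ba_right C x hx (by omega) h1
    obtain ⟨m2, d2⟩ := ba_left C (4 * C.q - x) (by omega) (by omega) (by omega)
    have hbox : inBox C.q (4 * C.q - x, 2 * C.q, 1) (-0, 0, -1) := by
      unfold inBox
      simp only
      omega
    rw [m1, m2, d1]
    constructor
    · unfold surfadv
      rw [if_pos hbox]
      unfold Sig
      simp only
      refine Prod.ext ?_ (Prod.ext ?_ ?_) <;> simp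
    · intro a b
      rw [d1, d2]
      unfold tr
      rw [if_pos hbox]
      unfold Sig
      simp

theorem equator (C : Curve) (cx : ℤ) (hcx : cx % 2 = 1) :
    Top C cx (-4 * C.q + 1) ∧
    Sig (mm C (-12 * C.q - cx) (-4 * C.q + 1)) =
      surfadv C.q (mm C cx (-4 * C.q + 1)) (hd C cx (-4 * C.q + 1) 0 (-1)) ∧
    ∀ a b : ℤ, a * a + b * b = 1 →
      Sig (hd C (-12 * C.q - cx) (-4 * C.q + 1) (-a) (-b)) =
        tr C.q (mm C cx (-4 * C.q + 1)) (hd C cx (-4 * C.q + 1) 0 (-1))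
          (hd C cx (-4 * C.q + 1) a b) := by
  have hp := C.hp
  have hpq := C.hpq
  have hq : 0 < C.q := C_q_pos C
  refine ⟨⟨hcx, by omega, by omega, total_below C _ _ hcx (by omega)⟩, ?_⟩
  have e0 := Int.emod_add_mul_ediv cx (4 * C.q)
  have e1 := Int.emod_nonneg cx (b := 4 * C.q) (by omega)
  have e2 := Int.emod_lt_of_pos cx (b := 4 * C.q) (by omega)
  generalize hj : cx / (4 * C.q) = j at e0
  generalize hx : cx % (4 * C.q) = x at e0 e1 e2
  clear hj hx
  subst e0
  have hxo : x % 2 = 1 := by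
    have : (x + 4 * C.q * j) % 2 = x % 2 := by
      rw [show x + 4 * C.q * j = x + 2 * (2 * C.q * j) by ring]
      omega
    omega
  obtain ⟨k1, k2⟩ := ba_base C x hxo (by omega) e2
  have e3 : -12 * C.q - (x + 4 * C.q * j) = 4 * C.q - x + 4 * C.q * (-4 - j) := by ring
  rw [e3]
  constructor
  · rw [(mm_shift C (4 * C.q - x) (-4 * C.q + 1) (-4 - j) 0 0).1, ba_Sig_rho4, k1,
      (mm_shift C x (-4 * C.q + 1) j 0 (-1)).1, (mm_shift C x (-4 * C.q + 1) j 0 (-1)).2,
      rho4_surfadv C.q hq]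
  · intro a b _
    rw [(mm_shift C (4 * C.q - x) (-4 * C.q + 1) (-4 - j) (-a) (-b)).2, ba_Sig_rho4, k2,
      (mm_shift C x (-4 * C.q + 1) j 0 (-1)).1, (mm_shift C x (-4 * C.q + 1) j 0 (-1)).2,
      (mm_shift C x (-4 * C.q + 1) j a b).2, rho4_tr C.q hq]

theorem band_adj (C : Curve) (cx cy a b : ℤ) (hab : a * a + b * b = 1) (h : Band C cx cy)
    (h' : Band C (cx + 2 * a) (cy + 2 * b)) :
    mb C (cx + 2 * a) (cy + 2 * b) = surfadv C.q (mb C cx cy) (hb C cx cy a b) ∧
    ∀ a' b' : ℤ, a' * a' + b' * b' = 1 →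
      hb C (cx + 2 * a) (cy + 2 * b) a' b' =
        tr C.q (mb C cx cy) (hb C cx cy a b) (hb C cx cy a' b') := by
  have hq : 0 < C.q := C_q_pos C
  have hd1 := ba_dir a b hab
  have hcy := h.2.1
  have hcx := h.1
  have hcy' := h'.2.1
  rcases lt_or_ge (-4 * C.q) cy with h1 | h1
  · rcases lt_or_ge (-4 * C.q) (cy + 2 * b) with h2 | h2
    · unfold mb hb
      simp only [if_pos h1, if_pos h2]
      exact top_adj C cx cy a b hab ((band_top C _ _ h1).1 h) ((band_top C _ _ h2).1 h')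
    · have hb1 : b = -1 := by omega
      have ha1 : a = 0 := by omega
      have hcy2 : cy = -4 * C.q + 1 := by omega
      subst hb1 ha1 hcy2
      obtain ⟨_, k1, k2⟩ := equator C cx hcx
      unfold mb hb
      simp only [if_pos h1, if_neg (not_lt.2 h2)]
      rw [show cx + 2 * 0 = cx by ring,
        show -8 * C.q - (-4 * C.q + 1 + 2 * -1) = -4 * C.q + 1 by ring]
      exact ⟨k1, k2⟩
  · rcases lt_or_ge (-4 * C.q) (cy + 2 * b) with h2 | h2
    · have hb1 : b = 1 := by omega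
      have ha1 : a = 0 := by omega
      have hcy2 : cy = -4 * C.q - 1 := by omega
      subst hb1 ha1 hcy2
      obtain ⟨_, k1, k2⟩ := equator C (-12 * C.q - cx) (by omega)
      rw [show -12 * C.q - (-12 * C.q - cx) = cx by ring] at k1 k2
      unfold mb hb
      simp only [if_pos h2, if_neg (not_lt.2 h1)]
      rw [show cx + 2 * 0 = cx by ring,
        show -8 * C.q - (-4 * C.q - 1) = -4 * C.q + 1 by ring,
        show -4 * C.q - 1 + 2 * 1 = -4 * C.q + 1 by ring, neg_zero]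
      constructor
      · rw [← Sig_surfadv C.q hq, ← k1, Sig_Sig]
      · intro a' b' hab'
        have k3 := k2 (-a') (-b') (by rw [neg_mul_neg, neg_mul_neg]; exact hab')
        rw [neg_neg, neg_neg] at k3
        rw [← Sig_tr C.q hq, ← k3, Sig_Sig]
    · have h3 : cy < -4 * C.q := by omega
      have h4 : cy + 2 * b < -4 * C.q := by omega
      have t1 := (band_bot C _ _ h3).1 h
      have t2 := (band_bot C _ _ h4).1 h'
      have e1 : -12 * C.q - (cx + 2 * a) = -12 * C.q - cx + 2 * -a := by ring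
      have e2 : -8 * C.q - (cy + 2 * b) = -8 * C.q - cy + 2 * -b := by ring
      rw [e1, e2] at t2
      obtain ⟨k1, k2⟩ := top_adj C (-12 * C.q - cx) (-8 * C.q - cy) (-a) (-b)
        (by rw [neg_mul_neg, neg_mul_neg]; exact hab) t1 t2
      unfold mb hb
      simp only [if_neg (not_lt.2 h1), if_neg (not_lt.2 h2)]
      rw [e1, e2]
      constructor
      · rw [k1, Sig_surfadv C.q hq]
      · intro a' b' hab'
        rw [k2 (-a') (-b') (by rw [neg_mul_neg, neg_mul_neg]; exact hab'), Sig_tr C.q hq]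

private theorem ba_sig (C : Curve) (cx cy : ℤ) (h : Band C cx cy) :
    Band C (-12 * C.q - cx) (-8 * C.q - cy) ∧
    mb C (-12 * C.q - cx) (-8 * C.q - cy) = Sig (mb C cx cy) := by
  have hcy := h.2.1
  have e1 : -12 * C.q - (-12 * C.q - cx) = cx := by ring
  have e2 : -8 * C.q - (-8 * C.q - cy) = cy := by ring
  rcases lt_or_ge (-4 * C.q) cy with h1 | h1
  · constructor
    · rw [band_bot C _ _ (by omega), e1, e2]
      exact (band_top C _ _ h1).1 h
    · unfold mb
      rw [if_pos h1, if_neg (by omega), e1, e2]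
  · have h2 : cy < -4 * C.q := by omega
    constructor
    · rw [band_top C _ _ (by omega)]
      exact (band_bot C _ _ h2).1 h
    · unfold mb
      rw [if_pos (by omega), if_neg (by omega), Sig_Sig]

private theorem ba_edge (C : Curve) (cx cy a b : ℤ) (hcx : cx % 2 = 1) (hcy : cy % 2 = 1)
    (hab : (a = 0 ∧ (b = 1 ∨ b = -1)) ∨ (b = 0 ∧ (a = 1 ∨ a = -1)))
    (h : total C cx cy ≠ total C (cx + 2 * a) (cy + 2 * b)) :
    ∃ i, sx C i = cx + a ∧ sy C i = cy + b := by
  rcases hab with ⟨e1, e2 | e2⟩ | ⟨e1, e2 | e2⟩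
  · subst e1 e2
    rw [show cx + 2 * 0 = cx by ring, show cy + 2 * 1 = cy + 2 by ring] at h
    obtain ⟨i, h1, h2⟩ := edge_of_ne_up C cx cy hcx hcy h
    exact ⟨i, by omega, by omega⟩
  · subst e1 e2
    rw [show cx + 2 * 0 = cx by ring, show cy + 2 * -1 = cy - 2 by ring] at h
    obtain ⟨i, h1, h2⟩ := edge_of_ne_up C cx (cy - 2) hcx (by omega)
      (by rw [show cy - 2 + 2 = cy by ring]; exact h.symm)
    exact ⟨i, by omega, by omega⟩
  · subst e1 e2
    rw [show cx + 2 * 1 = cx + 2 by ring, show cy + 2 * 0 = cy by ring] at h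
    obtain ⟨i, h1, h2⟩ := edge_of_ne_right C cx cy hcx hcy h
    exact ⟨i, by omega, by omega⟩
  · subst e1 e2
    rw [show cx + 2 * -1 = cx - 2 by ring, show cy + 2 * 0 = cy by ring] at h
    obtain ⟨i, h1, h2⟩ := edge_of_ne_right C (cx - 2) cy (by omega) hcy
      (by rw [show cx - 2 + 2 = cx by ring]; exact h.symm)
    exact ⟨i, by omega, by omega⟩

private theorem ba_nbr_top (C : Curve) (cx cy : ℤ) (h1 : -4 * C.q < cy) (h : Band C cx cy)
    (u : ℤ × ℤ × ℤ) (hu : isTan C.q (mb C cx cy) u) :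
    ∃ cx' cy' : ℤ, Band C cx' cy' ∧ mb C cx' cy' = surfadv C.q (mb C cx cy) u := by
  obtain ⟨a, b, hab, rfl⟩ := hb_surj C cx cy h u hu
  have hd1 := ba_dir a b hab
  by_cases hB : Band C (cx + 2 * a) (cy + 2 * b)
  · exact ⟨_, _, hB, (band_adj C cx cy a b hab h hB).1⟩
  · have hT := (band_top C cx cy h1).1 h
    obtain ⟨t1, t2, t3, t4⟩ := hT
    by_cases ht : total C (cx + 2 * a) (cy + 2 * b) = 1
    · exfalso
      apply hB
      rcases lt_or_ge (-4 * C.q) (cy + 2 * b) with h2 | h2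
      · rw [band_top C _ _ h2]
        exact ⟨by omega, by omega, h2, ht⟩
      · have hb1 : b = -1 := by omega
        have ha1 : a = 0 := by omega
        have hcy : cy = -4 * C.q + 1 := by omega
        rw [band_bot C _ _ (by omega)]
        have h3 := (equator C (-12 * C.q - cx) (by omega)).1
        rw [hb1, ha1, hcy, show cx + 2 * 0 = cx by ring,
          show -8 * C.q - (-4 * C.q + 1 + 2 * -1) = -4 * C.q + 1 by ring]
        exact h3
    · obtain ⟨i, hi1, hi2⟩ := ba_edge C cx cy a b t1 t2 hd1 (by rw [t4]; exact fun e => ht e.symm)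
      obtain ⟨cx', cy', h3, h4⟩ := top_zip C cx cy a b i hab ⟨t1, t2, t3, t4⟩ hi1 hi2
      refine ⟨cx', cy', (band_top C _ _ h3.2.2.1).2 h3, ?_⟩
      unfold mb hb
      rw [if_pos h3.2.2.1, if_pos h1, if_pos h1]
      exact h4

theorem band_nbr (C : Curve) (cx cy : ℤ) (h : Band C cx cy) (u : ℤ × ℤ × ℤ)
    (hu : isTan C.q (mb C cx cy) u) :
    ∃ cx' cy' : ℤ, Band C cx' cy' ∧ mb C cx' cy' = surfadv C.q (mb C cx cy) u := by
  have hq : 0 < C.q := C_q_pos C
  rcases lt_or_ge (-4 * C.q) cy with h1 | h1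
  · exact ba_nbr_top C cx cy h1 h u hu
  · have h2 := h.2.1
    obtain ⟨k1, k2⟩ := ba_sig C cx cy h
    have k3 : isTan C.q (mb C (-12 * C.q - cx) (-8 * C.q - cy)) (Sig u) := by
      rw [k2]
      exact (Sig_isTan C.q hq _ _).2 hu
    obtain ⟨cx', cy', k4, k5⟩ := ba_nbr_top C (-12 * C.q - cx) (-8 * C.q - cy) (by omega) k1
      (Sig u) k3
    obtain ⟨k6, k7⟩ := ba_sig C cx' cy' k4
    refine ⟨_, _, k6, ?_⟩
    rw [k7, k5, k2, ← Sig_surfadv C.q hq, Sig_Sig]

theorem mb_surj (C : Curve) (m : ℤ × ℤ × ℤ) (hm : isSC C.q m) :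
    ∃ cx cy : ℤ, 0 ≤ cx ∧ cx < 16 * C.q ∧ Band C cx cy ∧ mb C cx cy = m := by
  have hq : 0 < C.q := C_q_pos C
  have hp := C.hp
  have hpq := C.hpq
  have hB : Band C 1 (-4 * C.q + 1) :=
    (band_top C _ _ (by omega)).2 (equator C 1 (by norm_num)).1
  have key : m ∈ {m : ℤ × ℤ × ℤ | ∃ cx cy : ℤ, Band C cx cy ∧ mb C cx cy = m} := by
    refine surf_conn C.q hq {m : ℤ × ℤ × ℤ | ∃ cx cy : ℤ, Band C cx cy ∧ mb C cx cy = m}
      (mb C 1 (-4 * C.q + 1)) (mb_isSC C _ _ hB) ⟨_, _, hB, rfl⟩ ?_ m hm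
    rintro m' u ⟨cx, cy, h1, rfl⟩ _ hu
    exact band_nbr C cx cy h1 u hu
  obtain ⟨cx, cy, h1, h2⟩ := key
  have e0 := Int.emod_add_mul_ediv cx (16 * C.q)
  have e1 := Int.emod_nonneg cx (b := 16 * C.q) (by omega)
  have e2 := Int.emod_lt_of_pos cx (b := 16 * C.q) (by omega)
  refine ⟨cx % (16 * C.q), cy, e1, e2, ?_, ?_⟩
  · rw [← band_shift C _ _ (cx / (16 * C.q)), e0]
    exact h1
  · rw [← h2, ← (mb_shift C (cx % (16 * C.q)) cy (cx / (16 * C.q)) 0 0).1, e0]

end H70Net
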