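import Pool.Agent.H70.Net.Band

/-!
MP_77daaf_co, module `BandCount` : the band has `24 q²` cells in a period `0 ≤ cx < 16q`.

PROOF.  Let `O A B` be the finite set of odd integers in `[A, B)`.  For an odd column `cx` let
`f cx = ` number of odd `cy ∈ [-20q, 2q)` with `total cx cy = 1` (`total_01`: `total ∈ {0,1}`).
As `total = 1` for `cy ≤ -2q-p` and `total = 0` for `cy ≥ p`:
 the number of odd `cy` with `Band cx cy` is
 `#{cy ∈ [-20q,2q): total cx cy = 1} - #{cy ∈ [-20q,2q): total cx cy = 1, total (cx+2Wx) (cy+6q) = 1}`,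
 and `total (c + 2W) = 1` implies `cy + 6q < p`, so `cy < -5q < -2q - p` and `total cx cy = 1`; so the
 second number is `#{cy ∈ [-20q, 2q) : total (cx + 2Wx) (cy + 6q) = 1} =
 #{y ∈ [-14q, 8q) : total (cx+2Wx) y = 1} = f (cx + 2Wx) - 3q`  (`[-20q, -14q)` contains `3q` odd numbers,
 all with `total = 1`).  Here `2Wx = 2(7q-p)` is even, so `cx + 2Wx` is odd.
 Sum over the `8q` odd `cx ∈ [0,16q)`: `∑ f cx - ∑ f (cx + 2Wx) + 8q·3q = 24 q²`, because `f` has period
 `4q` (`total_shift`), hence period `16q`, and the sum of a periodic function over a period does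
 not depend on the start.
-/

namespace H70Net

private theorem bct_split (f : ℤ → ℤ) (a b c : ℤ) (h1 : a ≤ b) (h2 : b ≤ c) :
    ∑ t ∈ Finset.Ico a c, f t = ∑ t ∈ Finset.Ico a b, f t + ∑ t ∈ Finset.Ico b c, f t := by
  rw [← Finset.Ico_union_Ico_eq_Ico h1 h2,
    Finset.sum_union (Finset.Ico_disjoint_Ico_consecutive a b c)]

private theorem bct_shift (f : ℤ → ℤ) (a b c : ℤ) :
    ∑ t ∈ Finset.Ico a b, f (t + c) = ∑ t ∈ Finset.Ico (a + c) (b + c), f t :=
  Finset.sum_Ico_add' f a b c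

private theorem bct_per (F : ℤ → ℤ) (N : ℤ) (hN : 0 < N) (hF : ∀ s, F (s + N) = F s) (w : ℕ) :
    ∑ s ∈ Finset.Ico 0 N, F (s + w) = ∑ s ∈ Finset.Ico 0 N, F s := by
  induction w with
  | zero => simp
  | succ w ih =>
    rw [← ih]
    have e : ∀ s : ℤ, F (s + ((w + 1 : ℕ) : ℤ)) = (fun x => F (x + (w : ℤ))) (s + 1) := by
      intro s
      show F (s + ((w + 1 : ℕ) : ℤ)) = F (s + 1 + (w : ℤ))
      congr 1
      push_cast
      ring
    rw [Finset.sum_congr rfl fun s _ => e s, bct_shift (fun x => F (x + (w : ℤ))) 0 N 1]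
    have h1 := bct_split (fun x => F (x + (w : ℤ))) 0 (0 + 1) (N + 1) (by omega) (by omega)
    have h2 := bct_split (fun x => F (x + (w : ℤ))) 0 N (N + 1) (by omega) (by omega)
    have h3 : ∑ t ∈ Finset.Ico (0 : ℤ) (0 + 1), (fun x => F (x + (w : ℤ))) t = F w := by
      rw [show Finset.Ico (0 : ℤ) (0 + 1) = {0} by ext x; simp; omega]
      simp
    have h4 : ∑ t ∈ Finset.Ico N (N + 1), (fun x => F (x + (w : ℤ))) t = F w := by
      rw [show Finset.Ico N (N + 1) = {N} by ext x; simp; omega]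
      rw [Finset.sum_singleton, add_comm N (w : ℤ)]
      exact hF w
    linarith

/-- `total` in half coordinates -/
private noncomputable def bctT (C : Curve) (s t : ℤ) : ℤ := total C (2 * s + 1) (2 * t + 1)

private noncomputable def bctF (C : Curve) (s : ℤ) : ℤ :=
  ∑ t ∈ Finset.Ico (-10 * C.q) C.q, bctT C s t

private theorem bct_T01 (C : Curve) (s t : ℤ) : bctT C s t = 0 ∨ bctT C s t = 1 :=
  total_01 C _ _ (by omega) (by omega)

private theorem bct_T0 (C : Curve) (s t : ℤ) (h : C.p ≤ 2 * t + 1) : bctT C s t = 0 :=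
  total_above C _ _ h

private theorem bct_T1 (C : Curve) (s t : ℤ) (h : 2 * t + 1 ≤ -2 * C.q - C.p) : bctT C s t = 1 :=
  total_below C _ _ (by omega) h

private theorem bct_F_per (C : Curve) (s : ℤ) : bctF C (s + 8 * C.q) = bctF C s := by
  unfold bctF
  refine Finset.sum_congr rfl fun t _ => ?_
  unfold bctT
  have h := total_shift C (2 * s + 1) (2 * t + 1) 4
  rw [← h]
  congr 1
  ring

private theorem bct_band (C : Curve) (s t : ℤ) :
    Band C (2 * s + 1) (2 * t + 1) ↔
      (bctT C s t = 1 ∧ bctT C (s + (7 * C.q - C.p)) (t + 3 * C.q) = 0) := by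
  unfold Band bctT
  have e1 : 2 * s + 1 + 2 * (7 * C.q - C.p) = 2 * (s + (7 * C.q - C.p)) + 1 := by ring
  have e2 : 2 * t + 1 + 6 * C.q = 2 * (t + 3 * C.q) + 1 := by ring
  rw [e1, e2]
  constructor
  · rintro ⟨-, -, h3, h4⟩
    exact ⟨h3, h4⟩
  · rintro ⟨h3, h4⟩
    exact ⟨by omega, by omega, h3, h4⟩

open Classical in
private theorem bct_ind (C : Curve) (s t : ℤ) :
    (if Band C (2 * s + 1) (2 * t + 1) then (1 : ℤ) else 0) =
      bctT C s t - bctT C (s + (7 * C.q - C.p)) (t + 3 * C.q) := by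
  have hp := C.hp
  have hpq := C.hpq
  by_cases hb : Band C (2 * s + 1) (2 * t + 1)
  · rw [if_pos hb]
    obtain ⟨h1, h2⟩ := (bct_band C s t).1 hb
    rw [h1, h2]; norm_num
  · rw [if_neg hb]
    rw [bct_band] at hb
    rcases bct_T01 C s t with h1 | h1
    · rcases bct_T01 C (s + (7 * C.q - C.p)) (t + 3 * C.q) with h2 | h2
      · rw [h1, h2]; norm_num
      · exfalso
        have h3 : ¬ C.p ≤ 2 * (t + 3 * C.q) + 1 := by
          intro h3
          have := bct_T0 C (s + (7 * C.q - C.p)) (t + 3 * C.q) h3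
          omega
        have := bct_T1 C s t (by omega)
        omega
    · rcases bct_T01 C (s + (7 * C.q - C.p)) (t + 3 * C.q) with h2 | h2
      · exact absurd ⟨h1, h2⟩ hb
      · rw [h1, h2]; norm_num

open Classical in
private theorem bct_col (C : Curve) (s : ℤ) :
    ∑ t ∈ Finset.Ico (-10 * C.q) C.q,
      (if Band C (2 * s + 1) (2 * t + 1) then (1 : ℤ) else 0) =
      bctF C s - bctF C (s + (7 * C.q - C.p)) + 3 * C.q := by
  have hp := C.hp
  have hpq := C.hpq
  rw [Finset.sum_congr rfl fun t _ => bct_ind C s t, Finset.sum_sub_distrib]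
  rw [bct_shift (fun u => bctT C (s + (7 * C.q - C.p)) u) (-10 * C.q) C.q (3 * C.q)]
  have h1 := bct_split (fun u => bctT C (s + (7 * C.q - C.p)) u) (-10 * C.q)
    (-10 * C.q + 3 * C.q) (C.q + 3 * C.q) (by omega) (by omega)
  have h2 := bct_split (fun u => bctT C (s + (7 * C.q - C.p)) u) (-10 * C.q) C.q
    (C.q + 3 * C.q) (by omega) (by omega)
  have h3 : ∑ t ∈ Finset.Ico (-10 * C.q) (-10 * C.q + 3 * C.q),
      bctT C (s + (7 * C.q - C.p)) t = 3 * C.q := by
    rw [Finset.sum_congr rfl (g := fun _ => (1 : ℤ)) (fun t ht => by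
      rw [Finset.mem_Ico] at ht
      exact bct_T1 C _ t (by omega))]
    rw [Finset.sum_const, Int.card_Ico, nsmul_eq_mul, mul_one]
    rw [show -10 * C.q + 3 * C.q - -10 * C.q = 3 * C.q by ring]
    exact Int.toNat_of_nonneg (by omega)
  have h4 : ∑ t ∈ Finset.Ico C.q (C.q + 3 * C.q), bctT C (s + (7 * C.q - C.p)) t = 0 := by
    refine Finset.sum_eq_zero fun t ht => ?_
    rw [Finset.mem_Ico] at ht
    exact bct_T0 C _ t (by omega)
  unfold bctF
  linarith

theorem band_card (C : Curve) :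
    ∃ S : Finset (ℤ × ℤ), (∀ c, c ∈ S ↔ 0 ≤ c.1 ∧ c.1 < 16 * C.q ∧ Band C c.1 c.2) ∧
      (S.card : ℤ) = 24 * C.q ^ 2 := by
  classical
  have hp := C.hp
  have hpq := C.hpq
  have hq := C_q_pos C
  let g : ℤ × ℤ → ℤ × ℤ := fun m => (2 * m.1 + 1, 2 * m.2 + 1)
  have hg : Function.Injective g := by
    rintro ⟨a, b⟩ ⟨a', b'⟩ h
    simp only [g, Prod.mk.injEq] at h ⊢
    omega
  refine ⟨((Finset.Ico 0 (8 * C.q) ×ˢ Finset.Ico (-10 * C.q) C.q).filter
    fun m => Band C (2 * m.1 + 1) (2 * m.2 + 1)).image g, ?_, ?_⟩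
  · rintro ⟨cx, cy⟩
    simp only [Finset.mem_image, Finset.mem_filter, Finset.mem_product, Finset.mem_Ico, g,
      Prod.mk.injEq, Prod.exists]
    constructor
    · rintro ⟨s, t, ⟨⟨⟨h1, h2⟩, h3, h4⟩, h5⟩, rfl, rfl⟩
      exact ⟨by omega, by omega, h5⟩
    · rintro ⟨h1, h2, h3⟩
      have h4 := band_range C cx cy h3
      have h5 := h3.1
      have h6 := h3.2.1
      refine ⟨cx / 2, cy / 2, ⟨⟨⟨by omega, by omega⟩, by omega, by omega⟩, ?_⟩, by omega, by omega⟩
      have e1 : 2 * (cx / 2) + 1 = cx := by omega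
      have e2 : 2 * (cy / 2) + 1 = cy := by omega
      rw [e1, e2]
      exact h3
  · rw [Finset.card_image_of_injective _ hg, Finset.card_filter]
    push_cast
    rw [Finset.sum_product]
    rw [Finset.sum_congr rfl fun s _ => bct_col C s]
    rw [Finset.sum_add_distrib, Finset.sum_sub_distrib, Finset.sum_const, Int.card_Ico]
    have h1 := bct_per (bctF C) (8 * C.q) (by omega) (bct_F_per C) (7 * C.q - C.p).toNat
    rw [Int.toNat_of_nonneg (by omega)] at h1
    rw [h1, sub_self, zero_add, nsmul_eq_mul, sub_zero, Int.toNat_of_nonneg (by omega)]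
    ring

end H70Net
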