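import Pool.Agent.H70.Net.Surf

/-!
MP_77daaf_co, module `SurfCard` : there are `24 q²` surface cells.
PROOF: see the header of module `SurfSym`.
-/

namespace H70Net

theorem surf_card (q : ℤ) (hq : 0 < q) :
    ∃ S : Finset (ℤ × ℤ × ℤ), (∀ m, m ∈ S ↔ isSC q m) ∧ (S.card : ℤ) = 24 * q ^ 2 := by
  classical
  obtain ⟨n, rfl⟩ : ∃ n : ℕ, q = n := ⟨q.toNat, by omega⟩
  let O : Finset ℤ := (Finset.Ico (-(n : ℤ)) n).image fun t => 2 * t + 1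
  have hO : ∀ x, x ∈ O ↔ x % 2 = 1 ∧ -2 * (n : ℤ) < x ∧ x < 2 * (n : ℤ) := by
    intro x
    simp only [O, Finset.mem_image, Finset.mem_Ico]
    constructor
    · rintro ⟨t, ⟨h1, h2⟩, rfl⟩
      omega
    · rintro ⟨h1, h2, h3⟩
      exact ⟨x / 2, by omega, by omega⟩
  have hOc : O.card = 2 * n := by
    rw [Finset.card_image_of_injective _ (fun a b h => by simpa using h), Int.card_Ico]
    omega
  let A : Finset ℤ := {2 * (n : ℤ), -2 * (n : ℤ)}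
  have hA : ∀ x, x ∈ A ↔ x = 2 * (n : ℤ) ∨ x = -2 * (n : ℤ) := by
    intro x
    simp only [A, Finset.mem_insert, Finset.mem_singleton]
  have hAc : A.card = 2 := Finset.card_pair (by omega)
  let P : Finset (ℤ × ℤ × ℤ) := A ×ˢ (O ×ˢ O)
  have hP : P.card = 2 * (2 * n * (2 * n)) := by
    simp only [P, Finset.card_product, hOc, hAc]
  let f : ℤ × ℤ × ℤ → ℤ × ℤ × ℤ := fun m => (m.2.1, m.1, m.2.2)
  let g : ℤ × ℤ × ℤ → ℤ × ℤ × ℤ := fun m => (m.2.1, m.2.2, m.1)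
  have hf : Function.Injective f := by
    rintro ⟨a, b, c⟩ ⟨a', b', c'⟩ h
    simp only [f, Prod.mk.injEq] at h ⊢
    exact ⟨h.2.1, h.1, h.2.2⟩
  have hg : Function.Injective g := by
    rintro ⟨a, b, c⟩ ⟨a', b', c'⟩ h
    simp only [g, Prod.mk.injEq] at h ⊢
    exact ⟨h.2.2, h.1, h.2.1⟩
  have m1 : ∀ m, m ∈ P ↔ ((m.1 = 2 * (n : ℤ) ∨ m.1 = -2 * (n : ℤ)) ∧ m.2.1 % 2 = 1 ∧
      -2 * (n : ℤ) < m.2.1 ∧ m.2.1 < 2 * (n : ℤ) ∧ m.2.2 % 2 = 1 ∧ -2 * (n : ℤ) < m.2.2 ∧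
      m.2.2 < 2 * (n : ℤ)) := by
    intro m
    simp only [P, Finset.mem_product, hO, hA, and_assoc]
  have m2 : ∀ m, m ∈ P.image f ↔ ((m.2.1 = 2 * (n : ℤ) ∨ m.2.1 = -2 * (n : ℤ)) ∧ m.1 % 2 = 1 ∧
      -2 * (n : ℤ) < m.1 ∧ m.1 < 2 * (n : ℤ) ∧ m.2.2 % 2 = 1 ∧ -2 * (n : ℤ) < m.2.2 ∧
      m.2.2 < 2 * (n : ℤ)) := by
    rintro ⟨a, b, c⟩
    rw [Finset.mem_image]
    constructor
    · rintro ⟨⟨a', b', c'⟩, h, h'⟩
      have := (m1 _).1 h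
      simp only [f, Prod.mk.injEq] at h'
      obtain ⟨rfl, rfl, rfl⟩ := h'
      exact this
    · intro h
      exact ⟨(b, a, c), (m1 _).2 h, rfl⟩
  have m3 : ∀ m, m ∈ P.image g ↔ ((m.2.2 = 2 * (n : ℤ) ∨ m.2.2 = -2 * (n : ℤ)) ∧ m.1 % 2 = 1 ∧
      -2 * (n : ℤ) < m.1 ∧ m.1 < 2 * (n : ℤ) ∧ m.2.1 % 2 = 1 ∧ -2 * (n : ℤ) < m.2.1 ∧
      m.2.1 < 2 * (n : ℤ)) := by
    rintro ⟨a, b, c⟩
    rw [Finset.mem_image]
    constructor
    · rintro ⟨⟨a', b', c'⟩, h, h'⟩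
      have := (m1 _).1 h
      simp only [g, Prod.mk.injEq] at h'
      obtain ⟨rfl, rfl, rfl⟩ := h'
      exact this
    · intro h
      exact ⟨(c, a, b), (m1 _).2 h, rfl⟩
  have d1 : Disjoint P (P.image f) := by
    rw [Finset.disjoint_left]
    intro m h1 h2
    obtain ⟨-, h1', -⟩ := (m1 _).1 h1
    obtain ⟨h2', -⟩ := (m2 _).1 h2
    omega
  have d2 : Disjoint (P ∪ P.image f) (P.image g) := by
    rw [Finset.disjoint_left]
    intro m h1 h2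
    obtain ⟨h2', -⟩ := (m3 _).1 h2
    rcases Finset.mem_union.1 h1 with h1 | h1
    · obtain ⟨-, -, -, -, h1', -⟩ := (m1 _).1 h1
      omega
    · obtain ⟨-, -, -, -, h1', -⟩ := (m2 _).1 h1
      omega
  refine ⟨(P ∪ P.image f) ∪ P.image g, ?_, ?_⟩
  · intro m
    rw [Finset.mem_union, Finset.mem_union, m1, m2, m3]
    unfold isSC
    rw [or_assoc]
  · rw [Finset.card_union_of_disjoint d2, Finset.card_union_of_disjoint d1,
      Finset.card_image_of_injective _ hf, Finset.card_image_of_injective _ hg, hP]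
    push_cast
    ring

end H70Net
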