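import Pool.Agent.H70.Net.BandAdj
import Pool.Agent.H70.Net.BandCount
import Pool.Agent.H70.Net.SurfCard

/-!
MP_77daaf_co, module `BandBij` : the folding map is injective on cells modulo `(16q, 0)` (doubled).

PROOF.  `S` from `band_card`, `T` from `surf_card`; `mb` maps `S` onto `T` (`mb_surj`, `mb_isSC`), both have
`24 q²` elements, so it is injective on `S` (`Finset.injOn_of_surjOn_of_card_le`).  For general band
cells translate by multiples of `16q` (`band_shift`, `mb_shift`) into `0 ≤ cx < 16q`.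
-/

namespace H70Net

theorem mb_inj (C : Curve) (cx cy cx' cy' : ℤ) (h : Band C cx cy) (h' : Band C cx' cy')
    (e : mb C cx cy = mb C cx' cy') : cy = cy' ∧ ∃ k : ℤ, cx' = cx + 16 * C.q * k := by
  have hq : 0 < C.q := by have := C.hp; have := C.hpq; omega
  obtain ⟨S, hS, hSc⟩ := band_card C
  obtain ⟨T, hT, hTc⟩ := surf_card C.q hq
  have hmaps : Set.MapsTo (fun c : ℤ × ℤ => mb C c.1 c.2) (S : Set (ℤ × ℤ)) T := by
    intro c hc
    exact (hT _).2 (mb_isSC C c.1 c.2 ((hS c).1 hc).2.2)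
  have hsurj : Set.SurjOn (fun c : ℤ × ℤ => mb C c.1 c.2) (S : Set (ℤ × ℤ)) T := by
    intro m hm
    obtain ⟨x, y, h1, h2, h3, h4⟩ := mb_surj C m ((hT m).1 hm)
    exact ⟨(x, y), (hS (x, y)).2 ⟨h1, h2, h3⟩, h4⟩
  have hinj := Finset.injOn_of_surjOn_of_card_le (fun c : ℤ × ℤ => mb C c.1 c.2) hmaps hsurj
    (by have h1 : (S.card : ℤ) = T.card := by rw [hSc, hTc]
        exact_mod_cast h1.le)
  have hred : ∀ x y : ℤ, Band C x y → ∃ x0 k : ℤ, x = x0 + 16 * C.q * k ∧ (x0, y) ∈ S ∧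
      mb C x0 y = mb C x y := by
    intro x y hxy
    have h1 := Int.emod_add_mul_ediv x (16 * C.q)
    have h2 := Int.emod_nonneg x (b := 16 * C.q) (by omega)
    have h3 := Int.emod_lt_of_pos x (b := 16 * C.q) (by omega)
    refine ⟨x % (16 * C.q), x / (16 * C.q), h1.symm, (hS _).2 ⟨h2, h3, ?_⟩, ?_⟩
    · rw [← h1, band_shift] at hxy
      exact hxy
    · have h4 := (mb_shift C (x % (16 * C.q)) y (x / (16 * C.q)) 0 0).1
      rw [h1] at h4
      exact h4.symm
  obtain ⟨x0, k, h1, h2, h3⟩ := hred cx cy h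
  obtain ⟨x1, k', h4, h5, h6⟩ := hred cx' cy' h'
  have h7 := hinj h2 h5 (show mb C x0 cy = mb C x1 cy' by rw [h3, h6, e])
  rw [Prod.mk.injEq] at h7
  obtain ⟨h8, h9⟩ := h7
  refine ⟨h9, k' - k, ?_⟩
  rw [h4, h1, h8]
  ring

end H70Net
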