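import Mathlib

/-!
MP_77daaf_co, module `Base`: digits, lengths, the bi-infinite lattice paths `Y D m`.

`zeta = e^{iπ/4}`.  A digit system `D` has digits `a m ≥ 1` and signs `s m = ±1`
(`s m = -1` only if `a m ≥ 2`, and `a 1 ≥ 2`).
Lengths: `nn` (number of unit steps) and `ll` (Euclidean length);
the element of level `m` is the path `Y D m` restricted to `[0, nn D (m+1)]`; it goes from
`0` to the real number `ll D (m+1)`.
-/

set_option autoImplicit false

namespace H70Net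

open Complex

/-- `e^{iπ/4}` -/
noncomputable def zeta : ℂ := ⟨√2 / 2, √2 / 2⟩

/-- digits and signs -/
structure Dig where
  a : ℕ → ℤ
  s : ℕ → ℤ
  ha : ∀ m, 1 ≤ a m
  hs : ∀ m, s m = 1 ∨ s m = -1
  hn : ∀ m, s m = -1 → 2 ≤ a m
  h1 : 2 ≤ a 1

/-- numbers of steps -/
def nn (D : Dig) : ℕ → ℤ
  | 0 => 0
  | 1 => 1
  | (m + 2) => 2 * D.a (m + 1) * nn D (m + 1) + D.s (m + 1) * nn D m

/-- lengths -/
noncomputable def ll (D : Dig) : ℕ → ℝ
  | 0 => 0
  | 1 => 1
  | (m + 2) => √2 * D.a (m + 1) * ll D (m + 1) + D.s (m + 1) * ll D m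

/-- lateral bounds -/
noncomputable def dd (D : Dig) : ℕ → ℝ
  | 0 => 0
  | 1 => 0
  | (m + 2) => ll D (m + 1) * (√2 / 2) + dd D m

/-- conjugation for sign `+`, identity for sign `-` -/
noncomputable def cs (s : ℤ) (z : ℂ) : ℂ := if s = 1 then (starRingEnd ℂ) z else z

/-- The glide staircase: blocks of `n` steps; block `0` is the path `g` on `[0,n]` (going from `0`
to `zeta * l`), block `1` is `zeta * l + conj g`, then everything is repeated with
translation `√2 l`. -/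
noncomputable def stair (n : ℤ) (l : ℝ) (g : ℤ → ℂ) (x : ℤ) : ℂ :=
  if x / n % 2 = 0 then ((x / n / 2 : ℤ) : ℂ) * ((√2 * l : ℝ) : ℂ) + g (x % n)
  else ((x / n / 2 : ℤ) : ℂ) * ((√2 * l : ℝ) : ℂ) + zeta * (l : ℂ) + (starRingEnd ℂ) (g (x % n))

/-- the staircase of type `s` built from the path `y` -/
noncomputable def st (s n : ℤ) (l : ℝ) (y : ℤ → ℂ) (x : ℤ) : ℂ :=
  stair n l (fun i => zeta * cs s (y i)) x

/-- the bi-infinite paths -/
noncomputable def Y (D : Dig) : ℕ → ℤ → ℂ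
  | 0 => fun x => (x : ℂ)
  | (m + 1) => st (D.s (m + 1)) (nn D (m + 1)) (ll D (m + 1)) (Y D m)

end H70Net
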