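import Pool.Agent.H70.Net.EltM

/-!
MP_77daaf_co, module `Bound` : lower bounds of eight linear functionals along the paths.

`cD v = (3+v)/√2`, `cK v = (v-3)/√2`.  The functional `3 x - v y` has value `3` on `1`, `v` on `-I`,
`cD` on `conj zeta`, `cK` on `zeta^{-3}`; `F1..F8` are its pull backs under the four rotations by
`0, -45, -90, -135` degrees and conjugation.

STEP LEMMAS.  Let `y` be an element on `[0,n]`, `y i = (α, β)`, `y (n-i) = (l - α, β)` (`mir`), and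
suppose all `y i`, `0 ≤ i ≤ n` satisfy the eight lower bounds `-b1, ..., -b8`.  Blocks of
`Z = st s n l y` at `x ≥ 0` (`exists_block`, `k ≥ 0`):
 even: `k √2 l + g`, odd: `k √2 l + zeta l + conj g`, `g = zeta * cs s (y i)`.
 All `F_j (k √2 l) ≥ 0` (`v > 3`).
 s = 1: `g = (√2/2)(α+β, α-β)`:
   F1 g = -K α + D β = -K l + F7 (y (n-i)) ≥ -K l - b7;  F1 (zeta l + conj g) = -K l + F5 (y i)
   F2 g = F5 (y i);  F2 (zeta l + conj g) = D l - K l + F7 (y (n-i))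
   F3 g = F6 (y i);  F3 (zeta l + conj g) = D l + F7 (y i)
   F4 g = F7 (y i);  F4 (zeta l + conj g) = K l + F6 (y i)
   F5 g = F2 (y i);  F5 (zeta l + conj g) = 3 l + F3 (y i)
   F6 g = F3 (y i);  F6 (zeta l + conj g) = v l + F2 (y i)
   F7 g = F4 (y i);  F7 (zeta l + conj g) = v l - 3 l + F2 (y (n-i))
   F8 g = -3 l + F2 (y (n-i));  F8 (zeta l + conj g) = -3 l + F4 (y i)
 s = -1: `g = (√2/2)(α-β, α+β)`:
   F1 g = -K l + F8 (y (n-i));  F1 (zeta l + conj g) = -K l + F6 (y i)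
   F2 g = F6 (y i);  F2 (zeta l + conj g) = D l - K l + F8 (y (n-i))
   F3 g = F5 (y i);  F3 (zeta l + conj g) = D l + F8 (y i)
   F4 g = F8 (y i);  F4 (zeta l + conj g) = K l + F5 (y i)
   F5 g = F1 (y i);  F5 (zeta l + conj g) = 3 l + F4 (y i)
   F6 g = F4 (y i);  F6 (zeta l + conj g) = v l + F1 (y i)
   F7 g = F3 (y i);  F7 (zeta l + conj g) = v l - 3 l + F1 (y (n-i))
   F8 g = -3 l + F1 (y (n-i));  F8 (zeta l + conj g) = -3 l + F3 (y i)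
 (`√2 * √2 = 2`, `D √2/2 = (3+v)/2`, `K √2/2 = (v-3)/2`.)

`US D m`, with `G = 2.6`, `E = 2.68`, `l1 = ll (m+1)`, `l0 = ll m`: for all `x ≥ 0`:
 `F1 ≥ -G l1, F2 ≥ -E l0, F3 ≥ -G l1, F4 ≥ -E l0, F5 ≥ -G l0, F6 ≥ -E l1, F7 ≥ -G l0, F8 ≥ -E l1`.
 `m = 0`: `Y 0 x = x ≥ 0`, all functionals are `≥ 0`.
`sharp_pos`, `sharp_neg` : insert these in the step lemmas and simplify the maxima
 (`6.8 ≤ v ≤ 6.83`: `2.68 ≤ K ≤ 2.71`, `6.92 ≤ D ≤ 6.96`, `√2 l0 ≤ l1`).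
 Then `US (m+1)`: sign `+`: `l2 ≥ √2 l1 + l0`; sign `-`: `l2 ≥ (3/√2) l1 ≥ 2.1213 l1`:
   `(K+E) l1 ≤ 5.39 l1 ≤ G l2`, `(3+G) l1 = 5.6 l1 ≤ E l2 (≥ 5.68 l1)`, etc.
-/

namespace H70Net

open Complex

noncomputable def cD (v : ℝ) : ℝ := (3 + v) * (√2 / 2)
noncomputable def cK (v : ℝ) : ℝ := (v - 3) * (√2 / 2)

noncomputable def F1 (v : ℝ) (z : ℂ) : ℝ := 3 * z.re - v * z.im
noncomputable def F2 (v : ℝ) (z : ℂ) : ℝ := 3 * z.re + v * z.im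
noncomputable def F3 (v : ℝ) (z : ℂ) : ℝ := v * z.re + 3 * z.im
noncomputable def F4 (v : ℝ) (z : ℂ) : ℝ := v * z.re - 3 * z.im
noncomputable def F5 (v : ℝ) (z : ℂ) : ℝ := cD v * z.re - cK v * z.im
noncomputable def F6 (v : ℝ) (z : ℂ) : ℝ := cD v * z.re + cK v * z.im
noncomputable def F7 (v : ℝ) (z : ℂ) : ℝ := cK v * z.re + cD v * z.im
noncomputable def F8 (v : ℝ) (z : ℂ) : ℝ := cK v * z.re - cD v * z.im

structure Lb (v b1 b2 b3 b4 b5 b6 b7 b8 : ℝ) (z : ℂ) : Prop where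
  h1 : -b1 ≤ F1 v z
  h2 : -b2 ≤ F2 v z
  h3 : -b3 ≤ F3 v z
  h4 : -b4 ≤ F4 v z
  h5 : -b5 ≤ F5 v z
  h6 : -b6 ≤ F6 v z
  h7 : -b7 ≤ F7 v z
  h8 : -b8 ≤ F8 v z

theorem Lb.mono {v b1 b2 b3 b4 b5 b6 b7 b8 c1 c2 c3 c4 c5 c6 c7 c8 : ℝ} {z : ℂ}
    (h : Lb v b1 b2 b3 b4 b5 b6 b7 b8 z) (h1 : b1 ≤ c1) (h2 : b2 ≤ c2) (h3 : b3 ≤ c3)
    (h4 : b4 ≤ c4) (h5 : b5 ≤ c5) (h6 : b6 ≤ c6) (h7 : b7 ≤ c7) (h8 : b8 ≤ c8) :
    Lb v c1 c2 c3 c4 c5 c6 c7 c8 z := by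
  exact ⟨by linarith [h.h1], by linarith [h.h2], by linarith [h.h3], by linarith [h.h4],
    by linarith [h.h5], by linarith [h.h6], by linarith [h.h7], by linarith [h.h8]⟩

end H70Net
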