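import Pool.Agent.H70.Net.Base

/-!
MP_77daaf_co, module `Num` : elementary facts on `nn`, `ll`, `dd`.

PROOFS (all by induction on `m`, two-step recursion; write `l0 = ll m`, `l1 = ll (m+1)`,
`l2 = ll (m+2) = √2 a l1 + s l0`, with `a = D.a (m+1) ≥ 1`, `s = D.s (m+1)`):
* prove TOGETHER by induction on `m`:  `0 < l1` and `√2 l0 ≤ l1`.
  step: if `s = 1`: `l2 = √2 a l1 + l0 ≥ √2 l1`.  If `s = -1` then `a ≥ 2`, so
  `l2 ≥ 2√2 l1 - l0 ≥ 2√2 l1 - l1/√2 = (3/√2) l1 ≥ √2 l1`  (this is `ll_neg`).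
* the same for `nn`: prove together `0 < nn (m+1)`, `nn m ≤ nn (m+1)`.
* `dd`: `dd (m+1) = ll m * (√2/2) + dd (m-1)` also for `m = 0` (`ll 0 = 0`).
* `dd_lt` : `2 dd (m+1) < ll (m+1)`.  `m = 0`: `0 < 1`.  `m = 1`: `dd 2 = ll 1 * √2/2 = √2/2` and
  `ll 2 = √2 a_1 ≥ 2√2` (here `h1` is used).  Step: `dd (m+3) = l2 √2/2 + dd (m+1)` with
  `dd (m+1) < l1 / 2` (`l1 = ll (m+1)`, `l2 = ll (m+2)`), and `ll (m+3) = √2 a l2 + s l1`:
  for `s = 1`, `2 dd (m+3) < √2 l2 + l1 ≤ ll (m+3)`; for `s = -1`, `a ≥ 2`: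
  `2 dd (m+3) < √2 l2 + l1` and `ll (m+3) ≥ 2√2 l2 - l1`, and `√2 l2 ≥ 2 l1` because
  `√2 l1 ≤ l2`.
-/

namespace H70Net

private theorem sqrt_two_pos : (0 : ℝ) < √2 := by positivity

private theorem sqrt_two_sq : √2 * √2 = (2 : ℝ) := Real.mul_self_sqrt (by norm_num)

private theorem one_le_sqrt_two : (1 : ℝ) ≤ √2 := by
  have h := sqrt_two_sq
  have h0 := sqrt_two_pos
  nlinarith

private theorem nn_aux (D : Dig) (m : ℕ) :
    0 < nn D (m + 1) ∧ nn D m ≤ nn D (m + 1) ∧ 0 ≤ nn D m := by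
  induction m with
  | zero => exact ⟨by simp [nn], by simp [nn], by simp [nn]⟩
  | succ m ih =>
    obtain ⟨hp, hle, h0⟩ := ih
    have ha := D.ha (m + 1)
    have hrec : nn D (m + 1 + 1) = 2 * D.a (m + 1) * nn D (m + 1) + D.s (m + 1) * nn D m := rfl
    rcases D.hs (m + 1) with h | h
    · rw [hrec, h]
      refine ⟨by nlinarith, by nlinarith, hp.le⟩
    · have h2 := D.hn (m + 1) h
      rw [hrec, h]
      refine ⟨by nlinarith, by nlinarith, hp.le⟩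

theorem nn_pos_le (D : Dig) (m : ℕ) : 0 < nn D (m + 1) ∧ nn D m ≤ nn D (m + 1) :=
  ⟨(nn_aux D m).1, (nn_aux D m).2.1⟩

theorem nn_pos (D : Dig) (m : ℕ) : 0 < nn D (m + 1) := (nn_pos_le D m).1

theorem nn_le (D : Dig) (m : ℕ) : nn D m ≤ nn D (m + 1) := (nn_pos_le D m).2

theorem nn_nonneg (D : Dig) (m : ℕ) : 0 ≤ nn D m := (nn_aux D m).2.2

private theorem a_real_one (D : Dig) (m : ℕ) : (1 : ℝ) ≤ D.a m := by exact_mod_cast D.ha m

private theorem a_real_two (D : Dig) (m : ℕ) (h : D.s m = -1) : (2 : ℝ) ≤ D.a m := by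
  exact_mod_cast D.hn m h

private theorem ll_rec (D : Dig) (m : ℕ) :
    ll D (m + 2) = √2 * D.a (m + 1) * ll D (m + 1) + D.s (m + 1) * ll D m := rfl

private theorem ll_step_pos (D : Dig) (m : ℕ) (hp : 0 < ll D (m + 1))
    (h : D.s (m + 1) = 1) : √2 * ll D (m + 1) + ll D m ≤ ll D (m + 2) := by
  rw [ll_rec, h]
  have ha := a_real_one D (m + 1)
  have hm : √2 * ll D (m + 1) ≤ √2 * D.a (m + 1) * ll D (m + 1) := by
    have : 0 ≤ √2 * ll D (m + 1) := by positivity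
    nlinarith
  push_cast
  linarith

private theorem ll_step_neg' (D : Dig) (m : ℕ) (hp : 0 < ll D (m + 1))
    (h : D.s (m + 1) = -1) : 2 * √2 * ll D (m + 1) - ll D m ≤ ll D (m + 2) := by
  rw [ll_rec, h]
  have ha := a_real_two D (m + 1) h
  have hm : 2 * (√2 * ll D (m + 1)) ≤ √2 * D.a (m + 1) * ll D (m + 1) := by
    have : 0 ≤ √2 * ll D (m + 1) := by positivity
    nlinarith
  push_cast
  linarith

private theorem ll_step_neg (D : Dig) (m : ℕ) (hp : 0 < ll D (m + 1))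
    (hle : √2 * ll D m ≤ ll D (m + 1)) (h : D.s (m + 1) = -1) :
    3 * (√2 / 2) * ll D (m + 1) ≤ ll D (m + 2) := by
  have h1 := ll_step_neg' D m hp h
  have h2 : ll D m ≤ √2 / 2 * ll D (m + 1) := by
    have h3 := mul_le_mul_of_nonneg_left hle sqrt_two_pos.le
    rw [← mul_assoc, sqrt_two_sq] at h3
    linarith
  linarith

private theorem ll_aux (D : Dig) (m : ℕ) :
    0 < ll D (m + 1) ∧ √2 * ll D m ≤ ll D (m + 1) ∧ 0 ≤ ll D m := by
  induction m with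
  | zero => exact ⟨by simp [ll], by simp [ll], by simp [ll]⟩
  | succ m ih =>
    obtain ⟨hp, hle, h0⟩ := ih
    have hs := one_le_sqrt_two
    have hs0 := sqrt_two_pos
    rcases D.hs (m + 1) with h | h
    · have h1 := ll_step_pos D m hp h
      have h2 : 0 < √2 * ll D (m + 1) := by positivity
      exact ⟨by linarith, by linarith, hp.le⟩
    · have h1 := ll_step_neg D m hp hle h
      have h2 : 0 < √2 * ll D (m + 1) := by positivity
      exact ⟨by linarith, by linarith, hp.le⟩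

theorem ll_pos_le (D : Dig) (m : ℕ) : 0 < ll D (m + 1) ∧ √2 * ll D m ≤ ll D (m + 1) :=
  ⟨(ll_aux D m).1, (ll_aux D m).2.1⟩

theorem ll_pos (D : Dig) (m : ℕ) : 0 < ll D (m + 1) := (ll_pos_le D m).1

theorem ll_le (D : Dig) (m : ℕ) : √2 * ll D m ≤ ll D (m + 1) := (ll_pos_le D m).2

theorem ll_nonneg (D : Dig) (m : ℕ) : 0 ≤ ll D m := (ll_aux D m).2.2

theorem ll_pos_sign (D : Dig) (m : ℕ) (h : D.s (m + 1) = 1) :
    √2 * ll D (m + 1) + ll D m ≤ ll D (m + 2) :=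
  ll_step_pos D m (ll_pos D m) h

/-- `(3/√2) l1 ≤ l2` when the sign is `-1` -/
theorem ll_neg_sign (D : Dig) (m : ℕ) (h : D.s (m + 1) = -1) :
    3 * (√2 / 2) * ll D (m + 1) ≤ ll D (m + 2) :=
  ll_step_neg D m (ll_pos D m) (ll_le D m) h

/-- `2√2 l1 - l0 ≤ l2` when the sign is `-1` -/
theorem ll_neg_sign' (D : Dig) (m : ℕ) (h : D.s (m + 1) = -1) :
    2 * √2 * ll D (m + 1) - ll D m ≤ ll D (m + 2) :=
  ll_step_neg' D m (ll_pos D m) h

private theorem dd_nonneg_aux (D : Dig) (m : ℕ) : 0 ≤ dd D m ∧ 0 ≤ dd D (m + 1) := by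
  induction m with
  | zero => exact ⟨by simp [dd], by simp [dd]⟩
  | succ m ih =>
    refine ⟨ih.2, ?_⟩
    have hrec : dd D (m + 1 + 1) = ll D (m + 1) * (√2 / 2) + dd D m := rfl
    rw [hrec]
    have h1 := ll_pos D m
    have h2 : 0 ≤ ll D (m + 1) * (√2 / 2) := by positivity
    linarith [ih.1]

theorem dd_nonneg (D : Dig) (m : ℕ) : 0 ≤ dd D m := (dd_nonneg_aux D m).1

theorem dd_rec (D : Dig) (m : ℕ) : dd D (m + 1) = ll D m * (√2 / 2) + dd D (m - 1) := by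
  cases m with
  | zero => simp [dd, ll]
  | succ k => rfl

theorem dd_mono (D : Dig) (m : ℕ) : dd D (m - 1) ≤ dd D (m + 1) := by
  rw [dd_rec]
  have h1 := ll_nonneg D m
  have h2 : 0 ≤ ll D m * (√2 / 2) := by positivity
  linarith

private theorem dd_lt_aux (D : Dig) (m : ℕ) :
    2 * dd D (m + 1) < ll D (m + 1) ∧ 2 * dd D (m + 2) < ll D (m + 2) := by
  induction m with
  | zero =>
    refine ⟨by simp [dd, ll], ?_⟩
    have h1 : ((2 : ℤ) : ℝ) ≤ D.a 1 := by exact_mod_cast D.h1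
    have h2 := sqrt_two_pos
    have e1 : dd D (0 + 2) = √2 / 2 := by simp [dd, ll]
    have e2 : ll D (0 + 2) = √2 * D.a 1 := by simp [ll]
    rw [e1, e2]
    push_cast at h1
    nlinarith
  | succ m ih =>
    refine ⟨ih.2, ?_⟩
    have hrec : dd D (m + 1 + 2) = ll D (m + 2) * (√2 / 2) + dd D (m + 1) := rfl
    have hlt := ih.1
    have hp := ll_pos D m
    have hle : √2 * ll D (m + 1) ≤ ll D (m + 2) := ll_le D (m + 1)
    rcases D.hs (m + 2) with h | h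
    · have h1 : √2 * ll D (m + 2) + ll D (m + 1) ≤ ll D (m + 1 + 2) := ll_pos_sign D (m + 1) h
      rw [hrec]
      linarith
    · have h1 : 2 * √2 * ll D (m + 2) - ll D (m + 1) ≤ ll D (m + 1 + 2) :=
        ll_neg_sign' D (m + 1) h
      have h3 := mul_le_mul_of_nonneg_left hle sqrt_two_pos.le
      rw [← mul_assoc, sqrt_two_sq] at h3
      rw [hrec]
      linarith

theorem dd_lt (D : Dig) (m : ℕ) : 2 * dd D (m + 1) < ll D (m + 1) := (dd_lt_aux D m).1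

private theorem ll_congr_aux (D E : Dig) (m : ℕ)
    (h : ∀ i, i ≤ m → D.a i = E.a i ∧ D.s i = E.s i) :
    ll D m = ll E m ∧ ll D (m + 1) = ll E (m + 1) := by
  induction m with
  | zero => exact ⟨by simp [ll], by simp [ll]⟩
  | succ m ih =>
    obtain ⟨e1, e2⟩ := ih (fun i hi => h i (Nat.le_succ_of_le hi))
    refine ⟨e2, ?_⟩
    have h1 := h (m + 1) le_rfl
    change ll D (m + 2) = ll E (m + 2)
    rw [ll_rec, ll_rec, e1, e2, h1.1, h1.2]

/-- `ll`, `nn` only depend on the digits of index `≤ m`. -/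
theorem ll_congr (D E : Dig) (m : ℕ) (h : ∀ i, i ≤ m → D.a i = E.a i ∧ D.s i = E.s i) :
    ll D (m + 1) = ll E (m + 1) := (ll_congr_aux D E m h).2

private theorem ll_int_aux (D : Dig) (m : ℕ) :
    (∃ k : ℤ, ll D (2 * m) = √2 * k) ∧ (∃ k : ℤ, ll D (2 * m + 1) = k) := by
  induction m with
  | zero => exact ⟨⟨0, by simp [ll]⟩, ⟨1, by simp [ll]⟩⟩
  | succ m ih =>
    obtain ⟨⟨k0, h0⟩, ⟨k1, h1⟩⟩ := ih
    have e2 : ll D (2 * m + 2) = √2 * ((D.a (2 * m + 1) * k1 + D.s (2 * m + 1) * k0 : ℤ) : ℝ) := by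
      rw [ll_rec, h0, h1]
      push_cast
      ring
    refine ⟨⟨_, e2⟩, ?_⟩
    refine ⟨2 * D.a (2 * m + 2) * (D.a (2 * m + 1) * k1 + D.s (2 * m + 1) * k0)
      + D.s (2 * m + 2) * k1, ?_⟩
    have e3 : ll D (2 * m + 1 + 2) = √2 * D.a (2 * m + 1 + 1) * ll D (2 * m + 1 + 1)
      + D.s (2 * m + 1 + 1) * ll D (2 * m + 1) := rfl
    have e4 : 2 * (m + 1) + 1 = 2 * m + 1 + 2 := by ring
    rw [e4, e3]
    change √2 * D.a (2 * m + 2) * ll D (2 * m + 2) + D.s (2 * m + 2) * ll D (2 * m + 1) = _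
    rw [e2, h1]
    push_cast
    linear_combination ((D.a (2 * m + 2) : ℝ) * ((D.a (2 * m + 1) : ℝ) * k1
      + (D.s (2 * m + 1) : ℝ) * k0)) * sqrt_two_sq

/-- Integrality: `ll m` is an integer for odd `m` and an integer times `√2` for even `m`. -/
theorem ll_int (D : Dig) (m : ℕ) :
    ∃ k : ℤ, ll D m = if m % 2 = 1 then (k : ℝ) else √2 * k := by
  rcases Nat.even_or_odd' m with ⟨c, rfl | rfl⟩
  · obtain ⟨k, hk⟩ := (ll_int_aux D c).1
    refine ⟨k, ?_⟩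
    rw [if_neg (by omega)]
    exact hk
  · obtain ⟨k, hk⟩ := (ll_int_aux D c).2
    refine ⟨k, ?_⟩
    rw [if_pos (by omega)]
    exact hk

end H70Net
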