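import Pool.Agent.H70.Net.EltM
import Pool.Agent.H70.Net.Num

/-!
MP_77daaf_co, module `EltY` : the paths `Y D m` are elements, have unit steps and are lattice
paths.

PROOFS.
* `eltY` : induction on `m`; `m = 0`: `Y D 0 x = x`, `nn 1 = 1`, `nn 0 = 0`, `ll 1 = 1`, `ll 0 = 0`;
  `zip` for `x = 0` only.  Step: `elt_next` (unfold `nn`, `ll`, `Y`).
* `Y_step` : `‖Y (x+1) - Y x‖ = 1`: induction on `m`; for `m+1` write `x` in a block
  (`exists_block`), both `x` and `x + 1` are given by the same block formula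
  (`st_block_even/odd` with `i` and `i + 1 ≤ n`), difference `= zeta * cs s (y (i+1) - y i)` or its
  conjugate.
* `Y_int` : induction on `m`:  for even `m`, `Y D m x` is a Gaussian integer, for odd `m`,
  `zeta * Y D m x` is a Gaussian integer.  Step from even `m` to `m + 1`: `l = ll (m+1)` is an integer
  (`ll_int`), block formula times `zeta`: `zeta * √2 = 1 + I`, `zeta * zeta = I`,
  `zeta * conj zeta = 1`.  Step from odd `m`: `√2 * ll (m+1)` is an even integer,
  `zeta * ll (m+1) = (1 + I) k`, and `zeta * cs s (Y m i)`: with `w = zeta * Y m i` a Gaussian integer,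
  it is `w` (s = -1) or `zeta * conj (conj zeta * w)= zeta*zeta * conj w = I * conj w` (s = 1).
-/

namespace H70Net

open Complex

theorem eltY (D : Dig) (m : ℕ) :
    Elt (nn D (m + 1)) (nn D m) (ll D (m + 1)) (ll D m) (Y D m) := by
  induction m with
  | zero =>
    refine ⟨by simp [nn], by simp [nn], by simp [nn], by simp [Y], ?_, ?_, ?_⟩
    · intro x
      simp [Y, nn, ll]
    · intro x
      simp [Y, nn, ll]
    · intro x h0 h1
      have h2 : x = 0 := le_antisymm h1 h0
      subst h2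
      simp [Y, nn, ll]
  | succ m ih =>
    exact elt_next ih (D.s (m + 1)) (D.a (m + 1)) (D.hs _) (D.ha _) (D.hn _)

namespace EltYAux

theorem blk (D : Dig) (m : ℕ) (x : ℤ) : ∃ k i : ℤ, 0 ≤ i ∧ i < nn D (m + 1) ∧
    ((∀ j, (j = i ∨ j = i + 1) → Y D (m + 1) (x + (j - i)) = (k : ℂ) * ((√2 * ll D (m + 1) : ℝ) : ℂ) +
      zeta * cs (D.s (m + 1)) (Y D m j)) ∨
    (∀ j, (j = i ∨ j = i + 1) → Y D (m + 1) (x + (j - i)) = (k : ℂ) * ((√2 * ll D (m + 1) : ℝ) : ℂ) +
      zeta * ll D (m + 1) + (starRingEnd ℂ) (zeta * cs (D.s (m + 1)) (Y D m j)))) := by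
  have h := eltY D m
  obtain ⟨k, i, h0, h1, h2, -⟩ := exists_block h.hn x
  refine ⟨k, i, h0, h1, ?_⟩
  rcases h2 with h2 | h2
  · left
    intro j hj
    have h3 : x + (j - i) = 2 * k * nn D (m + 1) + j := by rw [h2]; ring
    rw [h3]
    exact st_block_even h (D.s (m + 1)) k j (by omega) (by omega)
  · right
    intro j hj
    have h3 : x + (j - i) = (2 * k + 1) * nn D (m + 1) + j := by rw [h2]; ring
    rw [h3]
    exact st_block_odd h (D.s (m + 1)) k j (by omega) (by omega)

/-- Gaussian integers -/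
def IsG (z : ℂ) : Prop := ∃ u v : ℤ, z = (u : ℂ) + (v : ℂ) * I

theorem IsG.add {z w : ℂ} (hz : IsG z) (hw : IsG w) : IsG (z + w) := by
  obtain ⟨a, b, rfl⟩ := hz
  obtain ⟨c, d, rfl⟩ := hw
  exact ⟨a + c, b + d, by push_cast; ring⟩

theorem IsG.mul {z w : ℂ} (hz : IsG z) (hw : IsG w) : IsG (z * w) := by
  obtain ⟨a, b, rfl⟩ := hz
  obtain ⟨c, d, rfl⟩ := hw
  refine ⟨a * c - b * d, a * d + b * c, ?_⟩
  have hI : I * I = -1 := I_mul_I
  push_cast
  linear_combination ((b : ℂ) * d) * hI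

theorem IsG.conj {z : ℂ} (hz : IsG z) : IsG ((starRingEnd ℂ) z) := by
  obtain ⟨a, b, rfl⟩ := hz
  exact ⟨a, -b, by simp⟩

theorem IsG.int (k : ℤ) : IsG (k : ℂ) := ⟨k, 0, by simp⟩

theorem IsG.I : IsG I := ⟨0, 1, by simp⟩

theorem IsG.one_add_I : IsG (1 + Complex.I) := ⟨1, 1, by simp⟩

theorem IsG.cs {z : ℂ} (hz : IsG z) (s : ℤ) : IsG (cs s z) := by
  unfold H70Net.cs
  split_ifs
  · exact hz.conj
  · exact hz

theorem zeta_sqrt : zeta * ((√2 : ℝ) : ℂ) = 1 + I := by
  rw [← zeta_add_conj, mul_add, zeta_sq, zeta_mul_conj, add_comm]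

theorem sqrt_sq : ((√2 : ℝ) : ℂ) * ((√2 : ℝ) : ℂ) = 2 := by
  rw [← Complex.ofReal_mul, Real.mul_self_sqrt (by norm_num)]
  norm_num

theorem step (D : Dig) (m : ℕ)
    (ih : ∀ x, IsG (if m % 2 = 0 then Y D m x else zeta * Y D m x)) (x : ℤ) :
    IsG (if (m + 1) % 2 = 0 then Y D (m + 1) x else zeta * Y D (m + 1) x) := by
  obtain ⟨k, i, _, _, h⟩ := blk D m x
  obtain ⟨K, hK⟩ := ll_int D (m + 1)
  set s := D.s (m + 1) with hs
  have hi := ih i
  rcases Nat.mod_two_eq_zero_or_one m with hm | hm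
  · rw [if_pos hm] at hi
    have hm1 : (m + 1) % 2 = 1 := by omega
    rw [if_pos hm1] at hK
    rw [if_neg (by omega)]
    have hl : zeta * ((k : ℂ) * ((√2 * ll D (m + 1) : ℝ) : ℂ)) = (k : ℂ) * (K : ℂ) * (1 + I) := by
      rw [hK, ← zeta_sqrt]
      push_cast
      ring
    have h1 : IsG ((k : ℂ) * (K : ℂ) * (1 + I)) := ((IsG.int k).mul (IsG.int K)).mul IsG.one_add_I
    rcases h with h | h
    · have h2 := h i (Or.inl rfl)
      rw [sub_self, add_zero] at h2
      rw [h2, mul_add, hl, ← mul_assoc, zeta_sq]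
      exact h1.add (IsG.I.mul (hi.cs s))
    · have h2 := h i (Or.inl rfl)
      rw [sub_self, add_zero] at h2
      have h3 : zeta * (zeta * (ll D (m + 1) : ℂ)) = I * (K : ℂ) := by
        rw [← mul_assoc, zeta_sq, hK]
        push_cast
        ring
      have h4 : zeta * (starRingEnd ℂ) (zeta * cs s (Y D m i)) = (starRingEnd ℂ) (cs s (Y D m i)) := by
        rw [map_mul, ← mul_assoc, zeta_mul_conj, one_mul]
      rw [h2, mul_add, mul_add, hl, h3, h4]
      exact (h1.add (IsG.I.mul (IsG.int K))).add (hi.cs s).conj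
  · rw [if_neg (by omega)] at hi
    have hm1 : (m + 1) % 2 = 0 := by omega
    rw [if_neg (by omega)] at hK
    rw [if_pos hm1]
    have hl : (k : ℂ) * ((√2 * ll D (m + 1) : ℝ) : ℂ) = (k : ℂ) * ((2 : ℤ) : ℂ) * (K : ℂ) := by
      rw [hK]
      push_cast
      rw [← sqrt_sq]
      ring
    have h1 : IsG ((k : ℂ) * ((2 : ℤ) : ℂ) * (K : ℂ)) := ((IsG.int k).mul (IsG.int 2)).mul (IsG.int K)
    have hG : IsG (zeta * cs s (Y D m i)) := by
      have h5 : zeta * (starRingEnd ℂ) (Y D m i) = I * (starRingEnd ℂ) (zeta * Y D m i) := by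
        rw [map_mul, ← mul_assoc, ← zeta_sq, mul_assoc zeta zeta, zeta_mul_conj, mul_one]
      unfold H70Net.cs
      split_ifs
      · rw [h5]
        exact IsG.I.mul hi.conj
      · exact hi
    rcases h with h | h
    · have h2 := h i (Or.inl rfl)
      rw [sub_self, add_zero] at h2
      rw [h2, hl]
      exact h1.add hG
    · have h2 := h i (Or.inl rfl)
      rw [sub_self, add_zero] at h2
      have h3 : zeta * (ll D (m + 1) : ℂ) = (1 + I) * (K : ℂ) := by
        rw [hK, ← zeta_sqrt]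
        push_cast
        ring
      rw [h2, hl, h3]
      exact (h1.add (IsG.one_add_I.mul (IsG.int K))).add hG.conj

end EltYAux

open EltYAux in
theorem Y_step (D : Dig) (m : ℕ) (x : ℤ) : ‖Y D m (x + 1) - Y D m x‖ = 1 := by
  induction m generalizing x with
  | zero => simp [Y]
  | succ m ih =>
    obtain ⟨k, i, _, _, h⟩ := blk D m x
    rcases h with h | h
    · have h1 := h i (Or.inl rfl)
      have h2 := h (i + 1) (Or.inr rfl)
      rw [sub_self, add_zero] at h1
      rw [add_sub_cancel_left] at h2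
      rw [h1, h2, add_sub_add_left_eq_sub, ← mul_sub, ← cs_sub, norm_mul, norm_zeta, norm_cs, one_mul,
        ih]
    · have h1 := h i (Or.inl rfl)
      have h2 := h (i + 1) (Or.inr rfl)
      rw [sub_self, add_zero] at h1
      rw [add_sub_cancel_left] at h2
      rw [h1, h2, add_sub_add_left_eq_sub, ← map_sub, RCLike.norm_conj, ← mul_sub, ← cs_sub, norm_mul,
        norm_zeta, norm_cs, one_mul, ih]

open EltYAux in
theorem Y_int (D : Dig) (m : ℕ) (x : ℤ) :
    ∃ u v : ℤ, (if m % 2 = 0 then Y D m x else zeta * Y D m x) = (u : ℂ) + (v : ℂ) * I := by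
  have h : ∀ x, IsG (if m % 2 = 0 then Y D m x else zeta * Y D m x) := by
    induction m with
    | zero =>
      intro x
      rw [if_pos rfl]
      exact IsG.int x
    | succ m ih => exact step D m ih
  exact h x

end H70Net
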