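import Pool.Agent.H70.Net.Bound

/-!
MP_77daaf_co, module `StepN` : the step lemma for sign `-`
PROOF: see the header of module `Bound`.
-/

namespace H70Net

open Complex

private theorem stepN_cs (z : ℂ) : cs (-1) z = z := by
  unfold cs
  rw [if_neg (by norm_num)]

private theorem stepN_even {T l α β v b1 b2 b3 b4 b5 b6 b7 b8 : ℝ} {z w w' : ℂ} (hT : 0 ≤ T)
    (hl : 0 < l) (hv : 3 < v) (hw : w = ⟨α, β⟩) (hw' : w' = ⟨l - α, β⟩)
    (h : Lb v b1 b2 b3 b4 b5 b6 b7 b8 w) (h' : Lb v b1 b2 b3 b4 b5 b6 b7 b8 w')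
    (hre : z.re = T + √2 / 2 * (α - β)) (him : z.im = √2 / 2 * (α + β)) :
    Lb v (cK v * l + max b8 b6) (max b6 (cK v * l + b8 - cD v * l)) (max b5 (b8 - cD v * l))
      (max b8 (b5 - cK v * l)) (max b1 (b4 - 3 * l)) (max b4 (b1 - v * l))
      (max b3 (3 * l + b1 - v * l)) (3 * l + max b1 b3) z := by
  have hr : (√2 / 2) * (√2 / 2) = (1 : ℝ) / 2 := by
    have := Real.mul_self_sqrt (show (0 : ℝ) ≤ 2 by norm_num)
    linarith
  have hD : 0 ≤ cD v := by unfold cD; positivity
  have hK : 0 ≤ cK v := by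
    unfold cK
    exact mul_nonneg (by linarith) (by positivity)
  have hDT := mul_nonneg hD hT
  have hKT := mul_nonneg hK hT
  have hvT : 0 ≤ v * T := mul_nonneg (by linarith) hT
  subst hw hw'
  obtain ⟨a1, a2, a3, a4, a5, a6, a7, a8⟩ := h
  obtain ⟨c1, c2, c3, c4, c5, c6, c7, c8⟩ := h'
  constructor
  · have e : F1 v z = 3 * T - cK v * l + F8 v ⟨l - α, β⟩ := by
      simp only [F1, F8, cD, cK, hre, him]; ring
    have := le_max_left b8 b6
    rw [e]; linarith
  · have e : F2 v z = 3 * T + F6 v ⟨α, β⟩ := by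
      simp only [F2, F6, cD, cK, hre, him]; ring
    have := le_max_left b6 (cK v * l + b8 - cD v * l)
    rw [e]; linarith
  · have e : F3 v z = v * T + F5 v ⟨α, β⟩ := by
      simp only [F3, F5, cD, cK, hre, him]; ring
    have := le_max_left b5 (b8 - cD v * l)
    rw [e]; linarith
  · have e : F4 v z = v * T + F8 v ⟨α, β⟩ := by
      simp only [F4, F8, cD, cK, hre, him]; ring
    have := le_max_left b8 (b5 - cK v * l)
    rw [e]; linarith
  · have e : F5 v z = cD v * T + F1 v ⟨α, β⟩ := by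
      simp only [F5, F1, cD, cK, hre, him]
      linear_combination ((3 + v) * (α - β) - (v - 3) * (α + β)) * hr
    have := le_max_left b1 (b4 - 3 * l)
    rw [e]; linarith
  · have e : F6 v z = cD v * T + F4 v ⟨α, β⟩ := by
      simp only [F6, F4, cD, cK, hre, him]
      linear_combination ((3 + v) * (α - β) + (v - 3) * (α + β)) * hr
    have := le_max_left b4 (b1 - v * l)
    rw [e]; linarith
  · have e : F7 v z = cK v * T + F3 v ⟨α, β⟩ := by
      simp only [F7, F3, cD, cK, hre, him]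
      linear_combination ((v - 3) * (α - β) + (3 + v) * (α + β)) * hr
    have := le_max_left b3 (3 * l + b1 - v * l)
    rw [e]; linarith
  · have e : F8 v z = cK v * T - 3 * l + F1 v ⟨l - α, β⟩ := by
      simp only [F8, F1, cD, cK, hre, him]
      linear_combination ((v - 3) * (α - β) - (3 + v) * (α + β)) * hr
    have := le_max_left b1 b3
    rw [e]; linarith

private theorem stepN_odd {T l α β v b1 b2 b3 b4 b5 b6 b7 b8 : ℝ} {z w w' : ℂ} (hT : 0 ≤ T)
    (hl : 0 < l) (hv : 3 < v) (hw : w = ⟨α, β⟩) (hw' : w' = ⟨l - α, β⟩)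
    (h : Lb v b1 b2 b3 b4 b5 b6 b7 b8 w) (h' : Lb v b1 b2 b3 b4 b5 b6 b7 b8 w')
    (hre : z.re = T + √2 / 2 * l + √2 / 2 * (α - β)) (him : z.im = √2 / 2 * l - √2 / 2 * (α + β)) :
    Lb v (cK v * l + max b8 b6) (max b6 (cK v * l + b8 - cD v * l)) (max b5 (b8 - cD v * l))
      (max b8 (b5 - cK v * l)) (max b1 (b4 - 3 * l)) (max b4 (b1 - v * l))
      (max b3 (3 * l + b1 - v * l)) (3 * l + max b1 b3) z := by
  have hr : (√2 / 2) * (√2 / 2) = (1 : ℝ) / 2 := by
    have := Real.mul_self_sqrt (show (0 : ℝ) ≤ 2 by norm_num)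
    linarith
  have hD : 0 ≤ cD v := by unfold cD; positivity
  have hK : 0 ≤ cK v := by
    unfold cK
    exact mul_nonneg (by linarith) (by positivity)
  have hDT := mul_nonneg hD hT
  have hKT := mul_nonneg hK hT
  have hvT : 0 ≤ v * T := mul_nonneg (by linarith) hT
  subst hw hw'
  obtain ⟨a1, a2, a3, a4, a5, a6, a7, a8⟩ := h
  obtain ⟨c1, c2, c3, c4, c5, c6, c7, c8⟩ := h'
  constructor
  · have e : F1 v z = 3 * T - cK v * l + F6 v ⟨α, β⟩ := by
      simp only [F1, F6, cD, cK, hre, him]; ring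
    have := le_max_right b8 b6
    rw [e]; linarith
  · have e : F2 v z = 3 * T + cD v * l - cK v * l + F8 v ⟨l - α, β⟩ := by
      simp only [F2, F8, cD, cK, hre, him]; ring
    have := le_max_right b6 (cK v * l + b8 - cD v * l)
    rw [e]; linarith
  · have e : F3 v z = v * T + cD v * l + F8 v ⟨α, β⟩ := by
      simp only [F3, F8, cD, cK, hre, him]; ring
    have := le_max_right b5 (b8 - cD v * l)
    rw [e]; linarith
  · have e : F4 v z = v * T + cK v * l + F5 v ⟨α, β⟩ := by
      simp only [F4, F5, cD, cK, hre, him]; ring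
    have := le_max_right b8 (b5 - cK v * l)
    rw [e]; linarith
  · have e : F5 v z = cD v * T + 3 * l + F4 v ⟨α, β⟩ := by
      simp only [F5, F4, cD, cK, hre, him]
      linear_combination (6 * l + (3 + v) * (α - β) + (v - 3) * (α + β)) * hr
    have := le_max_right b1 (b4 - 3 * l)
    rw [e]; linarith
  · have e : F6 v z = cD v * T + v * l + F1 v ⟨α, β⟩ := by
      simp only [F6, F1, cD, cK, hre, him]
      linear_combination (2 * v * l + (3 + v) * (α - β) - (v - 3) * (α + β)) * hr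
    have := le_max_right b4 (b1 - v * l)
    rw [e]; linarith
  · have e : F7 v z = cK v * T + v * l - 3 * l + F1 v ⟨l - α, β⟩ := by
      simp only [F7, F1, cD, cK, hre, him]
      linear_combination (2 * v * l + (v - 3) * (α - β) - (3 + v) * (α + β)) * hr
    have := le_max_right b3 (3 * l + b1 - v * l)
    rw [e]; linarith
  · have e : F8 v z = cK v * T - 3 * l + F3 v ⟨α, β⟩ := by
      simp only [F8, F3, cD, cK, hre, him]
      linear_combination (-6 * l + (v - 3) * (α - β) + (3 + v) * (α + β)) * hr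
    have := le_max_right b1 b3
    rw [e]; linarith

theorem stepN {n n' : ℤ} {l l' : ℝ} {y : ℤ → ℂ} (h : Elt n n' l l' y) (hl : 0 < l) (v : ℝ)
    (hv : 3 < v) (b1 b2 b3 b4 b5 b6 b7 b8 : ℝ)
    (hb : ∀ i : ℤ, 0 ≤ i → i ≤ n → Lb v b1 b2 b3 b4 b5 b6 b7 b8 (y i)) (x : ℤ) (hx : 0 ≤ x) :
    Lb v (cK v * l + max b8 b6) (max b6 (cK v * l + b8 - cD v * l)) (max b5 (b8 - cD v * l))
      (max b8 (b5 - cK v * l)) (max b1 (b4 - 3 * l)) (max b4 (b1 - v * l))
      (max b3 (3 * l + b1 - v * l)) (3 * l + max b1 b3) (st (-1) n l y x) := by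
  obtain ⟨k, i, hi0, hin, hx', hk⟩ := exists_block h.hn x
  have hk0 : (0 : ℝ) ≤ (k : ℝ) := by exact_mod_cast hk hx
  have hT : 0 ≤ (k : ℝ) * (√2 * l) := by positivity
  have hy' : y (n - i) = ⟨l - (y i).re, (y i).im⟩ := by
    rw [h.mir]
    apply Complex.ext <;> simp
  have hy : y i = ⟨(y i).re, (y i).im⟩ := rfl
  have h1 := hb i hi0 hin.le
  have h2 := hb (n - i) (by omega) (by omega)
  rcases hx' with e | e
  · refine stepN_even hT hl hv hy hy' h1 h2 ?_ ?_
    · rw [e, st_block_even h (-1) k i hi0 hin.le, stepN_cs]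
      simp [zeta]
      ring
    · rw [e, st_block_even h (-1) k i hi0 hin.le, stepN_cs]
      simp [zeta]
      ring
  · refine stepN_odd hT hl hv hy hy' h1 h2 ?_ ?_
    · rw [e, st_block_odd h (-1) k i hi0 hin.le, stepN_cs]
      simp [zeta]
      ring
    · rw [e, st_block_odd h (-1) k i hi0 hin.le, stepN_cs]
      simp [zeta]
      ring

end H70Net
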