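import Pool.Agent.H70.Net.StepP
import Pool.Agent.H70.Net.StepN
import Pool.Agent.H70.Net.EltY

/-!
MP_77daaf_co, module `Sharp` : the explicit bounds
PROOF: see the header of module `Bound`.
-/

namespace H70Net

open Complex

private theorem sharp_sqrt : 1.4142 < √2 ∧ √2 < 1.4143 := by
  have h2 : √2 * √2 = 2 := Real.mul_self_sqrt (by norm_num)
  have h0 : 0 ≤ √2 := Real.sqrt_nonneg 2
  constructor
  · by_contra h
    push Not at h
    nlinarith
  · by_contra h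
    push Not at h
    nlinarith

private theorem sharp_num {l l' : ℝ} (hl : 0 < l) (hl' : 0 ≤ l') (hll : √2 * l' ≤ l) (v : ℝ)
    (hv1 : 6.8 ≤ v) (hv2 : v ≤ 6.83) :
    1.4142 * l' ≤ l ∧ 2.68 * l ≤ cK v * l ∧ cK v * l ≤ 2.71 * l ∧ 6.9 * l ≤ cD v * l ∧
      6.8 * l ≤ v * l := by
  obtain ⟨h1, h2⟩ := sharp_sqrt
  refine ⟨?_, ?_, ?_, ?_, mul_le_mul_of_nonneg_right hv1 hl.le⟩
  · exact (mul_le_mul_of_nonneg_right h1.le hl').trans hll
  · refine mul_le_mul_of_nonneg_right ?_ hl.le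
    rw [cK]
    nlinarith
  · refine mul_le_mul_of_nonneg_right ?_ hl.le
    rw [cK]
    nlinarith
  · refine mul_le_mul_of_nonneg_right ?_ hl.le
    rw [cD]
    nlinarith

/-- one step of the bounds, sign `+` -/
theorem sharpP {n n' : ℤ} {l l' : ℝ} {y : ℤ → ℂ} (h : Elt n n' l l' y) (hl : 0 < l)
    (hl' : 0 ≤ l') (hll : √2 * l' ≤ l) (v : ℝ) (hv1 : 6.8 ≤ v) (hv2 : v ≤ 6.83)
    (hb : ∀ i : ℤ, 0 ≤ i → i ≤ n → Lb v (2.6 * l) (2.68 * l') (2.6 * l) (2.68 * l') (2.6 * l')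
      (2.68 * l) (2.6 * l') (2.68 * l) (y i)) (x : ℤ) (hx : 0 ≤ x) :
    Lb v (cK v * l + 2.6 * l') (2.6 * l') (2.68 * l) (2.6 * l') (2.68 * l') (2.6 * l)
      (2.68 * l') (3 * l + 2.68 * l') (st 1 n l y x) := by
  obtain ⟨h1, h2, h3, h4, h5⟩ := sharp_num hl hl' hll v hv1 hv2
  refine (stepP h hl v (by linarith) _ _ _ _ _ _ _ _ hb x hx).mono ?_ ?_ ?_ ?_ ?_ ?_ ?_ ?_
  · rw [max_self]
  · exact max_le (by linarith) (by linarith)
  · exact max_le (by linarith) (by linarith)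
  · exact max_le (by linarith) (by linarith)
  · exact max_le (by linarith) (by linarith)
  · exact max_le (by linarith) (by linarith)
  · exact max_le (by linarith) (by linarith)
  · rw [max_self]

/-- one step of the bounds, sign `-` -/
theorem sharpN {n n' : ℤ} {l l' : ℝ} {y : ℤ → ℂ} (h : Elt n n' l l' y) (hl : 0 < l)
    (hl' : 0 ≤ l') (hll : √2 * l' ≤ l) (v : ℝ) (hv1 : 6.8 ≤ v) (hv2 : v ≤ 6.83)
    (hb : ∀ i : ℤ, 0 ≤ i → i ≤ n → Lb v (2.6 * l) (2.68 * l') (2.6 * l) (2.68 * l') (2.6 * l')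
      (2.68 * l) (2.6 * l') (2.68 * l) (y i)) (x : ℤ) (hx : 0 ≤ x) :
    Lb v (cK v * l + 2.68 * l) (2.68 * l) (2.6 * l') (2.68 * l) (2.6 * l) (2.68 * l')
      (2.6 * l) (3 * l + 2.6 * l) (st (-1) n l y x) := by
  obtain ⟨h1, h2, h3, h4, h5⟩ := sharp_num hl hl' hll v hv1 hv2
  refine (stepN h hl v (by linarith) _ _ _ _ _ _ _ _ hb x hx).mono ?_ ?_ ?_ ?_ ?_ ?_ ?_ ?_
  · rw [max_self]
  · exact max_le (by linarith) (by linarith)
  · exact max_le (by linarith) (by linarith)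
  · exact max_le (by linarith) (by linarith)
  · exact max_le (by linarith) (by linarith)
  · exact max_le (by linarith) (by linarith)
  · exact max_le (by linarith) (by linarith)
  · rw [max_self]

theorem US (D : Dig) (v : ℝ) (hv1 : 6.8 ≤ v) (hv2 : v ≤ 6.83) (m : ℕ) (x : ℤ) (hx : 0 ≤ x) :
    Lb v (2.6 * ll D (m + 1)) (2.68 * ll D m) (2.6 * ll D (m + 1)) (2.68 * ll D m)
      (2.6 * ll D m) (2.68 * ll D (m + 1)) (2.6 * ll D m) (2.68 * ll D (m + 1)) (Y D m x) := by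
  induction m generalizing x with
  | zero =>
    have hx' : (0 : ℝ) ≤ (x : ℝ) := by exact_mod_cast hx
    have hK : 0 ≤ cK v := by
      rw [cK]
      have := Real.sqrt_nonneg 2
      exact mul_nonneg (by linarith) (by linarith)
    have hD : 0 ≤ cD v := by
      rw [cD]
      have := Real.sqrt_nonneg 2
      exact mul_nonneg (by linarith) (by linarith)
    have hre : (Y D 0 x).re = x := by simp [Y]
    have him : (Y D 0 x).im = 0 := by simp [Y]
    have hvx : 0 ≤ v * (x : ℝ) := mul_nonneg (by linarith) hx'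
    have hKx : 0 ≤ cK v * (x : ℝ) := mul_nonneg hK hx'
    have hDx : 0 ≤ cD v * (x : ℝ) := mul_nonneg hD hx'
    have e1 : ll D (0 + 1) = 1 := rfl
    have e0 : ll D 0 = 0 := rfl
    rw [e1, e0]
    refine ⟨?_, ?_, ?_, ?_, ?_, ?_, ?_, ?_⟩
    · rw [F1, hre, him]; linarith
    · rw [F2, hre, him]; linarith
    · rw [F3, hre, him]; linarith
    · rw [F4, hre, him]; linarith
    · rw [F5, hre, him]; linarith
    · rw [F6, hre, him]; linarith
    · rw [F7, hre, him]; linarith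
    · rw [F8, hre, him]; linarith
  | succ m ih =>
    have hl := ll_pos D m
    have hl' := ll_nonneg D m
    have hll := ll_le D m
    have hl2 := ll_pos D (m + 1)
    obtain ⟨h1, h2, h3, h4, h5⟩ := sharp_num hl hl' hll v hv1 hv2
    obtain ⟨q1, q2⟩ := sharp_sqrt
    have hb : ∀ i : ℤ, 0 ≤ i → i ≤ nn D (m + 1) → Lb v (2.6 * ll D (m + 1)) (2.68 * ll D m)
        (2.6 * ll D (m + 1)) (2.68 * ll D m) (2.6 * ll D m) (2.68 * ll D (m + 1))
        (2.6 * ll D m) (2.68 * ll D (m + 1)) (Y D m i) := fun i hi _ => ih i hi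
    have hq : 1.4142 * ll D (m + 1) ≤ √2 * ll D (m + 1) :=
      mul_le_mul_of_nonneg_right q1.le hl.le
    rcases D.hs (m + 1) with hs | hs
    · have hY : Y D (m + 1) = st 1 (nn D (m + 1)) (ll D (m + 1)) (Y D m) := by
        rw [← hs]; rfl
      have h6 := ll_pos_sign D m hs
      rw [hY]
      refine (sharpP (eltY D m) hl hl' hll v hv1 hv2 hb x hx).mono ?_ ?_ ?_ ?_ ?_ ?_ ?_ ?_ <;>
        linarith
    · have hY : Y D (m + 1) = st (-1) (nn D (m + 1)) (ll D (m + 1)) (Y D m) := by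
        rw [← hs]; rfl
      have h6 := ll_neg_sign D m hs
      have h7 : 3 * (√2 / 2) * ll D (m + 1) = 1.5 * (√2 * ll D (m + 1)) := by ring
      rw [h7] at h6
      rw [hY]
      refine (sharpN (eltY D m) hl hl' hll v hv1 hv2 hb x hx).mono ?_ ?_ ?_ ?_ ?_ ?_ ?_ ?_ <;>
        linarith

end H70Net
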