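import Pool.Agent.H70.Net.CrossDefs
import Pool.Agent.H70.Net.Sharp

/-!
MP_77daaf_co, module `CrossD` : crossing step for D elements
PROOF: see the header of module `CrossDefs`.
-/

namespace H70Net

open Complex

private theorem cd_F6_zeta_conj (v : ℝ) (z : ℂ) :
    F6 v (zeta * (starRingEnd ℂ) z) = F3 v z := by
  have h2 : √2 * √2 = (2 : ℝ) := Real.mul_self_sqrt (by norm_num)
  simp only [F6, F3, cD, cK, zeta, Complex.mul_re, Complex.mul_im, Complex.conj_re,
    Complex.conj_im]
  linear_combination (v * z.re / 2 + 3 * z.im / 2) * h2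

private theorem cd_F6_neg_conj (v : ℝ) (z : ℂ) :
    F6 v (-(starRingEnd ℂ) z) = - F5 v z := by
  simp only [F6, F5, Complex.neg_re, Complex.neg_im, Complex.conj_re, Complex.conj_im]
  ring

private theorem cd_F6_glide (v L : ℝ) (z : ℂ) :
    F6 v (zeta * (L : ℂ) + (starRingEnd ℂ) z) = v * L + F5 v z := by
  have h2 : √2 * √2 = (2 : ℝ) := Real.mul_self_sqrt (by norm_num)
  simp only [F6, F5, cD, cK, zeta, Complex.mul_re, Complex.mul_im, Complex.add_re,
    Complex.add_im, Complex.conj_re, Complex.conj_im, Complex.ofReal_re, Complex.ofReal_im]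
  linear_combination (v * L / 2) * h2

private theorem cd_F3_add (v L : ℝ) (z : ℂ) :
    F3 v (z + (L : ℂ)) = F3 v z + v * L := by
  simp only [F3, Complex.add_re, Complex.add_im, Complex.ofReal_re, Complex.ofReal_im]
  ring

private theorem cd_F3_half (v l q : ℝ) (z : ℂ) :
    F3 v (zeta * (l : ℂ) + (q : ℂ) - z) = cD v * l + v * q - F3 v z := by
  simp only [F3, cD, zeta, Complex.mul_re, Complex.mul_im, Complex.add_re, Complex.sub_re,
    Complex.sub_im, Complex.add_im, Complex.ofReal_re, Complex.ofReal_im]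
  ring

theorem crossD_step {n n' : ℤ} {l l' : ℝ} {y : ℤ → ℂ} (h : Elt n n' l l' y) (hl : 0 < l)
    (hl' : 0 ≤ l') (hll : √2 * l' ≤ l) (v : ℝ) (hv1 : 6.8 ≤ v) (hv2 : v ≤ 6.83)
    (hb : Std v n l l' y) (s a : ℤ) (hs : s = 1 ∨ s = -1) (ha : 1 ≤ a) (hsa : s = -1 → 2 ≤ a)
    (hc : ∃ σ x0, Cut (fun x => F3 v (st 1 n l y x)) σ x0) :
    ∃ σ x0, Cut (fun x => F6 v (st 1 (2 * a * n + s * n') (√2 * a * l + s * l') (st s n l y) x))
      σ x0 ∧ (s = 1 → (cD v * l + v * l') / 2 ≤ σ ∧
        σ ≤ (cD v * l + v * l') / 2 + √2 * v * l / 2) := by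
  have h' := elt_next h s a hs ha hsa
  have hN : 0 < 2 * a * n + s * n' := h'.hn
  obtain ⟨hD2, hK2, hK1, hK3, hD1, hD3, hDK⟩ := cDK v hv1 hv2
  have hs2 : (0 : ℝ) ≤ √2 := Real.sqrt_nonneg 2
  have hs3 : √2 * √2 = (2 : ℝ) := Real.mul_self_sqrt (by norm_num)
  have hs4 : (1.414 : ℝ) ≤ √2 := by
    rw [show (1.414 : ℝ) = √(1.414 ^ 2) by rw [Real.sqrt_sq (by norm_num)]]
    exact Real.sqrt_le_sqrt (by norm_num)
  have hl'l : 1.414 * l' ≤ l := by nlinarith
  have haR : (1 : ℝ) ≤ (a : ℝ) := by exact_mod_cast ha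
  have k1 : cK v * l ≤ 2.71 * l := mul_le_mul_of_nonneg_right hK3 hl.le
  have k2 : 2.68 * l ≤ cK v * l := mul_le_mul_of_nonneg_right hK1 hl.le
  have k3 : 6.92 * l ≤ cD v * l := mul_le_mul_of_nonneg_right hD1 hl.le
  have k4 : 6.8 * l' ≤ v * l' := mul_le_mul_of_nonneg_right hv1 hl'
  have k5 : v * l' ≤ 6.83 * l' := mul_le_mul_of_nonneg_right hv2 hl'
  have hπ : 0 < √2 * v * l := by positivity
  have hπDK : √2 * v * l = (cD v + cK v) * l := by rw [hDK]
  have hcf := cut_F3 h v s hs hc
  have hper : ∀ x, (fun x => F3 v (st s n l y x)) (x + 2 * n) =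
      (fun x => F3 v (st s n l y x)) x + √2 * v * l := by
    intro x
    have h1 := st_mul h s x 1
    simp only at h1 ⊢
    rw [show x + 2 * n = x + 2 * 1 * n by ring, h1, Int.cast_one, one_mul, cd_F3_add]
    ring
  have hsym : ∀ x, (fun x => F3 v (st s n l y x)) (n + s * n' - x) =
      2 * ((cD v * l + v * (s * l')) / 2) - (fun x => F3 v (st s n l y x)) x := by
    intro x
    simp only
    rw [st_half h s hs x, cd_F3_half]
    ring
  obtain ⟨σ, x0, hcut, hσ1, hσ2⟩ := cut_half (2 * n) (√2 * v * l)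
    ((cD v * l + v * (s * l')) / 2) hπ hper (n + s * n') hsym hcf (if s = 1 then 0 else 1)
  have hfg : ∀ x, 0 ≤ x → x ≤ 2 * a * n + s * n' →
      (fun x => F6 v (st 1 (2 * a * n + s * n') (√2 * a * l + s * l') (st s n l y) x)) x =
        (fun x => F3 v (st s n l y x)) x := by
    intro x hx0 hx1
    simp only
    rw [st_Icc h' 1 x hx0 hx1]
    have : cs 1 (st s n l y x) = (starRingEnd ℂ) (st s n l y x) := by simp [cs]
    rw [this, cd_F6_zeta_conj]
  refine ⟨σ, x0, cut_window hcut (2 * a * n + s * n') hN.le hfg ?_ ?_, ?_⟩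
  · intro x hx
    try simp only
    have hx' : 0 ≤ -x := by omega
    have e1 := st_neg' h' (-x)
    rw [neg_neg] at e1
    rw [e1, cd_F6_neg_conj]
    rcases hs with rfl | rfl
    · have hL : 0 < √2 * a * l + ((1 : ℤ) : ℝ) * l' := by push_cast; positivity
      have h5 := (stepN h' hL v (by linarith) _ _ _ _ _ _ _ _
        (fun i hi _ => sharpP h hl hl' hll v hv1 hv2 hb i hi) (-x) hx').h5
      have hm : max (cK v * l + 2.6 * l') (2.6 * l' - 3 * (√2 * a * l + ((1 : ℤ) : ℝ) * l')) ≤
          cK v * l + 2.6 * l' := by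
        refine max_le le_rfl ?_
        nlinarith
      have hlt : cK v * l + 2.6 * l' < σ := by
        simp only [if_true, Int.cast_zero, zero_mul, add_zero, Int.cast_one, one_mul] at hσ1
        nlinarith
      exact lt_of_le_of_lt ((neg_le_neg h5).trans_eq (neg_neg _)) (lt_of_le_of_lt hm hlt)
    · have ha2 : (2 : ℝ) ≤ (a : ℝ) := by exact_mod_cast hsa rfl
      have hL : 0 < √2 * a * l + ((-1 : ℤ) : ℝ) * l' := by
        push_cast
        have : 1.414 * 2 * l ≤ √2 * a * l :=
          mul_le_mul_of_nonneg_right (mul_le_mul hs4 ha2 (by norm_num) hs2) hl.le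
        nlinarith
      have h5 := (stepN h' hL v (by linarith) _ _ _ _ _ _ _ _
        (fun i hi _ => sharpN h hl hl' hll v hv1 hv2 hb i hi) (-x) hx').h5
      have hm : max (cK v * l + 2.68 * l) (2.68 * l - 3 * (√2 * a * l + ((-1 : ℤ) : ℝ) * l')) ≤
          cK v * l + 2.68 * l := by
        refine max_le le_rfl ?_
        nlinarith
      have hlt : cK v * l + 2.68 * l < σ := by
        rw [if_neg (by norm_num)] at hσ1
        push_cast at hσ1
        rw [hπDK] at hσ1
        nlinarith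
      exact lt_of_le_of_lt ((neg_le_neg h5).trans_eq (neg_neg _)) (lt_of_le_of_lt hm hlt)
  · intro x hx
    try simp only
    have hx' : 0 ≤ x - (2 * a * n + s * n') := by omega
    have e1 := st_glide h' 1 (x - (2 * a * n + s * n'))
    rw [sub_add_cancel] at e1
    rw [e1, cd_F6_glide]
    rcases hs with rfl | rfl
    · have hL : 0 < √2 * a * l + ((1 : ℤ) : ℝ) * l' := by push_cast; positivity
      have h5 := (stepP h' hL v (by linarith) _ _ _ _ _ _ _ _
        (fun i hi _ => sharpP h hl hl' hll v hv1 hv2 hb i hi) _ hx').h5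
      have h1a : 1.414 * l ≤ √2 * a * l :=
          mul_le_mul_of_nonneg_right (by nlinarith) hl.le
      have hm : max (2.6 * l') (2.68 * l - 3 * (√2 * a * l + ((1 : ℤ) : ℝ) * l')) ≤
          2.6 * l' := by
        refine max_le le_rfl ?_
        push_cast
        nlinarith
      have hlt : σ < v * (√2 * a * l + ((1 : ℤ) : ℝ) * l') - 2.6 * l' := by
        simp only [if_true, Int.cast_zero, zero_add, one_mul, Int.cast_one] at hσ2 ⊢
        have e3 : v * (√2 * a * l + l') = √2 * v * l + (a - 1) * (√2 * v * l) + v * l' := by ring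
        have e4 : 0 ≤ ((a : ℝ) - 1) * (√2 * v * l) := mul_nonneg (by linarith) hπ.le
        rw [e3]
        rw [hπDK] at hσ2 e4 ⊢
        nlinarith
      exact lt_of_lt_of_le hlt (by
        have h6 := (neg_le_neg hm).trans h5
        exact (sub_eq_add_neg _ _).trans_le (add_le_add_right h6 _))
    · have ha2 : (2 : ℝ) ≤ (a : ℝ) := by exact_mod_cast hsa rfl
      have h1a : 1.414 * 2 * l ≤ √2 * a * l :=
          mul_le_mul_of_nonneg_right (mul_le_mul hs4 ha2 (by norm_num) hs2) hl.le
      have hL : 0 < √2 * a * l + ((-1 : ℤ) : ℝ) * l' := by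
        push_cast
        nlinarith
      have h5 := (stepP h' hL v (by linarith) _ _ _ _ _ _ _ _
        (fun i hi _ => sharpN h hl hl' hll v hv1 hv2 hb i hi) _ hx').h5
      have hm : max (2.68 * l) (2.6 * l' - 3 * (√2 * a * l + ((-1 : ℤ) : ℝ) * l')) ≤
          2.68 * l := by
        refine max_le le_rfl ?_
        nlinarith
      have hlt : σ < v * (√2 * a * l + ((-1 : ℤ) : ℝ) * l') - 2.68 * l := by
        rw [if_neg (by norm_num)] at hσ2
        push_cast at hσ2 ⊢
        have e3 : v * (√2 * a * l + -1 * l') =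
          2 * (√2 * v * l) + (a - 2) * (√2 * v * l) - v * l' := by ring
        have e4 : 0 ≤ ((a : ℝ) - 2) * (√2 * v * l) := mul_nonneg (by linarith) hπ.le
        rw [e3]
        rw [hπDK] at hσ2 e4 ⊢
        nlinarith
      exact lt_of_lt_of_le hlt (by
        have h6 := (neg_le_neg hm).trans h5
        exact (sub_eq_add_neg _ _).trans_le (add_le_add_right h6 _))
  · intro hs1
    subst hs1
    simp only [if_true, Int.cast_zero, zero_mul, zero_add, add_zero, Int.cast_one, one_mul] at hσ1 hσ2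
    exact ⟨hσ1, by linarith⟩

end H70Net
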