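import Pool.Agent.H70.Net.CrossV
import Pool.Agent.H70.Net.CrossD

/-!
MP_77daaf_co, module `Cross` : cuts exist at all levels
PROOF: see the header of module `CrossDefs`.
-/

namespace H70Net

open Complex

theorem std_Y (D : Dig) (v : ℝ) (hv1 : 6.8 ≤ v) (hv2 : v ≤ 6.83) (m : ℕ) :
    Std v (nn D (m + 1)) (ll D (m + 1)) (ll D m) (Y D m) :=
  fun i h0 _ => US D v hv1 hv2 m i h0

theorem cross_all (D : Dig) (v : ℝ) (hv1 : 6.8 ≤ v) (hv2 : v ≤ 6.83) (m : ℕ) :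
    (∃ σ x0, Cut (fun x => F5 v (st 1 (nn D (m + 1)) (ll D (m + 1)) (Y D m) x)) σ x0) ∧
    (∃ σ x0, Cut (fun x => F3 v (st 1 (nn D (m + 1)) (ll D (m + 1)) (Y D m) x)) σ x0) := by
  induction m with
  | zero => exact cross_base v (by norm_num at hv1 ⊢; linarith)
  | succ m ih =>
    obtain ⟨h5, h3⟩ := ih
    have hE := eltY D m
    have hE' := eltY D (m + 1)
    constructor
    · obtain ⟨σ, x0, hc, -⟩ := crossD_step hE (ll_pos D m) (ll_nonneg D m) (ll_le D m) v hv1 hv2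
        (std_Y D v hv1 hv2 m) (D.s (m + 1)) (D.a (m + 1)) (D.hs (m + 1)) (D.ha (m + 1))
        (D.hn (m + 1)) h3
      exact cut_F5_of_F6 hE' v ⟨σ, x0, hc⟩
    · exact crossV_step hE (ll_pos D m) (ll_nonneg D m) (ll_le D m) v hv1 hv2
        (std_Y D v hv1 hv2 m) (D.s (m + 1)) (D.a (m + 1)) (D.hs (m + 1)) (D.ha (m + 1))
        (D.hn (m + 1)) h5

end H70Net
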