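import Mathlib

/-!
MP_77daaf_co, module `Cut` : single crossings of a function on `ℤ`.

PROOFS.
* `cut_shift`: `Cut f σ x0` and `f (x + N) = f x + π` for all `x` give, for `j : ℤ`,
  `Cut f (σ + j π) (x0 + j N)` (`f (x + j N) = f x + j π` by `Int.induction_on`).
* `cut_reflect`: `f (c - x) = 2 C - f x` gives `Cut f (2 C - σ) (c - 1 - x0)`:
  `x ≤ c - 1 - x0` iff `c - x > x0`.
* `cut_half`: let `j = ⌊(σ - C - t π/2) / π⌋`, `σ' = σ - j π ∈ [C + t π/2, C + t π/2 + π)`.  If
  `σ' ≤ C + (t+1) π/2` done.  Otherwise reflect and shift: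
  `σ'' = 2 C - σ' + (t+1) π ∈ (C + t π /2, C + (t+1) π/2]`.
-/

namespace H70Net

def Cut (f : ℤ → ℝ) (σ : ℝ) (x0 : ℤ) : Prop :=
  (∀ x, x ≤ x0 → f x < σ) ∧ ∀ x, x0 < x → σ < f x

theorem cut_shift {f : ℤ → ℝ} {σ : ℝ} {x0 : ℤ} (h : Cut f σ x0) (N : ℤ) (π : ℝ)
    (hper : ∀ x, f (x + N) = f x + π) (j : ℤ) : Cut f (σ + j * π) (x0 + j * N) := by
  have key : ∀ j : ℤ, ∀ x, f (x + j * N) = f x + j * π := by
    intro j
    induction j using Int.induction_on with
    | zero => intro x; simp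
    | succ i ih =>
      intro x
      have h1 : x + ((i : ℤ) + 1) * N = (x + i * N) + N := by ring
      rw [h1, hper, ih]
      push_cast
      ring
    | pred i ih =>
      intro x
      have h1 : x + (-(i : ℤ)) * N = (x + (-(i : ℤ) - 1) * N) + N := by ring
      have h2 := ih x
      rw [h1, hper] at h2
      push_cast at h2 ⊢
      linarith
  constructor
  · intro x hx
    have h1 := key j (x - j * N)
    rw [sub_add_cancel] at h1
    have h2 := h.1 (x - j * N) (by linarith)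
    linarith
  · intro x hx
    have h1 := key j (x - j * N)
    rw [sub_add_cancel] at h1
    have h2 := h.2 (x - j * N) (by linarith)
    linarith

theorem cut_reflect {f : ℤ → ℝ} {σ : ℝ} {x0 : ℤ} (h : Cut f σ x0) (c : ℤ) (C : ℝ)
    (hsym : ∀ x, f (c - x) = 2 * C - f x) : Cut f (2 * C - σ) (c - 1 - x0) := by
  constructor
  · intro x hx
    have h1 := h.2 (c - x) (by omega)
    rw [hsym] at h1
    linarith
  · intro x hx
    have h1 := h.1 (c - x) (by omega)
    rw [hsym] at h1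
    linarith

theorem cut_half {f : ℤ → ℝ} (N : ℤ) (π C : ℝ) (hπ : 0 < π) (hper : ∀ x, f (x + N) = f x + π)
    (c : ℤ) (hsym : ∀ x, f (c - x) = 2 * C - f x) (h : ∃ σ x0, Cut f σ x0) (t : ℤ) :
    ∃ σ x0, Cut f σ x0 ∧ C + t * (π / 2) ≤ σ ∧ σ ≤ C + (t + 1) * (π / 2) := by
  obtain ⟨σ, x0, h⟩ := h
  have hj1 : (⌊(σ - C - t * (π / 2)) / π⌋ : ℝ) * π ≤ σ - C - t * (π / 2) := by
    rw [← le_div_iff₀ hπ]
    exact Int.floor_le _
  have hj2 : σ - C - t * (π / 2) < ((⌊(σ - C - t * (π / 2)) / π⌋ : ℝ) + 1) * π := by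
    rw [← div_lt_iff₀ hπ]
    exact Int.lt_floor_add_one _
  generalize ⌊(σ - C - t * (π / 2)) / π⌋ = j at hj1 hj2
  have h1 := cut_shift h N π hper (-j)
  push_cast at h1
  by_cases hle : σ - j * π ≤ C + (t + 1) * (π / 2)
  · exact ⟨_, _, h1, by linarith, by linarith⟩
  · rw [not_le] at hle
    have h2 := cut_shift (cut_reflect h1 c C hsym) N π hper (t + 1)
    push_cast at h2
    exact ⟨_, _, h2, by linarith, by linarith⟩

/-- change of variables -/
theorem cut_comp {f g : ℤ → ℝ} {σ : ℝ} {x0 : ℤ} (h : Cut f σ x0) (b : ℤ) (a : ℝ)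
    (hg : ∀ x, g x = f (x + b) + a) : Cut g (σ + a) (x0 - b) := by
  constructor
  · intro x hx
    have h1 := h.1 (x + b) (by omega)
    rw [hg]
    linarith
  · intro x hx
    have h1 := h.2 (x + b) (by omega)
    rw [hg]
    linarith

/-- a cut value of `f` in the window `[0,n]` is a cut value of `g`, if `g = f` there, `g` is small
before and large after the window. -/
theorem cut_window {f g : ℤ → ℝ} {σ : ℝ} {x0 : ℤ} (h : Cut f σ x0) (n : ℤ) (hn : 0 ≤ n)
    (hfg : ∀ x, 0 ≤ x → x ≤ n → g x = f x) (h1 : ∀ x, x ≤ 0 → g x < σ)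
    (h2 : ∀ x, n ≤ x → σ < g x) : Cut g σ x0 := by
  constructor
  · intro x hx
    by_cases hx0 : x ≤ 0
    · exact h1 x hx0
    · by_cases hxn : x ≤ n
      · rw [hfg x (by omega) hxn]
        exact h.1 x hx
      · have h3 := h.1 n (by omega)
        rw [← hfg n hn le_rfl] at h3
        exact absurd h3 (not_lt.2 (h2 n le_rfl).le)
  · intro x hx
    by_cases hxn : n ≤ x
    · exact h2 x hxn
    · by_cases hx0 : 0 ≤ x
      · rw [hfg x hx0 (by omega)]
        exact h.2 x hx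
      · have h3 := h.2 0 (by omega)
        rw [← hfg 0 le_rfl hn] at h3
        exact absurd h3 (not_lt.2 (h1 0 le_rfl).le)

end H70Net
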