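import Pool.Agent.H70.Net.Bound
import Pool.Agent.H70.Net.Cut

/-!
MP_77daaf_co, module `CrossDefs` : the crossing lemmas.

Notation: `ZP = st 1 n l y`, `ZN = st (-1) n l y`, `W = st s n l y`, `N = 2 a n + s n'`,
`L = √2 a l + s l'`  (so `W` is the next element: `elt_next`), `D = cD v`, `K = cK v`.

* `cross_base`: `y x = x`, `n = 1`, `l = 1`, `n' = l' = 0` : `ZP (2k) = √2 k`, `ZP (2k+1) = √2 k + zeta`
  and `F5`, `F3` are strictly increasing along `ZP` (increments `3, v` resp. `D, K`), so any value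
  strictly between `f 0` and `f 1` is a cut, `x0 = 0`.
* `cut_F6`: if `F5 ∘ ZP` has a cut then so has `F6 ∘ st s n l y`, both signs:
   `F6 z = F5 (conj z)`, `conj (ZP x) = ZP (x+n) - zeta l` (`st_glide`), and
   `ZN x = ZP (x + n') - l'` (`st_parse`); use `cut_comp`.
  `cut_F3`: from `F3 ∘ ZP` to `F3 ∘ st s n l y` by `st_parse`.
* `crossV_step`.  `f = F6 ∘ W` has a cut (`cut_F6`); `f (x + 2n) = f x + (3+v) l` (`st_mul`, `D√2 = 3+v`);
  `f (n + s n' - x) = (v l + s D l') - f x` (`st_half`).  By `cut_half` with `t = 0` if `s = 1`,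
  `t = 1` if `s = -1`, there is a cut `σ` of `f` with `C + t π/2 ≤ σ ≤ C + (t+1) π/2`,
  `C = (v l + s D l')/2`, `π = (3+v) l`.  Then `σ` is a cut of `g = F3 ∘ st 1 N L W` by `cut_window`
  (window `[0,N]`, where `g x = F3 (zeta conj (W x)) = F6 (W x)`).
   Before: `g (-x) = - F4 (st (-1) N L W x)` (`st_neg'`) `≤ max b8 (b5 - K L)` by `stepN` for `W`, with the
   bounds `b_j` of `W` from `sharpP`/`sharpN`:  `s = 1`: `b8 = 3 l + 2.68 l'`, `b5 = 2.68 l'`;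
   `s = -1`: `b8 = 5.6 l`, `b5 = 2.6 l`.  Need `< C + t π/2`:
     `s = 1`: `3 l + 2.68 l' < (v l + D l')/2`;
     `s = -1`: `5.6 l < v l + 3 l/2 - D l'/2`, using `√2 l' ≤ l`: `v - 1.5 - 2.6 = 2.7 > D/(2√2) = (3+v)/4`.
       (here `C + π/2 = (v l - D l')/2 + (3+v) l/2`).
   After: `g (N + x) = D L + F4 (st 1 N L W x)` (`st_glide`) `≥ D L - max b7 (b6 - K L)` (`stepP`):
     `s = 1`: `b7 = 2.68 l'`, `b6 = 2.6 l ≤ K L`; need `C + π/2 < D L - 2.68 l'`, where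
       `D L = a (3+v) l + D l'`, i.e. `(a-1) π + (3 l + D l')/2 > 2.68 l'`;
     `s = -1`: `b7 = 2.6 l`, `b6 = 2.68 l'`; need `C + π < D L - 2.6 l`, `D L = a (3+v) l - D l'`, `a ≥ 2`:
       `(3 + v/2 - 2.6) l > D l'/2`.
* `crossD_step`.  `f = F3 ∘ W` has a cut (`cut_F3`), period `2n`, `π = √2 v l`, symmetry
  `f (n + s n' - x) = (D l + s v l') - f x`; same `t`; `C = (D l + s v l')/2`.
  `g = F6 ∘ st 1 N L W`; on `[0,N]`: `g x = F6 (zeta conj (W x)) = F3 (W x)`.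
   Before: `g (-x) = - F5 (st (-1) N L W x) ≤ max b1 (b4 - 3 L)`: `s = 1`: `b1 = K l + 2.6 l'`, `b4 = 2.6 l'`;
     `s = -1`: `b1 = K l + 2.68 l`, `b4 = 2.68 l`.  Need `< C + t π/2` : `s = 1`:
     `K l + 2.6 l' < (D l + v l')/2`; `s = -1`: `C + π/2 = (D l - v l')/2 + (D+K) l/2` (`√2 v = D + K`), so
     `D l - K l /2 - 2.68 l > v l'/2`.
   After: `g (N + x) = v L + F5 (st 1 N L W x) ≥ v L - max b2 (b3 - 3 L)`: `s = 1`: `b2 = 2.6 l'`,
     `b3 = 2.68 l ≤ 3 L`; `s = -1`: `b2 = 2.68 l`, `b3 = 2.6 l'`.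
     `v L = a π + s v l'`: `s = 1`: `(a-1) π + (K l + v l')/2 > 2.6 l'`;
     `s = -1`: `C + π < v L - 2.68 l` : `(a-2) π + (D/2 + K) l - v l'/2 - 2.68 l > 0`.
  (It is convenient to prove `2.68 ≤ K`, `K ≤ 2.71`, `6.92 ≤ D`, `D ≤ 6.96`, `D √2 = 3 + v`, `K √2 = v - 3`.)
* `cross_all`: induction on `m` (both statements together).
-/

namespace H70Net

open Complex

/-- the standard bounds of an element -/
def Std (v : ℝ) (n : ℤ) (l l' : ℝ) (y : ℤ → ℂ) : Prop :=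
  ∀ i : ℤ, 0 ≤ i → i ≤ n → Lb v (2.6 * l) (2.68 * l') (2.6 * l) (2.68 * l') (2.6 * l')
      (2.68 * l) (2.6 * l') (2.68 * l) (y i)

private theorem cdf_sqrt : (1.4142 : ℝ) ≤ √2 ∧ √2 ≤ (1.4143 : ℝ) ∧ √2 * √2 = 2 := by
  refine ⟨?_, ?_, Real.mul_self_sqrt (by norm_num)⟩
  · apply Real.le_sqrt_of_sq_le
    norm_num
  · rw [Real.sqrt_le_iff]
    norm_num

theorem cDK (v : ℝ) (hv1 : 6.8 ≤ v) (hv2 : v ≤ 6.83) :
    cD v * √2 = 3 + v ∧ cK v * √2 = v - 3 ∧ 2.68 ≤ cK v ∧ cK v ≤ 2.71 ∧ 6.92 ≤ cD v ∧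
      cD v ≤ 6.96 ∧ √2 * v = cD v + cK v := by
  obtain ⟨h1, h2, h3⟩ := cdf_sqrt
  unfold cD cK
  refine ⟨?_, ?_, ?_, ?_, ?_, ?_, ?_⟩
  · linear_combination ((3 + v) / 2) * h3
  · linear_combination ((v - 3) / 2) * h3
  · nlinarith [mul_le_mul (show (3.8 : ℝ) ≤ v - 3 by linarith) h1 (by norm_num) (by linarith)]
  · nlinarith [mul_le_mul (show v - 3 ≤ (3.83 : ℝ) by linarith) h2 (by linarith) (by norm_num)]
  · nlinarith [mul_le_mul (show (9.8 : ℝ) ≤ 3 + v by linarith) h1 (by norm_num) (by linarith)]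
  · nlinarith [mul_le_mul (show 3 + v ≤ (9.83 : ℝ) by linarith) h2 (by linarith) (by norm_num)]
  · ring

private theorem cdf_elt : Elt 1 0 1 0 (fun x : ℤ => (x : ℂ)) where
  hn := one_pos
  hn' := le_rfl
  hle := zero_le_one
  y0 := by simp
  mir x := by simp
  gli x := by simp
  zip x h0 h1 := by
    have hx : x = 0 := by omega
    subst hx
    simp

private theorem cdf_even (k : ℤ) :
    st 1 1 1 (fun x : ℤ => (x : ℂ)) (2 * k) = (k : ℂ) * ((√2 : ℝ) : ℂ) := by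
  have h := st_block_even cdf_elt 1 k 0 le_rfl zero_le_one
  have h0 : cs 1 ((0 : ℤ) : ℂ) = 0 := by simp [cs]
  rw [mul_one, add_zero, mul_one] at h
  rw [h]
  simp only [h0, mul_zero, add_zero]

private theorem cdf_odd (k : ℤ) :
    st 1 1 1 (fun x : ℤ => (x : ℂ)) (2 * k + 1) = (k : ℂ) * ((√2 : ℝ) : ℂ) + zeta := by
  have h := st_block_odd cdf_elt 1 k 0 le_rfl zero_le_one
  have h0 : cs 1 ((0 : ℤ) : ℂ) = 0 := by simp [cs]
  rw [mul_one, add_zero, mul_one] at h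
  rw [h]
  simp only [h0, mul_zero, map_zero, add_zero, Complex.ofReal_one, mul_one]

private theorem cdf_re_even (k : ℤ) :
    ((k : ℂ) * ((√2 : ℝ) : ℂ)).re = k * √2 ∧ ((k : ℂ) * ((√2 : ℝ) : ℂ)).im = 0 := by
  constructor <;> simp

private theorem cdf_re_odd (k : ℤ) :
    ((k : ℂ) * ((√2 : ℝ) : ℂ) + zeta).re = k * √2 + √2 / 2 ∧
      ((k : ℂ) * ((√2 : ℝ) : ℂ) + zeta).im = √2 / 2 := by
  constructor <;> simp [zeta]

private theorem cdf_cut {f : ℤ → ℝ} {A B : ℝ} (hA : 1 < A) (hB : 1 < B) (hAB : B < A + 1)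
    (he : ∀ k : ℤ, f (2 * k) = A * k) (ho : ∀ k : ℤ, f (2 * k + 1) = A * k + B) : Cut f 1 0 := by
  constructor
  · intro x hx
    rcases Int.even_or_odd' x with ⟨k, rfl | rfl⟩
    · rw [he]
      have hk : (k : ℝ) ≤ 0 := by exact_mod_cast (by omega : k ≤ 0)
      nlinarith
    · rw [ho]
      have hk : (k : ℝ) ≤ -1 := by exact_mod_cast (by omega : k ≤ -1)
      nlinarith
  · intro x hx
    rcases Int.even_or_odd' x with ⟨k, rfl | rfl⟩
    · rw [he]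
      have hk : (1 : ℝ) ≤ k := by exact_mod_cast (by omega : 1 ≤ k)
      nlinarith
    · rw [ho]
      have hk : (0 : ℝ) ≤ k := by exact_mod_cast (by omega : 0 ≤ k)
      nlinarith

theorem cross_base (v : ℝ) (hv : 3 < v) :
    (∃ σ x0, Cut (fun x => F5 v (st 1 1 1 (fun x => (x : ℂ)) x)) σ x0) ∧
    (∃ σ x0, Cut (fun x => F3 v (st 1 1 1 (fun x => (x : ℂ)) x)) σ x0) := by
  obtain ⟨h1, h2, h3⟩ := cdf_sqrt
  constructor
  · refine ⟨1, 0, cdf_cut (A := 3 + v) (B := 3) (by linarith) (by norm_num) (by linarith)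
      (fun k => ?_) (fun k => ?_)⟩
    · show F5 v (st 1 1 1 (fun x => (x : ℂ)) (2 * k)) = _
      rw [cdf_even, F5, (cdf_re_even k).1, (cdf_re_even k).2, cD]
      linear_combination ((3 + v) * k / 2) * h3
    · show F5 v (st 1 1 1 (fun x => (x : ℂ)) (2 * k + 1)) = _
      rw [cdf_odd, F5, (cdf_re_odd k).1, (cdf_re_odd k).2, cD, cK]
      linear_combination ((3 + v) * k / 2 + 3 / 2) * h3
  · refine ⟨1, 0, cdf_cut (A := v * √2) (B := (v + 3) * (√2 / 2)) (by nlinarith) (by nlinarith)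
      (by nlinarith) (fun k => ?_) (fun k => ?_)⟩
    · show F3 v (st 1 1 1 (fun x => (x : ℂ)) (2 * k)) = _
      rw [cdf_even, F3, (cdf_re_even k).1, (cdf_re_even k).2]
      ring
    · show F3 v (st 1 1 1 (fun x => (x : ℂ)) (2 * k + 1)) = _
      rw [cdf_odd, F3, (cdf_re_odd k).1, (cdf_re_odd k).2]
      ring

private theorem cdf_conj {n n' : ℤ} {l l' : ℝ} {y : ℤ → ℂ} (h : Elt n n' l l' y) (x : ℤ) :
    (starRingEnd ℂ) (st 1 n l y x) = st 1 n l y (x + n) - zeta * l := by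
  rw [st_glide h]
  ring

private theorem cdf_neg {n n' : ℤ} {l l' : ℝ} {y : ℤ → ℂ} (h : Elt n n' l l' y) (x : ℤ) :
    st (-1) n l y x = st 1 n l y (x + n') - (l' : ℂ) := by
  have h1 := st_parse h (x + n')
  rw [add_sub_cancel_right] at h1
  rw [h1]
  ring

theorem cut_F6 {n n' : ℤ} {l l' : ℝ} {y : ℤ → ℂ} (h : Elt n n' l l' y) (v : ℝ) (s : ℤ)
    (hs : s = 1 ∨ s = -1) (hc : ∃ σ x0, Cut (fun x => F5 v (st 1 n l y x)) σ x0) :
    ∃ σ x0, Cut (fun x => F6 v (st s n l y x)) σ x0 := by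
  obtain ⟨σ, x0, hc⟩ := hc
  have h1 : ∃ σ x0, Cut (fun x => F6 v (st 1 n l y x)) σ x0 := by
    refine ⟨_, _, cut_comp hc n (-F5 v (zeta * l)) fun x => ?_⟩
    have h2 := cdf_conj h x
    have h3 : F6 v (st 1 n l y x) = F5 v ((starRingEnd ℂ) (st 1 n l y x)) := by
      simp only [F5, F6, Complex.conj_re, Complex.conj_im]
      ring
    show F6 v (st 1 n l y x) = F5 v (st 1 n l y (x + n)) + _
    rw [h3, h2]
    simp only [F5, Complex.sub_re, Complex.sub_im]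
    ring
  rcases hs with rfl | rfl
  · exact h1
  · obtain ⟨σ, x0, hc⟩ := h1
    refine ⟨_, _, cut_comp hc n' (-F6 v (l' : ℂ)) fun x => ?_⟩
    show F6 v (st (-1) n l y x) = F6 v (st 1 n l y (x + n')) + _
    rw [cdf_neg h]
    simp only [F6, Complex.sub_re, Complex.sub_im]
    ring

theorem cut_F3 {n n' : ℤ} {l l' : ℝ} {y : ℤ → ℂ} (h : Elt n n' l l' y) (v : ℝ) (s : ℤ)
    (hs : s = 1 ∨ s = -1) (hc : ∃ σ x0, Cut (fun x => F3 v (st 1 n l y x)) σ x0) :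
    ∃ σ x0, Cut (fun x => F3 v (st s n l y x)) σ x0 := by
  rcases hs with rfl | rfl
  · exact hc
  · obtain ⟨σ, x0, hc⟩ := hc
    refine ⟨_, _, cut_comp hc n' (-F3 v (l' : ℂ)) fun x => ?_⟩
    show F3 v (st (-1) n l y x) = F3 v (st 1 n l y (x + n')) + _
    rw [cdf_neg h]
    simp only [F3, Complex.sub_re, Complex.sub_im]
    ring

theorem cut_F5_of_F6 {n n' : ℤ} {l l' : ℝ} {y : ℤ → ℂ} (h : Elt n n' l l' y) (v : ℝ)
    (hc : ∃ σ x0, Cut (fun x => F6 v (st 1 n l y x)) σ x0) :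
    ∃ σ x0, Cut (fun x => F5 v (st 1 n l y x)) σ x0 := by
  obtain ⟨σ, x0, hc⟩ := hc
  refine ⟨_, _, cut_comp hc n (-F6 v (zeta * l)) fun x => ?_⟩
  have h2 := cdf_conj h x
  have h3 : F5 v (st 1 n l y x) = F6 v ((starRingEnd ℂ) (st 1 n l y x)) := by
    simp only [F5, F6, Complex.conj_re, Complex.conj_im]
    ring
  show F5 v (st 1 n l y x) = F6 v (st 1 n l y (x + n)) + _
  rw [h3, h2]
  simp only [F6, Complex.sub_re, Complex.sub_im]
  ring

end H70Net
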