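import Pool.Agent.H70.Net.CrossDefs
import Pool.Agent.H70.Net.Sharp

/-!
MP_77daaf_co, module `CrossV` : crossing step for V elements
PROOF: see the header of module `CrossDefs`.
-/

namespace H70Net

open Complex

private theorem cv_sqrt_sq : √2 * √2 = (2 : ℝ) := Real.mul_self_sqrt (by norm_num)

private theorem cv_F6_add (v : ℝ) (z : ℂ) (r : ℝ) : F6 v (z + (r : ℂ)) = F6 v z + cD v * r := by
  simp [F6]
  ring

private theorem cv_F6_half (v l r : ℝ) (w : ℂ) :
    F6 v (zeta * l + (r : ℂ) - w) = v * l + cD v * r - F6 v w := by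
  have h2 := cv_sqrt_sq
  simp [F6, zeta, cD, cK]
  linear_combination (v * l / 2) * h2

private theorem cv_F3_zeta (v : ℝ) (w : ℂ) : F3 v (zeta * cs 1 w) = F6 v w := by
  simp [F6, F3, zeta, cD, cK, cs]
  ring

private theorem cv_F3_neg (v : ℝ) (w : ℂ) : F3 v (-(starRingEnd ℂ) w) = -F4 v w := by
  simp [F3, F4]
  ring

private theorem cv_F3_glide (v L : ℝ) (w : ℂ) :
    F3 v (zeta * L + (starRingEnd ℂ) w) = cD v * L + F4 v w := by
  simp [F3, F4, zeta, cD]
  ring

/-- the general step: everything except the numerical inequalities -/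
private theorem cv_core {n n' : ℤ} {l l' : ℝ} {y : ℤ → ℂ} (h : Elt n n' l l' y) (hl : 0 < l)
    (v : ℝ) (hv : 3 < v)
    (s a : ℤ) (hs : s = 1 ∨ s = -1) (ha : 1 ≤ a) (hsa : s = -1 → 2 ≤ a)
    (hc : ∃ σ x0, Cut (fun x => F5 v (st 1 n l y x)) σ x0)
    (b1 b2 b3 b4 b5 b6 b7 b8 : ℝ) (hDs : cD v * √2 = 3 + v)
    (hb : ∀ i : ℤ, 0 ≤ i → Lb v b1 b2 b3 b4 b5 b6 b7 b8 (st s n l y i))
    (hL : 0 < √2 * a * l + s * l') (t : ℤ)
    (hbef : max b8 (b5 - cK v * (√2 * a * l + s * l')) <
      (v * l + cD v * (s * l')) / 2 + t * ((3 + v) * l / 2))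
    (haft : (v * l + cD v * (s * l')) / 2 + (t + 1) * ((3 + v) * l / 2) <
      cD v * (√2 * a * l + s * l') - max b7 (b6 - cK v * (√2 * a * l + s * l'))) :
    ∃ σ x0, Cut (fun x => F3 v (st 1 (2 * a * n + s * n') (√2 * a * l + s * l') (st s n l y) x))
      σ x0 := by
  have hE := elt_next h s a hs ha hsa
  have hper : ∀ x, F6 v (st s n l y (x + 2 * n)) = F6 v (st s n l y x) + (3 + v) * l := by
    intro x
    have e1 := st_mul h s x 1
    have e2 : st s n l y (x + 2 * n) = st s n l y x + ((√2 * l : ℝ) : ℂ) := by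
      rw [show x + 2 * n = x + 2 * 1 * n by ring, e1]
      push_cast
      ring
    rw [e2, cv_F6_add]
    linear_combination l * hDs
  have hsym : ∀ x, F6 v (st s n l y (n + s * n' - x)) =
      2 * ((v * l + cD v * (s * l')) / 2) - F6 v (st s n l y x) := by
    intro x
    rw [st_half h s hs x, cv_F6_half]
    ring
  have hπ : 0 < (3 + v) * l := by
    have : 0 < 3 + v := by linarith
    positivity
  obtain ⟨σ, x0, hcut, hσ1, hσ2⟩ := cut_half (f := fun x => F6 v (st s n l y x)) (2 * n)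
    ((3 + v) * l) ((v * l + cD v * (s * l')) / 2) hπ hper (n + s * n') hsym
    (cut_F6 h v s hs hc) t
  refine ⟨σ, x0, cut_window hcut (2 * a * n + s * n') hE.hn.le ?_ ?_ ?_⟩
  · intro x hx0 hx1
    rw [st_Icc hE 1 x hx0 hx1, cv_F3_zeta]
  · intro x hx
    have e1 := st_neg' hE (-x)
    rw [neg_neg] at e1
    rw [e1, cv_F3_neg]
    have h4 := (stepN hE hL v hv b1 b2 b3 b4 b5 b6 b7 b8 (fun i hi _ => hb i hi) (-x)
      (by omega)).h4
    linarith
  · intro x hx
    have e1 := st_glide hE 1 (x - (2 * a * n + s * n'))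
    rw [sub_add_cancel] at e1
    rw [e1, cv_F3_glide]
    have h4 := (stepP hE hL v hv b1 b2 b3 b4 b5 b6 b7 b8 (fun i hi _ => hb i hi)
      (x - (2 * a * n + s * n')) (by omega)).h4
    linarith

theorem crossV_step {n n' : ℤ} {l l' : ℝ} {y : ℤ → ℂ} (h : Elt n n' l l' y) (hl : 0 < l)
    (hl' : 0 ≤ l') (hll : √2 * l' ≤ l) (v : ℝ) (hv1 : 6.8 ≤ v) (hv2 : v ≤ 6.83)
    (hb : Std v n l l' y) (s a : ℤ) (hs : s = 1 ∨ s = -1) (ha : 1 ≤ a) (hsa : s = -1 → 2 ≤ a)
    (hc : ∃ σ x0, Cut (fun x => F5 v (st 1 n l y x)) σ x0) :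
    ∃ σ x0, Cut (fun x => F3 v (st 1 (2 * a * n + s * n') (√2 * a * l + s * l') (st s n l y) x))
      σ x0 := by
  obtain ⟨hD, hK, hK1, hK2, hD1, hD2, -⟩ := cDK v hv1 hv2
  have hs2 := cv_sqrt_sq
  have hs0 : (0 : ℝ) < √2 := by positivity
  have hs1 : (1.4 : ℝ) ≤ √2 := by nlinarith
  have har : (1 : ℝ) ≤ a := by exact_mod_cast ha
  have hl2 : 0 < √2 * l := by positivity
  have hl1 : l' ≤ l := by nlinarith
  have hDl : cD v * l' * 4 ≤ (3 + v) * (2 * l) := by
    have e1 : cD v * l' * 2 = (3 + v) * (√2 * l') := by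
      rw [← hD]
      linear_combination (-(cD v * l')) * hs2
    have e2 : (3 + v) * (√2 * l') ≤ (3 + v) * l := by
      apply mul_le_mul_of_nonneg_left hll (by linarith)
    linarith
  rcases hs with rfl | rfl
  · have hL1 : √2 * l ≤ √2 * a * l := by nlinarith
    have hDL : cD v * (√2 * a * l) = a * ((3 + v) * l) := by
      rw [← hD]
      ring
    have hDL1 : (3 + v) * l ≤ a * ((3 + v) * l) := by
      have : 0 ≤ (3 + v) * l := by
        have : 0 < 3 + v := by linarith
        positivity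
      nlinarith
    have hKL : 2.6 * l ≤ cK v * (√2 * a * l + l') := by
      have e1 : 2.68 * (√2 * l) ≤ cK v * (√2 * a * l + l') := by
        apply mul_le_mul hK1 (by linarith) hl2.le (by linarith)
      nlinarith
    have hDl0 : 0 ≤ (cD v - 6.92) * l' := mul_nonneg (by linarith) hl'
    have hvl0 : 0 ≤ (v - 6.8) * l := mul_nonneg (by linarith) hl.le
    refine cv_core h hl v (by linarith) 1 a (Or.inl rfl) ha hsa hc _ _ _ _ _ _ _ _ hD
      (fun i hi => sharpP h hl hl' hll v hv1 hv2 hb i hi) ?_ 0 ?_ ?_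
    · push_cast
      linarith
    · push_cast
      rw [one_mul]
      apply max_lt
      · linarith
      · linarith
    · push_cast
      rw [one_mul]
      have hmax : max (2.68 * l') (2.6 * l - cK v * (√2 * a * l + l')) ≤ 2.68 * l' := by
        apply max_le le_rfl
        linarith
      have e3 : cD v * (√2 * a * l + l') = a * ((3 + v) * l) + cD v * l' := by
        rw [mul_add, hDL]
      rw [e3]
      linarith
  · have ha2 : (2 : ℝ) ≤ a := by exact_mod_cast hsa rfl
    have hL1 : 2 * (√2 * l) ≤ √2 * a * l := by nlinarith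
    have hDL : cD v * (√2 * a * l) = a * ((3 + v) * l) := by
      rw [← hD]
      ring
    have hpos : 0 ≤ (3 + v) * l := by
      have : 0 < 3 + v := by linarith
      positivity
    have hDL1 : 2 * ((3 + v) * l) ≤ a * ((3 + v) * l) := by
      nlinarith
    have hL0 : 0 < √2 * a * l + (-1) * l' := by nlinarith
    have hKL : 0 ≤ cK v * (√2 * a * l + (-1) * l') := by
      have : 0 < cK v := by linarith
      positivity
    have hDl0 : 0 ≤ (cD v - 6.92) * l' := mul_nonneg (by linarith) hl'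
    have hvl0 : 0 ≤ (v - 6.8) * l := mul_nonneg (by linarith) hl.le
    refine cv_core h hl v (by linarith) (-1) a (Or.inr rfl) ha hsa hc _ _ _ _ _ _ _ _ hD
      (fun i hi => sharpN h hl hl' hll v hv1 hv2 hb i hi) ?_ 1 ?_ ?_
    · push_cast
      exact hL0
    · push_cast
      apply max_lt
      · linarith
      · linarith
    · push_cast
      have hmax : max (2.6 * l) (2.68 * l' - cK v * (√2 * a * l + (-1) * l')) ≤ 2.6 * l := by
        apply max_le le_rfl
        have : 2.68 * l' ≤ 2.6 * l := by nlinarith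
        linarith
      have e3 : cD v * (√2 * a * l + (-1) * l') = a * ((3 + v) * l) - cD v * l' := by
        rw [mul_add, hDL]
        ring
      rw [e3]
      linarith

end H70Net
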