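import Pool.Agent.H70.Net.PolyLine

/-!
MP_77daaf_co, module `PolyEnd` : `PP` is a simple polygon, and its decomposition into cells.
PROOFS: see the header of module `PolyPP` (items `PP_polygon`, `PP_bounded`).
* `PP_cells`: the cells `c` with `Band c`, `|cy| ≤ 9q + 2` ... and `cx` in a bounded interval which
  contains all cells meeting the strip: if `z ∈ sq c`, `σ ≤ sf z ≤ σ + 24q²`, `3 q x = sf z + (7q-p) y`.
* `PP_polygon`: `frontier_PP`: `z ∈ PP` and one of
    (1) `z ∈ Gam`: by `Gam_strip` (`Gam ⊆ ` : conversely a point of `Gam` in the strip is in `PP`: it is in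
        `Bel`, and `z + W ∈ Abo` by `Abo_of_high`/`Gam_range`: `2 (y + 3q) > -2q - p + 6q > p`);
    (2) `z + W ∈ Gam`: the same with `z + W` (`sf (z+W) = sf z`; `z + W ∈ Abo`, and `z ∈ Bel` because
        `2 y < p - 6q < -2q-p`, `Bel_of_low`);
    (3), (4): `line_PP`.
  Then `ladder` with `M = (8n).toNat + 2`, `A = AA C X`, `w = W`.
-/

namespace H70Net

open Complex

/-- the strip -/
def stripS (C : Curve) : Set ℂ := {z | C.σ ≤ sf C z ∧ sf C z ≤ C.σ + 24 * C.q ^ 2}

private theorem pe_sf_cont (C : Curve) : Continuous (sf C) := by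
  unfold sf
  fun_prop

private theorem pe_sf_W (C : Curve) (z : ℂ) (t : ℝ) : sf C (z + t * Ws C) = sf C z := by
  simp only [sf, Ws, Complex.add_re, Complex.add_im, Complex.mul_re, Complex.mul_im,
    Complex.ofReal_re, Complex.ofReal_im]
  ring

private theorem pe_sf_W1 (C : Curve) (z : ℂ) : sf C (z + Ws C) = sf C z := by
  have := pe_sf_W C z 1
  rwa [Complex.ofReal_one, one_mul] at this

private theorem pe_sf_q (C : Curve) (z : ℂ) : sf C (z + 8 * C.q) = sf C z + 24 * C.q ^ 2 := by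
  have e : (8 * (C.q : ℂ)) = ((8 * (C.q : ℝ) : ℝ) : ℂ) := by push_cast; rfl
  rw [e]
  simp only [sf, Complex.add_re, Complex.add_im, Complex.ofReal_re, Complex.ofReal_im]
  ring

private theorem pe_pos (C : Curve) : (0 : ℝ) < C.p ∧ 5 * (C.p : ℝ) < C.q ∧ (1 : ℝ) ≤ C.q := by
  have hp := C.hp
  have hpq := C.hpq
  refine ⟨by exact_mod_cast hp, by exact_mod_cast hpq, ?_⟩
  have : (1 : ℤ) ≤ C.q := by omega
  exact_mod_cast this

theorem strip_convex (C : Curve) : Convex ℝ (stripS C) ∧ IsClosed (stripS C) := by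
  constructor
  · intro x hx y hy a b ha hb hab
    have e : sf C (a • x + b • y) = a * sf C x + b * sf C y := by
      simp only [sf, Complex.add_re, Complex.add_im, Complex.real_smul, Complex.mul_re,
        Complex.mul_im, Complex.ofReal_re, Complex.ofReal_im]
      ring
    obtain ⟨x1, x2⟩ := hx
    obtain ⟨y1, y2⟩ := hy
    have hb' : b = 1 - a := by linarith
    refine ⟨?_, ?_⟩
    · rw [e]
      have h1 := mul_le_mul_of_nonneg_left x1 ha
      have h2 := mul_le_mul_of_nonneg_left y1 hb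
      have h3 : a * C.σ + b * C.σ = C.σ := by rw [hb']; ring
      linarith
    · rw [e]
      have h1 := mul_le_mul_of_nonneg_left x2 ha
      have h2 := mul_le_mul_of_nonneg_left y2 hb
      have h3 : a * (C.σ + 24 * C.q ^ 2) + b * (C.σ + 24 * C.q ^ 2) = C.σ + 24 * C.q ^ 2 := by
        rw [hb']; ring
      linarith
  · exact (isClosed_le continuous_const (pe_sf_cont C)).inter
      (isClosed_le (pe_sf_cont C) continuous_const)

theorem PP_cells (C : Curve) : ∃ S : Finset (ℤ × ℤ), (∀ c ∈ S, Band C c.1 c.2) ∧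
    PP C = ⋃ c ∈ S, (sq c.1 c.2 ∩ stripS C) := by
  classical
  obtain ⟨hp, hpq, hq⟩ := pe_pos C
  set M : ℝ := |C.σ| + 24 * C.q ^ 2 + (7 * C.q - C.p) * (8 * C.q + C.p + 1) with hM
  set B : ℤ := ⌈2 * M + 1⌉ with hB
  refine ⟨((Finset.Icc (-B) B) ×ˢ (Finset.Icc (-8 * C.q - C.p) C.p)).filter
    (fun c => Band C c.1 c.2), fun c hc => (Finset.mem_filter.1 hc).2, ?_⟩
  ext z
  simp only [Set.mem_iUnion, Finset.mem_filter, Finset.mem_product, Finset.mem_Icc,
    Set.mem_inter_iff]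
  constructor
  · rintro ⟨⟨cx, cy, hb, hz⟩, h1, h2⟩
    have hr := band_range C cx cy hb
    refine ⟨(cx, cy), ⟨⟨⟨?_, ?_⟩, by omega, by omega⟩, hb⟩, hz, h1, h2⟩ <;>
    · have hz1 := hz.1
      have hz2 := hz.2
      rw [abs_le] at hz1 hz2
      have hr1 : (-8 * (C.q : ℝ) - C.p) < cy := by exact_mod_cast hr.1
      have hr2 : (cy : ℝ) < C.p := by exact_mod_cast hr.2
      have hy1 : -(8 * (C.q : ℝ) + C.p + 1) ≤ z.im := by linarith
      have hy2 : z.im ≤ 8 * (C.q : ℝ) + C.p + 1 := by linarith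
      have hK : 0 ≤ 7 * (C.q : ℝ) - C.p := by linarith
      have hs1 := neg_abs_le C.σ
      have hs2 := le_abs_self C.σ
      have ha := mul_le_mul_of_nonneg_left hy1 hK
      have hb := mul_le_mul_of_nonneg_left hy2 hK
      have hsf : sf C z = 3 * C.q * z.re - (7 * C.q - C.p) * z.im := rfl
      have hq2 : 0 ≤ (C.q : ℝ) ^ 2 := by positivity
      have hx1 : -M ≤ 3 * C.q * z.re := by rw [hM]; linarith
      have hx2 : 3 * C.q * z.re ≤ M := by rw [hM]; linarith
      have hM0 : 0 ≤ M := by linarith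
      have hx3 : -M ≤ z.re := by
        by_contra hc
        rw [not_le] at hc
        nlinarith
      have hx4 : z.re ≤ M := by
        by_contra hc
        rw [not_le] at hc
        nlinarith
      have hB1 : 2 * M + 1 ≤ (B : ℝ) := Int.le_ceil _
      first
      | (have : ((-B : ℤ) : ℝ) ≤ (cx : ℝ) := by push_cast; linarith
         exact_mod_cast this)
      | (have : (cx : ℝ) ≤ (B : ℝ) := by linarith
         exact_mod_cast this)
  · rintro ⟨c, ⟨_, hb⟩, hz, hs⟩
    exact ⟨⟨c.1, c.2, hb, hz⟩, hs.1, hs.2⟩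

private theorem pe_sq_compact (cx cy : ℤ) : IsCompact (sq cx cy) := by
  apply Metric.isCompact_of_isClosed_isBounded (sq_closed cx cy)
  rw [Metric.isBounded_iff_subset_closedBall (0 : ℂ)]
  refine ⟨|(cx : ℝ)| + |(cy : ℝ)| + 2, ?_⟩
  rintro z ⟨h1, h2⟩
  rw [Metric.mem_closedBall, dist_zero_right]
  have h3 := Complex.norm_le_abs_re_add_abs_im z
  have h4 : |2 * z.re| ≤ |(cx : ℝ)| + 1 := by
    have := abs_add_le (2 * z.re - cx) (cx : ℝ)
    rw [sub_add_cancel] at this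
    linarith
  have h5 : |2 * z.im| ≤ |(cy : ℝ)| + 1 := by
    have := abs_add_le (2 * z.im - cy) (cy : ℝ)
    rw [sub_add_cancel] at this
    linarith
  rw [abs_mul, abs_of_pos (by norm_num : (0 : ℝ) < 2)] at h4 h5
  have h6 := abs_nonneg (cx : ℝ)
  have h7 := abs_nonneg (cy : ℝ)
  linarith

theorem PP_compact (C : Curve) : IsCompact (PP C) := by
  obtain ⟨S, _, hS⟩ := PP_cells C
  rw [hS]
  apply S.isCompact_biUnion
  intro c _
  exact (pe_sq_compact c.1 c.2).inter_right (strip_convex C).2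

theorem PP_interior_nonempty (C : Curve) : (interior (PP C)).Nonempty := by
  obtain ⟨hp, hpq, hq⟩ := pe_pos C
  obtain ⟨X, θ, h0, h1, hX, hs⟩ := exists_X0 C
  have hl := ray_low C X θ h0 h1 hX hs (-1 / 2) (by norm_num)
  have hh := ray_high C X θ h0 h1 hX hs (1 / 2) (by norm_num)
  set z0 : ℂ := X + ((-1 / 2 : ℝ) : ℂ) * Ws C with hz0
  have hz1 : z0 + Ws C = X + ((1 / 2 : ℝ) : ℂ) * Ws C := by
    rw [hz0]; push_cast; ring
  rw [← hz1] at hh
  have hi1 : z0 ∈ interior (Bel C) := by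
    rw [int_Bel]
    exact ⟨hl.1, fun hg => hl.2 (Gam_sub C z0 hg).2⟩
  have hi2 : z0 + Ws C ∈ interior (Abo C) := by
    rw [int_Abo]
    exact ⟨hh.1, fun hg => hh.2 (Gam_sub C _ hg).1⟩
  have hc : Continuous fun t : ℝ => z0 + (t : ℂ) := by fun_prop
  have hc' : Continuous fun t : ℝ => z0 + (t : ℂ) + Ws C := by fun_prop
  have ho : IsOpen ((fun t : ℝ => z0 + (t : ℂ)) ⁻¹' interior (Bel C) ∩
      (fun t : ℝ => z0 + (t : ℂ) + Ws C) ⁻¹' interior (Abo C)) :=
    (isOpen_interior.preimage hc).inter (isOpen_interior.preimage hc')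
  have hm : (0 : ℝ) ∈ ((fun t : ℝ => z0 + (t : ℂ)) ⁻¹' interior (Bel C) ∩
      (fun t : ℝ => z0 + (t : ℂ) + Ws C) ⁻¹' interior (Abo C)) := by
    refine ⟨?_, ?_⟩
    · show z0 + ((0 : ℝ) : ℂ) ∈ interior (Bel C)
      rw [Complex.ofReal_zero, add_zero]
      exact hi1
    · show z0 + ((0 : ℝ) : ℂ) + Ws C ∈ interior (Abo C)
      rw [Complex.ofReal_zero, add_zero]
      exact hi2
  obtain ⟨δ, hδ, hball⟩ := Metric.isOpen_iff.1 ho 0 hm
  set ε := min (δ / 2) 1 with hε
  have hε0 : 0 < ε := lt_min (by linarith) one_pos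
  have hε1 : ε ≤ 1 := min_le_right _ _
  have hεδ : ε < δ := lt_of_le_of_lt (min_le_left _ _) (by linarith)
  have hmem : ε ∈ Metric.ball (0 : ℝ) δ := by
    rw [Metric.mem_ball, Real.dist_eq, sub_zero, abs_of_pos hε0]
    exact hεδ
  obtain ⟨hb1, hb2⟩ := hball hmem
  have hb1' : z0 + (ε : ℂ) ∈ interior (Bel C) := hb1
  have hb2' : z0 + (ε : ℂ) + Ws C ∈ interior (Abo C) := hb2
  rw [int_Bel] at hb1'
  rw [int_Abo] at hb2'
  have hsf : sf C (z0 + (ε : ℂ)) = C.σ + 3 * C.q * ε := by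
    have e1 : sf C (z0 + (ε : ℂ)) = sf C z0 + 3 * C.q * ε := by
      simp only [sf, Complex.add_re, Complex.add_im, Complex.ofReal_re, Complex.ofReal_im]
      ring
    rw [e1, hz0, pe_sf_W, hs]
  have h3 : 0 < 3 * (C.q : ℝ) * ε := by positivity
  have h4 : 3 * (C.q : ℝ) * ε < 24 * (C.q : ℝ) ^ 2 := by nlinarith
  refine ⟨z0 + (ε : ℂ), ?_⟩
  rw [interior_PP]
  refine ⟨⟨?_, by rw [hsf]; linarith, by rw [hsf]; linarith⟩, hb1'.2, hb2'.2,
    by rw [hsf]; linarith, by rw [hsf]; linarith⟩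
  rw [BandR_eq]
  exact ⟨hb1'.1, hb2'.1⟩

theorem PP_polygon (C : Curve) : IsSimplePolygon (PP C) := by
  refine ⟨PP_compact C, PP_interior_nonempty C, ?_⟩
  obtain ⟨hp, hpq, hq⟩ := pe_pos C
  obtain ⟨X, θ, h0, h1, hX, hs⟩ := exists_X0 C
  have hsim := AA_simple C X θ h0 h1 hX
  have hstrip := Gam_strip C X θ h0 h1 hX hs
  have hA0 : AA C X 0 = X := by simp [AA]
  have hn : 0 ≤ 8 * C.n := by have := C.hn; omega
  have hAM : AA C X ((8 * C.n).toNat + 1) = X + 8 * C.q := by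
    unfold AA
    rw [if_neg (by omega), if_neg (by omega)]
  have hW : ∀ z : ℂ, (z + Ws C).im = z.im + 3 * C.q := by
    intro z
    simp [Ws]
  have hlow : ∀ t : ℝ, 0 < t → X - t * Ws C ∉ Gam C := by
    intro t ht hg
    have h2 := ray_low C X θ h0 h1 hX hs (-t) (by linarith)
    have e : X + ((-t : ℝ) : ℂ) * Ws C = X - t * Ws C := by push_cast; ring
    rw [e] at h2
    exact h2.2 (Gam_sub C _ hg).2
  have hhigh : ∀ t : ℝ, t < 1 → X - t * Ws C + Ws C ∉ Gam C := by
    intro t ht hg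
    have h2 := ray_high C X θ h0 h1 hX hs (1 - t) (by linarith)
    have e : X + ((1 - t : ℝ) : ℂ) * Ws C = X - t * Ws C + Ws C := by push_cast; ring
    rw [e] at h2
    exact h2.2 (Gam_sub C _ hg).1
  have hshift : ∀ z : ℂ, z + 8 * C.q ∈ Gam C ↔ z ∈ Gam C := by
    intro z
    have := Gam_shift C z 1
    rwa [Int.cast_one, mul_one] at this
  have hL := ladder ((8 * C.n).toNat + 2) (by omega) (AA C X) (Ws C) hsim.1
    (by
      intro i hi j hj hij z hz1 hz2
      exact hsim.2 i (by omega) j (by omega) hij z hz1 hz2)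
    (by
      intro i hi j hj z hz1 hz2
      have g1 := ((hstrip z).2 ⟨i, by omega, hz1⟩).1
      have g2 := ((hstrip (z + Ws C)).2 ⟨j, by omega, hz2⟩).1
      have r1 := (Gam_range C z g1).1
      have r2 := (Gam_range C _ g2).2
      rw [hW] at r2
      linarith)
    (by
      intro t ht0 ht1 i hi
      rw [hA0]
      constructor
      · intro hz
        by_contra hne
        exact hlow t (lt_of_le_of_ne ht0 (Ne.symm hne)) ((hstrip _).2 ⟨i, by omega, hz⟩).1
      · intro hz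
        by_contra hne
        exact hhigh t (lt_of_le_of_ne ht1 hne) ((hstrip _).2 ⟨i, by omega, hz⟩).1)
    (by
      intro t ht0 ht1 i hi
      rw [show (8 * C.n).toNat + 2 - 1 = (8 * C.n).toNat + 1 by omega, hAM]
      constructor
      · intro hz
        by_contra hne
        have g1 := ((hstrip _).2 ⟨i, by omega, hz⟩).1
        rw [show X + 8 * (C.q : ℂ) - t * Ws C = X - t * Ws C + 8 * C.q by ring, hshift] at g1
        exact hlow t (lt_of_le_of_ne ht0 (Ne.symm hne)) g1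
      · intro hz
        by_contra hne
        have g1 := ((hstrip _).2 ⟨i, by omega, hz⟩).1
        rw [show X + 8 * (C.q : ℂ) - t * Ws C + Ws C = X - t * Ws C + Ws C + 8 * C.q by ring,
          hshift] at g1
        exact hhigh t (lt_of_le_of_ne ht1 hne) g1)
    (by
      intro t u _ _ _ _ he
      rw [show (8 * C.n).toNat + 2 - 1 = (8 * C.n).toNat + 1 by omega, hAM, hA0] at he
      have e1 := congrArg (sf C) he
      rw [show X - (t : ℂ) * Ws C = X + ((-t : ℝ) : ℂ) * Ws C by push_cast; ring,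
        show X + 8 * (C.q : ℂ) - (u : ℂ) * Ws C = X + 8 * (C.q : ℂ) + ((-u : ℝ) : ℂ) * Ws C by
          push_cast; ring, pe_sf_W, pe_sf_W, pe_sf_q] at e1
      have : 0 < 24 * (C.q : ℝ) ^ 2 := by positivity
      linarith)
    (by
      intro hw
      have := congrArg Complex.im hw
      simp [Ws] at this
      have h3 := C_q_pos C
      omega)
  obtain ⟨N, V, hN, hV0, hV1, hV2, hV3⟩ := hL
  refine ⟨N, V, hN, hV0, hV1, hV2, ?_⟩
  rw [hV3, frontier_PP]
  have hline := line_PP C X θ h0 h1 hX hs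
  ext z
  simp only [Set.mem_ofPred_eq]
  rw [show (8 * C.n).toNat + 2 - 1 = (8 * C.n).toNat + 1 by omega, hAM, hA0]
  constructor
  · rintro ⟨hz, hg | hg | hg | hg⟩
    · exact Or.inl ((hstrip z).1 ⟨hg, hz.2.1, hz.2.2⟩)
    · refine Or.inr (Or.inl ((hstrip (z + Ws C)).1 ⟨hg, ?_, ?_⟩))
      · rw [pe_sf_W1]; exact hz.2.1
      · rw [pe_sf_W1]; exact hz.2.2
    · exact Or.inr (Or.inr (Or.inl ((hline z).1.1 ⟨hz, hg⟩)))
    · exact Or.inr (Or.inr (Or.inr ((hline z).2.1 ⟨hz, hg⟩)))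
  · rintro (hz | hz | hz | hz)
    · obtain ⟨g1, g2, g3⟩ := (hstrip z).2 hz
      refine ⟨⟨?_, g2, g3⟩, Or.inl g1⟩
      rw [BandR_eq]
      refine ⟨(Gam_sub C z g1).1, (Abo_of_high C _ ?_).1⟩
      have r1 := (Gam_range C z g1).1
      rw [hW]
      linarith
    · obtain ⟨g1, g2, g3⟩ := (hstrip (z + Ws C)).2 hz
      rw [pe_sf_W1] at g2 g3
      refine ⟨⟨?_, g2, g3⟩, Or.inr (Or.inl g1)⟩
      rw [BandR_eq]
      refine ⟨(Bel_of_low C _ ?_).1, (Gam_sub C _ g1).2⟩
      have r1 := (Gam_range C _ g1).2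
      rw [hW] at r1
      linarith
    · obtain ⟨g1, g2⟩ := (hline z).1.2 hz
      exact ⟨g1, Or.inr (Or.inr (Or.inl g2))⟩
    · obtain ⟨g1, g2⟩ := (hline z).2.2 hz
      exact ⟨g1, Or.inr (Or.inr (Or.inr g2))⟩

end H70Net
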