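import Pool.Agent.H70.Net.FrStar
import Pool.Agent.H70.Net.PolyEnd

/-!
MP_77daaf_co, module `CubeNet` : `PP C` is a net of the surface of the cube `[-q,q]^3`.
-/

namespace H70Net

open Complex

/-- the surface of the cube `[-q,q]^3` -/
def surfQ (q : ℤ) : Set E3 := {x | (∀ i, |x i| ≤ q) ∧ ∃ i, |x i| = q}

private theorem cn_sq_W (C : Curve) (cx cy : ℤ) (z : ℂ) (hz : z ∈ sq cx cy) :
    z + Ws C ∈ sq (cx + 2 * (7 * C.q - C.p)) (cy + 6 * C.q) := by
  simp only [sq, Set.mem_ofPred_eq] at hz ⊢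
  have e1 : 2 * (z + Ws C).re - ((cx + 2 * (7 * C.q - C.p) : ℤ) : ℝ) = 2 * z.re - cx := by
    rw [Complex.add_re]
    show 2 * (z.re + (7 * C.q - C.p : ℝ)) - _ = _
    push_cast; ring
  have e2 : 2 * (z + Ws C).im - ((cy + 6 * C.q : ℤ) : ℝ) = 2 * z.im - cy := by
    rw [Complex.add_im]
    show 2 * (z.im + (3 * C.q : ℝ)) - _ = _
    push_cast; ring
  rw [e1, e2]
  exact hz

theorem inn_of_interior (C : Curve) (z : ℂ) (hz : z ∈ interior (PP C)) : Inn C z := by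
  rw [interior_PP] at hz
  obtain ⟨hz0, hg, hgw, h1, h2⟩ := hz
  intro cx cy a b hab hB hzc hzc'
  obtain ⟨o1, o2, t1, t2⟩ := hB
  have o1' : (cx + 2 * a) % 2 = 1 := by omega
  have o2' : (cy + 2 * b) % 2 = 1 := by omega
  refine ⟨o1', o2', ?_, ?_⟩
  · rcases total_01 C _ _ o1' o2' with h | h
    · exact absurd (Bel_inter_Abo C z ⟨cx, cy, o1, o2, t1, hzc⟩ ⟨_, _, o1', o2', h, hzc'⟩) hg
    · exact h
  · rcases total_01 C (cx + 2 * a + 2 * (7 * C.q - C.p)) (cy + 2 * b + 6 * C.q) (by omega)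
      (by omega) with h | h
    · exact h
    · exfalso
      apply hgw
      apply Bel_inter_Abo C
      · exact ⟨_, _, by omega, by omega, h, cn_sq_W C _ _ z hzc'⟩
      · exact ⟨_, _, by omega, by omega, t2, cn_sq_W C _ _ z hzc⟩

private theorem cn_out (q : ℤ) (hq : 0 < q) (t : ℤ) (y : ℝ) (ht : t = 2 * q ∨ t = -2 * q)
    (h : |2 * y - t| ≤ 1 - |(sgq q t : ℝ)|) : |y| = q := by
  have hqR : (0 : ℝ) < q := by exact_mod_cast hq
  have hs : |(sgq q t : ℝ)| = 1 := by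
    unfold sgq
    rcases ht with rfl | rfl
    · rw [if_pos rfl]; norm_num
    · rw [if_neg (by omega), if_pos rfl]; norm_num
  rw [hs, sub_self] at h
  have h2 : 2 * y - t = 0 := abs_eq_zero.1 (le_antisymm h (abs_nonneg _))
  rcases ht with rfl | rfl
  · push_cast at h2
    have : y = q := by linarith
    rw [this, abs_of_pos hqR]
  · push_cast at h2
    have : y = -q := by linarith
    rw [this, abs_neg, abs_of_pos hqR]

private theorem cn_in (q t : ℤ) (y : ℝ) (h1 : -2 * q < t) (h2 : t < 2 * q)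
    (h : |2 * y - t| ≤ 1 - |(sgq q t : ℝ)|) : |y| ≤ q := by
  have h3 : |2 * y - t| ≤ 1 := le_trans h (by have := abs_nonneg (sgq q t : ℝ); linarith)
  rw [abs_le] at h3 ⊢
  have h4 : (-2 * (q : ℝ)) + 1 ≤ t := by exact_mod_cast h1
  have h5 : (t : ℝ) + 1 ≤ 2 * q := by exact_mod_cast h2
  constructor <;> linarith [h3.1, h3.2]

theorem SqS_sub (q : ℤ) (m : ℤ × ℤ × ℤ) (hm : isSC q m) : SqS q m ⊆ surfQ q := by
  rintro x ⟨h0, h1, h2⟩
  rcases hm with ⟨a1, a2, a3, a4, a5, a6, a7⟩ | ⟨a1, a2, a3, a4, a5, a6, a7⟩ |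
    ⟨a1, a2, a3, a4, a5, a6, a7⟩
  · have hq : 0 < q := by omega
    have k0 := cn_out q hq _ _ a1 h0
    have k1 := cn_in q _ _ a3 a4 h1
    have k2 := cn_in q _ _ a6 a7 h2
    refine ⟨?_, 0, k0⟩
    intro i
    fin_cases i
    · exact k0.le
    · exact k1
    · exact k2
  · have hq : 0 < q := by omega
    have k1 := cn_out q hq _ _ a1 h1
    have k0 := cn_in q _ _ a3 a4 h0
    have k2 := cn_in q _ _ a6 a7 h2
    refine ⟨?_, 1, k1⟩
    intro i
    fin_cases i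
    · exact k0
    · exact k1.le
    · exact k2
  · have hq : 0 < q := by omega
    have k2 := cn_out q hq _ _ a1 h2
    have k0 := cn_in q _ _ a3 a4 h0
    have k1 := cn_in q _ _ a6 a7 h1
    refine ⟨?_, 2, k2⟩
    intro i
    fin_cases i
    · exact k0
    · exact k1
    · exact k2.le

private theorem cn_choose_in (q : ℤ) (hq : 0 < q) (y : ℝ) (hy : |y| ≤ q) :
    ∃ t : ℤ, t % 2 = 1 ∧ -2 * q < t ∧ t < 2 * q ∧ |2 * y - t| ≤ 1 - |(sgq q t : ℝ)| := by
  have hs : ∀ t : ℤ, t % 2 = 1 → |(sgq q t : ℝ)| = 0 := by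
    intro t ht
    unfold sgq
    rw [if_neg (by omega), if_neg (by omega)]
    norm_num
  rw [abs_le] at hy
  rcases lt_or_ge y q with h | h
  · have f1 := Int.floor_le y
    have f2 := Int.lt_floor_add_one y
    have f3 : ⌊y⌋ < q := Int.floor_lt.2 h
    have f4 : -q ≤ ⌊y⌋ := Int.le_floor.2 (by push_cast; exact hy.1)
    refine ⟨2 * ⌊y⌋ + 1, by omega, by omega, by omega, ?_⟩
    rw [hs _ (by omega), abs_le]
    push_cast
    constructor <;> linarith
  · refine ⟨2 * q - 1, by omega, by omega, by omega, ?_⟩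
    rw [hs _ (by omega), abs_le]
    push_cast
    constructor <;> linarith [hy.1, hy.2]

private theorem cn_choose_out (q : ℤ) (hq : 0 < q) (y : ℝ) (hy : |y| = q) :
    ∃ t : ℤ, (t = 2 * q ∨ t = -2 * q) ∧ |2 * y - t| ≤ 1 - |(sgq q t : ℝ)| := by
  have hqR : (0 : ℝ) < q := by exact_mod_cast hq
  rcases abs_choice y with h | h
  · refine ⟨2 * q, Or.inl rfl, ?_⟩
    unfold sgq
    rw [if_pos rfl]
    have : y = q := by rw [← h, hy]
    rw [this]
    push_cast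
    norm_num
  · refine ⟨-2 * q, Or.inr rfl, ?_⟩
    unfold sgq
    rw [if_neg (by omega), if_pos rfl]
    have : y = -q := by rw [hy] at h; linarith
    rw [this]
    push_cast
    rw [show 2 * -(q : ℝ) - -2 * (q : ℝ) = 0 by ring]
    norm_num

theorem surf_cover (q : ℤ) (hq : 0 < q) (x : E3) (hx : x ∈ surfQ q) :
    ∃ m, isSC q m ∧ x ∈ SqS q m := by
  obtain ⟨h1, i, h2⟩ := hx
  obtain ⟨t0, o0, l0, u0, p0⟩ := cn_choose_in q hq _ (h1 0)
  obtain ⟨t1, o1, l1, u1, p1⟩ := cn_choose_in q hq _ (h1 1)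
  obtain ⟨t2, o2, l2, u2, p2⟩ := cn_choose_in q hq _ (h1 2)
  obtain ⟨t, ht, hp⟩ := cn_choose_out q hq _ h2
  fin_cases i
  · exact ⟨(t, t1, t2), Or.inl ⟨ht, o1, l1, u1, o2, l2, u2⟩, hp, p1, p2⟩
  · exact ⟨(t0, t, t2), Or.inr (Or.inl ⟨ht, o0, l0, u0, o2, l2, u2⟩), p0, hp, p2⟩
  · exact ⟨(t0, t1, t), Or.inr (Or.inr ⟨ht, o0, l0, u0, o1, l1, u1⟩), p0, p1, hp⟩

private theorem cn_sf_shift (C : Curve) (z : ℂ) (k : ℤ) :
    sf C (z + 8 * C.q * k) = sf C z + 24 * C.q ^ 2 * k := by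
  have e : (8 * (C.q : ℂ) * (k : ℂ)) = (((8 * C.q * k : ℤ) : ℝ) : ℂ) := by push_cast; ring
  unfold sf
  rw [e, Complex.add_re, Complex.add_im, Complex.ofReal_re, Complex.ofReal_im]
  push_cast
  ring

private theorem cn_BandR_shift (C : Curve) (z : ℂ) (k : ℤ) (hz : z ∈ BandR C) :
    z + 8 * C.q * k ∈ BandR C := by
  obtain ⟨cx, cy, h, hz⟩ := hz
  refine ⟨cx + 16 * C.q * k, cy, (band_shift C cx cy k).2 h, ?_⟩
  have e : (8 * (C.q : ℂ) * (k : ℂ)) = (((8 * C.q * k : ℤ) : ℝ) : ℂ) := by push_cast; ring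
  simp only [sq, Set.mem_ofPred_eq] at hz ⊢
  rw [e, Complex.add_re, Complex.add_im, Complex.ofReal_re, Complex.ofReal_im, add_zero]
  refine ⟨?_, hz.2⟩
  have e2 : 2 * (z.re + ((8 * C.q * k : ℤ) : ℝ)) - ((cx + 16 * C.q * k : ℤ) : ℝ) =
      2 * z.re - cx := by push_cast; ring
  rw [e2]
  exact hz.1

theorem cube_net (C : Curve) : IsNet (PP C) (surfQ C.q) := by
  classical
  have hq0 : 0 < C.q := by have h1 := C.hp; have h2 := C.hpq; omega
  have hqR : (0 : ℝ) < C.q := by exact_mod_cast hq0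
  have hq2 : (0 : ℝ) < 24 * (C.q : ℝ) ^ 2 := by positivity
  obtain ⟨S, hS, hPP⟩ := PP_cells C
  have hiso : ∀ c ∈ S, ∀ x ∈ sq c.1 c.2 ∩ stripS C, ∀ y ∈ sq c.1 c.2 ∩ stripS C,
      dist (foldC C x) (foldC C y) = dist x y := by
    intro c hc x hx y hy
    rw [foldC_eq C _ _ (hS c hc) x hx.1, foldC_eq C _ _ (hS c hc) y hy.1, fr_dist]
  refine ⟨PP_polygon C, foldC C, ?_, ?_, ?_, ?_⟩
  · -- continuity
    rw [hPP]
    have h1 : (⋃ c ∈ S, (sq c.1 c.2 ∩ stripS C)) =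
        ⋃ c : {c // c ∈ S}, (sq c.1.1 c.1.2 ∩ stripS C) := by
      ext z
      simp only [Set.mem_iUnion, Subtype.exists]
    rw [h1]
    apply (locallyFinite_of_finite _).continuousOn_iUnion
    · intro c
      exact (sq_closed _ _).inter (strip_convex C).2
    · intro c
      have h2 : LipschitzOnWith 1 (foldC C) (sq c.1.1 c.1.2 ∩ stripS C) := by
        apply LipschitzOnWith.of_dist_le_mul
        intro x hx y hy
        rw [hiso c.1 c.2 x hx y hy]
        simp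
      exact h2.continuousOn
  · -- image
    ext x
    constructor
    · rintro ⟨z, ⟨⟨cx, cy, hB, hz⟩, -⟩, rfl⟩
      rw [foldC_eq C cx cy hB z hz]
      exact SqS_sub C.q _ (mb_isSC C cx cy hB) ((fr_mem C cx cy hB z).1 hz)
    · intro hx
      obtain ⟨m, hm, hxm⟩ := surf_cover C.q hq0 x hx
      obtain ⟨cx, cy, -, -, hB, rfl⟩ := mb_surj C m hm
      obtain ⟨z, hz, rfl⟩ := fr_onto C cx cy hB x hxm
      have hzB : z ∈ BandR C := ⟨cx, cy, hB, hz⟩
      set k : ℤ := ⌈(C.σ - sf C z) / (24 * (C.q : ℝ) ^ 2)⌉ with hk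
      have k1 := Int.le_ceil ((C.σ - sf C z) / (24 * (C.q : ℝ) ^ 2))
      have k2 := Int.ceil_lt_add_one ((C.σ - sf C z) / (24 * (C.q : ℝ) ^ 2))
      rw [← hk] at k1 k2
      rw [div_le_iff₀ hq2] at k1
      have k3 : ((k : ℝ) - 1) * (24 * (C.q : ℝ) ^ 2) < C.σ - sf C z := by
        have : (k : ℝ) - 1 < (C.σ - sf C z) / (24 * (C.q : ℝ) ^ 2) := by linarith
        rwa [lt_div_iff₀ hq2] at this
      refine ⟨z + 8 * C.q * k, ⟨cn_BandR_shift C z k hzB, ?_, ?_⟩, ?_⟩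
      · rw [cn_sf_shift]; nlinarith
      · rw [cn_sf_shift]; nlinarith
      · rw [foldC_shift C z hzB, foldC_eq C cx cy hB z hz]
  · -- injectivity
    intro x hx y hy e
    have hI := inn_of_interior C x hx
    rw [interior_PP] at hx
    obtain ⟨hx0, -, -, h1, h2⟩ := hx
    obtain ⟨k, rfl⟩ := fold_inj C x y hx0.1 hI hy.1 e
    have h3 := hy.2.1
    have h4 := hy.2.2
    rw [cn_sf_shift] at h3 h4
    have k1 : (24 * (C.q : ℝ) ^ 2) * k < (24 * (C.q : ℝ) ^ 2) * 1 := by linarith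
    have k2 : (24 * (C.q : ℝ) ^ 2) * (-1) < (24 * (C.q : ℝ) ^ 2) * k := by linarith
    have k3 : (k : ℝ) < 1 := lt_of_mul_lt_mul_left k1 hq2.le
    have k4 : (-1 : ℝ) < k := lt_of_mul_lt_mul_left k2 hq2.le
    have k5 : k < 1 := by exact_mod_cast k3
    have k6 : -1 < k := by exact_mod_cast k4
    have k7 : k = 0 := by omega
    rw [k7]
    simp
  · refine ⟨S.image (fun c => sq c.1 c.2 ∩ stripS C), ?_, ?_⟩
    · intro t ht
      obtain ⟨c, hc, rfl⟩ := Finset.mem_image.1 ht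
      exact ⟨(sq_closed _ _).inter (strip_convex C).2, (sq_convex _ _).inter (strip_convex C).1,
        hiso c hc⟩
    · rw [hPP]
      ext z
      simp only [Set.mem_iUnion, Finset.mem_image, exists_prop]
      constructor
      · rintro ⟨c, hc, hz⟩
        exact ⟨_, ⟨c, hc, rfl⟩, hz⟩
      · rintro ⟨t, ⟨c, hc, rfl⟩, hz⟩
        exact ⟨c, hc, hz⟩

end H70Net
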