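import Mathlib

/-!
MP_77daaf_co, module `Curve` : the interface between the construction of the lattice curve and the
folding part.

A `Curve` is a bi-infinite simple lattice path `(vx i, vy i)` with
`v 0 = (0,0)`, `v n = (q,-q)`, glide symmetry `v (i+n) = (q + vx i, -q - vy i)`, rotation symmetry
about `o = (q,-q)` by `-90` degrees on the two arms, half-turn symmetry about `((q-p)/2, -q/2)`,
box bounds, and exactly one crossing of a line in the direction `W = (7q-p, 3q)`.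
-/

set_option autoImplicit false

namespace H70Net

structure Curve where
  q : ℤ
  p : ℤ
  n : ℤ
  n' : ℤ
  vx : ℤ → ℤ
  vy : ℤ → ℤ
  hp : 0 < p
  hpq : 5 * p < q
  hn : 0 < n
  v0x : vx 0 = 0
  v0y : vy 0 = 0
  glx : ∀ i, vx (i + n) = q + vx i
  gly : ∀ i, vy (i + n) = -q - vy i
  zx : ∀ i, 0 ≤ i → i ≤ n → vx (n + i) = 2 * q + vy (n - i)
  zy : ∀ i, 0 ≤ i → i ≤ n → vy (n + i) = -vx (n - i)
  hx : ∀ i, vx (n - n' - i) = q - p - vx i
  hy : ∀ i, vy (n - n' - i) = -q - vy i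
  step : ∀ i, ((vx (i + 1) = vx i + 1 ∨ vx (i + 1) = vx i - 1) ∧ vy (i + 1) = vy i) ∨
    (vx (i + 1) = vx i ∧ (vy (i + 1) = vy i + 1 ∨ vy (i + 1) = vy i - 1))
  inj : ∀ i j, vx i = vx j → vy i = vy j → i = j
  bx1 : ∀ i, 0 ≤ i → i ≤ n → -p < 2 * vx i
  bx2 : ∀ i, 0 ≤ i → i ≤ n → 2 * vx i < 2 * q + p
  by1 : ∀ i, 0 ≤ i → i ≤ n → -2 * q - p < 2 * vy i
  by2 : ∀ i, 0 ≤ i → i ≤ n → 2 * vy i < p
  x0 : ℤ
  σ : ℝ
  cut1 : ∀ i, i ≤ x0 → (3 * q * vx i - (7 * q - p) * vy i : ℝ) < σ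
  cut2 : ∀ i, x0 < i → σ < (3 * q * vx i - (7 * q - p) * vy i : ℝ)

end H70Net
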