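import Pool.Agent.H70.Net.Cross

/-!
MP_77daaf_co, module `TopCross` : the top curve has a single crossing.

Let `K ≥ 3` (here `K = k + 3`), `a K = 5`, `s K = 1`, `a (K-1) = 1`, `s (K-1) = 1`, `s (K+1) = -1`.
`μ = ll (K-2)`, `λ = ll (K-1)`, `l = ll K = √2 λ + μ`, `L = ll (K+1) = 5√2 l + λ`; `n1 = nn K`,
`n = nn (K+1)`, `D = cD v`, `κ = cK v`.
 `Y (K-1) = st 1 (nn (K-1)) λ (Y (K-2))`, `Y K = st 1 n1 l (Y (K-1))`, `Y (K+1) = st (-1) n L (Y K)`.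

(1) `crossD_step` at level `K-2` (`y = Y (K-2)`, `s = 1`, `a = 1`; the hypothesis is
   `(cross_all (K-2)).2`) gives a cut `σ'`, `x'` of `F6 ∘ st 1 n1 l (Y (K-1)) = F6 ∘ Y K` with
   `(D λ + v μ)/2 ≤ σ' ≤ (D λ + v μ)/2 + √2 v λ/2`.
(2) shift by two periods (`cut_shift`, `j = 2`): `σ = σ' + 2 (3+v) l` is a cut of `F6 ∘ Y K`
   (period `2 n1`, `F6 (√2 l) = (3+v) l`).
(3) bounds of `Y K`: `sharpP` for `Y (K-2)` gives for all `Y (K-1) i`, `i ≥ 0`: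
   `b1 = κ λ + 2.6 μ, b2 = 2.6 μ, b3 = 2.68 λ, b4 = 2.6 μ, b5 = 2.68 μ, b6 = 2.6 λ, b7 = 2.68 μ,
    b8 = 3 λ + 2.68 μ`.  Then `stepP` gives for `Y K`: `b5' = max b2 (b3 - 3 l) = 2.6 μ`
   (`2.68 λ ≤ 3 l`), `b7' = max b4 (3 l + b2 - v l) = 2.6 μ`, `b8' = 3 l + 2.6 μ`,
   `b6' = max b3 (b2 - v l) = 2.68 λ`.
(4) `g = F2 ∘ Y (K+1)`: on `[0,n]`, `F2 (zeta * Y K x) = F6 (Y K x)`.
   Before: `g (-x) = F2 (- conj (st 1 n L (Y K) x)) = - F1 (st 1 n L (Y K) x) ≤ κ L + max b7' b5' =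
   κ L + 2.6 μ` (`st_neg`, `stepP`).
   After: `g (n + x) = D L + F1 (st (-1) n L (Y K) x) ≥ D L - κ L - max b8' b6' = D L - κ L - 3 l - 2.6 μ`.
(5) `κ L + 2.6 μ < σ`: `κ L = 5 (v-3) l + κ λ`, so this follows from
   `(21 - 3 v) l + (D/2 - κ) λ + (v/2 - 2.6) μ > 0`.
   `σ < D L - κ L - 3 l - 2.6 μ`: `(D - κ) L = 30 l + (D-κ) λ`, `√2 v = D + κ`; it follows from
   `(21 - 2 v) l - (3 κ/2) λ - (v/2 + 2.6) μ > 0`, with `l = √2 λ + μ`.
-/

namespace H70Net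

open Complex

private theorem tc_F2_zeta (v : ℝ) (z : ℂ) : F2 v (zeta * z) = F6 v z := by
  simp only [F2, F6, cD, cK, zeta, Complex.mul_re, Complex.mul_im]
  ring

private theorem tc_F2_negconj (v : ℝ) (z : ℂ) : F2 v (-(starRingEnd ℂ) z) = -F1 v z := by
  simp only [F2, F1, Complex.neg_re, Complex.neg_im, Complex.conj_re, Complex.conj_im]
  ring

private theorem tc_F2_conj (v : ℝ) (z : ℂ) : F2 v ((starRingEnd ℂ) z) = F1 v z := by
  simp only [F2, F1, Complex.conj_re, Complex.conj_im]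
  ring

private theorem tc_F2_add (v : ℝ) (z w : ℂ) : F2 v (z + w) = F2 v z + F2 v w := by
  simp only [F2, Complex.add_re, Complex.add_im]
  ring

private theorem tc_F6_add (v : ℝ) (z w : ℂ) : F6 v (z + w) = F6 v z + F6 v w := by
  simp only [F6, Complex.add_re, Complex.add_im]
  ring

private theorem tc_F6_real (v l : ℝ) : F6 v (l : ℂ) = cD v * l := by
  simp only [F6, Complex.ofReal_re, Complex.ofReal_im]
  ring

/-- the numerical part: with `l = √2 λ + μ`, `L = 5 √2 l + λ` -/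
private theorem tc_num (v κ D la mu l L σ' : ℝ) (hv1 : 6.8 ≤ v) (hv2 : v ≤ 6.83)
    (hD : D * √2 = 3 + v) (hK : κ * √2 = v - 3) (hK1 : 2.68 ≤ κ) (hK2 : κ ≤ 2.71)
    (hD1 : 6.92 ≤ D) (hD2 : D ≤ 6.96) (hvDK : √2 * v = D + κ) (hla : 0 < la) (hmu : 0 ≤ mu)
    (hl : l = √2 * la + mu) (hL : L = 5 * √2 * l + la) (h1 : (D * la + v * mu) / 2 ≤ σ')
    (h2 : σ' ≤ (D * la + v * mu) / 2 + √2 * v * la / 2) :
    κ * L + max (max (2.6 * mu) (3 * l + 2.6 * mu - v * l)) (max (2.6 * mu) (2.68 * la - 3 * l)) <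
      σ' + 2 * ((3 + v) * l) ∧
    σ' + 2 * ((3 + v) * l) < D * L -
      (κ * L + max (3 * l + max (2.6 * mu) (2.6 * mu)) (max (2.68 * la) (2.6 * mu - v * l))) := by
  have hs2 : √2 * √2 = 2 := Real.mul_self_sqrt (by norm_num)
  have hs : (1.414 : ℝ) ≤ √2 := by
    apply Real.le_sqrt_of_sq_le
    norm_num
  have hlla : 1.414 * la ≤ l := by
    rw [hl]
    nlinarith [mul_le_mul_of_nonneg_right hs hla.le]
  have hlmu : 1.414 * la + mu ≤ l := by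
    rw [hl]
    nlinarith [mul_le_mul_of_nonneg_right hs hla.le]
  have hl0 : 0 < l := by nlinarith
  have hm1 : max (max (2.6 * mu) (3 * l + 2.6 * mu - v * l)) (max (2.6 * mu) (2.68 * la - 3 * l)) ≤
      2.6 * mu := by
    refine max_le (max_le le_rfl ?_) (max_le le_rfl ?_)
    · nlinarith
    · nlinarith
  have hm2 : max (3 * l + max (2.6 * mu) (2.6 * mu)) (max (2.68 * la) (2.6 * mu - v * l)) ≤
      3 * l + 2.6 * mu := by
    refine max_le ?_ (max_le ?_ ?_)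
    · rw [max_self]
    · nlinarith
    · nlinarith
  have hκL : κ * L = 5 * (v - 3) * l + κ * la := by
    rw [hL, ← hK]
    ring
  have hDL : D * L = 5 * (3 + v) * l + D * la := by
    rw [hL, ← hD]
    ring
  constructor
  · refine lt_of_le_of_lt (add_le_add_right hm1 _) ?_
    rw [hκL]
    have e1 : (21 - 3 * v) * l ≥ 0.51 * l := by nlinarith
    have e2 : (D / 2 - κ) * la ≥ 0.7 * la := by nlinarith
    have e3 : (v / 2 - 2.6) * mu ≥ 0 := by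
      apply mul_nonneg _ hmu
      linarith
    nlinarith
  · refine lt_of_lt_of_le ?_ (sub_le_sub_left (add_le_add_right hm2 _) _)
    rw [hκL, hDL]
    rw [hvDK] at h2
    have e1 : (21 - 2 * v) * l ≥ 7.34 * l := by nlinarith
    have e2 : (3 * κ / 2) * la ≤ 4.07 * la := by nlinarith
    have e3 : (v / 2 + 2.6) * mu ≤ 6.02 * mu := by nlinarith
    nlinarith

theorem top_cross (D : Dig) (v : ℝ) (hv1 : 6.8 ≤ v) (hv2 : v ≤ 6.83) (k : ℕ)
    (ha : D.a (k + 3) = 5) (hs : D.s (k + 3) = 1) (ha' : D.a (k + 2) = 1) (hs' : D.s (k + 2) = 1)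
    (hs'' : D.s (k + 4) = -1) :
    ∃ σ x0, Cut (fun x => F2 v (Y D (k + 4) x)) σ x0 := by
  obtain ⟨hD, hK, hK1, hK2, hD1, hD2, hvDK⟩ := cDK v hv1 hv2
  -- names
  have hl3 : ll D (k + 3) = √2 * ll D (k + 2) + ll D (k + 1) := by
    have : ll D (k + 3) = √2 * D.a (k + 2) * ll D (k + 2) + D.s (k + 2) * ll D (k + 1) := rfl
    rw [this, ha', hs']
    push_cast
    ring
  have hl4 : ll D (k + 4) = 5 * √2 * ll D (k + 3) + ll D (k + 2) := by
    have : ll D (k + 4) = √2 * D.a (k + 3) * ll D (k + 3) + D.s (k + 3) * ll D (k + 2) := rfl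
    rw [this, ha, hs]
    push_cast
    ring
  have hn3 : nn D (k + 3) = 2 * 1 * nn D (k + 2) + 1 * nn D (k + 1) := by
    have : nn D (k + 3) = 2 * D.a (k + 2) * nn D (k + 2) + D.s (k + 2) * nn D (k + 1) := rfl
    rw [this, ha', hs']
  have hY2 : Y D (k + 2) = st (D.s (k + 2)) (nn D (k + 2)) (ll D (k + 2)) (Y D (k + 1)) := rfl
  rw [hs'] at hY2
  have hY3 : Y D (k + 3) = st (D.s (k + 3)) (nn D (k + 3)) (ll D (k + 3)) (Y D (k + 2)) := rfl
  rw [hs] at hY3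
  have hY4 : Y D (k + 4) = st (D.s (k + 4)) (nn D (k + 4)) (ll D (k + 4)) (Y D (k + 3)) := rfl
  rw [hs''] at hY4
  have hE1 := eltY D (k + 1)
  have hE2 := eltY D (k + 2)
  have hE3 := eltY D (k + 3)
  have hla := ll_pos D (k + 1)
  have hmu := ll_nonneg D (k + 1)
  have hl := ll_pos D (k + 2)
  have hL := ll_pos D (k + 3)
  have hstd := std_Y D v hv1 hv2 (k + 1)
  -- (1)
  obtain ⟨σ', x', hcut', hσ'⟩ := crossD_step hE1 hla hmu (ll_le D (k + 1)) v hv1 hv2 hstd 1 1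
    (Or.inl rfl) le_rfl (fun h => by norm_num at h) (cross_all D v hv1 hv2 (k + 1)).2
  obtain ⟨h1, h2⟩ := hσ' rfl
  have hcutY : Cut (fun x => F6 v (Y D (k + 3) x)) σ' x' := by
    have e1 : (2 * 1 * nn D (k + 1 + 1) + 1 * nn D (k + 1) : ℤ) = nn D (k + 3) := hn3.symm
    have e2 : (√2 * ((1 : ℤ) : ℝ) * ll D (k + 1 + 1) + ((1 : ℤ) : ℝ) * ll D (k + 1) : ℝ) =
        ll D (k + 3) := by
      rw [hl3]
      push_cast
      ring
    rw [e1, e2] at hcut'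
    have e3 : Y D (k + 3) = st 1 (nn D (k + 3)) (ll D (k + 3))
        (st 1 (nn D (k + 1 + 1)) (ll D (k + 1 + 1)) (Y D (k + 1))) := by
      rw [hY3, hY2]
    rw [e3]
    exact hcut'
  -- (2)
  have hper : ∀ x, (fun x => F6 v (Y D (k + 3) x)) (x + 2 * 1 * nn D (k + 3)) =
      (fun x => F6 v (Y D (k + 3) x)) x + (3 + v) * ll D (k + 3) := by
    intro x
    show F6 v (Y D (k + 3) (x + 2 * 1 * nn D (k + 3))) = F6 v (Y D (k + 3) x) + _
    have h3 := st_mul hE2 1 x 1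
    rw [hY3]
    have h4 : (nn D (k + 3) : ℤ) = nn D (k + 2 + 1) := rfl
    rw [h4]
    rw [h3, tc_F6_add]
    congr 1
    rw [Int.cast_one, one_mul, tc_F6_real, ← hD]
    ring
  have hcut2 := cut_shift hcutY _ _ hper 2
  -- (3)
  have hb2 : ∀ i : ℤ, 0 ≤ i → i ≤ nn D (k + 3) → Lb v (cK v * ll D (k + 2) + 2.6 * ll D (k + 1))
      (2.6 * ll D (k + 1)) (2.68 * ll D (k + 2)) (2.6 * ll D (k + 1)) (2.68 * ll D (k + 1))
      (2.6 * ll D (k + 2)) (2.68 * ll D (k + 1)) (3 * ll D (k + 2) + 2.68 * ll D (k + 1))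
      (Y D (k + 2) i) := by
    intro i hi _
    rw [hY2]
    exact sharpP hE1 hla hmu (ll_le D (k + 1)) v hv1 hv2 hstd i hi
  have hb3 := fun (x : ℤ) (hx : 0 ≤ x) => stepP hE2 hl v (by linarith) _ _ _ _ _ _ _ _ hb2 x hx
  have hb3' : ∀ i : ℤ, 0 ≤ i → i ≤ nn D (k + 4) → Lb v _ _ _ _ _ _ _ _ (Y D (k + 3) i) :=
    fun i hi _ => by
      rw [hY3]
      exact hb3 i hi
  have hbP := fun (x : ℤ) (hx : 0 ≤ x) => (stepP hE3 hL v (by linarith) _ _ _ _ _ _ _ _ hb3' x hx).h1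
  have hbN := fun (x : ℤ) (hx : 0 ≤ x) => (stepN hE3 hL v (by linarith) _ _ _ _ _ _ _ _ hb3' x hx).h1
  obtain ⟨hn1, hn2⟩ := tc_num v (cK v) (cD v) (ll D (k + 2)) (ll D (k + 1)) (ll D (k + 3))
    (ll D (k + 4)) σ' hv1 hv2 hD hK hK1 hK2 hD1 hD2 hvDK hla hmu hl3 hl4 h1 h2
  refine ⟨_, _, cut_window (g := fun x => F2 v (Y D (k + 4) x)) hcut2 (nn D (k + 4))
    (nn_pos D (k + 3)).le ?_ ?_ ?_⟩
  · intro x hx0 hx1
    show F2 v (Y D (k + 4) x) = F6 v (Y D (k + 3) x)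
    rw [hY4, st_Icc hE3 (-1) x hx0 hx1, tc_F2_zeta]
    congr 1
  · intro x hx
    have h5 := hbP (-x) (by linarith)
    have h6 := st_neg hE3 (-x)
    rw [neg_neg] at h6
    show F2 v (Y D (k + 4) x) < _
    rw [hY4]
    have h7 : F2 v (st (-1) (nn D (k + 3 + 1)) (ll D (k + 3 + 1)) (Y D (k + 3)) x) =
        -F1 v (st 1 (nn D (k + 3 + 1)) (ll D (k + 3 + 1)) (Y D (k + 3)) (-x)) := by
      rw [h6, tc_F2_negconj]
    refine lt_of_eq_of_lt h7 ?_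
    push_cast
    linarith
  · intro x hx
    have h5 := hbN (x - nn D (k + 4)) (by linarith)
    have h6 := st_glide hE3 (-1) (x - nn D (k + 4))
    have h8 : x - nn D (k + 4) + nn D (k + 3 + 1) = x := by
      show x - nn D (k + 4) + nn D (k + 4) = x
      ring
    rw [h8] at h6
    show _ < F2 v (Y D (k + 4) x)
    rw [hY4]
    have h7 : F2 v (st (-1) (nn D (k + 3 + 1)) (ll D (k + 3 + 1)) (Y D (k + 3)) x) =
        cD v * ll D (k + 4) +
          F1 v (st (-1) (nn D (k + 3 + 1)) (ll D (k + 3 + 1)) (Y D (k + 3)) (x - nn D (k + 4))) := by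
      rw [h6, tc_F2_add, tc_F2_zeta, tc_F6_real, tc_F2_conj]
    refine lt_of_lt_of_eq ?_ h7.symm
    push_cast
    linarith

end H70Net
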