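import Pool.Agent.H70.Net.Simple
import Pool.Agent.H70.Net.TopCross
import Pool.Agent.H70.Net.Curve

/-!
MP_77daaf_co, module `CurveMk` : construction of the curves.

Put `L = ll (k+4)`, `l = ll (k+3)`, `n = nn (k+4)`, `n' = nn (k+3)`, `Yt = Y D (k+4)`, `k` even.
* `ll_int`: `k + 4` even: `L = √2 q`, `k + 3` odd: `l = p` with integers `q, p > 0` (`ll_pos`).
  `L = 5√2 l + λ`, `0 ≤ λ ≤ l √2/2` (`λ = ll (k+2)`, `ll_le`): `2 q = √2 L = 10 p + √2 λ`,
  so `5 p ≤ q`, and `λ > 0` (`ll_pos`) gives `5 p < q`; `l = √2 λ + μ`, `μ ≥ 0` gives `√2 λ ≤ p`, so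
  `2 q ≤ 11 p`.  Hence `v = 7 - p/q ∈ [6.8, 6.83]`  (`p/q ≤ 1/5`, `p/q ≥ 2/11`).
* `Y_int` for `k+4` (even): `Yt i = a i + b i * I`; `vx i = a i`, `vy i = - b i` (choose them).
* `glx, gly`: `(eltY D (k+4)).gli` (`nn (k+4) = n`, `zeta * √2 q = q + q I`).
* `zx, zy`: `(eltY D (k+4)).zip` and `gli`: for `0 ≤ i ≤ n`, `Yt (n-i) = (q - b) + (q - a) I`,
  `Yt (n+i) = (q + a) + (q - b) I`.
* `hx, hy`: `st_half` for `s = -1` (`Yt = st (-1) n L (Y D (k+3))`, element `eltY D (k+3)`).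
* `step`: `Y_step` : a Gaussian integer of norm one.
* `inj`: `Y_inj D (k+3)`.
* box: for `0 ≤ i ≤ n`: `Yt i = zeta * Y D (k+3) i` (`st_Icc`, sign `-1`), `hull_all D (k+3)` `b1..b4`,
  `L * (√2/2) = q`, `2 dd (k+3) < ll (k+3) = p` (`dd_lt` with `m = k+2`).
* cut: `top_cross` with `v = 7 - p/q`; `F2 v (Yt i) = 3 vx - v vy`; multiply by `q`.
-/

namespace H70Net

open Complex

private theorem cmk_zeta (q : ℝ) : zeta * ((√2 * q : ℝ) : ℂ) = (q : ℂ) + (q : ℂ) * I := by
  have h2 : √2 * √2 = 2 := Real.mul_self_sqrt (by norm_num)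
  apply Complex.ext
  · simp only [zeta, mul_re, ofReal_re, ofReal_im, add_re, I_re, I_im]
    linear_combination (q / 2) * h2
  · simp only [zeta, mul_im, ofReal_re, ofReal_im, add_im, I_re, I_im]
    linear_combination (q / 2) * h2

private theorem cmk_int_step (a b : ℤ) (h : a * a + b * b = 1) :
    ((a = 1 ∨ a = -1) ∧ b = 0) ∨ (a = 0 ∧ (b = 1 ∨ b = -1)) := by
  have ha1 : a ≤ 1 := by nlinarith [mul_self_nonneg b]
  have ha2 : -1 ≤ a := by nlinarith [mul_self_nonneg b]
  have hb1 : b ≤ 1 := by nlinarith [mul_self_nonneg a]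
  have hb2 : -1 ≤ b := by nlinarith [mul_self_nonneg a]
  interval_cases a <;> interval_cases b <;> simp_all

theorem exists_curve (D : Dig) (k : ℕ) (hk : k % 2 = 0) (ha : D.a (k + 3) = 5)
    (hs : D.s (k + 3) = 1) (ha' : D.a (k + 2) = 1) (hs' : D.s (k + 2) = 1)
    (hs'' : D.s (k + 4) = -1) :
    ∃ C : Curve, (C.p : ℝ) / C.q = √2 * (ll D (k + 3) / ll D (k + 4)) := by
  have h2 : √2 * √2 = 2 := Real.mul_self_sqrt (by norm_num)
  have h2p : 0 < √2 := Real.sqrt_pos.mpr (by norm_num)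
  obtain ⟨q, hq⟩ := ll_int D (k + 4)
  obtain ⟨p, hp⟩ := ll_int D (k + 3)
  rw [if_neg (by omega)] at hq
  rw [if_pos (by omega)] at hp
  have hlam := ll_pos D (k + 1)
  have hlam' := ll_le D (k + 2)
  have hlp := ll_pos D (k + 2)
  have hrec : ll D (k + 4) = √2 * D.a (k + 3) * ll D (k + 3) + D.s (k + 3) * ll D (k + 2) := rfl
  rw [ha, hs, hp, hq] at hrec
  have hlam'' : √2 * ll D (k + 2) ≤ (p : ℝ) := by
    rw [← hp]; exact hlam'
  have hlam0 : 0 < ll D (k + 2) := hlam
  have hpR : (0 : ℝ) < p := by rw [← hp]; exact hlp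
  -- `2 q = 10 p + √2 λ`
  have h2q : (2 : ℝ) * q = 10 * p + √2 * ll D (k + 2) := by
    push_cast at hrec
    have : √2 * (√2 * (q : ℝ)) = √2 * (√2 * 5 * p + 1 * ll D (k + 2)) := by rw [hrec]
    nlinarith [this, h2]
  have hmul : 0 < √2 * ll D (k + 2) := mul_pos h2p hlam0
  have h5 : 5 * (p : ℝ) < q := by linarith
  have hqR : (0 : ℝ) < q := by linarith
  have h11 : 2 * (q : ℝ) ≤ 11 * p := by linarith
  have hE := eltY D (k + 3)
  have hn0 : 0 < nn D (k + 4) := nn_pos D (k + 3)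
  have hYt : Y D (k + 4) = st (-1) (nn D (k + 4)) (ll D (k + 4)) (Y D (k + 3)) := by
    have : Y D (k + 4) = st (D.s (k + 4)) (nn D (k + 4)) (ll D (k + 4)) (Y D (k + 3)) := rfl
    rw [this, hs'']
  -- integer coordinates
  have hint : ∀ x : ℤ, ∃ u v : ℤ, Y D (k + 4) x = (u : ℂ) + (v : ℂ) * I := by
    intro x
    obtain ⟨u, v, huv⟩ := Y_int D (k + 4) x
    rw [if_pos (by omega)] at huv
    exact ⟨u, v, huv⟩
  choose a b hab using hint
  have hre : ∀ x, (Y D (k + 4) x).re = a x := by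
    intro x; rw [hab x]; simp
  have him : ∀ x, (Y D (k + 4) x).im = b x := by
    intro x; rw [hab x]; simp
  have hzL : zeta * ((ll D (k + 4) : ℝ) : ℂ) = (q : ℂ) + (q : ℂ) * I := by
    rw [hq]
    have := cmk_zeta (q : ℝ)
    push_cast at this ⊢
    exact this
  have hzLre : (zeta * ((ll D (k + 4) : ℝ) : ℂ)).re = q := by rw [hzL]; simp
  have hzLim : (zeta * ((ll D (k + 4) : ℝ) : ℂ)).im = q := by rw [hzL]; simp
  -- value at zero
  have h0 : Y D (k + 4) 0 = 0 := by rw [hYt]; exact st_zero hE (-1)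
  -- glide
  have hgl : ∀ x, Y D (k + 4) (x + nn D (k + 4)) =
      zeta * (ll D (k + 4) : ℂ) + (starRingEnd ℂ) (Y D (k + 4) x) := by
    intro x
    rw [hYt]
    exact st_glide hE (-1) x
  have hglre : ∀ x, a (x + nn D (k + 4)) = q + a x := by
    intro x
    have h := congrArg Complex.re (hgl x)
    rw [add_re, conj_re, hzLre, hre, hre] at h
    exact_mod_cast h
  have hglim : ∀ x, b (x + nn D (k + 4)) = q - b x := by
    intro x
    have h := congrArg Complex.im (hgl x)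
    rw [add_im, conj_im, hzLim, him, him] at h
    have h' : (b (x + nn D (k + 4)) : ℝ) = q - b x := by linarith
    exact_mod_cast h'
  -- zip
  have hzp : ∀ x, 0 ≤ x → x ≤ nn D (k + 4) → Y D (k + 4) (nn D (k + 4) - x) =
      zeta * (ll D (k + 4) : ℂ) - I * (starRingEnd ℂ) (Y D (k + 4) x) := by
    intro x hx0 hx1
    rw [hYt]
    exact st_zip hE (-1) x hx0 hx1
  have hzpre : ∀ x, 0 ≤ x → x ≤ nn D (k + 4) → a (nn D (k + 4) - x) = q - b x := by
    intro x hx0 hx1
    have h := congrArg Complex.re (hzp x hx0 hx1)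
    rw [sub_re, hzLre, mul_re, conj_re, conj_im, hre, hre, him, I_re, I_im] at h
    have h' : (a (nn D (k + 4) - x) : ℝ) = q - b x := by linarith
    exact_mod_cast h'
  have hzpim : ∀ x, 0 ≤ x → x ≤ nn D (k + 4) → b (nn D (k + 4) - x) = q - a x := by
    intro x hx0 hx1
    have h := congrArg Complex.im (hzp x hx0 hx1)
    rw [sub_im, hzLim, mul_im, conj_re, conj_im, hre, him, him, I_re, I_im] at h
    have h' : (b (nn D (k + 4) - x) : ℝ) = q - a x := by linarith
    exact_mod_cast h'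
  -- half turn
  have hhf : ∀ x, Y D (k + 4) (nn D (k + 4) - nn D (k + 3) - x) =
      zeta * (ll D (k + 4) : ℂ) - (p : ℂ) - Y D (k + 4) x := by
    intro x
    have h := st_half hE (-1) (Or.inr rfl) x
    rw [← hYt] at h
    have e1 : nn D (k + 4) + -1 * nn D (k + 3) - x = nn D (k + 4) - nn D (k + 3) - x := by ring
    have e2 : nn D (k + 3 + 1) + -1 * nn D (k + 3) - x = nn D (k + 4) - nn D (k + 3) - x := by
      have : nn D (k + 3 + 1) = nn D (k + 4) := rfl
      rw [this]; ring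
    rw [e2] at h
    rw [h, hp]
    push_cast
    have : (ll D (k + 3 + 1) : ℂ) = (ll D (k + 4) : ℂ) := rfl
    rw [this]
    ring
  have hhfre : ∀ x, a (nn D (k + 4) - nn D (k + 3) - x) = q - p - a x := by
    intro x
    have h := congrArg Complex.re (hhf x)
    rw [sub_re, sub_re, hzLre, hre, hre, intCast_re] at h
    exact_mod_cast h
  have hhfim : ∀ x, b (nn D (k + 4) - nn D (k + 3) - x) = q - b x := by
    intro x
    have h := congrArg Complex.im (hhf x)
    rw [sub_im, sub_im, hzLim, him, him, intCast_im] at h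
    have h' : (b (nn D (k + 4) - nn D (k + 3) - x) : ℝ) = q - b x := by linarith
    exact_mod_cast h'
  -- box
  have hYb : ∀ x, 0 ≤ x → x ≤ nn D (k + 4) → Y D (k + 4) x = zeta * Y D (k + 3) x := by
    intro x hx0 hx1
    have h := st_Icc hE (-1) x hx0 hx1
    rw [← hYt] at h
    rw [h]
    congr 1
  have hH := hull_all D (k + 3)
  have hdd := dd_lt D (k + 2)
  have hdd' : 2 * dd D (k + 3) < (p : ℝ) := by rw [← hp]; exact hdd
  have hLq : ll D (k + 4) * (√2 / 2) = q := by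
    rw [hq]; linear_combination ((q : ℝ) / 2) * h2
  have hb1 : ∀ x, 0 ≤ x → x ≤ nn D (k + 4) → -p < 2 * a x := by
    intro x hx0 hx1
    have h := hH.b1 x hx0 hx1
    rw [← hYb x hx0 hx1, hre] at h
    have : (-(p : ℝ)) < 2 * a x := by linarith
    exact_mod_cast this
  have hb2 : ∀ x, 0 ≤ x → x ≤ nn D (k + 4) → 2 * a x < 2 * q + p := by
    intro x hx0 hx1
    have h := hH.b2 x hx0 hx1
    rw [← hYb x hx0 hx1, hre] at h
    have e : ll D (k + 3 + 1) * (√2 / 2) = q := hLq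
    rw [e] at h
    have : 2 * (a x : ℝ) < 2 * q + p := by linarith
    exact_mod_cast this
  have hb3 : ∀ x, 0 ≤ x → x ≤ nn D (k + 4) → -p < 2 * b x := by
    intro x hx0 hx1
    have h := hH.b3 x hx0 hx1
    rw [← hYb x hx0 hx1, him] at h
    have : (-(p : ℝ)) < 2 * b x := by linarith
    exact_mod_cast this
  have hb4 : ∀ x, 0 ≤ x → x ≤ nn D (k + 4) → 2 * b x < 2 * q + p := by
    intro x hx0 hx1
    have h := hH.b4 x hx0 hx1
    rw [← hYb x hx0 hx1, him] at h
    have e : ll D (k + 3 + 1) * (√2 / 2) = q := hLq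
    rw [e] at h
    have : 2 * (b x : ℝ) < 2 * q + p := by linarith
    exact_mod_cast this
  -- cut
  have hv1 : (6.8 : ℝ) ≤ 7 - (p : ℝ) / q := by
    have : (p : ℝ) / q ≤ 1 / 5 := by
      rw [div_le_div_iff₀ hqR (by norm_num)]; linarith
    linarith
  have hv2 : 7 - (p : ℝ) / q ≤ (6.83 : ℝ) := by
    have : (2 : ℝ) / 11 ≤ (p : ℝ) / q := by
      rw [div_le_div_iff₀ (by norm_num) hqR]; linarith
    linarith
  obtain ⟨σ, x0, hcut1, hcut2⟩ := top_cross D (7 - (p : ℝ) / q) hv1 hv2 k ha hs ha' hs' hs''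
  have hF : ∀ x, (q : ℝ) * F2 (7 - (p : ℝ) / q) (Y D (k + 4) x) =
      3 * q * (a x : ℝ) - (7 * q - p) * ((-b x : ℤ) : ℝ) := by
    intro x
    unfold F2
    rw [hre, him]
    push_cast
    have hq0 : (q : ℝ) ≠ 0 := ne_of_gt hqR
    field_simp
    ring
  refine ⟨{ q := q, p := p, n := nn D (k + 4), n' := nn D (k + 3), vx := a, vy := fun i => -b i,
            hp := by exact_mod_cast hpR
            hpq := by exact_mod_cast h5
            hn := hn0
            v0x := ?_, v0y := ?_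
            glx := ?_, gly := ?_, zx := ?_, zy := ?_, hx := ?_, hy := ?_, step := ?_, inj := ?_
            bx1 := hb1, bx2 := hb2, by1 := ?_, by2 := ?_
            x0 := x0, σ := q * σ, cut1 := ?_, cut2 := ?_ }, ?_⟩
  · have h := congrArg Complex.re h0
    rw [hre, zero_re] at h
    exact_mod_cast h
  · have h := congrArg Complex.im h0
    rw [him, zero_im] at h
    have h' : b 0 = 0 := by exact_mod_cast h
    show -b 0 = 0
    rw [h', neg_zero]
  · exact hglre
  · intro i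
    show -b (i + nn D (k + 4)) = -q - -b i
    rw [hglim]; ring
  · intro i hi0 hi1
    show a (nn D (k + 4) + i) = 2 * q + -b (nn D (k + 4) - i)
    rw [hzpim i hi0 hi1, add_comm (nn D (k + 4)) i, hglre]; ring
  · intro i hi0 hi1
    show -b (nn D (k + 4) + i) = -a (nn D (k + 4) - i)
    rw [hzpre i hi0 hi1, add_comm (nn D (k + 4)) i, hglim]
  · exact hhfre
  · intro i
    show -b (nn D (k + 4) - nn D (k + 3) - i) = -q - -b i
    rw [hhfim]; ring
  · intro i
    show ((a (i + 1) = a i + 1 ∨ a (i + 1) = a i - 1) ∧ -b (i + 1) = -b i) ∨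
      (a (i + 1) = a i ∧ (-b (i + 1) = -b i + 1 ∨ -b (i + 1) = -b i - 1))
    have h := Y_step D (k + 4) i
    have h3 : (a (i + 1) - a i) * (a (i + 1) - a i) + (b (i + 1) - b i) * (b (i + 1) - b i) = 1 := by
      have h4 : Complex.normSq (Y D (k + 4) (i + 1) - Y D (k + 4) i) = 1 := by
        rw [Complex.normSq_eq_norm_sq, h]; norm_num
      rw [Complex.normSq_apply, sub_re, sub_im, hre, hre, him, him] at h4
      exact_mod_cast h4
    rcases cmk_int_step _ _ h3 with ⟨h5 | h5, h6⟩ | ⟨h5, h6 | h6⟩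
    · left; exact ⟨Or.inl (by linarith), by linarith⟩
    · left; exact ⟨Or.inr (by linarith), by linarith⟩
    · right; exact ⟨by linarith, Or.inr (by linarith)⟩
    · right; exact ⟨by linarith, Or.inl (by linarith)⟩
  · intro i j h5 h6
    have h6' : b i = b j := by
      have : -b i = -b j := h6
      linarith
    apply Y_inj D (k + 3)
    show Y D (k + 4) i = Y D (k + 4) j
    rw [hab i, hab j, h5, h6']
  · intro i hi0 hi1
    show -2 * q - p < 2 * -b i
    have := hb4 i hi0 hi1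
    linarith
  · intro i hi0 hi1
    show 2 * -b i < p
    have := hb3 i hi0 hi1
    linarith
  · intro i hi
    have h := hcut1 i hi
    have h' := mul_lt_mul_of_pos_left h hqR
    have h'' := hF i
    calc (3 * q * (a i : ℝ) - (7 * q - p) * ((-b i : ℤ) : ℝ) : ℝ)
        = (q : ℝ) * F2 (7 - (p : ℝ) / q) (Y D (k + 4) i) := h''.symm
      _ < q * σ := h'
  · intro i hi
    have h := hcut2 i hi
    have h' := mul_lt_mul_of_pos_left h hqR
    have h'' := hF i
    calc (q : ℝ) * σ < (q : ℝ) * F2 (7 - (p : ℝ) / q) (Y D (k + 4) i) := h'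
      _ = 3 * q * (a i : ℝ) - (7 * q - p) * ((-b i : ℤ) : ℝ) := h''
  · show (p : ℝ) / q = √2 * (ll D (k + 3) / ll D (k + 4))
    rw [hp, hq]
    have hq0 : (q : ℝ) ≠ 0 := ne_of_gt hqR
    field_simp

end H70Net
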