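import Pool.Agent.H70.Net.CurveMk
import Pool.Agent.H70.Net.ApproxB

/-! MP_77daaf_co, module `CurveNear` -/

namespace H70Net

theorem cn_sqrt3 : (1.7316 : ℝ) ≤ √3 ∧ √3 ≤ 1.7339 := by
  constructor
  · apply Real.le_sqrt_of_sq_le
    norm_num
  · rw [Real.sqrt_le_left (by norm_num)]
    norm_num

theorem cn_bounds : 2 / 11 ≤ 7 - √(32 * √3 - 9) ∧ 7 - √(32 * √3 - 9) ≤ 3 / 16 := by
  obtain ⟨h1, h2⟩ := cn_sqrt3
  constructor
  · have : √(32 * √3 - 9) ≤ 75 / 11 := by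
      rw [Real.sqrt_le_left (by norm_num)]
      nlinarith
    linarith
  · have : (109 / 16 : ℝ) ≤ √(32 * √3 - 9) := by
      apply Real.le_sqrt_of_sq_le
      nlinarith
    linarith

/-- the continued fraction of `y` -/
theorem cn_rho {y : ℝ} (h1 : 2 / 11 ≤ y) (h2 : y ≤ 3 / 16) :
    ∃ ρ : ℝ, 0 ≤ ρ ∧ ρ ≤ √2 / 2 ∧ √2 * (1 / (√2 * 5 + 1 / (√2 + ρ))) = y := by
  have hy : 0 < y := by linarith
  have hs : √2 * √2 = (2 : ℝ) := Real.mul_self_sqrt (by norm_num)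
  have hs0 : 0 < √2 := Real.sqrt_pos.2 (by norm_num)
  obtain ⟨t, ht⟩ : ∃ t, t = 1 / y - 5 := ⟨_, rfl⟩
  have hy1 : 16 / 3 ≤ 1 / y := by
    rw [le_div_iff₀ hy]
    linarith
  have hy2 : 1 / y ≤ 11 / 2 := by
    rw [div_le_iff₀ hy]
    linarith
  have ht1 : 1 / 3 ≤ t := by linarith
  have ht2 : t ≤ 1 / 2 := by linarith
  have ht0 : 0 < t := by linarith
  have hti1 : 2 ≤ 1 / t := by
    rw [le_div_iff₀ ht0]
    linarith
  have hti2 : 1 / t ≤ 3 := by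
    rw [div_le_iff₀ ht0]
    linarith
  refine ⟨(1 / t - 2) / √2, div_nonneg (by linarith) hs0.le, ?_, ?_⟩
  · rw [div_le_iff₀ hs0]
    nlinarith
  · have e1 : √2 + (1 / t - 2) / √2 = (1 / t) / √2 := by
      field_simp
      nlinarith
    have e2 : 1 / (√2 + (1 / t - 2) / √2) = √2 * t := by
      rw [e1]
      field_simp
    have e3 : √2 * 5 + √2 * t = √2 * (1 / y) := by
      rw [ht]
      ring
    rw [e2, e3]
    field_simp

/-- the number `y* = 7 - √(32√3 - 9)` is `1/(5 + 1/(2 + √2 ρ))` with `0 ≤ ρ ≤ √2/2`; hence curves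
with `p/q` arbitrarily near to `y*` exist.
(`0.18636 < y* < 0.18637`: `5 < 1/y* < 5.5`, `1/(1/y* - 5) ∈ (2, 3)`.)
PROOF: `ρ := (1/(1/y* - 5) - 2)/√2`; `approx_top` for `ρ` and `δ/√2`; `exists_curve`;
`√2 * (1/(√2*5 + 1/(√2+ρ))) = y*`. -/
theorem exists_curve_near (δ : ℝ) (hδ : 0 < δ) :
    ∃ C : Curve, |(C.p : ℝ) / C.q - (7 - √(32 * √3 - 9))| < δ := by
  obtain ⟨h1, h2⟩ := cn_bounds
  obtain ⟨ρ, hρ0, hρ1, hρ⟩ := cn_rho h1 h2
  have hs0 : 0 < √2 := Real.sqrt_pos.2 (by norm_num)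
  obtain ⟨D, k, hk, ha, hs, ha', hs', hs'', hD⟩ := approx_top ρ hρ0 hρ1 (δ / √2) (by positivity)
  obtain ⟨C, hC⟩ := exists_curve D k hk ha hs ha' hs' hs''
  refine ⟨C, ?_⟩
  rw [hC, ← hρ, ← mul_sub, abs_mul, abs_of_pos hs0]
  calc √2 * |ll D (k + 3) / ll D (k + 4) - 1 / (√2 * 5 + 1 / (√2 + ρ))|
      < √2 * (δ / √2) := mul_lt_mul_of_pos_left hD hs0
    _ = δ := by field_simp

end H70Net
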