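import Mathlib

/-!
MP_77daaf_co, module `Defs` : nets, surfaces, tetramonohedra.

The plane is `ℂ` (with its Euclidean distance), the space is `EuclideanSpace ℝ (Fin 3)`.
-/

set_option autoImplicit false

namespace H70Net

abbrev E3 := EuclideanSpace ℝ (Fin 3)

/-- `P` is a simple polygon (closed region): compact, with nonempty interior, and its frontier is a
simple closed polygonal curve with finitely many vertices `V 0, ..., V (N-1)`, `V N = V 0`: the
vertices are distinct and two different edges have at most common end points.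
(By the Jordan curve theorem such a set is exactly the closed region bounded by the curve.) -/
def IsSimplePolygon (P : Set ℂ) : Prop :=
  IsCompact P ∧ (interior P).Nonempty ∧
    ∃ (N : ℕ) (V : ℕ → ℂ), 3 ≤ N ∧ V N = V 0 ∧
      (∀ i < N, ∀ j < N, V i = V j → i = j) ∧
      (∀ i < N, ∀ j < N, i ≠ j → ∀ z, z ∈ segment ℝ (V i) (V (i + 1)) →
        z ∈ segment ℝ (V j) (V (j + 1)) → (z = V i ∨ z = V (i + 1)) ∧ (z = V j ∨ z = V (j + 1))) ∧
      frontier P = ⋃ i ∈ Finset.range N, segment ℝ (V i) (V (i + 1))

/-- `P` is a net of the surface `Q`: `P` is a simple polygon and there is a folding map `f` of `P`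
onto `Q` which is continuous, isometric on each of finitely many closed convex pieces covering `P`,
covers `Q` exactly once, and glues boundary points of `P` only to boundary points. -/
def IsNet (P : Set ℂ) (Q : Set E3) : Prop :=
  IsSimplePolygon P ∧
    ∃ f : ℂ → E3, ContinuousOn f P ∧ f '' P = Q ∧
      (∀ x ∈ interior P, ∀ y ∈ P, f x = f y → x = y) ∧
      ∃ T : Finset (Set ℂ), (∀ t ∈ T, IsClosed t ∧ Convex ℝ t ∧
          ∀ x ∈ t, ∀ y ∈ t, dist (f x) (f y) = dist x y) ∧ P = ⋃ t ∈ T, t

/-- the surface of the unit cube `[0,1]^3` -/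
def cubeSurface : Set E3 := frontier {x : E3 | ∀ i, 0 ≤ x i ∧ x i ≤ 1}

/-- the surface of the tetrahedron with vertices `V 0, V 1, V 2, V 3` -/
def tetSurface (V : Fin 4 → E3) : Set E3 := frontier (convexHull ℝ (Set.range V))

/-- a tetramonohedron: a (nondegenerate) tetrahedron whose four faces are congruent triangles
(the face opposite to `V i` is mapped to the face opposite to `V j` by a bijection `σ` of the
vertices preserving the distances) -/
def IsTetramonohedron (V : Fin 4 → E3) : Prop :=
  AffineIndependent ℝ V ∧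
    ∀ i j : Fin 4, ∃ σ : Equiv.Perm (Fin 4), σ i = j ∧
      ∀ k l : Fin 4, k ≠ i → l ≠ i → dist (V (σ k)) (V (σ l)) = dist (V k) (V l)

/-- all six edges have length in `[ℓ - ε, ℓ + ε]`, `ℓ = √(2√3)` -/
def AlmostRegular (ε : ℝ) (V : Fin 4 → E3) : Prop :=
  ∀ i j : Fin 4, i ≠ j → |dist (V i) (V j) - √(2 * √3)| ≤ ε

end H70Net
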