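import Pool.Agent.H70.Net.Stair

/-!
MP_77daaf_co, module `Elt` : symmetries of the staircases `st s n l y`.

Write `Z = st s n l y`, `C = cs s`; on `[0,n]` one has `Z x = zeta * C (y x)` (`st_Icc`).
All proofs are short algebra with `zeta_sq`, `zeta_conj` (`conj zeta = -I zeta`), `zeta_mul_conj`.

PROOFS.
* `st_zero`, `st_glide`, `st_Icc`, `st_mul` : direct from module `Stair`
  (`g i = zeta * cs s (y i)`, `g 0 = 0`, `g n = zeta * l` because `y n = l` (`mir` at `0`)).
* `st_negI` : for `0 ≤ i ≤ n`:  `Z (-i) = conj (Z (n-i) - zeta l)` and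
  `Z (n-i) = zeta C (l - conj (y i)) = zeta l - zeta C (conj (y i))`, so
  `Z (-i) = - conj zeta * C (y i)`.
* `st_zip` : `0 ≤ x ≤ n`: `Z (n-x) = zeta l - zeta C (conj (y x))` and
  `- I conj (Z x) = - I * conj zeta * C (conj (y x)) = - zeta C (conj (y x))`.
* `st_mirror` : `Z (s n' - x) = s l' - conj (Z x)` for ALL `x`.
  If it holds for `x` then it holds for `x + n` and for `x - n` (by `st_glide`:
  `Z (s n' - x - n) = conj (Z (s n' - x) - zeta l)`; direct computation).  So it is enough to prove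
  it for `x` in a window of `n` consecutive integers.
  Case `s = 1` (`C = conj`), window `[0, n]`:
    - `n' ≤ x ≤ n`: `x = n' + j`, `Z (n' - x) = Z (-j) = - conj zeta * conj (y j)` (`st_negI`), and
      `Z x = zeta conj (y x)`, `y x = y (j + n') = zeta l' + conj (y j)` (`gli`).
    - `0 ≤ x ≤ n'`: `Z (n'-x) = zeta conj (y (n'-x))` with `y (n'-x) = zeta l' - I conj (y x)` (`zip`).
  Case `s = -1` (`C = id`), window `[-n', n - n']`:
    - `0 ≤ x ≤ n - n'`: `Z (-n'-x) = - conj zeta * y (n'+x)` and `y (x+n') = zeta l' + conj (y x)`.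
    - `x = -j`, `0 ≤ j ≤ n'`: `Z (-n'+j) = Z (-(n'-j)) = - conj zeta * y (n'-j)`, use `zip`;
      `Z x = Z (-j) = - conj zeta * y j`.
* `st_half` : combine `st_mirror` and `st_glide`.
* `st_parse` : `st 1 n l y x = st (-1) n l y (x - n') + l'` for all `x`: both sides change in the
  same way under `x ↦ x + n` (`st_glide`), so it is enough to have it on `[0,n]`:
    - `n' ≤ x ≤ n`: `zeta conj (y x)`, `y x = zeta l' + conj (y (x-n'))`, versus `zeta y (x-n') + l'`.
    - `0 ≤ x ≤ n'`: `st (-1) (x-n') = st (-1) (-(n'-x)) = - conj zeta * y (n'-x)`, use `zip`.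
* `st_neg` : `st (-1) n l y (-x) = - conj (st 1 n l y x)`: from `st_mirror` for `s = 1`
  (`st 1 (n' - x) = l' - conj (st 1 x)`) and `st_parse` at `n' - x`.
* `elt_next` : the new path is `Z`, with `n₁ = 2 a n + s n'`, `l₁ = √2 a l + s l'`:
  `mir`: `Z (2 a n + (s n' - x)) = a √2 l + Z (s n' - x)` (`st_mul`) and `st_mirror`;
  `gli` is `st_glide`; `zip` is `st_zip`; `hle : n ≤ 2 a n + s n'` from `n' ≤ n`, `1 ≤ a`.
-/

namespace H70Net

open Complex

/-- The properties of an element `y` (on `[0,n]`, from `0` to `l`) and of its bi-infinite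
continuation. -/
structure Elt (n n' : ℤ) (l l' : ℝ) (y : ℤ → ℂ) : Prop where
  hn : 0 < n
  hn' : 0 ≤ n'
  hle : n' ≤ n
  y0 : y 0 = 0
  mir : ∀ x, y (n - x) = (l : ℂ) - (starRingEnd ℂ) (y x)
  gli : ∀ x, y (x + n') = zeta * l' + (starRingEnd ℂ) (y x)
  zip : ∀ x, 0 ≤ x → x ≤ n' → y (n' - x) = zeta * l' - I * (starRingEnd ℂ) (y x)

variable {n n' : ℤ} {l l' : ℝ} {y : ℤ → ℂ}

theorem Elt.yn (h : Elt n n' l l' y) : y n = (l : ℂ) := by
  have h1 := h.mir 0
  rw [sub_zero, h.y0, map_zero, sub_zero] at h1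
  exact h1

private theorem elt_cs_zero (s : ℤ) : cs s 0 = 0 := by
  have h1 := cs_real s 0
  rwa [Complex.ofReal_zero] at h1

private theorem elt_g0 (h : Elt n n' l l' y) (s : ℤ) : zeta * cs s (y 0) = 0 := by
  rw [h.y0, elt_cs_zero, mul_zero]

private theorem elt_gn (h : Elt n n' l l' y) (s : ℤ) : zeta * cs s (y n) = zeta * l := by
  rw [h.yn, cs_real]

private theorem elt_gmir (h : Elt n n' l l' y) (s x : ℤ) :
    cs s (y (n - x)) = l - (starRingEnd ℂ) (cs s (y x)) := by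
  rw [h.mir, cs_sub, cs_real, cs_conj]

theorem st_Icc (h : Elt n n' l l' y) (s x : ℤ) (h0 : 0 ≤ x) (h1 : x ≤ n) :
    st s n l y x = zeta * cs s (y x) :=
  stair_Icc h.hn l (fun i => zeta * cs s (y i)) (elt_g0 h s) (elt_gn h s) x h0 h1

theorem st_zero (h : Elt n n' l l' y) (s : ℤ) : st s n l y 0 = 0 := by
  rw [st_Icc h s 0 le_rfl h.hn.le, elt_g0 h s]

theorem st_glide (h : Elt n n' l l' y) (s x : ℤ) :
    st s n l y (x + n) = zeta * l + (starRingEnd ℂ) (st s n l y x) :=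
  stair_glide h.hn l _ x

theorem st_mul (h : Elt n n' l l' y) (s x k : ℤ) :
    st s n l y (x + 2 * k * n) = st s n l y x + (k : ℂ) * ((√2 * l : ℝ) : ℂ) :=
  stair_mul h.hn l _ x k

theorem st_block_even (h : Elt n n' l l' y) (s k i : ℤ) (h0 : 0 ≤ i) (h1 : i ≤ n) :
    st s n l y (2 * k * n + i) = (k : ℂ) * ((√2 * l : ℝ) : ℂ) + zeta * cs s (y i) :=
  stair_block_even h.hn l (fun i => zeta * cs s (y i)) (elt_g0 h s) (elt_gn h s) k i h0 h1

theorem st_block_odd (h : Elt n n' l l' y) (s k i : ℤ) (h0 : 0 ≤ i) (h1 : i ≤ n) :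
    st s n l y ((2 * k + 1) * n + i) = (k : ℂ) * ((√2 * l : ℝ) : ℂ) + zeta * l +
      (starRingEnd ℂ) (zeta * cs s (y i)) :=
  stair_block_odd h.hn l (fun i => zeta * cs s (y i)) (elt_g0 h s) (elt_gn h s) k i h0 h1

theorem st_negI (h : Elt n n' l l' y) (s x : ℤ) (h0 : 0 ≤ x) (h1 : x ≤ n) :
    st s n l y (-x) = -((starRingEnd ℂ) zeta * cs s (y x)) := by
  have h2 := stair_neg h.hn l (fun i => zeta * cs s (y i)) (elt_g0 h s) (elt_gn h s) x h0 h1
  have h3 : st s n l y (-x) = (starRingEnd ℂ) (zeta * cs s (y (n - x)) - zeta * l) := h2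
  rw [h3, elt_gmir h]
  simp only [map_sub, map_mul, Complex.conj_conj, Complex.conj_ofReal]
  ring

theorem st_zip (h : Elt n n' l l' y) (s x : ℤ) (h0 : 0 ≤ x) (h1 : x ≤ n) :
    st s n l y (n - x) = zeta * l - I * (starRingEnd ℂ) (st s n l y x) := by
  rw [st_Icc h s (n - x) (by omega) (by omega), st_Icc h s x h0 h1, elt_gmir h, map_mul, zeta_conj]
  have hI : I * I = -1 := Complex.I_mul_I
  linear_combination (-zeta * (starRingEnd ℂ) (cs s (y x))) * hI

end H70Net
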