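import Pool.Agent.H70.Net.Elt

/-!
MP_77daaf_co, module `EltM` : mirror, half-turn and parse symmetries; the next element.
PROOFS: see the header of module `Elt` (items `st_mirror`, `st_half`, `st_parse`, `st_neg`, `elt_next`).
-/

namespace H70Net

open Complex

variable {n n' : ℤ} {l l' : ℝ} {y : ℤ → ℂ}

private theorem eltM_shift {P : ℤ → Prop} {n : ℤ} (hs : ∀ x, P x → P (x + n))
    (hb : ∀ x, P x → P (x - n)) (k : ℤ) : ∀ x, P x → P (x + k * n) := by
  induction k using Int.induction_on with
  | zero => intro x hx; simpa using hx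
  | succ k ih =>
    intro x hx
    have h1 := hs _ (ih x hx)
    have e : x + ((k : ℤ) + 1) * n = x + (k : ℤ) * n + n := by ring
    rw [e]; exact h1
  | pred k ih =>
    intro x hx
    have h1 := hb _ (ih x hx)
    have e : x + (-(k : ℤ) - 1) * n = x + (-(k : ℤ)) * n - n := by ring
    rw [e]; exact h1

private theorem eltM_window {P : ℤ → Prop} {n : ℤ} (hn : 0 < n) (hs : ∀ x, P x → P (x + n))
    (hb : ∀ x, P x → P (x - n)) (w : ℤ) (hw : ∀ x, w ≤ x → x ≤ w + n → P x) (x : ℤ) : P x := by
  have e : x = (w + (x - w) % n) + ((x - w) / n) * n := by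
    have h1 := Int.mul_ediv_add_emod (x - w) n
    linarith [mul_comm n ((x - w) / n)]
  rw [e]
  apply eltM_shift hs hb
  have h1 := Int.emod_nonneg (x - w) (show n ≠ 0 by omega)
  have h2 := Int.emod_lt_of_pos (x - w) hn
  exact hw _ (by omega) (by omega)

private theorem eltM_cs1 (z : ℂ) : cs 1 z = (starRingEnd ℂ) z := by
  unfold cs
  rw [if_pos rfl]

private theorem eltM_csm (z : ℂ) : cs (-1) z = z := by
  unfold cs
  rw [if_neg (by norm_num)]

private theorem eltM_back (h : Elt n n' l l' y) (s x : ℤ) :
    st s n l y (x - n) = (starRingEnd ℂ) (st s n l y x) - (starRingEnd ℂ) zeta * l := by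
  have h1 := st_glide h s (x - n)
  rw [sub_add_cancel] at h1
  rw [h1]
  simp only [map_add, map_mul, Complex.conj_conj, Complex.conj_ofReal]
  ring

theorem st_mirror (h : Elt n n' l l' y) (s : ℤ) (hs : s = 1 ∨ s = -1) (x : ℤ) :
    st s n l y (s * n' - x) = ((s : ℝ) * l' : ℝ) - (starRingEnd ℂ) (st s n l y x) := by
  have hn := h.hn
  have hn' := h.hn'
  have hle := h.hle
  have hz : zeta * (starRingEnd ℂ) zeta = 1 := zeta_mul_conj
  have hzc := zeta_conj
  have hI : I * I = -1 := Complex.I_mul_I
  have hfw : ∀ x, st s n l y (s * n' - x) = ((s : ℝ) * l' : ℝ) - (starRingEnd ℂ) (st s n l y x) →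
      st s n l y (s * n' - (x + n)) =
        ((s : ℝ) * l' : ℝ) - (starRingEnd ℂ) (st s n l y (x + n)) := by
    intro x hx
    have e : s * n' - (x + n) = (s * n' - x) - n := by ring
    rw [e, eltM_back h, hx, st_glide h]
    simp only [map_add, map_sub, map_mul, Complex.conj_conj, Complex.conj_ofReal]
    ring
  have hbw : ∀ x, st s n l y (s * n' - x) = ((s : ℝ) * l' : ℝ) - (starRingEnd ℂ) (st s n l y x) →
      st s n l y (s * n' - (x - n)) =
        ((s : ℝ) * l' : ℝ) - (starRingEnd ℂ) (st s n l y (x - n)) := by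
    intro x hx
    have e : s * n' - (x - n) = (s * n' - x) + n := by ring
    rw [e, st_glide h, hx, eltM_back h]
    simp only [map_sub, map_mul, Complex.conj_conj, Complex.conj_ofReal]
    ring
  rcases hs with rfl | rfl
  · refine eltM_window hn hfw hbw 0 ?_ x
    intro x h0 h1
    rcases le_total n' x with hx | hx
    · have e : 1 * n' - x = -(x - n') := by ring
      have hg := h.gli (x - n')
      rw [sub_add_cancel] at hg
      rw [e, st_negI h 1 (x - n') (by omega) (by omega), st_Icc h 1 x (by omega) (by omega),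
        eltM_cs1, eltM_cs1, hg]
      simp only [map_add, map_mul, Complex.conj_conj, Complex.conj_ofReal]
      push_cast
      linear_combination (l' : ℂ) * hz
    · have hg := h.zip x h0 hx
      rw [one_mul, st_Icc h 1 (n' - x) (by omega) (by omega), st_Icc h 1 x (by omega) (by omega),
        eltM_cs1, eltM_cs1, hg]
      simp only [map_sub, map_mul, Complex.conj_conj, Complex.conj_ofReal, Complex.conj_I]
      push_cast
      linear_combination (l' : ℂ) * hz + y x * hzc
  · refine eltM_window hn hfw hbw (-n') ?_ x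
    intro x h0 h1
    rcases le_total 0 x with hx | hx
    · have e : -1 * n' - x = -(x + n') := by ring
      have hg := h.gli x
      rw [e, st_negI h (-1) (x + n') (by omega) (by omega), st_Icc h (-1) x (by omega) (by omega),
        eltM_csm, eltM_csm, hg]
      simp only [map_mul]
      push_cast
      linear_combination (-(l' : ℂ)) * hz
    · obtain ⟨j, rfl⟩ : ∃ j, x = -j := ⟨-x, by ring⟩
      have hj0 : 0 ≤ j := by omega
      have hj1 : j ≤ n' := by omega
      have e : -1 * n' - -j = -(n' - j) := by ring
      have hg := h.zip j hj0 hj1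
      rw [e, st_negI h (-1) (n' - j) (by omega) (by omega), st_negI h (-1) j hj0 (by omega),
        eltM_csm, eltM_csm, hg]
      simp only [map_neg, map_mul, Complex.conj_conj]
      push_cast
      linear_combination (-(l' : ℂ)) * hz + (I * (starRingEnd ℂ) (y j)) * hzc
        - (zeta * (starRingEnd ℂ) (y j)) * hI

theorem st_half (h : Elt n n' l l' y) (s : ℤ) (hs : s = 1 ∨ s = -1) (x : ℤ) :
    st s n l y (n + s * n' - x) = zeta * l + ((s : ℝ) * l' : ℝ) - st s n l y x := by
  have e : n + s * n' - x = (s * n' - x) + n := by ring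
  rw [e, st_glide h, st_mirror h s hs]
  simp only [map_sub, Complex.conj_conj, Complex.conj_ofReal]
  ring

theorem st_parse (h : Elt n n' l l' y) (x : ℤ) :
    st 1 n l y x = st (-1) n l y (x - n') + (l' : ℂ) := by
  have hn := h.hn
  have hn' := h.hn'
  have hle := h.hle
  have hz : zeta * (starRingEnd ℂ) zeta = 1 := zeta_mul_conj
  have hzc := zeta_conj
  have hI : I * I = -1 := Complex.I_mul_I
  have hfw : ∀ x, st 1 n l y x = st (-1) n l y (x - n') + (l' : ℂ) →
      st 1 n l y (x + n) = st (-1) n l y (x + n - n') + (l' : ℂ) := by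
    intro x hx
    have e : x + n - n' = (x - n') + n := by ring
    rw [e, st_glide h, st_glide h, hx]
    simp only [map_add, Complex.conj_ofReal]
    ring
  have hbw : ∀ x, st 1 n l y x = st (-1) n l y (x - n') + (l' : ℂ) →
      st 1 n l y (x - n) = st (-1) n l y (x - n - n') + (l' : ℂ) := by
    intro x hx
    have e : x - n - n' = (x - n') - n := by ring
    rw [e, eltM_back h, eltM_back h, hx]
    simp only [map_add, Complex.conj_ofReal]
    ring
  refine eltM_window (P := fun x => st 1 n l y x = st (-1) n l y (x - n') + (l' : ℂ))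
    hn hfw hbw 0 ?_ x
  intro x h0 h1
  show st 1 n l y x = st (-1) n l y (x - n') + (l' : ℂ)
  rcases le_total n' x with hx | hx
  · have hg := h.gli (x - n')
    rw [sub_add_cancel] at hg
    rw [st_Icc h 1 x (by omega) (by omega), st_Icc h (-1) (x - n') (by omega) (by omega),
      eltM_cs1, eltM_csm, hg]
    simp only [map_add, map_mul, Complex.conj_conj, Complex.conj_ofReal]
    linear_combination (l' : ℂ) * hz
  · have e : x - n' = -(n' - x) := by ring
    have hg := h.zip x h0 hx
    rw [e, st_negI h (-1) (n' - x) (by omega) (by omega), st_Icc h 1 x (by omega) (by omega),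
      eltM_cs1, eltM_csm, hg]
    linear_combination (l' : ℂ) * hz - (I * (starRingEnd ℂ) (y x)) * hzc
        + (zeta * (starRingEnd ℂ) (y x)) * hI

theorem st_neg (h : Elt n n' l l' y) (x : ℤ) :
    st (-1) n l y (-x) = -(starRingEnd ℂ) (st 1 n l y x) := by
  have h1 := st_mirror h 1 (Or.inl rfl) x
  have h2 := st_parse h (1 * n' - x)
  have e : 1 * n' - x - n' = -x := by ring
  rw [e, h1] at h2
  push_cast at h2
  linear_combination -h2

theorem st_neg' (h : Elt n n' l l' y) (x : ℤ) :
    st 1 n l y (-x) = -(starRingEnd ℂ) (st (-1) n l y x) := by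
  have h1 := st_neg h (-x)
  rw [neg_neg] at h1
  rw [h1, map_neg, Complex.conj_conj, neg_neg]

theorem elt_next (h : Elt n n' l l' y) (s a : ℤ) (hs : s = 1 ∨ s = -1) (ha : 1 ≤ a)
    (hsa : s = -1 → 2 ≤ a) :
    Elt (2 * a * n + s * n') n (√2 * a * l + s * l') l (st s n l y) := by
  have hn := h.hn
  have hn' := h.hn'
  have hle := h.hle
  have hle2 : n ≤ 2 * a * n + s * n' := by
    rcases hs with rfl | rfl
    · nlinarith
    · have := hsa rfl
      nlinarith
  refine ⟨by linarith, hn.le, hle2, st_zero h s, ?_, ?_, ?_⟩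
  · intro x
    have e : 2 * a * n + s * n' - x = (s * n' - x) + 2 * a * n := by ring
    rw [e, st_mul h, st_mirror h s hs]
    push_cast
    ring
  · intro x
    exact st_glide h s x
  · intro x h0 h1
    exact st_zip h s x h0 h1

end H70Net
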