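import Pool.Agent.H70.Net.Defs

/-!
MP_77daaf_co, module `Scale` : scaling of nets.

PROOFS.  Let `r > 0`, `w ∈ E3`; `φ z = r z` on `ℂ` (homeomorphism), `ψ x = r x + w` on `E3`.
* polygon: image of a compact set; `interior (φ '' P) = φ '' interior P`,
  `frontier (φ '' P) = φ '' frontier P` (`Homeomorph.image_interior`, `image_frontier`, with
  `Homeomorph.smul₀`-like or `Homeomorph.mulLeft₀`); vertices `φ ∘ V`,
  `φ '' segment a b = segment (φ a) (φ b)`.
* net: `f' z = r • f (z / r) + w`.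
* `tetSurface (fun i => r • V i + w) = ψ '' tetSurface V`: affine images of convex hulls, frontier under
  homeomorphisms.  Here only the case `w = 0` is needed.
* `cubeSurface_eq`: `frontier {x | ∀ i, 0 ≤ x i ≤ 1} = {x | (∀ i, 0 ≤ x i ≤ 1) ∧ ∃ i, x i = 0 ∨ x i = 1}`:
  the set is closed; its interior is `{x | ∀ i, 0 < x i < 1}`.
-/

set_option autoImplicit false

namespace H70Net

open scoped Pointwise in
private theorem sc_tet (V : Fin 4 → E3) (r : ℝ) (hr : 0 < r) :
    tetSurface (fun i => r • V i) = (fun x : E3 => r • x + 0) '' tetSurface V := by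
  unfold tetSurface
  have h1 : Set.range (fun i => r • V i) = r • Set.range V := by
    rw [← Set.image_smul, ← Set.range_comp]
    rfl
  have h2 := (Homeomorph.smulOfNeZero r hr.ne' : E3 ≃ₜ E3).image_frontier
    (convexHull ℝ (Set.range V))
  rw [h1, convexHull_smul]
  simp only [add_zero]
  exact h2.symm

private noncomputable def scφ (r : ℝ) (hr : 0 < r) : ℂ ≃ₜ ℂ :=
  Homeomorph.mulLeft₀ (r : ℂ) (by exact_mod_cast hr.ne')

private theorem scφ_apply (r : ℝ) (hr : 0 < r) (z : ℂ) : scφ r hr z = (r : ℂ) * z := rfl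

private theorem sc_image (r : ℝ) (hr : 0 < r) (S : Set ℂ) :
    (fun z : ℂ => (r : ℂ) * z) '' S = scφ r hr '' S := rfl

private theorem sc_segment (r : ℝ) (hr : 0 < r) (a b : ℂ) :
    segment ℝ (scφ r hr a) (scφ r hr b) = scφ r hr '' segment ℝ a b := by
  have h := image_segment ℝ (LinearMap.mulLeft ℝ (r : ℂ)).toAffineMap a b
  have e : ((LinearMap.mulLeft ℝ (r : ℂ)).toAffineMap : ℂ → ℂ) = scφ r hr := by
    funext z
    simp [scφ_apply]
  rw [e] at h
  rw [h]

private theorem sc_convex (r : ℝ) (hr : 0 < r) (t : Set ℂ) (ht : Convex ℝ t) :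
    Convex ℝ (scφ r hr '' t) := by
  have h := ht.linear_image (LinearMap.mulLeft ℝ (r : ℂ))
  exact h

private theorem sc_polygon (P : Set ℂ) (h : IsSimplePolygon P) (r : ℝ) (hr : 0 < r) :
    IsSimplePolygon (scφ r hr '' P) := by
  obtain ⟨h1, h2, N, V, h3, h4, h5, h6, h7⟩ := h
  have hinj := (scφ r hr).injective
  refine ⟨h1.image (scφ r hr).continuous, ?_, N, fun i => scφ r hr (V i), h3, ?_, ?_, ?_, ?_⟩
  · rw [← (scφ r hr).image_interior]
    exact h2.image _
  · simp only [h4]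
  · intro i hi j hj hij
    exact h5 i hi j hj (hinj hij)
  · intro i hi j hj hij z hz hz'
    beta_reduce at hz hz' ⊢
    rw [sc_segment r hr] at hz hz'
    obtain ⟨z0, hz0, rfl⟩ := hz
    obtain ⟨z1, hz1, he⟩ := hz'
    have : z1 = z0 := hinj he
    subst this
    obtain ⟨a, b⟩ := h6 i hi j hj hij z1 hz0 hz1
    refine ⟨?_, ?_⟩
    · rcases a with a | a
      · left; simp only [← a]
      · right; simp only [← a]
    · rcases b with b | b
      · left; simp only [← b]
      · right; simp only [← b]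
  · rw [← (scφ r hr).image_frontier, h7, Set.image_iUnion₂]
    refine Set.iUnion₂_congr fun i _ => ?_
    beta_reduce
    rw [sc_segment r hr]

theorem net_scale (P : Set ℂ) (Q : Set E3) (h : IsNet P Q) (r : ℝ) (hr : 0 < r) (w : E3) :
    IsNet ((fun z : ℂ => (r : ℂ) * z) '' P) ((fun x : E3 => r • x + w) '' Q) := by
  classical
  obtain ⟨hpoly, f, hf, hfQ, hinj, T, hT, hPT⟩ := h
  rw [sc_image r hr]
  have hrc : (r : ℂ) ≠ 0 := by exact_mod_cast hr.ne'
  have hinv : ∀ z : ℂ, (r : ℂ)⁻¹ * ((r : ℂ) * z) = z := by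
    intro z
    rw [← mul_assoc, inv_mul_cancel₀ hrc, one_mul]
  have hfφ : ∀ z, r • f ((r : ℂ)⁻¹ * scφ r hr z) + w = r • f z + w := by
    intro z
    rw [scφ_apply, hinv]
  refine ⟨sc_polygon P hpoly r hr, fun z => r • f ((r : ℂ)⁻¹ * z) + w, ?_, ?_, ?_,
    T.image (fun t => scφ r hr '' t), ?_, ?_⟩
  · refine ContinuousOn.add (ContinuousOn.const_smul ?_ r) continuousOn_const
    refine hf.comp (by fun_prop) ?_
    rintro _ ⟨z, hz, rfl⟩
    rw [scφ_apply, hinv]
    exact hz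
  · rw [Set.image_image, ← hfQ, Set.image_image]
    refine Set.image_congr fun z _ => ?_
    exact hfφ z
  · rintro x hx y hy hxy
    rw [← (scφ r hr).image_interior] at hx
    obtain ⟨x0, hx0, rfl⟩ := hx
    obtain ⟨y0, hy0, rfl⟩ := hy
    simp only [hfφ, add_left_inj] at hxy
    have h1 : f x0 = f y0 := smul_right_injective E3 hr.ne' hxy
    rw [hinj x0 hx0 y0 hy0 h1]
  · intro t ht
    rw [Finset.mem_image] at ht
    obtain ⟨t0, ht0, rfl⟩ := ht
    obtain ⟨h1, h2, h3⟩ := hT t0 ht0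
    refine ⟨(scφ r hr).isClosedMap _ h1, sc_convex r hr t0 h2, ?_⟩
    rintro _ ⟨x0, hx0, rfl⟩ _ ⟨y0, hy0, rfl⟩
    simp only [hfφ]
    rw [dist_add_right, dist_smul₀, h3 x0 hx0 y0 hy0, scφ_apply, scφ_apply, dist_eq_norm,
      dist_eq_norm, ← mul_sub, norm_mul, Complex.norm_real]
  · rw [Finset.set_biUnion_finset_image, hPT, Set.image_iUnion₂]

theorem tetSurface_scale (V : Fin 4 → E3) (r : ℝ) (hr : 0 < r) :
    tetSurface (fun i => r • V i) = (fun x : E3 => r • x + 0) '' tetSurface V :=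
  sc_tet V r hr

theorem cubeSurface_eq : cubeSurface =
    {x : E3 | (∀ i, 0 ≤ x i ∧ x i ≤ 1) ∧ ∃ i, x i = 0 ∨ x i = 1} := by
  unfold cubeSurface
  set e : E3 ≃ₜ (Fin 3 → ℝ) := (EuclideanSpace.equiv (Fin 3) ℝ).toHomeomorph with he
  have hS : {x : E3 | ∀ i, 0 ≤ x i ∧ x i ≤ 1} =
      e ⁻¹' (Set.pi Set.univ (fun _ => Set.Icc (0:ℝ) 1)) := by
    ext x
    simp only [Set.mem_ofPred_eq, Set.mem_preimage, Set.mem_pi, Set.mem_univ, true_imp_iff,
      Set.mem_Icc]
    rfl
  have hcl : IsClosed {x : E3 | ∀ i, 0 ≤ x i ∧ x i ≤ 1} := by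
    rw [hS]
    exact (isClosed_set_pi fun _ _ => isClosed_Icc).preimage e.continuous
  have hint : interior {x : E3 | ∀ i, 0 ≤ x i ∧ x i ≤ 1} = {x : E3 | ∀ i, 0 < x i ∧ x i < 1} := by
    rw [hS, ← e.preimage_interior, interior_pi_set Set.finite_univ]
    ext x
    simp only [interior_Icc, Set.mem_ofPred_eq, Set.mem_preimage, Set.mem_pi, Set.mem_univ,
      true_imp_iff, Set.mem_Ioo]
    rfl
  rw [frontier, hcl.closure_eq, hint]
  ext x
  simp only [Set.mem_sdiff, Set.mem_ofPred_eq, not_forall, not_and_or, not_lt]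
  constructor
  · rintro ⟨h1, i, h2⟩
    refine ⟨h1, i, ?_⟩
    rcases h2 with h2 | h2
    · exact Or.inl (le_antisymm h2 (h1 i).1)
    · exact Or.inr (le_antisymm (h1 i).2 h2)
  · rintro ⟨h1, i, h2⟩
    refine ⟨h1, i, ?_⟩
    rcases h2 with h2 | h2
    · exact Or.inl h2.le
    · exact Or.inr h2.ge

theorem tetramono_scale (V : Fin 4 → E3) (h : IsTetramonohedron V) (r : ℝ) (hr : 0 < r) :
    IsTetramonohedron (fun i => r • V i) := by
  refine ⟨?_, ?_⟩
  · have h1 := h.1.map' (r • LinearMap.id : E3 →ₗ[ℝ] E3).toAffineMap (by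
      intro x y hxy
      have : r • x = r • y := by simpa using hxy
      exact smul_right_injective E3 hr.ne' this)
    exact h1
  · intro i j
    obtain ⟨σ, h1, h2⟩ := h.2 i j
    refine ⟨σ, h1, fun k l hk hl => ?_⟩
    rw [dist_smul₀, dist_smul₀, h2 k l hk hl]

end H70Net
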