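import Pool.Agent.H70.Net.Defs

/-!
MP_77daaf_co, module `TetGeo` : the disphenoid with vertices `(α,β,β), (α,-β,-β), (-α,β,-β), (-α,-β,β)`.

PROOFS.
* `tet_hull`: with `X = x 0/α`, `Y = x 1/β`, `Z = x 2/β`, the numbers
  `(1+X+Y+Z)/4, (1+X-Y-Z)/4, (1-X+Y-Z)/4, (1-X-Y+Z)/4` have sum 1 and are the barycentric coordinates of `x`.
  `⊇`: `x = ∑ λ_i V_i` (`convexHull_range_eq` / `Finset.centerMass` or `mem_convexHull...`), `⊆`: the set
  on the right is convex and contains the vertices (`convexHull_min`).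
* `tet_surface`: the set is closed (finite intersection of closed half spaces), its interior is the set
  with all four forms `> 0` (open, contained; conversely if a form vanishes at `x` then moving
  in the direction in which the form decreases leaves the set).
* `tet_dist`: `EuclideanSpace.dist_eq`, `Fin.sum_univ_three`.
* `tet_tetra`: affine independence (`affineIndependent_iff_of_fintype` or via
  `affineIndependent_iff_linearIndependent_vsub`): weights `w_i` with sum 0 and `∑ w_i V_i = 0` satisfy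
  `w0+w1-w2-w3 = 0`, `w0-w1+w2-w3 = 0`, `w0-w1-w2+w3 = 0`.  Faces: for `i ≠ j` let `σ` be the product of the
  transposition `(i j)` and the transposition of the two other indices; it preserves all distances.
-/

namespace H70Net

noncomputable def tetV (α β : ℝ) : Fin 4 → E3 :=
  ![!₂[α, β, β], !₂[α, -β, -β], !₂[-α, β, -β], !₂[-α, -β, β]]

private theorem tg_ext {x y : E3} (h0 : x 0 = y 0) (h1 : x 1 = y 1) (h2 : x 2 = y 2) : x = y := by
  ext i
  fin_cases i
  · exact h0
  · exact h1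
  · exact h2

theorem tet_hull (α β : ℝ) (hα : 0 < α) (hβ : 0 < β) :
    convexHull ℝ (Set.range (tetV α β)) =
      {x : E3 | 0 ≤ 1 + x 0 / α + x 1 / β + x 2 / β ∧ 0 ≤ 1 + x 0 / α - x 1 / β - x 2 / β ∧
        0 ≤ 1 - x 0 / α + x 1 / β - x 2 / β ∧ 0 ≤ 1 - x 0 / α - x 1 / β + x 2 / β} := by
  have hα' := hα.ne'
  have hβ' := hβ.ne'
  apply Set.Subset.antisymm
  · apply convexHull_min
    · rintro _ ⟨i, rfl⟩
      have h1 : α / α = 1 := div_self hα'
      have h2 : β / β = 1 := div_self hβ'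
      have h3 : -α / α = -1 := by rw [neg_div, h1]
      have h4 : -β / β = -1 := by rw [neg_div, h2]
      fin_cases i <;>
      · simp [tetV, h1, h2, h3, h4]
        try norm_num
    · intro x hx y hy a b ha hb hab
      simp only [Set.mem_ofPred_eq, PiLp.add_apply, PiLp.smul_apply, smul_eq_mul] at hx hy ⊢
      obtain ⟨x1, x2, x3, x4⟩ := hx
      obtain ⟨y1, y2, y3, y4⟩ := hy
      have hb' : b = 1 - a := by linarith
      refine ⟨?_, ?_, ?_, ?_⟩
      · have e : 1 + (a * x 0 + b * y 0) / α + (a * x 1 + b * y 1) / β + (a * x 2 + b * y 2) / β =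
            a * (1 + x 0 / α + x 1 / β + x 2 / β) + b * (1 + y 0 / α + y 1 / β + y 2 / β) := by
          rw [hb']; ring
        rw [e]; positivity
      · have e : 1 + (a * x 0 + b * y 0) / α - (a * x 1 + b * y 1) / β - (a * x 2 + b * y 2) / β =
            a * (1 + x 0 / α - x 1 / β - x 2 / β) + b * (1 + y 0 / α - y 1 / β - y 2 / β) := by
          rw [hb']; ring
        rw [e]
        exact add_nonneg (mul_nonneg ha x2) (mul_nonneg hb y2)
      · have e : 1 - (a * x 0 + b * y 0) / α + (a * x 1 + b * y 1) / β - (a * x 2 + b * y 2) / β =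
            a * (1 - x 0 / α + x 1 / β - x 2 / β) + b * (1 - y 0 / α + y 1 / β - y 2 / β) := by
          rw [hb']; ring
        rw [e]
        exact add_nonneg (mul_nonneg ha x3) (mul_nonneg hb y3)
      · have e : 1 - (a * x 0 + b * y 0) / α - (a * x 1 + b * y 1) / β + (a * x 2 + b * y 2) / β =
            a * (1 - x 0 / α - x 1 / β + x 2 / β) + b * (1 - y 0 / α - y 1 / β + y 2 / β) := by
          rw [hb']; ring
        rw [e]
        exact add_nonneg (mul_nonneg ha x4) (mul_nonneg hb y4)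
  · rintro x ⟨x1, x2, x3, x4⟩
    have h := (convex_convexHull ℝ (Set.range (tetV α β))).sum_mem (t := Finset.univ)
      (w := ![(1 + x 0 / α + x 1 / β + x 2 / β) / 4, (1 + x 0 / α - x 1 / β - x 2 / β) / 4,
        (1 - x 0 / α + x 1 / β - x 2 / β) / 4, (1 - x 0 / α - x 1 / β + x 2 / β) / 4])
      (z := tetV α β) ?_ ?_ (fun i _ => subset_convexHull ℝ _ ⟨i, rfl⟩)
    · have e : x = ∑ i, (![(1 + x 0 / α + x 1 / β + x 2 / β) / 4,
          (1 + x 0 / α - x 1 / β - x 2 / β) / 4,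
          (1 - x 0 / α + x 1 / β - x 2 / β) / 4,
          (1 - x 0 / α - x 1 / β + x 2 / β) / 4] : Fin 4 → ℝ) i • tetV α β i := by
        apply tg_ext
        · simp [tetV, Fin.sum_univ_four]
          field_simp
          ring
        · simp [tetV, Fin.sum_univ_four]
          field_simp
          ring
        · simp [tetV, Fin.sum_univ_four]
          field_simp
          ring
      rw [e]
      exact h
    · intro i _
      fin_cases i <;> simp <;> linarith
    · simp [Fin.sum_univ_four]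
      ring

private theorem tg_int {f : E3 → ℝ} {v : E3} {K : Set E3} (hK : ∀ x ∈ K, 0 ≤ f x)
    (hf : ∀ x : E3, ∀ t : ℝ, f (x + t • v) = f x - t) {x : E3} (hx : x ∈ interior K) : 0 < f x := by
  have hc : Continuous fun t : ℝ => x + t • v := by fun_prop
  have ho : IsOpen ((fun t : ℝ => x + t • v) ⁻¹' interior K) := isOpen_interior.preimage hc
  have h0 : (0 : ℝ) ∈ ((fun t : ℝ => x + t • v) ⁻¹' interior K) := by
    show x + (0 : ℝ) • v ∈ interior K
    rw [zero_smul, add_zero]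
    exact hx
  obtain ⟨ε, hε, hball⟩ := Metric.isOpen_iff.1 ho 0 h0
  have h1 : ε / 2 ∈ Metric.ball (0 : ℝ) ε := by
    rw [Metric.mem_ball, Real.dist_eq, sub_zero, abs_of_pos (by linarith)]
    linarith
  have h2 : x + (ε / 2) • v ∈ K := interior_subset (hball h1)
  have h3 := hK _ h2
  rw [hf] at h3
  linarith

theorem tet_surface (α β : ℝ) (hα : 0 < α) (hβ : 0 < β) :
    tetSurface (tetV α β) =
      {x : E3 | (0 ≤ 1 + x 0 / α + x 1 / β + x 2 / β ∧ 0 ≤ 1 + x 0 / α - x 1 / β - x 2 / β ∧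
        0 ≤ 1 - x 0 / α + x 1 / β - x 2 / β ∧ 0 ≤ 1 - x 0 / α - x 1 / β + x 2 / β) ∧
        (1 + x 0 / α + x 1 / β + x 2 / β = 0 ∨ 1 + x 0 / α - x 1 / β - x 2 / β = 0 ∨
        1 - x 0 / α + x 1 / β - x 2 / β = 0 ∨ 1 - x 0 / α - x 1 / β + x 2 / β = 0)} := by
  have hα' := hα.ne'
  have hβ' := hβ.ne'
  unfold tetSurface
  rw [tet_hull α β hα hβ]
  set K : Set E3 := {x : E3 | 0 ≤ 1 + x 0 / α + x 1 / β + x 2 / β ∧
    0 ≤ 1 + x 0 / α - x 1 / β - x 2 / β ∧
    0 ≤ 1 - x 0 / α + x 1 / β - x 2 / β ∧ 0 ≤ 1 - x 0 / α - x 1 / β + x 2 / β} with hKdef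
  have hcl : IsClosed K := by
    have e : K = {x : E3 | 0 ≤ 1 + x 0 / α + x 1 / β + x 2 / β} ∩
      ({x : E3 | 0 ≤ 1 + x 0 / α - x 1 / β - x 2 / β} ∩
      ({x : E3 | 0 ≤ 1 - x 0 / α + x 1 / β - x 2 / β} ∩
      {x : E3 | 0 ≤ 1 - x 0 / α - x 1 / β + x 2 / β})) := rfl
    rw [e]
    refine IsClosed.inter ?_ (IsClosed.inter ?_ (IsClosed.inter ?_ ?_)) <;>
      exact isClosed_le continuous_const (by fun_prop)
  have hop : IsOpen {x : E3 | 0 < 1 + x 0 / α + x 1 / β + x 2 / β ∧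
    0 < 1 + x 0 / α - x 1 / β - x 2 / β ∧
    0 < 1 - x 0 / α + x 1 / β - x 2 / β ∧ 0 < 1 - x 0 / α - x 1 / β + x 2 / β} := by
    have e : {x : E3 | 0 < 1 + x 0 / α + x 1 / β + x 2 / β ∧
      0 < 1 + x 0 / α - x 1 / β - x 2 / β ∧
      0 < 1 - x 0 / α + x 1 / β - x 2 / β ∧ 0 < 1 - x 0 / α - x 1 / β + x 2 / β} =
      {x : E3 | 0 < 1 + x 0 / α + x 1 / β + x 2 / β} ∩
      ({x : E3 | 0 < 1 + x 0 / α - x 1 / β - x 2 / β} ∩
      ({x : E3 | 0 < 1 - x 0 / α + x 1 / β - x 2 / β} ∩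
      {x : E3 | 0 < 1 - x 0 / α - x 1 / β + x 2 / β})) := rfl
    rw [e]
    refine IsOpen.inter ?_ (IsOpen.inter ?_ (IsOpen.inter ?_ ?_)) <;>
      exact isOpen_lt continuous_const (by fun_prop)
  rw [frontier, hcl.closure_eq]
  ext x
  rw [Set.mem_sdiff]
  have hint : x ∈ interior K ↔ (0 < 1 + x 0 / α + x 1 / β + x 2 / β ∧
      0 < 1 + x 0 / α - x 1 / β - x 2 / β ∧
      0 < 1 - x 0 / α + x 1 / β - x 2 / β ∧ 0 < 1 - x 0 / α - x 1 / β + x 2 / β) := by
    constructor
    · intro hx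
      refine ⟨?_, ?_, ?_, ?_⟩
      · refine tg_int (f := fun x : E3 => 1 + x 0 / α + x 1 / β + x 2 / β) (v := !₂[-α, 0, 0])
          (fun y hy => hy.1) ?_ hx
        intro y t
        simp
        field_simp
        ring
      · refine tg_int (f := fun x : E3 => 1 + x 0 / α - x 1 / β - x 2 / β) (v := !₂[-α, 0, 0])
          (fun y hy => hy.2.1) ?_ hx
        intro y t
        simp
        field_simp
        ring
      · refine tg_int (f := fun x : E3 => 1 - x 0 / α + x 1 / β - x 2 / β) (v := !₂[α, 0, 0])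
          (fun y hy => hy.2.2.1) ?_ hx
        intro y t
        simp
        field_simp
        ring
      · refine tg_int (f := fun x : E3 => 1 - x 0 / α - x 1 / β + x 2 / β) (v := !₂[α, 0, 0])
          (fun y hy => hy.2.2.2) ?_ hx
        intro y t
        simp
        field_simp
        ring
    · intro hx
      refine mem_interior.2 ⟨_, ?_, hop, hx⟩
      rintro y ⟨y1, y2, y3, y4⟩
      exact ⟨y1.le, y2.le, y3.le, y4.le⟩
  rw [hint]
  constructor
  · rintro ⟨hK, hn⟩
    refine ⟨hK, ?_⟩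
    obtain ⟨x1, x2, x3, x4⟩ := hK
    by_contra hc
    simp only [not_or] at hc
    obtain ⟨c1, c2, c3, c4⟩ := hc
    exact hn ⟨lt_of_le_of_ne x1 (Ne.symm c1), lt_of_le_of_ne x2 (Ne.symm c2),
      lt_of_le_of_ne x3 (Ne.symm c3), lt_of_le_of_ne x4 (Ne.symm c4)⟩
  · rintro ⟨hK, hz⟩
    refine ⟨hK, ?_⟩
    rintro ⟨x1, x2, x3, x4⟩
    rcases hz with h | h | h | h
    · exact absurd h x1.ne'
    · exact absurd h x2.ne'
    · exact absurd h x3.ne'
    · exact absurd h x4.ne'

private theorem tg_sqrt {e c : ℝ} (h : e = 4 * c) : √e = 2 * √c := by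
  rw [h, Real.sqrt_mul (by norm_num)]
  congr 1
  rw [show (4 : ℝ) = 2 ^ 2 by norm_num]
  exact Real.sqrt_sq (by norm_num)

theorem tet_dist (α β : ℝ) (i j : Fin 4) (hij : i ≠ j) :
    dist (tetV α β i) (tetV α β j) = 2 * √(2 * β ^ 2) ∨
    dist (tetV α β i) (tetV α β j) = 2 * √(α ^ 2 + β ^ 2) := by
  rw [EuclideanSpace.dist_eq]
  fin_cases i <;> fin_cases j <;>
  first
  | exact absurd rfl hij
  | (left; apply tg_sqrt; simp [tetV, Fin.sum_univ_three, Real.dist_eq]; ring1)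
  | (right; apply tg_sqrt; simp [tetV, Fin.sum_univ_three, Real.dist_eq]; ring1)

private theorem tg_aff (α β : ℝ) (hα : 0 < α) (hβ : 0 < β) : AffineIndependent ℝ (tetV α β) := by
  rw [affineIndependent_iff_of_fintype]
  intro w hw h
  rw [Finset.univ.weightedVSub_eq_linear_combination hw] at h
  have h0 : (∑ i, w i • tetV α β i) 0 = 0 := by rw [h]; rfl
  have h1 : (∑ i, w i • tetV α β i) 1 = 0 := by rw [h]; rfl
  have h2 : (∑ i, w i • tetV α β i) 2 = 0 := by rw [h]; rfl
  simp [Fin.sum_univ_four, tetV] at h0 h1 h2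
  rw [Fin.sum_univ_four] at hw
  have e0 : α * (w 0 + w 1 - w 2 - w 3) = 0 := by linarith
  have e1 : β * (w 0 - w 1 + w 2 - w 3) = 0 := by linarith
  have e2 : β * (w 0 - w 1 - w 2 + w 3) = 0 := by linarith
  have f0 := (mul_eq_zero.1 e0).resolve_left hα.ne'
  have f1 := (mul_eq_zero.1 e1).resolve_left hβ.ne'
  have f2 := (mul_eq_zero.1 e2).resolve_left hβ.ne'
  intro i
  fin_cases i
  · show w 0 = 0
    linarith
  · show w 1 = 0
    linarith
  · show w 2 = 0
    linarith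
  · show w 3 = 0
    linarith

private theorem tg_iso (s : Fin 3 → ℝ) (hs : ∀ i, s i ^ 2 = 1) (V : Fin 4 → E3)
    (σ : Equiv.Perm (Fin 4)) (h : ∀ k i, V (σ k) i = s i * V k i) (k l : Fin 4) :
    dist (V (σ k)) (V (σ l)) = dist (V k) (V l) := by
  rw [EuclideanSpace.dist_eq, EuclideanSpace.dist_eq]
  congr 1
  apply Finset.sum_congr rfl
  intro i _
  rw [h, h, Real.dist_eq, Real.dist_eq, sq_abs, sq_abs, ← mul_sub, mul_pow, hs, one_mul]

theorem tet_tetra (α β : ℝ) (hα : 0 < α) (hβ : 0 < β) : IsTetramonohedron (tetV α β) := by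
  refine ⟨tg_aff α β hα hβ, ?_⟩
  intro i j
  have hlist : ∀ i j : Fin 4, (1 : Equiv.Perm (Fin 4)) i = j ∨
      (Equiv.swap 0 1 * Equiv.swap 2 3 : Equiv.Perm (Fin 4)) i = j ∨
      (Equiv.swap 0 2 * Equiv.swap 1 3 : Equiv.Perm (Fin 4)) i = j ∨
      (Equiv.swap 0 3 * Equiv.swap 1 2 : Equiv.Perm (Fin 4)) i = j := by decide
  have v0 : ∀ k, tetV α β k = ![!₂[α, β, β], !₂[α, -β, -β], !₂[-α, β, -β], !₂[-α, -β, β]] k :=
    fun k => rfl
  rcases hlist i j with h | h | h | h
  · exact ⟨_, h, fun k l _ _ => rfl⟩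
  · refine ⟨_, h, fun k l _ _ => tg_iso ![1, -1, -1] ?_ _ _ ?_ k l⟩
    · intro i; fin_cases i <;> norm_num
    · intro k i
      have h1 : (Equiv.swap 0 1 * Equiv.swap 2 3 : Equiv.Perm (Fin 4)) k = ![1, 0, 3, 2] k := by
        revert k; decide
      rw [h1]
      fin_cases k <;> fin_cases i <;> simp [tetV]
  · refine ⟨_, h, fun k l _ _ => tg_iso ![-1, 1, -1] ?_ _ _ ?_ k l⟩
    · intro i; fin_cases i <;> norm_num
    · intro k i
      have h1 : (Equiv.swap 0 2 * Equiv.swap 1 3 : Equiv.Perm (Fin 4)) k = ![2, 3, 0, 1] k := by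
        revert k; decide
      rw [h1]
      fin_cases k <;> fin_cases i <;> simp [tetV]
  · refine ⟨_, h, fun k l _ _ => tg_iso ![-1, -1, 1] ?_ _ _ ?_ k l⟩
    · intro i; fin_cases i <;> norm_num
    · intro k i
      have h1 : (Equiv.swap 0 3 * Equiv.swap 1 2 : Equiv.Perm (Fin 4)) k = ![3, 2, 1, 0] k := by
        revert k; decide
      rw [h1]
      fin_cases k <;> fin_cases i <;> simp [tetV]

end H70Net
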