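import Pool.Agent.H70.Net.Tau
import Pool.Agent.H70.Net.TetGeo
import Pool.Agent.H70.Net.PolyEnd

/-!
MP_77daaf_co, module `TetNet` : `PP C` is a net of a disphenoid.  Lattice units.

`om = |W|² = (7q-p)² + 9q²`.  `tt z = (sf z - σ)/(24 q²)`, `la z = Re (conj W * z) / om`
(so `la W = 1`, `tt W = 0`), `SS z = 2 la z - tt z / 2`.
`β² = om/32`, `α² = 144 q⁴/om - om/64` (`> 0` because `om < 96 q²`: `(7q)² + 9q² = 58 q²`).
`foldT z = (α tau (tt z), β tau (SS z), β tau (SS z + tt z))`.
-/

namespace H70Net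

open Complex

noncomputable def om (C : Curve) : ℝ := (7 * C.q - C.p) ^ 2 + 9 * C.q ^ 2
noncomputable def tt (C : Curve) (z : ℂ) : ℝ := (sf C z - C.σ) / (24 * C.q ^ 2)
noncomputable def la (C : Curve) (z : ℂ) : ℝ := ((7 * C.q - C.p) * z.re + 3 * C.q * z.im) / om C
noncomputable def SS (C : Curve) (z : ℂ) : ℝ := 2 * la C z - tt C z / 2
noncomputable def al (C : Curve) : ℝ := √(144 * C.q ^ 4 / om C - om C / 64)
noncomputable def be (C : Curve) : ℝ := √(om C / 32)

noncomputable def foldT (C : Curve) (z : ℂ) : E3 :=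
  !₂[al C * tau (tt C z), be C * tau (SS C z), be C * tau (SS C z + tt C z)]

private theorem tn_q (C : Curve) : (0 : ℝ) < C.q := by
  have h1 := C.hp
  have h2 := C.hpq
  have : 0 < C.q := by omega
  exact_mod_cast this

private theorem tn_om (C : Curve) : 0 < om C := by
  have := tn_q C
  unfold om
  positivity

private theorem tn_om_lt (C : Curve) : om C < 96 * (C.q : ℝ) ^ 2 := by
  have hq := tn_q C
  have h1 : (0 : ℝ) < C.p := by exact_mod_cast C.hp
  have h2 : 5 * (C.p : ℝ) < C.q := by exact_mod_cast C.hpq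
  unfold om
  nlinarith

theorem al_pos (C : Curve) : 0 < al C ∧ 0 < be C ∧
    al C ^ 2 = 144 * C.q ^ 4 / om C - om C / 64 ∧ be C ^ 2 = om C / 32 := by
  have hq := tn_q C
  have h1 := tn_om C
  have h2 := tn_om_lt C
  have h3 : 0 < 144 * (C.q : ℝ) ^ 4 / om C - om C / 64 := by
    rw [sub_pos, div_lt_div_iff₀ (by norm_num) h1]
    have : om C * om C < (96 * (C.q : ℝ) ^ 2) * (96 * (C.q : ℝ) ^ 2) :=
      mul_lt_mul'' h2 h2 h1.le h1.le
    nlinarith
  have h4 : 0 < om C / 32 := by positivity
  refine ⟨Real.sqrt_pos.2 h3, Real.sqrt_pos.2 h4, Real.sq_sqrt h3.le, Real.sq_sqrt h4.le⟩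

theorem foldT_dist (C : Curve) (z w : ℂ) (i j k : ℤ)
    (h1 : (i : ℝ) ≤ tt C z ∧ tt C z ≤ i + 1) (h2 : (i : ℝ) ≤ tt C w ∧ tt C w ≤ i + 1)
    (h3 : (j : ℝ) ≤ SS C z ∧ SS C z ≤ j + 1) (h4 : (j : ℝ) ≤ SS C w ∧ SS C w ≤ j + 1)
    (h5 : (k : ℝ) ≤ SS C z + tt C z ∧ SS C z + tt C z ≤ k + 1)
    (h6 : (k : ℝ) ≤ SS C w + tt C w ∧ SS C w + tt C w ≤ k + 1) :
    dist (foldT C z) (foldT C w) = dist z w := by
  obtain ⟨-, -, ha, hb⟩ := al_pos C
  have hq := tn_q C
  have hom := tn_om C
  have d1 := tau_diff i _ _ h1.1 h1.2 h2.1 h2.2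
  have d2 := tau_diff j _ _ h3.1 h3.2 h4.1 h4.2
  have d3 := tau_diff k _ _ h5.1 h5.2 h6.1 h6.2
  rw [EuclideanSpace.dist_eq, Complex.dist_eq_re_im]
  congr 1
  rw [Fin.sum_univ_three]
  have e0 : (foldT C z) 0 = al C * tau (tt C z) := rfl
  have e1 : (foldT C z) 1 = be C * tau (SS C z) := rfl
  have e2 : (foldT C z) 2 = be C * tau (SS C z + tt C z) := rfl
  have f0 : (foldT C w) 0 = al C * tau (tt C w) := rfl
  have f1 : (foldT C w) 1 = be C * tau (SS C w) := rfl
  have f2 : (foldT C w) 2 = be C * tau (SS C w + tt C w) := rfl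
  rw [Real.dist_eq, Real.dist_eq, Real.dist_eq, sq_abs, sq_abs, sq_abs, e0, e1, e2, f0, f1, f2]
  have g1 : (al C * tau (tt C z) - al C * tau (tt C w)) ^ 2 =
      al C ^ 2 * (tau (tt C z) - tau (tt C w)) ^ 2 := by ring
  have g2 : (be C * tau (SS C z) - be C * tau (SS C w)) ^ 2 =
      be C ^ 2 * (tau (SS C z) - tau (SS C w)) ^ 2 := by ring
  have g3 : (be C * tau (SS C z + tt C z) - be C * tau (SS C w + tt C w)) ^ 2 =
      be C ^ 2 * (tau (SS C z + tt C z) - tau (SS C w + tt C w)) ^ 2 := by ring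
  rw [g1, g2, g3, d1, d2, d3, ha, hb]
  have hq' := hq.ne'
  have hom' := hom.ne'
  -- differences
  have t1 : tt C z - tt C w =
      (3 * C.q * (z.re - w.re) - (7 * C.q - C.p) * (z.im - w.im)) / (24 * C.q ^ 2) := by
    unfold tt sf; ring
  have t2 : la C z - la C w =
      ((7 * C.q - C.p) * (z.re - w.re) + 3 * C.q * (z.im - w.im)) / om C := by
    unfold la; ring
  have t3 : SS C z - SS C w = 2 * (la C z - la C w) - (tt C z - tt C w) / 2 := by
    unfold SS; ring
  have t4 : SS C z + tt C z - (SS C w + tt C w) =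
      2 * (la C z - la C w) + (tt C z - tt C w) / 2 := by
    unfold SS; ring
  rw [t3, t4]
  have t5 : (144 * (C.q : ℝ) ^ 4 / om C - om C / 64) * (4 * (tt C z - tt C w) ^ 2) +
      om C / 32 * (4 * (2 * (la C z - la C w) - (tt C z - tt C w) / 2) ^ 2) +
      om C / 32 * (4 * (2 * (la C z - la C w) + (tt C z - tt C w) / 2) ^ 2) =
      576 * (C.q : ℝ) ^ 4 / om C * (tt C z - tt C w) ^ 2 + om C * (la C z - la C w) ^ 2 := by
    ring
  rw [t5, t1, t2]
  have t6 : 576 * (C.q : ℝ) ^ 4 / om C *
      ((3 * C.q * (z.re - w.re) - (7 * C.q - C.p) * (z.im - w.im)) / (24 * C.q ^ 2)) ^ 2 =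
      (3 * C.q * (z.re - w.re) - (7 * C.q - C.p) * (z.im - w.im)) ^ 2 / om C := by
    field_simp
    ring
  have t7 : om C * (((7 * C.q - C.p) * (z.re - w.re) + 3 * C.q * (z.im - w.im)) / om C) ^ 2 =
      ((7 * C.q - C.p) * (z.re - w.re) + 3 * C.q * (z.im - w.im)) ^ 2 / om C := by
    field_simp
  rw [t6, t7, ← add_div, div_eq_iff hom']
  unfold om
  ring

theorem ST_onto (C : Curve) (S t : ℝ) : ∃ z : ℂ, SS C z = S ∧ tt C z = t := by
  have hq := tn_q C
  have hom := tn_om C
  have hq' := hq.ne'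
  have hom' := hom.ne'
  set s : ℝ := 24 * C.q ^ 2 * t + C.σ with hs
  set l : ℝ := (S + t / 2) / 2 with hl
  set z : ℂ := ⟨(7 * C.q - C.p) * l + 3 * C.q * (s / om C),
    3 * C.q * l - (7 * C.q - C.p) * (s / om C)⟩ with hz
  have hre : z.re = (7 * C.q - C.p) * l + 3 * C.q * (s / om C) := rfl
  have him : z.im = 3 * C.q * l - (7 * C.q - C.p) * (s / om C) := rfl
  have h1 : sf C z = s := by
    have : sf C z = (s / om C) * om C := by
      unfold sf
      rw [hre, him]
      conv_rhs => rw [show om C = (7 * C.q - C.p) ^ 2 + 9 * C.q ^ 2 from rfl]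
      have e : om C = (7 * C.q - C.p) ^ 2 + 9 * C.q ^ 2 := rfl
      rw [e]
      ring
    rw [this, div_mul_cancel₀ _ hom']
  have h2 : la C z = l := by
    unfold la
    rw [div_eq_iff hom', hre, him]
    have e : om C = (7 * C.q - C.p) ^ 2 + 9 * C.q ^ 2 := rfl
    rw [e]
    ring
  have h3 : tt C z = t := by
    unfold tt
    rw [h1, hs]
    field_simp
    ring
  refine ⟨z, ?_, h3⟩
  unfold SS
  rw [h2, h3, hl]
  ring

private theorem tn_W (C : Curve) (z : ℂ) (k : ℤ) :
    (z + k * Ws C).re = z.re + k * (7 * C.q - C.p) ∧ (z + k * Ws C).im = z.im + k * (3 * C.q) := by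
  constructor
  · simp [Ws]
  · simp [Ws]

theorem ST_W (C : Curve) (z : ℂ) (k : ℤ) :
    SS C (z + k * Ws C) = SS C z + 2 * k ∧ tt C (z + k * Ws C) = tt C z := by
  have hom := tn_om C
  have hom' := hom.ne'
  obtain ⟨hre, him⟩ := tn_W C z k
  have h1 : sf C (z + k * Ws C) = sf C z := by
    unfold sf
    rw [hre, him]
    ring
  have h2 : la C (z + k * Ws C) = la C z + k := by
    unfold la
    rw [hre, him, div_eq_iff hom', add_mul, div_mul_cancel₀ _ hom']
    unfold om
    ring
  have h3 : tt C (z + k * Ws C) = tt C z := by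
    unfold tt
    rw [h1]
  refine ⟨?_, h3⟩
  unfold SS
  rw [h2, h3]
  ring

theorem ST_inj (C : Curve) (z w : ℂ) (k : ℤ) (h1 : SS C w = SS C z + 2 * k)
    (h2 : tt C w = tt C z) : w = z + k * Ws C := by
  have hq := tn_q C
  have hom := tn_om C
  have hq' := hq.ne'
  have hom' := hom.ne'
  obtain ⟨hre, him⟩ := tn_W C z k
  have h3 : la C w = la C z + k := by
    unfold SS at h1
    rw [h2] at h1
    linarith
  have h4 : sf C w = sf C z := by
    unfold tt at h2
    rw [div_left_inj' (by positivity)] at h2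
    linarith
  have h5 : (7 * C.q - C.p) * w.re + 3 * C.q * w.im =
      (7 * C.q - C.p) * z.re + 3 * C.q * z.im + k * om C := by
    unfold la at h3
    rw [div_eq_iff hom', add_mul, div_mul_cancel₀ _ hom'] at h3
    exact h3
  unfold sf at h4
  apply Complex.ext
  · rw [hre]
    have : om C * (w.re - (z.re + k * (7 * C.q - C.p))) = 0 := by
      have e : om C * (w.re - (z.re + k * (7 * C.q - C.p))) =
        (7 * C.q - C.p) * ((7 * C.q - C.p) * w.re + 3 * C.q * w.im -
          ((7 * C.q - C.p) * z.re + 3 * C.q * z.im + k * om C)) +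
        3 * C.q * ((3 * C.q * w.re - (7 * C.q - C.p) * w.im) -
          (3 * C.q * z.re - (7 * C.q - C.p) * z.im)) := by
        unfold om; ring
      rw [e, h5, h4]; ring
    rcases mul_eq_zero.1 this with h | h
    · exact absurd h hom'
    · linarith
  · rw [him]
    have : om C * (w.im - (z.im + k * (3 * C.q))) = 0 := by
      have e : om C * (w.im - (z.im + k * (3 * C.q))) =
        3 * C.q * ((7 * C.q - C.p) * w.re + 3 * C.q * w.im -
          ((7 * C.q - C.p) * z.re + 3 * C.q * z.im + k * om C)) -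
        (7 * C.q - C.p) * ((3 * C.q * w.re - (7 * C.q - C.p) * w.im) -
          (3 * C.q * z.re - (7 * C.q - C.p) * z.im)) := by
        unfold om; ring
      rw [e, h5, h4]; ring
    rcases mul_eq_zero.1 this with h | h
    · exact absurd h hom'
    · linarith

private theorem tn_cont (C : Curve) : Continuous (tt C) ∧ Continuous (SS C) := by
  have h1 : Continuous (tt C) := by
    unfold tt sf
    fun_prop
  have h2 : Continuous (la C) := by
    unfold la
    fun_prop
  refine ⟨h1, ?_⟩
  unfold SS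
  fun_prop

private theorem tn_fold_cont (C : Curve) : Continuous (foldT C) := by
  obtain ⟨h1, h2⟩ := tn_cont C
  have ht := tau_continuous
  unfold foldT
  apply (PiLp.continuous_toLp 2 _).comp
  apply continuous_pi
  intro i
  fin_cases i
  · exact continuous_const.mul (ht.comp h1)
  · exact continuous_const.mul (ht.comp h2)
  · exact continuous_const.mul (ht.comp (h2.add h1))

private theorem tn_convex (g : ℂ → ℝ) (hg : ∀ (z w : ℂ) (s t : ℝ), s + t = 1 →
    g (s • z + t • w) = s * g z + t * g w) (a b : ℝ) : Convex ℝ {z | a ≤ g z ∧ g z ≤ b} := by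
  intro z hz w hw s t hs ht hst
  simp only [Set.mem_ofPred_eq] at *
  rw [hg z w s t hst]
  constructor
  · have h1 := mul_le_mul_of_nonneg_left hz.1 hs
    have h2 := mul_le_mul_of_nonneg_left hw.1 ht
    have h3 : s * a + t * a = a := by rw [← add_mul, hst, one_mul]
    linarith
  · have h1 := mul_le_mul_of_nonneg_left hz.2 hs
    have h2 := mul_le_mul_of_nonneg_left hw.2 ht
    have h3 : s * b + t * b = b := by rw [← add_mul, hst, one_mul]
    linarith

private theorem tn_re (z w : ℂ) (s t : ℝ) : (s • z + t • w).re = s * z.re + t * w.re ∧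
    (s • z + t • w).im = s * z.im + t * w.im := by
  constructor
  · simp
  · simp

private theorem tn_tt_aff (C : Curve) (z w : ℂ) (s t : ℝ) (h : s + t = 1) :
    tt C (s • z + t • w) = s * tt C z + t * tt C w := by
  obtain ⟨h1, h2⟩ := tn_re z w s t
  obtain rfl : t = 1 - s := by linarith
  unfold tt sf
  rw [h1, h2]
  ring

private theorem tn_SS_aff (C : Curve) (z w : ℂ) (s t : ℝ) (h : s + t = 1) :
    SS C (s • z + t • w) = s * SS C z + t * SS C w := by
  have h0 := tn_tt_aff C z w s t h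
  obtain ⟨h1, h2⟩ := tn_re z w s t
  unfold SS
  rw [h0]
  unfold la
  rw [h1, h2]
  ring

private theorem tn_mem (C : Curve) (z : ℂ) :
    z ∈ PP C ↔ z ∈ BandR C ∧ 0 ≤ tt C z ∧ tt C z ≤ 1 := by
  have hq := tn_q C
  have hq2 : (0 : ℝ) < 24 * (C.q : ℝ) ^ 2 := by positivity
  unfold PP tt
  simp only [Set.mem_ofPred_eq]
  rw [le_div_iff₀ hq2, div_le_iff₀ hq2, zero_mul, one_mul]
  constructor
  · rintro ⟨h1, h2, h3⟩
    exact ⟨h1, by linarith, by linarith⟩
  · rintro ⟨h1, h2, h3⟩
    exact ⟨h1, by linarith, by linarith⟩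

theorem tet_net (C : Curve) : IsNet (PP C) (tetSurface (tetV (al C) (be C))) := by
  classical
  obtain ⟨ha, hb, ha2, hb2⟩ := al_pos C
  have hq := tn_q C
  have hq2 : (0 : ℝ) < 24 * (C.q : ℝ) ^ 2 := by positivity
  obtain ⟨hct, hcS⟩ := tn_cont C
  obtain ⟨S, hS, hPP⟩ := PP_cells C
  obtain ⟨R, hR⟩ : ∃ R : ℕ, ∀ z ∈ PP C, |SS C z| ≤ R := by
    obtain ⟨M, hM⟩ := (PP_compact C).exists_bound_of_continuousOn hcS.continuousOn
    obtain ⟨R, hR⟩ := exists_nat_ge M
    exact ⟨R, fun z hz => le_trans (hM z hz) hR⟩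
  refine ⟨PP_polygon C, foldT C, (tn_fold_cont C).continuousOn, ?_, ?_, ?_⟩
  · -- image
    rw [tet_surface _ _ ha hb]
    ext x
    simp only [Set.mem_ofPred_eq]
    constructor
    · rintro ⟨z, hz, rfl⟩
      obtain ⟨-, h1, h2⟩ := (tn_mem C z).1 hz
      have e0 : (foldT C z) 0 / al C = tau (tt C z) := by
        show al C * tau (tt C z) / al C = _
        field_simp
      have e1 : (foldT C z) 1 / be C = tau (SS C z) := by
        show be C * tau (SS C z) / be C = _
        field_simp
      have e2 : (foldT C z) 2 / be C = tau (SS C z + tt C z) := by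
        show be C * tau (SS C z + tt C z) / be C = _
        field_simp
      rw [e0, e1, e2]
      exact tet_mem (SS C z) (tt C z) h1 h2
    · rintro ⟨⟨h0, h1, h2, h3⟩, h⟩
      obtain ⟨s, t, t0, t1, e0, e1, e2⟩ := tet_onto _ _ _ h0 h1 h2 h3 h
      obtain ⟨z, hz1, hz2⟩ := ST_onto C s t
      obtain ⟨k, hk⟩ := exists_W C z
      obtain ⟨w1, w2⟩ := ST_W C z k
      have p1 : tau (s + 2 * k) = tau s := by
        have := tau_add_int s (2 * k)
        rw [if_pos (by omega)] at this
        push_cast at this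
        exact this
      have p2 : tau (s + 2 * k + t) = tau (s + t) := by
        have := tau_add_int (s + t) (2 * k)
        rw [if_pos (by omega)] at this
        push_cast at this
        rw [← this]
        congr 1
        ring
      refine ⟨z + k * Ws C, (tn_mem C _).2 ⟨hk, ?_, ?_⟩, ?_⟩
      · rw [w2, hz2]; exact t0
      · rw [w2, hz2]; exact t1
      · ext i
        fin_cases i
        · show al C * tau (tt C (z + k * Ws C)) = x 0
          rw [w2, hz2, e0]
          field_simp
        · show be C * tau (SS C (z + k * Ws C)) = x 1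
          rw [w1, hz1, p1, e1]
          field_simp
        · show be C * tau (SS C (z + k * Ws C) + tt C (z + k * Ws C)) = x 2
          rw [w1, w2, hz1, hz2, p2, e2]
          field_simp
  · -- injectivity
    intro x hx y hy e
    rw [interior_PP] at hx
    obtain ⟨hx0, hg, hgw, hs1, hs2⟩ := hx
    obtain ⟨hyB, y1, y2⟩ := (tn_mem C y).1 hy
    have x1 : 0 < tt C x := by
      unfold tt
      exact div_pos (by linarith) hq2
    have x2 : tt C x < 1 := by
      unfold tt
      rw [div_lt_one hq2]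
      linarith
    have c0 : al C * tau (tt C x) = al C * tau (tt C y) := congrArg (fun v : E3 => v 0) e
    have c1 : be C * tau (SS C x) = be C * tau (SS C y) := congrArg (fun v : E3 => v 1) e
    have c2 : be C * tau (SS C x + tt C x) = be C * tau (SS C y + tt C y) :=
      congrArg (fun v : E3 => v 2) e
    obtain ⟨f1, k, f2⟩ := tau_fiber _ _ _ _ x1 x2 y1 y2 (mul_left_cancel₀ ha.ne' c0)
      (mul_left_cancel₀ hb.ne' c1) (mul_left_cancel₀ hb.ne' c2)
    have f3 := ST_inj C x y k f2 f1
    have hxB := ((tn_mem C x).1 hx0).1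
    rw [f3] at hyB
    have f4 := unique_W C x hxB hg hgw k hyB
    rw [f3, f4]
    simp
  · -- pieces
    let piece : (ℤ × ℤ) × ℤ × ℤ → Set ℂ := fun c =>
      (sq c.1.1 c.1.2 ∩ stripS C) ∩ ({z | (c.2.1 : ℝ) ≤ SS C z ∧ SS C z ≤ c.2.1 + 1} ∩
        {z | (c.2.2 : ℝ) ≤ SS C z + tt C z ∧ SS C z + tt C z ≤ c.2.2 + 1})
    let I : Finset ((ℤ × ℤ) × ℤ × ℤ) :=
      S ×ˢ (Finset.Icc (-(R : ℤ)) R ×ˢ Finset.Icc (-(R : ℤ)) (R + 1))
    refine ⟨I.image piece, ?_, ?_⟩
    · intro t ht
      obtain ⟨c, hc, rfl⟩ := Finset.mem_image.1 ht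
      have hc1 : c.1 ∈ S := (Finset.mem_product.1 hc).1
      have hsub : piece c ⊆ PP C := by
        rintro z ⟨hz, -⟩
        rw [hPP]
        simp only [Set.mem_iUnion]
        exact ⟨c.1, hc1, hz⟩
      refine ⟨?_, ?_, ?_⟩
      · apply IsClosed.inter ((sq_closed _ _).inter (strip_convex C).2)
        apply IsClosed.inter
        · exact (isClosed_le continuous_const hcS).inter (isClosed_le hcS continuous_const)
        · exact (isClosed_le continuous_const (hcS.add hct)).inter
            (isClosed_le (hcS.add hct) continuous_const)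
      · apply Convex.inter ((sq_convex _ _).inter (strip_convex C).1)
        apply Convex.inter
        · exact tn_convex _ (fun z w s t h => tn_SS_aff C z w s t h) _ _
        · exact tn_convex (fun z => SS C z + tt C z) (fun z w s t h => by
            show SS C _ + tt C _ = s * (SS C z + tt C z) + t * (SS C w + tt C w)
            rw [tn_SS_aff C z w s t h, tn_tt_aff C z w s t h]; ring) _ _
      · intro x hx y hy
        obtain ⟨-, x1, x2⟩ := (tn_mem C x).1 (hsub hx)
        obtain ⟨-, y1, y2⟩ := (tn_mem C y).1 (hsub hy)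
        obtain ⟨-, x3, x4⟩ := hx
        obtain ⟨-, y3, y4⟩ := hy
        apply foldT_dist C x y 0 c.2.1 c.2.2 _ _ x3 y3 x4 y4
        · push_cast
          exact ⟨x1, by linarith⟩
        · push_cast
          exact ⟨y1, by linarith⟩
    · ext z
      constructor
      · intro hz
        have hz' := hz
        rw [hPP] at hz'
        simp only [Set.mem_iUnion] at hz'
        obtain ⟨c, hc, hzc⟩ := hz'
        obtain ⟨-, z1, z2⟩ := (tn_mem C z).1 hz
        have hb := abs_le.1 (hR z hz)
        simp only [Set.mem_iUnion, Finset.mem_image, exists_prop]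
        refine ⟨piece (c, ⌊SS C z⌋, ⌊SS C z + tt C z⌋), ⟨_, ?_, rfl⟩, hzc, ?_, ?_⟩
        · refine Finset.mem_product.2 ⟨hc, Finset.mem_product.2 ⟨?_, ?_⟩⟩
          · rw [Finset.mem_Icc]
            constructor
            · apply Int.le_floor.2
              push_cast
              exact hb.1
            · have : (⌊SS C z⌋ : ℝ) ≤ R := le_trans (Int.floor_le _) hb.2
              exact_mod_cast this
          · rw [Finset.mem_Icc]
            constructor
            · apply Int.le_floor.2
              push_cast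
              linarith [hb.1]
            · have : (⌊SS C z + tt C z⌋ : ℝ) ≤ R + 1 :=
                le_trans (Int.floor_le _) (by linarith [hb.2])
              exact_mod_cast this
        · exact ⟨Int.floor_le _, (Int.lt_floor_add_one _).le⟩
        · exact ⟨Int.floor_le _, (Int.lt_floor_add_one _).le⟩
      · intro hz
        simp only [Set.mem_iUnion, Finset.mem_image, exists_prop] at hz
        obtain ⟨t, ⟨c, hc, rfl⟩, hz⟩ := hz
        have hc1 : c.1 ∈ S := (Finset.mem_product.1 hc).1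
        rw [hPP]
        simp only [Set.mem_iUnion]
        exact ⟨c.1, hc1, hz.1⟩

end H70Net
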