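import Pool.Agent.H70.Net.CubeNet
import Pool.Agent.H70.Net.TetNet
import Pool.Agent.H70.Net.Scale
import Pool.Agent.H70.Net.CurveNear

/-!
MP_77daaf_co, module `Final` : the theorem.

PROOF.  Let `C` be a curve, `r = 1/(2q)`, `P = r · PP C`.
* cube: `net_scale` with `w = (1/2,1/2,1/2)`; `(fun x => r • x + w) '' surfQ q = cubeSurface`
  (`cubeSurface_eq`; `|x_i| ≤ q ↔ 0 ≤ x_i/(2q) + 1/2 ≤ 1`).
* tetrahedron: `V i = r • tetV (al C) (be C) i`, `tetSurface_scale`, `tetramono_scale`, `tet_tetra`.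
  Edges (`tet_dist`, `dist (r • x) (r • y) = r * dist x y`): with `y = p/q`, `Ω = (7-y)² + 9 = om/q²`:
   `r * 2 √(2 β²) = √Ω/4`  (`β² = om/32`), `r * 2 √(α² + β²) = √(Ω/64 + 144/Ω)`
   (`α² + β² = 144 q⁴/om + om/64`).
* Both are continuous functions of `y`, equal to `√(2√3)` at `y* = 7 - √(32√3 - 9)` (`Ω = 32√3`:
  `√(32√3)/4 = √(2√3)`, `Ω/64 + 144/Ω = √3/2 + 3√3/2 = 2√3`).  So for `ε > 0` there is `δ > 0` with both
  within `ε` for `|y - y*| < δ`; `exists_curve_near`.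
-/

namespace H70Net

private theorem final_sqrt3 : (√3 : ℝ) * √3 = 3 := Real.mul_self_sqrt (by norm_num)

private theorem final_sqrt3_gt : (1.7 : ℝ) < √3 := by
  rw [show (1.7 : ℝ) = √(1.7 ^ 2) by rw [Real.sqrt_sq (by norm_num)]]
  exact Real.sqrt_lt_sqrt (by norm_num) (by norm_num)

private theorem final_om_star : (7 - (7 - √(32 * √3 - 9))) ^ 2 + 9 = 32 * √3 := by
  have h : (0 : ℝ) ≤ 32 * √3 - 9 := by have := final_sqrt3_gt; linarith
  have := Real.sq_sqrt h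
  ring_nf at this ⊢
  linarith

theorem edge_limit (ε : ℝ) (hε : 0 < ε) : ∃ δ > 0, ∀ y : ℝ,
    |y - (7 - √(32 * √3 - 9))| < δ →
      |√((7 - y) ^ 2 + 9) / 4 - √(2 * √3)| ≤ ε ∧
      |√(((7 - y) ^ 2 + 9) / 64 + 144 / ((7 - y) ^ 2 + 9)) - √(2 * √3)| ≤ ε := by
  have hpos : ∀ y : ℝ, (7 - y) ^ 2 + 9 ≠ 0 := fun y => by positivity
  have c1 : Continuous fun y : ℝ => √((7 - y) ^ 2 + 9) / 4 := by fun_prop
  have c2 : Continuous fun y : ℝ => √(((7 - y) ^ 2 + 9) / 64 + 144 / ((7 - y) ^ 2 + 9)) := by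
    apply Continuous.sqrt
    apply Continuous.add (by fun_prop)
    exact continuous_const.div (by fun_prop) hpos
  have h3 := final_sqrt3
  have h3' := final_sqrt3_gt
  have v1 : √((7 - (7 - √(32 * √3 - 9))) ^ 2 + 9) / 4 = √(2 * √3) := by
    rw [final_om_star, show (32 * √3 : ℝ) = 4 ^ 2 * (2 * √3) by ring, Real.sqrt_mul (by norm_num),
      Real.sqrt_sq (by norm_num)]
    ring
  have v2 : √(((7 - (7 - √(32 * √3 - 9))) ^ 2 + 9) / 64 +
      144 / ((7 - (7 - √(32 * √3 - 9))) ^ 2 + 9)) = √(2 * √3) := by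
    rw [final_om_star]
    congr 1
    have : (32 * √3 : ℝ) ≠ 0 := by positivity
    field_simp
    nlinarith
  obtain ⟨δ1, hδ1, H1⟩ := Metric.continuous_iff.mp c1 (7 - √(32 * √3 - 9)) ε hε
  obtain ⟨δ2, hδ2, H2⟩ := Metric.continuous_iff.mp c2 (7 - √(32 * √3 - 9)) ε hε
  refine ⟨min δ1 δ2, lt_min hδ1 hδ2, fun y hy => ⟨?_, ?_⟩⟩
  · have := H1 y (by rw [Real.dist_eq]; exact lt_of_lt_of_le hy (min_le_left _ _))
    rw [Real.dist_eq, v1] at this
    exact this.le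
  · have := H2 y (by rw [Real.dist_eq]; exact lt_of_lt_of_le hy (min_le_right _ _))
    rw [Real.dist_eq, v2] at this
    exact this.le

theorem edges_C (C : Curve) (i j : Fin 4) (hij : i ≠ j) :
    dist ((1 / (2 * (C.q : ℝ))) • tetV (al C) (be C) i) ((1 / (2 * (C.q : ℝ))) • tetV (al C) (be C) j)
        = √((7 - (C.p : ℝ) / C.q) ^ 2 + 9) / 4 ∨
    dist ((1 / (2 * (C.q : ℝ))) • tetV (al C) (be C) i) ((1 / (2 * (C.q : ℝ))) • tetV (al C) (be C) j)
        = √(((7 - (C.p : ℝ) / C.q) ^ 2 + 9) / 64 + 144 / ((7 - (C.p : ℝ) / C.q) ^ 2 + 9)) := by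
  have hq : (0 : ℝ) < C.q := by exact_mod_cast C_q_pos C
  have hr : (0 : ℝ) < 1 / (2 * (C.q : ℝ)) := by positivity
  obtain ⟨-, -, ha, hb⟩ := al_pos C
  have hom : om C = ((7 - (C.p : ℝ) / C.q) ^ 2 + 9) * C.q ^ 2 := by
    unfold om; field_simp
  have hO : 0 < (7 - (C.p : ℝ) / C.q) ^ 2 + 9 := by positivity
  have key : ∀ (a b : ℝ), 0 ≤ a → 1 / (2 * (C.q : ℝ)) * (2 * √a) = √b ∨ a ≠ b * C.q ^ 2 := by
    intro a b ha
    by_cases h : a = b * C.q ^ 2
    · left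
      rw [h, Real.sqrt_mul' _ (by positivity), Real.sqrt_sq hq.le]
      field_simp
    · right; exact h
  rcases tet_dist (al C) (be C) i j hij with h | h
  · left
    rw [dist_smul₀, h, Real.norm_of_nonneg hr.le]
    have h2 : √((7 - (C.p : ℝ) / C.q) ^ 2 + 9) / 4 = √(((7 - (C.p : ℝ) / C.q) ^ 2 + 9) / 16) := by
      rw [Real.sqrt_div' _ (by norm_num), show (16 : ℝ) = 4 ^ 2 by norm_num,
        Real.sqrt_sq (by norm_num)]
    rw [h2]
    rcases key (2 * be C ^ 2) (((7 - (C.p : ℝ) / C.q) ^ 2 + 9) / 16) (by positivity) with h' | h'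
    · exact h'
    · exact absurd (by rw [hb, hom]; ring) h'
  · right
    rw [dist_smul₀, h, Real.norm_of_nonneg hr.le]
    rcases key (al C ^ 2 + be C ^ 2)
      (((7 - (C.p : ℝ) / C.q) ^ 2 + 9) / 64 + 144 / ((7 - (C.p : ℝ) / C.q) ^ 2 + 9))
      (by positivity) with h' | h'
    · exact h'
    · refine absurd ?_ h'
      rw [ha, hb, hom]
      have := hO.ne'
      field_simp
      ring

theorem surfQ_scale (q : ℤ) (hq : 0 < q) :
    (fun x : E3 => (1 / (2 * (q : ℝ))) • x + !₂[(1 / 2 : ℝ), 1 / 2, 1 / 2]) '' surfQ q =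
      cubeSurface := by
  have hq' : (0 : ℝ) < q := by exact_mod_cast hq
  rw [cubeSurface_eq]
  have comp : ∀ (x : E3) (i : Fin 3),
      ((1 / (2 * (q : ℝ))) • x + !₂[(1 / 2 : ℝ), 1 / 2, 1 / 2]) i = x i / (2 * q) + 1 / 2 := by
    intro x i
    fin_cases i <;> simp <;> ring
  ext y
  constructor
  · rintro ⟨x, ⟨hx1, j, hx2⟩, rfl⟩
    refine ⟨fun i => ?_, j, ?_⟩
    · have := abs_le.mp (hx1 i)
      beta_reduce
      rw [comp]
      constructor
      · rw [div_add_div _ _ (by positivity) (by norm_num)]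
        apply div_nonneg _ (by positivity)
        linarith [this.1]
      · rw [div_add_div _ _ (by positivity) (by norm_num), div_le_one (by positivity)]
        linarith [this.2]
    · beta_reduce
      rw [comp]
      rcases abs_choice (x j) with h | h
      · right
        rw [h] at hx2
        rw [hx2]; field_simp; norm_num
      · left
        rw [h] at hx2
        have : x j = -q := by linarith
        rw [this]; field_simp; norm_num
  · rintro ⟨hy1, j, hy2⟩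
    refine ⟨(2 * (q : ℝ)) • (y - !₂[(1 / 2 : ℝ), 1 / 2, 1 / 2]), ⟨fun i => ?_, j, ?_⟩, ?_⟩
    · have e : ((2 * (q : ℝ)) • (y - !₂[(1 / 2 : ℝ), 1 / 2, 1 / 2])) i = 2 * q * (y i - 1 / 2) := by
        fin_cases i <;> simp
      rw [e, abs_le]
      have := hy1 i
      constructor <;> nlinarith [this.1, this.2]
    · have e : ((2 * (q : ℝ)) • (y - !₂[(1 / 2 : ℝ), 1 / 2, 1 / 2])) j = 2 * q * (y j - 1 / 2) := by
        fin_cases j <;> simp
      rw [e]
      rcases hy2 with h | h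
      · rw [h, show (2 * (q : ℝ) * (0 - 1 / 2)) = -q by ring, abs_neg, abs_of_pos hq']
      · rw [h, show (2 * (q : ℝ) * (1 - 1 / 2)) = q by ring, abs_of_pos hq']
    · beta_reduce
      rw [smul_smul, show 1 / (2 * (q : ℝ)) * (2 * q) = 1 by field_simp, one_smul, sub_add_cancel]

theorem common_net (ε : ℝ) (hε : 0 < ε) :
    ∃ V : Fin 4 → E3, IsTetramonohedron V ∧ AlmostRegular ε V ∧
      ∃ P : Set ℂ, IsNet P cubeSurface ∧ IsNet P (tetSurface V) := by
  obtain ⟨δ, hδ, H⟩ := edge_limit ε hε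
  obtain ⟨C, hC⟩ := exists_curve_near δ hδ
  have hq : (0 : ℝ) < C.q := by exact_mod_cast C_q_pos C
  have hr : (0 : ℝ) < 1 / (2 * (C.q : ℝ)) := by positivity
  obtain ⟨ha, hb, -, -⟩ := al_pos C
  obtain ⟨H1, H2⟩ := H _ hC
  refine ⟨fun i => (1 / (2 * (C.q : ℝ))) • tetV (al C) (be C) i,
    tetramono_scale _ (tet_tetra _ _ ha hb) _ hr, ?_,
    (fun z : ℂ => ((1 / (2 * (C.q : ℝ)) : ℝ) : ℂ) * z) '' PP C, ?_, ?_⟩
  · intro i j hij
    rcases edges_C C i j hij with h | h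
    · rw [h]; exact H1
    · rw [h]; exact H2
  · have := net_scale (PP C) (surfQ C.q) (cube_net C) _ hr !₂[(1 / 2 : ℝ), 1 / 2, 1 / 2]
    rwa [surfQ_scale C.q (C_q_pos C)] at this
  · have := net_scale (PP C) _ (tet_net C) _ hr 0
    rwa [← tetSurface_scale _ _ hr] at this

end H70Net
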