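import Pool.Agent.H70.Net.Band

/-!
MP_77daaf_co, module `Geo` : plane regions.  Lattice units (vertex `v i = vx i + vy i * I`).

`sq cx cy` : the closed unit square with centre `(cx/2, cy/2)`.
`Bel`, `Abo` : union of the cells below / above the curve; `Gam` : the curve; `Ws = W = (7q-p) + 3q I`;
`sf z = 3 q x - (7q-p) y` (so `sf W = 0`, `sf (8q) = 24 q²`); `BandR` : union of the band cells;
`PP` : the polygon, `BandR` between the lines `sf = σ` and `sf = σ + 24 q²`.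
-/

namespace H70Net

open Complex

def sq (cx cy : ℤ) : Set ℂ := {z | |2 * z.re - cx| ≤ 1 ∧ |2 * z.im - cy| ≤ 1}

noncomputable def vc (C : Curve) (i : ℤ) : ℂ := ⟨(C.vx i : ℝ), (C.vy i : ℝ)⟩

def Bel (C : Curve) : Set ℂ :=
  {z | ∃ cx cy : ℤ, cx % 2 = 1 ∧ cy % 2 = 1 ∧ total C cx cy = 1 ∧ z ∈ sq cx cy}

def Abo (C : Curve) : Set ℂ :=
  {z | ∃ cx cy : ℤ, cx % 2 = 1 ∧ cy % 2 = 1 ∧ total C cx cy = 0 ∧ z ∈ sq cx cy}

def Gam (C : Curve) : Set ℂ := {z | ∃ i : ℤ, z ∈ segment ℝ (vc C i) (vc C (i + 1))}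

noncomputable def Ws (C : Curve) : ℂ := ⟨7 * C.q - C.p, 3 * C.q⟩

def sf (C : Curve) (z : ℂ) : ℝ := 3 * C.q * z.re - (7 * C.q - C.p) * z.im

def BandR (C : Curve) : Set ℂ := {z | ∃ cx cy : ℤ, Band C cx cy ∧ z ∈ sq cx cy}

def PP (C : Curve) : Set ℂ := {z | z ∈ BandR C ∧ C.σ ≤ sf C z ∧ sf C z ≤ C.σ + 24 * C.q ^ 2}

/-- `BandR` in terms of `Bel` and `Abo`.
PROOF: `⊆`: `z ∈ sq c`, `z + W ∈ sq (c + 2W)`.  `⊇`: `z ∈ sq c1`, `total c1 = 1`, `z + W ∈ sq c2`,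
`total c2 = 0`.  If `c1.y ≥ -4q` take `c = c1`: `total (c1 + 2W) = 0` by `total_above`
(`c1.y + 6q ≥ 2q > p`).  If `c1.y < -4q` take `c = c2 - 2W`: `z ∈ sq c`, `c.y ≤ 2 Im z + 1 ≤ c1.y + 2
< -2q - p`, so `total c = 1` by `total_below`. -/
theorem BandR_eq (C : Curve) : BandR C = {z | z ∈ Bel C ∧ z + Ws C ∈ Abo C} := by
  have hp := C.hp
  have hpq := C.hpq
  have hsq : ∀ (z : ℂ) (x y : ℤ),
      z + Ws C ∈ sq (x + 2 * (7 * C.q - C.p)) (y + 6 * C.q) ↔ z ∈ sq x y := by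
    intro z x y
    have e1 : 2 * (z + Ws C).re - ((x + 2 * (7 * C.q - C.p) : ℤ) : ℝ) = 2 * z.re - x := by
      simp [Ws]
      ring
    have e2 : 2 * (z + Ws C).im - ((y + 6 * C.q : ℤ) : ℝ) = 2 * z.im - y := by
      simp [Ws]
      ring
    unfold sq
    rw [Set.mem_ofPred_eq, Set.mem_ofPred_eq, e1, e2]
  ext z
  constructor
  · rintro ⟨cx, cy, ⟨h1, h2, h3, h4⟩, hz⟩
    exact ⟨⟨cx, cy, h1, h2, h3, hz⟩, cx + 2 * (7 * C.q - C.p), cy + 6 * C.q, by omega, by omega,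
      h4, (hsq z cx cy).2 hz⟩
  · rintro ⟨⟨x1, y1, h1, h2, h3, hz1⟩, x2, y2, h4, h5, h6, hz2⟩
    rcases le_or_gt (-4 * C.q) y1 with hy | hy
    · exact ⟨x1, y1, ⟨h1, h2, h3, total_above C _ _ (by omega)⟩, hz1⟩
    · have e1 : x2 - 2 * (7 * C.q - C.p) + 2 * (7 * C.q - C.p) = x2 := by ring
      have e2 : y2 - 6 * C.q + 6 * C.q = y2 := by ring
      have hz : z ∈ sq (x2 - 2 * (7 * C.q - C.p)) (y2 - 6 * C.q) := by
        rw [← hsq, e1, e2]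
        exact hz2
      have hy2 : y2 - 6 * C.q ≤ y1 + 2 := by
        have a1 := hz.2
        have a2 := hz1.2
        rw [abs_le] at a1 a2
        have : ((y2 - 6 * C.q : ℤ) : ℝ) ≤ ((y1 + 2 : ℤ) : ℝ) := by
          push_cast at a1 ⊢
          linarith [a1.1, a1.2, a2.1, a2.2]
        exact_mod_cast this
      refine ⟨x2 - 2 * (7 * C.q - C.p), y2 - 6 * C.q, ⟨by omega, by omega, ?_, ?_⟩, hz⟩
      · exact total_below C _ _ (by omega) (by omega)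
      · rw [e1, e2]
        exact h6

end H70Net
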