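import Pool.Agent.H70.Net.BandBij
import Pool.Agent.H70.Net.Geo
import Pool.Agent.H70.Net.Defs

/-!
MP_77daaf_co, module `Fr` : the real folding map on a cell.  Lattice units; the cube is `[-q,q]^3`.

`fr C cx cy z = mb/2 + (x - cx/2) hb(1,0) + (y - cy/2) hb(0,1)`.
`SqS q m` = the closed unit square of the surface with centre `m/2`.

PROOFS.
* `fr_dist`: `hb 1 0`, `hb 0 1` are orthogonal unit vectors (`hb_perp`); compute with
  `EuclideanSpace.dist_eq`, `Fin.sum_univ_three` (36 combinations of unit vectors, or use the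
  abstract identities `dot3`).
* `fr_mem`: for a band cell: `z ∈ sq c ↔ fr z ∈ SqS (mb c)`: the two headings are the two tangential
  coordinate directions up to sign and order (`hb_tan`: `dot3 h (nu m) = 0`, `isUnit3`), so the
  two tangential coordinates of `2 fr z - m` are `± (2x - cx)`, `± (2y - cy)` in some order.
* `fr_onto`: every point of `SqS (mb c)` is `fr z` with `z ∈ sq c`.
* `fr_edge`: `c`, `c2 = c + 2(a,b)` band cells, `z` in both squares (so `a (2x - cx) + b (2y - cy) = 1`):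
  by `band_adj`: `hb c2 = tr (hb c)`, `mb c2 = surfadv (mb c) (hb c a b)`.  If `inBox`: same headings,
  `mb c2 = mb c + 2 h`.  Otherwise `h = hb c a b` becomes `-nu`, the perpendicular heading is unchanged,
  `mb c2 = mb c + h - nu`: with `z = c/2 + (a,b)/2 + t (-b,a)`: `fr c z = m/2 + h/2 + t h⊥`,
  `fr c2 z = (m + h - nu)/2 + nu/2 + t h⊥`.
* `fr_agree`: `c, c'` band cells with a common point `z`: `c' - c ∈ {-2,0,2}²`.  Same cell, or neighbours:
  `fr_edge`.  Diagonal: `z` is the common vertex; one of the two other cells at this vertex is a band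
  cell (`no_cross`), apply `fr_edge` twice.
* `no_cross`: let `(X,Y)` be even, `c = (X+1,Y+1)`, `c' = (X-1,Y-1)` band cells, `d = (X+1,Y-1)`,
  `d' = (X-1,Y+1)`; claim: `d` or `d'` is a band cell (and the same with the roles exchanged).
  If `total d = 0` and `total d' = 0` then the four edges at the vertex are edges of the
  curve (`edge_of_ne_*`), impossible: let `i` be the index of the edge `(X+1, Y)`; its end point
  `(X/2, Y/2)` is `v i` or `v (i+1)`; with `edge_at` at this index, only two of the four edges are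
  possible.  If `total d = 1` but `d` is not a band cell then `total (d + 2W) = 1`; similarly for `d'`.
  So in the bad case: `Y` is high (`Y > -3q`, say): then all `total (· + 2W) = 0` (`total_above`), so
  `total d = total d' = 0`: impossible.  `Y` low (`Y < -3q`... `≤ -2q-p-2`): all `total = 1`
  (`total_below`), so `total (d+2W) = total (d' + 2W) = 1` while `total (c + 2W) = total (c'+2W) = 0`:
  impossible by the same argument for the vertex `(X,Y) + 2W`.
-/

namespace H70Net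

open Complex

noncomputable def toE (m : ℤ × ℤ × ℤ) : E3 := !₂[(m.1 : ℝ), (m.2.1 : ℝ), (m.2.2 : ℝ)]

noncomputable def fr (C : Curve) (cx cy : ℤ) (z : ℂ) : E3 :=
  (1 / 2 : ℝ) • toE (mb C cx cy) + (z.re - cx / 2) • toE (hb C cx cy 1 0) +
    (z.im - cy / 2) • toE (hb C cx cy 0 1)

def SqS (q : ℤ) (m : ℤ × ℤ × ℤ) : Set E3 :=
  {x | |2 * x 0 - m.1| ≤ 1 - |(sgq q m.1 : ℝ)| ∧ |2 * x 1 - m.2.1| ≤ 1 - |(sgq q m.2.1 : ℝ)| ∧
    |2 * x 2 - m.2.2| ≤ 1 - |(sgq q m.2.2 : ℝ)|}

private theorem Fr_apply (C : Curve) (cx cy : ℤ) (z : ℂ) :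
    fr C cx cy z 0 = ((mb C cx cy).1 : ℝ) / 2 + (z.re - cx / 2) * ((hb C cx cy 1 0).1 : ℝ) +
      (z.im - cy / 2) * ((hb C cx cy 0 1).1 : ℝ) ∧
    fr C cx cy z 1 = ((mb C cx cy).2.1 : ℝ) / 2 + (z.re - cx / 2) * ((hb C cx cy 1 0).2.1 : ℝ) +
      (z.im - cy / 2) * ((hb C cx cy 0 1).2.1 : ℝ) ∧
    fr C cx cy z 2 = ((mb C cx cy).2.2 : ℝ) / 2 + (z.re - cx / 2) * ((hb C cx cy 1 0).2.2 : ℝ) +
      (z.im - cy / 2) * ((hb C cx cy 0 1).2.2 : ℝ) := by
  refine ⟨?_, ?_, ?_⟩ <;> simp [fr, toE] <;> ring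

private theorem Fr_ne (u w : ℤ × ℤ × ℤ) (hu : isUnit3 u) (hw : isUnit3 w) (h : dot3 u w = 0) :
    u ≠ -u ∧ w ≠ -w ∧ w ≠ u ∧ w ≠ -u ∧ u ≠ w ∧ u ≠ -w := by
  rcases hu with rfl | rfl | rfl | rfl | rfl | rfl <;>
    rcases hw with rfl | rfl | rfl | rfl | rfl | rfl <;>
    first
      | (exfalso; revert h; simp [dot3]; done)
      | (refine ⟨?_, ?_, ?_, ?_, ?_, ?_⟩ <;> simp)

private theorem Fr_sq (u w : ℤ × ℤ × ℤ) (hu : isUnit3 u) (hw : isUnit3 w) (h : dot3 u w = 0)
    (S T : ℝ) : (S * (u.1 : ℝ) + T * (w.1 : ℝ)) ^ 2 + (S * (u.2.1 : ℝ) + T * (w.2.1 : ℝ)) ^ 2 +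
      (S * (u.2.2 : ℝ) + T * (w.2.2 : ℝ)) ^ 2 = S ^ 2 + T ^ 2 := by
  rcases hu with rfl | rfl | rfl | rfl | rfl | rfl <;>
    rcases hw with rfl | rfl | rfl | rfl | rfl | rfl <;>
    first
      | (exfalso; revert h; simp [dot3]; done)
      | (simp; done)
      | (simp; ring)

private theorem Fr_mem (u w n : ℤ × ℤ × ℤ) (hu : isUnit3 u) (hw : isUnit3 w) (hn : isUnit3 n)
    (h1 : dot3 u w = 0) (h2 : dot3 u n = 0) (h3 : dot3 w n = 0) (S T : ℝ) :
    (|S| ≤ 1 ∧ |T| ≤ 1) ↔ (|S * (u.1 : ℝ) + T * (w.1 : ℝ)| ≤ 1 - |(n.1 : ℝ)| ∧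
      |S * (u.2.1 : ℝ) + T * (w.2.1 : ℝ)| ≤ 1 - |(n.2.1 : ℝ)| ∧
      |S * (u.2.2 : ℝ) + T * (w.2.2 : ℝ)| ≤ 1 - |(n.2.2 : ℝ)|) := by
  rcases hu with rfl | rfl | rfl | rfl | rfl | rfl <;>
    rcases hw with rfl | rfl | rfl | rfl | rfl | rfl <;>
    first
      | (exfalso; revert h1; simp [dot3]; done)
      | (rcases hn with rfl | rfl | rfl | rfl | rfl | rfl <;>
          first
            | (exfalso; revert h2; simp [dot3]; done)
            | (exfalso; revert h3; simp [dot3]; done)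
            | (simp; done)
            | (simp [and_comm]; done))

private theorem Fr_onto (u w n : ℤ × ℤ × ℤ) (hu : isUnit3 u) (hw : isUnit3 w) (hn : isUnit3 n)
    (h1 : dot3 u w = 0) (h2 : dot3 u n = 0) (h3 : dot3 w n = 0) (y0 y1 y2 : ℝ)
    (e0 : |y0| ≤ 1 - |(n.1 : ℝ)|) (e1 : |y1| ≤ 1 - |(n.2.1 : ℝ)|) (e2 : |y2| ≤ 1 - |(n.2.2 : ℝ)|) :
    (y0 * u.1 + y1 * u.2.1 + y2 * u.2.2) * (u.1 : ℝ) +
      (y0 * w.1 + y1 * w.2.1 + y2 * w.2.2) * (w.1 : ℝ) = y0 ∧
    (y0 * u.1 + y1 * u.2.1 + y2 * u.2.2) * (u.2.1 : ℝ) +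
      (y0 * w.1 + y1 * w.2.1 + y2 * w.2.2) * (w.2.1 : ℝ) = y1 ∧
    (y0 * u.1 + y1 * u.2.1 + y2 * u.2.2) * (u.2.2 : ℝ) +
      (y0 * w.1 + y1 * w.2.1 + y2 * w.2.2) * (w.2.2 : ℝ) = y2 := by
  rcases hn with rfl | rfl | rfl | rfl | rfl | rfl
  · have : y0 = 0 := by simpa using e0
    subst this
    rcases hu with rfl | rfl | rfl | rfl | rfl | rfl <;>
    rcases hw with rfl | rfl | rfl | rfl | rfl | rfl <;>
    first
      | (exfalso; revert h1; simp [dot3]; done)
      | (exfalso; revert h2; simp [dot3]; done)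
      | (exfalso; revert h3; simp [dot3]; done)
      | (simp; done)
  · have : y0 = 0 := by simpa using e0
    subst this
    rcases hu with rfl | rfl | rfl | rfl | rfl | rfl <;>
    rcases hw with rfl | rfl | rfl | rfl | rfl | rfl <;>
    first
      | (exfalso; revert h1; simp [dot3]; done)
      | (exfalso; revert h2; simp [dot3]; done)
      | (exfalso; revert h3; simp [dot3]; done)
      | (simp; done)
  · have : y1 = 0 := by simpa using e1
    subst this
    rcases hu with rfl | rfl | rfl | rfl | rfl | rfl <;>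
    rcases hw with rfl | rfl | rfl | rfl | rfl | rfl <;>
    first
      | (exfalso; revert h1; simp [dot3]; done)
      | (exfalso; revert h2; simp [dot3]; done)
      | (exfalso; revert h3; simp [dot3]; done)
      | (simp; done)
  · have : y1 = 0 := by simpa using e1
    subst this
    rcases hu with rfl | rfl | rfl | rfl | rfl | rfl <;>
    rcases hw with rfl | rfl | rfl | rfl | rfl | rfl <;>
    first
      | (exfalso; revert h1; simp [dot3]; done)
      | (exfalso; revert h2; simp [dot3]; done)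
      | (exfalso; revert h3; simp [dot3]; done)
      | (simp; done)
  · have : y2 = 0 := by simpa using e2
    subst this
    rcases hu with rfl | rfl | rfl | rfl | rfl | rfl <;>
    rcases hw with rfl | rfl | rfl | rfl | rfl | rfl <;>
    first
      | (exfalso; revert h1; simp [dot3]; done)
      | (exfalso; revert h2; simp [dot3]; done)
      | (exfalso; revert h3; simp [dot3]; done)
      | (simp; done)
  · have : y2 = 0 := by simpa using e2
    subst this
    rcases hu with rfl | rfl | rfl | rfl | rfl | rfl <;>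
    rcases hw with rfl | rfl | rfl | rfl | rfl | rfl <;>
    first
      | (exfalso; revert h1; simp [dot3]; done)
      | (exfalso; revert h2; simp [dot3]; done)
      | (exfalso; revert h3; simp [dot3]; done)
      | (simp; done)

private theorem Fr_nu (q : ℤ) (hq : 0 < q) (m : ℤ × ℤ × ℤ) (h : isSC q m) : isUnit3 (nu q m) := by
  obtain ⟨x, y, z⟩ := m
  unfold isSC at h
  unfold isUnit3 nu
  simp only at h ⊢
  have h0 : ∀ t : ℤ, t % 2 = 1 → sgq q t = 0 := fun t ht => Surf_sgq_zero ht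
  have h1 : sgq q (2 * q) = 1 := Surf_sgq_pos rfl
  have h2 : sgq q (-2 * q) = -1 := by
    unfold sgq
    rw [if_neg (by omega), if_pos rfl]
  rcases h with ⟨h, hy, -, -, hz, -, -⟩ | ⟨h, hy, -, -, hz, -, -⟩ | ⟨h, hy, -, -, hz, -, -⟩ <;>
    rcases h with rfl | rfl <;> rw [h0 _ hy, h0 _ hz] <;> (first | rw [h1] | rw [h2]) <;> simp

theorem fr_dist (C : Curve) (cx cy : ℤ) (z w : ℂ) :
    dist (fr C cx cy z) (fr C cx cy w) = dist z w := by
  obtain ⟨h1, h2, h3⟩ := hb_perp C cx cy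
  obtain ⟨a0, a1, a2⟩ := Fr_apply C cx cy z
  obtain ⟨b0, b1, b2⟩ := Fr_apply C cx cy w
  rw [EuclideanSpace.dist_eq, Complex.dist_eq_re_im, Fin.sum_univ_three]
  congr 1
  rw [Real.dist_eq, Real.dist_eq, Real.dist_eq, sq_abs, sq_abs, sq_abs, a0, a1, a2, b0, b1, b2,
    ← Fr_sq (hb C cx cy 1 0) (hb C cx cy 0 1) h2 h3 h1 (z.re - w.re) (z.im - w.im)]
  ring

private theorem Fr_hyp (C : Curve) (cx cy : ℤ) (h : Band C cx cy) :
    isUnit3 (nu C.q (mb C cx cy)) ∧ dot3 (hb C cx cy 1 0) (nu C.q (mb C cx cy)) = 0 ∧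
      dot3 (hb C cx cy 0 1) (nu C.q (mb C cx cy)) = 0 := by
  have hq : 0 < C.q := C_q_pos C
  exact ⟨Fr_nu _ hq _ (mb_isSC C cx cy h), (hb_tan C cx cy 1 0 h (by norm_num)).2,
    (hb_tan C cx cy 0 1 h (by norm_num)).2⟩

theorem fr_mem (C : Curve) (cx cy : ℤ) (h : Band C cx cy) (z : ℂ) :
    z ∈ sq cx cy ↔ fr C cx cy z ∈ SqS C.q (mb C cx cy) := by
  obtain ⟨h1, h2, h3⟩ := hb_perp C cx cy
  obtain ⟨h4, h5, h6⟩ := Fr_hyp C cx cy h
  obtain ⟨a0, a1, a2⟩ := Fr_apply C cx cy z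
  have key := Fr_mem (hb C cx cy 1 0) (hb C cx cy 0 1) (nu C.q (mb C cx cy)) h2 h3 h4 h1 h5 h6
    (2 * z.re - cx) (2 * z.im - cy)
  have e0 : 2 * fr C cx cy z 0 - ((mb C cx cy).1 : ℝ) =
      (2 * z.re - cx) * ((hb C cx cy 1 0).1 : ℝ) + (2 * z.im - cy) * ((hb C cx cy 0 1).1 : ℝ) := by
    rw [a0]; ring
  have e1 : 2 * fr C cx cy z 1 - ((mb C cx cy).2.1 : ℝ) =
      (2 * z.re - cx) * ((hb C cx cy 1 0).2.1 : ℝ) +
        (2 * z.im - cy) * ((hb C cx cy 0 1).2.1 : ℝ) := by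
    rw [a1]; ring
  have e2 : 2 * fr C cx cy z 2 - ((mb C cx cy).2.2 : ℝ) =
      (2 * z.re - cx) * ((hb C cx cy 1 0).2.2 : ℝ) +
        (2 * z.im - cy) * ((hb C cx cy 0 1).2.2 : ℝ) := by
    rw [a2]; ring
  unfold sq SqS
  rw [Set.mem_ofPred_eq, Set.mem_ofPred_eq, e0, e1, e2]
  exact key

theorem fr_onto (C : Curve) (cx cy : ℤ) (h : Band C cx cy) (x : E3)
    (hx : x ∈ SqS C.q (mb C cx cy)) : ∃ z ∈ sq cx cy, fr C cx cy z = x := by
  obtain ⟨h1, h2, h3⟩ := hb_perp C cx cy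
  obtain ⟨h4, h5, h6⟩ := Fr_hyp C cx cy h
  have hx' := hx
  unfold SqS at hx'
  rw [Set.mem_ofPred_eq] at hx'
  obtain ⟨y0, y1, y2⟩ := hx'
  have key := Fr_onto (hb C cx cy 1 0) (hb C cx cy 0 1) (nu C.q (mb C cx cy)) h2 h3 h4 h1 h5 h6
    _ _ _ y0 y1 y2
  set u := hb C cx cy 1 0 with hu
  set w := hb C cx cy 0 1 with hw
  set m := mb C cx cy with hm
  set S : ℝ := (2 * x 0 - m.1) * u.1 + (2 * x 1 - m.2.1) * u.2.1 + (2 * x 2 - m.2.2) * u.2.2 with hS
  set T : ℝ := (2 * x 0 - m.1) * w.1 + (2 * x 1 - m.2.1) * w.2.1 + (2 * x 2 - m.2.2) * w.2.2 with hT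
  obtain ⟨k0, k1, k2⟩ := key
  have hz : fr C cx cy ⟨cx / 2 + S / 2, cy / 2 + T / 2⟩ = x := by
    obtain ⟨a0, a1, a2⟩ := Fr_apply C cx cy ⟨cx / 2 + S / 2, cy / 2 + T / 2⟩
    simp only at a0 a1 a2
    ext i
    fin_cases i
    · change fr C cx cy _ 0 = x 0
      rw [a0]
      linarith
    · change fr C cx cy _ 1 = x 1
      rw [a1]
      linarith
    · change fr C cx cy _ 2 = x 2
      rw [a2]
      linarith
  refine ⟨_, ?_, hz⟩
  rw [fr_mem C cx cy h, hz]
  exact hx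

theorem fr_shift (C : Curve) (cx cy k : ℤ) (z : ℂ) :
    fr C (cx + 16 * C.q * k) cy (z + 8 * C.q * k) = fr C cx cy z := by
  have e1 : (z + 8 * C.q * k).re - ((cx + 16 * C.q * k : ℤ) : ℝ) / 2 = z.re - cx / 2 := by
    have : (z + 8 * C.q * k).re = z.re + 8 * C.q * k := by simp
    rw [this]
    push_cast
    ring
  have e2 : (z + 8 * C.q * k).im = z.im := by simp
  unfold fr
  rw [(mb_shift C cx cy k 0 0).1, (mb_shift C cx cy k 1 0).2, (mb_shift C cx cy k 0 1).2, e1, e2]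

theorem fr_edge (C : Curve) (cx cy a b : ℤ) (hab : a * a + b * b = 1) (h : Band C cx cy)
    (h' : Band C (cx + 2 * a) (cy + 2 * b)) (z : ℂ) (hz : z ∈ sq cx cy)
    (hz' : z ∈ sq (cx + 2 * a) (cy + 2 * b)) :
    fr C (cx + 2 * a) (cy + 2 * b) z = fr C cx cy z := by
  obtain ⟨h1, h2, h3⟩ := hb_perp C cx cy
  obtain ⟨k1, k2⟩ := band_adj C cx cy a b hab h h'
  have k3 := k2 1 0 (by norm_num)
  have k4 := k2 0 1 (by norm_num)
  have hlin := hb_lin C cx cy a b
  obtain ⟨n1, n2, n3, n4, n5, n6⟩ := Fr_ne _ _ h2 h3 h1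
  obtain ⟨a0, a1, a2⟩ := Fr_apply C cx cy z
  obtain ⟨b0, b1, b2⟩ := Fr_apply C (cx + 2 * a) (cy + 2 * b) z
  rw [k1, k3, k4] at b0 b1 b2
  generalize fr C (cx + 2 * a) (cy + 2 * b) z = g at b0 b1 b2 ⊢
  unfold sq at hz hz'
  rw [Set.mem_ofPred_eq] at hz hz'
  obtain ⟨s1, s2⟩ := hz
  obtain ⟨s3, s4⟩ := hz'
  rw [abs_le] at s1 s2 s3 s4
  push_cast at s3 s4 b0 b1 b2
  set u := hb C cx cy 1 0 with hu
  set w := hb C cx cy 0 1 with hw
  set m := mb C cx cy with hm
  set q := C.q with hq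
  by_cases hbox : inBox q m (hb C cx cy a b)
  · unfold surfadv tr at b0 b1 b2
    simp only [if_pos hbox] at b0 b1 b2
    rw [hlin] at b0 b1 b2
    simp only [Prod.fst_add, Prod.snd_add, Prod.smul_fst, Prod.smul_snd, smul_eq_mul] at b0 b1 b2
    push_cast at b0 b1 b2
    ext i
    fin_cases i
    · change g 0 = fr C cx cy z 0
      rw [a0, b0]
      ring
    · change g 1 = fr C cx cy z 1
      rw [a1, b1]
      ring
    · change g 2 = fr C cx cy z 2
      rw [a2, b2]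
      ring
  · rcases Surf_unit hab with ⟨rfl, rfl⟩ | ⟨rfl, rfl⟩ | ⟨rfl, rfl⟩ | ⟨rfl, rfl⟩
    · have e : hb C cx cy 1 0 = u := rfl
      rw [e] at hbox b0 b1 b2
      unfold surfadv tr at b0 b1 b2
      simp only [if_neg hbox, if_true, if_neg n3, if_neg n4] at b0 b1 b2
      simp only [Prod.fst_neg, Prod.snd_neg] at b0 b1 b2
      push_cast at b0 b1 b2 s3
      have hs : z.re = cx / 2 + 1 / 2 := by linarith [s1.2, s3.1]
      ext i
      fin_cases i
      · change g 0 = fr C cx cy z 0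
        rw [a0, b0, hs]
        ring
      · change g 1 = fr C cx cy z 1
        rw [a1, b1, hs]
        ring
      · change g 2 = fr C cx cy z 2
        rw [a2, b2, hs]
        ring
    · have e : hb C cx cy (-1) 0 = -u := by rw [hlin]; simp
      rw [e] at hbox b0 b1 b2
      unfold surfadv tr at b0 b1 b2
      simp only [if_neg hbox, if_true, if_neg n1, if_neg n4, neg_neg, if_neg n3] at b0 b1 b2
      simp only [Prod.fst_neg, Prod.snd_neg] at b0 b1 b2
      push_cast at b0 b1 b2 s3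
      have hs : z.re = cx / 2 - 1 / 2 := by linarith [s1.1, s3.2]
      ext i
      fin_cases i
      · change g 0 = fr C cx cy z 0
        rw [a0, b0, hs]
        ring
      · change g 1 = fr C cx cy z 1
        rw [a1, b1, hs]
        ring
      · change g 2 = fr C cx cy z 2
        rw [a2, b2, hs]
        ring
    · have e : hb C cx cy 0 1 = w := rfl
      rw [e] at hbox b0 b1 b2
      unfold surfadv tr at b0 b1 b2
      simp only [if_neg hbox, if_true, if_neg n5, if_neg n6] at b0 b1 b2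
      simp only [Prod.fst_neg, Prod.snd_neg] at b0 b1 b2
      push_cast at b0 b1 b2 s4
      have hs : z.im = cy / 2 + 1 / 2 := by linarith [s2.2, s4.1]
      ext i
      fin_cases i
      · change g 0 = fr C cx cy z 0
        rw [a0, b0, hs]
        ring
      · change g 1 = fr C cx cy z 1
        rw [a1, b1, hs]
        ring
      · change g 2 = fr C cx cy z 2
        rw [a2, b2, hs]
        ring
    · have e : hb C cx cy 0 (-1) = -w := by rw [hlin]; simp
      rw [e] at hbox b0 b1 b2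
      unfold surfadv tr at b0 b1 b2
      simp only [if_neg hbox, if_true, if_neg n2, if_neg n6, neg_neg, if_neg n5] at b0 b1 b2
      simp only [Prod.fst_neg, Prod.snd_neg] at b0 b1 b2
      push_cast at b0 b1 b2 s4
      have hs : z.im = cy / 2 - 1 / 2 := by linarith [s2.1, s4.2]
      ext i
      fin_cases i
      · change g 0 = fr C cx cy z 0
        rw [a0, b0, hs]
        ring
      · change g 1 = fr C cx cy z 1
        rw [a1, b1, hs]
        ring
      · change g 2 = fr C cx cy z 2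
        rw [a2, b2, hs]
        ring

end H70Net
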