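import Pool.Agent.H70.Net.Fr

/-!
MP_77daaf_co, module `FrAgree` : the cell maps agree; the folding map.
PROOFS: see the header of module `Fr` (`no_cross`, `fr_agree`).
`foldC_eq`: by `fr_agree`.
-/

namespace H70Net

open Complex

/-- three of the four edges at a vertex cannot all be in the curve -/
private theorem fra_three (C : Curve) (X Y : ℤ) (hX : X % 2 = 0) (hY : Y % 2 = 0)
    (h1 : ∃ i, sx C i = X + 1 ∧ sy C i = Y) (h2 : ∃ i, sx C i = X - 1 ∧ sy C i = Y)
    (h3 : ∃ i, sx C i = X ∧ sy C i = Y + 1) : False := by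
  obtain ⟨i, hi1, hi2⟩ := h1
  obtain ⟨j, hj1, hj2⟩ := h2
  obtain ⟨k, hk1, hk2⟩ := h3
  have hm : ∃ m, 2 * C.vx m = X ∧ 2 * C.vy m = Y := by
    rcases C.step i with ⟨h4 | h4, h5⟩ | ⟨h4, h5 | h5⟩
    · exact ⟨i, by unfold sx at hi1; omega, by unfold sy at hi2; omega⟩
    · exact ⟨i + 1, by unfold sx at hi1; omega, by unfold sy at hi2; omega⟩
    · unfold sx at hi1; unfold sy at hi2; omega
    · unfold sx at hi1; unfold sy at hi2; omega
  obtain ⟨m, hm1, hm2⟩ := hm
  have e1 := edge_at C m i 1 0 (by norm_num) (by omega) (by omega)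
  have e2 := edge_at C m j (-1) 0 (by norm_num) (by omega) (by omega)
  have e3 := edge_at C m k 0 1 (by norm_num) (by omega) (by omega)
  rcases e1 with ⟨_, h4, h5⟩ | ⟨_, h4, h5⟩ <;> rcases e2 with ⟨_, h6, h7⟩ | ⟨_, h6, h7⟩ <;>
    rcases e3 with ⟨_, h8, h9⟩ | ⟨_, h8, h9⟩ <;> omega

/-- the values of `total` at a vertex do not alternate -/
private theorem fra_alt (C : Curve) (X Y e : ℤ) (hX : X % 2 = 0) (hY : Y % 2 = 0)
    (he : e = 1 ∨ e = -1) (h1 : total C (X + 1) (Y + e) = total C (X - 1) (Y - e))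
    (h2 : total C (X + 1) (Y - e) = total C (X - 1) (Y + e))
    (h3 : total C (X + 1) (Y + e) ≠ total C (X + 1) (Y - e)) : False := by
  have key : ∀ a b : ℤ, total C (X + 1) (Y + 1) = a → total C (X - 1) (Y - 1) = a →
      total C (X + 1) (Y - 1) = b → total C (X - 1) (Y + 1) = b → a ≠ b → False := by
    intro a b ha ha' hb hb' hab
    apply fra_three C X Y hX hY
    · obtain ⟨i, h4, h5⟩ := edge_of_ne_up C (X + 1) (Y - 1) (by omega) (by omega)
        (by rw [hb, show Y - 1 + 2 = Y + 1 by ring, ha]; exact hab.symm)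
      exact ⟨i, h4, by omega⟩
    · obtain ⟨i, h4, h5⟩ := edge_of_ne_up C (X - 1) (Y - 1) (by omega) (by omega)
        (by rw [ha', show Y - 1 + 2 = Y + 1 by ring, hb']; exact hab)
      exact ⟨i, h4, by omega⟩
    · obtain ⟨i, h4, h5⟩ := edge_of_ne_right C (X - 1) (Y + 1) (by omega) (by omega)
        (by rw [hb', show X - 1 + 2 = X + 1 by ring, ha]; exact hab.symm)
      exact ⟨i, by omega, h5⟩
  rcases he with rfl | rfl
  · exact key _ _ rfl h1.symm rfl h2.symm h3
  · rw [sub_neg_eq_add, ← sub_eq_add_neg] at h1 h2 h3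
    exact key _ _ rfl h2.symm rfl h1.symm (Ne.symm h3)

theorem no_cross (C : Curve) (X Y e : ℤ) (hX : X % 2 = 0) (hY : Y % 2 = 0) (he : e = 1 ∨ e = -1)
    (h : Band C (X + 1) (Y + e)) (h' : Band C (X - 1) (Y - e)) :
    Band C (X + 1) (Y - e) ∨ Band C (X - 1) (Y + e) := by
  by_contra hc
  rw [not_or] at hc
  obtain ⟨hd, hd'⟩ := hc
  have hp := C.hp
  have hpq := C.hpq
  obtain ⟨hc1, hc2, hc3, hc4⟩ := h
  obtain ⟨hc1', hc2', hc3', hc4'⟩ := h'
  have hod : (X + 1) % 2 = 1 ∧ (X - 1) % 2 = 1 ∧ (Y - e) % 2 = 1 ∧ (Y + e) % 2 = 1 := by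
    rcases he with rfl | rfl <;> omega
  obtain ⟨o1, o2, o3, o4⟩ := hod
  rcases le_or_gt (-4 * C.q) Y with hY1 | hY1
  · -- high
    have ha : ∀ x y : ℤ, Y - 1 ≤ y → total C (x + 2 * (7 * C.q - C.p)) (y + 6 * C.q) = 0 :=
      fun x y hy => total_above C _ _ (by omega)
    have hy1 : Y - 1 ≤ Y - e := by rcases he with rfl | rfl <;> omega
    have hy2 : Y - 1 ≤ Y + e := by rcases he with rfl | rfl <;> omega
    have hd0 : total C (X + 1) (Y - e) = 0 := by
      rcases total_01 C (X + 1) (Y - e) o1 o3 with h1 | h1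
      · exact h1
      · exact absurd ⟨o1, o3, h1, ha _ _ hy1⟩ hd
    have hd0' : total C (X - 1) (Y + e) = 0 := by
      rcases total_01 C (X - 1) (Y + e) o2 o4 with h1 | h1
      · exact h1
      · exact absurd ⟨o2, o4, h1, ha _ _ hy2⟩ hd'
    exact fra_alt C X Y e hX hY he (by rw [hc3, hc3']) (by rw [hd0, hd0'])
      (by rw [hc3, hd0]; norm_num)
  · -- low
    have hb : ∀ x y : ℤ, x % 2 = 1 → y ≤ Y + 1 → total C x y = 1 :=
      fun x y hx hy => total_below C _ _ hx (by omega)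
    have hy1 : Y - e ≤ Y + 1 := by rcases he with rfl | rfl <;> omega
    have hy2 : Y + e ≤ Y + 1 := by rcases he with rfl | rfl <;> omega
    have hd1 : total C (X + 1 + 2 * (7 * C.q - C.p)) (Y - e + 6 * C.q) = 1 := by
      rcases total_01 C (X + 1 + 2 * (7 * C.q - C.p)) (Y - e + 6 * C.q) (by omega) (by omega)
        with h1 | h1
      · exact absurd ⟨o1, o3, hb _ _ o1 hy1, h1⟩ hd
      · exact h1
    have hd1' : total C (X - 1 + 2 * (7 * C.q - C.p)) (Y + e + 6 * C.q) = 1 := by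
      rcases total_01 C (X - 1 + 2 * (7 * C.q - C.p)) (Y + e + 6 * C.q) (by omega) (by omega)
        with h1 | h1
      · exact absurd ⟨o2, o4, hb _ _ o2 hy2, h1⟩ hd'
      · exact h1
    have r1 : X + 1 + 2 * (7 * C.q - C.p) = X + 2 * (7 * C.q - C.p) + 1 := by ring
    have r2 : X - 1 + 2 * (7 * C.q - C.p) = X + 2 * (7 * C.q - C.p) - 1 := by ring
    have r3 : Y + e + 6 * C.q = Y + 6 * C.q + e := by ring
    have r4 : Y - e + 6 * C.q = Y + 6 * C.q - e := by ring
    rw [r1, r3] at hc4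
    rw [r2, r4] at hc4'
    rw [r1, r4] at hd1
    rw [r2, r3] at hd1'
    exact fra_alt C (X + 2 * (7 * C.q - C.p)) (Y + 6 * C.q) e (by omega) (by omega) he
      (by rw [hc4, hc4']) (by rw [hd1, hd1']) (by rw [hc4, hd1]; norm_num)

private theorem fra_edge (C : Curve) (cx cy cx' cy' : ℤ) (h : Band C cx cy) (h' : Band C cx' cy')
    (z : ℂ) (hz : z ∈ sq cx cy) (hz' : z ∈ sq cx' cy')
    (hd : (cx' - cx = 0 ∧ (cy' - cy = 2 ∨ cy' - cy = -2)) ∨
      (cy' - cy = 0 ∧ (cx' - cx = 2 ∨ cx' - cx = -2))) : fr C cx cy z = fr C cx' cy' z := by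
  have key : ∀ a b : ℤ, a * a + b * b = 1 → cx' = cx + 2 * a → cy' = cy + 2 * b →
      fr C cx cy z = fr C cx' cy' z := by
    rintro a b hab rfl rfl
    exact (fr_edge C cx cy a b hab h h' z hz hz').symm
  rcases hd with ⟨h1, h2 | h2⟩ | ⟨h1, h2 | h2⟩
  · exact key 0 1 (by norm_num) (by omega) (by omega)
  · exact key 0 (-1) (by norm_num) (by omega) (by omega)
  · exact key 1 0 (by norm_num) (by omega) (by omega)
  · exact key (-1) 0 (by norm_num) (by omega) (by omega)

private theorem fra_diag (C : Curve) (cx cy a b : ℤ) (ha : a = 1 ∨ a = -1) (hb : b = 1 ∨ b = -1)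
    (h : Band C cx cy) (h' : Band C (cx + 2 * a) (cy + 2 * b)) (z : ℂ) (hz : z ∈ sq cx cy)
    (hz' : z ∈ sq (cx + 2 * a) (cy + 2 * b)) :
    fr C cx cy z = fr C (cx + 2 * a) (cy + 2 * b) z := by
  have hz1 := hz
  have hz2 := hz'
  simp only [sq, Set.mem_ofPred_eq, abs_le] at hz1 hz2
  obtain ⟨⟨p1, p2⟩, p3, p4⟩ := hz1
  obtain ⟨⟨q1, q2⟩, q3, q4⟩ := hz2
  push_cast at q1 q2 q3 q4
  have hmem : ∀ x y : ℤ, (x = cx ∨ x = cx + 2 * a) → (y = cy ∨ y = cy + 2 * b) → z ∈ sq x y := by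
    intro x y hx hy
    simp only [sq, Set.mem_ofPred_eq, abs_le]
    constructor
    · rcases hx with rfl | rfl
      · exact ⟨p1, p2⟩
      · push_cast; exact ⟨q1, q2⟩
    · rcases hy with rfl | rfl
      · exact ⟨p3, p4⟩
      · push_cast; exact ⟨q3, q4⟩
  have hcx := h.1
  have hcy := h.2.1
  have hmid : Band C (cx + 2 * a) cy ∨ Band C cx (cy + 2 * b) := by
    rcases ha with rfl | rfl
    · have h1 := no_cross C (cx + 1) (cy + b) b (by omega)
        (by rcases hb with rfl | rfl <;> omega) hb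
        (by rw [show cx + 1 + 1 = cx + 2 * 1 by ring, show cy + b + b = cy + 2 * b by ring]
            exact h')
        (by rw [show cx + 1 - 1 = cx by ring, show cy + b - b = cy by ring]; exact h)
      rw [show cx + 1 + 1 = cx + 2 * 1 by ring, show cy + b - b = cy by ring,
        show cx + 1 - 1 = cx by ring, show cy + b + b = cy + 2 * b by ring] at h1
      exact h1
    · have h1 := no_cross C (cx - 1) (cy + b) (-b) (by omega)
        (by rcases hb with rfl | rfl <;> omega) (by rcases hb with rfl | rfl <;> omega)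
        (by rw [show cx - 1 + 1 = cx by ring, show cy + b + -b = cy by ring]
            exact h)
        (by rw [show cx - 1 - 1 = cx + 2 * -1 by ring, show cy + b - -b = cy + 2 * b by ring]
            exact h')
      rw [show cx - 1 + 1 = cx by ring, show cy + b - -b = cy + 2 * b by ring,
        show cx - 1 - 1 = cx + 2 * -1 by ring, show cy + b + -b = cy by ring] at h1
      exact h1.symm
  rcases hmid with hm | hm
  · have hzm := hmem (cx + 2 * a) cy (Or.inr rfl) (Or.inl rfl)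
    rw [fra_edge C cx cy (cx + 2 * a) cy h hm z hz hzm
      (by rcases ha with rfl | rfl <;> omega)]
    exact fra_edge C _ _ _ _ hm h' z hzm hz' (by rcases hb with rfl | rfl <;> omega)
  · have hzm := hmem cx (cy + 2 * b) (Or.inl rfl) (Or.inr rfl)
    rw [fra_edge C cx cy cx (cy + 2 * b) h hm z hz hzm
      (by rcases hb with rfl | rfl <;> omega)]
    exact fra_edge C _ _ _ _ hm h' z hzm hz' (by rcases ha with rfl | rfl <;> omega)

theorem fr_agree (C : Curve) (cx cy cx' cy' : ℤ) (h : Band C cx cy) (h' : Band C cx' cy') (z : ℂ)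
    (hz : z ∈ sq cx cy) (hz' : z ∈ sq cx' cy') : fr C cx cy z = fr C cx' cy' z := by
  have hz1 := hz
  have hz2 := hz'
  simp only [sq, Set.mem_ofPred_eq, abs_le] at hz1 hz2
  obtain ⟨⟨p1, p2⟩, p3, p4⟩ := hz1
  obtain ⟨⟨q1, q2⟩, q3, q4⟩ := hz2
  have hcx := h.1
  have hcy := h.2.1
  have hcx' := h'.1
  have hcy' := h'.2.1
  have b1 : cx' - cx ≤ 2 := by
    have : ((cx' - cx : ℤ) : ℝ) ≤ ((2 : ℤ) : ℝ) := by push_cast; linarith
    exact_mod_cast this
  have b2 : -2 ≤ cx' - cx := by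
    have : ((-2 : ℤ) : ℝ) ≤ ((cx' - cx : ℤ) : ℝ) := by push_cast; linarith
    exact_mod_cast this
  have b3 : cy' - cy ≤ 2 := by
    have : ((cy' - cy : ℤ) : ℝ) ≤ ((2 : ℤ) : ℝ) := by push_cast; linarith
    exact_mod_cast this
  have b4 : -2 ≤ cy' - cy := by
    have : ((-2 : ℤ) : ℝ) ≤ ((cy' - cy : ℤ) : ℝ) := by push_cast; linarith
    exact_mod_cast this
  have hx : cx' - cx = 0 ∨ cx' - cx = 2 ∨ cx' - cx = -2 := by omega
  have hy : cy' - cy = 0 ∨ cy' - cy = 2 ∨ cy' - cy = -2 := by omega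
  have key : ∀ a b : ℤ, (a = 1 ∨ a = -1) → (b = 1 ∨ b = -1) → cx' = cx + 2 * a →
      cy' = cy + 2 * b → fr C cx cy z = fr C cx' cy' z := by
    rintro a b ha hb rfl rfl
    exact fra_diag C cx cy a b ha hb h h' z hz hz'
  rcases hx with hx | hx | hx <;> rcases hy with hy | hy | hy
  · rw [show cx' = cx by omega, show cy' = cy by omega]
  · exact fra_edge C cx cy cx' cy' h h' z hz hz' (by omega)
  · exact fra_edge C cx cy cx' cy' h h' z hz hz' (by omega)
  · exact fra_edge C cx cy cx' cy' h h' z hz hz' (by omega)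
  · exact key 1 1 (by norm_num) (by norm_num) (by omega) (by omega)
  · exact key 1 (-1) (by norm_num) (by norm_num) (by omega) (by omega)
  · exact fra_edge C cx cy cx' cy' h h' z hz hz' (by omega)
  · exact key (-1) 1 (by norm_num) (by norm_num) (by omega) (by omega)
  · exact key (-1) (-1) (by norm_num) (by norm_num) (by omega) (by omega)

open Classical in
/-- the folding map of the band onto the surface of the cube `[-q,q]^3` -/
noncomputable def foldC (C : Curve) (z : ℂ) : E3 :=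
  if h : ∃ c : ℤ × ℤ, Band C c.1 c.2 ∧ z ∈ sq c.1 c.2 then
    fr C h.choose.1 h.choose.2 z else 0

theorem foldC_eq (C : Curve) (cx cy : ℤ) (h : Band C cx cy) (z : ℂ) (hz : z ∈ sq cx cy) :
    foldC C z = fr C cx cy z := by
  have h1 : ∃ c : ℤ × ℤ, Band C c.1 c.2 ∧ z ∈ sq c.1 c.2 := ⟨(cx, cy), h, hz⟩
  rw [foldC, dif_pos h1]
  exact fr_agree C _ _ _ _ h1.choose_spec.1 h z h1.choose_spec.2 hz

theorem foldC_shift (C : Curve) (z : ℂ) (hz : z ∈ BandR C) (k : ℤ) :
    foldC C (z + 8 * C.q * k) = foldC C z := by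
  obtain ⟨cx, cy, h, hz⟩ := hz
  have h1 := (band_shift C cx cy k).2 h
  have h2 : z + 8 * (C.q : ℂ) * (k : ℂ) ∈ sq (cx + 16 * C.q * k) cy := by
    have e : (8 * (C.q : ℂ) * (k : ℂ)) = (((8 * C.q * k : ℤ) : ℝ) : ℂ) := by push_cast; ring
    simp only [sq, Set.mem_ofPred_eq] at hz ⊢
    rw [e, Complex.add_re, Complex.add_im, Complex.ofReal_re, Complex.ofReal_im, add_zero]
    refine ⟨?_, hz.2⟩
    have e2 : 2 * (z.re + ((8 * C.q * k : ℤ) : ℝ)) - ((cx + 16 * C.q * k : ℤ) : ℝ) =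
        2 * z.re - cx := by push_cast; ring
    rw [e2]
    exact hz.1
  rw [foldC_eq C _ _ h1 _ h2, foldC_eq C cx cy h z hz, fr_shift]

end H70Net
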