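import Pool.Agent.H70.Net.FrAgree

/-!
MP_77daaf_co, module `FrStar` : injectivity of the folding map in the interior.

PROOFS.
* `surf_star`: let `x ∈ SqS m ∩ SqS m'`, `m, m'` surface cells.  Then `m'` can be reached from `m` by
  steps `m ↦ surfadv m h` (`h` tangent) through cells containing `x`.
  - Same face (the same coordinate of `m`, `m'` is `ε 2q` with the same sign): the two
    other coordinates differ by `-2, 0` or `2`: one or two steps inside the face; in the case of two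
    steps the intermediate cell contains `x` (both conditions `|2x_i - m_i| ≤ 1`, `|2x_i - m'_i| ≤ 1`
    hold coordinatewise).
  - Different faces, `m_i = 2q ε`, `m'_j = 2q ε'`, `i ≠ j` (opposite faces are impossible as `x` lies in both
    planes): then `x_i = ε q`, `x_j = ε' q`.  Since `x ∈ SqS m`: `|2 x_j - m_j| ≤ 1`, `|m_j| ≤ 2q-1`, so
    `m_j = ε' (2q-1)`.  One step with `h = ε' e_j` leads around the edge of the cube to the cell
    `m1 = m + h - nu`: `m1_i = ε (2q - 1)`, `m1_j = ε' 2q`, which contains `x`; now `m1`, `m'` are in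
    the same face.
* `lift_step`: `c` a band cell, `z ∈ sq c`, all neighbours (across an edge) of band cells containing `z`
  which contain `z` are band cells (`hz`); `h` tangent at `mb c`, `fr c z ∈ SqS (surfadv (mb c) h)`.
  Then there is a band cell `c1` with `z ∈ sq c1` and `mb c1 = surfadv (mb c) h`.
  `h = hb c a b` (`hb_surj`).  `c1 = c + 2(a,b)`.  Show `z ∈ sq c1`, i.e. `a (2x-cx) + b (2y - cy) = 1`
  (`≥ 1` suffices): the coordinate of `2 fr z - m` in the direction `h` is `a (2x-cx) + b (2y-cy)`, and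
  it is `≥ 1` because `fr z ∈ SqS (surfadv m h)`: in the planar case the coordinate of `2 fr z` is
  within 1 of `m + 2h`; in the wrap case it is `2q = |m_i + h_i|`.  Then `c1` is a band cell by `hz` and
  `band_adj`.
* `fold_inj`: by induction along the chain of `surf_star` from `mb c` to `mb c'` (with
  `x = fr c z = fr c' z'`): a band cell `c1 ∋ z` with `mb c1 = mb c'`; `mb_inj` gives
  `c' = c1 + (16qk, 0)`; `fr c' (z + 8qk) = fr c1 z = x = fr c' z'` (`fr_shift`, `fr_agree`) and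
  `fr_dist` gives `z' = z + 8qk`.
-/

namespace H70Net

open Complex

/-- the condition on one coordinate -/
def fsC (q : ℤ) (t : ℝ) (a : ℤ) : Prop := |2 * t - a| ≤ 1 - |(sgq q a : ℝ)|

theorem fs_mem (q : ℤ) (x : E3) (m : ℤ × ℤ × ℤ) :
    x ∈ SqS q m ↔ fsC q (x 0) m.1 ∧ fsC q (x 1) m.2.1 ∧ fsC q (x 2) m.2.2 := Iff.rfl

theorem fs_face {q : ℤ} (hq : 0 < q) {t : ℝ} {a : ℤ} (ha : a = 2 * q ∨ a = -2 * q) :
    fsC q t a ↔ 2 * t = a := by
  have h1 : |(sgq q a : ℝ)| = 1 := by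
    rcases ha with rfl | rfl
    · rw [Surf_sgq_pos rfl]; simp
    · unfold sgq
      rw [if_neg (by omega), if_pos rfl]; simp
  unfold fsC
  rw [h1, sub_self, abs_nonpos_iff, sub_eq_zero]

theorem fs_odd {q : ℤ} {t : ℝ} {a : ℤ} (ha : a % 2 = 1) :
    fsC q t a ↔ -1 ≤ 2 * t - a ∧ 2 * t - a ≤ 1 := by
  unfold fsC
  rw [Surf_sgq_zero ha]
  simp only [Int.cast_zero, abs_zero, sub_zero]
  exact abs_le

theorem fs_close {q : ℤ} {t : ℝ} {a b : ℤ} (ha : fsC q t a) (hb : fsC q t b) :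
    a - b ≤ 2 ∧ b - a ≤ 2 := by
  unfold fsC at ha hb
  have h1 := abs_nonneg (sgq q a : ℝ)
  have h2 := abs_nonneg (sgq q b : ℝ)
  have h3 := abs_le.1 (ha.trans (by linarith : 1 - |(sgq q a : ℝ)| ≤ 1))
  have h4 := abs_le.1 (hb.trans (by linarith : 1 - |(sgq q b : ℝ)| ≤ 1))
  constructor
  · have : ((a - b : ℤ) : ℝ) ≤ ((2 : ℤ) : ℝ) := by push_cast; linarith [h3.1, h3.2, h4.1, h4.2]
    exact_mod_cast this
  · have : ((b - a : ℤ) : ℝ) ≤ ((2 : ℤ) : ℝ) := by push_cast; linarith [h3.1, h3.2, h4.1, h4.2]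
    exact_mod_cast this

/-- one step of the chain -/
def fsR (q : ℤ) (x : E3) (m1 m2 : ℤ × ℤ × ℤ) : Prop :=
  isSC q m1 ∧ ∃ h, isTan q m1 h ∧ m2 = surfadv q m1 h ∧ x ∈ SqS q m2

theorem fs_planar {q : ℤ} {x : E3} {m h m' : ℤ × ℤ × ℤ} (hm : isSC q m) (ht : isTan q m h)
    (e : m' = (m.1 + 2 * h.1, m.2.1 + 2 * h.2.1, m.2.2 + 2 * h.2.2)) (hm' : isSC q m')
    (hx' : x ∈ SqS q m') : fsR q x m m' := by
  refine ⟨hm, h, ht, ?_, hx'⟩
  have hin : inBox q m h := by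
    unfold inBox
    rw [e] at hm'
    unfold isSC at hm'
    simp only at hm'
    omega
  unfold surfadv
  rw [if_pos hin, e]

theorem fs_c1 {q : ℤ} (hq : 0 < q) {x : E3} {a b c a' : ℤ} (hm : isSC q (a, b, c))
    (hm' : isSC q (a', b, c)) (hx : x ∈ SqS q (a, b, c)) (hx' : x ∈ SqS q (a', b, c)) :
    Relation.ReflTransGen (fsR q x) (a, b, c) (a', b, c) := by
  rcases eq_or_ne a a' with rfl | hne
  · exact Relation.ReflTransGen.refl
  · obtain ⟨h1, h2⟩ := fs_close hx.1 hx'.1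
    simp only at h1 h2
    have hodd : a % 2 = 1 := by
      by_contra hodd
      have ha : a = 2 * q ∨ a = -2 * q := by
        unfold isSC at hm; simp only at hm; omega
      have ha' : a' = 2 * q ∨ a' = -2 * q := by
        unfold isSC at hm hm'; simp only at hm hm'; omega
      have e1 := (fs_face hq ha).1 hx.1
      have e2 := (fs_face hq ha').1 hx'.1
      have : (a : ℝ) = (a' : ℝ) := by rw [← e1, ← e2]
      exact hne (by exact_mod_cast this)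
    have hcase : a' = a + 2 ∨ a' = a - 2 := by
      unfold isSC at hm hm'; simp only at hm hm'; omega
    refine Relation.ReflTransGen.single ?_
    rcases hcase with rfl | rfl
    · refine fs_planar (h := (1, 0, 0)) hm ⟨Or.inl rfl, ?_⟩ ?_ hm' hx'
      · simp [dot3, nu, Surf_sgq_zero hodd]
      · simp
    · refine fs_planar (h := (-1, 0, 0)) hm ⟨Or.inr (Or.inl rfl), ?_⟩ ?_ hm' hx'
      · simp [dot3, nu, Surf_sgq_zero hodd]
      · simp; ring

theorem fs_c2 {q : ℤ} (hq : 0 < q) {x : E3} {a b c b' : ℤ} (hm : isSC q (a, b, c))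
    (hm' : isSC q (a, b', c)) (hx : x ∈ SqS q (a, b, c)) (hx' : x ∈ SqS q (a, b', c)) :
    Relation.ReflTransGen (fsR q x) (a, b, c) (a, b', c) := by
  rcases eq_or_ne b b' with rfl | hne
  · exact Relation.ReflTransGen.refl
  · obtain ⟨h1, h2⟩ := fs_close hx.2.1 hx'.2.1
    simp only at h1 h2
    have hodd : b % 2 = 1 := by
      by_contra hodd
      have ha : b = 2 * q ∨ b = -2 * q := by
        unfold isSC at hm; simp only at hm; omega
      have ha' : b' = 2 * q ∨ b' = -2 * q := by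
        unfold isSC at hm hm'; simp only at hm hm'; omega
      have e1 := (fs_face hq ha).1 hx.2.1
      have e2 := (fs_face hq ha').1 hx'.2.1
      have : (b : ℝ) = (b' : ℝ) := by rw [← e1, ← e2]
      exact hne (by exact_mod_cast this)
    have hcase : b' = b + 2 ∨ b' = b - 2 := by
      unfold isSC at hm hm'; simp only at hm hm'; omega
    refine Relation.ReflTransGen.single ?_
    rcases hcase with rfl | rfl
    · refine fs_planar (h := (0, 1, 0)) hm ⟨Or.inr (Or.inr (Or.inl rfl)), ?_⟩ ?_ hm' hx'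
      · simp [dot3, nu, Surf_sgq_zero hodd]
      · simp
    · refine fs_planar (h := (0, -1, 0)) hm ⟨Or.inr (Or.inr (Or.inr (Or.inl rfl))), ?_⟩ ?_ hm' hx'
      · simp [dot3, nu, Surf_sgq_zero hodd]
      · simp; ring

theorem fs_c3 {q : ℤ} (hq : 0 < q) {x : E3} {a b c c' : ℤ} (hm : isSC q (a, b, c))
    (hm' : isSC q (a, b, c')) (hx : x ∈ SqS q (a, b, c)) (hx' : x ∈ SqS q (a, b, c')) :
    Relation.ReflTransGen (fsR q x) (a, b, c) (a, b, c') := by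
  rcases eq_or_ne c c' with rfl | hne
  · exact Relation.ReflTransGen.refl
  · obtain ⟨h1, h2⟩ := fs_close hx.2.2 hx'.2.2
    simp only at h1 h2
    have hodd : c % 2 = 1 := by
      by_contra hodd
      have ha : c = 2 * q ∨ c = -2 * q := by
        unfold isSC at hm; simp only at hm; omega
      have ha' : c' = 2 * q ∨ c' = -2 * q := by
        unfold isSC at hm hm'; simp only at hm hm'; omega
      have e1 := (fs_face hq ha).1 hx.2.2
      have e2 := (fs_face hq ha').1 hx'.2.2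
      have : (c : ℝ) = (c' : ℝ) := by rw [← e1, ← e2]
      exact hne (by exact_mod_cast this)
    have hcase : c' = c + 2 ∨ c' = c - 2 := by
      unfold isSC at hm hm'; simp only at hm hm'; omega
    refine Relation.ReflTransGen.single ?_
    rcases hcase with rfl | rfl
    · refine fs_planar (h := (0, 0, 1)) hm ⟨Or.inr (Or.inr (Or.inr (Or.inr (Or.inl rfl)))), ?_⟩ ?_
        hm' hx'
      · simp [dot3, nu, Surf_sgq_zero hodd]
      · simp
    · refine fs_planar (h := (0, 0, -1)) hm ⟨Or.inr (Or.inr (Or.inr (Or.inr (Or.inr rfl)))), ?_⟩ ?_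
        hm' hx'
      · simp [dot3, nu, Surf_sgq_zero hodd]
      · simp; ring

/-- cells of the same face -/
theorem fs_same {q : ℤ} (hq : 0 < q) {x : E3} {m m' : ℤ × ℤ × ℤ} (hm : isSC q m)
    (hm' : isSC q m') (hx : x ∈ SqS q m) (hx' : x ∈ SqS q m')
    (h1 : isSC q (m'.1, m.2.1, m.2.2)) (h2 : isSC q (m'.1, m'.2.1, m.2.2)) :
    Relation.ReflTransGen (fsR q x) m m' := by
  obtain ⟨a, b, c⟩ := m
  obtain ⟨a', b', c'⟩ := m'
  simp only at h1 h2
  have x1 : x ∈ SqS q (a', b, c) := ⟨hx'.1, hx.2.1, hx.2.2⟩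
  have x2 : x ∈ SqS q (a', b', c) := ⟨hx'.1, hx'.2.1, hx.2.2⟩
  exact ((fs_c1 hq hm h1 hx x1).trans (fs_c2 hq h1 h2 x1 x2)).trans (fs_c3 hq h2 hm' x2 hx')


theorem fs_sgq {q : ℤ} (hq : 0 < q) {a : ℤ} (ha : a = 2 * q ∨ a = -2 * q) :
    ∃ s, sgq q a = s ∧ ((s = 1 ∧ a = 2 * q) ∨ (s = -1 ∧ a = -2 * q)) := by
  rcases ha with rfl | rfl
  · exact ⟨1, Surf_sgq_pos rfl, Or.inl ⟨rfl, rfl⟩⟩
  · refine ⟨-1, ?_, Or.inr ⟨rfl, rfl⟩⟩
    unfold sgq
    rw [if_neg (by omega), if_pos rfl]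

/-- odd and in the range -/
def fsO (q t : ℤ) : Prop := t % 2 = 1 ∧ -2 * q < t ∧ t < 2 * q

theorem fs_f1 {q a b c : ℤ} (hm : isSC q (a, b, c)) (h : a = 2 * q ∨ a = -2 * q) :
    fsO q b ∧ fsO q c := by
  rcases hm with ⟨-, h1, h2, h3, h4, h5, h6⟩ | ⟨-, h1, h2, h3, -⟩ | ⟨-, h1, h2, h3, -⟩
  · exact ⟨⟨h1, h2, h3⟩, h4, h5, h6⟩
  · simp only at h1; omega
  · simp only at h1; omega

theorem fs_f2 {q a b c : ℤ} (hm : isSC q (a, b, c)) (h : b = 2 * q ∨ b = -2 * q) :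
    fsO q a ∧ fsO q c := by
  rcases hm with ⟨-, h1, h2, h3, -⟩ | ⟨-, h1, h2, h3, h4, h5, h6⟩ | ⟨-, -, -, -, h1, h2, h3⟩
  · simp only at h1; omega
  · exact ⟨⟨h1, h2, h3⟩, h4, h5, h6⟩
  · simp only at h1; omega

theorem fs_f3 {q a b c : ℤ} (hm : isSC q (a, b, c)) (h : c = 2 * q ∨ c = -2 * q) :
    fsO q a ∧ fsO q b := by
  rcases hm with ⟨-, -, -, -, h1, h2, h3⟩ | ⟨-, -, -, -, h1, h2, h3⟩ | ⟨-, h1, h2, h3, h4, h5, h6⟩
  · simp only at h1; omega
  · simp only at h1; omega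
  · exact ⟨⟨h1, h2, h3⟩, h4, h5, h6⟩

theorem fs_m1 {q a b c : ℤ} (h : a = 2 * q ∨ a = -2 * q) (hb : fsO q b) (hc : fsO q c) :
    isSC q (a, b, c) := Or.inl ⟨h, hb.1, hb.2.1, hb.2.2, hc.1, hc.2.1, hc.2.2⟩

theorem fs_m2 {q a b c : ℤ} (h : b = 2 * q ∨ b = -2 * q) (ha : fsO q a) (hc : fsO q c) :
    isSC q (a, b, c) := Or.inr (Or.inl ⟨h, ha.1, ha.2.1, ha.2.2, hc.1, hc.2.1, hc.2.2⟩)

theorem fs_m3 {q a b c : ℤ} (h : c = 2 * q ∨ c = -2 * q) (ha : fsO q a) (hb : fsO q b) :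
    isSC q (a, b, c) := Or.inr (Or.inr ⟨h, ha.1, ha.2.1, ha.2.2, hb.1, hb.2.1, hb.2.2⟩)

theorem fs_w12 {q : ℤ} (hq : 0 < q) {x : E3} {a b c a' b' c' : ℤ}
    (hm : isSC q (a, b, c)) (hm' : isSC q (a', b', c'))
    (hi : a = 2 * q ∨ a = -2 * q) (hj' : b' = 2 * q ∨ b' = -2 * q)
    (hx : x ∈ SqS q (a, b, c)) (hx' : x ∈ SqS q (a', b', c')) :
    Relation.ReflTransGen (fsR q x) (a, b, c) (a', b', c') := by
  obtain ⟨s, hs, hs'⟩ := fs_sgq hq hi
  obtain ⟨t, ht, ht'⟩ := fs_sgq hq hj'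
  obtain ⟨oj, ok⟩ := fs_f1 hm hi
  obtain ⟨oi', ok'⟩ := fs_f2 hm' hj'
  have e1 : 2 * x 0 = a := (fs_face hq hi).1 hx.1
  have e2 : 2 * x 1 = b' := (fs_face hq hj').1 hx'.2.1
  obtain ⟨e3, e4⟩ := (fs_odd oj.1).1 hx.2.1
  rw [e2] at e3 e4
  have e5 : -1 ≤ b' - b := by exact_mod_cast e3
  have e6 : b' - b ≤ 1 := by exact_mod_cast e4
  have hin : ¬ inBox q (a, b, c) (0, t, 0) := by
    obtain ⟨o1, o2, o3⟩ := oj
    rintro ⟨i1, i2, i3, i4, i5, i6⟩
    clear e1 e2 e3 e4 hm hm' hx hx'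
    simp only at i1 i2 i3 i4 i5 i6
    omega
  have os : fsO q (a - s) := by
    clear e1 e2 e3 e4 hm hm' hx hx'
    refine ⟨?_, ?_, ?_⟩ <;> omega
  have x0 : fsC q (x 0) (a - s) := by
    rw [fs_odd os.1, e1]
    have hcases : s = 1 ∨ s = -1 := hs'.imp (fun h => h.1) (fun h => h.1)
    rcases hcases with rfl | rfl <;> push_cast <;> constructor <;> linarith
  have x1 : x ∈ SqS q (a - s, b', c) := ⟨x0, hx'.2.1, hx.2.2⟩
  have hR : fsR q x (a, b, c) (a - s, b', c) := by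
    refine ⟨hm, (0, t, 0), ⟨?_, ?_⟩, ?_, x1⟩
    · have hcases : t = 1 ∨ t = -1 := ht'.imp (fun h => h.1) (fun h => h.1)
      rcases hcases with rfl | rfl <;> simp [isUnit3]
    · simp [dot3, nu, Surf_sgq_zero oj.1]
    · have e7 : b' = b + t - 0 := by
        obtain ⟨o1, o2, o3⟩ := oj
        clear e1 e2 e3 e4 hm hm' hx hx'
        omega
      unfold surfadv
      rw [if_neg hin]
      simp only [nu, Surf_sgq_zero oj.1, Surf_sgq_zero ok.1, hs, Prod.mk.injEq]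
      exact ⟨by ring, e7, by ring⟩
  refine (Relation.ReflTransGen.single hR).trans (fs_same hq (fs_m2 hj' os ok) hm' x1 hx' ?_ ?_)
  · exact fs_m2 hj' oi' ok
  · exact fs_m2 hj' oi' ok

theorem fs_w13 {q : ℤ} (hq : 0 < q) {x : E3} {a b c a' b' c' : ℤ}
    (hm : isSC q (a, b, c)) (hm' : isSC q (a', b', c'))
    (hi : a = 2 * q ∨ a = -2 * q) (hj' : c' = 2 * q ∨ c' = -2 * q)
    (hx : x ∈ SqS q (a, b, c)) (hx' : x ∈ SqS q (a', b', c')) :
    Relation.ReflTransGen (fsR q x) (a, b, c) (a', b', c') := by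
  obtain ⟨s, hs, hs'⟩ := fs_sgq hq hi
  obtain ⟨t, ht, ht'⟩ := fs_sgq hq hj'
  obtain ⟨ok, oj⟩ := fs_f1 hm hi
  obtain ⟨oi', ok'⟩ := fs_f3 hm' hj'
  have e1 : 2 * x 0 = a := (fs_face hq hi).1 hx.1
  have e2 : 2 * x 2 = c' := (fs_face hq hj').1 hx'.2.2
  obtain ⟨e3, e4⟩ := (fs_odd oj.1).1 hx.2.2
  rw [e2] at e3 e4
  have e5 : -1 ≤ c' - c := by exact_mod_cast e3
  have e6 : c' - c ≤ 1 := by exact_mod_cast e4
  have hin : ¬ inBox q (a, b, c) (0, 0, t) := by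
    obtain ⟨o1, o2, o3⟩ := oj
    rintro ⟨i1, i2, i3, i4, i5, i6⟩
    clear e1 e2 e3 e4 hm hm' hx hx'
    simp only at i1 i2 i3 i4 i5 i6
    omega
  have os : fsO q (a - s) := by
    clear e1 e2 e3 e4 hm hm' hx hx'
    refine ⟨?_, ?_, ?_⟩ <;> omega
  have x0 : fsC q (x 0) (a - s) := by
    rw [fs_odd os.1, e1]
    have hcases : s = 1 ∨ s = -1 := hs'.imp (fun h => h.1) (fun h => h.1)
    rcases hcases with rfl | rfl <;> push_cast <;> constructor <;> linarith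
  have x1 : x ∈ SqS q (a - s, b, c') := ⟨x0, hx.2.1, hx'.2.2⟩
  have hR : fsR q x (a, b, c) (a - s, b, c') := by
    refine ⟨hm, (0, 0, t), ⟨?_, ?_⟩, ?_, x1⟩
    · have hcases : t = 1 ∨ t = -1 := ht'.imp (fun h => h.1) (fun h => h.1)
      rcases hcases with rfl | rfl <;> simp [isUnit3]
    · simp [dot3, nu, Surf_sgq_zero oj.1]
    · have e7 : c' = c + t - 0 := by
        obtain ⟨o1, o2, o3⟩ := oj
        clear e1 e2 e3 e4 hm hm' hx hx'
        omega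
      unfold surfadv
      rw [if_neg hin]
      simp only [nu, Surf_sgq_zero oj.1, Surf_sgq_zero ok.1, hs, Prod.mk.injEq]
      exact ⟨by ring, by ring, e7⟩
  refine (Relation.ReflTransGen.single hR).trans (fs_same hq (fs_m3 hj' os ok) hm' x1 hx' ?_ ?_)
  · exact fs_m3 hj' oi' ok
  · exact fs_m3 hj' oi' ok'

theorem fs_w21 {q : ℤ} (hq : 0 < q) {x : E3} {a b c a' b' c' : ℤ}
    (hm : isSC q (a, b, c)) (hm' : isSC q (a', b', c'))
    (hi : b = 2 * q ∨ b = -2 * q) (hj' : a' = 2 * q ∨ a' = -2 * q)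
    (hx : x ∈ SqS q (a, b, c)) (hx' : x ∈ SqS q (a', b', c')) :
    Relation.ReflTransGen (fsR q x) (a, b, c) (a', b', c') := by
  obtain ⟨s, hs, hs'⟩ := fs_sgq hq hi
  obtain ⟨t, ht, ht'⟩ := fs_sgq hq hj'
  obtain ⟨oj, ok⟩ := fs_f2 hm hi
  obtain ⟨oi', ok'⟩ := fs_f1 hm' hj'
  have e1 : 2 * x 1 = b := (fs_face hq hi).1 hx.2.1
  have e2 : 2 * x 0 = a' := (fs_face hq hj').1 hx'.1
  obtain ⟨e3, e4⟩ := (fs_odd oj.1).1 hx.1
  rw [e2] at e3 e4
  have e5 : -1 ≤ a' - a := by exact_mod_cast e3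
  have e6 : a' - a ≤ 1 := by exact_mod_cast e4
  have hin : ¬ inBox q (a, b, c) (t, 0, 0) := by
    obtain ⟨o1, o2, o3⟩ := oj
    rintro ⟨i1, i2, i3, i4, i5, i6⟩
    clear e1 e2 e3 e4 hm hm' hx hx'
    simp only at i1 i2 i3 i4 i5 i6
    omega
  have os : fsO q (b - s) := by
    clear e1 e2 e3 e4 hm hm' hx hx'
    refine ⟨?_, ?_, ?_⟩ <;> omega
  have x0 : fsC q (x 1) (b - s) := by
    rw [fs_odd os.1, e1]
    have hcases : s = 1 ∨ s = -1 := hs'.imp (fun h => h.1) (fun h => h.1)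
    rcases hcases with rfl | rfl <;> push_cast <;> constructor <;> linarith
  have x1 : x ∈ SqS q (a', b - s, c) := ⟨hx'.1, x0, hx.2.2⟩
  have hR : fsR q x (a, b, c) (a', b - s, c) := by
    refine ⟨hm, (t, 0, 0), ⟨?_, ?_⟩, ?_, x1⟩
    · have hcases : t = 1 ∨ t = -1 := ht'.imp (fun h => h.1) (fun h => h.1)
      rcases hcases with rfl | rfl <;> simp [isUnit3]
    · simp [dot3, nu, Surf_sgq_zero oj.1]
    · have e7 : a' = a + t - 0 := by
        obtain ⟨o1, o2, o3⟩ := oj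
        clear e1 e2 e3 e4 hm hm' hx hx'
        omega
      unfold surfadv
      rw [if_neg hin]
      simp only [nu, Surf_sgq_zero oj.1, Surf_sgq_zero ok.1, hs, Prod.mk.injEq]
      exact ⟨e7, by ring, by ring⟩
  refine (Relation.ReflTransGen.single hR).trans (fs_same hq (fs_m1 hj' os ok) hm' x1 hx' ?_ ?_)
  · exact fs_m1 hj' os ok
  · exact fs_m1 hj' oi' ok

theorem fs_w23 {q : ℤ} (hq : 0 < q) {x : E3} {a b c a' b' c' : ℤ}
    (hm : isSC q (a, b, c)) (hm' : isSC q (a', b', c'))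
    (hi : b = 2 * q ∨ b = -2 * q) (hj' : c' = 2 * q ∨ c' = -2 * q)
    (hx : x ∈ SqS q (a, b, c)) (hx' : x ∈ SqS q (a', b', c')) :
    Relation.ReflTransGen (fsR q x) (a, b, c) (a', b', c') := by
  obtain ⟨s, hs, hs'⟩ := fs_sgq hq hi
  obtain ⟨t, ht, ht'⟩ := fs_sgq hq hj'
  obtain ⟨ok, oj⟩ := fs_f2 hm hi
  obtain ⟨ok', oi'⟩ := fs_f3 hm' hj'
  have e1 : 2 * x 1 = b := (fs_face hq hi).1 hx.2.1
  have e2 : 2 * x 2 = c' := (fs_face hq hj').1 hx'.2.2
  obtain ⟨e3, e4⟩ := (fs_odd oj.1).1 hx.2.2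
  rw [e2] at e3 e4
  have e5 : -1 ≤ c' - c := by exact_mod_cast e3
  have e6 : c' - c ≤ 1 := by exact_mod_cast e4
  have hin : ¬ inBox q (a, b, c) (0, 0, t) := by
    obtain ⟨o1, o2, o3⟩ := oj
    rintro ⟨i1, i2, i3, i4, i5, i6⟩
    clear e1 e2 e3 e4 hm hm' hx hx'
    simp only at i1 i2 i3 i4 i5 i6
    omega
  have os : fsO q (b - s) := by
    clear e1 e2 e3 e4 hm hm' hx hx'
    refine ⟨?_, ?_, ?_⟩ <;> omega
  have x0 : fsC q (x 1) (b - s) := by
    rw [fs_odd os.1, e1]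
    have hcases : s = 1 ∨ s = -1 := hs'.imp (fun h => h.1) (fun h => h.1)
    rcases hcases with rfl | rfl <;> push_cast <;> constructor <;> linarith
  have x1 : x ∈ SqS q (a, b - s, c') := ⟨hx.1, x0, hx'.2.2⟩
  have hR : fsR q x (a, b, c) (a, b - s, c') := by
    refine ⟨hm, (0, 0, t), ⟨?_, ?_⟩, ?_, x1⟩
    · have hcases : t = 1 ∨ t = -1 := ht'.imp (fun h => h.1) (fun h => h.1)
      rcases hcases with rfl | rfl <;> simp [isUnit3]
    · simp [dot3, nu, Surf_sgq_zero oj.1]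
    · have e7 : c' = c + t - 0 := by
        obtain ⟨o1, o2, o3⟩ := oj
        clear e1 e2 e3 e4 hm hm' hx hx'
        omega
      unfold surfadv
      rw [if_neg hin]
      simp only [nu, Surf_sgq_zero oj.1, Surf_sgq_zero ok.1, hs, Prod.mk.injEq]
      exact ⟨by ring, by ring, e7⟩
  refine (Relation.ReflTransGen.single hR).trans (fs_same hq (fs_m3 hj' ok os) hm' x1 hx' ?_ ?_)
  · exact fs_m3 hj' ok' os
  · exact fs_m3 hj' ok' oi'

theorem fs_w31 {q : ℤ} (hq : 0 < q) {x : E3} {a b c a' b' c' : ℤ}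
    (hm : isSC q (a, b, c)) (hm' : isSC q (a', b', c'))
    (hi : c = 2 * q ∨ c = -2 * q) (hj' : a' = 2 * q ∨ a' = -2 * q)
    (hx : x ∈ SqS q (a, b, c)) (hx' : x ∈ SqS q (a', b', c')) :
    Relation.ReflTransGen (fsR q x) (a, b, c) (a', b', c') := by
  obtain ⟨s, hs, hs'⟩ := fs_sgq hq hi
  obtain ⟨t, ht, ht'⟩ := fs_sgq hq hj'
  obtain ⟨oj, ok⟩ := fs_f3 hm hi
  obtain ⟨ok', oi'⟩ := fs_f1 hm' hj'
  have e1 : 2 * x 2 = c := (fs_face hq hi).1 hx.2.2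
  have e2 : 2 * x 0 = a' := (fs_face hq hj').1 hx'.1
  obtain ⟨e3, e4⟩ := (fs_odd oj.1).1 hx.1
  rw [e2] at e3 e4
  have e5 : -1 ≤ a' - a := by exact_mod_cast e3
  have e6 : a' - a ≤ 1 := by exact_mod_cast e4
  have hin : ¬ inBox q (a, b, c) (t, 0, 0) := by
    obtain ⟨o1, o2, o3⟩ := oj
    rintro ⟨i1, i2, i3, i4, i5, i6⟩
    clear e1 e2 e3 e4 hm hm' hx hx'
    simp only at i1 i2 i3 i4 i5 i6
    omega
  have os : fsO q (c - s) := by
    clear e1 e2 e3 e4 hm hm' hx hx'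
    refine ⟨?_, ?_, ?_⟩ <;> omega
  have x0 : fsC q (x 2) (c - s) := by
    rw [fs_odd os.1, e1]
    have hcases : s = 1 ∨ s = -1 := hs'.imp (fun h => h.1) (fun h => h.1)
    rcases hcases with rfl | rfl <;> push_cast <;> constructor <;> linarith
  have x1 : x ∈ SqS q (a', b, c - s) := ⟨hx'.1, hx.2.1, x0⟩
  have hR : fsR q x (a, b, c) (a', b, c - s) := by
    refine ⟨hm, (t, 0, 0), ⟨?_, ?_⟩, ?_, x1⟩
    · have hcases : t = 1 ∨ t = -1 := ht'.imp (fun h => h.1) (fun h => h.1)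
      rcases hcases with rfl | rfl <;> simp [isUnit3]
    · simp [dot3, nu, Surf_sgq_zero oj.1]
    · have e7 : a' = a + t - 0 := by
        obtain ⟨o1, o2, o3⟩ := oj
        clear e1 e2 e3 e4 hm hm' hx hx'
        omega
      unfold surfadv
      rw [if_neg hin]
      simp only [nu, Surf_sgq_zero oj.1, Surf_sgq_zero ok.1, hs, Prod.mk.injEq]
      exact ⟨e7, by ring, by ring⟩
  refine (Relation.ReflTransGen.single hR).trans (fs_same hq (fs_m1 hj' ok os) hm' x1 hx' ?_ ?_)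
  · exact fs_m1 hj' ok os
  · exact fs_m1 hj' ok' os

theorem fs_w32 {q : ℤ} (hq : 0 < q) {x : E3} {a b c a' b' c' : ℤ}
    (hm : isSC q (a, b, c)) (hm' : isSC q (a', b', c'))
    (hi : c = 2 * q ∨ c = -2 * q) (hj' : b' = 2 * q ∨ b' = -2 * q)
    (hx : x ∈ SqS q (a, b, c)) (hx' : x ∈ SqS q (a', b', c')) :
    Relation.ReflTransGen (fsR q x) (a, b, c) (a', b', c') := by
  obtain ⟨s, hs, hs'⟩ := fs_sgq hq hi
  obtain ⟨t, ht, ht'⟩ := fs_sgq hq hj'
  obtain ⟨ok, oj⟩ := fs_f3 hm hi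
  obtain ⟨ok', oi'⟩ := fs_f2 hm' hj'
  have e1 : 2 * x 2 = c := (fs_face hq hi).1 hx.2.2
  have e2 : 2 * x 1 = b' := (fs_face hq hj').1 hx'.2.1
  obtain ⟨e3, e4⟩ := (fs_odd oj.1).1 hx.2.1
  rw [e2] at e3 e4
  have e5 : -1 ≤ b' - b := by exact_mod_cast e3
  have e6 : b' - b ≤ 1 := by exact_mod_cast e4
  have hin : ¬ inBox q (a, b, c) (0, t, 0) := by
    obtain ⟨o1, o2, o3⟩ := oj
    rintro ⟨i1, i2, i3, i4, i5, i6⟩
    clear e1 e2 e3 e4 hm hm' hx hx'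
    simp only at i1 i2 i3 i4 i5 i6
    omega
  have os : fsO q (c - s) := by
    clear e1 e2 e3 e4 hm hm' hx hx'
    refine ⟨?_, ?_, ?_⟩ <;> omega
  have x0 : fsC q (x 2) (c - s) := by
    rw [fs_odd os.1, e1]
    have hcases : s = 1 ∨ s = -1 := hs'.imp (fun h => h.1) (fun h => h.1)
    rcases hcases with rfl | rfl <;> push_cast <;> constructor <;> linarith
  have x1 : x ∈ SqS q (a, b', c - s) := ⟨hx.1, hx'.2.1, x0⟩
  have hR : fsR q x (a, b, c) (a, b', c - s) := by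
    refine ⟨hm, (0, t, 0), ⟨?_, ?_⟩, ?_, x1⟩
    · have hcases : t = 1 ∨ t = -1 := ht'.imp (fun h => h.1) (fun h => h.1)
      rcases hcases with rfl | rfl <;> simp [isUnit3]
    · simp [dot3, nu, Surf_sgq_zero oj.1]
    · have e7 : b' = b + t - 0 := by
        obtain ⟨o1, o2, o3⟩ := oj
        clear e1 e2 e3 e4 hm hm' hx hx'
        omega
      unfold surfadv
      rw [if_neg hin]
      simp only [nu, Surf_sgq_zero oj.1, Surf_sgq_zero ok.1, hs, Prod.mk.injEq]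
      exact ⟨by ring, e7, by ring⟩
  refine (Relation.ReflTransGen.single hR).trans (fs_same hq (fs_m2 hj' ok os) hm' x1 hx' ?_ ?_)
  · exact fs_m2 hj' ok' os
  · exact fs_m2 hj' ok' os

theorem fs_star {q : ℤ} (hq : 0 < q) {x : E3} {m m' : ℤ × ℤ × ℤ} (hm : isSC q m)
    (hm' : isSC q m') (hx : x ∈ SqS q m) (hx' : x ∈ SqS q m') :
    Relation.ReflTransGen (fsR q x) m m' := by
  obtain ⟨a, b, c⟩ := m
  obtain ⟨a', b', c'⟩ := m'
  have k1 : (a = 2 * q ∨ a = -2 * q) → (a' = 2 * q ∨ a' = -2 * q) → a = a' := by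
    intro h1 h2
    have e1 := (fs_face hq h1).1 hx.1
    have e2 := (fs_face hq h2).1 hx'.1
    have : (a : ℝ) = (a' : ℝ) := by rw [← e1, ← e2]
    exact_mod_cast this
  have k2 : (b = 2 * q ∨ b = -2 * q) → (b' = 2 * q ∨ b' = -2 * q) → b = b' := by
    intro h1 h2
    have e1 := (fs_face hq h1).1 hx.2.1
    have e2 := (fs_face hq h2).1 hx'.2.1
    have : (b : ℝ) = (b' : ℝ) := by rw [← e1, ← e2]
    exact_mod_cast this
  have k3 : (c = 2 * q ∨ c = -2 * q) → (c' = 2 * q ∨ c' = -2 * q) → c = c' := by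
    intro h1 h2
    have e1 := (fs_face hq h1).1 hx.2.2
    have e2 := (fs_face hq h2).1 hx'.2.2
    have : (c : ℝ) = (c' : ℝ) := by rw [← e1, ← e2]
    exact_mod_cast this
  have hmc : (a = 2 * q ∨ a = -2 * q) ∨ (b = 2 * q ∨ b = -2 * q) ∨ (c = 2 * q ∨ c = -2 * q) := by
    rcases hm with h | h | h
    · exact Or.inl h.1
    · exact Or.inr (Or.inl h.1)
    · exact Or.inr (Or.inr h.1)
  have hmc' : (a' = 2 * q ∨ a' = -2 * q) ∨ (b' = 2 * q ∨ b' = -2 * q) ∨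
      (c' = 2 * q ∨ c' = -2 * q) := by
    rcases hm' with h | h | h
    · exact Or.inl h.1
    · exact Or.inr (Or.inl h.1)
    · exact Or.inr (Or.inr h.1)
  rcases hmc with h1 | h1 | h1 <;> rcases hmc' with h2 | h2 | h2
  · obtain ⟨o1, o2⟩ := fs_f1 hm h1
    obtain ⟨o1', o2'⟩ := fs_f1 hm' h2
    exact fs_same hq hm hm' hx hx' (fs_m1 h2 o1 o2) (fs_m1 h2 o1' o2)
  · exact fs_w12 hq hm hm' h1 h2 hx hx'
  · exact fs_w13 hq hm hm' h1 h2 hx hx'
  · exact fs_w21 hq hm hm' h1 h2 hx hx'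
  · obtain ⟨o1, o2⟩ := fs_f2 hm h1
    obtain ⟨o1', o2'⟩ := fs_f2 hm' h2
    exact fs_same hq hm hm' hx hx' (fs_m2 h1 o1' o2) (fs_m2 h2 o1' o2)
  · exact fs_w23 hq hm hm' h1 h2 hx hx'
  · exact fs_w31 hq hm hm' h1 h2 hx hx'
  · exact fs_w32 hq hm hm' h1 h2 hx hx'
  · obtain ⟨o1, o2⟩ := fs_f3 hm h1
    obtain ⟨o1', o2'⟩ := fs_f3 hm' h2
    exact fs_same hq hm hm' hx hx' (fs_m3 h1 o1' o2) (fs_m3 h1 o1' o2')


theorem fs_bd {q : ℤ} {t : ℝ} {a : ℤ} (h : fsC q t a) : -1 ≤ 2 * t - a ∧ 2 * t - a ≤ 1 := by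
  unfold fsC at h
  have h1 := abs_nonneg (sgq q a : ℝ)
  exact abs_le.1 (h.trans (by linarith : 1 - |(sgq q a : ℝ)| ≤ 1))

theorem fs_dir {q : ℤ} (hq : 0 < q) {t : ℝ} {a a' δ : ℤ} (hδ : δ = 1 ∨ δ = -1)
    (h : a' = a + 2 * δ ∨ (a' = a + δ ∧ (a' = 2 * q ∨ a' = -2 * q))) (hx : fsC q t a') :
    1 ≤ (δ : ℝ) * (2 * t - a) := by
  rcases h with rfl | ⟨h1, h2⟩
  · obtain ⟨h3, h4⟩ := fs_bd hx
    rcases hδ with rfl | rfl <;> push_cast at h3 h4 ⊢ <;> linarith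
  · have h3 := (fs_face hq h2).1 hx
    rw [h1] at h3
    rcases hδ with rfl | rfl <;> push_cast at h3 ⊢ <;> linarith

theorem fs_adv1 {q a b c δ : ℤ} (hq : 0 < q) (hm : isSC q (a, b, c))
    (hδ : δ = 1 ∨ δ = -1) (ht : isTan q (a, b, c) (δ, 0, 0)) :
    (surfadv q (a, b, c) (δ, 0, 0)).1 = a + 2 * δ ∨
      ((surfadv q (a, b, c) (δ, 0, 0)).1 = a + δ ∧
        ((surfadv q (a, b, c) (δ, 0, 0)).1 = 2 * q ∨
          (surfadv q (a, b, c) (δ, 0, 0)).1 = -2 * q)) := by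
  have h0 : sgq q a = 0 := by
    have h1 := ht.2
    rcases hδ with rfl | rfl <;> simpa [dot3, nu] using h1
  have h1 : ¬ (a = 2 * q ∨ a = -2 * q) := by
    intro h
    obtain ⟨s, hs, hs'⟩ := fs_sgq hq h
    omega
  have h2 : fsO q a ∧ -2 * q ≤ b ∧ b ≤ 2 * q ∧ -2 * q ≤ c ∧ c ≤ 2 * q := by
    rcases hm with h | h | h
    · have h3 := h.1
      simp only at h3
      exact absurd h3 h1
    · have h3 := h.1
      simp only at h3
      obtain ⟨o1, o2⟩ := fs_f2 (q := q) (a := a) (b := b) (c := c) (by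
        exact Or.inr (Or.inl h)) h3
      unfold fsO at *
      refine ⟨o1, ?_, ?_, ?_, ?_⟩ <;> omega
    · have h3 := h.1
      simp only at h3
      obtain ⟨o1, o2⟩ := fs_f3 (q := q) (a := a) (b := b) (c := c) (by
        exact Or.inr (Or.inr h)) h3
      unfold fsO at *
      refine ⟨o1, ?_, ?_, ?_, ?_⟩ <;> omega
  obtain ⟨⟨o1, o2, o3⟩, r1, r2, r3, r4⟩ := h2
  unfold surfadv
  split_ifs with hin
  · left; rfl
  · right
    have h3 : ¬ (-2 * q ≤ a + 2 * δ ∧ a + 2 * δ ≤ 2 * q) := by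
      rintro ⟨g1, g2⟩
      apply hin
      unfold inBox
      simp only
      refine ⟨?_, ?_, ?_, ?_, ?_, ?_⟩ <;> omega
    simp only [nu, h0]
    omega

theorem fs_adv2 {q a b c δ : ℤ} (hq : 0 < q) (hm : isSC q (a, b, c))
    (hδ : δ = 1 ∨ δ = -1) (ht : isTan q (a, b, c) (0, δ, 0)) :
    (surfadv q (a, b, c) (0, δ, 0)).2.1 = b + 2 * δ ∨
      ((surfadv q (a, b, c) (0, δ, 0)).2.1 = b + δ ∧
        ((surfadv q (a, b, c) (0, δ, 0)).2.1 = 2 * q ∨
          (surfadv q (a, b, c) (0, δ, 0)).2.1 = -2 * q)) := by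
  have h0 : sgq q b = 0 := by
    have h1 := ht.2
    rcases hδ with rfl | rfl <;> simpa [dot3, nu] using h1
  have h1 : ¬ (b = 2 * q ∨ b = -2 * q) := by
    intro h
    obtain ⟨s, hs, hs'⟩ := fs_sgq hq h
    omega
  have h2 : fsO q b ∧ -2 * q ≤ a ∧ a ≤ 2 * q ∧ -2 * q ≤ c ∧ c ≤ 2 * q := by
    rcases hm with h | h | h
    · have h3 := h.1
      simp only at h3
      obtain ⟨o1, o2⟩ := fs_f1 (q := q) (a := a) (b := b) (c := c) (by
        exact Or.inl h) h3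
      unfold fsO at *
      refine ⟨o1, ?_, ?_, ?_, ?_⟩ <;> omega
    · have h3 := h.1
      simp only at h3
      exact absurd h3 h1
    · have h3 := h.1
      simp only at h3
      obtain ⟨o1, o2⟩ := fs_f3 (q := q) (a := a) (b := b) (c := c) (by
        exact Or.inr (Or.inr h)) h3
      unfold fsO at *
      refine ⟨o2, ?_, ?_, ?_, ?_⟩ <;> omega
  obtain ⟨⟨o1, o2, o3⟩, r1, r2, r3, r4⟩ := h2
  unfold surfadv
  split_ifs with hin
  · left; rfl
  · right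
    have h3 : ¬ (-2 * q ≤ b + 2 * δ ∧ b + 2 * δ ≤ 2 * q) := by
      rintro ⟨g1, g2⟩
      apply hin
      unfold inBox
      simp only
      refine ⟨?_, ?_, ?_, ?_, ?_, ?_⟩ <;> omega
    simp only [nu, h0]
    omega

theorem fs_adv3 {q a b c δ : ℤ} (hq : 0 < q) (hm : isSC q (a, b, c))
    (hδ : δ = 1 ∨ δ = -1) (ht : isTan q (a, b, c) (0, 0, δ)) :
    (surfadv q (a, b, c) (0, 0, δ)).2.2 = c + 2 * δ ∨
      ((surfadv q (a, b, c) (0, 0, δ)).2.2 = c + δ ∧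
        ((surfadv q (a, b, c) (0, 0, δ)).2.2 = 2 * q ∨
          (surfadv q (a, b, c) (0, 0, δ)).2.2 = -2 * q)) := by
  have h0 : sgq q c = 0 := by
    have h1 := ht.2
    rcases hδ with rfl | rfl <;> simpa [dot3, nu] using h1
  have h1 : ¬ (c = 2 * q ∨ c = -2 * q) := by
    intro h
    obtain ⟨s, hs, hs'⟩ := fs_sgq hq h
    omega
  have h2 : fsO q c ∧ -2 * q ≤ a ∧ a ≤ 2 * q ∧ -2 * q ≤ b ∧ b ≤ 2 * q := by
    rcases hm with h | h | h
    · have h3 := h.1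
      simp only at h3
      obtain ⟨o1, o2⟩ := fs_f1 (q := q) (a := a) (b := b) (c := c) (by
        exact Or.inl h) h3
      unfold fsO at *
      refine ⟨o2, ?_, ?_, ?_, ?_⟩ <;> omega
    · have h3 := h.1
      simp only at h3
      obtain ⟨o1, o2⟩ := fs_f2 (q := q) (a := a) (b := b) (c := c) (by
        exact Or.inr (Or.inl h)) h3
      unfold fsO at *
      refine ⟨o2, ?_, ?_, ?_, ?_⟩ <;> omega
    · have h3 := h.1
      simp only at h3
      exact absurd h3 h1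
  obtain ⟨⟨o1, o2, o3⟩, r1, r2, r3, r4⟩ := h2
  unfold surfadv
  split_ifs with hin
  · left; rfl
  · right
    have h3 : ¬ (-2 * q ≤ c + 2 * δ ∧ c + 2 * δ ≤ 2 * q) := by
      rintro ⟨g1, g2⟩
      apply hin
      unfold inBox
      simp only
      refine ⟨?_, ?_, ?_, ?_, ?_, ?_⟩ <;> omega
    simp only [nu, h0]
    omega

theorem fs_adv {q : ℤ} (hq : 0 < q) {x : E3} {m u : ℤ × ℤ × ℤ} (hm : isSC q m)
    (hu : isTan q m u) (hx : x ∈ SqS q (surfadv q m u)) :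
    1 ≤ (u.1 : ℝ) * (2 * x 0 - m.1) + (u.2.1 : ℝ) * (2 * x 1 - m.2.1) +
      (u.2.2 : ℝ) * (2 * x 2 - m.2.2) := by
  obtain ⟨a, b, c⟩ := m
  have hu' := hu.1
  unfold isUnit3 at hu'
  rcases hu' with rfl | rfl | rfl | rfl | rfl | rfl
  · have h := fs_dir hq (Or.inl rfl) (fs_adv1 hq hm (Or.inl rfl) hu) hx.1
    simp only [Int.cast_zero, zero_mul, add_zero]
    exact h
  · have h := fs_dir hq (Or.inr rfl) (fs_adv1 hq hm (Or.inr rfl) hu) hx.1
    simp only [Int.cast_zero, zero_mul, add_zero]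
    exact h
  · have h := fs_dir hq (Or.inl rfl) (fs_adv2 hq hm (Or.inl rfl) hu) hx.2.1
    simp only [Int.cast_zero, zero_mul, add_zero, zero_add]
    exact h
  · have h := fs_dir hq (Or.inr rfl) (fs_adv2 hq hm (Or.inr rfl) hu) hx.2.1
    simp only [Int.cast_zero, zero_mul, add_zero, zero_add]
    exact h
  · have h := fs_dir hq (Or.inl rfl) (fs_adv3 hq hm (Or.inl rfl) hu) hx.2.2
    simp only [Int.cast_zero, zero_mul, zero_add]
    exact h
  · have h := fs_dir hq (Or.inr rfl) (fs_adv3 hq hm (Or.inr rfl) hu) hx.2.2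
    simp only [Int.cast_zero, zero_mul, zero_add]
    exact h

theorem surf_star (q : ℤ) (hq : 0 < q) (x : E3) (m m' : ℤ × ℤ × ℤ) (hm : isSC q m)
    (hm' : isSC q m') (hx : x ∈ SqS q m) (hx' : x ∈ SqS q m') :
    Relation.ReflTransGen
      (fun m1 m2 => isSC q m1 ∧ ∃ h, isTan q m1 h ∧ m2 = surfadv q m1 h ∧ x ∈ SqS q m2) m m' :=
  fs_star hq hm hm' hx hx'

/-- all neighbours containing `z` of band cells containing `z` are band cells -/
def Inn (C : Curve) (z : ℂ) : Prop :=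
  ∀ cx cy a b : ℤ, a * a + b * b = 1 → Band C cx cy → z ∈ sq cx cy →
    z ∈ sq (cx + 2 * a) (cy + 2 * b) → Band C (cx + 2 * a) (cy + 2 * b)

theorem fs_unit_sq {h : ℤ × ℤ × ℤ} (hu : isUnit3 h) :
    (h.1 : ℝ) * h.1 + (h.2.1 : ℝ) * h.2.1 + (h.2.2 : ℝ) * h.2.2 = 1 := by
  unfold isUnit3 at hu
  rcases hu with rfl | rfl | rfl | rfl | rfl | rfl <;> simp

theorem lift_step (C : Curve) (cx cy : ℤ) (h : Band C cx cy) (z : ℂ) (hz : z ∈ sq cx cy)
    (hi : Inn C z) (u : ℤ × ℤ × ℤ) (hu : isTan C.q (mb C cx cy) u)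
    (hx : fr C cx cy z ∈ SqS C.q (surfadv C.q (mb C cx cy) u)) :
    ∃ cx' cy' : ℤ, Band C cx' cy' ∧ z ∈ sq cx' cy' ∧
      mb C cx' cy' = surfadv C.q (mb C cx cy) u := by
  obtain ⟨a, b, hab, rfl⟩ := hb_surj C cx cy h u hu
  have hq := C_q_pos C
  have h1 := fs_adv hq (mb_isSC C cx cy h) hu hx
  have hl := hb_lin C cx cy a b
  obtain ⟨hp, hH, hV⟩ := hb_perp C cx cy
  have hH' := fs_unit_sq hH
  have hV' := fs_unit_sq hV
  have hp' : ((hb C cx cy 1 0).1 : ℝ) * (hb C cx cy 0 1).1 +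
      ((hb C cx cy 1 0).2.1 : ℝ) * (hb C cx cy 0 1).2.1 +
      ((hb C cx cy 1 0).2.2 : ℝ) * (hb C cx cy 0 1).2.2 = 0 := by
    have : (dot3 (hb C cx cy 1 0) (hb C cx cy 0 1) : ℝ) = 0 := by exact_mod_cast hp
    unfold dot3 at this
    push_cast at this
    exact this
  have l1 : ((hb C cx cy a b).1 : ℝ) = a * (hb C cx cy 1 0).1 + b * (hb C cx cy 0 1).1 := by
    rw [hl]; simp
  have l2 : ((hb C cx cy a b).2.1 : ℝ) = a * (hb C cx cy 1 0).2.1 + b * (hb C cx cy 0 1).2.1 := by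
    rw [hl]; simp
  have l3 : ((hb C cx cy a b).2.2 : ℝ) = a * (hb C cx cy 1 0).2.2 + b * (hb C cx cy 0 1).2.2 := by
    rw [hl]; simp
  have f0 : (fr C cx cy z) 0 = 1 / 2 * ((mb C cx cy).1 : ℝ) +
      (z.re - cx / 2) * (hb C cx cy 1 0).1 + (z.im - cy / 2) * (hb C cx cy 0 1).1 := by
    simp [fr, toE]
  have f1 : (fr C cx cy z) 1 = 1 / 2 * ((mb C cx cy).2.1 : ℝ) +
      (z.re - cx / 2) * (hb C cx cy 1 0).2.1 + (z.im - cy / 2) * (hb C cx cy 0 1).2.1 := by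
    simp [fr, toE]
  have f2 : (fr C cx cy z) 2 = 1 / 2 * ((mb C cx cy).2.2 : ℝ) +
      (z.re - cx / 2) * (hb C cx cy 1 0).2.2 + (z.im - cy / 2) * (hb C cx cy 0 1).2.2 := by
    simp [fr, toE]
  have h2 : 1 ≤ (a : ℝ) * (2 * z.re - cx) + b * (2 * z.im - cy) := by
    refine h1.trans (le_of_eq ?_)
    rw [l1, l2, l3, f0, f1, f2]
    linear_combination (a * (2 * z.re - cx) : ℝ) * hH' +
      (a * (2 * z.im - cy) + b * (2 * z.re - cx) : ℝ) * hp' + (b * (2 * z.im - cy) : ℝ) * hV'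
  have hz1 : z ∈ sq (cx + 2 * a) (cy + 2 * b) := by
    obtain ⟨g1, g2⟩ := hz
    rw [abs_le] at g1 g2
    unfold sq
    rw [Set.mem_ofPred_eq, abs_le, abs_le]
    rcases Surf_unit hab with ⟨rfl, rfl⟩ | ⟨rfl, rfl⟩ | ⟨rfl, rfl⟩ | ⟨rfl, rfl⟩ <;>
      push_cast at h2 ⊢ <;> refine ⟨⟨?_, ?_⟩, ?_, ?_⟩ <;> linarith [g1.1, g1.2, g2.1, g2.2]
  have hB := hi cx cy a b hab h hz hz1
  exact ⟨_, _, hB, hz1, (band_adj C cx cy a b hab h hB).1⟩

theorem fold_inj (C : Curve) (z z' : ℂ) (hz : z ∈ BandR C) (hi : Inn C z) (hz' : z' ∈ BandR C)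
    (e : foldC C z = foldC C z') : ∃ k : ℤ, z' = z + 8 * C.q * k := by
  obtain ⟨cx, cy, hB, hz⟩ := hz
  obtain ⟨cx', cy', hB', hz'⟩ := hz'
  have hq := C_q_pos C
  rw [foldC_eq C cx cy hB z hz, foldC_eq C cx' cy' hB' z' hz'] at e
  have hx := (fr_mem C cx cy hB z).1 hz
  have hx' := (fr_mem C cx' cy' hB' z').1 hz'
  rw [← e] at hx'
  have hch := surf_star C.q hq (fr C cx cy z) _ _ (mb_isSC C cx cy hB) (mb_isSC C cx' cy' hB')
    hx hx'
  have key : ∀ m', Relation.ReflTransGen (fun m1 m2 => isSC C.q m1 ∧ ∃ h, isTan C.q m1 h ∧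
      m2 = surfadv C.q m1 h ∧ fr C cx cy z ∈ SqS C.q m2) (mb C cx cy) m' →
      ∃ x1 y1 : ℤ, Band C x1 y1 ∧ z ∈ sq x1 y1 ∧ mb C x1 y1 = m' := by
    intro m' hm'
    induction hm' with
    | refl => exact ⟨cx, cy, hB, hz, rfl⟩
    | tail _ hstep ih =>
      obtain ⟨x1, y1, k1, k2, k3⟩ := ih
      obtain ⟨_, u, hu, hm2, hx2⟩ := hstep
      rw [← k3] at hu hm2
      rw [hm2] at hx2 ⊢
      rw [fr_agree C cx cy x1 y1 hB k1 z hz k2] at hx2
      exact lift_step C x1 y1 k1 z k2 hi u hu hx2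
  obtain ⟨x1, y1, k1, k2, k3⟩ := key _ hch
  obtain ⟨rfl, k, rfl⟩ := mb_inj C x1 y1 cx' cy' k1 hB' k3
  refine ⟨k, ?_⟩
  have h1 := fr_shift C x1 y1 k z
  rw [← fr_agree C cx cy x1 y1 hB k1 z hz k2, e] at h1
  have h2 := fr_dist C (x1 + 16 * C.q * k) y1 (z + 8 * C.q * k) z'
  rw [h1, dist_self] at h2
  exact (dist_eq_zero.1 h2.symm).symm

end H70Net
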