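import Pool.Agent.H70.Net.GeoTop

/-!
MP_77daaf_co, module `GeoInt` : interiors of the regions
PROOFS: see the header of module `GeoTop`.
-/

namespace H70Net

open Complex

/-- a point of a vertical edge -/
theorem gint_mem_ver (C : Curve) (i : ℤ) (z : ℂ) (h1 : C.vx (i + 1) = C.vx i)
    (h2 : C.vy (i + 1) = C.vy i + 1 ∨ C.vy (i + 1) = C.vy i - 1) (h3 : 2 * z.re = sx C i)
    (h4 : |2 * z.im - sy C i| ≤ 1) : z ∈ segment ℝ (vc C i) (vc C (i + 1)) := by
  have e1 : (sx C i : ℝ) = 2 * C.vx i := by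
    rw [sx, h1]; push_cast; ring
  have hx : (C.vx (i + 1) : ℝ) = C.vx i := by rw [h1]
  rw [abs_le] at h4
  rcases h2 with h2 | h2
  · have e2 : (sy C i : ℝ) = 2 * C.vy i + 1 := by
      rw [sy, h2]; push_cast; ring
    have hy : (C.vy (i + 1) : ℝ) = C.vy i + 1 := by rw [h2]; push_cast; ring
    rw [e2] at h4
    refine ⟨1 - (z.im - C.vy i), z.im - C.vy i, by linarith, by linarith, by ring, ?_⟩
    apply Complex.ext
    · simp only [vc, Complex.add_re, Complex.smul_re, smul_eq_mul]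
      rw [hx]; linarith
    · simp only [vc, Complex.add_im, Complex.smul_im, smul_eq_mul]
      rw [hy]; ring
  · have e2 : (sy C i : ℝ) = 2 * C.vy i - 1 := by
      rw [sy, h2]; push_cast; ring
    have hy : (C.vy (i + 1) : ℝ) = C.vy i - 1 := by rw [h2]; push_cast; ring
    rw [e2] at h4
    refine ⟨1 - (C.vy i - z.im), C.vy i - z.im, by linarith, by linarith, by ring, ?_⟩
    apply Complex.ext
    · simp only [vc, Complex.add_re, Complex.smul_re, smul_eq_mul]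
      rw [hx]; linarith
    · simp only [vc, Complex.add_im, Complex.smul_im, smul_eq_mul]
      rw [hy]; ring

/-- a point of a horizontal edge -/
theorem gint_mem_hor (C : Curve) (i : ℤ) (z : ℂ) (h1 : C.vy (i + 1) = C.vy i)
    (h2 : C.vx (i + 1) = C.vx i + 1 ∨ C.vx (i + 1) = C.vx i - 1) (h3 : 2 * z.im = sy C i)
    (h4 : |2 * z.re - sx C i| ≤ 1) : z ∈ segment ℝ (vc C i) (vc C (i + 1)) := by
  have e1 : (sy C i : ℝ) = 2 * C.vy i := by
    rw [sy, h1]; push_cast; ring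
  have hx : (C.vy (i + 1) : ℝ) = C.vy i := by rw [h1]
  rw [abs_le] at h4
  rcases h2 with h2 | h2
  · have e2 : (sx C i : ℝ) = 2 * C.vx i + 1 := by
      rw [sx, h2]; push_cast; ring
    have hy : (C.vx (i + 1) : ℝ) = C.vx i + 1 := by rw [h2]; push_cast; ring
    rw [e2] at h4
    refine ⟨1 - (z.re - C.vx i), z.re - C.vx i, by linarith, by linarith, by ring, ?_⟩
    apply Complex.ext
    · simp only [vc, Complex.add_re, Complex.smul_re, smul_eq_mul]
      rw [hy]; ring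
    · simp only [vc, Complex.add_im, Complex.smul_im, smul_eq_mul]
      rw [hx]; linarith
  · have e2 : (sx C i : ℝ) = 2 * C.vx i - 1 := by
      rw [sx, h2]; push_cast; ring
    have hy : (C.vx (i + 1) : ℝ) = C.vx i - 1 := by rw [h2]; push_cast; ring
    rw [e2] at h4
    refine ⟨1 - (C.vx i - z.re), C.vx i - z.re, by linarith, by linarith, by ring, ?_⟩
    apply Complex.ext
    · simp only [vc, Complex.add_re, Complex.smul_re, smul_eq_mul]
      rw [hy]; ring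
    · simp only [vc, Complex.add_im, Complex.smul_im, smul_eq_mul]
      rw [hx]; linarith

theorem gint_right (C : Curve) (cx cy : ℤ) (hcx : cx % 2 = 1) (hcy : cy % 2 = 1)
    (h : total C cx cy ≠ total C (cx + 2) cy) (z : ℂ) (h1 : z ∈ sq cx cy)
    (h2 : z ∈ sq (cx + 2) cy) : z ∈ Gam C := by
  obtain ⟨i, hi1, hi2⟩ := edge_of_ne_right C cx cy hcx hcy h
  refine ⟨i, ?_⟩
  obtain ⟨a1, a2⟩ := h1
  obtain ⟨b1, b2⟩ := h2
  rw [abs_le] at a1 b1
  push_cast at b1
  have e1 : 2 * z.re = sx C i := by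
    rw [hi1]; push_cast; linarith [a1.2, b1.1]
  have e2 : |2 * z.im - sy C i| ≤ 1 := by rw [hi2]; exact a2
  rcases C.step i with ⟨h3, h4⟩ | ⟨h3, h4⟩
  · exfalso
    rw [sx] at hi1
    omega
  · exact gint_mem_ver C i z h3 h4 e1 e2

theorem gint_up (C : Curve) (cx cy : ℤ) (hcx : cx % 2 = 1) (hcy : cy % 2 = 1)
    (h : total C cx cy ≠ total C cx (cy + 2)) (z : ℂ) (h1 : z ∈ sq cx cy)
    (h2 : z ∈ sq cx (cy + 2)) : z ∈ Gam C := by
  obtain ⟨i, hi1, hi2⟩ := edge_of_ne_up C cx cy hcx hcy h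
  refine ⟨i, ?_⟩
  obtain ⟨a1, a2⟩ := h1
  obtain ⟨b1, b2⟩ := h2
  rw [abs_le] at a2 b2
  push_cast at b2
  have e1 : 2 * z.im = sy C i := by
    rw [hi2]; push_cast; linarith [a2.2, b2.1]
  have e2 : |2 * z.re - sx C i| ≤ 1 := by rw [hi1]; exact a1
  rcases C.step i with ⟨h3, h4⟩ | ⟨h3, h4⟩
  · exact gint_mem_hor C i z h4 h3 e1 e2
  · exfalso
    rw [sx] at hi1
    omega

theorem gint_near {x : ℝ} {a b : ℤ} (h1 : |x - a| ≤ 1) (h2 : |x - b| ≤ 1) (ha : a % 2 = 1)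
    (hb : b % 2 = 1) : b = a ∨ b = a + 2 ∨ a = b + 2 := by
  rw [abs_le] at h1 h2
  have e1 : (a : ℝ) ≤ b + 2 := by linarith
  have e2 : (b : ℝ) ≤ a + 2 := by linarith
  have e3 : a ≤ b + 2 := by exact_mod_cast e1
  have e4 : b ≤ a + 2 := by exact_mod_cast e2
  omega

theorem gint_eq {x : ℝ} {a b : ℤ} (h1 : |x - a| < 1) (h2 : |x - b| ≤ 1) (ha : a % 2 = 1)
    (hb : b % 2 = 1) : a = b := by
  rw [abs_lt] at h1
  rw [abs_le] at h2
  have e1 : (a : ℝ) < b + 2 := by linarith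
  have e2 : (b : ℝ) < a + 2 := by linarith
  have e3 : a < b + 2 := by exact_mod_cast e1
  have e4 : b < a + 2 := by exact_mod_cast e2
  omega

theorem Bel_inter_Abo (C : Curve) (z : ℂ) (h1 : z ∈ Bel C) (h2 : z ∈ Abo C) : z ∈ Gam C := by
  obtain ⟨cx, cy, hcx, hcy, ht, hz⟩ := h1
  obtain ⟨dx', dy', hdx, hdy, ht', hz'⟩ := h2
  have hzd : z ∈ sq dx' cy := ⟨hz'.1, hz.2⟩
  rcases total_01 C dx' cy hdx hcy with h | h
  · rcases gint_near hz.1 hz'.1 hcx hdx with e | e | e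
    · subst e; omega
    · subst e
      exact gint_right C cx cy hcx hcy (by omega) z hz hzd
    · subst e
      exact gint_right C dx' cy hdx hcy (by omega) z hzd hz
  · rcases gint_near hz.2 hz'.2 hcy hdy with e | e | e
    · subst e; omega
    · subst e
      exact gint_up C dx' cy hdx hcy (by omega) z hzd hz'
    · subst e
      exact gint_up C dx' dy' hdx hdy (by omega) z hz' hzd

/-- the two cells of an edge -/
theorem gint_seg (C : Curve) (i : ℤ) (z : ℂ) (hz : z ∈ segment ℝ (vc C i) (vc C (i + 1))) :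
    (z ∈ sq (lcx C i) (lcy C i) ∧ lcx C i % 2 = 1 ∧ lcy C i % 2 = 1) ∧
    (z ∈ sq (rcx C i) (rcy C i) ∧ rcx C i % 2 = 1 ∧ rcy C i % 2 = 1) := by
  obtain ⟨a, b, ha, hb, hab, rfl⟩ := hz
  have e1 : (a • vc C i + b • vc C (i + 1)).re = a * C.vx i + b * C.vx (i + 1) := by
    simp only [vc, Complex.add_re, Complex.smul_re, smul_eq_mul]
  have e2 : (a • vc C i + b • vc C (i + 1)).im = a * C.vy i + b * C.vy (i + 1) := by
    simp only [vc, Complex.add_im, Complex.smul_im, smul_eq_mul]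
  obtain rfl : a = 1 - b := by linarith
  simp only [sq, Set.mem_ofPred_eq, e1, e2, lcx, lcy, rcx, rcy, sx, sy, dx, dy]
  rcases C.step i with ⟨h3 | h3, h4⟩ | ⟨h3, h4 | h4⟩
  all_goals
    rw [h3, h4]
    push_cast
    simp only [abs_le]
    refine ⟨⟨⟨⟨?_, ?_⟩, ⟨?_, ?_⟩⟩, ?_, ?_⟩, ⟨⟨⟨?_, ?_⟩, ⟨?_, ?_⟩⟩, ?_, ?_⟩⟩
    all_goals first | omega | nlinarith

theorem gint_int (C : Curve) (S : Set ℂ) (k cx cy : ℤ) (hcx : cx % 2 = 1) (hcy : cy % 2 = 1)
    (hS : ∀ w ∈ S, ∃ dx' dy' : ℤ, dx' % 2 = 1 ∧ dy' % 2 = 1 ∧ total C dx' dy' = k ∧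
      w ∈ sq dx' dy') (z : ℂ) (hz : z ∈ sq cx cy) (hi : z ∈ interior S) : total C cx cy = k := by
  let w : ℂ := ⟨cx / 2, cy / 2⟩
  have hc : Continuous fun t : ℝ => (1 - t) • z + t • w := by fun_prop
  have h0 : Filter.Tendsto (fun t : ℝ => (1 - t) • z + t • w) (nhdsWithin 0 (Set.Ioi 0))
      (nhds z) := by
    have := (hc.tendsto 0).mono_left (nhdsWithin_le_nhds (s := Set.Ioi (0 : ℝ)))
    simpa using this
  have h1 := h0.eventually (mem_interior_iff_mem_nhds.1 hi)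
  have h2 : ∀ᶠ t : ℝ in nhdsWithin 0 (Set.Ioi 0), t ∈ Set.Ioo (0 : ℝ) 1 :=
    Ioo_mem_nhdsGT one_pos
  obtain ⟨t, h3, h4, h5⟩ := (h1.and h2).exists
  obtain ⟨dx', dy', hdx, hdy, ht, h6⟩ := hS _ h3
  have key : ∀ (x : ℝ) (c : ℤ), |2 * x - c| ≤ 1 → |2 * ((1 - t) * x + t * (c / 2)) - c| < 1 := by
    intro x c h
    have e : 2 * ((1 - t) * x + t * (c / 2)) - c = (1 - t) * (2 * x - c) := by ring
    rw [e, abs_mul, abs_of_pos (by linarith)]
    nlinarith [abs_nonneg (2 * x - (c : ℝ))]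
  have r1 : ((1 - t) • z + t • w).re = (1 - t) * z.re + t * (cx / 2) := by
    simp only [w, Complex.add_re, Complex.smul_re, smul_eq_mul]
  have r2 : ((1 - t) • z + t • w).im = (1 - t) * z.im + t * (cy / 2) := by
    simp only [w, Complex.add_im, Complex.smul_im, smul_eq_mul]
  obtain ⟨h7, h8⟩ := h6
  rw [r1] at h7
  rw [r2] at h8
  have e1 := gint_eq (key z.re cx hz.1) h7 hcx hdx
  have e2 := gint_eq (key z.im cy hz.2) h8 hcy hdy
  rw [e1, e2]
  exact ht

theorem int_Bel (C : Curve) : interior (Bel C) = Bel C \ Gam C := by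
  apply Set.Subset.antisymm
  · intro z hz
    refine ⟨interior_subset hz, ?_⟩
    rintro ⟨i, hi⟩
    obtain ⟨⟨h1, h2, h3⟩, -⟩ := gint_seg C i z hi
    have := gint_int C (Bel C) 1 _ _ h2 h3 (fun w hw => hw) z h1 hz
    rw [total_lc] at this
    omega
  · rintro z ⟨hz, hg⟩
    have h1 : z ∈ (Abo C)ᶜ := fun h => hg (Bel_inter_Abo C z hz h)
    refine interior_maximal ?_ (Abo_closed C).isOpen_compl h1
    intro w hw
    exact (Bel_union_Abo C w).resolve_right hw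

theorem int_Abo (C : Curve) : interior (Abo C) = Abo C \ Gam C := by
  apply Set.Subset.antisymm
  · intro z hz
    refine ⟨interior_subset hz, ?_⟩
    rintro ⟨i, hi⟩
    obtain ⟨-, h1, h2, h3⟩ := gint_seg C i z hi
    have := gint_int C (Abo C) 0 _ _ h2 h3 (fun w hw => hw) z h1 hz
    rw [total_rc] at this
    omega
  · rintro z ⟨hz, hg⟩
    have h1 : z ∈ (Bel C)ᶜ := fun h => hg (Bel_inter_Abo C z h hz)
    refine interior_maximal ?_ (Bel_closed C).isOpen_compl h1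
    intro w hw
    exact (Bel_union_Abo C w).resolve_left hw

end H70Net
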