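import Pool.Agent.H70.Net.GeoInt

/-!
MP_77daaf_co, module `GeoPP` : interior and frontier of the polygon
PROOFS: see the header of module `GeoTop`.
-/

namespace H70Net

open Complex

private theorem gpp_sf_cont (C : Curve) : Continuous (sf C) := by
  unfold sf
  exact (continuous_const.mul Complex.continuous_re).sub
    (continuous_const.mul Complex.continuous_im)

theorem PP_closed (C : Curve) : IsClosed (PP C) := by
  have e : PP C = BandR C ∩ ({z | C.σ ≤ sf C z} ∩ {z | sf C z ≤ C.σ + 24 * C.q ^ 2}) := rfl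
  rw [e]
  exact (BandR_closed C).inter ((isClosed_le continuous_const (gpp_sf_cont C)).inter
    (isClosed_le (gpp_sf_cont C) continuous_const))

theorem interior_PP (C : Curve) : interior (PP C) =
    {z | z ∈ PP C ∧ z ∉ Gam C ∧ z + Ws C ∉ Gam C ∧ C.σ < sf C z ∧
      sf C z < C.σ + 24 * C.q ^ 2} := by
  have hq : (0 : ℝ) < C.q := by exact_mod_cast C_q_pos C
  have hBand := BandR_eq C
  apply Set.Subset.antisymm
  · intro z hz
    have hzP : z ∈ PP C := interior_subset hz
    refine ⟨hzP, ?_, ?_, ?_, ?_⟩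
    · have h1 : interior (PP C) ⊆ interior (Bel C) := by
        apply interior_mono
        intro w hw
        have hw1 : w ∈ BandR C := hw.1
        rw [hBand] at hw1
        exact hw1.1
      have h2 := h1 hz
      rw [int_Bel] at h2
      exact h2.2
    · have hopen : IsOpen ((fun w : ℂ => w - Ws C) ⁻¹' interior (PP C)) :=
        isOpen_interior.preimage (continuous_id.sub continuous_const)
      have hsub : (fun w : ℂ => w - Ws C) ⁻¹' interior (PP C) ⊆ Abo C := by
        intro w hw
        have hw0 : w - Ws C ∈ interior (PP C) := hw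
        have hw1 : w - Ws C ∈ BandR C := (interior_subset hw0).1
        rw [hBand] at hw1
        have hw2 := hw1.2
        rw [sub_add_cancel] at hw2
        exact hw2
      have h3 : z + Ws C ∈ interior (Abo C) := by
        apply interior_maximal hsub hopen
        show z + Ws C - Ws C ∈ interior (PP C)
        rw [add_sub_cancel_right]
        exact hz
      rw [int_Abo] at h3
      exact h3.2
    · obtain ⟨r, hr, hball⟩ := Metric.isOpen_iff.1 isOpen_interior z hz
      have hmem : z - ((r / 2 : ℝ) : ℂ) ∈ Metric.ball z r := by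
        rw [Metric.mem_ball, dist_eq_norm, sub_sub_cancel_left, norm_neg, Complex.norm_real,
          Real.norm_eq_abs, abs_of_pos (by linarith)]
        linarith
      have h4 : C.σ ≤ sf C (z - ((r / 2 : ℝ) : ℂ)) := (interior_subset (hball hmem)).2.1
      have h5 : sf C (z - ((r / 2 : ℝ) : ℂ)) = sf C z - 3 * C.q * (r / 2) := by
        unfold sf
        simp only [Complex.sub_re, Complex.sub_im, Complex.ofReal_re, Complex.ofReal_im]
        ring
      rw [h5] at h4
      nlinarith [mul_pos hq hr]
    · obtain ⟨r, hr, hball⟩ := Metric.isOpen_iff.1 isOpen_interior z hz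
      have hmem : z + ((r / 2 : ℝ) : ℂ) ∈ Metric.ball z r := by
        rw [Metric.mem_ball, dist_eq_norm, add_sub_cancel_left, Complex.norm_real,
          Real.norm_eq_abs, abs_of_pos (by linarith)]
        linarith
      have h4 : sf C (z + ((r / 2 : ℝ) : ℂ)) ≤ C.σ + 24 * C.q ^ 2 :=
        (interior_subset (hball hmem)).2.2
      have h5 : sf C (z + ((r / 2 : ℝ) : ℂ)) = sf C z + 3 * C.q * (r / 2) := by
        unfold sf
        simp only [Complex.add_re, Complex.add_im, Complex.ofReal_re, Complex.ofReal_im]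
        ring
      rw [h5] at h4
      nlinarith [mul_pos hq hr]
  · have hopen : IsOpen ((interior (Bel C) ∩ (fun w : ℂ => w + Ws C) ⁻¹' interior (Abo C)) ∩
        ({z | C.σ < sf C z} ∩ {z | sf C z < C.σ + 24 * C.q ^ 2})) :=
      (isOpen_interior.inter (isOpen_interior.preimage (continuous_id.add continuous_const))).inter
        ((isOpen_lt continuous_const (gpp_sf_cont C)).inter
          (isOpen_lt (gpp_sf_cont C) continuous_const))
    rintro z ⟨h1, h2, h3, h4, h5⟩
    have h6 : z ∈ BandR C := h1.1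
    rw [hBand] at h6
    refine interior_maximal ?_ hopen ⟨⟨?_, ?_⟩, h4, h5⟩
    · rintro w ⟨⟨k1, k2⟩, k3, k4⟩
      refine ⟨?_, le_of_lt k3, le_of_lt k4⟩
      rw [hBand]
      exact ⟨interior_subset k1, interior_subset k2⟩
    · rw [int_Bel]
      exact ⟨h6.1, h2⟩
    · show z + Ws C ∈ interior (Abo C)
      rw [int_Abo]
      exact ⟨h6.2, h3⟩

theorem frontier_PP (C : Curve) : frontier (PP C) =
    {z | z ∈ PP C ∧ (z ∈ Gam C ∨ z + Ws C ∈ Gam C ∨ sf C z = C.σ ∨
      sf C z = C.σ + 24 * C.q ^ 2)} := by
  rw [(PP_closed C).frontier_eq, interior_PP]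
  ext z
  simp only [Set.mem_sdiff, Set.mem_ofPred_eq]
  constructor
  · rintro ⟨h1, h2⟩
    refine ⟨h1, ?_⟩
    by_contra h3
    push Not at h3
    obtain ⟨h4, h5, h6, h7⟩ := h3
    exact h2 ⟨h1, h4, h5, lt_of_le_of_ne h1.2.1 (Ne.symm h6), lt_of_le_of_ne h1.2.2 h7⟩
  · rintro ⟨h1, h2⟩
    refine ⟨h1, ?_⟩
    rintro ⟨_, h4, h5, h6, h7⟩
    rcases h2 with h2 | h2 | h2 | h2
    · exact h4 h2
    · exact h5 h2
    · rw [h2] at h6
      exact lt_irrefl _ h6
    · rw [h2] at h7
      exact lt_irrefl _ h7

end H70Net
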