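import Pool.Agent.H70.Net.Geo

/-!
MP_77daaf_co, module `GeoTop` : topology of the regions.

PROOFS.
* `sq_closed`, `sq_convex`: intersection of four closed half planes.
* `sq_cover`: every `z` lies in a square with odd `cx, cy` (`cx = 2 ⌊re z⌋ + 1`).
* `closed_union`: a union of squares over any set of centres is closed: the family of all the
  squares is locally finite (the ball of radius `1` about `z` meets only squares with
  `|cx - 2 re z| ≤ 3`, `|cy - 2 im z| ≤ 3`): `LocallyFinite.isClosed_iUnion`.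
* `Bel_closed, Abo_closed`: by `closed_union`; `Bel_union_Abo`: `sq_cover`, `total_01`.
* `Gam_sub`: for `z` in edge `i`: `z ∈ sq (rc i)` and `z ∈ sq (lc i)` (`total_rc`, `total_lc`).
* `Bel_inter_Abo`: let `z ∈ sq c ∩ sq c'`, `total c = 1`, `total c' = 0`; `c' - c ∈ {-2,0,2}²`.  If they
  differ in one coordinate, their common edge is in the curve (`edge_of_ne_right/up`) and `z` is in it
  (`z` is in the intersection of the two squares, which is the common edge; the edge `i` with that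
  midpoint is the segment from `v i` to `v (i+1)`).  If they differ in both coordinates, `z` is the
  common vertex; let `d = (c'.x, c.y)`; `total d` is `0` or `1`; use the pair `(c, d)` or `(d, c')`.
* `int_Bel`: `interior (Bel) = Bel \ Gam`: `⊇`: `z ∈ Bel \ Gam` is not in `Abo`, and `Aboᶜ` is open and
  contained in `Bel`.  `⊆`: if `z ∈ Gam`, `z` in the edge `i`, every neighbourhood of `z` contains points
  of the open square `lc i`, which are not in `Bel` (a point with `|2x - cx| < 1, |2y - cy| < 1` is in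
  no other square).
* `frontier_PP`: `PP` is closed; `interior PP = {z ∈ PP | z ∉ Gam, z + W ∉ Gam, σ < sf z < σ + 24q²}`:
  `⊇` is clear (intersection of open sets, `BandR_eq`, `int_Bel`, `int_Abo`); `⊆`: `int_Bel`, `int_Abo`
  (`PP ⊆ Bel`, `PP + W ⊆ Abo`), and if `sf z = σ` then `z - ε` is not in `PP` (`sf 1 > 0`).
-/

namespace H70Net

open Complex

theorem sq_closed (cx cy : ℤ) : IsClosed (sq cx cy) := by
  have h1 : IsClosed {z : ℂ | |2 * z.re - cx| ≤ 1} :=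
    isClosed_le (by fun_prop) continuous_const
  have h2 : IsClosed {z : ℂ | |2 * z.im - cy| ≤ 1} :=
    isClosed_le (by fun_prop) continuous_const
  exact h1.inter h2

theorem sq_convex (cx cy : ℤ) : Convex ℝ (sq cx cy) := by
  rintro z ⟨h1, h2⟩ w ⟨h3, h4⟩ a b ha hb hab
  rw [abs_le] at h1 h2 h3 h4
  have e1 : (a • z + b • w).re = a * z.re + b * w.re := by simp
  have e2 : (a • z + b • w).im = a * z.im + b * w.im := by simp
  obtain rfl : b = 1 - a := by linarith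
  constructor
  · rw [e1, abs_le]
    constructor <;> nlinarith
  · rw [e2, abs_le]
    constructor <;> nlinarith

theorem sq_cover (z : ℂ) : ∃ cx cy : ℤ, cx % 2 = 1 ∧ cy % 2 = 1 ∧ z ∈ sq cx cy := by
  refine ⟨2 * ⌊z.re⌋ + 1, 2 * ⌊z.im⌋ + 1, by omega, by omega, ?_, ?_⟩
  · have h1 := Int.floor_le z.re
    have h2 := Int.lt_floor_add_one z.re
    push_cast
    rw [abs_le]
    constructor <;> linarith
  · have h1 := Int.floor_le z.im
    have h2 := Int.lt_floor_add_one z.im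
    push_cast
    rw [abs_le]
    constructor <;> linarith

private theorem gt_near (z w : ℂ) (x y : ℤ) (h : w ∈ sq x y) (hw : w ∈ Metric.ball z 1) :
    (⌊2 * z.re⌋ - 3 ≤ x ∧ x ≤ ⌊2 * z.re⌋ + 4) ∧ (⌊2 * z.im⌋ - 3 ≤ y ∧ y ≤ ⌊2 * z.im⌋ + 4) := by
  rw [Metric.mem_ball, dist_eq_norm] at hw
  have h1 := (Complex.abs_re_le_norm (w - z)).trans_lt hw
  have h2 := (Complex.abs_im_le_norm (w - z)).trans_lt hw
  rw [Complex.sub_re, abs_lt] at h1
  rw [Complex.sub_im, abs_lt] at h2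
  obtain ⟨h3, h4⟩ := h
  rw [abs_le] at h3 h4
  have f1 := Int.floor_le (2 * z.re)
  have f2 := Int.lt_floor_add_one (2 * z.re)
  have f3 := Int.floor_le (2 * z.im)
  have f4 := Int.lt_floor_add_one (2 * z.im)
  refine ⟨⟨?_, ?_⟩, ?_, ?_⟩
  · have : ((⌊2 * z.re⌋ - 3 : ℤ) : ℝ) ≤ (x : ℝ) := by
      push_cast
      linarith [h1.1, h1.2, h3.1, h3.2]
    exact_mod_cast this
  · have : (x : ℝ) ≤ ((⌊2 * z.re⌋ + 4 : ℤ) : ℝ) := by
      push_cast
      linarith [h1.1, h1.2, h3.1, h3.2]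
    exact_mod_cast this
  · have : ((⌊2 * z.im⌋ - 3 : ℤ) : ℝ) ≤ (y : ℝ) := by
      push_cast
      linarith [h2.1, h2.2, h4.1, h4.2]
    exact_mod_cast this
  · have : (y : ℝ) ≤ ((⌊2 * z.im⌋ + 4 : ℤ) : ℝ) := by
      push_cast
      linarith [h2.1, h2.2, h4.1, h4.2]
    exact_mod_cast this

theorem closed_union (S : Set (ℤ × ℤ)) : IsClosed (⋃ c ∈ S, sq c.1 c.2) := by
  rw [Set.biUnion_eq_iUnion]
  have hf : LocallyFinite (fun c : S => sq c.1.1 c.1.2) := by
    intro z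
    refine ⟨Metric.ball z 1, Metric.ball_mem_nhds z one_pos, ?_⟩
    have hfin : (Set.Icc (⌊2 * z.re⌋ - 3) (⌊2 * z.re⌋ + 4) ×ˢ
        Set.Icc (⌊2 * z.im⌋ - 3) (⌊2 * z.im⌋ + 4)).Finite :=
      (Set.finite_Icc _ _).prod (Set.finite_Icc _ _)
    have hinj : Set.InjOn (Subtype.val : S → ℤ × ℤ)
        (Subtype.val ⁻¹' (Set.Icc (⌊2 * z.re⌋ - 3) (⌊2 * z.re⌋ + 4) ×ˢ
        Set.Icc (⌊2 * z.im⌋ - 3) (⌊2 * z.im⌋ + 4))) :=
      fun a _ b _ h => Subtype.ext h
    refine (hfin.preimage hinj).subset ?_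
    rintro ⟨⟨x, y⟩, hc⟩ ⟨w, hw1, hw2⟩
    exact gt_near z w x y hw1 hw2
  exact hf.isClosed_iUnion fun c => sq_closed _ _

theorem Bel_closed (C : Curve) : IsClosed (Bel C) := by
  have h : Bel C = ⋃ c ∈ {c : ℤ × ℤ | c.1 % 2 = 1 ∧ c.2 % 2 = 1 ∧ total C c.1 c.2 = 1},
      sq c.1 c.2 := by
    ext z
    simp only [Set.mem_iUnion]
    constructor
    · rintro ⟨x, y, h1, h2, h3, h4⟩
      exact ⟨(x, y), ⟨h1, h2, h3⟩, h4⟩
    · rintro ⟨⟨x, y⟩, ⟨h1, h2, h3⟩, h4⟩
      exact ⟨x, y, h1, h2, h3, h4⟩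
  rw [h]
  exact closed_union _

theorem Abo_closed (C : Curve) : IsClosed (Abo C) := by
  have h : Abo C = ⋃ c ∈ {c : ℤ × ℤ | c.1 % 2 = 1 ∧ c.2 % 2 = 1 ∧ total C c.1 c.2 = 0},
      sq c.1 c.2 := by
    ext z
    simp only [Set.mem_iUnion]
    constructor
    · rintro ⟨x, y, h1, h2, h3, h4⟩
      exact ⟨(x, y), ⟨h1, h2, h3⟩, h4⟩
    · rintro ⟨⟨x, y⟩, ⟨h1, h2, h3⟩, h4⟩
      exact ⟨x, y, h1, h2, h3, h4⟩
  rw [h]
  exact closed_union _

theorem BandR_closed (C : Curve) : IsClosed (BandR C) := by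
  have h : BandR C = ⋃ c ∈ {c : ℤ × ℤ | Band C c.1 c.2}, sq c.1 c.2 := by
    ext z
    simp only [Set.mem_iUnion]
    constructor
    · rintro ⟨x, y, h1, h4⟩
      exact ⟨(x, y), h1, h4⟩
    · rintro ⟨⟨x, y⟩, h1, h4⟩
      exact ⟨x, y, h1, h4⟩
  rw [h]
  exact closed_union _

theorem Bel_union_Abo (C : Curve) (z : ℂ) : z ∈ Bel C ∨ z ∈ Abo C := by
  obtain ⟨x, y, h1, h2, h3⟩ := sq_cover z
  rcases total_01 C x y h1 h2 with h | h
  · exact Or.inr ⟨x, y, h1, h2, h, h3⟩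
  · exact Or.inl ⟨x, y, h1, h2, h, h3⟩

private theorem gt_mem (C : Curve) (i x y : ℤ) (h1 : |2 * C.vx i - x| ≤ 1)
    (h2 : |2 * C.vy i - y| ≤ 1) : vc C i ∈ sq x y := by
  constructor
  · have : ((|2 * C.vx i - x| : ℤ) : ℝ) ≤ ((1 : ℤ) : ℝ) := by exact_mod_cast h1
    push_cast at this
    exact this
  · have : ((|2 * C.vy i - y| : ℤ) : ℝ) ≤ ((1 : ℤ) : ℝ) := by exact_mod_cast h2
    push_cast at this
    exact this

theorem Gam_sub (C : Curve) (z : ℂ) (h : z ∈ Gam C) : z ∈ Bel C ∧ z ∈ Abo C := by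
  obtain ⟨i, hi⟩ := h
  have hr : rcx C i % 2 = 1 ∧ rcy C i % 2 = 1 ∧ lcx C i % 2 = 1 ∧ lcy C i % 2 = 1 := by
    unfold rcx rcy lcx lcy
    rcases edge_cases C i with ⟨h1, h2, h3, h4⟩ | ⟨h1, h2, h3, h4⟩ <;> omega
  have e1 : C.vx (i + 1) = C.vx i + dx C i := by unfold dx; ring
  have e2 : C.vy (i + 1) = C.vy i + dy C i := by unfold dy; ring
  have e3 : sx C i = 2 * C.vx i + dx C i := by unfold sx dx; ring
  have e4 : sy C i = 2 * C.vy i + dy C i := by unfold sy dy; ring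
  have hc := edge_cases C i
  constructor
  · refine ⟨rcx C i, rcy C i, hr.1, hr.2.1, total_rc C i, ?_⟩
    refine (sq_convex _ _).segment_subset (gt_mem C i _ _ ?_ ?_) (gt_mem C (i + 1) _ _ ?_ ?_) hi
    · rw [abs_le]; unfold rcx; omega
    · rw [abs_le]; unfold rcy; omega
    · rw [abs_le]; unfold rcx; omega
    · rw [abs_le]; unfold rcy; omega
  · refine ⟨lcx C i, lcy C i, hr.2.2.1, hr.2.2.2, total_lc C i, ?_⟩
    refine (sq_convex _ _).segment_subset (gt_mem C i _ _ ?_ ?_) (gt_mem C (i + 1) _ _ ?_ ?_) hi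
    · rw [abs_le]; unfold lcx; omega
    · rw [abs_le]; unfold lcy; omega
    · rw [abs_le]; unfold lcx; omega
    · rw [abs_le]; unfold lcy; omega

end H70Net
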