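import Pool.Agent.H70.Net.GeoInt

/-!
MP_77daaf_co, module `GeoW` : the band is a fundamental domain for the translation by W
PROOFS: see the header of module `GeoTop (and the doc strings)`.
-/

namespace H70Net

open Complex

/-- the curve is in the horizontal strip `-2q-p < 2y < p` -/
theorem Gam_range (C : Curve) (z : ℂ) (h : z ∈ Gam C) :
    (-2 * C.q - C.p : ℝ) < 2 * z.im ∧ 2 * z.im < C.p := by
  obtain ⟨i, a, b, ha, hb, hab, rfl⟩ := h
  have h1 := vy_range C i
  have h2 := vy_range C (i + 1)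
  have h1a : (-2 * C.q - C.p : ℝ) < 2 * C.vy i := by exact_mod_cast h1.1
  have h1b : (2 * C.vy i : ℝ) < C.p := by exact_mod_cast h1.2
  have h2a : (-2 * C.q - C.p : ℝ) < 2 * C.vy (i + 1) := by exact_mod_cast h2.1
  have h2b : (2 * C.vy (i + 1) : ℝ) < C.p := by exact_mod_cast h2.2
  have him : (a • vc C i + b • vc C (i + 1)).im = a * C.vy i + b * C.vy (i + 1) := by
    simp [vc]
  rw [him]
  have hb' : b = 1 - a := by linarith
  subst hb'
  rcases ha.eq_or_lt with h0 | h0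
  · rw [← h0]
    constructor <;> linarith
  · constructor
    · nlinarith [mul_lt_mul_of_pos_left h1a h0, mul_le_mul_of_nonneg_left h2a.le hb]
    · nlinarith [mul_lt_mul_of_pos_left h1b h0, mul_le_mul_of_nonneg_left h2b.le hb]

/-- points with `2y ≥ p` are above, points with `2y ≤ -2q-p` are below -/
theorem Abo_of_high (C : Curve) (z : ℂ) (h : (C.p : ℝ) ≤ 2 * z.im) : z ∈ Abo C ∧ z ∉ Bel C := by
  have hA : z ∈ Abo C := by
    obtain ⟨cx, cy, hx, hy, hz⟩ := sq_cover z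
    rcases le_or_gt C.p cy with hc | hc
    · exact ⟨cx, cy, hx, hy, total_above C cx cy hc, hz⟩
    · have h2 := abs_le.1 hz.2
      have h3 : ((C.p - 1 : ℤ) : ℝ) ≤ cy := by push_cast; linarith [h2.2]
      have h4 : C.p - 1 ≤ cy := by exact_mod_cast h3
      have h5 : cy = C.p - 1 := by omega
      have h6 : (cy : ℝ) = C.p - 1 := by exact_mod_cast h5
      refine ⟨cx, cy + 2, hx, by omega, total_above C cx (cy + 2) (by omega), hz.1, ?_⟩
      rw [abs_le]
      push_cast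
      constructor <;> linarith [h2.1, h2.2]
  refine ⟨hA, fun hB => ?_⟩
  have := (Gam_range C z (Bel_inter_Abo C z hB hA)).2
  linarith

theorem Bel_of_low (C : Curve) (z : ℂ) (h : 2 * z.im ≤ (-2 * C.q - C.p : ℝ)) :
    z ∈ Bel C ∧ z ∉ Abo C := by
  have hB : z ∈ Bel C := by
    obtain ⟨cx, cy, hx, hy, hz⟩ := sq_cover z
    rcases le_or_gt cy (-2 * C.q - C.p) with hc | hc
    · exact ⟨cx, cy, hx, hy, total_below C cx cy hx hc, hz⟩
    · have h2 := abs_le.1 hz.2
      have h3 : (cy : ℝ) ≤ ((-2 * C.q - C.p + 1 : ℤ) : ℝ) := by push_cast; linarith [h2.1]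
      have h4 : cy ≤ -2 * C.q - C.p + 1 := by exact_mod_cast h3
      have h5 : cy = -2 * C.q - C.p + 1 := by omega
      have h6 : (cy : ℝ) = -2 * C.q - C.p + 1 := by exact_mod_cast h5
      refine ⟨cx, cy - 2, hx, by omega, total_below C cx (cy - 2) hx (by omega), hz.1, ?_⟩
      rw [abs_le]
      push_cast
      constructor <;> linarith [h2.1, h2.2]
  refine ⟨hB, fun hA => ?_⟩
  have := (Gam_range C z (Bel_inter_Abo C z hB hA)).1
  linarith

theorem geoW_im (C : Curve) (z : ℂ) (k : ℤ) : (z + k * Ws C).im = z.im + 3 * C.q * k := by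
  simp [Ws]
  ring

theorem geoW_succ (C : Curve) (z : ℂ) (k : ℤ) :
    z + k * Ws C + Ws C = z + ((k + 1 : ℤ) : ℂ) * Ws C := by
  push_cast
  ring

theorem geoW_q (C : Curve) : (1 : ℝ) ≤ C.q ∧ (C.p : ℝ) < C.q ∧ (0 : ℝ) < C.p := by
  have h1 := C.hp
  have h2 := C.hpq
  refine ⟨?_, ?_, ?_⟩
  · have : (1 : ℤ) ≤ C.q := by omega
    exact_mod_cast this
  · have : C.p < C.q := by omega
    exact_mod_cast this
  · exact_mod_cast h1

/-- fundamental domain for the translation by `W`, existence.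
PROOF: `z + k W` has imaginary part `y + 3 q k`.  Let `k` be the largest integer with
`z + k W ∈ Bel` (it exists: for large `k` it is not in `Bel` (`Abo_of_high`), for small `k` it is
(`Bel_of_low`)); then `z + (k+1) W ∉ Bel`, so it is in `Abo`. -/
theorem exists_W (C : Curve) (z : ℂ) : ∃ k : ℤ, z + k * Ws C ∈ BandR C := by
  obtain ⟨hq, hpq, hp⟩ := geoW_q C
  obtain ⟨k, hk, hmax⟩ := Int.exists_greatest_of_bdd
    (P := fun k : ℤ => z + k * Ws C ∈ Bel C) (by
      refine ⟨max 0 ⌈(C.p : ℝ) - 2 * z.im⌉, fun k hk => ?_⟩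
      by_contra hcon
      rw [not_le, max_lt_iff] at hcon
      have h1 : (0 : ℝ) < k := by exact_mod_cast hcon.1
      have h2 : (C.p : ℝ) - 2 * z.im ≤ k := by
        have h3 := Int.le_ceil ((C.p : ℝ) - 2 * z.im)
        have h4 : ((⌈(C.p : ℝ) - 2 * z.im⌉ : ℤ) : ℝ) < k := by exact_mod_cast hcon.2
        linarith
      refine (Abo_of_high C _ ?_).2 hk
      rw [geoW_im]
      nlinarith [mul_le_mul_of_nonneg_right hq h1.le]) (by
      refine ⟨-max 0 ⌈2 * z.im + 2 * C.q + C.p⌉, (Bel_of_low C _ ?_).1⟩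
      rw [geoW_im]
      have h1 : (0 : ℝ) ≤ ((max 0 ⌈2 * z.im + 2 * C.q + C.p⌉ : ℤ) : ℝ) := by
        exact_mod_cast le_max_left _ _
      have h2 : 2 * z.im + 2 * C.q + C.p ≤ ((max 0 ⌈2 * z.im + 2 * C.q + C.p⌉ : ℤ) : ℝ) := by
        have h3 := Int.le_ceil (2 * z.im + 2 * (C.q : ℝ) + C.p)
        have h4 : ((⌈2 * z.im + 2 * (C.q : ℝ) + C.p⌉ : ℤ) : ℝ) ≤
            ((max 0 ⌈2 * z.im + 2 * (C.q : ℝ) + C.p⌉ : ℤ) : ℝ) := by
          exact_mod_cast le_max_right _ _
        linarith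
      rw [Int.cast_neg]
      nlinarith [mul_le_mul_of_nonneg_right hq h1])
  refine ⟨k, ?_⟩
  rw [BandR_eq]
  refine ⟨hk, ?_⟩
  rw [geoW_succ]
  rcases Bel_union_Abo C (z + ((k + 1 : ℤ) : ℂ) * Ws C) with h | h
  · exact absurd (hmax (k + 1) h) (by omega)
  · exact h

/-- uniqueness in the interior.  PROOF: `z ∈ BandR`, `z ∉ Gam`, `z + W ∉ Gam`, so `z ∉ Abo` and
`z + W ∉ Bel` (`Bel_inter_Abo`).  If `k ≥ 1` and `z + k W ∈ BandR ⊆ Bel` then for `k ≥ 2` the imaginary part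
of `z + W` is at most `p/2 - 3q < -q - p/2`... (`Abo_of_high` contrapositive gives
`2 Im (z + k W) < p`), so `z + W ∈ Bel`, contradiction; for `k = 1` also.  If `k ≤ -1`:
`z + (k+1) W ∈ Abo`; `k = -1`: `z ∈ Abo`, contradiction; `k ≤ -2`: `2 Im (z + (k+1)W) > -2q-p` gives
`2 Im z > -2q - p + 6q > p`, so `z ∈ Abo`, contradiction. -/
theorem unique_W (C : Curve) (z : ℂ) (h : z ∈ BandR C) (h1 : z ∉ Gam C) (h2 : z + Ws C ∉ Gam C)
    (k : ℤ) (hk : z + k * Ws C ∈ BandR C) : k = 0 := by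
  obtain ⟨hq, hpq, hp⟩ := geoW_q C
  rw [BandR_eq] at h hk
  obtain ⟨ha, hb⟩ := h
  obtain ⟨hc, hd⟩ := hk
  rw [geoW_succ] at hd
  have hzA : z ∉ Abo C := fun h => h1 (Bel_inter_Abo C z ha h)
  have hzB : z + Ws C ∉ Bel C := fun h => h2 (Bel_inter_Abo C _ h hb)
  have hW1 : z + Ws C = z + ((1 : ℤ) : ℂ) * Ws C := by push_cast; ring
  rcases lt_trichotomy k 0 with hk0 | hk0 | hk0
  · exfalso
    rcases (show k = -1 ∨ k ≤ -2 by omega) with rfl | hk2
    · apply hzA
      have e : z + ((-1 + 1 : ℤ) : ℂ) * Ws C = z := by push_cast; ring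
      rwa [e] at hd
    · have h3 : (-2 * C.q - C.p : ℝ) < 2 * (z + ((k + 1 : ℤ) : ℂ) * Ws C).im := by
        by_contra hcon
        exact (Bel_of_low C _ (not_lt.1 hcon)).2 hd
      rw [geoW_im] at h3
      have h4 : ((k + 1 : ℤ) : ℝ) ≤ -1 := by
        have : k + 1 ≤ -1 := by omega
        exact_mod_cast this
      apply hzA
      refine (Abo_of_high C z ?_).1
      nlinarith [mul_le_mul_of_nonneg_left h4 (show (0 : ℝ) ≤ C.q by linarith)]
  · exact hk0
  · exfalso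
    rcases (show k = 1 ∨ 2 ≤ k by omega) with rfl | hk2
    · apply hzB
      rwa [hW1]
    · have h3 : 2 * (z + (k : ℂ) * Ws C).im < C.p := by
        by_contra hcon
        exact (Abo_of_high C _ (not_lt.1 hcon)).2 hc
      rw [geoW_im] at h3
      have h4 : (2 : ℝ) ≤ k := by exact_mod_cast hk2
      apply hzB
      refine (Bel_of_low C _ ?_).1
      rw [hW1, geoW_im]
      push_cast
      nlinarith [mul_le_mul_of_nonneg_left h4 (show (0 : ℝ) ≤ C.q by linarith)]

end H70Net
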