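import Pool.Agent.H70.Net.EltY

/-!
MP_77daaf_co, module `Hull` : hull bounds of the elements.

Let `l = ll (m+1)`, `n = nn (m+1)`, `e = dd (m-1)` (natural subtraction, `dd 0 = 0`),
`d = dd (m+1)`, `d0 = dd m`.

`Hull D m` says
 (im)  for ALL integers `x`:  `-e ≤ Im (Y m x) ≤ d`;
 (re)  for `x ≥ 0`: `-e ≤ Re (Y m x)`;
 (box) for `0 ≤ x ≤ n`: `-d0 ≤ Re (zeta * Y m x), Im (zeta * Y m x) ≤ l √2/2 + d0`.
(By the mirror symmetry also `Re (Y m x) ≤ l + e` for `x ≤ n`: lemma `Hull.re_le`.)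

PROOF by induction on `m`; `Hull 0` and `Hull 1`... :
 `m = 0`: `Y 0 x = x`: `Im = 0`, `dd 0 = dd 1 = 0`; (box): `x ∈ {0,1}`, `zeta * x`, `l = 1`.
 Step (im),(re) for `m+1` from (box) for `m`: block `2kn + i`: `k √2 l + zeta cs s (y i)`
   (`y = Y m`); with `w = zeta * y i = (p, q)` in the box, `zeta * cs s (y i)` is `w` (s = -1) or
   `zeta * conj (y i) = I * conj w = (q, p)` (s = 1): in the box again.  Block `(2k+1)n + i`:
   `k √2 l + zeta l + conj (...)`, `Im = l √2/2 - (number in [-d0, l √2/2 + d0])`.  So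
   `Im ∈ [-d0, l√2/2 + d0]`, and `dd (m+2) = l √2/2 + dd m`.  `Re ≥ -d0` for `x ≥ 0` (`k ≥ 0`).
 Step (box) for `m+1` from (im),(re),(re_le) for `m` and (box) for `m-1`:
   `zeta * Y (m+1) (2kn+i) = k (1+I) l + I * cs s (y i)` (`zeta √2 = 1 + I`),
   `zeta * Y (m+1) ((2k+1)n+i) = k (1+I) l + I l + conj (cs s (y i))`
   (`zeta * conj zeta = 1`).  Here `0 ≤ x ≤ n₁ = 2 a n + s n'`, `n' = nn m`, `l' = ll m`,
   `ll (m+2) √2/2 = a l + s l' √2/2`, `dd (m+1) = l' √2/2 + dd (m-1)` (`dd_rec`).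
   With `y i = (α, β)`, `α ∈ [-e, l+e]`, `β ∈ [-e, d]`, `0 ≤ k`, and `k ≤ a - 1` for all blocks inside
   `[0, 2 a n]`:
   `s = 1`: even: `(k l + β, k l + α)`, odd: `(k l + α, k l + l + β)`;
   `s = -1`: even: `(k l - β, k l + α)`, odd: `(k l + α, k l + l - β)`.
   All coordinates are `≥ -d`; and `≤ a l + e ≤ a l + s l' √2/2 + d` or (`s = 1`)
   `≤ a l + d`; fine in all cases (use `e ≤ d`, `d = l' √2/2 + e`, `√2 l' ≤ l`).
   For `s = 1` there is also the last block `2 a n + i`, `0 ≤ i ≤ n'`: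
   `a (1+I) l + I * conj (Y m i)`; for `m ≥ 1`, `Y m i = zeta * cs (s m) (Y (m-1) i)` (`st_Icc`), so
   `I * conj (Y m i) = zeta * conj (cs (s m) (Y (m-1) i))`, which is `w' = zeta * Y (m-1) i` or
   (swapped coordinates) `I * conj w'`; by (box) for `m-1` its coordinates are in
   `[-dd (m-1), l' √2/2 + dd (m-1)]`.  For `m = 0`: `n' = 0`, `i = 0`, `Y 0 0 = 0`.
   So it is convenient to prove `Hull D m ∧ Hull D (m+1)` by induction.
-/

namespace H70Net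

open Complex

structure Hull (D : Dig) (m : ℕ) : Prop where
  im1 : ∀ x : ℤ, -dd D (m - 1) ≤ (Y D m x).im
  im2 : ∀ x : ℤ, (Y D m x).im ≤ dd D (m + 1)
  re1 : ∀ x : ℤ, 0 ≤ x → -dd D (m - 1) ≤ (Y D m x).re
  b1 : ∀ x : ℤ, 0 ≤ x → x ≤ nn D (m + 1) → -dd D m ≤ (zeta * Y D m x).re
  b2 : ∀ x : ℤ, 0 ≤ x → x ≤ nn D (m + 1) → (zeta * Y D m x).re ≤ ll D (m + 1) * (√2 / 2) + dd D m
  b3 : ∀ x : ℤ, 0 ≤ x → x ≤ nn D (m + 1) → -dd D m ≤ (zeta * Y D m x).im
  b4 : ∀ x : ℤ, 0 ≤ x → x ≤ nn D (m + 1) → (zeta * Y D m x).im ≤ ll D (m + 1) * (√2 / 2) + dd D m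

theorem Hull.re_le {D : Dig} {m : ℕ} (h : Hull D m) (x : ℤ) (hx : x ≤ nn D (m + 1)) :
    (Y D m x).re ≤ ll D (m + 1) + dd D (m - 1) := by
  have h1 := (eltY D m).mir (nn D (m + 1) - x)
  rw [show nn D (m + 1) - (nn D (m + 1) - x) = x by ring] at h1
  have h2 := h.re1 (nn D (m + 1) - x) (by linarith)
  have h3 : (Y D m x).re = ll D (m + 1) - (Y D m (nn D (m + 1) - x)).re := by
    rw [h1]
    simp
  rw [h3]
  linarith

theorem hull_zero (D : Dig) : Hull D 0 := by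
  have hY : ∀ x : ℤ, Y D 0 x = (x : ℂ) := fun x => rfl
  have h2 : (0 : ℝ) ≤ √2 / 2 := by positivity
  have hz1 : ∀ x : ℤ, (zeta * Y D 0 x).re = (√2 / 2) * (x : ℝ) := fun x => by
    rw [hY]
    simp [zeta]
  have hz2 : ∀ x : ℤ, (zeta * Y D 0 x).im = (√2 / 2) * (x : ℝ) := fun x => by
    rw [hY]
    simp [zeta]
  have hn : nn D (0 + 1) = 1 := rfl
  have hl : ll D (0 + 1) = 1 := rfl
  have hd0 : dd D 0 = 0 := rfl
  have hd1 : dd D (0 + 1) = 0 := rfl
  have hd2 : dd D (0 - 1) = 0 := rfl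
  have hb : ∀ x : ℤ, 0 ≤ x → x ≤ 1 → (0 : ℝ) ≤ x ∧ (x : ℝ) ≤ 1 := fun x h0 h1 =>
    ⟨by exact_mod_cast h0, by exact_mod_cast h1⟩
  refine ⟨fun x => ?_, fun x => ?_, fun x h0 => ?_, fun x h0 h1 => ?_, fun x h0 h1 => ?_,
    fun x h0 h1 => ?_, fun x h0 h1 => ?_⟩
  · rw [hd2, hY]
    simp
  · rw [hd1, hY]
    simp
  · rw [hd2, hY]
    have : (0 : ℝ) ≤ x := by exact_mod_cast h0
    simpa using this
  · rw [hn] at h1
    rw [hz1, hd0]
    have := (hb x h0 h1).1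
    nlinarith
  · rw [hn] at h1
    rw [hz1, hd0, hl]
    have := (hb x h0 h1).2
    nlinarith
  · rw [hn] at h1
    rw [hz2, hd0]
    have := (hb x h0 h1).1
    nlinarith
  · rw [hn] at h1
    rw [hz2, hd0, hl]
    have := (hb x h0 h1).2
    nlinarith

private theorem hull_swap (z : ℂ) : zeta * cs 1 z = ⟨(zeta * z).im, (zeta * z).re⟩ := by
  apply Complex.ext
  · simp [cs, zeta]
    ring
  · simp [cs, zeta]
    ring

private theorem hull_noswap (z : ℂ) : zeta * cs (-1) z = zeta * z := by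
  simp [cs]

/-- the step: `im1, im2, re1` for `m + 1` from the box of level `m` -/
theorem hull_step_axis (D : Dig) (m : ℕ) (h : Hull D m) :
    (∀ x : ℤ, -dd D m ≤ (Y D (m + 1) x).im) ∧
    (∀ x : ℤ, (Y D (m + 1) x).im ≤ dd D (m + 2)) ∧
    (∀ x : ℤ, 0 ≤ x → -dd D m ≤ (Y D (m + 1) x).re) := by
  have hE := eltY D m
  have hd : dd D (m + 2) = ll D (m + 1) * (√2 / 2) + dd D m := rfl
  have hYY : ∀ x, Y D (m + 1) x = st (D.s (m + 1)) (nn D (m + 1)) (ll D (m + 1)) (Y D m) x :=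
    fun x => rfl
  have h2 : (0 : ℝ) ≤ √2 := Real.sqrt_nonneg 2
  have hl : 0 < ll D (m + 1) := ll_pos D m
  have hll : 0 ≤ ll D (m + 1) * (√2 / 2) := by positivity
  have hll' : 0 ≤ √2 * ll D (m + 1) := by positivity
  have hd0 := dd_nonneg D m
  have hbox : ∀ i : ℤ, 0 ≤ i → i ≤ nn D (m + 1) →
      -dd D m ≤ (zeta * cs (D.s (m + 1)) (Y D m i)).re ∧
      (zeta * cs (D.s (m + 1)) (Y D m i)).re ≤ ll D (m + 1) * (√2 / 2) + dd D m ∧
      -dd D m ≤ (zeta * cs (D.s (m + 1)) (Y D m i)).im ∧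
      (zeta * cs (D.s (m + 1)) (Y D m i)).im ≤ ll D (m + 1) * (√2 / 2) + dd D m := by
    intro i h0 h1
    rcases D.hs (m + 1) with hs | hs
    · rw [hs, hull_swap]
      exact ⟨h.b3 i h0 h1, h.b4 i h0 h1, h.b1 i h0 h1, h.b2 i h0 h1⟩
    · rw [hs, hull_noswap]
      exact ⟨h.b1 i h0 h1, h.b2 i h0 h1, h.b3 i h0 h1, h.b4 i h0 h1⟩
  have key : ∀ x : ℤ, -dd D m ≤ (Y D (m + 1) x).im ∧ (Y D (m + 1) x).im ≤ dd D (m + 2) ∧
      (0 ≤ x → -dd D m ≤ (Y D (m + 1) x).re) := by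
    intro x
    obtain ⟨k, i, h0, h1, hx, hk⟩ := exists_block (nn_pos D m) x
    obtain ⟨b1, b2, b3, b4⟩ := hbox i h0 h1.le
    have hkr : 0 ≤ x → 0 ≤ (k : ℝ) * (√2 * ll D (m + 1)) := fun hx0 =>
      mul_nonneg (by exact_mod_cast hk hx0) hll'
    rcases hx with hx | hx
    · have e : Y D (m + 1) x = (k : ℂ) * ((√2 * ll D (m + 1) : ℝ) : ℂ) +
          zeta * cs (D.s (m + 1)) (Y D m i) := by
        rw [hYY, hx]
        exact st_block_even hE _ k i h0 h1.le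
      have e1 : (Y D (m + 1) x).im = (zeta * cs (D.s (m + 1)) (Y D m i)).im := by
        rw [e, Complex.add_im, ← Complex.ofReal_intCast, ← Complex.ofReal_mul, Complex.ofReal_im,
          zero_add]
      have e2 : (Y D (m + 1) x).re = (k : ℝ) * (√2 * ll D (m + 1)) +
          (zeta * cs (D.s (m + 1)) (Y D m i)).re := by
        rw [e, Complex.add_re, ← Complex.ofReal_intCast, ← Complex.ofReal_mul, Complex.ofReal_re]
      rw [e1, e2, hd]
      exact ⟨b3, b4, fun hx0 => by have := hkr hx0; linarith⟩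
    · have e : Y D (m + 1) x = (k : ℂ) * ((√2 * ll D (m + 1) : ℝ) : ℂ) + zeta * ll D (m + 1) +
          (starRingEnd ℂ) (zeta * cs (D.s (m + 1)) (Y D m i)) := by
        rw [hYY, hx]
        exact st_block_odd hE _ k i h0 h1.le
      have z1 : (zeta * (ll D (m + 1) : ℂ)).re = ll D (m + 1) * (√2 / 2) := by
        simp [zeta]
        ring
      have z2 : (zeta * (ll D (m + 1) : ℂ)).im = ll D (m + 1) * (√2 / 2) := by
        simp [zeta]
        ring
      have e1 : (Y D (m + 1) x).im = ll D (m + 1) * (√2 / 2) -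
          (zeta * cs (D.s (m + 1)) (Y D m i)).im := by
        rw [e, Complex.add_im, Complex.add_im, ← Complex.ofReal_intCast, ← Complex.ofReal_mul,
          Complex.ofReal_im, zero_add, z2, Complex.conj_im]
        ring
      have e2 : (Y D (m + 1) x).re = (k : ℝ) * (√2 * ll D (m + 1)) + ll D (m + 1) * (√2 / 2) +
          (zeta * cs (D.s (m + 1)) (Y D m i)).re := by
        rw [e, Complex.add_re, Complex.add_re, ← Complex.ofReal_intCast, ← Complex.ofReal_mul,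
          Complex.ofReal_re, z1, Complex.conj_re]
      rw [e1, e2, hd]
      exact ⟨by linarith, by linarith, fun hx0 => by have := hkr hx0; linarith⟩
  exact ⟨fun x => (key x).1, fun x => (key x).2.1, fun x => (key x).2.2⟩

end H70Net
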