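import Pool.Agent.H70.Net.Hull

/-!
MP_77daaf_co, module `HullB` : the hull bounds hold at all levels.
PROOF: see the header of module `Hull` (step (box)).
-/

namespace H70Net

open Complex

theorem hullB_even (k : ℤ) (l : ℝ) (c : ℂ) :
    (zeta * ((k : ℂ) * ((√2 * l : ℝ) : ℂ) + zeta * c)).re = k * l - c.im ∧
    (zeta * ((k : ℂ) * ((√2 * l : ℝ) : ℂ) + zeta * c)).im = k * l + c.re := by
  have h2 : √2 * √2 = 2 := Real.mul_self_sqrt (by norm_num)
  constructor
  · simp [zeta]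
    linear_combination ((k : ℝ) * l / 2 - c.im / 2) * h2
  · simp [zeta]
    linear_combination ((k : ℝ) * l / 2 + c.re / 2) * h2

theorem hullB_odd (k : ℤ) (l : ℝ) (c : ℂ) :
    (zeta * ((k : ℂ) * ((√2 * l : ℝ) : ℂ) + zeta * l + (starRingEnd ℂ) (zeta * c))).re =
      k * l + c.re ∧
    (zeta * ((k : ℂ) * ((√2 * l : ℝ) : ℂ) + zeta * l + (starRingEnd ℂ) (zeta * c))).im =
      k * l + l - c.im := by
  have h2 : √2 * √2 = 2 := Real.mul_self_sqrt (by norm_num)
  constructor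
  · simp [zeta]
    linear_combination ((k : ℝ) * l / 2 + c.re / 2) * h2
  · simp [zeta]
    linear_combination ((k : ℝ) * l / 2 + l / 2 - c.im / 2) * h2

/-- the step for the box: from levels `m + 1` (axis bounds) and `m` (box) to level `m + 2` (box).
Here `Y (m+2)` is made of copies of `Y (m+1)`; the last partial block (sign `+`) is a copy of `Y m`. -/
theorem hull_step_box (D : Dig) (m : ℕ) (h : Hull D m) (h' : Hull D (m + 1)) :
    ∀ x : ℤ, 0 ≤ x → x ≤ nn D (m + 3) →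
      -dd D (m + 2) ≤ (zeta * Y D (m + 2) x).re ∧
      (zeta * Y D (m + 2) x).re ≤ ll D (m + 3) * (√2 / 2) + dd D (m + 2) ∧
      -dd D (m + 2) ≤ (zeta * Y D (m + 2) x).im ∧
      (zeta * Y D (m + 2) x).im ≤ ll D (m + 3) * (√2 / 2) + dd D (m + 2) := by
  intro x hx0 hx1
  have h2 : √2 * √2 = 2 := Real.mul_self_sqrt (by norm_num)
  have hr0 : 0 < √2 := Real.sqrt_pos.2 (by norm_num)
  have E := eltY D (m + 1)
  have E0 := eltY D m
  have hn := nn_pos D (m + 1)
  have hn' := nn_pos D m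
  have hnn := nn_le D (m + 1)
  have hl := ll_pos D (m + 1)
  have hl' := ll_pos D m
  have ha := D.ha (m + 2)
  have he0 := dd_nonneg D m
  have e1 : nn D (m + 3) = 2 * D.a (m + 2) * nn D (m + 2) + D.s (m + 2) * nn D (m + 1) := rfl
  have e2 : ll D (m + 3) = √2 * D.a (m + 2) * ll D (m + 2) + D.s (m + 2) * ll D (m + 1) := rfl
  have e3 : dd D (m + 2) = ll D (m + 1) * (√2 / 2) + dd D m := rfl
  have eY : ∀ x, Y D (m + 2) x = st (D.s (m + 2)) (nn D (m + 2)) (ll D (m + 2)) (Y D (m + 1)) x :=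
    fun _ => rfl
  have hlr : 0 < ll D (m + 1) * √2 := mul_pos hl' hr0
  have e4 : ll D (m + 3) * (√2 / 2) = D.a (m + 2) * ll D (m + 2) +
      D.s (m + 2) * (ll D (m + 1) * (√2 / 2)) := by
    rw [e2]
    linear_combination (D.a (m + 2) * ll D (m + 2) / 2 : ℝ) * h2
  -- bounds of the pieces
  have hα0 : ∀ i : ℤ, 0 ≤ i → -dd D m ≤ (Y D (m + 1) i).re := fun i hi => h'.re1 i hi
  have hα1 : ∀ i : ℤ, i ≤ nn D (m + 2) → (Y D (m + 1) i).re ≤ ll D (m + 2) + dd D m :=
    fun i hi => h'.re_le i hi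
  have hβ0 : ∀ i : ℤ, -dd D m ≤ (Y D (m + 1) i).im := fun i => h'.im1 i
  have hβ1 : ∀ i : ℤ, (Y D (m + 1) i).im ≤ dd D (m + 2) := fun i => h'.im2 i
  -- the full blocks
  have hfull : ∀ k i : ℤ, 0 ≤ k → k + 1 ≤ D.a (m + 2) → 0 ≤ i → i ≤ nn D (m + 2) →
      (x = 2 * k * nn D (m + 2) + i ∨ x = (2 * k + 1) * nn D (m + 2) + i) →
      -dd D (m + 2) ≤ (zeta * Y D (m + 2) x).re ∧
      (zeta * Y D (m + 2) x).re ≤ ll D (m + 3) * (√2 / 2) + dd D (m + 2) ∧
      -dd D (m + 2) ≤ (zeta * Y D (m + 2) x).im ∧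
      (zeta * Y D (m + 2) x).im ≤ ll D (m + 3) * (√2 / 2) + dd D (m + 2) := by
    intro k i hk hka hi0 hi1 hx
    have hkl0 : 0 ≤ (k : ℝ) * ll D (m + 2) := by
      have : (0 : ℝ) ≤ k := by exact_mod_cast hk
      positivity
    have hkl1 : (k : ℝ) * ll D (m + 2) + ll D (m + 2) ≤ D.a (m + 2) * ll D (m + 2) := by
      have h3 : (k : ℝ) + 1 ≤ D.a (m + 2) := by exact_mod_cast hka
      nlinarith
    have a0 := hα0 i hi0
    have a1 := hα1 i hi1
    have b0 := hβ0 i
    have b1 := hβ1 i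
    rw [e4]
    rcases D.hs (m + 2) with hs | hs
    · rw [hs] at eY ⊢
      have hcs : cs 1 (Y D (m + 1) i) = (starRingEnd ℂ) (Y D (m + 1) i) := by simp [cs]
      rcases hx with hx | hx
      · rw [eY x, hx, st_block_even E 1 k i hi0 hi1, hcs]
        obtain ⟨q1, q2⟩ := hullB_even k (ll D (m + 2)) ((starRingEnd ℂ) (Y D (m + 1) i))
        rw [q1, q2, Complex.conj_re, Complex.conj_im]
        push_cast
        refine ⟨?_, ?_, ?_, ?_⟩ <;> linarith
      · rw [eY x, hx, st_block_odd E 1 k i hi0 hi1, hcs]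
        obtain ⟨q1, q2⟩ := hullB_odd k (ll D (m + 2)) ((starRingEnd ℂ) (Y D (m + 1) i))
        rw [q1, q2, Complex.conj_re, Complex.conj_im]
        push_cast
        refine ⟨?_, ?_, ?_, ?_⟩ <;> linarith
    · rw [hs] at eY ⊢
      have hcs : cs (-1) (Y D (m + 1) i) = Y D (m + 1) i := by simp [cs]
      rcases hx with hx | hx
      · rw [eY x, hx, st_block_even E (-1) k i hi0 hi1, hcs]
        obtain ⟨q1, q2⟩ := hullB_even k (ll D (m + 2)) (Y D (m + 1) i)
        rw [q1, q2]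
        push_cast
        refine ⟨?_, ?_, ?_, ?_⟩ <;> linarith
      · rw [eY x, hx, st_block_odd E (-1) k i hi0 hi1, hcs]
        obtain ⟨q1, q2⟩ := hullB_odd k (ll D (m + 2)) (Y D (m + 1) i)
        rw [q1, q2]
        push_cast
        refine ⟨?_, ?_, ?_, ?_⟩ <;> linarith
  by_cases hlast : x < 2 * D.a (m + 2) * nn D (m + 2)
  · obtain ⟨k, i, hi0, hi1, hx, hk⟩ := exists_block hn x
    have hk0 := hk hx0
    have hka : k + 1 ≤ D.a (m + 2) := by
      by_contra hcon
      push Not at hcon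
      have h3 : D.a (m + 2) ≤ k := by omega
      rcases hx with hx | hx
      · nlinarith
      · nlinarith
    exact hfull k i hk0 hka hi0 hi1.le hx
  · push Not at hlast
    rcases D.hs (m + 2) with hs | hs
    · -- the last block
      obtain ⟨i, hi⟩ : ∃ i : ℤ, x = 2 * D.a (m + 2) * nn D (m + 2) + i :=
        ⟨x - 2 * D.a (m + 2) * nn D (m + 2), by ring⟩
      have hi0 : 0 ≤ i := by linarith
      have hi1 : i ≤ nn D (m + 1) := by
        rw [e1, hs] at hx1
        linarith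
      have hi2 : i ≤ nn D (m + 2) := hi1.trans hnn
      rw [e4, eY x, hs, hi, st_block_even E 1 _ i hi0 hi2]
      have hcs : cs 1 (Y D (m + 1) i) = (starRingEnd ℂ) (Y D (m + 1) i) := by simp [cs]
      rw [hcs]
      obtain ⟨q1, q2⟩ := hullB_even (D.a (m + 2)) (ll D (m + 2)) ((starRingEnd ℂ) (Y D (m + 1) i))
      rw [q1, q2, Complex.conj_re, Complex.conj_im]
      have hYi : Y D (m + 1) i = zeta * cs (D.s (m + 1)) (Y D m i) :=
        st_Icc E0 (D.s (m + 1)) i hi0 hi1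
      have c1 := h.b1 i hi0 hi1
      have c2 := h.b2 i hi0 hi1
      have c3 := h.b3 i hi0 hi1
      have c4 := h.b4 i hi0 hi1
      have hz : ∀ z : ℂ, (zeta * z).re = √2 / 2 * z.re - √2 / 2 * z.im ∧
          (zeta * z).im = √2 / 2 * z.im + √2 / 2 * z.re := by
        intro z
        constructor
        · simp [zeta]
        · simp [zeta]
      rw [(hz _).1] at c1 c2
      rw [(hz _).2] at c3 c4
      have hal : 0 < (D.a (m + 2) : ℝ) * ll D (m + 2) := by
        have : (0 : ℝ) < D.a (m + 2) := by exact_mod_cast (by omega : 0 < D.a (m + 2))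
        positivity
      have key : -dd D m ≤ (Y D (m + 1) i).im ∧
          (Y D (m + 1) i).im ≤ ll D (m + 1) * (√2 / 2) + dd D m ∧
          -dd D m ≤ (Y D (m + 1) i).re ∧
          (Y D (m + 1) i).re ≤ ll D (m + 1) * (√2 / 2) + dd D m := by
        rcases D.hs (m + 1) with hs1 | hs1
        · have hcs1 : cs 1 (Y D m i) = (starRingEnd ℂ) (Y D m i) := by simp [cs]
          rw [hYi, hs1, hcs1, (hz _).1, (hz _).2, Complex.conj_re, Complex.conj_im]
          refine ⟨?_, ?_, ?_, ?_⟩ <;> linarith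
        · have hcs1 : cs (-1) (Y D m i) = Y D m i := by simp [cs]
          rw [hYi, hs1, hcs1, (hz _).1, (hz _).2]
          refine ⟨?_, ?_, ?_, ?_⟩ <;> linarith
      obtain ⟨k1, k2, k3, k4⟩ := key
      push_cast
      refine ⟨?_, ?_, ?_, ?_⟩ <;> linarith
    · exfalso
      rw [e1, hs] at hx1
      linarith

/-- level one: `Y 1` on `[0, 2 a]`, `zeta * Y 1 (2k) = k (1+I)`, `zeta * Y 1 (2k+1) = k (1+I) + I`,
`dd 1 = 0`, `ll 2 * √2/2 = a`. -/
theorem hull_one (D : Dig) : Hull D 1 := by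
  obtain ⟨g1, g2, g3⟩ := hull_step_axis D 0 (hull_zero D)
  have h2 : √2 * √2 = 2 := Real.mul_self_sqrt (by norm_num)
  have E := eltY D 0
  have e1 : nn D 2 = 2 * D.a 1 * 1 + D.s 1 * 0 := rfl
  have e2 : ll D 2 = √2 * D.a 1 * 1 + D.s 1 * 0 := rfl
  have e4 : ll D 2 * (√2 / 2) = D.a 1 := by
    rw [e2]
    linear_combination (D.a 1 / 2 : ℝ) * h2
  have e5 : dd D 1 = 0 := rfl
  have hY0 : Y D 0 0 = 0 := by simp [Y]
  have hcs : cs (D.s 1) 0 = 0 := by simp [cs]
  have key : ∀ x : ℤ, 0 ≤ x → x ≤ nn D 2 →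
      0 ≤ (zeta * Y D 1 x).re ∧ (zeta * Y D 1 x).re ≤ D.a 1 ∧
      0 ≤ (zeta * Y D 1 x).im ∧ (zeta * Y D 1 x).im ≤ D.a 1 := by
    intro x hx0 hx1
    have eY : ∀ x, Y D 1 x = st (D.s 1) 1 1 (Y D 0) x := fun _ => rfl
    obtain ⟨k, i, hi0, hi1, hx, hk⟩ := exists_block (n := 1) one_pos x
    have hk0 := hk hx0
    have hi : i = 0 := by omega
    subst hi
    have hkr : (0 : ℝ) ≤ k := by exact_mod_cast hk0
    rcases hx with hx | hx
    · have hb : st (D.s 1) 1 1 (Y D 0) (2 * k * 1 + 0) =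
          (k : ℂ) * ((√2 * 1 : ℝ) : ℂ) + zeta * cs (D.s 1) (Y D 0 0) :=
        st_block_even E (D.s 1) k 0 le_rfl zero_le_one
      rw [eY x, hx, hb, hY0, hcs]
      obtain ⟨q1, q2⟩ := hullB_even k 1 0
      rw [q1, q2]
      have hka : (k : ℝ) ≤ D.a 1 := by
        have : k ≤ D.a 1 := by omega
        exact_mod_cast this
      simp only [Complex.zero_im, Complex.zero_re]
      refine ⟨?_, ?_, ?_, ?_⟩ <;> linarith
    · have hb : st (D.s 1) 1 1 (Y D 0) ((2 * k + 1) * 1 + 0) =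
          (k : ℂ) * ((√2 * 1 : ℝ) : ℂ) + zeta * (1 : ℝ) +
            (starRingEnd ℂ) (zeta * cs (D.s 1) (Y D 0 0)) :=
        st_block_odd E (D.s 1) k 0 le_rfl zero_le_one
      rw [eY x, hx, hb, hY0, hcs]
      obtain ⟨q1, q2⟩ := hullB_odd k 1 0
      rw [q1, q2]
      have hka : (k : ℝ) + 1 ≤ D.a 1 := by
        have : k + 1 ≤ D.a 1 := by omega
        exact_mod_cast this
      simp only [Complex.zero_im, Complex.zero_re]
      refine ⟨?_, ?_, ?_, ?_⟩ <;> linarith
  exact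
    { im1 := g1
      im2 := g2
      re1 := g3
      b1 := fun x h0 h1 => by
        rw [e5, neg_zero]
        exact (key x h0 h1).1
      b2 := fun x h0 h1 => by
        rw [e5, add_zero]
        show _ ≤ ll D 2 * (√2 / 2)
        rw [e4]
        exact (key x h0 h1).2.1
      b3 := fun x h0 h1 => by
        rw [e5, neg_zero]
        exact (key x h0 h1).2.2.1
      b4 := fun x h0 h1 => by
        rw [e5, add_zero]
        show _ ≤ ll D 2 * (√2 / 2)
        rw [e4]
        exact (key x h0 h1).2.2.2 }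

theorem hull_all (D : Dig) (m : ℕ) : Hull D m := by
  have key : ∀ m : ℕ, Hull D m ∧ Hull D (m + 1) := by
    intro m
    induction m with
    | zero => exact ⟨hull_zero D, hull_one D⟩
    | succ m ih =>
      obtain ⟨h, h'⟩ := ih
      refine ⟨h', ?_⟩
      obtain ⟨g1, g2, g3⟩ := hull_step_axis D (m + 1) h'
      have hb := hull_step_box D m h h'
      exact
        { im1 := g1
          im2 := g2
          re1 := g3
          b1 := fun x h0 h1 => (hb x h0 h1).1
          b2 := fun x h0 h1 => (hb x h0 h1).2.1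
          b3 := fun x h0 h1 => (hb x h0 h1).2.2.1
          b4 := fun x h0 h1 => (hb x h0 h1).2.2.2 }
  exact (key m).1

end H70Net
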