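import Pool.Agent.H70.Net.SimpleDefs

/-!
MP_77daaf_co, module `InjStep` : injectivity step
PROOF: see the header of module `SimpleDefs`.
-/

namespace H70Net

open Complex

private theorem injs_cs_re (s : ℤ) (z : ℂ) : (cs s z).re = z.re := by
  unfold cs
  split_ifs <;> simp

private theorem injs_cs_im (s : ℤ) (z : ℂ) : (cs s z).im = z.im ∨ (cs s z).im = -z.im := by
  unfold cs
  split_ifs <;> simp

private theorem injs_cs_inj (s : ℤ) {z w : ℂ} (h : cs s z = cs s w) : z = w := by
  unfold cs at h
  split_ifs at h
  · exact (starRingEnd ℂ).injective h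
  · exact h

private theorem injs_shift {n n' : ℤ} {l l' : ℝ} {y : ℤ → ℂ} (h : Elt n n' l l' y) (s : ℤ)
    (j : ℤ) : ∀ x x' : ℤ, st s n l y (x + j * n) = st s n l y (x' + j * n) ↔
      st s n l y x = st s n l y x' := by
  induction j using Int.induction_on with
  | zero => intro x x'; simp
  | succ i ih =>
    intro x x'
    have e : ∀ x : ℤ, x + ((i : ℤ) + 1) * n = (x + (i : ℤ) * n) + n := fun x => by ring
    rw [e x, e x', st_glide h, st_glide h, add_right_inj, (starRingEnd ℂ).injective.eq_iff]
    exact ih x x'
  | pred i ih =>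
    intro x x'
    rw [← ih x x']
    have e : ∀ x : ℤ, x + -(i : ℤ) * n = (x + (-(i : ℤ) - 1) * n) + n := fun x => by ring
    rw [e x, e x', st_glide h, st_glide h, add_right_inj, (starRingEnd ℂ).injective.eq_iff]

private theorem injs_core {n n' : ℤ} {l l' : ℝ} {y : ℤ → ℂ} (h : Elt n n' l l' y) (hl : 0 < l)
    (hS : Small n l y) (hst : Star n y) (hi : InjOn0 n y) (s : ℤ) (x x' : ℤ)
    (hx0 : 0 ≤ x) (hxn : x < n) (hle : x ≤ x') (heq : st s n l y x = st s n l y x') :
    x = x' := by
  have hr : 0 < √2 / 2 := by positivity
  have hzre : zeta.re = √2 / 2 := rfl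
  have hzim : zeta.im = √2 / 2 := rfl
  have hZx := st_Icc h s x hx0 hxn.le
  obtain ⟨hS1, hS2, hS3, hS4⟩ := hS x hx0 hxn.le
  have hcx : -(l / 2) < (cs s (y x)).im ∧ (cs s (y x)).im < l / 2 := by
    rcases injs_cs_im s (y x) with h1 | h1 <;> rw [h1] <;> constructor <;> linarith
  obtain ⟨k, i, hi0, hin, hx', hk⟩ := exists_block h.hn x'
  have hk0 : 0 ≤ k := hk (hx0.trans hle)
  obtain ⟨hT1, hT2, hT3, hT4⟩ := hS i hi0 hin.le
  have hci : -(l / 2) < (cs s (y i)).im ∧ (cs s (y i)).im < l / 2 := by
    rcases injs_cs_im s (y i) with h1 | h1 <;> rw [h1] <;> constructor <;> linarith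
  rcases hx' with hx' | hx'
  · -- even block
    rw [hx', st_block_even h s k i hi0 hin.le, hZx] at heq
    rcases eq_or_lt_of_le hk0 with hk1 | hk1
    · rw [← hk1, Int.cast_zero, zero_mul, zero_add] at heq
      have hz : zeta ≠ 0 := by
        intro hz
        have := congrArg Complex.re hz
        rw [hzre, Complex.zero_re] at this
        linarith
      have h2 := injs_cs_inj s (mul_left_cancel₀ hz heq)
      rw [hx', ← hk1, hi x i hx0 hxn.le hi0 hin.le h2]
      ring
    · exfalso
      have h1 := congrArg Complex.re heq
      have h2 := congrArg Complex.im heq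
      simp only [Complex.add_re, Complex.add_im, Complex.mul_re, Complex.mul_im, hzre, hzim,
        Complex.intCast_re, Complex.intCast_im, Complex.ofReal_re, Complex.ofReal_im] at h1 h2
      have hk2 : (1 : ℝ) ≤ (k : ℝ) := by exact_mod_cast hk1
      have h3 : √2 / 2 * ((cs s (y x)).im - (cs s (y i)).im + k * l) = 0 := by
        linear_combination (h2 - h1) / 2
      rcases mul_eq_zero.1 h3 with h4 | h4
      · linarith
      · nlinarith [hcx.1, hci.2]
  · -- odd block
    rw [hx', st_block_odd h s k i hi0 hin.le, hZx] at heq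
    have h1 := congrArg Complex.re heq
    have h2 := congrArg Complex.im heq
    simp only [Complex.add_re, Complex.add_im, Complex.mul_re, Complex.mul_im, hzre, hzim,
      Complex.intCast_re, Complex.intCast_im, Complex.ofReal_re, Complex.ofReal_im,
      Complex.conj_re, Complex.conj_im] at h1 h2
    have h3 : √2 / 2 * ((cs s (y x)).im + (cs s (y i)).re + k * l) = 0 := by
      linear_combination (h2 - h1) / 2
    have h4 : √2 / 2 * ((cs s (y x)).re + (cs s (y i)).im - k * l - l) = 0 := by
      linear_combination (h2 + h1) / 2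
    have h5 : (cs s (y x)).im + (cs s (y i)).re + k * l = 0 :=
      (mul_eq_zero.1 h3).resolve_left hr.ne'
    have h6 : (cs s (y x)).re + (cs s (y i)).im - k * l - l = 0 :=
      (mul_eq_zero.1 h4).resolve_left hr.ne'
    rcases eq_or_lt_of_le hk0 with hk1 | hk1
    · exfalso
      rw [← hk1, Int.cast_zero, zero_mul, add_zero] at h5
      rw [← hk1, Int.cast_zero, zero_mul, sub_zero] at h6
      have hm := h.mir x
      have hm1 := congrArg Complex.re hm
      have hm2 := congrArg Complex.im hm
      simp only [Complex.sub_re, Complex.sub_im, Complex.ofReal_re, Complex.ofReal_im,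
        Complex.conj_re, Complex.conj_im, zero_sub, neg_neg] at hm1 hm2
      have hcase : y (n - x) = I * y i ∨ y (n - x) = -y i ∨ y (n - x) = -I * y i := by
        unfold cs at h5 h6
        split_ifs at h5 h6 with hs1
        · left
          simp only [Complex.conj_re, Complex.conj_im] at h5 h6
          apply Complex.ext
          · simp only [Complex.mul_re, Complex.I_re, Complex.I_im]
            linarith
          · simp only [Complex.mul_im, Complex.I_re, Complex.I_im]
            linarith
        · right; right
          apply Complex.ext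
          · simp only [Complex.mul_re, Complex.neg_re, Complex.neg_im, Complex.I_re, Complex.I_im]
            linarith
          · simp only [Complex.mul_im, Complex.neg_re, Complex.neg_im, Complex.I_re, Complex.I_im]
            linarith
      have := (hst (n - x) i (by omega) (by omega) hi0 hin.le hcase).1
      omega
    · exfalso
      have hk2 : (1 : ℝ) ≤ (k : ℝ) := by exact_mod_cast hk1
      rw [injs_cs_re] at h5
      nlinarith [hcx.1]

theorem inj_step {n n' : ℤ} {l l' : ℝ} {y : ℤ → ℂ} (h : Elt n n' l l' y) (hl : 0 < l)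
    (hS : Small n l y) (hst : Star n y) (hi : InjOn0 n y) (s : ℤ) (hs : s = 1 ∨ s = -1) :
    Function.Injective (st s n l y) := by
  have hn := h.hn
  have key : ∀ x x' : ℤ, x ≤ x' → st s n l y x = st s n l y x' → x = x' := by
    intro x x' hle heq
    have h1 := (injs_shift h s (-(x / n)) x x').2 heq
    have e : x + -(x / n) * n = x % n := by
      have := Int.emod_add_mul_ediv x n
      linarith
    have h2 := injs_core h hl hS hst hi s (x + -(x / n) * n) (x' + -(x / n) * n)
      (by rw [e]; exact Int.emod_nonneg _ hn.ne') (by rw [e]; exact Int.emod_lt_of_pos _ hn)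
      (by linarith) h1
    linarith
  intro x x' heq
  rcases le_total x x' with hle | hle
  · exact key x x' hle heq
  · exact (key x' x hle heq.symm).symm

end H70Net
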