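import Pool.Agent.H70.Net.JordanA

/-!
MP_77daaf_co, module `Jordan`.  PROOFS: see the header of module `JordanA`.
* `edge_of_ne_*`: contrapositive of `total_right`, `total_up`.
* `edge_cells`: `(cx,cy)` is `rc i` or `lc i` (parities, `edge_cases`); `total_lc` excludes `lc i`.
-/

namespace H70Net

/-- if two neighbouring cells have different `total` then their common edge is in the curve,
and the cell with `total = 1` is the right cell -/
theorem edge_of_ne_right (C : Curve) (cx cy : ℤ) (hcx : cx % 2 = 1) (hcy : cy % 2 = 1)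
    (h : total C cx cy ≠ total C (cx + 2) cy) : ∃ i, sx C i = cx + 1 ∧ sy C i = cy := by
  by_contra hne
  push Not at hne
  exact h (total_right C cx cy hcx hcy fun i hi => hne i hi.1 hi.2)

theorem edge_of_ne_up (C : Curve) (cx cy : ℤ) (hcx : cx % 2 = 1) (hcy : cy % 2 = 1)
    (h : total C cx cy ≠ total C cx (cy + 2)) : ∃ i, sx C i = cx ∧ sy C i = cy + 1 := by
  by_contra hne
  push Not at hne
  exact h (total_up C cx cy hcx hcy fun i hi => hne i hi.1 hi.2)

/-- the cells below and above a horizontal edge -/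
private theorem jor_hor (C : Curve) (i cx cy : ℤ) (hcx : cx % 2 = 1) (h1 : sx C i = cx)
    (h2 : sy C i = cy + 1) :
    (cx = rcx C i ∧ cy = rcy C i ∧ cx = lcx C i ∧ cy + 2 = lcy C i) ∨
    (cx = lcx C i ∧ cy = lcy C i ∧ cx = rcx C i ∧ cy + 2 = rcy C i) := by
  rcases edge_cases C i with ⟨h3, h4, h5, h6⟩ | ⟨h3, h4, h5, h6⟩
  · rcases h3 with h3 | h3
    · left
      refine ⟨?_, ?_, ?_, ?_⟩
      · rw [rcx]; omega
      · rw [rcy]; omega
      · rw [lcx]; omega
      · rw [lcy]; omega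
    · right
      refine ⟨?_, ?_, ?_, ?_⟩
      · rw [lcx]; omega
      · rw [lcy]; omega
      · rw [rcx]; omega
      · rw [rcy]; omega
  · omega

theorem total_rc (C : Curve) (i : ℤ) : total C (rcx C i) (rcy C i) = 1 := by
  rw [total_rc_const]
  -- from above
  have hA : total C (rcx C 0) (rcy C 0) = 0 ∨ total C (rcx C 0) (rcy C 0) = 1 := by
    have hex : ∃ m : ℕ, total C 1 (2 * C.p + 1 - 2 * (m : ℤ)) ≠ 0 := by
      refine ⟨(3 * C.p + 2 * C.q + 1).toNat, ?_⟩
      have hq := C_q_pos C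
      have hp := C.hp
      rw [total_below C 1 _ (by norm_num) (by omega)]
      norm_num
    classical
    obtain ⟨m, hm, hmin⟩ : ∃ m : ℕ, total C 1 (2 * C.p + 1 - 2 * (m : ℤ)) ≠ 0 ∧
        ∀ k < m, total C 1 (2 * C.p + 1 - 2 * (k : ℤ)) = 0 :=
      ⟨Nat.find hex, Nat.find_spec hex, fun k hk => not_not.1 (Nat.find_min hex hk)⟩
    have hp := C.hp
    obtain ⟨k, rfl⟩ : ∃ k, m = k + 1 := by
      refine Nat.exists_eq_succ_of_ne_zero ?_
      rintro rfl
      exact hm (total_above C 1 _ (by push_cast; omega))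
    have hk := hmin k (Nat.lt_succ_self k)
    have e1 : 2 * C.p + 1 - 2 * ((k + 1 : ℕ) : ℤ) + 2 = 2 * C.p + 1 - 2 * (k : ℤ) := by
      push_cast; ring
    obtain ⟨i, hi1, hi2⟩ := edge_of_ne_up C 1 (2 * C.p + 1 - 2 * ((k + 1 : ℕ) : ℤ)) (by norm_num)
      (by omega) (by rw [e1, hk]; exact hm)
    rcases jor_hor C i _ _ (by norm_num) hi1 hi2 with ⟨h1, h2, h3, h4⟩ | ⟨h1, h2, h3, h4⟩
    · right
      rw [← total_rc_const C i, total_edge, ← h3, ← h4, e1, hk]
      norm_num
    · left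
      rw [← total_rc_const C i, ← h3, ← h4, e1, hk]
  have hB : total C (rcx C 0) (rcy C 0) = 1 ∨ total C (rcx C 0) (rcy C 0) = 2 := by
    have hex : ∃ m : ℕ, total C 1 (-2 * C.q - 2 * C.p - 1 + 2 * (m : ℤ)) ≠ 1 := by
      refine ⟨(3 * C.p + 2 * C.q + 1).toNat, ?_⟩
      have hq := C_q_pos C
      have hp := C.hp
      rw [total_above C 1 _ (by omega)]
      norm_num
    classical
    obtain ⟨m, hm, hmin⟩ : ∃ m : ℕ, total C 1 (-2 * C.q - 2 * C.p - 1 + 2 * (m : ℤ)) ≠ 1 ∧
        ∀ k < m, total C 1 (-2 * C.q - 2 * C.p - 1 + 2 * (k : ℤ)) = 1 :=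
      ⟨Nat.find hex, Nat.find_spec hex, fun k hk => not_not.1 (Nat.find_min hex hk)⟩
    have hp := C.hp
    obtain ⟨k, rfl⟩ : ∃ k, m = k + 1 := by
      refine Nat.exists_eq_succ_of_ne_zero ?_
      rintro rfl
      exact hm (total_below C 1 _ (by norm_num) (by push_cast; omega))
    have hk := hmin k (Nat.lt_succ_self k)
    have e1 : -2 * C.q - 2 * C.p - 1 + 2 * ((k + 1 : ℕ) : ℤ) =
        -2 * C.q - 2 * C.p - 1 + 2 * (k : ℤ) + 2 := by
      push_cast; ring
    rw [e1] at hm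
    obtain ⟨i, hi1, hi2⟩ := edge_of_ne_up C 1 (-2 * C.q - 2 * C.p - 1 + 2 * (k : ℤ)) (by norm_num)
      (by omega) (by rw [hk]; exact hm.symm)
    rcases jor_hor C i _ _ (by norm_num) hi1 hi2 with ⟨h1, h2, h3, h4⟩ | ⟨h1, h2, h3, h4⟩
    · left
      rw [← total_rc_const C i, ← h1, ← h2, hk]
    · right
      rw [← total_rc_const C i, total_edge, ← h1, ← h2, hk]
      norm_num
  omega

theorem total_lc (C : Curve) (i : ℤ) : total C (lcx C i) (lcy C i) = 0 := by
  have h1 := total_edge C i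
  rw [total_rc] at h1
  omega

theorem total_01 (C : Curve) (cx cy : ℤ) (hcx : cx % 2 = 1) (hcy : cy % 2 = 1) :
    total C cx cy = 0 ∨ total C cx cy = 1 := by
  have key : ∀ m : ℕ, ∀ cy : ℤ, cy % 2 = 1 → C.p ≤ cy + 2 * m →
      total C cx cy = 0 ∨ total C cx cy = 1 := by
    intro m
    induction m with
    | zero =>
      intro cy hcy h
      exact Or.inl (total_above C cx cy (by push_cast at h; omega))
    | succ m ih =>
      intro cy hcy h
      by_cases he : total C cx cy = total C cx (cy + 2)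
      · rw [he]
        exact ih (cy + 2) (by omega) (by push_cast at h; omega)
      · obtain ⟨i, hi1, hi2⟩ := edge_of_ne_up C cx cy hcx hcy he
        rcases jor_hor C i _ _ hcx hi1 hi2 with ⟨h1, h2, h3, h4⟩ | ⟨h1, h2, h3, h4⟩
        · right
          rw [h1, h2, total_rc]
        · left
          rw [h1, h2, total_lc]
  exact key (C.p - cy).toNat cy hcy (by omega)

private theorem jor_sq (a b : ℤ) (h3 : a * a + b * b = 1) :
    (a = 0 ∧ (b = 1 ∨ b = -1)) ∨ (b = 0 ∧ (a = 1 ∨ a = -1)) := by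
  have ha1 : a ≤ 1 := by nlinarith
  have ha2 : -1 ≤ a := by nlinarith
  have hb1 : b ≤ 1 := by nlinarith
  have hb2 : -1 ≤ b := by nlinarith
  interval_cases a <;> interval_cases b <;> simp_all

/-- the two cells at an edge of the curve: one is below and one is above. -/
theorem edge_cells (C : Curve) (i cx cy cx' cy' : ℤ) (hcx : cx % 2 = 1) (hcy : cy % 2 = 1)
    (h1 : cx + cx' = 2 * sx C i) (h2 : cy + cy' = 2 * sy C i)
    (h3 : (cx - sx C i) * (cx - sx C i) + (cy - sy C i) * (cy - sy C i) = 1)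
    (h4 : total C cx cy = 1) :
    (cx = rcx C i ∧ cy = rcy C i ∧ cx' = lcx C i ∧ cy' = lcy C i) := by
  obtain ⟨a, ha⟩ : ∃ a, a = cx - sx C i := ⟨_, rfl⟩
  obtain ⟨b, hb⟩ : ∃ b, b = cy - sy C i := ⟨_, rfl⟩
  rw [← ha, ← hb] at h3
  have hab := jor_sq a b h3
  have hl : ¬ (cx = lcx C i ∧ cy = lcy C i) := by
    rintro ⟨e1, e2⟩
    rw [e1, e2, total_lc] at h4
    exact absurd h4 (by norm_num)
  rw [lcx, lcy] at hl
  rw [rcx, rcy, lcx, lcy]
  rcases edge_cases C i with ⟨h5, h6, h7, h8⟩ | ⟨h5, h6, h7, h8⟩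
  · omega
  · omega

end H70Net
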