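import Pool.Agent.H70.Net.Past

/-!
MP_77daaf_co, module `PastFar` : values far from the curve, periodicity, half-turn.

PROOFS.
* `past_above`: `cy ≥ p` → no edge is above (`sy_range`), all `hh = 0`.
* `past_below`: `cy ≤ -2q-p`: every edge is above; `hh i = g (i+1) - g i`, where `g i = 1` if
  `cx < 2 vx i` else `0` (`cx` odd); telescoping from a very small index, where `g = 0`
  (`vx_range`).
* `total_below`: take `b` very large.  `total_above`.
* `past_shift`: reindex the sum by `i ↦ i + 2n` (`vx_two`, `vy_two`, and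
  `lo C (cx + 4q) = lo C cx + 2n`: `Int.add_mul_ediv_right`).
* `total_half`: reindex by `i ↦ n - n' - 1 - i =: i'`: `sx i' = 2(q-p) - sx i`, `sy i' = -2q - sy i`,
  `dx i' = dx i`.  So `total (2(q-p) - cx) (-2q - cy) = ∑_i [sx i = cx, sy i < cy] dx i
   = ∑_i [sx i = cx] dx i - total cx cy` (`sy i ≠ cy` by parity if `sx i = cx` is odd), and
   `∑_i [sx i = cx] dx i = 1` (telescoping as in `past_below`).  Sums over a large
   symmetric-enough interval `Ico (-A) A` (`past_low`, `past_ge_hi`).
-/

set_option autoImplicit false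

namespace H70Net

private theorem pf_hh_above (C : Curve) (i cx cy : ℤ) (h : C.p ≤ cy) : hh C i cx cy = 0 := by
  unfold hh
  have h1 := (sy_range C i).2
  rw [if_neg]
  rintro ⟨-, h2⟩
  omega

/-- extension of the range by edges with `hh = 0` -/
private theorem pf_ext (C : Curve) (cx cy : ℤ) (b b' : ℤ) (hb : b ≤ b')
    (h : ∀ i, b ≤ i → hh C i cx cy = 0) : past C b' cx cy = past C b cx cy := by
  induction b', hb using Int.le_induction with
  | base => rfl
  | succ k hk ih => rw [past_succ, ih, h k hk, add_zero]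

theorem past_above (C : Curve) (b cx cy : ℤ) (h : C.p ≤ cy) : past C b cx cy = 0 := by
  unfold past
  exact Finset.sum_eq_zero fun i _ => pf_hh_above C i cx cy h

theorem total_above (C : Curve) (cx cy : ℤ) (h : C.p ≤ cy) : total C cx cy = 0 :=
  past_above C _ cx cy h

private theorem pf_hh_below (C : Curve) (i cx cy : ℤ) (hcx : cx % 2 = 1)
    (h : cy ≤ -2 * C.q - C.p) :
    hh C i cx cy = (if cx < 2 * C.vx (i + 1) then 1 else 0) - (if cx < 2 * C.vx i then 1 else 0) := by
  have h1 := (sy_range C i).1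
  have h2 : cy < sy C i := by omega
  unfold hh
  simp only [h2, and_true]
  unfold sx dx
  rcases C.step i with ⟨h3 | h3, -⟩ | ⟨h3, -⟩ <;> rw [h3] <;> split_ifs <;> omega

private theorem pf_lo (C : Curve) (i cx : ℤ) (h : i ≤ lo C cx) : 2 * C.vx i < cx := by
  have hq := C_q_pos C
  have hp := C.hp
  have hpq := C.hpq
  have hn := C.hn
  -- `j = i / n`
  have e1 : i / C.n * C.n ≤ i := Int.ediv_mul_le _ hn.ne'
  have e2 : i < (i / C.n + 1) * C.n := by
    have := Int.lt_ediv_add_one_mul_self i hn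
    exact this
  have hr := (vx_range C i (i / C.n) e1 e2.le).2
  have hj : i / C.n ≤ cx / (2 * C.q) - 2 := by
    have : i / C.n ≤ lo C cx / C.n := Int.ediv_le_ediv hn h
    unfold lo at this
    rwa [Int.mul_ediv_cancel_left _ hn.ne'] at this
  have hd : cx / (2 * C.q) * (2 * C.q) ≤ cx := Int.ediv_mul_le _ (by omega)
  have h4 : 2 * (i / C.n + 1) * C.q ≤ 2 * (cx / (2 * C.q) - 1) * C.q := by
    apply mul_le_mul_of_nonneg_right _ hq.le
    omega
  nlinarith

private theorem pf_hi (C : Curve) (cx : ℤ) : cx < 2 * C.vx (hi C cx) := by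
  have hq := C_q_pos C
  have hp := C.hp
  have hpq := C.hpq
  have hn := C.hn
  have hr := (vx_range C (hi C cx) (cx / (2 * C.q) + 3) (by unfold hi; rw [mul_comm])
    (by unfold hi; nlinarith)).1
  have hd : cx < (cx / (2 * C.q) + 1) * (2 * C.q) := Int.lt_ediv_add_one_mul_self cx (by omega)
  nlinarith

private theorem pf_tel (g : ℤ → ℤ) (a b : ℤ) (hab : a ≤ b) :
    ∑ i ∈ Finset.Ico a b, (g (i + 1) - g i) = g b - g a := by
  induction b, hab using Int.le_induction with
  | base => simp
  | succ k hk ih =>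
    have : Finset.Ico a (k + 1) = insert k (Finset.Ico a k) := by
      ext x
      simp only [Finset.mem_Ico, Finset.mem_insert]
      omega
    rw [this, Finset.sum_insert (by simp), ih]
    ring

theorem past_below (C : Curve) (b cx cy : ℤ) (hcx : cx % 2 = 1) (h : cy ≤ -2 * C.q - C.p) :
    past C b cx cy = if cx < 2 * C.vx b then 1 else 0 := by
  rcases le_or_gt b (lo C cx) with hb | hb
  · rw [past_le_lo C b cx cy hb, if_neg]
    have := pf_lo C b cx hb
    omega
  · unfold past
    rw [Finset.sum_congr rfl fun i _ => pf_hh_below C i cx cy hcx h,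
      pf_tel (fun i => if cx < 2 * C.vx i then 1 else 0) _ _ hb.le]
    have h1 := pf_lo C (lo C cx) cx le_rfl
    rw [if_neg (show ¬ cx < 2 * C.vx (lo C cx) by omega), sub_zero]

theorem total_below (C : Curve) (cx cy : ℤ) (hcx : cx % 2 = 1) (h : cy ≤ -2 * C.q - C.p) :
    total C cx cy = 1 := by
  unfold total
  rw [past_below C _ cx cy hcx h, if_pos (pf_hi C cx)]

private theorem pf_div (C : Curve) (cx j : ℤ) :
    (cx + 4 * j * C.q) / (2 * C.q) = cx / (2 * C.q) + 2 * j := by
  have hq := C_q_pos C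
  have e : cx + 4 * j * C.q = cx + (2 * j) * (2 * C.q) := by ring
  rw [e, Int.add_mul_ediv_right _ _ (by omega)]

private theorem pf_hh_shift (C : Curve) (i cx cy j : ℤ) :
    hh C (i + 2 * j * C.n) (cx + 4 * j * C.q) cy = hh C i cx cy := by
  have e : i + 2 * j * C.n + 1 = (i + 1) + 2 * j * C.n := by ring
  have h1 : sx C (i + 2 * j * C.n) = sx C i + 4 * j * C.q := by
    unfold sx
    rw [e, vx_two, vx_two]
    ring
  have h2 : sy C (i + 2 * j * C.n) = sy C i := by
    unfold sy
    rw [e, vy_two, vy_two]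
  have h3 : dx C (i + 2 * j * C.n) = dx C i := by
    unfold dx
    rw [e, vx_two, vx_two]
    ring
  unfold hh
  rw [h1, h2, h3]
  simp only [add_left_inj]

private theorem pf_sum_shift (f : ℤ → ℤ) (a b t : ℤ) :
    ∑ i ∈ Finset.Ico (a + t) (b + t), f i = ∑ i ∈ Finset.Ico a b, f (i + t) := by
  symm
  refine Finset.sum_nbij' (fun i => i + t) (fun i => i - t) ?_ ?_ ?_ ?_ ?_
  · intro i hi
    simp only [Finset.mem_Ico] at hi ⊢
    omega
  · intro i hi
    simp only [Finset.mem_Ico] at hi ⊢
    omega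
  · intro i _
    simp
  · intro i _
    simp
  · intro i _
    rfl

theorem past_shift (C : Curve) (b cx cy j : ℤ) :
    past C (b + 2 * j * C.n) (cx + 4 * j * C.q) cy = past C b cx cy := by
  unfold past
  have hl : lo C (cx + 4 * j * C.q) = lo C cx + 2 * j * C.n := by
    unfold lo
    rw [pf_div]
    ring
  rw [hl, pf_sum_shift]
  exact Finset.sum_congr rfl fun i _ => pf_hh_shift C i cx cy j

theorem total_shift (C : Curve) (cx cy j : ℤ) :
    total C (cx + 4 * j * C.q) cy = total C cx cy := by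
  unfold total
  have hl : hi C (cx + 4 * j * C.q) = hi C cx + 2 * j * C.n := by
    unfold hi
    rw [pf_div]
    ring
  rw [hl, past_shift]

private theorem pf_total_eq (C : Curve) (cx cy a b : ℤ) (ha : a ≤ lo C cx) (hb : hi C cx ≤ b) :
    total C cx cy = ∑ i ∈ Finset.Ico a b, hh C i cx cy := by
  rw [← past_ge_hi C b cx cy hb, past_low C a b cx cy ha]

private theorem pf_hh_half (C : Curve) (i cx cy : ℤ) (hcx : cx % 2 = 1) (hcy : cy % 2 = 1) :
    hh C (C.n - C.n' - 1 - i) (2 * (C.q - C.p) - cx) (-2 * C.q - cy) + hh C i cx cy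
      = hh C i cx (-2 * C.q - C.p) := by
  have e1 : C.n - C.n' - 1 - i = C.n - C.n' - (i + 1) := by ring
  have e2 : C.n - C.n' - 1 - i + 1 = C.n - C.n' - i := by ring
  have h1 : sx C (C.n - C.n' - 1 - i) = 2 * (C.q - C.p) - sx C i := by
    unfold sx
    rw [e2, e1, C.hx, C.hx]
    ring
  have h2 : sy C (C.n - C.n' - 1 - i) = -2 * C.q - sy C i := by
    unfold sy
    rw [e2, e1, C.hy, C.hy]
    ring
  have h3 : dx C (C.n - C.n' - 1 - i) = dx C i := by
    unfold dx
    rw [e2, e1, C.hx, C.hx]
    ring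
  have h4 := (sy_range C i).1
  unfold hh
  rw [h1, h2, h3]
  by_cases h5 : sx C i = cx
  · have h6 : sy C i % 2 = 0 := by
      rcases edge_cases C i with h | h
      · exact h.2.2.2
      · omega
    have h7 : 2 * (C.q - C.p) - sx C i = 2 * (C.q - C.p) - cx := by omega
    simp only [h5, true_and]
    have h8 : -2 * C.q - C.p < sy C i := h4
    rw [if_pos h8]
    rcases lt_or_ge cy (sy C i) with h9 | h9
    · rw [if_neg (by omega), if_pos h9, zero_add]
    · rw [if_pos (by omega), if_neg (by omega), add_zero]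
  · have h7 : ¬ (2 * (C.q - C.p) - sx C i = 2 * (C.q - C.p) - cx) := by omega
    simp only [h5, h7, false_and, if_false, add_zero]

theorem total_half (C : Curve) (cx cy : ℤ) (hcx : cx % 2 = 1) (hcy : cy % 2 = 1) :
    total C (2 * (C.q - C.p) - cx) (-2 * C.q - cy) = 1 - total C cx cy := by
  set cx' := 2 * (C.q - C.p) - cx with hcx'
  set N := C.n - C.n' with hN
  set a := min (lo C cx) (N - hi C cx') with hadef
  set b := max (hi C cx) (N - lo C cx') with hbdef
  have ha1 : a ≤ lo C cx := min_le_left _ _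
  have ha2 : a ≤ N - hi C cx' := min_le_right _ _
  have hb1 : hi C cx ≤ b := le_max_left _ _
  have hb2 : N - lo C cx' ≤ b := le_max_right _ _
  have t1 := pf_total_eq C cx cy a b ha1 hb1
  have t2 := pf_total_eq C cx (-2 * C.q - C.p) a b ha1 hb1
  have t3 := pf_total_eq C cx' (-2 * C.q - cy) (N - b) (N - a) (by omega) (by omega)
  have t4 : ∑ i ∈ Finset.Ico (N - b) (N - a), hh C i cx' (-2 * C.q - cy)
      = ∑ i ∈ Finset.Ico a b, hh C (N - 1 - i) cx' (-2 * C.q - cy) := by
    refine Finset.sum_nbij' (fun i => N - 1 - i) (fun i => N - 1 - i) ?_ ?_ ?_ ?_ ?_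
    · intro i hi
      simp only [Finset.mem_Ico] at hi ⊢
      omega
    · intro i hi
      simp only [Finset.mem_Ico] at hi ⊢
      omega
    · intro i _
      simp
    · intro i _
      simp
    · intro i _
      simp
  rw [total_below C cx (-2 * C.q - C.p) hcx le_rfl] at t2
  have t5 : ∑ i ∈ Finset.Ico a b, hh C (N - 1 - i) cx' (-2 * C.q - cy)
      + ∑ i ∈ Finset.Ico a b, hh C i cx cy = 1 := by
    refine Eq.trans ?_ t2.symm
    rw [← Finset.sum_add_distrib]
    exact Finset.sum_congr rfl fun i _ => pf_hh_half C i cx cy hcx hcy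
  rw [t3, t4, t1]
  linarith

/-- no past edges (`i < n`) in the columns `≥ 2q + p` -/
theorem past_right_zero (C : Curve) (cx cy : ℤ) (h : 2 * C.q + C.p ≤ cx) :
    past C C.n cx cy = 0 := by
  unfold past
  refine Finset.sum_eq_zero fun i hi => ?_
  have h1 := (Finset.mem_Ico.1 hi).2
  have h2 := sx_lt C i 1 (by omega)
  unfold hh
  rw [if_neg]
  rintro ⟨h3, -⟩
  omega

/-- no future edges (`i ≥ n`) in the columns `≤ 2q - p` -/
theorem past_left_total (C : Curve) (cx cy : ℤ) (h : cx ≤ 2 * C.q - C.p) :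
    past C C.n cx cy = total C cx cy := by
  rw [← past_ge_hi C (max (hi C cx) C.n) cx cy (le_max_left _ _)]
  refine (pf_ext C cx cy C.n _ (le_max_right _ _) fun i hi => ?_).symm
  have h2 := lt_sx C i 1 (by omega)
  unfold hh
  rw [if_neg]
  rintro ⟨h3, -⟩
  omega

end H70Net
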