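import Pool.Agent.H70.Net.PastRules
import Pool.Agent.H70.Net.PastFar

/-!
MP_77daaf_co, module `JordanA` : every cell is below (`total = 1`) or above (`total = 0`) the curve.

PROOFS.
* `total_rc_succ`: `total (rc i) = total (rc (i-1))`.  At the vertex `v i` let `w = (dx (i-1), dy (i-1))`,
  `u = (dx i, dy i)`; `u ≠ -w` (injectivity: `v (i+1) ≠ v (i-1)`).  In doubled coordinates the cell
  between the directions `d` and `i d` at `v` is `2v + (1+i) d`.  `rc (i-1) = 2v + (1+i)(-w)` and
  `rc i = 2v + (1+i)(-i u)`.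
  If `u = -i w` (right turn) they are equal.  If `u = w`: cross the edge of midpoint `2v - i w`.
  If `u = i w` (left turn): cross the edges of midpoints `2v - i w` and `2v + w`.  These
  midpoints are not midpoints of edges of the curve (`edge_at`), so `total` does not change
  (`total_up`, `total_right`).
  (Concretely: 4 cases for `w`, 3 for `u`, each finished by one or two applications of
  `total_up`/`total_right` in one of the two directions.)
* `total_rc_const`: all `total (rc i)` are equal to `T := total (rc 0)` (`Int.induction_on`).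
* `total_rc`: `T = 1`.  (a) Take an odd column `cx`, e.g. `cx = 1`.  The set of heights `sy i` of the
  edges of the curve in this column is nonempty (`total_below ≠ total_above`) and bounded.  For the
  highest edge `i`, the cell above it has `total = 0` (go up with `total_up` to `cy ≥ p`): so `T = 0`
  (if it is the right cell) or `T = 1` (if it is the left cell, `total_edge`).  (b) For the lowest
  edge, the cell below has `total = 1` : `T = 1` or `T = 2`.  Hence `T = 1`.
* `total_01`: for odd `cx, cy` go up from `(cx, cy)`: let `k ≥ 0` be minimal such that the edge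
  `(cx, cy + 2k + 1)` is in the curve; then `total (cx,cy) = total (cx, cy+2k) ∈ {0,1}` because that cell
  is the right or left cell of this edge; if there is no such `k`, `total = 0`.
-/

namespace H70Net

private theorem ja_right (C : Curve) (i b : ℤ) (hb : b = 1 ∨ b = -1)
    (h1 : ¬ (dx C i = 0 ∧ dy C i = b)) (h2 : ¬ (dx C (i - 1) = 0 ∧ dy C (i - 1) = -b)) :
    total C (2 * C.vx i - 1) (2 * C.vy i + b) = total C (2 * C.vx i + 1) (2 * C.vy i + b) := by
  have h := total_right C (2 * C.vx i - 1) (2 * C.vy i + b) (by omega) (by omega) (fun j hj => by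
    rcases edge_at C i j 0 b (by rcases hb with rfl | rfl <;> norm_num)
      (by have := hj.1; omega) hj.2 with h3 | h3
    · exact h1 h3.2
    · exact h2 ⟨by have := h3.2.1; omega, h3.2.2⟩)
  rw [h]
  congr 1
  ring

private theorem ja_up (C : Curve) (i a : ℤ) (ha : a = 1 ∨ a = -1)
    (h1 : ¬ (dx C i = a ∧ dy C i = 0)) (h2 : ¬ (dx C (i - 1) = -a ∧ dy C (i - 1) = 0)) :
    total C (2 * C.vx i + a) (2 * C.vy i - 1) = total C (2 * C.vx i + a) (2 * C.vy i + 1) := by
  have h := total_up C (2 * C.vx i + a) (2 * C.vy i - 1) (by omega) (by omega) (fun j hj => by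
    rcases edge_at C i j a 0 (by rcases ha with rfl | rfl <;> norm_num)
      hj.1 (by have := hj.2; omega) with h3 | h3
    · exact h1 h3.2
    · exact h2 ⟨h3.2.1, by have := h3.2.2; omega⟩)
  rw [h]
  congr 1
  ring

theorem total_rc_succ (C : Curve) (i : ℤ) :
    total C (rcx C i) (rcy C i) = total C (rcx C (i - 1)) (rcy C (i - 1)) := by
  have hinj : ¬ (dx C i = -dx C (i - 1) ∧ dy C i = -dy C (i - 1)) := by
    rintro ⟨h1, h2⟩
    unfold dx at h1
    unfold dy at h2
    have e : i - 1 + 1 = i := by ring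
    rw [e] at h1 h2
    have h3 := C.inj (i + 1) (i - 1) (by omega) (by omega)
    omega
  have e1 : rcx C i = 2 * C.vx i + dx C i + dy C i := by
    unfold rcx sx dx dy
    ring
  have e2 : rcy C i = 2 * C.vy i + dy C i - dx C i := by
    unfold rcy sy dx dy
    ring
  have e3 : rcx C (i - 1) = 2 * C.vx i - dx C (i - 1) + dy C (i - 1) := by
    unfold rcx sx dx dy
    rw [show i - 1 + 1 = i by ring]
    ring
  have e4 : rcy C (i - 1) = 2 * C.vy i - dy C (i - 1) - dx C (i - 1) := by
    unfold rcy sy dx dy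
    rw [show i - 1 + 1 = i by ring]
    ring
  obtain ⟨T, hT⟩ : ∃ T : ℤ → ℤ → ℤ, ∀ a b, T a b = total C (2 * C.vx i + a) (2 * C.vy i + b) :=
    ⟨_, fun _ _ => rfl⟩
  have g1 : total C (rcx C i) (rcy C i) = T (dx C i + dy C i) (dy C i - dx C i) := by
    rw [hT, e1, e2]
    congr 1 <;> ring
  have g2 : total C (rcx C (i - 1)) (rcy C (i - 1)) =
      T (-dx C (i - 1) + dy C (i - 1)) (-dy C (i - 1) - dx C (i - 1)) := by
    rw [hT, e3, e4]
    congr 1 <;> ring
  have hr1 : ¬ (dx C i = 0 ∧ dy C i = 1) → ¬ (dx C (i - 1) = 0 ∧ dy C (i - 1) = -1) →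
      T (-1) 1 = T 1 1 := by
    intro h1 h2
    rw [hT, hT]
    exact ja_right C i 1 (Or.inl rfl) h1 h2
  have hr2 : ¬ (dx C i = 0 ∧ dy C i = -1) → ¬ (dx C (i - 1) = 0 ∧ dy C (i - 1) = 1) →
      T (-1) (-1) = T 1 (-1) := by
    intro h1 h2
    rw [hT, hT]
    exact ja_right C i (-1) (Or.inr rfl) h1 (by simpa using h2)
  have hu1 : ¬ (dx C i = 1 ∧ dy C i = 0) → ¬ (dx C (i - 1) = -1 ∧ dy C (i - 1) = 0) →
      T 1 (-1) = T 1 1 := by
    intro h1 h2
    rw [hT, hT]
    exact ja_up C i 1 (Or.inl rfl) h1 h2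
  have hu2 : ¬ (dx C i = -1 ∧ dy C i = 0) → ¬ (dx C (i - 1) = 1 ∧ dy C (i - 1) = 0) →
      T (-1) (-1) = T (-1) 1 := by
    intro h1 h2
    rw [hT, hT]
    exact ja_up C i (-1) (Or.inr rfl) h1 (by simpa using h2)
  have c1 := edge_cases C i
  have c2 := edge_cases C (i - 1)
  rw [g1, g2]
  clear g1 g2 e1 e2 e3 e4 hT
  generalize dx C i = ux at *
  generalize dy C i = uy at *
  generalize dx C (i - 1) = wx at *
  generalize dy C (i - 1) = wy at *
  rcases c1 with ⟨h1 | h1, h2, -, -⟩ | ⟨h1, h2 | h2, -, -⟩ <;>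
    rcases c2 with ⟨h3 | h3, h4, -, -⟩ | ⟨h3, h4 | h4, -, -⟩ <;> subst h1 h2 h3 h4 <;>
    first
      | (exfalso; apply hinj; omega)
      | (norm_num; done)
      | (norm_num; simp only [not_and] at hr1 hr2 hu1 hu2; norm_num at hr1 hr2 hu1 hu2; omega)

theorem total_rc_const (C : Curve) (i : ℤ) :
    total C (rcx C i) (rcy C i) = total C (rcx C 0) (rcy C 0) := by
  induction i using Int.induction_on with
  | zero => rfl
  | succ k ih =>
    rw [total_rc_succ, add_sub_cancel_right]
    exact ih
  | pred k ih =>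
    rw [total_rc_succ] at ih
    exact ih

end H70Net
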