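import Pool.Agent.H70.Net.Jordan

/-!
MP_77daaf_co, module `Kappa` : the lifted quadrant number of a cell relative to the cone point
`o = (q,-q)` (doubled coordinates: `(2q,-2q)`).

With `X = cx - 2q`, `Y = cy + 2q` (odd numbers), `kdir` is the number of the quadrant of `(X,Y)` with the
cut along the ray below `o`: left-below 2, left-above 1, right-above 0, right-below -1, and
`kap = kdir + 4 (1 - past n)`.  `rx κ, ry κ`: coordinates of `i^{-κ} (X + iY)`.

PROOFS.
* `kap_quad`: the four quadrants; `kap ≡ kdir mod 4`.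
* `kap_right`: cells `(cx,cy)`, `(cx+2,cy)`, edge `(cx+1,cy)` not among the edges `< n`.  By
  `past_right` with `b = n`, `v n = (q,-q)`: `past n cx cy = past n (cx+2) cy + (1 if cx+1 = 2q and
  cy < -2q)`.  If `cx + 1 ≠ 2q`, `kdir` and `past` do not change.  If `cx + 1 = 2q`: `cy > -2q`:
  `kdir` goes from 1 to 0; `cy < -2q`: `kdir` from 2 to -1, and `4 (1 - past)` increases by 4.
* `kap_up`: similar with `past_up`; `kdir` changes by at most one when `cy + 1 = -2q`.
* `kap_edge`: for an edge `i < n`, with `past_up'`, `past_right'` instead (four directions of edge `i`):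
  `past n (rc i) = past n (lc i) + 1 + (correction of the ray)`, so
  `-1 ≤ kap (lc i) - 4 - kap (rc i) ≤ 1`.
* `kap_edge_fut`: for an edge `i ≥ n`: `-1 ≤ kap (lc i) - kap (rc i) ≤ 1` (`kap_right`, `kap_up`: the
  edge `i` is not an edge `< n` by `edge_inj`).
* `kap_left`: `past_left_total`; `kap_right_far`: `past_right_zero`.

Status: complete (helper26).
-/

namespace H70Net

def kdir (C : Curve) (cx cy : ℤ) : ℤ :=
  if cx < 2 * C.q then (if cy < -2 * C.q then 2 else 1)
  else (if cy < -2 * C.q then -1 else 0)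

noncomputable def kap (C : Curve) (cx cy : ℤ) : ℤ :=
  kdir C cx cy + 4 * (1 - past C C.n cx cy)

def rx (κ x y : ℤ) : ℤ :=
  if κ % 4 = 0 then x else if κ % 4 = 1 then y else if κ % 4 = 2 then -x else -y

def ry (κ x y : ℤ) : ℤ :=
  if κ % 4 = 0 then y else if κ % 4 = 1 then -x else if κ % 4 = 2 then -y else x

theorem v_n (C : Curve) : C.vx C.n = C.q ∧ C.vy C.n = -C.q := by
  have h1 := C.glx 0; have h2 := C.gly 0
  rw [C.v0x] at h1; rw [C.v0y] at h2
  constructor
  · simpa using h1
  · simpa using h2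

theorem kap_quad (C : Curve) (cx cy : ℤ) (hcx : cx % 2 = 1) (hcy : cy % 2 = 1) :
    0 < rx (kap C cx cy) (cx - 2 * C.q) (cy + 2 * C.q) ∧
    0 < ry (kap C cx cy) (cx - 2 * C.q) (cy + 2 * C.q) := by
  unfold kap kdir rx ry
  generalize past C C.n cx cy = P
  split_ifs <;> omega

theorem kap_right (C : Curve) (cx cy : ℤ) (hcx : cx % 2 = 1) (hcy : cy % 2 = 1)
    (h : ∀ i, i < C.n → ¬ (sx C i = cx + 1 ∧ sy C i = cy)) :
    -1 ≤ kap C (cx + 2) cy - kap C cx cy ∧ kap C (cx + 2) cy - kap C cx cy ≤ 1 := by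
  have hv := v_n C
  have h1 := past_right C C.n cx cy hcx hcy h
  rw [hv.1, hv.2] at h1
  unfold kap kdir
  revert h1
  generalize past C C.n cx cy = P
  generalize past C C.n (cx + 2) cy = P'
  intro h1
  split_ifs at h1 ⊢ <;> omega

theorem kap_up (C : Curve) (cx cy : ℤ) (hcx : cx % 2 = 1) (hcy : cy % 2 = 1)
    (h : ∀ i, i < C.n → ¬ (sx C i = cx ∧ sy C i = cy + 1)) :
    -1 ≤ kap C cx (cy + 2) - kap C cx cy ∧ kap C cx (cy + 2) - kap C cx cy ≤ 1 := by
  have h1 := past_up C C.n cx cy hcx hcy h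
  unfold kap kdir
  revert h1
  generalize past C C.n cx cy = P
  generalize past C C.n cx (cy + 2) = P'
  intro h1
  split_ifs <;> omega

theorem kap_edge (C : Curve) (i : ℤ) (hi : i < C.n) :
    -1 ≤ kap C (lcx C i) (lcy C i) - 4 - kap C (rcx C i) (rcy C i) ∧
    kap C (lcx C i) (lcy C i) - 4 - kap C (rcx C i) (rcy C i) ≤ 1 := by
  have hv := v_n C
  unfold lcx lcy rcx rcy
  rcases edge_cases C i with ⟨hdx, hdy, hsx, hsy⟩ | ⟨hdx, hdy, hsx, hsy⟩
  · have h1 := past_up' C C.n (sx C i) (sy C i - 1) i hsx (by omega) hi rfl (by ring)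
    rw [show sy C i - 1 + 2 = sy C i + 1 by ring] at h1
    rcases hdx with hdx | hdx
    · rw [hdx] at h1
      rw [hdx, hdy, sub_zero, add_zero]
      unfold kap kdir
      revert h1
      generalize past C C.n (sx C i) (sy C i - 1) = P
      generalize past C C.n (sx C i) (sy C i + 1) = P'
      intro h1
      split_ifs <;> omega
    · rw [hdx] at h1
      rw [hdx, hdy, sub_zero, add_zero, sub_neg_eq_add, ← sub_eq_add_neg]
      unfold kap kdir
      revert h1
      generalize past C C.n (sx C i) (sy C i - 1) = P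
      generalize past C C.n (sx C i) (sy C i + 1) = P'
      intro h1
      split_ifs <;> omega
  · have h1 := past_right' C C.n (sx C i - 1) (sy C i) i (by omega) hsy hi (by ring) rfl
    rw [show sx C i - 1 + 2 = sx C i + 1 by ring, hv.1, hv.2] at h1
    rcases hdy with hdy | hdy
    · rw [hdy] at h1
      rw [hdx, hdy, sub_zero, add_zero]
      unfold kap kdir
      revert h1
      generalize past C C.n (sx C i - 1) (sy C i) = P
      generalize past C C.n (sx C i + 1) (sy C i) = P'
      intro h1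
      split_ifs at h1 ⊢ <;> omega
    · rw [hdy] at h1
      rw [hdx, hdy, sub_zero, add_zero, sub_neg_eq_add, ← sub_eq_add_neg]
      unfold kap kdir
      revert h1
      generalize past C C.n (sx C i - 1) (sy C i) = P
      generalize past C C.n (sx C i + 1) (sy C i) = P'
      intro h1
      split_ifs at h1 ⊢ <;> omega

theorem kap_edge_fut (C : Curve) (i : ℤ) (hi : C.n ≤ i) :
    -1 ≤ kap C (lcx C i) (lcy C i) - kap C (rcx C i) (rcy C i) ∧
    kap C (lcx C i) (lcy C i) - kap C (rcx C i) (rcy C i) ≤ 1 := by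
  have hne : ∀ j, j < C.n → ¬ (sx C j = sx C i ∧ sy C j = sy C i) := by
    rintro j hj ⟨h1, h2⟩
    have := edge_inj C j i h1 h2
    omega
  unfold lcx lcy rcx rcy
  rcases edge_cases C i with ⟨hdx, hdy, hsx, hsy⟩ | ⟨hdx, hdy, hsx, hsy⟩
  · have h1 := kap_up C (sx C i) (sy C i - 1) hsx (by omega)
      (fun j hj => by rw [sub_add_cancel]; exact hne j hj)
    rw [show sy C i - 1 + 2 = sy C i + 1 by ring] at h1
    rcases hdx with hdx | hdx
    · rw [hdx, hdy, sub_zero, add_zero]
      omega
    · rw [hdx, hdy, sub_zero, add_zero, sub_neg_eq_add, ← sub_eq_add_neg]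
      omega
  · have h1 := kap_right C (sx C i - 1) (sy C i) (by omega) hsy
      (fun j hj => by rw [sub_add_cancel]; exact hne j hj)
    rw [show sx C i - 1 + 2 = sx C i + 1 by ring] at h1
    rcases hdy with hdy | hdy
    · rw [hdx, hdy, sub_zero, add_zero]
      omega
    · rw [hdx, hdy, sub_zero, add_zero, sub_neg_eq_add, ← sub_eq_add_neg]
      omega

theorem kap_left (C : Curve) (cx cy : ℤ) (h : cx ≤ 2 * C.q - C.p) (ht : total C cx cy = 1) :
    kap C cx cy = if cy < -2 * C.q then 2 else 1 := by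
  have hp := C.hp
  have h1 := past_left_total C cx cy h
  rw [ht] at h1
  unfold kap kdir
  rw [h1, if_pos (show cx < 2 * C.q by omega)]
  split_ifs <;> norm_num

theorem kap_right_far (C : Curve) (cx cy : ℤ) (h : 2 * C.q + C.p ≤ cx) :
    kap C cx cy = if cy < -2 * C.q then 3 else 4 := by
  have hp := C.hp
  have h1 := past_right_zero C cx cy h
  unfold kap kdir
  rw [h1, if_neg (show ¬ cx < 2 * C.q by omega)]
  split_ifs <;> norm_num

end H70Net
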