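import Pool.Agent.H70.Net.Curve

/-!
MP_77daaf_co, module `Past` : signed numbers of horizontal edges above a cell.

Everything is in DOUBLED coordinates: a vertex `v i` is at `(2 vx i, 2 vy i)`, an edge is given by its
midpoint `(sx i, sy i)`, a cell by its centre `(cx, cy)`, both coordinates odd.
`dx i, dy i`: direction of edge `i` (from `v i` to `v (i+1)`).
`rcx, rcy` : the cell on the right of edge `i`; `lcx, lcy` : the cell on the left.

`hh C i cx cy` = `dx i` if the edge `i` is horizontal, in the column `cx`, above the cell, else `0`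
(vertical edges have even `sx`; cells have odd `cx`).
`past C b cx cy` = sum over the edges `i < b` (the sum is finite: only edges with
`lo ≤ i < hi` can be in the column).

PROOFS.
* `vx_block`: induction on `j` (`Int.induction_on`), `glx`.  `vy_range`: `i = i' + j n` with
  `0 ≤ i' < n` (`i' = i % n`), `gly` iterated: `vy (i' + j n)` is `vy i'` or `-q - vy i'`.
* `vx_range`: for `j n ≤ i ≤ (j+1) n`: `vx i = j q + vx (i - j n)` and `bx1, bx2`.
* `sx_range`: sum of two.  `sx_lt_of_lt`: for `i < n (j + 1)`... use `j' = i / n` and monotonicity.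
* `hh_lo`: `i < lo` : `j = i / n ≤ cx/(2q) - 3`, `sx i < 2 (j+1) q + p ≤ 2 q (cx/(2q)) - 4 q + p < cx`.
* `hh_hi`: `i ≥ hi` : `j = i / n ≥ cx/(2q) + 3`, `sx i > 2 j q - p ≥ 2 q (cx/(2q)) + 6 q - p > cx`.
* `past_succ` : `Finset.sum_Ico_succ_top` if `lo ≤ b`, otherwise both sums are empty and `hh = 0`.
* `past_ge_hi` : split the sum, `hh_hi`.
* `past_low` : the sum may be started at any `a ≤ lo`.
-/

namespace H70Net

def sx (C : Curve) (i : ℤ) : ℤ := C.vx i + C.vx (i + 1)
def sy (C : Curve) (i : ℤ) : ℤ := C.vy i + C.vy (i + 1)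
def dx (C : Curve) (i : ℤ) : ℤ := C.vx (i + 1) - C.vx i
def dy (C : Curve) (i : ℤ) : ℤ := C.vy (i + 1) - C.vy i
def rcx (C : Curve) (i : ℤ) : ℤ := sx C i + dy C i
def rcy (C : Curve) (i : ℤ) : ℤ := sy C i - dx C i
def lcx (C : Curve) (i : ℤ) : ℤ := sx C i - dy C i
def lcy (C : Curve) (i : ℤ) : ℤ := sy C i + dx C i

def hh (C : Curve) (i cx cy : ℤ) : ℤ := if sx C i = cx ∧ cy < sy C i then dx C i else 0
def lo (C : Curve) (cx : ℤ) : ℤ := C.n * (cx / (2 * C.q) - 2)
def hi (C : Curve) (cx : ℤ) : ℤ := C.n * (cx / (2 * C.q) + 3)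
noncomputable def past (C : Curve) (b cx cy : ℤ) : ℤ := ∑ i ∈ Finset.Ico (lo C cx) b, hh C i cx cy
noncomputable def total (C : Curve) (cx cy : ℤ) : ℤ := past C (hi C cx) cx cy

theorem C_q_pos (C : Curve) : 0 < C.q := by have := C.hp; have := C.hpq; omega

theorem vx_block (C : Curve) (i j : ℤ) : C.vx (i + j * C.n) = j * C.q + C.vx i := by
  induction j using Int.induction_on with
  | zero => simp
  | succ k ih =>
    have e : i + ((k : ℤ) + 1) * C.n = (i + (k : ℤ) * C.n) + C.n := by ring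
    rw [e, C.glx, ih]
    ring
  | pred k ih =>
    have e : i + -(k : ℤ) * C.n = (i + (-(k : ℤ) - 1) * C.n) + C.n := by ring
    rw [e, C.glx] at ih
    linarith

theorem vy_two (C : Curve) (i j : ℤ) : C.vy (i + 2 * j * C.n) = C.vy i := by
  have h2 : ∀ i, C.vy (i + 2 * C.n) = C.vy i := by
    intro i
    have e : i + 2 * C.n = (i + C.n) + C.n := by ring
    rw [e, C.gly, C.gly]
    ring
  induction j using Int.induction_on with
  | zero => simp
  | succ k ih =>
    have e : i + 2 * ((k : ℤ) + 1) * C.n = (i + 2 * (k : ℤ) * C.n) + 2 * C.n := by ring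
    rw [e, h2, ih]
  | pred k ih =>
    have e : i + 2 * -(k : ℤ) * C.n = (i + 2 * (-(k : ℤ) - 1) * C.n) + 2 * C.n := by ring
    rw [e, h2] at ih
    exact ih

theorem vx_two (C : Curve) (i j : ℤ) : C.vx (i + 2 * j * C.n) = 2 * j * C.q + C.vx i :=
  vx_block C i (2 * j)

theorem vx_range (C : Curve) (i j : ℤ) (h1 : j * C.n ≤ i) (h2 : i ≤ (j + 1) * C.n) :
    2 * j * C.q - C.p < 2 * C.vx i ∧ 2 * C.vx i < 2 * (j + 1) * C.q + C.p := by
  have h3 := vx_block C (i - j * C.n) j
  rw [sub_add_cancel] at h3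
  have h4 := C.bx1 (i - j * C.n) (by linarith) (by linarith)
  have h5 := C.bx2 (i - j * C.n) (by linarith) (by linarith)
  constructor <;> linarith

theorem vy_range (C : Curve) (i : ℤ) :
    -2 * C.q - C.p < 2 * C.vy i ∧ 2 * C.vy i < C.p := by
  have hn := C.hn
  set i0 := i % (2 * C.n) with hi0
  have e : i = i0 + 2 * (i / (2 * C.n)) * C.n := by
    have := Int.emod_add_mul_ediv i (2 * C.n)
    linarith
  have h0 : 0 ≤ i0 := Int.emod_nonneg _ (by omega)
  have h1 : i0 < 2 * C.n := Int.emod_lt_of_pos _ (by omega)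
  rw [e, vy_two]
  rcases le_total i0 C.n with h2 | h2
  · exact ⟨C.by1 i0 h0 h2, C.by2 i0 h0 h2⟩
  · have h3 := C.gly (i0 - C.n)
    rw [sub_add_cancel] at h3
    have h4 := C.by1 (i0 - C.n) (by linarith) (by linarith)
    have h5 := C.by2 (i0 - C.n) (by linarith) (by linarith)
    constructor <;> linarith

theorem sx_range (C : Curve) (i j : ℤ) (h1 : j * C.n ≤ i) (h2 : i < (j + 1) * C.n) :
    2 * j * C.q - C.p < sx C i ∧ sx C i < 2 * (j + 1) * C.q + C.p := by
  have h3 := vx_range C i j h1 h2.le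
  have h4 := vx_range C (i + 1) j (by linarith) h2
  unfold sx
  constructor <;> linarith [h3.1, h3.2, h4.1, h4.2]

private theorem past_div (C : Curve) (i : ℤ) : i / C.n * C.n ≤ i ∧ i < (i / C.n + 1) * C.n := by
  have hn := C.hn
  have h1 := Int.emod_add_mul_ediv i C.n
  have h2 := Int.emod_nonneg i hn.ne'
  have h3 := Int.emod_lt_of_pos i hn
  constructor <;> nlinarith

/-- edges before index `j n` are in the columns `< 2 j q + p` -/
theorem sx_lt (C : Curve) (i j : ℤ) (h : i < j * C.n) : sx C i < 2 * j * C.q + C.p := by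
  obtain ⟨h1, h2⟩ := past_div C i
  have h3 := (sx_range C i (i / C.n) h1 h2).2
  have h4 : i / C.n < j := by
    by_contra hc
    rw [not_lt] at hc
    have := mul_le_mul_of_nonneg_right hc C.hn.le
    linarith
  have h5 : (i / C.n + 1) * C.q ≤ j * C.q :=
    mul_le_mul_of_nonneg_right (by omega) (C_q_pos C).le
  linarith

/-- edges from index `j n` on are in the columns `> 2 j q - p` -/
theorem lt_sx (C : Curve) (i j : ℤ) (h : j * C.n ≤ i) : 2 * j * C.q - C.p < sx C i := by
  obtain ⟨h1, h2⟩ := past_div C i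
  have h3 := (sx_range C i (i / C.n) h1 h2).1
  have h4 : j < i / C.n + 1 := by
    by_contra hc
    rw [not_lt] at hc
    have := mul_le_mul_of_nonneg_right hc C.hn.le
    linarith
  have h5 : j * C.q ≤ i / C.n * C.q :=
    mul_le_mul_of_nonneg_right (by omega) (C_q_pos C).le
  linarith

theorem sy_range (C : Curve) (i : ℤ) : -2 * C.q - C.p < sy C i ∧ sy C i < C.p := by
  have h1 := vy_range C i
  have h2 := vy_range C (i + 1)
  unfold sy
  constructor <;> linarith [h1.1, h1.2, h2.1, h2.2]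

theorem hh_lo (C : Curve) (i cx cy : ℤ) (h : i < lo C cx) : hh C i cx cy = 0 := by
  have hq := C_q_pos C
  have hpq := C.hpq
  have h1 := sx_lt C i (cx / (2 * C.q) - 2) (by unfold lo at h; linarith)
  have h2 := Int.emod_add_mul_ediv cx (2 * C.q)
  have h3 := Int.emod_nonneg cx (b := 2 * C.q) (by omega)
  unfold hh
  rw [if_neg]
  rintro ⟨h4, _⟩
  nlinarith

theorem hh_hi (C : Curve) (i cx cy : ℤ) (h : hi C cx ≤ i) : hh C i cx cy = 0 := by
  have hq := C_q_pos C
  have hpq := C.hpq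
  have h1 := lt_sx C i (cx / (2 * C.q) + 3) (by unfold hi at h; linarith)
  have h2 := Int.emod_add_mul_ediv cx (2 * C.q)
  have h3 := Int.emod_lt_of_pos cx (b := 2 * C.q) (by omega)
  unfold hh
  rw [if_neg]
  rintro ⟨h4, _⟩
  nlinarith

theorem past_succ (C : Curve) (b cx cy : ℤ) :
    past C (b + 1) cx cy = past C b cx cy + hh C b cx cy := by
  unfold past
  rcases le_or_gt (lo C cx) b with h | h
  · have e : Finset.Ico (lo C cx) (b + 1) = insert b (Finset.Ico (lo C cx) b) := by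
      ext x
      simp only [Finset.mem_Ico, Finset.mem_insert]
      omega
    rw [e, Finset.sum_insert (by simp), add_comm]
  · rw [Finset.Ico_eq_empty (by omega), Finset.Ico_eq_empty (by omega), hh_lo C b cx cy h]
    simp

theorem past_le_lo (C : Curve) (b cx cy : ℤ) (h : b ≤ lo C cx) : past C b cx cy = 0 := by
  unfold past
  rw [Finset.Ico_eq_empty (by omega), Finset.sum_empty]

theorem past_ge_hi (C : Curve) (b cx cy : ℤ) (h : hi C cx ≤ b) : past C b cx cy = total C cx cy := by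
  unfold total past
  symm
  apply Finset.sum_subset
  · exact Finset.Ico_subset_Ico_right h
  · intro x hx hx'
    rw [Finset.mem_Ico] at hx hx'
    exact hh_hi C x cx cy (by omega)

/-- the sum may be started anywhere below `lo` -/
theorem past_low (C : Curve) (a b cx cy : ℤ) (h : a ≤ lo C cx) :
    past C b cx cy = ∑ i ∈ Finset.Ico a b, hh C i cx cy := by
  unfold past
  apply Finset.sum_subset
  · exact Finset.Ico_subset_Ico_left h
  · intro x hx hx'
    rw [Finset.mem_Ico] at hx hx'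
    exact hh_lo C x cx cy (by omega)

/-- edges: exactly one of `dx, dy` is nonzero, equal to `±1`; parity of `sx, sy`. -/
theorem edge_cases (C : Curve) (i : ℤ) :
    (dx C i = 1 ∨ dx C i = -1) ∧ dy C i = 0 ∧ sx C i % 2 = 1 ∧ sy C i % 2 = 0 ∨
    dx C i = 0 ∧ (dy C i = 1 ∨ dy C i = -1) ∧ sx C i % 2 = 0 ∧ sy C i % 2 = 1 := by
  unfold dx dy sx sy
  rcases C.step i with ⟨h1 | h1, h2⟩ | ⟨h1, h2 | h2⟩ <;> rw [h1, h2] <;> omega

/-- an edge is determined by its midpoint -/
theorem edge_inj (C : Curve) (i j : ℤ) (h1 : sx C i = sx C j) (h2 : sy C i = sy C j) : i = j := by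
  unfold sx at h1
  unfold sy at h2
  have key : (C.vx i = C.vx j ∧ C.vy i = C.vy j) ∨
      ((C.vx i = C.vx (j + 1) ∧ C.vy i = C.vy (j + 1)) ∧
        (C.vx (i + 1) = C.vx j ∧ C.vy (i + 1) = C.vy j)) := by
    rcases C.step i with ⟨h3 | h3, h4⟩ | ⟨h3, h4 | h4⟩ <;>
    rcases C.step j with ⟨h5 | h5, h6⟩ | ⟨h5, h6 | h6⟩ <;> omega
  rcases key with ⟨h3, h4⟩ | ⟨⟨h3, h4⟩, h5, h6⟩
  · exact C.inj i j h3 h4
  · have h7 := C.inj i (j + 1) h3 h4
    have h8 := C.inj (i + 1) j h5 h6
    omega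

/-- the edges at the vertex `v i` -/
theorem edge_at (C : Curve) (i j a b : ℤ) (hab : a * a + b * b = 1) (h1 : sx C j = 2 * C.vx i + a)
    (h2 : sy C j = 2 * C.vy i + b) :
    (j = i ∧ dx C i = a ∧ dy C i = b) ∨ (j = i - 1 ∧ dx C (i - 1) = -a ∧ dy C (i - 1) = -b) := by
  unfold sx at h1
  unfold sy at h2
  have ha1 : a ≤ 1 := by nlinarith
  have ha2 : -1 ≤ a := by nlinarith
  have hb1 : b ≤ 1 := by nlinarith
  have hb2 : -1 ≤ b := by nlinarith
  have hcase : (a = 1 ∧ b = 0) ∨ (a = -1 ∧ b = 0) ∨ (a = 0 ∧ b = 1) ∨ (a = 0 ∧ b = -1) := by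
    interval_cases a <;> interval_cases b <;> simp_all
  have key : (C.vx j = C.vx i ∧ C.vy j = C.vy i) ∨
      (C.vx (j + 1) = C.vx i ∧ C.vy (j + 1) = C.vy i) := by
    rcases C.step j with ⟨h5 | h5, h6⟩ | ⟨h5, h6 | h6⟩ <;>
    rcases hcase with ⟨h7, h8⟩ | ⟨h7, h8⟩ | ⟨h7, h8⟩ | ⟨h7, h8⟩ <;> omega
  rcases key with ⟨h3, h4⟩ | ⟨h3, h4⟩
  · left
    have h5 := C.inj j i h3 h4
    subst h5
    unfold dx dy
    exact ⟨rfl, by omega, by omega⟩
  · right
    have h5 := C.inj (j + 1) i h3 h4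
    have h6 : j = i - 1 := by omega
    subst h6
    unfold dx dy
    refine ⟨rfl, ?_, ?_⟩
    · linarith
    · linarith

end H70Net
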