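import Pool.Agent.H70.Net.Past

/-!
MP_77daaf_co, module `PastRules` : how `past` changes between neighbouring cells.

PROOFS.  Let `cx, cy` be odd.
* up: `hh i cx cy - hh i cx (cy+2)` is `dx i` if `sx i = cx` and `cy < sy i ≤ cy + 2`, else `0`; as
  `sx i` is odd, `sy i` is even (`edge_cases`), so `sy i = cy + 1`: the edge `i` is the common edge.
  Sum over `i < b` (`Finset.sum_congr`/`Finset.sum_eq_single` with `edge_inj`).
* right (cells `(cx, cy)` and `(cx+2, cy)`, common edge of midpoint `(cx+1, cy)`): let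
  `g i = 1` if `2 vx i = cx + 1` and `cy < 2 vy i`, else `0`.  For every edge `i`:
    `hh i cx cy - hh i (cx+2) cy = g (i+1) - g i - (dy i if (sx i, sy i) = (cx+1, cy) else 0)`
  (cases of `C.step i`: horizontal edges ending or starting on the line `2x = cx+1`; vertical edges on
  that line).  Sum over `Ico a b` with `a` below both `lo`'s (`past_low`), telescoping
  (`Finset.sum_range_succ_sub_sum`-like; easiest: prove
   `∑ i ∈ Ico a b, (g (i+1) - g i) = g b - g a` by induction on `b` via `Int.le_induction`), and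
  `g a = 0` for `a` small (`vx a` is small: `vx_range`).
* `total_*`: take `b` above both `hi`'s, where `g b = 0` as `vx b` is large.
-/

namespace H70Net

private theorem pr_up_pt (C : Curve) (cx cy i : ℤ) (hcx : cx % 2 = 1) (hcy : cy % 2 = 1)
    (h : ¬ (sx C i = cx ∧ sy C i = cy + 1)) : hh C i cx cy = hh C i cx (cy + 2) := by
  unfold hh
  by_cases h1 : sx C i = cx
  · have h2 : sy C i % 2 = 0 := by
      rcases edge_cases C i with h3 | h3
      · exact h3.2.2.2
      · exfalso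
        have := h3.2.2.1
        omega
    have h3 : sy C i ≠ cy + 1 := fun h4 => h ⟨h1, h4⟩
    by_cases h4 : cy < sy C i
    · rw [if_pos ⟨h1, h4⟩, if_pos ⟨h1, by omega⟩]
    · rw [if_neg (fun h5 => h4 h5.2), if_neg (fun h5 => h4 (by have := h5.2; omega))]
  · rw [if_neg (fun h5 => h1 h5.1), if_neg (fun h5 => h1 h5.1)]

private theorem pr_up_pt' (C : Curve) (cx cy i : ℤ) (h1 : sx C i = cx) (h2 : sy C i = cy + 1) :
    hh C i cx cy = hh C i cx (cy + 2) + dx C i := by
  unfold hh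
  rw [if_pos ⟨h1, by omega⟩, if_neg (fun h => by have := h.2; omega)]
  ring

private noncomputable def prG (C : Curve) (cx cy i : ℤ) : ℤ :=
  if 2 * C.vx i = cx + 1 ∧ cy < 2 * C.vy i then 1 else 0

private noncomputable def prE (C : Curve) (cx cy i : ℤ) : ℤ :=
  if sx C i = cx + 1 ∧ sy C i = cy then dy C i else 0

private theorem pr_right_pt (C : Curve) (cx cy i : ℤ) (hcx : cx % 2 = 1) (hcy : cy % 2 = 1) :
    hh C i cx cy = hh C i (cx + 2) cy + (prG C cx cy (i + 1) - prG C cx cy i) - prE C cx cy i := by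
  unfold hh prG prE sx sy dx dy
  rcases C.step i with ⟨h1 | h1, h2⟩ | ⟨h1, h2 | h2⟩ <;> rw [h1, h2] <;> split_ifs <;> omega

private theorem pr_tele (C : Curve) (cx cy a : ℤ) : ∀ b : ℤ, a ≤ b →
    ∑ i ∈ Finset.Ico a b, (prG C cx cy (i + 1) - prG C cx cy i) = prG C cx cy b - prG C cx cy a := by
  intro b hb
  induction b, hb using Int.leInduction with
  | base => simp
  | succ b hb ih =>
    rw [← Finset.insert_Ico_right_eq_Ico_add_one hb, Finset.sum_insert (by simp), ih]
    ring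

private theorem pr_sum (C : Curve) (cx cy a b : ℤ) (hcx : cx % 2 = 1) (hcy : cy % 2 = 1)
    (hab : a ≤ b) (h1 : a ≤ lo C cx) (h2 : a ≤ lo C (cx + 2)) (h3 : prG C cx cy a = 0) :
    past C b cx cy = past C b (cx + 2) cy + prG C cx cy b - ∑ i ∈ Finset.Ico a b, prE C cx cy i := by
  rw [past_low C a b cx cy h1, past_low C a b (cx + 2) cy h2,
    Finset.sum_congr rfl (fun i _ => pr_right_pt C cx cy i hcx hcy), Finset.sum_sub_distrib,
    Finset.sum_add_distrib, pr_tele C cx cy a b hab, h3]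
  ring

private theorem pr_exists_a (C : Curve) (cx cy b i : ℤ) :
    ∃ a, a ≤ b ∧ a ≤ i ∧ a ≤ lo C cx ∧ a ≤ lo C (cx + 2) ∧ prG C cx cy a = 0 := by
  have hq := C_q_pos C
  have hn := C.hn
  have hd : cx / (2 * C.q) ≤ (cx + 2) / (2 * C.q) := Int.ediv_le_ediv (by omega) (by omega)
  have hm := Int.emod_add_mul_ediv cx (2 * C.q)
  have hm0 := Int.emod_nonneg cx (b := 2 * C.q) (by omega)
  set K := cx / (2 * C.q) with hK
  set K2 := (cx + 2) / (2 * C.q) with hK2
  obtain ⟨J, hJ1, hJ2, hJ3⟩ : ∃ J : ℤ, J ≤ K - 3 ∧ J ≤ -|b| ∧ J ≤ -|i| :=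
    ⟨min (K - 3) (min (-|b|) (-|i|)), min_le_left _ _,
      (min_le_right _ _).trans (min_le_left _ _), (min_le_right _ _).trans (min_le_right _ _)⟩
  have hJ0 : J ≤ 0 := hJ2.trans (by simp)
  have hnJ : J * C.n ≤ J := by nlinarith
  refine ⟨J * C.n, ?_, ?_, ?_, ?_, ?_⟩
  · have := neg_abs_le b
    linarith
  · have := neg_abs_le i
    linarith
  · unfold lo
    nlinarith
  · unfold lo
    nlinarith
  · unfold prG
    have h5 := (vx_range C (J * C.n) J le_rfl (by nlinarith)).2
    rw [if_neg]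
    rintro ⟨h6, _⟩
    have hpq := C.hpq
    have hp := C.hp
    nlinarith

private theorem pr_exists_b (C : Curve) (cx cy i : ℤ) :
    ∃ b, i < b ∧ hi C cx ≤ b ∧ hi C (cx + 2) ≤ b ∧ prG C cx cy b = 0 := by
  have hq := C_q_pos C
  have hn := C.hn
  have hd : cx / (2 * C.q) ≤ (cx + 2) / (2 * C.q) := Int.ediv_le_ediv (by omega) (by omega)
  have hm := Int.emod_add_mul_ediv (cx + 2) (2 * C.q)
  have hm0 := Int.emod_lt_of_pos (cx + 2) (b := 2 * C.q) (by omega)
  set K := cx / (2 * C.q) with hK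
  set K2 := (cx + 2) / (2 * C.q) with hK2
  obtain ⟨J, hJ1, hJ2⟩ : ∃ J : ℤ, K2 + 3 ≤ J ∧ |i| + 1 ≤ J :=
    ⟨max (K2 + 3) (|i| + 1), le_max_left _ _, le_max_right _ _⟩
  have hJ0 : 0 < J := lt_of_lt_of_le (by positivity) hJ2
  have hnJ : J ≤ J * C.n := by nlinarith
  refine ⟨J * C.n, ?_, ?_, ?_, ?_⟩
  · have := le_abs_self i
    linarith
  · unfold hi
    nlinarith
  · unfold hi
    nlinarith
  · unfold prG
    have h5 := (vx_range C (J * C.n) J le_rfl (by nlinarith)).1
    rw [if_neg]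
    rintro ⟨h6, _⟩
    have hpq := C.hpq
    have hp := C.hp
    nlinarith


theorem past_up (C : Curve) (b cx cy : ℤ) (hcx : cx % 2 = 1) (hcy : cy % 2 = 1)
    (h : ∀ i, i < b → ¬ (sx C i = cx ∧ sy C i = cy + 1)) :
    past C b cx cy = past C b cx (cy + 2) := by
  unfold past
  exact Finset.sum_congr rfl (fun i hi => pr_up_pt C cx cy i hcx hcy (h i (Finset.mem_Ico.1 hi).2))

theorem past_up' (C : Curve) (b cx cy i : ℤ) (hcx : cx % 2 = 1) (hcy : cy % 2 = 1) (hi : i < b)
    (h1 : sx C i = cx) (h2 : sy C i = cy + 1) :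
    past C b cx cy = past C b cx (cy + 2) + dx C i := by
  have hmem : i ∈ Finset.Ico (lo C cx) b := by
    rw [Finset.mem_Ico]
    refine ⟨?_, hi⟩
    by_contra hlt
    have h3 := hh_lo C i cx cy (by omega)
    unfold hh at h3
    rw [if_pos ⟨h1, by omega⟩] at h3
    rcases edge_cases C i with h4 | h4
    · rcases h4.1 with h5 | h5 <;> omega
    · have := h4.2.2.1
      omega
  unfold past
  have key : ∀ j ∈ Finset.Ico (lo C cx) b, hh C j cx cy =
      hh C j cx (cy + 2) + (if i = j then dx C i else 0) := by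
    intro j _
    by_cases hij : i = j
    · rw [if_pos hij, ← hij]
      exact pr_up_pt' C cx cy i h1 h2
    · rw [if_neg hij, add_zero]
      apply pr_up_pt C cx cy j hcx hcy
      rintro ⟨h3, h4⟩
      exact hij (edge_inj C i j (by rw [h1, h3]) (by rw [h2, h4]))
  rw [Finset.sum_congr rfl key, Finset.sum_add_distrib, Finset.sum_ite_eq, if_pos hmem]

theorem past_right (C : Curve) (b cx cy : ℤ) (hcx : cx % 2 = 1) (hcy : cy % 2 = 1)
    (h : ∀ i, i < b → ¬ (sx C i = cx + 1 ∧ sy C i = cy)) :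
    past C b cx cy = past C b (cx + 2) cy +
      (if 2 * C.vx b = cx + 1 ∧ cy < 2 * C.vy b then 1 else 0) := by
  obtain ⟨a, h1, _, h2, h3, h4⟩ := pr_exists_a C cx cy b b
  have h5 := pr_sum C cx cy a b hcx hcy h1 h2 h3 h4
  rw [Finset.sum_eq_zero, sub_zero] at h5
  · exact h5
  · intro i hi
    unfold prE
    rw [if_neg (h i (Finset.mem_Ico.1 hi).2)]

theorem past_right' (C : Curve) (b cx cy i : ℤ) (hcx : cx % 2 = 1) (hcy : cy % 2 = 1) (hi : i < b)
    (h1 : sx C i = cx + 1) (h2 : sy C i = cy) :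
    past C b cx cy = past C b (cx + 2) cy +
      (if 2 * C.vx b = cx + 1 ∧ cy < 2 * C.vy b then 1 else 0) - dy C i := by
  obtain ⟨a, h3, h4, h5, h6, h7⟩ := pr_exists_a C cx cy b i
  have h8 := pr_sum C cx cy a b hcx hcy h3 h5 h6 h7
  have key : ∀ j ∈ Finset.Ico a b, prE C cx cy j = (if i = j then dy C i else 0) := by
    intro j _
    unfold prE
    by_cases hij : i = j
    · rw [if_pos hij, ← hij, if_pos ⟨h1, h2⟩]
    · rw [if_neg hij, if_neg]
      rintro ⟨h9, h10⟩
      exact hij (edge_inj C i j (by rw [h1, h9]) (by rw [h2, h10]))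
  rw [Finset.sum_congr rfl key, Finset.sum_ite_eq, if_pos (Finset.mem_Ico.2 ⟨h4, hi⟩)] at h8
  exact h8

theorem total_up (C : Curve) (cx cy : ℤ) (hcx : cx % 2 = 1) (hcy : cy % 2 = 1)
    (h : ∀ i, ¬ (sx C i = cx ∧ sy C i = cy + 1)) : total C cx cy = total C cx (cy + 2) := by
  exact past_up C _ cx cy hcx hcy (fun i _ => h i)

theorem total_right (C : Curve) (cx cy : ℤ) (hcx : cx % 2 = 1) (hcy : cy % 2 = 1)
    (h : ∀ i, ¬ (sx C i = cx + 1 ∧ sy C i = cy)) : total C cx cy = total C (cx + 2) cy := by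
  obtain ⟨b, _, h1, h2, h3⟩ := pr_exists_b C cx cy 0
  have h4 := past_right C b cx cy hcx hcy (fun i _ => h i)
  rw [past_ge_hi C b cx cy h1, past_ge_hi C b (cx + 2) cy h2] at h4
  unfold prG at h3
  rw [h3, add_zero] at h4
  exact h4

/-- right cell = left cell + 1 -/
theorem total_edge (C : Curve) (i : ℤ) :
    total C (rcx C i) (rcy C i) = total C (lcx C i) (lcy C i) + 1 := by
  rcases edge_cases C i with ⟨h1, h2, h3, h4⟩ | ⟨h1, h2, h3, h4⟩
  · rcases h1 with h1 | h1
    · have h5 := past_up' C (max (hi C (sx C i)) (i + 1)) (sx C i) (sy C i - 1) i h3 (by omega)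
        (lt_of_lt_of_le (by omega) (le_max_right _ _)) rfl (by ring)
      rw [past_ge_hi C _ _ _ (le_max_left _ _), past_ge_hi C _ _ _ (le_max_left _ _), h1] at h5
      unfold rcx rcy lcx lcy
      rw [h1, h2, add_zero, sub_zero, h5]
      congr 2
      ring
    · have h5 := past_up' C (max (hi C (sx C i)) (i + 1)) (sx C i) (sy C i - 1) i h3 (by omega)
        (lt_of_lt_of_le (by omega) (le_max_right _ _)) rfl (by ring)
      rw [past_ge_hi C _ _ _ (le_max_left _ _), past_ge_hi C _ _ _ (le_max_left _ _), h1] at h5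
      unfold rcx rcy lcx lcy
      rw [h1, h2, add_zero, sub_zero]
      have e1 : sy C i - -1 = sy C i - 1 + 2 := by ring
      have e2 : sy C i + -1 = sy C i - 1 := by ring
      rw [e1, e2, h5]
      ring
  · obtain ⟨b, hb0, hb1, hb2, hb3⟩ := pr_exists_b C (sx C i - 1) (sy C i) i
    have h5 := past_right' C b (sx C i - 1) (sy C i) i (by omega) h4 hb0 (by ring) rfl
    rw [past_ge_hi C b _ _ hb1, past_ge_hi C b _ _ hb2] at h5
    unfold prG at hb3
    rw [hb3, add_zero] at h5
    have e1 : sx C i - 1 + 2 = sx C i + 1 := by ring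
    rw [e1] at h5
    unfold rcx rcy lcx lcy
    rw [h1, sub_zero, add_zero]
    rcases h2 with h2 | h2
    · rw [h2] at h5 ⊢
      rw [h5]
      ring
    · rw [h2] at h5 ⊢
      have e2 : sx C i + -1 = sx C i - 1 := by ring
      have e3 : sx C i - -1 = sx C i + 1 := by ring
      rw [e2, e3, h5]
      ring

end H70Net
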