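import Pool.Agent.H70.Net.Defs

/-!
MP_77daaf_co, module `Poly` : the ladder polygon.  (Imports only Mathlib and `Defs`.)

`A 0, ..., A (M-1)` is a simple polygonal path, `w` a vector; the closed polygon is
`A 0, ..., A (M-1), A (M-1) - w, ..., A 0 - w`.

PROOF.  `N = 2M`, `V k = A k` for `k < M`, `V k = A (2M-1-k) - w` for `M ≤ k < 2M`, `V (2M) = A 0`.  Edges:
`k < M-1`: `[A k, A (k+1)]`; `k = M-1`: the rung `[A (M-1), A (M-1) - w]`; `M ≤ k < 2M-1`:
`[A j - w, A (j-1) - w]` with `j = 2M-1-k`; `k = 2M-1`: the rung `[A 0 - w, A 0]`.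
Cases for two edges `i < j`: path-path: `h1` (or its translate); path-translate: disjoint by `h2`;
path-rung: `h3`, `h4` (a point of the rung which is on the path is the end point `A 0`, resp.
`A (M-1)`; a point of the path equal to `A 0` on the edge `[A k, A (k+1)]` is one of its ends by `h1`
or `hend`...: use `h0, h1` : if `A 0 ∈ [A k, A (k+1)]`, `k ≥ 1`, then `A 0 ∈ [A 0, A 1]` too, so by
`h1` it is an end of edge `k`; the same for `A (M-1)` with the edge `M-2`); rung-rung: `h5`.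
-/

namespace H70Net

theorem ladder_mem_rung {z P w : ℂ} (hz : z ∈ segment ℝ P (P - w)) :
    ∃ t : ℝ, 0 ≤ t ∧ t ≤ 1 ∧ z = P - t * w := by
  rw [segment_eq_image] at hz
  obtain ⟨t, ht, rfl⟩ := hz
  refine ⟨t, ht.1, ht.2, ?_⟩
  show (1 - t) • P + t • (P - w) = P - t * w
  rw [Complex.real_smul, Complex.real_smul]
  push_cast
  ring

theorem ladder_mem_shift {z a b w : ℂ} :
    z ∈ segment ℝ (b - w) (a - w) ↔ z + w ∈ segment ℝ a b := by
  rw [segment_symm]
  have h1 := mem_segment_translate ℝ w (x := z) (b := a - w) (c := b - w)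
  rw [← h1]
  have e1 : w + (a - w) = a := by ring
  have e2 : w + (b - w) = b := by ring
  rw [e1, e2, add_comm w z]

theorem ladder (M : ℕ) (hM : 2 ≤ M) (A : ℕ → ℂ) (w : ℂ)
    (h0 : ∀ i < M, ∀ j < M, A i = A j → i = j)
    (h1 : ∀ i < M - 1, ∀ j < M - 1, i ≠ j → ∀ z, z ∈ segment ℝ (A i) (A (i + 1)) →
      z ∈ segment ℝ (A j) (A (j + 1)) → (z = A i ∨ z = A (i + 1)) ∧ (z = A j ∨ z = A (j + 1)))
    (h2 : ∀ i < M - 1, ∀ j < M - 1, ∀ z, z ∈ segment ℝ (A i) (A (i + 1)) →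
      z + w ∉ segment ℝ (A j) (A (j + 1)))
    (h3 : ∀ t : ℝ, 0 ≤ t → t ≤ 1 → ∀ i < M - 1, (A 0 - t * w ∈ segment ℝ (A i) (A (i + 1)) → t = 0) ∧
      (A 0 - t * w + w ∈ segment ℝ (A i) (A (i + 1)) → t = 1))
    (h4 : ∀ t : ℝ, 0 ≤ t → t ≤ 1 → ∀ i < M - 1,
      (A (M - 1) - t * w ∈ segment ℝ (A i) (A (i + 1)) → t = 0) ∧
      (A (M - 1) - t * w + w ∈ segment ℝ (A i) (A (i + 1)) → t = 1))
    (h5 : ∀ t u : ℝ, 0 ≤ t → t ≤ 1 → 0 ≤ u → u ≤ 1 → A 0 - t * w ≠ A (M - 1) - u * w)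
    (hw : w ≠ 0) :
    ∃ (N : ℕ) (V : ℕ → ℂ), 3 ≤ N ∧ V N = V 0 ∧
      (∀ i < N, ∀ j < N, V i = V j → i = j) ∧
      (∀ i < N, ∀ j < N, i ≠ j → ∀ z, z ∈ segment ℝ (V i) (V (i + 1)) →
        z ∈ segment ℝ (V j) (V (j + 1)) → (z = V i ∨ z = V (i + 1)) ∧ (z = V j ∨ z = V (j + 1))) ∧
      (⋃ i ∈ Finset.range N, segment ℝ (V i) (V (i + 1))) =
        {z | (∃ i < M - 1, z ∈ segment ℝ (A i) (A (i + 1))) ∨
          (∃ i < M - 1, z + w ∈ segment ℝ (A i) (A (i + 1))) ∨
          z ∈ segment ℝ (A 0) (A 0 - w) ∨ z ∈ segment ℝ (A (M - 1)) (A (M - 1) - w)} := by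
  classical
  set V : ℕ → ℂ := fun k => if k < M then A k else if k < 2 * M then A (2 * M - 1 - k) - w
    else A 0 with hV
  have hVlt : ∀ k, k < M → V k = A k := by
    intro k hk
    simp only [hV, if_pos hk]
  have hVmid : ∀ k j, k + j = 2 * M - 1 → j < M → V k = A j - w := by
    intro k j hkj hj
    have h1 : ¬ k < M := by omega
    have h3 : k < 2 * M := by omega
    have h4 : 2 * M - 1 - k = j := by omega
    simp only [hV, if_neg h1, if_pos h3, h4]
  have hVend : V (2 * M) = A 0 := by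
    have h1 : ¬ 2 * M < M := by omega
    simp only [hV, if_neg h1, if_neg (lt_irrefl (2 * M))]
  have hcases : ∀ i, i < 2 * M →
      (i < M - 1 ∧ V i = A i ∧ V (i + 1) = A (i + 1)) ∨
      (i = M - 1 ∧ V i = A (M - 1) ∧ V (i + 1) = A (M - 1) - w) ∨
      (∃ j, j < M - 1 ∧ i + j = 2 * M - 2 ∧ V i = A (j + 1) - w ∧ V (i + 1) = A j - w) ∨
      (i = 2 * M - 1 ∧ V i = A 0 - w ∧ V (i + 1) = A 0) := by
    intro i hi
    rcases lt_trichotomy i (M - 1) with h | h | h
    · exact Or.inl ⟨h, hVlt _ (by omega), hVlt _ (by omega)⟩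
    · refine Or.inr (Or.inl ⟨h, ?_, ?_⟩)
      · rw [hVlt i (by omega), h]
      · exact hVmid _ _ (by omega) (by omega)
    · by_cases h' : i = 2 * M - 1
      · refine Or.inr (Or.inr (Or.inr ⟨h', ?_, ?_⟩))
        · exact hVmid _ _ (by omega) (by omega)
        · rw [show i + 1 = 2 * M by omega, hVend]
      · refine Or.inr (Or.inr (Or.inl ⟨2 * M - 2 - i, by omega, by omega, ?_, ?_⟩))
        · exact hVmid _ _ (by omega) (by omega)
        · exact hVmid _ _ (by omega) (by omega)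
  -- the end points of the path are end points of every edge they lie on
  have hend0 : ∀ k, k < M - 1 → A 0 ∈ segment ℝ (A k) (A (k + 1)) →
      A 0 = A k ∨ A 0 = A (k + 1) := by
    intro k hk hz
    by_cases hk0 : k = 0
    · left; rw [hk0]
    · exact (h1 k hk 0 (by omega) hk0 (A 0) hz (left_mem_segment ℝ _ _)).1
  have hendM : ∀ k, k < M - 1 → A (M - 1) ∈ segment ℝ (A k) (A (k + 1)) →
      A (M - 1) = A k ∨ A (M - 1) = A (k + 1) := by
    intro k hk hz
    by_cases hk0 : k = M - 2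
    · right; rw [hk0]; congr 1; omega
    · refine (h1 k hk (M - 2) (by omega) hk0 (A (M - 1)) hz ?_).1
      have h6 : M - 2 + 1 = M - 1 := by omega
      rw [h6]
      exact right_mem_segment ℝ _ _
  have key : ∀ i, i < 2 * M → ∀ j, j < 2 * M → i < j → ∀ z, z ∈ segment ℝ (V i) (V (i + 1)) →
      z ∈ segment ℝ (V j) (V (j + 1)) →
      (z = V i ∨ z = V (i + 1)) ∧ (z = V j ∨ z = V (j + 1)) := by
    intro i hi j hj hij z hzi hzj
    rcases hcases i hi with ⟨hi1, hi2, hi3⟩ | ⟨hi1, hi2, hi3⟩ | ⟨i', hi1, hi0, hi2, hi3⟩ |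
      ⟨hi1, hi2, hi3⟩ <;>
    rcases hcases j hj with ⟨hj1, hj2, hj3⟩ | ⟨hj1, hj2, hj3⟩ | ⟨j', hj1, hj0, hj2, hj3⟩ |
      ⟨hj1, hj2, hj3⟩ <;>
    rw [hi2, hi3] at hzi ⊢ <;> rw [hj2, hj3] at hzj ⊢
    · exact h1 i hi1 j hj1 hij.ne z hzi hzj
    · obtain ⟨t, ht0, ht1, rfl⟩ := ladder_mem_rung hzj
      have ht := (h4 t ht0 ht1 i hi1).1 hzi
      subst ht
      have e : A (M - 1) - ((0 : ℝ) : ℂ) * w = A (M - 1) := by simp
      rw [e] at hzi ⊢
      exact ⟨hendM i hi1 hzi, Or.inl rfl⟩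
    · exact absurd (ladder_mem_shift.1 hzj) (h2 i hi1 j' hj1 z hzi)
    · rw [segment_symm] at hzj
      obtain ⟨t, ht0, ht1, rfl⟩ := ladder_mem_rung hzj
      have ht := (h3 t ht0 ht1 i hi1).1 hzi
      subst ht
      have e : A 0 - ((0 : ℝ) : ℂ) * w = A 0 := by simp
      rw [e] at hzi ⊢
      exact ⟨hend0 i hi1 hzi, Or.inr rfl⟩
    · omega
    · omega
    · obtain ⟨t, ht0, ht1, rfl⟩ := ladder_mem_rung hzi
      have hz' := ladder_mem_shift.1 hzj
      have ht := (h4 t ht0 ht1 j' hj1).2 hz'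
      subst ht
      have e : A (M - 1) - ((1 : ℝ) : ℂ) * w + w = A (M - 1) := by simp
      have e2 : A (M - 1) - ((1 : ℝ) : ℂ) * w = A (M - 1) - w := by simp
      rw [e] at hz'
      rw [e2]
      refine ⟨Or.inr rfl, ?_⟩
      rcases hendM j' hj1 hz' with h | h
      · right; rw [h]
      · left; rw [h]
    · obtain ⟨t, ht0, ht1, rfl⟩ := ladder_mem_rung hzi
      rw [segment_symm] at hzj
      obtain ⟨u, hu0, hu1, hu⟩ := ladder_mem_rung hzj
      exact absurd hu.symm (h5 u t hu0 hu1 ht0 ht1)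
    · omega
    · omega
    · have hzi' := ladder_mem_shift.1 hzi
      have hzj' := ladder_mem_shift.1 hzj
      obtain ⟨ha, hb⟩ := h1 i' hi1 j' hj1 (by omega) _ hzi' hzj'
      constructor
      · rcases ha with h | h
        · right; rw [← h]; ring
        · left; rw [← h]; ring
      · rcases hb with h | h
        · right; rw [← h]; ring
        · left; rw [← h]; ring
    · rw [segment_symm] at hzj
      obtain ⟨t, ht0, ht1, rfl⟩ := ladder_mem_rung hzj
      have hz' := ladder_mem_shift.1 hzi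
      have ht := (h3 t ht0 ht1 i' hi1).2 hz'
      subst ht
      have e : A 0 - ((1 : ℝ) : ℂ) * w + w = A 0 := by simp
      have e2 : A 0 - ((1 : ℝ) : ℂ) * w = A 0 - w := by simp
      rw [e] at hz'
      rw [e2]
      refine ⟨?_, Or.inl rfl⟩
      rcases hend0 i' hi1 hz' with h | h
      · right; rw [h]
      · left; rw [h]
    · omega
    · omega
    · omega
    · omega
  -- every vertex of the path lies on an edge of the path
  have hvert : ∀ i, i < M → ∃ k, k < M - 1 ∧ A i ∈ segment ℝ (A k) (A (k + 1)) := by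
    intro i hi
    by_cases h : i < M - 1
    · exact ⟨i, h, left_mem_segment ℝ _ _⟩
    · refine ⟨M - 2, by omega, ?_⟩
      have h6 : M - 2 + 1 = i := by omega
      rw [h6]
      exact right_mem_segment ℝ _ _
  have hmix : ∀ i, i < M → ∀ j, j < M → A i ≠ A j - w := by
    intro i hi j hj he
    obtain ⟨k, hk, hk'⟩ := hvert i hi
    obtain ⟨l, hl, hl'⟩ := hvert j hj
    refine h2 k hk l hl _ hk' ?_
    rw [he, sub_add_cancel]
    exact hl'
  refine ⟨2 * M, V, by omega, ?_, ?_, ?_, ?_⟩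
  · rw [hVend, hVlt 0 (by omega)]
  · have hV2 : ∀ i, i < 2 * M → (i < M ∧ V i = A i) ∨
        ∃ j, j < M ∧ i + j = 2 * M - 1 ∧ V i = A j - w := by
      intro i hi
      by_cases h : i < M
      · exact Or.inl ⟨h, hVlt i h⟩
      · exact Or.inr ⟨2 * M - 1 - i, by omega, by omega, hVmid _ _ (by omega) (by omega)⟩
    intro i hi j hj he
    rcases hV2 i hi with ⟨hi1, hi2⟩ | ⟨i', hi1, hi0, hi2⟩ <;>
    rcases hV2 j hj with ⟨hj1, hj2⟩ | ⟨j', hj1, hj0, hj2⟩ <;>
    rw [hi2, hj2] at he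
    · exact h0 i hi1 j hj1 he
    · exact absurd he (hmix i hi1 j' hj1)
    · exact absurd he.symm (hmix j hj1 i' hi1)
    · have h6 := h0 i' hi1 j' hj1 (sub_left_injective he)
      omega
  · intro i hi j hj hij z hzi hzj
    rcases lt_or_gt_of_ne hij with h | h
    · exact key i hi j hj h z hzi hzj
    · exact (key j hj i hi h z hzj hzi).symm
  · ext z
    simp only [Set.mem_iUnion, Finset.mem_range, exists_prop, Set.mem_setOf_eq]
    constructor
    · rintro ⟨i, hi, hz⟩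
      rcases hcases i hi with ⟨hi1, hi2, hi3⟩ | ⟨hi1, hi2, hi3⟩ | ⟨i', hi1, hi0, hi2, hi3⟩ |
        ⟨hi1, hi2, hi3⟩ <;> rw [hi2, hi3] at hz
      · exact Or.inl ⟨i, hi1, hz⟩
      · exact Or.inr (Or.inr (Or.inr hz))
      · exact Or.inr (Or.inl ⟨i', hi1, ladder_mem_shift.1 hz⟩)
      · rw [segment_symm] at hz
        exact Or.inr (Or.inr (Or.inl hz))
    · rintro (⟨i, hi, hz⟩ | ⟨i, hi, hz⟩ | hz | hz)
      · refine ⟨i, by omega, ?_⟩
        rw [hVlt i (by omega), hVlt (i + 1) (by omega)]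
        exact hz
      · refine ⟨2 * M - 2 - i, by omega, ?_⟩
        rw [hVmid (2 * M - 2 - i) (i + 1) (by omega) (by omega),
          hVmid (2 * M - 2 - i + 1) i (by omega) (by omega)]
        exact ladder_mem_shift.2 hz
      · refine ⟨2 * M - 1, by omega, ?_⟩
        rw [hVmid (2 * M - 1) 0 (by omega) (by omega), show 2 * M - 1 + 1 = 2 * M by omega, hVend,
          segment_symm]
        exact hz
      · refine ⟨M - 1, by omega, ?_⟩
        rw [hVlt (M - 1) (by omega), hVmid (M - 1 + 1) (M - 1) (by omega) (by omega)]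
        exact hz

end H70Net
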