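import Pool.Agent.H70.Net.PolyPP

/-!
MP_77daaf_co, module `PolyLine` : the straight sides of the polygon.
PROOFS: see the header of module `PolyPP` (item `line_PP`).
* `Gam_line0`: if `z ∈ Gam` and `sf z = σ` then `z = X` (on the edge `x0`, `sf` is injective; the other
  edges are on one side).  `Gam_line1`: translate by `-8q` (`Gam` is invariant: `vx_two` with `j = 4`).
* `line_param`: `sf z = sf X` implies `z = X + t W` (`W ≠ 0`, `sf` is a nonzero linear form with
  `sf W = 0`): `t = (im z - im X) / (3q)`.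
* `ray_low`: for `t < 0`: `X + t W ∈ Bel \ Abo`; `ray_high`: for `t > 0`: in `Abo \ Bel`.
* `BandR_shift`: `z ∈ BandR ↔ z + 8q ∈ BandR`.
-/

namespace H70Net

open Complex

private theorem pl_cast (C : Curve) (k : ℤ) :
    (8 * C.q * k : ℂ) = ((8 * C.q * k : ℤ) : ℂ) := by push_cast; ring

theorem BandR_shift (C : Curve) (z : ℂ) (k : ℤ) : z + 8 * C.q * k ∈ BandR C ↔ z ∈ BandR C := by
  have hsq : ∀ (x y : ℤ), z + 8 * C.q * k ∈ sq (x + 16 * C.q * k) y ↔ z ∈ sq x y := by
    intro x y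
    have e1 : 2 * (z + 8 * C.q * k).re - ((x + 16 * C.q * k : ℤ) : ℝ) = 2 * z.re - x := by
      rw [pl_cast, add_re, intCast_re]; push_cast; ring
    have e2 : (z + 8 * C.q * k).im = z.im := by
      rw [pl_cast, add_im, intCast_im, add_zero]
    unfold sq
    rw [Set.mem_ofPred_eq, Set.mem_ofPred_eq, e1, e2]
  constructor
  · rintro ⟨cx, cy, h, hz⟩
    refine ⟨cx - 16 * C.q * k, cy, ?_, ?_⟩
    · rw [← band_shift C _ cy k, sub_add_cancel]; exact h
    · rw [← hsq, sub_add_cancel]; exact hz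
  · rintro ⟨cx, cy, h, hz⟩
    exact ⟨cx + 16 * C.q * k, cy, (band_shift C cx cy k).2 h, (hsq cx cy).2 hz⟩

private theorem pl_vc (C : Curve) (i k : ℤ) :
    vc C (i + 8 * C.n * k) = vc C i + 8 * C.q * k := by
  have e : i + 8 * C.n * k = i + 2 * (4 * k) * C.n := by ring
  have h1 := vx_two C i (4 * k)
  have h2 := vy_two C i (4 * k)
  rw [e]
  apply Complex.ext
  · rw [pl_cast, add_re, intCast_re]
    simp only [vc]
    rw [h1]; push_cast; ring
  · rw [pl_cast, add_im, intCast_im]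
    simp only [vc]
    rw [h2]; ring

private theorem pl_seg {u v w c : ℂ} (h : w ∈ segment ℝ u v) :
    w + c ∈ segment ℝ (u + c) (v + c) := by
  obtain ⟨a, b, ha, hb, hab, rfl⟩ := h
  refine ⟨a, b, ha, hb, hab, ?_⟩
  have h1 : (a : ℂ) + b = 1 := by exact_mod_cast congrArg (fun t : ℝ => (t : ℂ)) hab
  simp only [real_smul]
  linear_combination c * h1

theorem Gam_shift (C : Curve) (z : ℂ) (k : ℤ) : z + 8 * C.q * k ∈ Gam C ↔ z ∈ Gam C := by
  have h : ∀ (z : ℂ) (k : ℤ), z ∈ Gam C → z + 8 * C.q * k ∈ Gam C := by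
    rintro z k ⟨i, hi⟩
    refine ⟨i + 8 * C.n * k, ?_⟩
    rw [show i + 8 * C.n * k + 1 = (i + 1) + 8 * C.n * k by ring, pl_vc, pl_vc]
    exact pl_seg hi
  constructor
  · intro h1
    have h2 := h _ (-k) h1
    have e : z + 8 * C.q * k + 8 * C.q * ((-k : ℤ) : ℂ) = z := by push_cast; ring
    rwa [e] at h2
  · exact h z k

private theorem pl_sf (C : Curve) (a b : ℝ) (u v : ℂ) :
    sf C (a • u + b • v) = a * sf C u + b * sf C v := by
  unfold sf
  simp only [Complex.add_re, Complex.add_im, Complex.smul_re, Complex.smul_im, smul_eq_mul]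
  ring

private theorem pl_comb (X Y : ℂ) (θ : ℝ) : X + θ * (Y - X) = (1 - θ) • X + θ • Y := by
  simp only [real_smul]
  push_cast
  ring

theorem Gam_line0 (C : Curve) (X : ℂ) (θ : ℝ) (h0 : 0 < θ) (h1 : θ < 1)
    (hX : X = vc C C.x0 + θ * (vc C (C.x0 + 1) - vc C C.x0)) (hs : sf C X = C.σ) (z : ℂ)
    (hz : z ∈ Gam C) (hz' : sf C z = C.σ) : z = X := by
  obtain ⟨i, a, b, ha, hb, hab, rfl⟩ := hz
  rw [pl_comb] at hX
  rw [pl_sf] at hz'
  have low : ∀ i ≤ C.x0, sf C (vc C i) < C.σ := fun i hi => C.cut1 i hi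
  have high : ∀ i, C.x0 < i → C.σ < sf C (vc C i) := fun i hi => C.cut2 i hi
  rcases lt_trichotomy i C.x0 with hi | hi | hi
  · exfalso
    have e1 := low i hi.le
    have e2 := low (i + 1) hi
    have e3 : a * (C.σ - sf C (vc C i)) + b * (C.σ - sf C (vc C (i + 1))) = 0 := by
      linear_combination C.σ * hab - hz'
    have e4 : 0 ≤ a * (C.σ - sf C (vc C i)) := mul_nonneg ha (by linarith)
    have e5 : 0 ≤ b * (C.σ - sf C (vc C (i + 1))) := mul_nonneg hb (by linarith)
    have e6 : a = 0 := by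
      rcases mul_eq_zero.1 (le_antisymm (by linarith) e4) with h | h
      · exact h
      · linarith
    have e7 : b = 0 := by
      rcases mul_eq_zero.1 (le_antisymm (by linarith) e5) with h | h
      · exact h
      · linarith
    linarith
  · subst hi
    rw [hX, pl_sf] at hs
    have e1 := low C.x0 le_rfl
    have e2 := high (C.x0 + 1) (by omega)
    have e3 : (b - θ) * (sf C (vc C (C.x0 + 1)) - sf C (vc C C.x0)) = 0 := by
      have : a = 1 - b := by linarith
      rw [this] at hz'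
      linear_combination hz' - hs
    have e4 : b = θ := by
      rcases mul_eq_zero.1 e3 with h | h
      · linarith
      · linarith
    rw [hX, e4, show a = 1 - θ by linarith]
  · exfalso
    have e1 := high i hi
    have e2 := high (i + 1) (by omega)
    have e3 : a * (sf C (vc C i) - C.σ) + b * (sf C (vc C (i + 1)) - C.σ) = 0 := by
      linear_combination hz' - C.σ * hab
    have e4 : 0 ≤ a * (sf C (vc C i) - C.σ) := mul_nonneg ha (by linarith)
    have e5 : 0 ≤ b * (sf C (vc C (i + 1)) - C.σ) := mul_nonneg hb (by linarith)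
    have e6 : a = 0 := by
      rcases mul_eq_zero.1 (le_antisymm (by linarith) e4) with h | h
      · exact h
      · linarith
    have e7 : b = 0 := by
      rcases mul_eq_zero.1 (le_antisymm (by linarith) e5) with h | h
      · exact h
      · linarith
    linarith

private theorem pl_q (C : Curve) : (0 : ℝ) < C.q := by
  have h1 := C.hp
  have h2 := C.hpq
  have h3 : 0 < C.q := by omega
  exact_mod_cast h3

theorem line_param (C : Curve) (X z : ℂ) (h : sf C z = sf C X) : ∃ t : ℝ, z = X + t * Ws C := by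
  have hq := pl_q C
  refine ⟨(z.im - X.im) / (3 * C.q), ?_⟩
  unfold sf at h
  apply Complex.ext
  · rw [add_re, re_ofReal_mul]
    simp only [Ws]
    field_simp
    linear_combination h
  · rw [add_im, im_ofReal_mul]
    simp only [Ws]
    field_simp
    ring

private theorem pl_sfW (C : Curve) (X : ℂ) (t : ℝ) : sf C (X + t * Ws C) = sf C X := by
  unfold sf
  rw [add_re, add_im, re_ofReal_mul, im_ofReal_mul]
  simp only [Ws]
  ring

private theorem pl_imW (C : Curve) (X : ℂ) (t : ℝ) :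
    (X + t * Ws C).im = X.im + t * (3 * C.q) := by
  rw [add_im, im_ofReal_mul]
  simp only [Ws]

/-- the ray misses the curve -/
private theorem pl_ray (C : Curve) (X : ℂ) (θ : ℝ) (h0 : 0 < θ) (h1 : θ < 1)
    (hX : X = vc C C.x0 + θ * (vc C (C.x0 + 1) - vc C C.x0)) (hs : sf C X = C.σ) (t : ℝ)
    (ht : t ≠ 0) : X + t * Ws C ∉ Gam C := by
  intro h
  have h2 := Gam_line0 C X θ h0 h1 hX hs _ h (by rw [pl_sfW, hs])
  have h3 := congrArg Complex.im h2
  rw [pl_imW] at h3
  have hq := pl_q C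
  have h4 : t * (3 * C.q) = 0 := by linarith
  rcases mul_eq_zero.1 h4 with h5 | h5
  · exact ht h5
  · linarith

/-- connectedness -/
private theorem pl_conn (C : Curve) (X : ℂ) (S : Set ℝ) (hS : IsPreconnected S)
    (hg : ∀ t ∈ S, X + t * Ws C ∉ Gam C) (t1 t2 : ℝ) (h1 : t1 ∈ S) (h2 : t2 ∈ S)
    (h3 : X + t1 * Ws C ∈ Bel C) (h4 : X + t2 * Ws C ∈ Abo C) : False := by
  have hc : Continuous fun t : ℝ => X + t * Ws C := by fun_prop
  have hR : IsPreconnected ((fun t : ℝ => X + t * Ws C) '' S) := hS.image _ hc.continuousOn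
  rw [isPreconnected_closed_iff] at hR
  obtain ⟨w, ⟨t, ht, rfl⟩, hw1, hw2⟩ := hR (Bel C) (Abo C) (Bel_closed C) (Abo_closed C)
    (fun w _ => Bel_union_Abo C w) ⟨_, ⟨t1, h1, rfl⟩, h3⟩ ⟨_, ⟨t2, h2, rfl⟩, h4⟩
  exact hg t ht (Bel_inter_Abo C _ hw1 hw2)

theorem ray_low (C : Curve) (X : ℂ) (θ : ℝ) (h0 : 0 < θ) (h1 : θ < 1)
    (hX : X = vc C C.x0 + θ * (vc C (C.x0 + 1) - vc C C.x0)) (hs : sf C X = C.σ) (t : ℝ)
    (ht : t < 0) : X + t * Ws C ∈ Bel C ∧ X + t * Ws C ∉ Abo C := by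
  have hq := pl_q C
  have hn : X + t * Ws C ∉ Abo C := by
    intro hA
    obtain ⟨t', ht', hb⟩ : ∃ t' : ℝ, t' < 0 ∧
        2 * (X.im + t' * (3 * C.q)) ≤ (-2 * C.q - C.p : ℝ) := by
      refine ⟨min (-1) ((-2 * C.q - C.p - 2 * X.im) / (6 * C.q)),
        lt_of_le_of_lt (min_le_left _ _) (by norm_num), ?_⟩
      have h2 : min (-1) ((-2 * C.q - C.p - 2 * X.im) / (6 * C.q)) ≤
          (-2 * C.q - C.p - 2 * X.im) / (6 * C.q) := min_le_right _ _
      rw [le_div_iff₀ (by positivity)] at h2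
      linarith
    refine pl_conn C X (Set.Iio 0) isPreconnected_Iio
      (fun s hs' => pl_ray C X θ h0 h1 hX hs s (ne_of_lt hs')) t' t ht' ht ?_ hA
    refine (Bel_of_low C _ ?_).1
    rw [pl_imW]
    exact hb
  exact ⟨(Bel_union_Abo C _).resolve_right hn, hn⟩

theorem ray_high (C : Curve) (X : ℂ) (θ : ℝ) (h0 : 0 < θ) (h1 : θ < 1)
    (hX : X = vc C C.x0 + θ * (vc C (C.x0 + 1) - vc C C.x0)) (hs : sf C X = C.σ) (t : ℝ)
    (ht : 0 < t) : X + t * Ws C ∈ Abo C ∧ X + t * Ws C ∉ Bel C := by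
  have hq := pl_q C
  have hn : X + t * Ws C ∉ Bel C := by
    intro hA
    obtain ⟨t', ht', hb⟩ : ∃ t' : ℝ, 0 < t' ∧ (C.p : ℝ) ≤ 2 * (X.im + t' * (3 * C.q)) := by
      refine ⟨max 1 ((C.p - 2 * X.im) / (6 * C.q)),
        lt_of_lt_of_le (by norm_num) (le_max_left _ _), ?_⟩
      have h2 : (C.p - 2 * X.im) / (6 * C.q) ≤ max 1 ((C.p - 2 * X.im) / (6 * C.q)) :=
        le_max_right _ _
      rw [div_le_iff₀ (by positivity)] at h2
      linarith
    refine pl_conn C X (Set.Ioi 0) isPreconnected_Ioi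
      (fun s hs' => pl_ray C X θ h0 h1 hX hs s (ne_of_gt hs')) t t' ht ht' hA ?_
    refine (Abo_of_high C _ ?_).1
    rw [pl_imW]
    exact hb
  exact ⟨(Bel_union_Abo C _).resolve_left hn, hn⟩

private theorem pl_X (C : Curve) (X : ℂ) (θ : ℝ) (h0 : 0 < θ) (h1 : θ < 1)
    (hX : X = vc C C.x0 + θ * (vc C (C.x0 + 1) - vc C C.x0)) : X ∈ Gam C := by
  refine ⟨C.x0, 1 - θ, θ, by linarith, h0.le, by ring, ?_⟩
  rw [hX, pl_comb]

private theorem pl_Band (C : Curve) (X : ℂ) (θ : ℝ) (h0 : 0 < θ) (h1 : θ < 1)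
    (hX : X = vc C C.x0 + θ * (vc C (C.x0 + 1) - vc C C.x0)) (hs : sf C X = C.σ) (z : ℂ) :
    (z ∈ BandR C ∧ sf C z = C.σ) ↔ z ∈ segment ℝ X (X - Ws C) := by
  have hXG := Gam_sub C X (pl_X C X θ h0 h1 hX)
  rw [BandR_eq]
  constructor
  · rintro ⟨⟨hz1, hz2⟩, hz3⟩
    obtain ⟨t, rfl⟩ := line_param C X z (by rw [hz3, hs])
    have ht0 : t ≤ 0 := by
      by_contra hcon
      exact (ray_high C X θ h0 h1 hX hs t (not_le.1 hcon)).2 hz1
    have ht1 : -1 ≤ t := by
      by_contra hcon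
      have e : X + t * Ws C + Ws C = X + ((t + 1 : ℝ) : ℂ) * Ws C := by push_cast; ring
      rw [e] at hz2
      exact (ray_low C X θ h0 h1 hX hs (t + 1) (by linarith [not_le.1 hcon])).2 hz2
    refine ⟨1 + t, -t, by linarith, by linarith, by ring, ?_⟩
    simp only [real_smul]
    push_cast
    ring
  · rintro ⟨a, b, ha, hb, hab, rfl⟩
    have e1 : a • X + b • (X - Ws C) = X + ((-b : ℝ) : ℂ) * Ws C := by
      have h2 : (a : ℂ) + b = 1 := by exact_mod_cast congrArg (fun t : ℝ => (t : ℂ)) hab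
      simp only [real_smul]
      push_cast
      linear_combination X * h2
    have e2 : X + ((-b : ℝ) : ℂ) * Ws C + Ws C = X + ((a : ℝ) : ℂ) * Ws C := by
      have h2 : (a : ℂ) + b = 1 := by exact_mod_cast congrArg (fun t : ℝ => (t : ℂ)) hab
      push_cast
      linear_combination (-Ws C) * h2
    rw [e1]
    refine ⟨⟨?_, ?_⟩, by rw [pl_sfW, hs]⟩
    · rcases hb.eq_or_lt with h | h
      · rw [← h]
        simpa using hXG.1
      · exact (ray_low C X θ h0 h1 hX hs (-b) (by linarith)).1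
    · rw [e2]
      rcases ha.eq_or_lt with h | h
      · rw [← h]
        simpa using hXG.2
      · exact (ray_high C X θ h0 h1 hX hs a h).1

theorem line_PP (C : Curve) (X : ℂ) (θ : ℝ) (h0 : 0 < θ) (h1 : θ < 1)
    (hX : X = vc C C.x0 + θ * (vc C (C.x0 + 1) - vc C C.x0)) (hs : sf C X = C.σ) (z : ℂ) :
    ((z ∈ PP C ∧ sf C z = C.σ) ↔ z ∈ segment ℝ X (X - Ws C)) ∧
    ((z ∈ PP C ∧ sf C z = C.σ + 24 * C.q ^ 2) ↔
      z ∈ segment ℝ (X + 8 * C.q) (X + 8 * C.q - Ws C)) := by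
  have hq := pl_q C
  constructor
  · rw [← pl_Band C X θ h0 h1 hX hs]
    constructor
    · rintro ⟨h, h'⟩
      exact ⟨h.1, h'⟩
    · rintro ⟨h, h'⟩
      refine ⟨⟨h, h'.ge, ?_⟩, h'⟩
      rw [h']
      have : (0 : ℝ) ≤ 24 * C.q ^ 2 := by positivity
      linarith
  · have e1 : ∀ w : ℂ, sf C (w + 8 * C.q) = sf C w + 24 * C.q ^ 2 := by
      intro w
      have e2 : (8 * C.q : ℂ) = ((8 * C.q : ℤ) : ℂ) := by push_cast; ring
      unfold sf
      rw [e2, add_re, add_im, intCast_re, intCast_im]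
      push_cast
      ring
    have e3 : ∀ w : ℂ, w + 8 * C.q ∈ BandR C ↔ w ∈ BandR C := by
      intro w
      have := BandR_shift C w 1
      simpa using this
    have key : ∀ w : ℂ, (w + 8 * C.q ∈ PP C ∧ sf C (w + 8 * C.q) = C.σ + 24 * C.q ^ 2) ↔
        w ∈ segment ℝ X (X - Ws C) := by
      intro w
      rw [← pl_Band C X θ h0 h1 hX hs, e1]
      constructor
      · rintro ⟨h, h'⟩
        exact ⟨(e3 w).1 h.1, by linarith⟩
      · rintro ⟨h, h'⟩
        refine ⟨⟨(e3 w).2 h, ?_, ?_⟩, by rw [h']⟩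
        · rw [e1, h']
          have : (0 : ℝ) ≤ 24 * C.q ^ 2 := by positivity
          linarith
        · rw [e1, h']
    obtain ⟨w, rfl⟩ : ∃ w : ℂ, z = w + 8 * C.q := ⟨z - 8 * C.q, by ring⟩
    rw [key]
    constructor
    · intro h
      have := pl_seg (c := 8 * C.q) h
      rwa [show X - Ws C + 8 * C.q = X + 8 * C.q - Ws C by ring] at this
    · intro h
      have := pl_seg (c := -(8 * C.q)) h
      rwa [show X + 8 * C.q - Ws C + -(8 * C.q) = X - Ws C by ring,
        show X + 8 * C.q + -(8 * C.q) = X by ring,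
        show w + 8 * C.q + -(8 * C.q) = w by ring] at this

end H70Net
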