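import Pool.Agent.H70.Net.Poly
import Pool.Agent.H70.Net.GeoPP
import Pool.Agent.H70.Net.GeoW

/-!
MP_77daaf_co, module `PolyPP` : the part of the curve in the strip.

Let `x0, σ` be the cut of the curve `C`.  `X0` is the point of the edge `x0` with `sf = σ`:
`X0 = vc x0 + θ (vc (x0+1) - vc x0)`, `0 < θ < 1` (`sf (vc x0) < σ < sf (vc (x0+1))`, `cut1, cut2`; the
values `sf (vc i) = 3q vx i - (7q-p) vy i`).  `M = 8n + 2` points
`A 0 = X0`, `A j = vc (x0 + j)` for `1 ≤ j ≤ 8n`, `A (8n+1) = X0 + 8q`.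
Facts: `vc (i + 8n) = vc i + 8q` (`vx_two`, `vy_two` with `j = 4`), `sf (z + 8q) = sf z + 24q²`, `sf (z + W) = sf z`.
 So `sf (vc i) < σ` for `i ≤ x0`, `> σ` for `i > x0`, `< σ + 24q²` for `i ≤ x0 + 8n`, `> σ + 24 q²` for
 `i > x0 + 8n`.

PROOFS.
* `lat_edges`: two different edges `i ≠ j` of the curve meet at most in a common end point: two
  different unit lattice edges meet at most in a common lattice vertex which is an end of both.
  (Coordinates: a point of the edge `i` has `z.im = vy i` and `z.re` between `vx i` and `vx (i+1)`, or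
  the other way; two parallel edges on different lines are disjoint, on the same line with
  different midpoints (`edge_inj`) meet at an integer point; perpendicular edges meet in a point with
  both coordinates integers.  A lattice point on an edge is one of its ends.)
* `Gam_strip`: `z ∈ Gam`, `σ ≤ sf z ≤ σ + 24 q²` iff `z` is on one of the edges `[A j, A (j+1)]`, `j < M-1`:
  for `z` in the edge `i`, `sf z` is between `sf (v i)` and `sf (v (i+1))`.  `i < x0`: `sf z < σ`.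
  `i > x0 + 8n`: `sf z > σ + 24q²`.  `i = x0`: `sf z ≥ σ` iff `z ∈ [X0, v (x0+1)]`.
  `i = x0 + 8n`: `sf z ≤ σ + 24 q²` iff `z ∈ [v (x0+8n), X0 + 8q]`.  Otherwise the whole edge is in the strip.
* `line_PP`: the points of `PP` on the line `sf = σ` are the segment `[X0 - W, X0]`; on the line
  `sf = σ + 24q²` the segment `[X0 + 8q - W, X0 + 8q]`.  Let `z = X0 + t W` (`t` real; every point with
  `sf z = σ` is of this form).  The curve meets the line `sf = σ` only in `X0` (from the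
  previous item: an edge `i ≠ x0` has `sf < σ` or `sf > σ`).  The ray `t < 0` is connected, disjoint from
  `Gam`, and contains points of `Bel \ Abo` (`t → -∞`, `Bel_of_low`), so it is contained in `Bel \ Abo`
  (`Bel`, `Abo` closed, cover the plane, meet in `Gam`); similarly `t > 0` is in `Abo \ Bel`.  So
  `X0 + t W ∈ Bel` iff `t ≤ 0`, and `X0 + tW + W ∈ Abo` iff `t + 1 ≥ 0`.  (`BandR_eq`.)
  The line `sf = σ + 24q²`: translate by `8q`: `BandR` is invariant (`band_shift` with `k = 1`).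
* `PP_polygon`: `frontier_PP` and `ladder` with `w = W`; `h2` by `Gam_range` (`3q > q + p`); `h3, h4`: the
  rungs meet `Gam` only at `X0` resp. `X0 + 8q`; `h5`: `sf` differs.
* `PP_bounded`: `2 y ∈ [-8q-p-1, p+1]` (`band_range`) and `sf` bounded, so `x` bounded; compactness.
* interior nonempty: e.g. the point `X0 - W/2 + ε` for small `ε > 0`: `X0 - W/2` is in the interior of
  `BandR` (it is in `Bel \ Gam` and its translate by `W` in `Abo \ Gam`), and `0 < sf - σ < 24 q²`.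
-/

namespace H70Net

open Complex

/-! ### Edges -/

theorem pp_edge_pt (C : Curve) (i : ℤ) (z : ℂ) (h : z ∈ segment ℝ (vc C i) (vc C (i + 1))) :
    z = vc C i ∨ z = vc C (i + 1) ∨
    (∃ a b : ℤ, z.im = b ∧ (a : ℝ) < z.re ∧ z.re < a + 1 ∧ sx C i = 2 * a + 1 ∧ sy C i = 2 * b) ∨
    (∃ a b : ℤ, z.re = a ∧ (b : ℝ) < z.im ∧ z.im < b + 1 ∧ sx C i = 2 * a ∧ sy C i = 2 * b + 1) := by
  rw [segment_eq_image'] at h
  obtain ⟨t, ⟨ht0, ht1⟩, hz⟩ := h
  have hre : z.re = C.vx i + t * (C.vx (i + 1) - C.vx i) := by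
    rw [← hz]
    simp [vc]
  have him : z.im = C.vy i + t * (C.vy (i + 1) - C.vy i) := by
    rw [← hz]
    simp [vc]
  rcases ht0.eq_or_lt with h0 | h0
  · left
    rw [← hz, ← h0]
    simp
  rcases ht1.eq_or_lt with h1 | h1
  · right; left
    rw [← hz, h1]
    simp
  right; right
  unfold sx sy
  rcases C.step i with ⟨h | h, h'⟩ | ⟨h, h' | h'⟩ <;> rw [h] at hre <;> rw [h'] at him <;>
    push_cast at hre him
  · left
    have hre' : z.re = C.vx i + t := by rw [hre]; ring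
    have him' : z.im = C.vy i := by rw [him]; ring
    exact ⟨C.vx i, C.vy i, him', by linarith, by linarith, by omega, by omega⟩
  · left
    have hre' : z.re = C.vx i - t := by rw [hre]; ring
    have him' : z.im = C.vy i := by rw [him]; ring
    exact ⟨C.vx i - 1, C.vy i, him', by push_cast; linarith, by push_cast; linarith, by omega, by omega⟩
  · right
    have hre' : z.re = C.vx i := by rw [hre]; ring
    have him' : z.im = C.vy i + t := by rw [him]; ring
    exact ⟨C.vx i, C.vy i, hre', by linarith, by linarith, by omega, by omega⟩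
  · right
    have hre' : z.re = C.vx i := by rw [hre]; ring
    have him' : z.im = C.vy i - t := by rw [him]; ring
    exact ⟨C.vx i, C.vy i - 1, hre', by push_cast; linarith, by push_cast; linarith, by omega, by omega⟩

theorem pp_int_lt {a b : ℤ} {x : ℝ} (h1 : (a : ℝ) < x) (h2 : x < a + 1) (h3 : x = b) : False := by
  rw [h3] at h1 h2
  have h4 : a < b := by exact_mod_cast h1
  have h5 : b < a + 1 := by exact_mod_cast h2
  omega

theorem pp_floor_eq {a b : ℤ} {x : ℝ} (h1 : (a : ℝ) < x) (h2 : x < a + 1) (h3 : (b : ℝ) < x)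
    (h4 : x < b + 1) : a = b := by
  have h5 : (a : ℝ) < b + 1 := h1.trans h4
  have h6 : (b : ℝ) < a + 1 := h3.trans h2
  have h7 : a < b + 1 := by exact_mod_cast h5
  have h8 : b < a + 1 := by exact_mod_cast h6
  omega

theorem pp_ends (C : Curve) (i j : ℤ) (hij : i ≠ j) (z : ℂ)
    (h1 : z ∈ segment ℝ (vc C i) (vc C (i + 1))) (h2 : z ∈ segment ℝ (vc C j) (vc C (j + 1))) :
    z = vc C i ∨ z = vc C (i + 1) := by
  rcases pp_edge_pt C i z h1 with h | h | ⟨a, b, e1, e2, e3, e4, e5⟩ | ⟨a, b, e1, e2, e3, e4, e5⟩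
  · exact Or.inl h
  · exact Or.inr h
  · exfalso
    rcases pp_edge_pt C j z h2 with h | h | ⟨a', b', f1, f2, f3, f4, f5⟩ | ⟨a', b', f1, f2, f3, f4, f5⟩
    · exact pp_int_lt e2 e3 (b := C.vx j) (by rw [h]; rfl)
    · exact pp_int_lt e2 e3 (b := C.vx (j + 1)) (by rw [h]; rfl)
    · have ha := pp_floor_eq e2 e3 f2 f3
      have hb : b = b' := by
        rw [e1] at f1
        exact_mod_cast f1
      exact hij (edge_inj C i j (by omega) (by omega))
    · exact pp_int_lt e2 e3 f1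
  · exfalso
    rcases pp_edge_pt C j z h2 with h | h | ⟨a', b', f1, f2, f3, f4, f5⟩ | ⟨a', b', f1, f2, f3, f4, f5⟩
    · exact pp_int_lt e2 e3 (b := C.vy j) (by rw [h]; rfl)
    · exact pp_int_lt e2 e3 (b := C.vy (j + 1)) (by rw [h]; rfl)
    · exact pp_int_lt e2 e3 f1
    · have hb := pp_floor_eq e2 e3 f2 f3
      have ha : a = a' := by
        rw [e1] at f1
        exact_mod_cast f1
      exact hij (edge_inj C i j (by omega) (by omega))

theorem lat_edges (C : Curve) (i j : ℤ) (hij : i ≠ j) (z : ℂ)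
    (h1 : z ∈ segment ℝ (vc C i) (vc C (i + 1))) (h2 : z ∈ segment ℝ (vc C j) (vc C (j + 1))) :
    (z = vc C i ∨ z = vc C (i + 1)) ∧ (z = vc C j ∨ z = vc C (j + 1)) :=
  ⟨pp_ends C i j hij z h1 h2, pp_ends C j i hij.symm z h2 h1⟩

theorem pp_vc_shift (C : Curve) (i : ℤ) : vc C (i + 8 * C.n) = vc C i + 8 * C.q := by
  have e : i + 8 * C.n = i + 2 * 4 * C.n := by ring
  have h1 := vx_two C i 4
  have h2 := vy_two C i 4
  rw [← e] at h1 h2
  apply Complex.ext
  · simp [vc, h1]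
    ring
  · simp [vc, h2]

theorem pp_sf_shift (C : Curve) (z : ℂ) : sf C (z + 8 * C.q) = sf C z + 24 * C.q ^ 2 := by
  simp [sf]
  ring

theorem sf_vc (C : Curve) (i : ℤ) :
    (i ≤ C.x0 → sf C (vc C i) < C.σ) ∧ (C.x0 < i → C.σ < sf C (vc C i)) ∧
    (i ≤ C.x0 + 8 * C.n → sf C (vc C i) < C.σ + 24 * C.q ^ 2) ∧
    (C.x0 + 8 * C.n < i → C.σ + 24 * C.q ^ 2 < sf C (vc C i)) := by
  have h1 : ∀ i, i ≤ C.x0 → sf C (vc C i) < C.σ := fun i hi => C.cut1 i hi
  have h2 : ∀ i, C.x0 < i → C.σ < sf C (vc C i) := fun i hi => C.cut2 i hi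
  have h3 : sf C (vc C i) = sf C (vc C (i - 8 * C.n)) + 24 * C.q ^ 2 := by
    rw [← pp_sf_shift, ← pp_vc_shift, sub_add_cancel]
  refine ⟨h1 i, h2 i, fun hi => ?_, fun hi => ?_⟩
  · rw [h3]
    have := h1 (i - 8 * C.n) (by omega)
    linarith
  · rw [h3]
    have := h2 (i - 8 * C.n) (by omega)
    linarith

theorem pp_sf_add (C : Curve) (x y : ℂ) (t : ℝ) :
    sf C (x + t * (y - x)) = sf C x + t * (sf C y - sf C x) := by
  simp [sf]
  ring

theorem exists_X0 (C : Curve) : ∃ (X : ℂ) (θ : ℝ), 0 < θ ∧ θ < 1 ∧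
    X = vc C C.x0 + θ * (vc C (C.x0 + 1) - vc C C.x0) ∧ sf C X = C.σ := by
  have h1 := (sf_vc C C.x0).1 le_rfl
  have h2 := (sf_vc C (C.x0 + 1)).2.1 (by omega)
  have h3 : 0 < sf C (vc C (C.x0 + 1)) - sf C (vc C C.x0) := by linarith
  refine ⟨_, (C.σ - sf C (vc C C.x0)) / (sf C (vc C (C.x0 + 1)) - sf C (vc C C.x0)),
    div_pos (by linarith) h3, (div_lt_one h3).2 (by linarith), rfl, ?_⟩
  rw [pp_sf_add, div_mul_cancel₀ _ h3.ne']
  ring

/-- the vertices of the part of the curve in the strip -/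
noncomputable def AA (C : Curve) (X : ℂ) (j : ℕ) : ℂ :=
  if j = 0 then X else if j ≤ (8 * C.n).toNat then vc C (C.x0 + j) else X + 8 * C.q

/-! ### The edges of `AA` as parts of the edges of the curve -/

/-- parametrised edge -/
noncomputable def ppL (C : Curve) (i : ℤ) (t : ℝ) : ℂ := AffineMap.lineMap (vc C i) (vc C (i + 1)) t

noncomputable def pplo (θ : ℝ) (j : ℕ) : ℝ := if j = 0 then θ else 0

noncomputable def pphi (N : ℕ) (θ : ℝ) (j : ℕ) : ℝ := if j = N then θ else 1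

theorem ppL_eq (C : Curve) (i : ℤ) (t : ℝ) : ppL C i t = vc C i + t * (vc C (i + 1) - vc C i) := by
  unfold ppL
  rw [AffineMap.lineMap_apply]
  simp
  ring

theorem ppL_zero (C : Curve) (i : ℤ) : ppL C i 0 = vc C i := by simp [ppL]

theorem ppL_one (C : Curve) (i : ℤ) : ppL C i 1 = vc C (i + 1) := by simp [ppL]

theorem ppL_inj (C : Curve) (i : ℤ) : Function.Injective (ppL C i) := by
  refine AffineMap.lineMap_injective ℝ ?_
  intro h
  have h1 : (C.vx i : ℝ) = C.vx (i + 1) := congrArg Complex.re h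
  have h2 : (C.vy i : ℝ) = C.vy (i + 1) := congrArg Complex.im h
  have h3 := C.inj i (i + 1) (by exact_mod_cast h1) (by exact_mod_cast h2)
  omega

theorem ppL_mem (C : Curve) (i : ℤ) {t : ℝ} (h0 : 0 ≤ t) (h1 : t ≤ 1) :
    ppL C i t ∈ segment ℝ (vc C i) (vc C (i + 1)) := by
  rw [segment_eq_image_lineMap]
  exact ⟨t, ⟨h0, h1⟩, rfl⟩

theorem sf_ppL (C : Curve) (i : ℤ) (t : ℝ) :
    sf C (ppL C i t) = sf C (vc C i) + t * (sf C (vc C (i + 1)) - sf C (vc C i)) := by
  rw [ppL_eq, pp_sf_add]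

theorem pp_N (C : Curve) : (((8 * C.n).toNat : ℕ) : ℤ) = 8 * C.n := by
  have := C.hn
  omega

theorem AA_lo (C : Curve) (X : ℂ) (θ : ℝ)
    (hX : X = vc C C.x0 + θ * (vc C (C.x0 + 1) - vc C C.x0)) (j : ℕ) (hj : j ≤ (8 * C.n).toNat) :
    AA C X j = ppL C (C.x0 + j) (pplo θ j) := by
  unfold AA pplo
  split_ifs with h
  · subst h
    rw [ppL_eq, hX]
    simp
  · rw [ppL_zero]

theorem AA_hi (C : Curve) (X : ℂ) (θ : ℝ)
    (hX : X = vc C C.x0 + θ * (vc C (C.x0 + 1) - vc C C.x0)) (j : ℕ) (hj : j ≤ (8 * C.n).toNat) :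
    AA C X (j + 1) = ppL C (C.x0 + j) (pphi (8 * C.n).toNat θ j) := by
  have hN := pp_N C
  unfold AA pphi
  rw [if_neg (by omega)]
  split_ifs with h1 h2 h2
  · omega
  · rw [ppL_one]
    congr 1
    push_cast
    ring
  · rw [h2, hN, ppL_eq, hX]
    have e : C.x0 + 8 * C.n + 1 = C.x0 + 1 + 8 * C.n := by ring
    rw [e, pp_vc_shift, pp_vc_shift]
    ring
  · omega

theorem seg_AA (C : Curve) (X : ℂ) (θ : ℝ) (h0 : 0 < θ) (h1 : θ < 1)
    (hX : X = vc C C.x0 + θ * (vc C (C.x0 + 1) - vc C C.x0)) (j : ℕ) (hj : j ≤ (8 * C.n).toNat)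
    (z : ℂ) : z ∈ segment ℝ (AA C X j) (AA C X (j + 1)) ↔
      ∃ t : ℝ, pplo θ j ≤ t ∧ t ≤ pphi (8 * C.n).toNat θ j ∧ z = ppL C (C.x0 + j) t := by
  have hn := C.hn
  have hle : pplo θ j ≤ pphi (8 * C.n).toNat θ j := by
    unfold pplo pphi
    split_ifs <;> linarith
  rw [AA_lo C X θ hX j hj, AA_hi C X θ hX j hj]
  unfold ppL
  rw [← image_segment, segment_eq_Icc hle]
  constructor
  · rintro ⟨t, ⟨h2, h3⟩, rfl⟩
    exact ⟨t, h2, h3, rfl⟩
  · rintro ⟨t, h2, h3, rfl⟩
    exact ⟨t, ⟨h2, h3⟩, rfl⟩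

theorem pplo_nonneg {θ : ℝ} (h0 : 0 < θ) (j : ℕ) : 0 ≤ pplo θ j := by
  unfold pplo
  split_ifs <;> linarith

theorem pphi_le {θ : ℝ} (h1 : θ < 1) (N j : ℕ) : pphi N θ j ≤ 1 := by
  unfold pphi
  split_ifs <;> linarith

theorem pp_conv_lt {a b c t : ℝ} (ha : a < c) (hb : b < c) (h0 : 0 ≤ t) (h1 : t ≤ 1) :
    a + t * (b - a) < c := by
  have h2 : (1 - t) * a ≤ (1 - t) * max a b := mul_le_mul_of_nonneg_left (le_max_left a b) (by linarith)
  have h3 : t * b ≤ t * max a b := mul_le_mul_of_nonneg_left (le_max_right a b) h0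
  have h4 : max a b < c := max_lt ha hb
  nlinarith

theorem pp_conv_gt {a b c t : ℝ} (ha : c < a) (hb : c < b) (h0 : 0 ≤ t) (h1 : t ≤ 1) :
    c < a + t * (b - a) := by
  have h2 : (1 - t) * min a b ≤ (1 - t) * a := mul_le_mul_of_nonneg_left (min_le_left a b) (by linarith)
  have h3 : t * min a b ≤ t * b := mul_le_mul_of_nonneg_left (min_le_right a b) h0
  have h4 : c < min a b := lt_min ha hb
  nlinarith

theorem Gam_strip (C : Curve) (X : ℂ) (θ : ℝ) (h0 : 0 < θ) (h1 : θ < 1)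
    (hX : X = vc C C.x0 + θ * (vc C (C.x0 + 1) - vc C C.x0)) (hs : sf C X = C.σ) (z : ℂ) :
    (z ∈ Gam C ∧ C.σ ≤ sf C z ∧ sf C z ≤ C.σ + 24 * C.q ^ 2) ↔
      ∃ j < (8 * C.n).toNat + 1, z ∈ segment ℝ (AA C X j) (AA C X (j + 1)) := by
  have hN := pp_N C
  have hn := C.hn
  have hσ : C.σ = sf C (vc C C.x0) + θ * (sf C (vc C (C.x0 + 1)) - sf C (vc C C.x0)) := by
    rw [← pp_sf_add, ← hX, hs]
  have hσ' : C.σ + 24 * C.q ^ 2 = sf C (vc C (C.x0 + 8 * C.n)) +
      θ * (sf C (vc C (C.x0 + 8 * C.n + 1)) - sf C (vc C (C.x0 + 8 * C.n))) := by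
    have e : C.x0 + 8 * C.n + 1 = C.x0 + 1 + 8 * C.n := by ring
    rw [e, pp_vc_shift, pp_vc_shift, pp_sf_shift, pp_sf_shift, hσ]
    ring
  have hd : 0 < sf C (vc C (C.x0 + 1)) - sf C (vc C C.x0) := by
    have a1 := (sf_vc C C.x0).1 le_rfl
    have a2 := (sf_vc C (C.x0 + 1)).2.1 (by omega)
    linarith
  have hd' : 0 < sf C (vc C (C.x0 + 8 * C.n + 1)) - sf C (vc C (C.x0 + 8 * C.n)) := by
    have a1 := (sf_vc C (C.x0 + 8 * C.n)).2.2.1 le_rfl
    have a2 := (sf_vc C (C.x0 + 8 * C.n + 1)).2.2.2 (by omega)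
    linarith
  constructor
  · rintro ⟨⟨i, hi⟩, h2, h3⟩
    rw [segment_eq_image_lineMap] at hi
    obtain ⟨t, ⟨ht0, ht1⟩, rfl⟩ := hi
    change C.σ ≤ sf C (ppL C i t) at h2
    change sf C (ppL C i t) ≤ _ at h3
    change ∃ j < (8 * C.n).toNat + 1, ppL C i t ∈ _
    rw [sf_ppL] at h2 h3
    have hi1 : C.x0 ≤ i := by
      by_contra hlt
      have a1 := (sf_vc C i).1 (by omega)
      have a2 := (sf_vc C (i + 1)).1 (by omega)
      linarith [pp_conv_lt a1 a2 ht0 ht1]
    have hi2 : i ≤ C.x0 + 8 * C.n := by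
      by_contra hlt
      have a1 := (sf_vc C i).2.2.2 (by omega)
      have a2 := (sf_vc C (i + 1)).2.2.2 (by omega)
      linarith [pp_conv_gt a1 a2 ht0 ht1]
    have hj : (((i - C.x0).toNat : ℕ) : ℤ) = i - C.x0 := by omega
    have hi3 : C.x0 + (((i - C.x0).toNat : ℕ) : ℤ) = i := by omega
    refine ⟨(i - C.x0).toNat, by omega, ?_⟩
    rw [seg_AA C X θ h0 h1 hX _ (by omega), hi3]
    refine ⟨t, ?_, ?_, rfl⟩
    · unfold pplo
      split_ifs with h4
      · have h5 : i = C.x0 := by omega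
        subst h5
        rw [hσ] at h2
        by_contra hlt
        push Not at hlt
        nlinarith
      · exact ht0
    · unfold pphi
      split_ifs with h4
      · have h5 : i = C.x0 + 8 * C.n := by omega
        rw [h5, hσ'] at h3
        by_contra hlt
        push Not at hlt
        nlinarith
      · exact ht1
  · rintro ⟨j, hj, hz⟩
    rw [seg_AA C X θ h0 h1 hX j (by omega)] at hz
    obtain ⟨t, h2, h3, rfl⟩ := hz
    have ht0 := (pplo_nonneg h0 j).trans h2
    have ht1 := h3.trans (pphi_le h1 _ j)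
    refine ⟨⟨C.x0 + j, ppL_mem C _ ht0 ht1⟩, ?_, ?_⟩
    · rw [sf_ppL]
      unfold pplo at h2
      split_ifs at h2 with h4
      · subst h4
        rw [hσ]
        simp only [Nat.cast_zero, add_zero]
        nlinarith
      · have a1 := (sf_vc C (C.x0 + j)).2.1 (by omega)
        have a2 := (sf_vc C (C.x0 + j + 1)).2.1 (by omega)
        nlinarith
    · rw [sf_ppL]
      unfold pphi at h3
      split_ifs at h3 with h4
      · rw [h4, hN, hσ']
        nlinarith
      · have a1 := (sf_vc C (C.x0 + j)).2.2.1 (by omega)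
        have a2 := (sf_vc C (C.x0 + j + 1)).2.2.1 (by omega)
        nlinarith

theorem AA_simple (C : Curve) (X : ℂ) (θ : ℝ) (h0 : 0 < θ) (h1 : θ < 1)
    (hX : X = vc C C.x0 + θ * (vc C (C.x0 + 1) - vc C C.x0)) :
    (∀ i < (8 * C.n).toNat + 2, ∀ j < (8 * C.n).toNat + 2, AA C X i = AA C X j → i = j) ∧
    (∀ i < (8 * C.n).toNat + 1, ∀ j < (8 * C.n).toNat + 1, i ≠ j → ∀ z,
      z ∈ segment ℝ (AA C X i) (AA C X (i + 1)) → z ∈ segment ℝ (AA C X j) (AA C X (j + 1)) →
      (z = AA C X i ∨ z = AA C X (i + 1)) ∧ (z = AA C X j ∨ z = AA C X (j + 1))) := by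
  have hN := pp_N C
  have hn := C.hn
  -- an interior point of an edge is on no other edge
  have key : ∀ (i j : ℤ) (s t : ℝ), i ≠ j → 0 ≤ s → s ≤ 1 → 0 ≤ t → t ≤ 1 → ppL C i s = ppL C j t →
      s = 0 ∨ s = 1 := by
    intro i j s t hij hs0 hs1 ht0 ht1 h
    rcases (lat_edges C i j hij _ (ppL_mem C i hs0 hs1) (by rw [h]; exact ppL_mem C j ht0 ht1)).1
      with h2 | h2
    · left
      rw [← ppL_zero] at h2
      exact ppL_inj C i h2
    · right
      rw [← ppL_one] at h2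
      exact ppL_inj C i h2
  have hlo0 : ∀ j, 0 ≤ pplo θ j := pplo_nonneg h0
  have hlo1 : ∀ j, pplo θ j ≤ 1 := by
    intro j
    unfold pplo
    split_ifs <;> linarith
  have hwlog : ∀ i j : ℕ, i < j → j < (8 * C.n).toNat + 2 → AA C X i ≠ AA C X j := by
    intro i j hij hj h
    rcases Nat.lt_or_ge j ((8 * C.n).toNat + 1) with hj1 | hj1
    · rw [AA_lo C X θ hX i (by omega), AA_lo C X θ hX j (by omega)] at h
      have h2 : pplo θ i = 0 ∨ pplo θ i = 1 :=
        key _ _ _ _ (by omega) (hlo0 i) (hlo1 i) (hlo0 j) (hlo1 j) h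
      have hi : i ≠ 0 := by
        intro hi
        unfold pplo at h2
        rw [if_pos hi] at h2
        rcases h2 with h2 | h2 <;> linarith
      have e1 : pplo θ i = 0 := if_neg hi
      have e2 : pplo θ j = 0 := if_neg (by omega)
      rw [e1, e2, ppL_zero, ppL_zero] at h
      have h3 : (C.vx (C.x0 + i) : ℝ) = C.vx (C.x0 + j) := congrArg Complex.re h
      have h4 : (C.vy (C.x0 + i) : ℝ) = C.vy (C.x0 + j) := congrArg Complex.im h
      have h5 := C.inj _ _ (by exact_mod_cast h3) (by exact_mod_cast h4)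
      omega
    · have hj2 : j = (8 * C.n).toNat + 1 := by omega
      rw [hj2, AA_lo C X θ hX i (by omega), AA_hi C X θ hX _ le_rfl] at h
      have e3 : pphi (8 * C.n).toNat θ (8 * C.n).toNat = θ := if_pos rfl
      rw [e3] at h
      rcases eq_or_ne i (8 * C.n).toNat with hi | hi
      · rw [hi] at h
        have h6 := ppL_inj C _ h
        have e4 : pplo θ (8 * C.n).toNat = 0 := if_neg (by omega)
        rw [e4] at h6
        linarith
      · have h7 := key _ _ _ _ (by omega) h0.le h1.le (hlo0 i) (hlo1 i) h.symm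
        rcases h7 with h7 | h7 <;> linarith
  constructor
  · intro i hi j hj h
    rcases Nat.lt_trichotomy i j with hij | hij | hij
    · exact absurd h (hwlog i j hij hj)
    · exact hij
    · exact absurd h.symm (hwlog j i hij hi)
  · have half : ∀ i < (8 * C.n).toNat + 1, ∀ j < (8 * C.n).toNat + 1, i ≠ j → ∀ z,
        z ∈ segment ℝ (AA C X i) (AA C X (i + 1)) → z ∈ segment ℝ (AA C X j) (AA C X (j + 1)) →
        (z = AA C X i ∨ z = AA C X (i + 1)) := by
      intro i hi j hj hij z hz1 hz2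
      rw [seg_AA C X θ h0 h1 hX i (by omega)] at hz1
      rw [seg_AA C X θ h0 h1 hX j (by omega)] at hz2
      obtain ⟨s, hs1, hs2, rfl⟩ := hz1
      obtain ⟨t, ht1, ht2, ht⟩ := hz2
      have hs0' := (hlo0 i).trans hs1
      have hs1' := hs2.trans (pphi_le h1 _ i)
      have ht0' := (hlo0 j).trans ht1
      have ht1' := ht2.trans (pphi_le h1 _ j)
      rcases key _ _ _ _ (by omega) hs0' hs1' ht0' ht1' ht with h2 | h2
      · left
        rw [AA_lo C X θ hX i (by omega)]
        have : pplo θ i = s := le_antisymm hs1 (by rw [h2]; exact hlo0 i)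
        rw [this]
      · right
        rw [AA_hi C X θ hX i (by omega)]
        have : pphi (8 * C.n).toNat θ i = s := le_antisymm (by rw [h2]; exact pphi_le h1 _ i) hs2
        rw [this]
    intro i hi j hj hij z hz1 hz2
    exact ⟨half i hi j hj hij z hz1 hz2, half j hj i hi hij.symm z hz2 hz1⟩

end H70Net
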