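import Pool.Agent.H70.Net.SimpleDefs

/-!
MP_77daaf_co, module `StarStep` : star step
PROOF: see the header of module `SimpleDefs`.
-/

namespace H70Net

open Complex

theorem ss_sqrt : (√2 / 2) * (√2 / 2) = (1 / 2 : ℝ) := by
  have h : √2 * √2 = (2 : ℝ) := Real.mul_self_sqrt (by norm_num)
  nlinarith

theorem ss_sqrt' : (√2 / 2) * √2 = (1 : ℝ) := by
  have h : √2 * √2 = (2 : ℝ) := Real.mul_self_sqrt (by norm_num)
  nlinarith

theorem ss_zeta_ne : zeta ≠ 0 := by
  intro h
  have h1 := congrArg Complex.re h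
  simp [zeta] at h1

theorem ss_cs_re (s : ℤ) (z : ℂ) : (cs s z).re = z.re := by
  unfold cs
  split_ifs <;> simp

theorem ss_cs_im (s : ℤ) (z : ℂ) : (cs s z).im = z.im ∨ (cs s z).im = -z.im := by
  unfold cs
  split_ifs
  · right; simp
  · left; rfl

theorem ss_even (k l : ℝ) (w : ℂ) :
    √2 / 2 * (((k : ℂ) * ((√2 * l : ℝ) : ℂ) + zeta * w).re +
      ((k : ℂ) * ((√2 * l : ℝ) : ℂ) + zeta * w).im) = k * l + w.re ∧
    √2 / 2 * (((k : ℂ) * ((√2 * l : ℝ) : ℂ) + zeta * w).im -
      ((k : ℂ) * ((√2 * l : ℝ) : ℂ) + zeta * w).re) = w.im - k * l := by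
  have h1 := ss_sqrt
  have h2 := ss_sqrt'
  have e1 : ((k : ℂ) * ((√2 * l : ℝ) : ℂ) + zeta * w).re =
      k * (√2 * l) + (√2 / 2 * w.re - √2 / 2 * w.im) := by
    rw [← Complex.ofReal_mul, Complex.add_re, Complex.ofReal_re, Complex.mul_re]
    rfl
  have e2 : ((k : ℂ) * ((√2 * l : ℝ) : ℂ) + zeta * w).im =
      √2 / 2 * w.im + √2 / 2 * w.re := by
    rw [← Complex.ofReal_mul, Complex.add_im, Complex.ofReal_im, Complex.mul_im, zero_add]
    rfl
  rw [e1, e2]
  constructor
  · linear_combination (2 * w.re) * h1 + (k * l) * h2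
  · linear_combination (2 * w.im) * h1 - (k * l) * h2

theorem ss_odd (k l : ℝ) (w : ℂ) :
    √2 / 2 * (((k : ℂ) * ((√2 * l : ℝ) : ℂ) + zeta * l + (starRingEnd ℂ) (zeta * w)).re +
      ((k : ℂ) * ((√2 * l : ℝ) : ℂ) + zeta * l + (starRingEnd ℂ) (zeta * w)).im) =
        k * l + l - w.im ∧
    √2 / 2 * (((k : ℂ) * ((√2 * l : ℝ) : ℂ) + zeta * l + (starRingEnd ℂ) (zeta * w)).im -
      ((k : ℂ) * ((√2 * l : ℝ) : ℂ) + zeta * l + (starRingEnd ℂ) (zeta * w)).re) =
        -(k * l) - w.re := by
  have h1 := ss_sqrt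
  have h2 := ss_sqrt'
  have e1 : ((k : ℂ) * ((√2 * l : ℝ) : ℂ) + zeta * l + (starRingEnd ℂ) (zeta * w)).re =
      k * (√2 * l) + √2 / 2 * l + (√2 / 2 * w.re - √2 / 2 * w.im) := by
    rw [← Complex.ofReal_mul, Complex.add_re, Complex.add_re, Complex.ofReal_re, Complex.mul_re,
      Complex.conj_re, Complex.mul_re, Complex.ofReal_re, Complex.ofReal_im, mul_zero, sub_zero]
    rfl
  have e2 : ((k : ℂ) * ((√2 * l : ℝ) : ℂ) + zeta * l + (starRingEnd ℂ) (zeta * w)).im =
      √2 / 2 * l - (√2 / 2 * w.im + √2 / 2 * w.re) := by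
    rw [← Complex.ofReal_mul, Complex.add_im, Complex.add_im, Complex.ofReal_im, Complex.mul_im,
      Complex.conj_im, Complex.mul_im, Complex.ofReal_re, Complex.ofReal_im, mul_zero, zero_add,
      zero_add]
    rfl
  rw [e1, e2]
  constructor
  · linear_combination (2 * l - 2 * w.im) * h1 + (k * l) * h2
  · linear_combination (- 2 * w.re) * h1 - (k * l) * h2

/-- the position of the path in the rotated coordinates -/
theorem ss_pos {n n' : ℤ} {l l' : ℝ} {y : ℤ → ℂ} (h : Elt n n' l l' y) (hl : 0 < l)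
    (hS : Small n l y) (s x : ℤ) (hx : 0 ≤ x) :
    -(l / 2) < √2 / 2 * ((st s n l y x).re + (st s n l y x).im) ∧
    √2 / 2 * ((st s n l y x).im - (st s n l y x).re) < l / 2 ∧
    (n ≤ x → l / 2 < √2 / 2 * ((st s n l y x).re + (st s n l y x).im)) ∧
    (x < n → -(l / 2) < √2 / 2 * ((st s n l y x).im - (st s n l y x).re)) := by
  have hn := h.hn
  obtain ⟨i, hi⟩ : ∃ i, i = x % n := ⟨_, rfl⟩
  obtain ⟨q, hq⟩ : ∃ q, q = x / n := ⟨_, rfl⟩
  have hi0 : 0 ≤ i := by rw [hi]; exact Int.emod_nonneg _ hn.ne'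
  have hi1 : i < n := by rw [hi]; exact Int.emod_lt_of_pos _ hn
  have hq0 : 0 ≤ q := by rw [hq]; exact Int.ediv_nonneg hx hn.le
  have hxq : x = q * n + i := by
    rw [hq, hi, mul_comm]
    exact (Int.mul_ediv_add_emod x n).symm
  obtain ⟨a1, a2, a3, a4⟩ := hS i hi0 hi1.le
  have hre := ss_cs_re s (y i)
  have him : -(l / 2) < (cs s (y i)).im ∧ (cs s (y i)).im < l / 2 := by
    rcases ss_cs_im s (y i) with h1 | h1 <;> rw [h1] <;> constructor <;> linarith
  obtain ⟨k, hk⟩ : ∃ k, k = q / 2 := ⟨_, rfl⟩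
  have hk0 : 0 ≤ k := by omega
  have hkR : (0 : ℝ) ≤ (k : ℝ) := by exact_mod_cast hk0
  have hkl : 0 ≤ (k : ℝ) * l := mul_nonneg hkR hl.le
  rcases Int.emod_two_eq_zero_or_one q with hq2 | hq2
  · have hq3 : q = 2 * k := by omega
    have hx2 : x = 2 * k * n + i := by rw [hxq, hq3]
    have hb := st_block_even h s k i hi0 hi1.le
    have hcast : ((k : ℤ) : ℂ) = (((k : ℤ) : ℝ) : ℂ) := by push_cast; rfl
    rw [hcast] at hb
    obtain ⟨b1, b2⟩ := ss_even (k : ℝ) l (cs s (y i))
    rw [hx2, hb, b1, b2, hre]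
    refine ⟨by linarith, by linarith [him.2], ?_, ?_⟩
    · intro hnx
      have hk1 : 1 ≤ k := by
        by_contra hcon
        have hk00 : k = 0 := by omega
        rw [hk00] at hnx
        simp at hnx
        omega
      have hk1R : (1 : ℝ) ≤ (k : ℝ) := by exact_mod_cast hk1
      have : l ≤ (k : ℝ) * l := by nlinarith
      linarith
    · intro hxn
      have hk00 : k = 0 := by
        by_contra hcon
        have hk1 : 1 ≤ k := by omega
        have : n ≤ k * n := by nlinarith
        nlinarith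
      rw [hk00]
      simp
      linarith [him.1]
  · have hq3 : q = 2 * k + 1 := by omega
    have hx2 : x = (2 * k + 1) * n + i := by rw [hxq, hq3]
    have hb := st_block_odd h s k i hi0 hi1.le
    have hcast : ((k : ℤ) : ℂ) = (((k : ℤ) : ℝ) : ℂ) := by push_cast; rfl
    rw [hcast] at hb
    obtain ⟨b1, b2⟩ := ss_odd (k : ℝ) l (cs s (y i))
    rw [hx2, hb, b1, b2, hre]
    refine ⟨by linarith [him.2], by linarith, fun _ => by linarith [him.2], ?_⟩
    intro hxn
    exfalso
    have : 0 ≤ k * n := mul_nonneg hk0 hn.le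
    nlinarith

theorem star_step {n n' : ℤ} {l l' : ℝ} {y : ℤ → ℂ} (h : Elt n n' l l' y) (hl : 0 < l)
    (hS : Small n l y) (hst : Star n y) (s : ℤ) (hs : s = 1 ∨ s = -1) (x x' : ℤ) (hx : 0 ≤ x)
    (hx' : 0 ≤ x')
    (e : st s n l y x = I * st s n l y x' ∨ st s n l y x = -st s n l y x' ∨
      st s n l y x = -I * st s n l y x') : x = 0 ∧ x' = 0 := by
  have hn := h.hn
  obtain ⟨p1, p2, p3, p4⟩ := ss_pos h hl hS s x hx
  obtain ⟨q1, q2, q3, q4⟩ := ss_pos h hl hS s x' hx'
  set c : ℝ := √2 / 2 with hc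
  have hlt : x < n ∧ x' < n := by
    rcases e with e | e | e
    · have e1 : (st s n l y x).re = -(st s n l y x').im := by rw [e]; simp
      have e2 : (st s n l y x).im = (st s n l y x').re := by rw [e]; simp
      have f1 : c * ((st s n l y x).re + (st s n l y x).im) =
          -(c * ((st s n l y x').im - (st s n l y x').re)) := by rw [e1, e2]; ring
      have f2 : c * ((st s n l y x).im - (st s n l y x).re) =
          c * ((st s n l y x').re + (st s n l y x').im) := by rw [e1, e2]; ring
      have g1 : x' < n := by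
        by_contra hcon
        have := q3 (not_lt.1 hcon)
        linarith
      refine ⟨?_, g1⟩
      by_contra hcon
      have := p3 (not_lt.1 hcon)
      have := q4 g1
      linarith
    · have e1 : (st s n l y x).re = -(st s n l y x').re := by rw [e]; simp
      have e2 : (st s n l y x).im = -(st s n l y x').im := by rw [e]; simp
      have f1 : c * ((st s n l y x).re + (st s n l y x).im) =
          -(c * ((st s n l y x').re + (st s n l y x').im)) := by rw [e1, e2]; ring
      constructor
      · by_contra hcon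
        have := p3 (not_lt.1 hcon)
        linarith
      · by_contra hcon
        have := q3 (not_lt.1 hcon)
        linarith
    · have e1 : (st s n l y x).re = (st s n l y x').im := by rw [e]; simp
      have e2 : (st s n l y x).im = -(st s n l y x').re := by rw [e]; simp
      have f1 : c * ((st s n l y x).re + (st s n l y x).im) =
          c * ((st s n l y x').im - (st s n l y x').re) := by rw [e1, e2]; ring
      have f2 : c * ((st s n l y x).im - (st s n l y x).re) =
          -(c * ((st s n l y x').re + (st s n l y x').im)) := by rw [e1, e2]; ring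
      have g1 : x < n := by
        by_contra hcon
        have := p3 (not_lt.1 hcon)
        linarith
      refine ⟨g1, ?_⟩
      by_contra hcon
      have := q3 (not_lt.1 hcon)
      have := p4 g1
      linarith
  obtain ⟨hxn, hxn'⟩ := hlt
  rw [st_Icc h s x hx hxn.le, st_Icc h s x' hx' hxn'.le] at e
  apply hst x x' hx hxn.le hx' hxn'.le
  have hz := ss_zeta_ne
  unfold cs at e
  by_cases hs1 : s = 1
  · simp only [hs1, if_true] at e
    rcases e with e | e | e
    · right; right
      have e1 : (starRingEnd ℂ) (y x) = I * (starRingEnd ℂ) (y x') :=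
        mul_left_cancel₀ hz (by rw [e]; ring)
      have e2 := congrArg (starRingEnd ℂ) e1
      simpa using e2
    · right; left
      have e1 : (starRingEnd ℂ) (y x) = -(starRingEnd ℂ) (y x') :=
        mul_left_cancel₀ hz (by rw [e]; ring)
      have e2 := congrArg (starRingEnd ℂ) e1
      simpa using e2
    · left
      have e1 : (starRingEnd ℂ) (y x) = -I * (starRingEnd ℂ) (y x') :=
        mul_left_cancel₀ hz (by rw [e]; ring)
      have e2 := congrArg (starRingEnd ℂ) e1
      simpa using e2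
  · simp only [hs1, if_false] at e
    rcases e with e | e | e
    · left
      exact mul_left_cancel₀ hz (by rw [e]; ring)
    · right; left
      exact mul_left_cancel₀ hz (by rw [e]; ring)
    · right; right
      exact mul_left_cancel₀ hz (by rw [e]; ring)

end H70Net
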