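import Pool.Agent.H70.Net.HullB
import Pool.Agent.H70.Net.StarStep
import Pool.Agent.H70.Net.InjStep

/-!
MP_77daaf_co, module `Simple` : the paths `Y D (m+1)` are injective.
PROOF: see the header of module `SimpleDefs` (induction on `m` with `star_step`, `inj_step`, `hull_all`,
`Hull.re_le`, `dd_lt`, `dd_mono`; `Y D (m+1) = st (D.s (m+1)) (nn (m+1)) (ll (m+1)) (Y D m)` by `rfl`).
Status: complete (helper26).
-/

namespace H70Net

open Complex

theorem small_all (D : Dig) (m : ℕ) : Small (nn D (m + 1)) (ll D (m + 1)) (Y D m) := by
  intro x h0 h1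
  have h := hull_all D m
  have a1 := h.im1 x
  have a2 := h.im2 x
  have a3 := h.re1 x h0
  have a4 := h.re_le x h1
  have a5 := dd_lt D m
  have a6 := dd_mono D m
  refine ⟨?_, ?_, ?_, ?_⟩ <;> linarith

theorem star_all (D : Dig) (m : ℕ) : Star (nn D (m + 1)) (Y D m) ∧
    InjOn0 (nn D (m + 1)) (Y D m) := by
  induction m with
  | zero =>
    have hY : ∀ x : ℤ, Y D 0 x = (x : ℂ) := fun x => rfl
    constructor
    · intro x x' h0 _ h0' _ e
      rw [hY, hY] at e
      rcases e with e | e | e
      · have e1 := congrArg Complex.re e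
        have e2 := congrArg Complex.im e
        simp at e1 e2
        exact ⟨e1, by exact_mod_cast e2.symm⟩
      · have e1 := congrArg Complex.re e
        simp at e1
        have e2 : x = -x' := by exact_mod_cast e1
        constructor <;> omega
      · have e1 := congrArg Complex.re e
        have e2 := congrArg Complex.im e
        simp at e1 e2
        exact ⟨e1, by exact_mod_cast e2⟩
    · intro x x' _ _ _ _ e
      rw [hY, hY] at e
      exact_mod_cast e
  | succ m ih =>
    have hE := eltY D m
    have hl := ll_pos D m
    have hS := small_all D m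
    constructor
    · intro x x' h0 _ h0' _ e
      exact star_step hE hl hS ih.1 (D.s (m + 1)) (D.hs _) x x' h0 h0' e
    · intro x x' _ _ _ _ e
      exact inj_step hE hl hS ih.1 ih.2 (D.s (m + 1)) (D.hs _) e

theorem Y_inj (D : Dig) (m : ℕ) : Function.Injective (Y D (m + 1)) :=
  inj_step (eltY D m) (ll_pos D m) (small_all D m) (star_all D m).1 (star_all D m).2
    (D.s (m + 1)) (D.hs _)

end H70Net
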