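import Pool.Agent.H70.Net.EltM

/-!
MP_77daaf_co, module `SimpleDefs` : the paths `Y D (m+1)` are injective on `ℤ`.

`Star n y` : the four copies of `y` on `[0,n]` rotated about the start point meet only there.

PROOF of `star_step` (write `Z = st s n l y`, `B x = conj zeta * Z x`):
 from `st_block_even/odd`: with `C = cs s`, `y i = (α, β)`, `-l/2 < α < 3l/2`, `|β| < l/2`,
   `B (2kn + i) = k (1 - I) l + C (y i)`          (`conj zeta * √2 = 1 - I`),
   `B ((2k+1)n + i) = k (1-I) l + l - I * conj (C (y i))`   (`conj zeta * conj zeta = -I`,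
        `conj zeta * conj (zeta * u) = -I * conj u`, `conj zeta * zeta = 1`).
 Hence for `x ≥ 0`:  (1) `Re (B x) > -l/2`, (2) `Im (B x) < l/2`, (3) if `x ≥ n` then
 `Re (B x) > l/2`  (for `k ≥ 1` even blocks `Re ≥ k l - l/2`; odd blocks: `Re = k l + l ± β`),
 (for (3) at `x ≥ n`: block `(2k+1)n+i` with `k ≥ 0`, or `2kn+i` with `k ≥ 1`).
 Suppose `Z x = I^k * Z x'`, i.e. `B x = I^k * B x'`, `x, x' ≥ 0`, `k = 1,2,3`.
  k = 1: `Re (B x) = - Im (B x')`, `Im (B x) = Re (B x')`.  If `x' ≥ n`: `Im (B x) > l/2`, contra (2).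
   So `x' < n`, and then `|Im (B x')| < l/2` (block 0), so `Re (B x) < l/2`, so `x < n` by (3).
   Then `Z x = zeta C (y x)`, `Z x' = zeta C (y x')` and `C (y x) = I C (y x')`, i.e.
   `y x = I y x'` or (conj) `y x = -I y x' = I^3 y x'`: `Star y` gives `x = x' = 0`.
  k = 2: `Re (B x) = -Re (B x')`: if `x' ≥ n`, contra (1); symmetric for `x`; then `Star y`.
  k = 3: symmetric to `k = 1` (`B x' = I * B x`).
PROOF of `inj_step`: let `Z x = Z x'`, `x ≤ x'`.  Shift by a multiple `j n` of `n`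
 (`st_glide`: `Z (x+n) = zeta l + conj (Z x)`, so `Z x = Z x' ↔ Z (x+n) = Z (x'+n)`) so that
 `0 ≤ x < n`.  Then `x' = j' n + i'`, `j' ≥ 0`, `0 ≤ i' < n`.
  `j' = 0`: injectivity of `y` on `[0,n]`.
  `j' = 1`: `B x = C (y x) = l - C (conj (y (n-x)))` (`mir`), `B x' = l - I * conj (C (y i'))`.
     So `C (conj (y (n-x))) = I * C (conj (y i'))`; taking `C`/`conj`: `y (n-x) = I^{±1} y i'`;
     `Star` gives `n - x = 0`, contradiction with `x < n`.
  `j' ≥ 2`: `Im (B x') < -l/2` (even block `k ≥ 1`: `≤ -k l + |β|`; odd block `k ≥ 1`: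
     `Im = -k l - α` or ... `-α < l/2`, so `< -k l + l/2 ≤ -l/2`), but `Im (B x) > -l/2`.
`star_all`: induction, `Star 0`: `Y 0 x = x ∈ {0,1}`.  The bounds come from `hull_all`, `dd_lt`,
`dd_mono` (`2 dd (m+1) < ll (m+1)`, `dd (m-1) ≤ dd (m+1)`).
-/

namespace H70Net

open Complex

def Star (n : ℤ) (y : ℤ → ℂ) : Prop :=
  ∀ x x' : ℤ, 0 ≤ x → x ≤ n → 0 ≤ x' → x' ≤ n →
    (y x = I * y x' ∨ y x = -y x' ∨ y x = -I * y x') → x = 0 ∧ x' = 0

def InjOn0 (n : ℤ) (y : ℤ → ℂ) : Prop :=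
  ∀ x x' : ℤ, 0 ≤ x → x ≤ n → 0 ≤ x' → x' ≤ n → y x = y x' → x = x'

/-- the hull of an element, in the form used for simplicity -/
def Small (n : ℤ) (l : ℝ) (y : ℤ → ℂ) : Prop :=
  ∀ x : ℤ, 0 ≤ x → x ≤ n → -(l / 2) < (y x).re ∧ (y x).re < 3 * l / 2 ∧
    -(l / 2) < (y x).im ∧ (y x).im < l / 2

end H70Net
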