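import Pool.Agent.H70.Net.Base

/-!
MP_77daaf_co, module `Stair` : general facts on `stair`, `zeta`, `cs`.

PROOFS.
* `zeta` facts: `Complex.ext` and `√2 * √2 = 2` (`Real.mul_self_sqrt`, or `nlinarith`/`linear_combination`).
* `stair_glide`: `(x + n) / n = x / n + 1` (`Int.add_ediv_right`/`Int.add_mul_ediv_right`),
  `(x + n) % n = x % n`, then the two parities of `x / n`
  (for odd `j`, `(j+1)/2 = j/2 + 1` and `conj zeta * l + zeta * l = √2 l`).
* `stair_Icc`: for `0 ≤ i < n`, `i / n = 0`, `i % n = i`; for `i = n`, `n / n = 1`, `n % n = 0`, `g 0 = 0`.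
* `stair_neg`: for `0 ≤ i ≤ n`: by glide `stair (n - i) = zeta l + conj (stair (-i))`.
* `stair_two`: twice `stair_glide`.  `stair_mul`: induction on the integer `k` (`Int.induction_on`).
* `stair_block`: for `0 ≤ i ≤ n` and `k : ℤ`: `stair (2 k n + i) = k √2 l + g i` and
  `stair ((2 k + 1) n + i) = k √2 l + zeta l + conj (g i)` from `stair_mul`, `stair_glide`, `stair_Icc`.
* `exists_block`: `x = x / n * n + x % n`, `k = x / n / 2`.
-/

set_option autoImplicit false

namespace H70Net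

open Complex

private theorem s2sq : (√2 : ℝ) * √2 = 2 := Real.mul_self_sqrt (by norm_num)

theorem zeta_sq : zeta * zeta = I := by
  have h := s2sq
  apply Complex.ext
  · simp [zeta]
  · simp only [zeta, Complex.mul_im, Complex.I_im]
    linarith

theorem zeta_conj : (starRingEnd ℂ) zeta = -I * zeta := by
  apply Complex.ext
  · simp [zeta]
  · simp [zeta]

theorem zeta_mul_conj : zeta * (starRingEnd ℂ) zeta = 1 := by
  have h := zeta_sq
  rw [zeta_conj]
  calc zeta * (-I * zeta) = -I * (zeta * zeta) := by ring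
    _ = 1 := by rw [h]; simp

theorem zeta_add_conj : zeta + (starRingEnd ℂ) zeta = ((√2 : ℝ) : ℂ) := by
  apply Complex.ext
  · simp [zeta]
  · simp [zeta]

theorem norm_zeta : ‖zeta‖ = 1 := by
  have h := s2sq
  have h1 : Complex.normSq zeta = 1 := by
    simp only [zeta, Complex.normSq_mk]
    linarith
  have h2 : ‖zeta‖ * ‖zeta‖ = 1 := by
    rw [← sq, ← Complex.normSq_eq_norm_sq, h1]
  nlinarith [norm_nonneg zeta]

theorem norm_cs (s : ℤ) (z : ℂ) : ‖cs s z‖ = ‖z‖ := by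
  unfold cs
  split_ifs
  · exact Complex.norm_conj z
  · rfl

theorem cs_sub (s : ℤ) (z w : ℂ) : cs s (z - w) = cs s z - cs s w := by
  unfold cs
  split_ifs
  · exact map_sub _ _ _
  · rfl

theorem cs_add (s : ℤ) (z w : ℂ) : cs s (z + w) = cs s z + cs s w := by
  unfold cs
  split_ifs
  · exact map_add _ _ _
  · rfl

theorem cs_conj (s : ℤ) (z : ℂ) : cs s ((starRingEnd ℂ) z) = (starRingEnd ℂ) (cs s z) := by
  unfold cs
  split_ifs
  · rfl
  · rfl

theorem cs_real (s : ℤ) (l : ℝ) : cs s (l : ℂ) = (l : ℂ) := by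
  unfold cs
  split_ifs
  · exact Complex.conj_ofReal l
  · rfl

theorem cs_cs (s : ℤ) (z : ℂ) : cs s (cs s z) = z := by
  unfold cs
  split_ifs
  · exact Complex.conj_conj z
  · rfl

theorem stair_glide {n : ℤ} (hn : 0 < n) (l : ℝ) (g : ℤ → ℂ) (x : ℤ) :
    stair n l g (x + n) = zeta * l + (starRingEnd ℂ) (stair n l g x) := by
  have hd : (x + n) / n = x / n + 1 := by
    have := Int.add_mul_ediv_right x 1 (show n ≠ 0 by omega)
    rwa [one_mul] at this
  have hm : (x + n) % n = x % n := by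
    simp
  unfold stair
  rw [hd, hm]
  have hc : (starRingEnd ℂ) ((√2 * l : ℝ) : ℂ) = ((√2 * l : ℝ) : ℂ) := Complex.conj_ofReal _
  have hl : (starRingEnd ℂ) (l : ℂ) = (l : ℂ) := Complex.conj_ofReal _
  rcases Int.emod_two_eq_zero_or_one (x / n) with h | h
  · have h1 : ¬ ((x / n + 1) % 2 = 0) := by omega
    have h2 : (x / n + 1) / 2 = x / n / 2 := by omega
    rw [if_neg h1, if_pos h, h2]
    simp only [map_add, map_mul, hc]
    have : (starRingEnd ℂ) ((x / n / 2 : ℤ) : ℂ) = ((x / n / 2 : ℤ) : ℂ) := by simp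
    rw [this]
    ring
  · have h1 : (x / n + 1) % 2 = 0 := by omega
    have h2 : (x / n + 1) / 2 = x / n / 2 + 1 := by omega
    have h3 : ¬ ((x / n) % 2 = 0) := by omega
    rw [if_pos h1, if_neg h3, h2]
    simp only [map_add, map_mul, hc, hl, Complex.conj_conj]
    have : (starRingEnd ℂ) ((x / n / 2 : ℤ) : ℂ) = ((x / n / 2 : ℤ) : ℂ) := by simp
    rw [this]
    have hz := zeta_add_conj
    have e1 : ((√2 * l : ℝ) : ℂ) = ((√2 : ℝ) : ℂ) * (l : ℂ) := by push_cast; ring
    have e2 : (((x / n / 2 + 1 : ℤ)) : ℂ) = ((x / n / 2 : ℤ) : ℂ) + 1 := by push_cast; ring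
    rw [e2, e1, ← hz]
    ring

theorem stair_Icc {n : ℤ} (hn : 0 < n) (l : ℝ) (g : ℤ → ℂ) (h0 : g 0 = 0) (h1 : g n = zeta * l)
    (i : ℤ) (hi : 0 ≤ i) (hi' : i ≤ n) : stair n l g i = g i := by
  rcases lt_or_eq_of_le hi' with h | h
  · have hd : i / n = 0 := Int.ediv_eq_zero_of_lt hi h
    have hm : i % n = i := Int.emod_eq_of_lt hi h
    unfold stair
    rw [hd, hm]
    simp
  · subst h
    have hd : i / i = 1 := Int.ediv_self (by omega)
    have hm : i % i = 0 := Int.emod_self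
    unfold stair
    rw [hd, hm, h1, h0]
    simp

theorem stair_neg {n : ℤ} (hn : 0 < n) (l : ℝ) (g : ℤ → ℂ) (h0 : g 0 = 0) (h1 : g n = zeta * l)
    (i : ℤ) (hi : 0 ≤ i) (hi' : i ≤ n) :
    stair n l g (-i) = (starRingEnd ℂ) (g (n - i) - zeta * l) := by
  have h := stair_glide hn l g (-i)
  have e : -i + n = n - i := by ring
  rw [e, stair_Icc hn l g h0 h1 (n - i) (by omega) (by omega)] at h
  rw [h, add_sub_cancel_left, Complex.conj_conj]

theorem stair_two {n : ℤ} (hn : 0 < n) (l : ℝ) (g : ℤ → ℂ) (x : ℤ) :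
    stair n l g (x + 2 * n) = stair n l g x + ((√2 * l : ℝ) : ℂ) := by
  have e : x + 2 * n = (x + n) + n := by ring
  rw [e, stair_glide hn, stair_glide hn]
  have hl : (starRingEnd ℂ) (l : ℂ) = (l : ℂ) := Complex.conj_ofReal _
  simp only [map_add, map_mul, hl, Complex.conj_conj]
  have hz := zeta_add_conj
  have e1 : ((√2 * l : ℝ) : ℂ) = ((√2 : ℝ) : ℂ) * (l : ℂ) := by push_cast; ring
  rw [e1, ← hz]
  ring

theorem stair_mul {n : ℤ} (hn : 0 < n) (l : ℝ) (g : ℤ → ℂ) (x k : ℤ) :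
    stair n l g (x + 2 * k * n) = stair n l g x + (k : ℂ) * ((√2 * l : ℝ) : ℂ) := by
  induction k using Int.induction_on with
  | zero => simp
  | succ k ih =>
    have e : x + 2 * ((k : ℤ) + 1) * n = (x + 2 * (k : ℤ) * n) + 2 * n := by ring
    rw [e, stair_two hn, ih]
    push_cast
    ring
  | pred k ih =>
    have e : x + 2 * (-(k : ℤ)) * n = (x + 2 * (-(k : ℤ) - 1) * n) + 2 * n := by ring
    rw [e, stair_two hn] at ih
    have : stair n l g (x + 2 * (-(k : ℤ) - 1) * n)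
        = stair n l g x + ((-(k : ℤ) : ℤ) : ℂ) * ((√2 * l : ℝ) : ℂ) - ((√2 * l : ℝ) : ℂ) := by
      rw [← ih]; ring
    rw [this]
    push_cast
    ring

theorem stair_block_even {n : ℤ} (hn : 0 < n) (l : ℝ) (g : ℤ → ℂ) (h0 : g 0 = 0)
    (h1 : g n = zeta * l) (k i : ℤ) (hi : 0 ≤ i) (hi' : i ≤ n) :
    stair n l g (2 * k * n + i) = (k : ℂ) * ((√2 * l : ℝ) : ℂ) + g i := by
  have e : 2 * k * n + i = i + 2 * k * n := by ring
  rw [e, stair_mul hn, stair_Icc hn l g h0 h1 i hi hi']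
  ring

theorem stair_block_odd {n : ℤ} (hn : 0 < n) (l : ℝ) (g : ℤ → ℂ) (h0 : g 0 = 0)
    (h1 : g n = zeta * l) (k i : ℤ) (hi : 0 ≤ i) (hi' : i ≤ n) :
    stair n l g ((2 * k + 1) * n + i) =
      (k : ℂ) * ((√2 * l : ℝ) : ℂ) + zeta * l + (starRingEnd ℂ) (g i) := by
  have e : (2 * k + 1) * n + i = (i + n) + 2 * k * n := by ring
  rw [e, stair_mul hn, stair_glide hn, stair_Icc hn l g h0 h1 i hi hi']
  ring

/-- every index lies in a block -/
theorem exists_block {n : ℤ} (hn : 0 < n) (x : ℤ) :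
    ∃ k i : ℤ, 0 ≤ i ∧ i < n ∧ (x = 2 * k * n + i ∨ x = (2 * k + 1) * n + i) ∧
      (0 ≤ x → 0 ≤ k) := by
  refine ⟨x / n / 2, x % n, Int.emod_nonneg _ (by omega), Int.emod_lt_of_pos _ hn, ?_, ?_⟩
  · have hx : x = n * (x / n) + x % n := (Int.mul_ediv_add_emod x n).symm
    rcases Int.emod_two_eq_zero_or_one (x / n) with h | h
    · left
      have h2 : x / n = 2 * (x / n / 2) := by omega
      calc x = n * (x / n) + x % n := hx
        _ = n * (2 * (x / n / 2)) + x % n := by rw [← h2]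
        _ = _ := by ring
    · right
      have h2 : x / n = 2 * (x / n / 2) + 1 := by omega
      calc x = n * (x / n) + x % n := hx
        _ = n * (2 * (x / n / 2) + 1) + x % n := by rw [← h2]
        _ = _ := by ring
  · intro h
    have := Int.ediv_nonneg h hn.le
    omega

end H70Net
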