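import Pool.Agent.H70.Net.Bound

/-!
MP_77daaf_co, module `StepP` : the step lemma for sign `+`
PROOF: see the header of module `Bound`.
-/

namespace H70Net

open Complex

/-- the even block -/
theorem stepP_even {v l T α β b1 b2 b3 b4 b5 b6 b7 b8 : ℝ} {Z y1 y2 : ℂ} (hv : 3 < v)
    (hT : 0 ≤ T) (h1r : y1.re = α) (h1i : y1.im = β) (h2r : y2.re = l - α) (h2i : y2.im = β)
    (hZr : Z.re = T + (√2 / 2) * (α + β)) (hZi : Z.im = (√2 / 2) * (α - β))
    (B1 : Lb v b1 b2 b3 b4 b5 b6 b7 b8 y1) (B2 : Lb v b1 b2 b3 b4 b5 b6 b7 b8 y2) :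
    Lb v (cK v * l + max b7 b5) (max b5 (cK v * l + b7 - cD v * l)) (max b6 (b7 - cD v * l))
      (max b7 (b6 - cK v * l)) (max b2 (b3 - 3 * l)) (max b3 (b2 - v * l))
      (max b4 (3 * l + b2 - v * l)) (3 * l + max b2 b4) Z := by
  have hc : (√2 / 2) * (√2 / 2) = (1 / 2 : ℝ) := by
    have := Real.mul_self_sqrt (show (0 : ℝ) ≤ 2 by norm_num)
    linarith
  have hc0 : 0 < √2 / 2 := by positivity
  have hD : 0 < cD v := by unfold cD; exact mul_pos (by linarith) hc0
  have hK : 0 < cK v := by unfold cK; exact mul_pos (by linarith) hc0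
  have t1 : 0 ≤ v * T := mul_nonneg (by linarith) hT
  have t2 : 0 ≤ cD v * T := mul_nonneg hD.le hT
  have t3 : 0 ≤ cK v * T := mul_nonneg hK.le hT
  have e1 : F1 v Z = 3 * T - cK v * l + F7 v y2 := by
    unfold F1 F7 cK cD; rw [hZr, hZi, h2r, h2i]; ring
  have e2 : F2 v Z = 3 * T + F5 v y1 := by
    unfold F2 F5 cK cD; rw [hZr, hZi, h1r, h1i]; ring
  have e3 : F3 v Z = v * T + F6 v y1 := by
    unfold F3 F6 cK cD; rw [hZr, hZi, h1r, h1i]; ring
  have e4 : F4 v Z = v * T + F7 v y1 := by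
    unfold F4 F7 cK cD; rw [hZr, hZi, h1r, h1i]; ring
  have e5 : F5 v Z = cD v * T + F2 v y1 := by
    unfold F5 F2 cK cD; rw [hZr, hZi, h1r, h1i]
    linear_combination ((3 + v) * (α + β) - (v - 3) * (α - β)) * hc
  have e6 : F6 v Z = cD v * T + F3 v y1 := by
    unfold F6 F3 cK cD; rw [hZr, hZi, h1r, h1i]
    linear_combination ((3 + v) * (α + β) + (v - 3) * (α - β)) * hc
  have e7 : F7 v Z = cK v * T + F4 v y1 := by
    unfold F7 F4 cK cD; rw [hZr, hZi, h1r, h1i]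
    linear_combination ((v - 3) * (α + β) + (3 + v) * (α - β)) * hc
  have e8 : F8 v Z = cK v * T - 3 * l + F2 v y2 := by
    unfold F8 F2 cK cD; rw [hZr, hZi, h2r, h2i]
    linear_combination ((v - 3) * (α + β) - (3 + v) * (α - β)) * hc
  refine ⟨?_, ?_, ?_, ?_, ?_, ?_, ?_, ?_⟩
  · rw [e1]; have := B2.h7; have := le_max_left b7 b5; linarith
  · rw [e2]; have := B1.h5; have := le_max_left b5 (cK v * l + b7 - cD v * l); linarith
  · rw [e3]; have := B1.h6; have := le_max_left b6 (b7 - cD v * l); linarith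
  · rw [e4]; have := B1.h7; have := le_max_left b7 (b6 - cK v * l); linarith
  · rw [e5]; have := B1.h2; have := le_max_left b2 (b3 - 3 * l); linarith
  · rw [e6]; have := B1.h3; have := le_max_left b3 (b2 - v * l); linarith
  · rw [e7]; have := B1.h4; have := le_max_left b4 (3 * l + b2 - v * l); linarith
  · rw [e8]; have := B2.h2; have := le_max_left b2 b4; linarith

/-- the odd block -/
theorem stepP_odd {v l T α β b1 b2 b3 b4 b5 b6 b7 b8 : ℝ} {Z y1 y2 : ℂ} (hv : 3 < v)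
    (hT : 0 ≤ T) (h1r : y1.re = α) (h1i : y1.im = β) (h2r : y2.re = l - α) (h2i : y2.im = β)
    (hZr : Z.re = T + (√2 / 2) * l + (√2 / 2) * (α + β))
    (hZi : Z.im = (√2 / 2) * l - (√2 / 2) * (α - β))
    (B1 : Lb v b1 b2 b3 b4 b5 b6 b7 b8 y1) (B2 : Lb v b1 b2 b3 b4 b5 b6 b7 b8 y2) :
    Lb v (cK v * l + max b7 b5) (max b5 (cK v * l + b7 - cD v * l)) (max b6 (b7 - cD v * l))
      (max b7 (b6 - cK v * l)) (max b2 (b3 - 3 * l)) (max b3 (b2 - v * l))
      (max b4 (3 * l + b2 - v * l)) (3 * l + max b2 b4) Z := by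
  have hc : (√2 / 2) * (√2 / 2) = (1 / 2 : ℝ) := by
    have := Real.mul_self_sqrt (show (0 : ℝ) ≤ 2 by norm_num)
    linarith
  have hc0 : 0 < √2 / 2 := by positivity
  have hD : 0 < cD v := by unfold cD; exact mul_pos (by linarith) hc0
  have hK : 0 < cK v := by unfold cK; exact mul_pos (by linarith) hc0
  have t1 : 0 ≤ v * T := mul_nonneg (by linarith) hT
  have t2 : 0 ≤ cD v * T := mul_nonneg hD.le hT
  have t3 : 0 ≤ cK v * T := mul_nonneg hK.le hT
  have e1 : F1 v Z = 3 * T - cK v * l + F5 v y1 := by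
    unfold F1 F5 cK cD; rw [hZr, hZi, h1r, h1i]; ring
  have e2 : F2 v Z = 3 * T + cD v * l - cK v * l + F7 v y2 := by
    unfold F2 F7 cK cD; rw [hZr, hZi, h2r, h2i]; ring
  have e3 : F3 v Z = v * T + cD v * l + F7 v y1 := by
    unfold F3 F7 cK cD; rw [hZr, hZi, h1r, h1i]; ring
  have e4 : F4 v Z = v * T + cK v * l + F6 v y1 := by
    unfold F4 F6 cK cD; rw [hZr, hZi, h1r, h1i]; ring
  have e5 : F5 v Z = cD v * T + 3 * l + F3 v y1 := by
    unfold F5 F3 cK cD; rw [hZr, hZi, h1r, h1i]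
    linear_combination ((3 + v) * (l + α + β) - (v - 3) * (l - α + β)) * hc
  have e6 : F6 v Z = cD v * T + v * l + F2 v y1 := by
    unfold F6 F2 cK cD; rw [hZr, hZi, h1r, h1i]
    linear_combination ((3 + v) * (l + α + β) + (v - 3) * (l - α + β)) * hc
  have e7 : F7 v Z = cK v * T + v * l - 3 * l + F2 v y2 := by
    unfold F7 F2 cK cD; rw [hZr, hZi, h2r, h2i]
    linear_combination ((v - 3) * (l + α + β) + (3 + v) * (l - α + β)) * hc
  have e8 : F8 v Z = cK v * T - 3 * l + F4 v y1 := by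
    unfold F8 F4 cK cD; rw [hZr, hZi, h1r, h1i]
    linear_combination ((v - 3) * (l + α + β) - (3 + v) * (l - α + β)) * hc
  refine ⟨?_, ?_, ?_, ?_, ?_, ?_, ?_, ?_⟩
  · rw [e1]; have := B1.h5; have := le_max_right b7 b5; linarith
  · rw [e2]; have := B2.h7; have := le_max_right b5 (cK v * l + b7 - cD v * l); linarith
  · rw [e3]; have := B1.h7; have := le_max_right b6 (b7 - cD v * l); linarith
  · rw [e4]; have := B1.h6; have := le_max_right b7 (b6 - cK v * l); linarith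
  · rw [e5]; have := B1.h3; have := le_max_right b2 (b3 - 3 * l); linarith
  · rw [e6]; have := B1.h2; have := le_max_right b3 (b2 - v * l); linarith
  · rw [e7]; have := B2.h2; have := le_max_right b4 (3 * l + b2 - v * l); linarith
  · rw [e8]; have := B1.h4; have := le_max_right b2 b4; linarith

theorem stepP {n n' : ℤ} {l l' : ℝ} {y : ℤ → ℂ} (h : Elt n n' l l' y) (hl : 0 < l) (v : ℝ)
    (hv : 3 < v) (b1 b2 b3 b4 b5 b6 b7 b8 : ℝ)
    (hb : ∀ i : ℤ, 0 ≤ i → i ≤ n → Lb v b1 b2 b3 b4 b5 b6 b7 b8 (y i)) (x : ℤ) (hx : 0 ≤ x) :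
    Lb v (cK v * l + max b7 b5) (max b5 (cK v * l + b7 - cD v * l)) (max b6 (b7 - cD v * l))
      (max b7 (b6 - cK v * l)) (max b2 (b3 - 3 * l)) (max b3 (b2 - v * l))
      (max b4 (3 * l + b2 - v * l)) (3 * l + max b2 b4) (st 1 n l y x) := by
  obtain ⟨k, i, hi0, hin, hxe, hk⟩ := exists_block h.hn x
  have hk0 := hk hx
  have hkr : (0 : ℝ) ≤ (k : ℝ) := by exact_mod_cast hk0
  have hT : 0 ≤ (k : ℝ) * (√2 * l) := mul_nonneg hkr (mul_nonneg (Real.sqrt_nonneg _) hl.le)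
  have B1 := hb i hi0 hin.le
  have B2 := hb (n - i) (by omega) (by omega)
  have hm := h.mir i
  have h2r : (y (n - i)).re = l - (y i).re := by rw [hm]; simp
  have h2i : (y (n - i)).im = (y i).im := by rw [hm]; simp
  have hcs : cs 1 (y i) = (starRingEnd ℂ) (y i) := by simp [cs]
  rcases hxe with hxe | hxe
  · rw [hxe, st_block_even h 1 k i hi0 hin.le, hcs]
    refine stepP_even (α := (y i).re) (β := (y i).im) hv hT rfl rfl h2r h2i ?_ ?_ B1 B2
    · simp [zeta]
      ring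
    · simp [zeta]
      ring
  · rw [hxe, st_block_odd h 1 k i hi0 hin.le, hcs]
    refine stepP_odd (α := (y i).re) (β := (y i).im) hv hT rfl rfl h2r h2i ?_ ?_ B1 B2
    · simp [zeta]
      ring
    · simp [zeta]
      ring

end H70Net
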