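import Pool.Agent.H70.Net.Kappa

/-!
MP_77daaf_co, module `Surf` : the grid cells of the surface of the cube `[-q,q]^3`.

DOUBLED coordinates: the cube is `[-2q,2q]^3`, a cell is given by its centre `m : ℤ³`: one coordinate is
`± 2q`, the two others are odd and of absolute value `< 2q` (`isSC`).  A heading is a unit vector `h`
tangent to the face of `m` (`isTan`).  `surfadv q m h` = the neighbouring cell in the direction `h`
(around the edge of the cube if necessary: then the new centre is `m + h - nu m`, `nu m` = outward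
normal); `tr q m h h'` = the parallel transport of the heading `h'` when moving in direction `h`.

`e3 κ` (`κ mod 3`): the three edge directions at the corner `(2q,2q,2q)`; `Fw q κ x y` = the cell in the
face spanned by `e3 κ, e3 (κ+1)` at (doubled) distances `x, y`.

PROOFS: everything is a finite case analysis (`κ mod 3`, `κ mod 4`, the four directions) followed
by `omega`; unfold the definitions, use `Prod.ext_iff`/`Prod.mk.injEq`.  It is convenient to first prove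
simp-lemmas for the components.
* `Fw_adv`: four cases for the direction `(rx κ a b, ry κ a b)` in the frame `κ`:
   `(1,0)`: `x ↦ x+2`; `(0,1)`: `y ↦ y + 2`; `(-1,0)`: `x ↦ x - 2` if `x ≥ 3`, and if `x = 1`: `κ' = κ+1`,
   `(x', y') = (y, 1)`; `(0,-1)`: `y ↦ y-2` if `y ≥ 3`, and if `y = 1`: `κ' = κ - 1`, `(x',y') = (1, x)`.
   (12 residues of `κ mod 12` times 4 directions; `κ'` is determined by `quad_mod`-like reasoning.)
-/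

namespace H70Net

def e3 (κ : ℤ) : ℤ × ℤ × ℤ :=
  if κ % 3 = 0 then (0, 0, -1) else if κ % 3 = 1 then (-1, 0, 0) else (0, -1, 0)

def Fw (q κ x y : ℤ) : ℤ × ℤ × ℤ :=
  (2 * q + x * (e3 κ).1 + y * (e3 (κ + 1)).1, 2 * q + x * (e3 κ).2.1 + y * (e3 (κ + 1)).2.1,
    2 * q + x * (e3 κ).2.2 + y * (e3 (κ + 1)).2.2)

def DF (κ a b : ℤ) : ℤ × ℤ × ℤ :=
  (rx κ a b * (e3 κ).1 + ry κ a b * (e3 (κ + 1)).1,
    rx κ a b * (e3 κ).2.1 + ry κ a b * (e3 (κ + 1)).2.1,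
    rx κ a b * (e3 κ).2.2 + ry κ a b * (e3 (κ + 1)).2.2)

def isSC (q : ℤ) (m : ℤ × ℤ × ℤ) : Prop :=
  ((m.1 = 2 * q ∨ m.1 = -2 * q) ∧ m.2.1 % 2 = 1 ∧ -2 * q < m.2.1 ∧ m.2.1 < 2 * q ∧
      m.2.2 % 2 = 1 ∧ -2 * q < m.2.2 ∧ m.2.2 < 2 * q) ∨
  ((m.2.1 = 2 * q ∨ m.2.1 = -2 * q) ∧ m.1 % 2 = 1 ∧ -2 * q < m.1 ∧ m.1 < 2 * q ∧
      m.2.2 % 2 = 1 ∧ -2 * q < m.2.2 ∧ m.2.2 < 2 * q) ∨
  ((m.2.2 = 2 * q ∨ m.2.2 = -2 * q) ∧ m.1 % 2 = 1 ∧ -2 * q < m.1 ∧ m.1 < 2 * q ∧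
      m.2.1 % 2 = 1 ∧ -2 * q < m.2.1 ∧ m.2.1 < 2 * q)

def sgq (q t : ℤ) : ℤ := if t = 2 * q then 1 else if t = -2 * q then -1 else 0

def nu (q : ℤ) (m : ℤ × ℤ × ℤ) : ℤ × ℤ × ℤ := (sgq q m.1, sgq q m.2.1, sgq q m.2.2)

/-- unit vectors -/
def isUnit3 (h : ℤ × ℤ × ℤ) : Prop :=
  h = (1, 0, 0) ∨ h = (-1, 0, 0) ∨ h = (0, 1, 0) ∨ h = (0, -1, 0) ∨ h = (0, 0, 1) ∨ h = (0, 0, -1)

def dot3 (h m : ℤ × ℤ × ℤ) : ℤ := h.1 * m.1 + h.2.1 * m.2.1 + h.2.2 * m.2.2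

/-- `h` is a unit vector tangent to the face of `m` -/
def isTan (q : ℤ) (m h : ℤ × ℤ × ℤ) : Prop := isUnit3 h ∧ dot3 h (nu q m) = 0

/-- the planar neighbour stays in the box -/
def inBox (q : ℤ) (m h : ℤ × ℤ × ℤ) : Prop :=
  -2 * q ≤ m.1 + 2 * h.1 ∧ m.1 + 2 * h.1 ≤ 2 * q ∧ -2 * q ≤ m.2.1 + 2 * h.2.1 ∧
    m.2.1 + 2 * h.2.1 ≤ 2 * q ∧ -2 * q ≤ m.2.2 + 2 * h.2.2 ∧ m.2.2 + 2 * h.2.2 ≤ 2 * q

instance (q : ℤ) (m h : ℤ × ℤ × ℤ) : Decidable (inBox q m h) := by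
  unfold inBox; infer_instance

def surfadv (q : ℤ) (m h : ℤ × ℤ × ℤ) : ℤ × ℤ × ℤ :=
  if inBox q m h then (m.1 + 2 * h.1, m.2.1 + 2 * h.2.1, m.2.2 + 2 * h.2.2)
  else (m.1 + h.1 - (nu q m).1, m.2.1 + h.2.1 - (nu q m).2.1, m.2.2 + h.2.2 - (nu q m).2.2)

def tr (q : ℤ) (m h h' : ℤ × ℤ × ℤ) : ℤ × ℤ × ℤ :=
  if inBox q m h then h' else if h' = h then -nu q m else if h' = -h then nu q m else h'

def rho (m : ℤ × ℤ × ℤ) : ℤ × ℤ × ℤ := (-m.2.1, m.1, m.2.2)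

def rho4 (j : ℤ) (m : ℤ × ℤ × ℤ) : ℤ × ℤ × ℤ :=
  if j % 4 = 0 then m else if j % 4 = 1 then (-m.2.1, m.1, m.2.2)
  else if j % 4 = 2 then (-m.1, -m.2.1, m.2.2) else (m.2.1, -m.1, m.2.2)

def Sig (m : ℤ × ℤ × ℤ) : ℤ × ℤ × ℤ := (m.2.1, m.1, -m.2.2)

/-! ### frame lemmas -/

theorem Surf_e3_cases (κ : ℤ) :
    (e3 κ = (0, 0, -1) ∧ e3 (κ + 1) = (-1, 0, 0) ∧ e3 (κ + 2) = (0, -1, 0)) ∨
    (e3 κ = (-1, 0, 0) ∧ e3 (κ + 1) = (0, -1, 0) ∧ e3 (κ + 2) = (0, 0, -1)) ∨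
    (e3 κ = (0, -1, 0) ∧ e3 (κ + 1) = (0, 0, -1) ∧ e3 (κ + 2) = (-1, 0, 0)) := by
  rcases (by omega : κ % 3 = 0 ∨ κ % 3 = 1 ∨ κ % 3 = 2) with h | h | h
  · left
    refine ⟨?_, ?_, ?_⟩
    · unfold e3; rw [if_pos h]
    · unfold e3; rw [if_neg (by omega), if_pos (by omega)]
    · unfold e3; rw [if_neg (by omega), if_neg (by omega)]
  · right; left
    refine ⟨?_, ?_, ?_⟩
    · unfold e3; rw [if_neg (by omega), if_pos (by omega)]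
    · unfold e3; rw [if_neg (by omega), if_neg (by omega)]
    · unfold e3; rw [if_pos (by omega)]
  · right; right
    refine ⟨?_, ?_, ?_⟩
    · unfold e3; rw [if_neg (by omega), if_neg (by omega)]
    · unfold e3; rw [if_pos (by omega)]
    · unfold e3; rw [if_neg (by omega), if_pos (by omega)]

theorem Surf_e3_three (κ : ℤ) : e3 (κ + 3) = e3 κ := by
  unfold e3
  rw [show (κ + 3) % 3 = κ % 3 by omega]

theorem Surf_e3_pred (κ : ℤ) : e3 (κ - 1) = e3 (κ + 2) := by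
  rw [← Surf_e3_three (κ - 1)]
  congr 1
  ring

theorem Surf_rx_lin (κ X Y a b : ℤ) : rx κ (X + 2 * a) (Y + 2 * b) = rx κ X Y + 2 * rx κ a b := by
  unfold rx
  split_ifs <;> ring

theorem Surf_ry_lin (κ X Y a b : ℤ) : ry κ (X + 2 * a) (Y + 2 * b) = ry κ X Y + 2 * ry κ a b := by
  unfold ry
  split_ifs <;> ring

theorem Surf_rx_succ (κ X Y : ℤ) : rx (κ + 1) X Y = ry κ X Y := by
  unfold rx ry
  split_ifs <;> omega

theorem Surf_ry_succ (κ X Y : ℤ) : ry (κ + 1) X Y = -rx κ X Y := by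
  unfold rx ry
  split_ifs <;> omega

theorem Surf_rx_pred (κ X Y : ℤ) : rx (κ - 1) X Y = -ry κ X Y := by
  unfold rx ry
  split_ifs <;> omega

theorem Surf_ry_pred (κ X Y : ℤ) : ry (κ - 1) X Y = rx κ X Y := by
  unfold rx ry
  split_ifs <;> omega

theorem Surf_unit {a b : ℤ} (h : a * a + b * b = 1) :
    (a = 1 ∧ b = 0) ∨ (a = -1 ∧ b = 0) ∨ (a = 0 ∧ b = 1) ∨ (a = 0 ∧ b = -1) := by
  have h1 : -1 ≤ a := by nlinarith [mul_self_nonneg b, mul_self_nonneg (a + 1)]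
  have h2 : a ≤ 1 := by nlinarith [mul_self_nonneg b, mul_self_nonneg (a - 1)]
  have h3 : -1 ≤ b := by nlinarith [mul_self_nonneg a, mul_self_nonneg (b + 1)]
  have h4 : b ≤ 1 := by nlinarith [mul_self_nonneg a, mul_self_nonneg (b - 1)]
  have e1 : a = -1 ∨ a = 0 ∨ a = 1 := by omega
  have e2 : b = -1 ∨ b = 0 ∨ b = 1 := by omega
  rcases e1 with rfl | rfl | rfl <;> rcases e2 with rfl | rfl | rfl <;> omega

theorem Surf_unit_frame (κ : ℤ) {a b : ℤ} (h : a * a + b * b = 1) :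
    (rx κ a b = 1 ∧ ry κ a b = 0) ∨ (rx κ a b = -1 ∧ ry κ a b = 0) ∨
      (rx κ a b = 0 ∧ ry κ a b = 1) ∨ (rx κ a b = 0 ∧ ry κ a b = -1) := by
  unfold rx ry
  rcases Surf_unit h with ⟨rfl, rfl⟩ | ⟨rfl, rfl⟩ | ⟨rfl, rfl⟩ | ⟨rfl, rfl⟩ <;> split_ifs <;>
    omega

theorem Surf_frame_bd (κ X Y q : ℤ) (b1 : -4 * q < X) (b2 : X < 4 * q) (b3 : -4 * q < Y)
    (b4 : Y < 4 * q) : rx κ X Y < 4 * q ∧ ry κ X Y < 4 * q := by
  unfold rx ry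
  split_ifs <;> omega

theorem Surf_frame_odd (κ X Y : ℤ) (hX : X % 2 = 1) (hY : Y % 2 = 1) :
    rx κ X Y % 2 = 1 ∧ ry κ X Y % 2 = 1 := by
  unfold rx ry
  split_ifs <;> omega

theorem Surf_sgq_pos {q t : ℤ} (h : t = 2 * q) : sgq q t = 1 := by
  unfold sgq
  rw [if_pos h]

theorem Surf_sgq_zero {q t : ℤ} (h : t % 2 = 1) : sgq q t = 0 := by
  unfold sgq
  rw [if_neg (by omega), if_neg (by omega)]

/-- the outward normal at a cell of the chart -/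
theorem Surf_nu (q κ x y : ℤ) (hx : x % 2 = 1) (hy : y % 2 = 1) :
    nu q (Fw q κ x y) = -e3 (κ + 2) := by
  unfold nu Fw
  rcases Surf_e3_cases κ with ⟨h0, h1, h2⟩ | ⟨h0, h1, h2⟩ | ⟨h0, h1, h2⟩
  · rw [h0, h1, h2]
    simp only
    rw [Surf_sgq_zero (by omega), Surf_sgq_pos (by ring), Surf_sgq_zero (by omega)]
    simp
  · rw [h0, h1, h2]
    simp only
    rw [Surf_sgq_zero (by omega), Surf_sgq_zero (by omega), Surf_sgq_pos (by ring)]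
    simp
  · rw [h0, h1, h2]
    simp only
    rw [Surf_sgq_pos (by ring), Surf_sgq_zero (by omega), Surf_sgq_zero (by omega)]
    simp

theorem Surf_core0 (q κ x y u v : ℤ) (hx0 : 0 < x) (hx1 : x < 4 * q) (hy0 : 0 < y)
    (hy1 : y < 4 * q) (h1 : 0 < x + 2 * u) (h2 : x + 2 * u < 4 * q) (h3 : 0 < y + 2 * v)
    (h4 : y + 2 * v < 4 * q) :
    inBox q (Fw q κ x y) (u * (e3 κ).1 + v * (e3 (κ + 1)).1,
      u * (e3 κ).2.1 + v * (e3 (κ + 1)).2.1, u * (e3 κ).2.2 + v * (e3 (κ + 1)).2.2) ∧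
    Fw q κ (x + 2 * u) (y + 2 * v) = surfadv q (Fw q κ x y) (u * (e3 κ).1 + v * (e3 (κ + 1)).1,
      u * (e3 κ).2.1 + v * (e3 (κ + 1)).2.1, u * (e3 κ).2.2 + v * (e3 (κ + 1)).2.2) := by
  have hin : inBox q (Fw q κ x y) (u * (e3 κ).1 + v * (e3 (κ + 1)).1,
      u * (e3 κ).2.1 + v * (e3 (κ + 1)).2.1, u * (e3 κ).2.2 + v * (e3 (κ + 1)).2.2) := by
    unfold inBox Fw
    rcases Surf_e3_cases κ with ⟨e0, e1, -⟩ | ⟨e0, e1, -⟩ | ⟨e0, e1, -⟩ <;> rw [e0, e1] <;>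
      simp only <;> omega
  refine ⟨hin, ?_⟩
  unfold surfadv
  rw [if_pos hin]
  unfold Fw
  refine Prod.ext ?_ (Prod.ext ?_ ?_)
  · simp only
    ring
  · simp only
    ring
  · simp only
    ring

theorem Surf_core1 (q κ y : ℤ) (hy : y % 2 = 1) (hy0 : 0 < y) (hy1 : y < 4 * q) :
    ¬ inBox q (Fw q κ 1 y) (-e3 κ) ∧
    Fw q (κ + 1) y 1 = surfadv q (Fw q κ 1 y) (-e3 κ) := by
  have hnin : ¬ inBox q (Fw q κ 1 y) (-e3 κ) := by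
    unfold inBox Fw
    rcases Surf_e3_cases κ with ⟨e0, e1, -⟩ | ⟨e0, e1, -⟩ | ⟨e0, e1, -⟩ <;> rw [e0, e1] <;>
      simp only [Prod.fst_neg, Prod.snd_neg] <;> omega
  refine ⟨hnin, ?_⟩
  unfold surfadv
  rw [if_neg hnin, Surf_nu q κ 1 y (by norm_num) hy]
  unfold Fw
  rw [show κ + 1 + 1 = κ + 2 by ring]
  refine Prod.ext ?_ (Prod.ext ?_ ?_)
  · simp only [Prod.fst_neg, Prod.snd_neg]
    ring
  · simp only [Prod.fst_neg, Prod.snd_neg]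
    ring
  · simp only [Prod.snd_neg]
    ring

theorem Surf_core2 (q κ x : ℤ) (hx : x % 2 = 1) (hx0 : 0 < x) (hx1 : x < 4 * q) :
    ¬ inBox q (Fw q κ x 1) (-e3 (κ + 1)) ∧
    Fw q (κ - 1) 1 x = surfadv q (Fw q κ x 1) (-e3 (κ + 1)) := by
  have hnin : ¬ inBox q (Fw q κ x 1) (-e3 (κ + 1)) := by
    unfold inBox Fw
    rcases Surf_e3_cases κ with ⟨e0, e1, -⟩ | ⟨e0, e1, -⟩ | ⟨e0, e1, -⟩ <;> rw [e0, e1] <;>
      simp only [Prod.fst_neg, Prod.snd_neg] <;> omega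
  refine ⟨hnin, ?_⟩
  unfold surfadv
  rw [if_neg hnin, Surf_nu q κ x 1 hx (by norm_num)]
  unfold Fw
  rw [show κ - 1 + 1 = κ by ring, Surf_e3_pred]
  refine Prod.ext ?_ (Prod.ext ?_ ?_)
  · simp only [Prod.fst_neg, Prod.snd_neg]
    ring
  · simp only [Prod.fst_neg, Prod.snd_neg]
    ring
  · simp only [Prod.snd_neg]
    ring

theorem Fw_isSC (q κ x y : ℤ) (hx : x % 2 = 1) (hy : y % 2 = 1) (hx0 : 0 < x) (hx1 : x < 4 * q)
    (hy0 : 0 < y) (hy1 : y < 4 * q) : isSC q (Fw q κ x y) := by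
  unfold isSC Fw
  rcases Surf_e3_cases κ with ⟨e0, e1, -⟩ | ⟨e0, e1, -⟩ | ⟨e0, e1, -⟩ <;> rw [e0, e1] <;>
    simp only
  · right; left; omega
  · right; right; omega
  · left; omega

/-- rotation invariance of the cone chart (with `rx_rot`-type identities) -/
theorem Fw_three (q κ x y : ℤ) : Fw q (κ + 3) x y = Fw q κ x y := by
  unfold Fw
  rw [show κ + 3 + 1 = κ + 1 + 3 by ring, Surf_e3_three, Surf_e3_three]

theorem DF_rot (κ a b : ℤ) : DF (κ + 3) b (-a) = DF κ a b := by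
  have h1 : rx (κ + 3) b (-a) = rx κ a b := by
    unfold rx
    split_ifs <;> omega
  have h2 : ry (κ + 3) b (-a) = ry κ a b := by
    unfold ry
    split_ifs <;> omega
  unfold DF
  rw [show κ + 3 + 1 = κ + 1 + 3 by ring, Surf_e3_three, Surf_e3_three, h1, h2]

theorem Fw_adv (q κ κ' X Y a b : ℤ) (hab : a * a + b * b = 1) (hX : X % 2 = 1) (hY : Y % 2 = 1)
    (h1 : 0 < rx κ X Y) (h2 : 0 < ry κ X Y) (h3 : 0 < rx κ' (X + 2 * a) (Y + 2 * b))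
    (h4 : 0 < ry κ' (X + 2 * a) (Y + 2 * b)) (h5 : -1 ≤ κ' - κ) (h6 : κ' - κ ≤ 1)
    (b1 : -4 * q < X) (b2 : X < 4 * q) (b3 : -4 * q < Y) (b4 : Y < 4 * q)
    (b5 : -4 * q < X + 2 * a) (b6 : X + 2 * a < 4 * q) (b7 : -4 * q < Y + 2 * b)
    (b8 : Y + 2 * b < 4 * q) :
    Fw q κ' (rx κ' (X + 2 * a) (Y + 2 * b)) (ry κ' (X + 2 * a) (Y + 2 * b)) =
      surfadv q (Fw q κ (rx κ X Y) (ry κ X Y)) (DF κ a b) ∧
    ∀ a' b' : ℤ, a' * a' + b' * b' = 1 →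
      DF κ' a' b' = tr q (Fw q κ (rx κ X Y) (ry κ X Y)) (DF κ a b) (DF κ a' b') := by
  obtain ⟨o1, o2⟩ := Surf_frame_odd κ X Y hX hY
  obtain ⟨c1, c2⟩ := Surf_frame_bd κ X Y q b1 b2 b3 b4
  obtain ⟨c3, c4⟩ := Surf_frame_bd κ' (X + 2 * a) (Y + 2 * b) q b5 b6 b7 b8
  have hu := Surf_unit_frame κ hab
  rcases (by omega : κ' = κ ∨ κ' = κ + 1 ∨ κ' = κ - 1) with rfl | rfl | rfl
  · -- the same frame
    rw [Surf_rx_lin] at h3 c3
    rw [Surf_ry_lin] at h4 c4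
    rw [Surf_rx_lin, Surf_ry_lin]
    have key := Surf_core0 q κ' (rx κ' X Y) (ry κ' X Y) (rx κ' a b) (ry κ' a b) h1 c1 h2 c2
      h3 c3 h4 c4
    refine ⟨key.2, fun a' b' _ => ?_⟩
    unfold tr
    exact (if_pos key.1).symm
  · -- the next frame
    rw [Surf_rx_succ, Surf_ry_lin] at h3 c3
    rw [Surf_ry_succ, Surf_rx_lin] at h4 c4
    have e1 : rx κ a b = -1 ∧ ry κ a b = 0 := by omega
    have e2 : rx κ X Y = 1 := by omega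
    have e3' : DF κ a b = -e3 κ := by
      unfold DF
      rw [e1.1, e1.2]
      refine Prod.ext ?_ (Prod.ext ?_ ?_) <;> simp
    rw [Surf_rx_succ, Surf_ry_lin, Surf_ry_succ, Surf_rx_lin, e1.1, e1.2, e2, e3',
      show ry κ X Y + 2 * 0 = ry κ X Y by ring, show -(1 + 2 * (-1 : ℤ)) = 1 by ring]
    obtain ⟨k1, k2⟩ := Surf_core1 q κ (ry κ X Y) o2 h2 c2
    refine ⟨k2, fun a' b' hab' => ?_⟩
    unfold tr
    rw [if_neg k1, Surf_nu q κ 1 (ry κ X Y) (by norm_num) o2]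
    unfold DF
    rw [Surf_rx_succ, Surf_ry_succ, show κ + 1 + 1 = κ + 2 by ring]
    rcases Surf_unit_frame κ hab' with ⟨f1, f2⟩ | ⟨f1, f2⟩ | ⟨f1, f2⟩ | ⟨f1, f2⟩ <;>
      rw [f1, f2] <;>
      rcases Surf_e3_cases κ with ⟨g0, g1, g2⟩ | ⟨g0, g1, g2⟩ | ⟨g0, g1, g2⟩ <;>
      rw [g0, g1, g2] <;> simp
  · -- the previous frame
    rw [Surf_rx_pred, Surf_ry_lin] at h3 c3
    rw [Surf_ry_pred, Surf_rx_lin] at h4 c4
    have e1 : rx κ a b = 0 ∧ ry κ a b = -1 := by omega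
    have e2 : ry κ X Y = 1 := by omega
    have e3' : DF κ a b = -e3 (κ + 1) := by
      unfold DF
      rw [e1.1, e1.2]
      refine Prod.ext ?_ (Prod.ext ?_ ?_) <;> simp
    rw [Surf_rx_pred, Surf_ry_lin, Surf_ry_pred, Surf_rx_lin, e1.1, e1.2, e2, e3',
      show rx κ X Y + 2 * 0 = rx κ X Y by ring, show -(1 + 2 * (-1 : ℤ)) = 1 by ring]
    obtain ⟨k1, k2⟩ := Surf_core2 q κ (rx κ X Y) o1 h1 c1
    refine ⟨k2, fun a' b' hab' => ?_⟩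
    unfold tr
    rw [if_neg k1, Surf_nu q κ (rx κ X Y) 1 o1 (by norm_num)]
    unfold DF
    rw [Surf_rx_pred, Surf_ry_pred, show κ - 1 + 1 = κ by ring, Surf_e3_pred]
    rcases Surf_unit_frame κ hab' with ⟨f1, f2⟩ | ⟨f1, f2⟩ | ⟨f1, f2⟩ | ⟨f1, f2⟩ <;>
      rw [f1, f2] <;>
      rcases Surf_e3_cases κ with ⟨g0, g1, g2⟩ | ⟨g0, g1, g2⟩ | ⟨g0, g1, g2⟩ <;>
      rw [g0, g1, g2] <;> simp

/-- the headings at a cell of the chart -/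
theorem DF_tan (q κ x y a b : ℤ) (hab : a * a + b * b = 1) (hx : x % 2 = 1) (hy : y % 2 = 1)
    (hx0 : 0 < x) (hx1 : x < 4 * q) (hy0 : 0 < y) (hy1 : y < 4 * q) :
    isTan q (Fw q κ x y) (DF κ a b) := by
  unfold isTan
  rw [Surf_nu q κ x y hx hy]
  unfold DF isUnit3 dot3
  rcases Surf_unit_frame κ hab with ⟨f1, f2⟩ | ⟨f1, f2⟩ | ⟨f1, f2⟩ | ⟨f1, f2⟩ <;>
    rw [f1, f2] <;>
    rcases Surf_e3_cases κ with ⟨g0, g1, g2⟩ | ⟨g0, g1, g2⟩ | ⟨g0, g1, g2⟩ <;>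
    rw [g0, g1, g2] <;> simp

theorem Surf_frame_surj (κ u v : ℤ) (h : u * u + v * v = 1) :
    ∃ a b : ℤ, a * a + b * b = 1 ∧ rx κ a b = u ∧ ry κ a b = v := by
  unfold rx ry
  rcases (by omega : κ % 4 = 0 ∨ κ % 4 = 1 ∨ κ % 4 = 2 ∨ κ % 4 = 3) with e | e | e | e
  · refine ⟨u, v, h, ?_, ?_⟩ <;> simp [e]
  · refine ⟨-v, u, by linarith, ?_, ?_⟩ <;> simp [e]
  · refine ⟨-u, -v, by linarith, ?_, ?_⟩ <;> simp [e]
  · refine ⟨v, -u, by linarith, ?_, ?_⟩ <;> simp [e]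

theorem DF_surj (q κ x y : ℤ) (h : ℤ × ℤ × ℤ) (hx : x % 2 = 1) (hy : y % 2 = 1)
    (hx0 : 0 < x) (hx1 : x < 4 * q) (hy0 : 0 < y) (hy1 : y < 4 * q)
    (ht : isTan q (Fw q κ x y) h) : ∃ a b : ℤ, a * a + b * b = 1 ∧ DF κ a b = h := by
  obtain ⟨h1, h2⟩ := ht
  rw [Surf_nu q κ x y hx hy] at h2
  have key : ∃ u v : ℤ, u * u + v * v = 1 ∧
      (u * (e3 κ).1 + v * (e3 (κ + 1)).1, u * (e3 κ).2.1 + v * (e3 (κ + 1)).2.1,
        u * (e3 κ).2.2 + v * (e3 (κ + 1)).2.2) = h := by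
    unfold dot3 at h2
    rcases Surf_e3_cases κ with ⟨g0, g1, g2⟩ | ⟨g0, g1, g2⟩ | ⟨g0, g1, g2⟩ <;>
      rw [g2] at h2 <;> rw [g0, g1] <;>
      rcases h1 with rfl | rfl | rfl | rfl | rfl | rfl <;>
      first
        | (exfalso; revert h2; simp; done)
        | (refine ⟨1, 0, by norm_num, ?_⟩; simp; done)
        | (refine ⟨-1, 0, by norm_num, ?_⟩; simp; done)
        | (refine ⟨0, 1, by norm_num, ?_⟩; simp; done)
        | (refine ⟨0, -1, by norm_num, ?_⟩; simp; done)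
  obtain ⟨u, v, h3, h4⟩ := key
  obtain ⟨a, b, h5, h6, h7⟩ := Surf_frame_surj κ u v h3
  refine ⟨a, b, h5, ?_⟩
  unfold DF
  rw [h6, h7]
  exact h4

end H70Net
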