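import Pool.Agent.H70.Net.Surf

/-!
MP_77daaf_co, module `SurfSym` : symmetries, connectedness and number of the surface cells.

PROOFS.
* `rho4_*`, `Sig_*`: componentwise; `nu (rho4 j m) = rho4 j (nu m)` (`sgq` is odd for `q ≥ 1`), the box is
  symmetric.
* `surf_conn`: let `S` be a set of cells closed under `surfadv`.  From a cell in a face one reaches
  every cell of the face (change one tangential coordinate by `± 2` at a time; e.g. prove: if
  `(2q, y, z) ∈ S` then all `(2q, y', z') ∈ S`, by induction on the distance), and from each face each of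
  the four neighbouring faces (`m = (2q, 2q-1, z)`, `h = (0,1,0)`: `surfadv = (2q-1, 2q, z)`).
  A convenient way: let `A i ε` (`i = 1,2,3`, `ε = ±`) say that the whole face is in `S`; show that if one
  cell of a face is in `S` then the face is, and then all faces.
  By symmetry arguments (`rho4`, a cyclic permutation) one can reduce the work, or treat the six
  faces by hand.
* `surf_card`: the set is the disjoint union of six products `{±2q} × O × O`, `O` = odd integers in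
  `(-2q, 2q)`, which has `2q` elements (image of `Finset.Ico (-q) q` under `t ↦ 2t+1`).
-/

namespace H70Net

/-! generic symmetries -/

private theorem ss_surfadv_eq (q : ℤ) (m h : ℤ × ℤ × ℤ) :
    surfadv q m h = if inBox q m h then m + (h + h) else m + h - nu q m := by
  unfold surfadv
  split_ifs
  · apply Prod.ext
    · simp; ring
    · apply Prod.ext <;> simp <;> ring
  · rfl

private theorem ss_sgq_neg (q : ℤ) (hq : 0 < q) (t : ℤ) : sgq q (-t) = -sgq q t := by
  unfold sgq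
  split_ifs <;> omega

/-- the properties of an orthogonal symmetry of the cube -/
private structure SsT (q : ℤ) (T : ℤ × ℤ × ℤ → ℤ × ℤ × ℤ) : Prop where
  add : ∀ a b, T (a + b) = T a + T b
  neg : ∀ a, T (-a) = -T a
  inj : ∀ a b, T a = T b → a = b
  box : ∀ m h, inBox q (T m) (T h) ↔ inBox q m h
  nuT : ∀ m, nu q (T m) = T (nu q m)
  dot : ∀ a b, dot3 (T a) (T b) = dot3 a b
  unit : ∀ h, isUnit3 (T h) ↔ isUnit3 h
  sc : ∀ m, isSC q m → isSC q (T m)

private theorem SsT.sub {q : ℤ} {T : ℤ × ℤ × ℤ → ℤ × ℤ × ℤ} (hT : SsT q T) (a b : ℤ × ℤ × ℤ) :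
    T (a - b) = T a - T b := by
  rw [sub_eq_add_neg, hT.add, hT.neg, ← sub_eq_add_neg]

private theorem SsT.sadv {q : ℤ} {T : ℤ × ℤ × ℤ → ℤ × ℤ × ℤ} (hT : SsT q T) (m h : ℤ × ℤ × ℤ) :
    T (surfadv q m h) = surfadv q (T m) (T h) := by
  rw [ss_surfadv_eq, ss_surfadv_eq]
  by_cases hb : inBox q m h
  · rw [if_pos hb, if_pos ((hT.box m h).2 hb), hT.add, hT.add]
  · rw [if_neg hb, if_neg (fun h' => hb ((hT.box m h).1 h')), hT.sub, hT.add, hT.nuT]

private theorem SsT.trT {q : ℤ} {T : ℤ × ℤ × ℤ → ℤ × ℤ × ℤ} (hT : SsT q T) (m h h' : ℤ × ℤ × ℤ) :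
    T (tr q m h h') = tr q (T m) (T h) (T h') := by
  unfold tr
  by_cases hb : inBox q m h
  · rw [if_pos hb, if_pos ((hT.box m h).2 hb)]
  · rw [if_neg hb, if_neg (fun h' => hb ((hT.box m h).1 h'))]
    by_cases h1 : h' = h
    · rw [if_pos h1, if_pos (by rw [h1]), hT.neg, hT.nuT]
    · rw [if_neg h1, if_neg (fun e => h1 (hT.inj _ _ e))]
      by_cases h2 : h' = -h
      · rw [if_pos h2, if_pos (by rw [h2, hT.neg]), hT.nuT]
      · rw [if_neg h2, if_neg (fun e => h2 (hT.inj _ _ (by rw [e, hT.neg])))]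

private theorem SsT.tanT {q : ℤ} {T : ℤ × ℤ × ℤ → ℤ × ℤ × ℤ} (hT : SsT q T) (m h : ℤ × ℤ × ℤ) :
    isTan q (T m) (T h) ↔ isTan q m h := by
  unfold isTan
  rw [hT.unit, hT.nuT, hT.dot]

private theorem SsT.comp {q : ℤ} {T U : ℤ × ℤ × ℤ → ℤ × ℤ × ℤ} (hT : SsT q T) (hU : SsT q U) :
    SsT q (fun m => T (U m)) where
  add a b := by rw [hU.add, hT.add]
  neg a := by rw [hU.neg, hT.neg]
  inj a b h := hU.inj _ _ (hT.inj _ _ h)
  box m h := (hT.box _ _).trans (hU.box _ _)
  nuT m := by rw [hT.nuT, hU.nuT]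
  dot a b := by rw [hT.dot, hU.dot]
  unit h := (hT.unit _).trans (hU.unit _)
  sc m h := hT.sc _ (hU.sc _ h)

/-- rotation by 90 degrees -/
private def ssA (m : ℤ × ℤ × ℤ) : ℤ × ℤ × ℤ := (-m.2.1, m.1, m.2.2)

/-- exchange of the last two coordinates -/
private def ssB (m : ℤ × ℤ × ℤ) : ℤ × ℤ × ℤ := (m.1, m.2.2, m.2.1)

private theorem ssA_T (q : ℤ) (hq : 0 < q) : SsT q ssA where
  add a b := by
    simp [ssA]
    ring
  neg a := by simp [ssA]
  inj a b h := by
    obtain ⟨a1, a2, a3⟩ := a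
    obtain ⟨b1, b2, b3⟩ := b
    simp only [ssA, Prod.mk.injEq] at h ⊢
    omega
  box m h := by
    obtain ⟨m1, m2, m3⟩ := m
    obtain ⟨h1, h2, h3⟩ := h
    simp only [inBox, ssA]
    constructor <;> intro h <;> omega
  nuT m := by
    unfold nu ssA
    rw [ss_sgq_neg q hq]
  dot a b := by
    unfold dot3 ssA
    ring
  unit h := by
    obtain ⟨a1, a2, a3⟩ := h
    simp only [isUnit3, ssA, Prod.mk.injEq]
    constructor
    · rintro (h | h | h | h | h | h) <;> obtain ⟨h1, h2, h3⟩ := h <;>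
        simp_all [neg_eq_iff_eq_neg]
    · rintro (h | h | h | h | h | h) <;> obtain ⟨h1, h2, h3⟩ := h <;>
        simp_all [neg_eq_iff_eq_neg]
  sc m h := by
    obtain ⟨a1, a2, a3⟩ := m
    simp only [isSC, ssA] at h ⊢
    rcases h with h | h | h
    · exact Or.inr (Or.inl (by omega))
    · exact Or.inl (by omega)
    · exact Or.inr (Or.inr (by omega))

private theorem ssB_T (q : ℤ) : SsT q ssB where
  add a b := by simp [ssB]
  neg a := by simp [ssB]
  inj a b h := by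
    obtain ⟨a1, a2, a3⟩ := a
    obtain ⟨b1, b2, b3⟩ := b
    simp only [ssB, Prod.mk.injEq] at h ⊢
    omega
  box m h := by
    obtain ⟨m1, m2, m3⟩ := m
    obtain ⟨h1, h2, h3⟩ := h
    simp only [inBox, ssB]
    constructor <;> intro h <;> omega
  nuT m := by
    unfold nu ssB
    rfl
  dot a b := by
    unfold dot3 ssB
    ring
  unit h := by
    obtain ⟨a1, a2, a3⟩ := h
    simp only [isUnit3, ssB, Prod.mk.injEq]
    constructor
    · rintro (h | h | h | h | h | h) <;> obtain ⟨h1, h2, h3⟩ := h <;>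
        simp_all [neg_eq_iff_eq_neg]
    · rintro (h | h | h | h | h | h) <;> obtain ⟨h1, h2, h3⟩ := h <;>
        simp_all [neg_eq_iff_eq_neg]
  sc m h := by
    obtain ⟨a1, a2, a3⟩ := m
    simp only [isSC, ssB] at h ⊢
    rcases h with h | h | h
    · exact Or.inl (by omega)
    · exact Or.inr (Or.inr (by omega))
    · exact Or.inr (Or.inl (by omega))

private theorem ssId_T (q : ℤ) : SsT q (fun m => m) where
  add _ _ := rfl
  neg _ := rfl
  inj _ _ h := h
  box _ _ := Iff.rfl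
  nuT _ := rfl
  dot _ _ := rfl
  unit _ := Iff.rfl
  sc _ h := h

private theorem rho4_T (q : ℤ) (hq : 0 < q) (j : ℤ) : SsT q (rho4 j) := by
  have hA := ssA_T q hq
  have h4 : j % 4 = 0 ∨ j % 4 = 1 ∨ j % 4 = 2 ∨ j % 4 = 3 := by omega
  rcases h4 with h | h | h | h
  · have e : rho4 j = fun m => m := by
      funext m
      simp [rho4, h]
    rw [e]
    exact ssId_T q
  · have e : rho4 j = ssA := by
      funext m
      simp [rho4, h, ssA]
    rw [e]
    exact hA
  · have e : rho4 j = fun m => ssA (ssA m) := by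
      funext m
      simp [rho4, h, ssA]
    rw [e]
    exact hA.comp hA
  · have e : rho4 j = fun m => ssA (ssA (ssA m)) := by
      funext m
      simp [rho4, h, ssA]
    rw [e]
    exact hA.comp (hA.comp hA)

private theorem Sig_T (q : ℤ) (hq : 0 < q) : SsT q Sig where
  add a b := by
    simp [Sig]
    ring
  neg a := by simp [Sig]
  inj a b h := by
    obtain ⟨a1, a2, a3⟩ := a
    obtain ⟨b1, b2, b3⟩ := b
    simp only [Sig, Prod.mk.injEq] at h ⊢
    omega
  box m h := by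
    obtain ⟨m1, m2, m3⟩ := m
    obtain ⟨h1, h2, h3⟩ := h
    simp only [inBox, Sig]
    constructor <;> intro h <;> omega
  nuT m := by
    unfold nu Sig
    rw [ss_sgq_neg q hq]
  dot a b := by
    unfold dot3 Sig
    ring
  unit h := by
    obtain ⟨a1, a2, a3⟩ := h
    simp only [isUnit3, Sig, Prod.mk.injEq]
    constructor
    · rintro (h | h | h | h | h | h) <;> obtain ⟨h1, h2, h3⟩ := h <;>
        simp_all [neg_eq_iff_eq_neg]
    · rintro (h | h | h | h | h | h) <;> obtain ⟨h1, h2, h3⟩ := h <;>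
        simp_all [neg_eq_iff_eq_neg]
  sc m h := by
    obtain ⟨a1, a2, a3⟩ := m
    simp only [isSC, Sig] at h ⊢
    rcases h with h | h | h
    · exact Or.inr (Or.inl (by omega))
    · exact Or.inl (by omega)
    · exact Or.inr (Or.inr (by omega))

theorem rho4_add (i j : ℤ) (m : ℤ × ℤ × ℤ) : rho4 i (rho4 j m) = rho4 (i + j) m := by
  obtain ⟨a, b, c⟩ := m
  have h4 : i % 4 = 0 ∨ i % 4 = 1 ∨ i % 4 = 2 ∨ i % 4 = 3 := by omega
  have h5 : j % 4 = 0 ∨ j % 4 = 1 ∨ j % 4 = 2 ∨ j % 4 = 3 := by omega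
  have h6 := Int.add_emod i j 4
  rcases h4 with h | h | h | h <;> rcases h5 with h' | h' | h' | h' <;> rw [h, h'] at h6 <;>
    norm_num at h6 <;> simp [rho4, h, h', h6]

theorem rho4_isSC (q : ℤ) (j : ℤ) (m : ℤ × ℤ × ℤ) (h : isSC q m) : isSC q (rho4 j m) := by
  obtain ⟨a1, a2, a3⟩ := m
  unfold rho4
  split_ifs
  · exact h
  · simp only [isSC] at h ⊢
    rcases h with h | h | h
    · exact Or.inr (Or.inl (by omega))
    · exact Or.inl (by omega)
    · exact Or.inr (Or.inr (by omega))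
  · simp only [isSC] at h ⊢
    rcases h with h | h | h
    · exact Or.inl (by omega)
    · exact Or.inr (Or.inl (by omega))
    · exact Or.inr (Or.inr (by omega))
  · simp only [isSC] at h ⊢
    rcases h with h | h | h
    · exact Or.inr (Or.inl (by omega))
    · exact Or.inl (by omega)
    · exact Or.inr (Or.inr (by omega))

theorem rho4_surfadv (q : ℤ) (hq : 0 < q) (j : ℤ) (m h : ℤ × ℤ × ℤ) :
    rho4 j (surfadv q m h) = surfadv q (rho4 j m) (rho4 j h) :=
  (rho4_T q hq j).sadv m h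

theorem rho4_tr (q : ℤ) (hq : 0 < q) (j : ℤ) (m h h' : ℤ × ℤ × ℤ) :
    rho4 j (tr q m h h') = tr q (rho4 j m) (rho4 j h) (rho4 j h') :=
  (rho4_T q hq j).trT m h h'

theorem rho4_isTan (q : ℤ) (hq : 0 < q) (j : ℤ) (m h : ℤ × ℤ × ℤ) :
    isTan q (rho4 j m) (rho4 j h) ↔ isTan q m h :=
  (rho4_T q hq j).tanT m h

theorem Sig_Sig (m : ℤ × ℤ × ℤ) : Sig (Sig m) = m := by
  simp [Sig]

theorem Sig_isSC (q : ℤ) (m : ℤ × ℤ × ℤ) (h : isSC q m) : isSC q (Sig m) := by
  obtain ⟨a1, a2, a3⟩ := m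
  simp only [isSC, Sig] at h ⊢
  rcases h with h | h | h
  · exact Or.inr (Or.inl (by omega))
  · exact Or.inl (by omega)
  · exact Or.inr (Or.inr (by omega))

theorem Sig_surfadv (q : ℤ) (hq : 0 < q) (m h : ℤ × ℤ × ℤ) :
    Sig (surfadv q m h) = surfadv q (Sig m) (Sig h) :=
  (Sig_T q hq).sadv m h

theorem Sig_tr (q : ℤ) (hq : 0 < q) (m h h' : ℤ × ℤ × ℤ) :
    Sig (tr q m h h') = tr q (Sig m) (Sig h) (Sig h') :=
  (Sig_T q hq).trT m h h'

theorem Sig_isTan (q : ℤ) (hq : 0 < q) (m h : ℤ × ℤ × ℤ) :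
    isTan q (Sig m) (Sig h) ↔ isTan q m h :=
  (Sig_T q hq).tanT m h

/-- closed sets of cells -/
private def SsCl (q : ℤ) (S : Set (ℤ × ℤ × ℤ)) : Prop :=
  ∀ m h, m ∈ S → isSC q m → isTan q m h → surfadv q m h ∈ S

private theorem SsCl.pre {q : ℤ} {S : Set (ℤ × ℤ × ℤ)} (hS : SsCl q S)
    {T : ℤ × ℤ × ℤ → ℤ × ℤ × ℤ} (hT : SsT q T) : SsCl q (T ⁻¹' S) := by
  intro m h h1 h2 h3
  show T (surfadv q m h) ∈ S
  rw [hT.sadv]
  exact hS _ _ h1 (hT.sc _ h2) ((hT.tanT m h).2 h3)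

private theorem ss_walk (q : ℤ) (P : ℤ → Prop)
    (h1 : ∀ y : ℤ, y % 2 = 1 → -2 * q < y → y + 2 < 2 * q → P y → P (y + 2))
    (h2 : ∀ y : ℤ, y % 2 = 1 → -2 * q < y → y + 2 < 2 * q → P (y + 2) → P y)
    (y y' : ℤ) (hy : y % 2 = 1) (hy0 : -2 * q < y) (hy1 : y < 2 * q) (hy' : y' % 2 = 1)
    (hy0' : -2 * q < y') (hy1' : y' < 2 * q) (h : P y) : P y' := by
  have up : ∀ k : ℕ, y + 2 * k < 2 * q → P (y + 2 * k) := by
    intro k
    induction k with
    | zero => intro _; simpa using h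
    | succ k ih =>
      intro hk
      push_cast at hk ⊢
      have := h1 (y + 2 * k) (by omega) (by omega) (by omega) (ih (by omega))
      rw [show y + 2 * ((k : ℤ) + 1) = y + 2 * k + 2 by ring]
      exact this
  have down : ∀ k : ℕ, -2 * q < y - 2 * k → P (y - 2 * k) := by
    intro k
    induction k with
    | zero => intro _; simpa using h
    | succ k ih =>
      intro hk
      push_cast at hk ⊢
      have := h2 (y - 2 * k - 2) (by omega) (by omega) (by omega)
        (by rw [sub_add_cancel]; exact ih (by omega))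
      rw [show y - 2 * ((k : ℤ) + 1) = y - 2 * k - 2 by ring]
      exact this
  rcases le_total y y' with hle | hle
  · obtain ⟨k, hk⟩ : ∃ k : ℕ, y' = y + 2 * k := ⟨((y' - y) / 2).toNat, by omega⟩
    rw [hk]
    exact up k (by omega)
  · obtain ⟨k, hk⟩ : ∃ k : ℕ, y' = y - 2 * k := ⟨((y - y') / 2).toNat, by omega⟩
    rw [hk]
    exact down k (by omega)

private theorem ss_sgq_odd (q t : ℤ) (ht : t % 2 = 1) : sgq q t = 0 := by
  unfold sgq
  rw [if_neg (by omega), if_neg (by omega)]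

private theorem ss_sgq_two (q : ℤ) : sgq q (2 * q) = 1 := by
  unfold sgq
  rw [if_pos rfl]

private theorem ss_isSC (q y z : ℤ) (hy : y % 2 = 1) (hy0 : -2 * q < y) (hy1 : y < 2 * q)
    (hz : z % 2 = 1) (hz0 : -2 * q < z) (hz1 : z < 2 * q) : isSC q (2 * q, y, z) :=
  Or.inl ⟨Or.inl rfl, hy, hy0, hy1, hz, hz0, hz1⟩

private theorem ss_tan (q y z a b : ℤ) (hy : y % 2 = 1) (hz : z % 2 = 1)
    (hu : isUnit3 (0, a, b)) : isTan q (2 * q, y, z) (0, a, b) := by
  refine ⟨hu, ?_⟩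
  unfold dot3 nu
  simp only [ss_sgq_odd q y hy, ss_sgq_odd q z hz]
  ring

private theorem ss_face (q : ℤ) (S : Set (ℤ × ℤ × ℤ)) (hS : SsCl q S)
    (y z y' z' : ℤ) (hy : y % 2 = 1) (hy0 : -2 * q < y) (hy1 : y < 2 * q)
    (hz : z % 2 = 1) (hz0 : -2 * q < z) (hz1 : z < 2 * q)
    (hy' : y' % 2 = 1) (hy0' : -2 * q < y') (hy1' : y' < 2 * q)
    (hz' : z' % 2 = 1) (hz0' : -2 * q < z') (hz1' : z' < 2 * q)
    (h : (2 * q, y, z) ∈ S) : (2 * q, y', z') ∈ S := by
  have s1 : (2 * q, y', z) ∈ S := by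
    refine ss_walk q (fun t => (2 * q, t, z) ∈ S) ?_ ?_ y y' hy hy0 hy1 hy' hy0' hy1' h
    · intro t ht ht0 ht1 hP
      have := hS (2 * q, t, z) (0, 1, 0) hP (ss_isSC q t z ht ht0 (by omega) hz hz0 hz1)
        (ss_tan q t z 1 0 ht hz (by simp [isUnit3]))
      rw [surfadv, if_pos (by unfold inBox; simp only []; omega)] at this
      simpa using this
    · intro t ht ht0 ht1 hP
      have := hS (2 * q, t + 2, z) (0, -1, 0) hP
        (ss_isSC q (t + 2) z (by omega) (by omega) (by omega) hz hz0 hz1)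
        (ss_tan q (t + 2) z (-1) 0 (by omega) hz (by simp [isUnit3]))
      rw [surfadv, if_pos (by unfold inBox; simp only []; omega)] at this
      simpa using this
  refine ss_walk q (fun t => (2 * q, y', t) ∈ S) ?_ ?_ z z' hz hz0 hz1 hz' hz0' hz1' s1
  · intro t ht ht0 ht1 hP
    have := hS (2 * q, y', t) (0, 0, 1) hP (ss_isSC q y' t hy' hy0' hy1' ht ht0 (by omega))
      (ss_tan q y' t 0 1 hy' ht (by simp [isUnit3]))
    rw [surfadv, if_pos (by unfold inBox; simp only []; omega)] at this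
    simpa using this
  · intro t ht ht0 ht1 hP
    have := hS (2 * q, y', t + 2) (0, 0, -1) hP
      (ss_isSC q y' (t + 2) hy' hy0' hy1' (by omega) (by omega) (by omega))
      (ss_tan q y' (t + 2) 0 (-1) hy' (by omega) (by simp [isUnit3]))
    rw [surfadv, if_pos (by unfold inBox; simp only []; omega)] at this
    simpa using this

/-- the base cell of the first face is in `S` -/
private def SsX (q : ℤ) (S : Set (ℤ × ℤ × ℤ)) : Prop := (2 * q, 1, 1) ∈ S

private theorem ss_xA (q : ℤ) (hq : 0 < q) (S : Set (ℤ × ℤ × ℤ)) (hS : SsCl q S) (h : SsX q S) :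
    SsX q (ssA ⁻¹' S) := by
  have h1 : (2 * q, 2 * q - 1, 1) ∈ S := ss_face q S hS 1 1 (2 * q - 1) 1 (by omega) (by omega)
    (by omega) (by omega) (by omega) (by omega) (by omega) (by omega) (by omega) (by omega)
    (by omega) (by omega) h
  have h2 := hS _ (0, 1, 0) h1 (ss_isSC q (2 * q - 1) 1 (by omega) (by omega) (by omega)
    (by omega) (by omega) (by omega)) (ss_tan q _ _ 1 0 (by omega) (by omega) (by simp [isUnit3]))
  rw [surfadv, if_neg (by unfold inBox; simp only []; omega)] at h2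
  have h3 : (2 * q, -(2 * q - 1), 1) ∈ ssA ⁻¹' S := by
    show ssA (2 * q, -(2 * q - 1), 1) ∈ S
    simp only [nu, ss_sgq_two, ss_sgq_odd q (2 * q - 1) (by omega),
      ss_sgq_odd q 1 (by omega)] at h2
    unfold ssA
    simp only [neg_neg]
    simpa using h2
  exact ss_face q _ (hS.pre (ssA_T q hq)) _ _ 1 1 (by omega) (by omega)
    (by omega) (by omega) (by omega) (by omega) (by omega) (by omega) (by omega) (by omega)
    (by omega) (by omega) h3

private theorem ss_xB (q : ℤ) (S : Set (ℤ × ℤ × ℤ)) (h : SsX q S) : SsX q (ssB ⁻¹' S) := h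

private theorem ss_all (q : ℤ) (hq : 0 < q) (S : Set (ℤ × ℤ × ℤ)) (hS : SsCl q S) (h : SsX q S)
    (m : ℤ × ℤ × ℤ) (hm : isSC q m) : m ∈ S := by
  have hA := ssA_T q hq
  have hB := ssB_T q
  have hS1 := hS.pre hA
  have x1 := ss_xA q hq S hS h
  have hS2 := hS1.pre hA
  have x2 := ss_xA q hq _ hS1 x1
  have hS3 := hS2.pre hA
  have x3 := ss_xA q hq _ hS2 x2
  have hT0 := hS.pre hB
  have y0 := ss_xB q S h
  have hT1 := hT0.pre hA
  have y1 := ss_xA q hq _ hT0 y0
  have hT2 := hT1.pre hA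
  have y2 := ss_xA q hq _ hT1 y1
  have hT3 := hT2.pre hA
  have y3 := ss_xA q hq _ hT2 y2
  obtain ⟨a, b, c⟩ := m
  rcases hm with ⟨ha, hb1, hb2, hb3, hc1, hc2, hc3⟩ | ⟨hb, ha1, ha2, ha3, hc1, hc2, hc3⟩ |
    ⟨hc, ha1, ha2, ha3, hb1, hb2, hb3⟩
  · simp only [] at ha hb1 hb2 hb3 hc1 hc2 hc3
    rcases ha with rfl | rfl
    · exact ss_face q S hS 1 1 b c (by omega) (by omega) (by omega) (by omega) (by omega)
        (by omega) hb1 hb2 hb3 hc1 hc2 hc3 h
    · have := ss_face q _ hS2 1 1 (-b) c (by omega) (by omega) (by omega) (by omega) (by omega)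
        (by omega) (by omega) (by omega) (by omega) hc1 hc2 hc3 x2
      have h' : ssA (ssA (2 * q, -b, c)) ∈ S := this
      simpa [ssA] using h'
  · simp only [] at hb ha1 ha2 ha3 hc1 hc2 hc3
    rcases hb with rfl | rfl
    · have := ss_face q _ hS1 1 1 (-a) c (by omega) (by omega) (by omega) (by omega) (by omega)
        (by omega) (by omega) (by omega) (by omega) hc1 hc2 hc3 x1
      have h' : ssA (2 * q, -a, c) ∈ S := this
      simpa [ssA] using h'
    · have := ss_face q _ hS3 1 1 a c (by omega) (by omega) (by omega) (by omega) (by omega)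
        (by omega) (by omega) (by omega) (by omega) hc1 hc2 hc3 x3
      have h' : ssA (ssA (ssA (2 * q, a, c))) ∈ S := this
      simpa [ssA] using h'
  · simp only [] at hc ha1 ha2 ha3 hb1 hb2 hb3
    rcases hc with rfl | rfl
    · have := ss_face q _ hT1 1 1 (-a) b (by omega) (by omega) (by omega) (by omega) (by omega)
        (by omega) (by omega) (by omega) (by omega) hb1 hb2 hb3 y1
      have h' : ssB (ssA (2 * q, -a, b)) ∈ S := this
      simpa [ssA, ssB] using h'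
    · have := ss_face q _ hT3 1 1 a b (by omega) (by omega) (by omega) (by omega) (by omega)
        (by omega) (by omega) (by omega) (by omega) hb1 hb2 hb3 y3
      have h' : ssB (ssA (ssA (ssA (2 * q, a, b)))) ∈ S := this
      simpa [ssA, ssB] using h'

private theorem ss_all' (q : ℤ) (hq : 0 < q) (S : Set (ℤ × ℤ × ℤ)) (hS : SsCl q S)
    (T U : ℤ × ℤ × ℤ → ℤ × ℤ × ℤ) (hT : SsT q T) (hU : SsT q U) (hTU : ∀ m, T (U m) = m)
    (y z : ℤ) (hy : y % 2 = 1) (hy0 : -2 * q < y) (hy1 : y < 2 * q)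
    (hz : z % 2 = 1) (hz0 : -2 * q < z) (hz1 : z < 2 * q) (h : T (2 * q, y, z) ∈ S)
    (m : ℤ × ℤ × ℤ) (hm : isSC q m) : m ∈ S := by
  have h1 : SsX q (T ⁻¹' S) := ss_face q _ (hS.pre hT) y z 1 1 hy hy0 hy1 hz hz0 hz1 (by omega)
    (by omega) (by omega) (by omega) (by omega) (by omega) h
  have h2 : T (U m) ∈ S := ss_all q hq _ (hS.pre hT) h1 (U m) (hU.sc m hm)
  rwa [hTU] at h2

private theorem ss_decomp (q : ℤ) (hq : 0 < q) (m : ℤ × ℤ × ℤ) (hm : isSC q m) :
    ∃ (T U : ℤ × ℤ × ℤ → ℤ × ℤ × ℤ) (y z : ℤ), SsT q T ∧ SsT q U ∧ (∀ m, T (U m) = m) ∧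
      y % 2 = 1 ∧ -2 * q < y ∧ y < 2 * q ∧ z % 2 = 1 ∧ -2 * q < z ∧ z < 2 * q ∧
      T (2 * q, y, z) = m := by
  have hA := ssA_T q hq
  have hB := ssB_T q
  have hI := ssId_T q
  have hA2 := hA.comp hA
  have hA3 := hA.comp hA2
  have hBA := hB.comp hA
  have hBA3 := hB.comp hA3
  have hAB := hA.comp hB
  have hA3B := hA3.comp hB
  obtain ⟨a, b, c⟩ := m
  rcases hm with ⟨ha, hb1, hb2, hb3, hc1, hc2, hc3⟩ | ⟨hb, ha1, ha2, ha3, hc1, hc2, hc3⟩ |
    ⟨hc, ha1, ha2, ha3, hb1, hb2, hb3⟩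
  · simp only [] at ha hb1 hb2 hb3 hc1 hc2 hc3
    rcases ha with rfl | rfl
    · exact ⟨_, _, b, c, hI, hI, fun _ => rfl, hb1, hb2, hb3, hc1, hc2, hc3, rfl⟩
    · exact ⟨_, _, -b, c, hA2, hA2, fun m => by simp [ssA], by omega, by omega, by omega, hc1, hc2,
        hc3, by simp [ssA]⟩
  · simp only [] at hb ha1 ha2 ha3 hc1 hc2 hc3
    rcases hb with rfl | rfl
    · exact ⟨_, _, -a, c, hA, hA3, fun m => by simp [ssA], by omega, by omega, by omega, hc1, hc2,
        hc3, by simp [ssA]⟩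
    · exact ⟨_, _, a, c, hA3, hA, fun m => by simp [ssA], ha1, ha2, ha3, hc1, hc2,
        hc3, by simp [ssA]⟩
  · simp only [] at hc ha1 ha2 ha3 hb1 hb2 hb3
    rcases hc with rfl | rfl
    · exact ⟨_, _, -a, b, hBA, hA3B, fun m => by simp [ssA, ssB], by omega, by omega, by omega, hb1,
        hb2, hb3, by simp [ssA, ssB]⟩
    · exact ⟨_, _, a, b, hBA3, hAB, fun m => by simp [ssA, ssB], ha1, ha2, ha3, hb1,
        hb2, hb3, by simp [ssA, ssB]⟩

private theorem ss_isSC_X (q : ℤ) (hq : 0 < q) (y z : ℤ) (hy : y % 2 = 1) (hy0 : -2 * q < y)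
    (hy1 : y < 2 * q) (hz : z % 2 = 1) (hz0 : -2 * q < z) (hz1 : z < 2 * q) (h : ℤ × ℤ × ℤ)
    (ht : isTan q (2 * q, y, z) h) : isSC q (surfadv q (2 * q, y, z) h) := by
  obtain ⟨hu, hd⟩ := ht
  have hnu : nu q (2 * q, y, z) = (1, 0, 0) := by
    simp only [nu, ss_sgq_two, ss_sgq_odd q y hy, ss_sgq_odd q z hz]
  rw [hnu] at hd
  rcases hu with rfl | rfl | rfl | rfl | rfl | rfl
  · simp [dot3] at hd
  · simp [dot3] at hd
  · rw [surfadv, hnu]
    by_cases hb : inBox q (2 * q, y, z) (0, 1, 0)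
    · rw [if_pos hb]
      simp only [inBox] at hb
      simp only [isSC]
      omega
    · rw [if_neg hb]
      simp only [inBox] at hb
      simp only [isSC]
      omega
  · rw [surfadv, hnu]
    by_cases hb : inBox q (2 * q, y, z) (0, -1, 0)
    · rw [if_pos hb]
      simp only [inBox] at hb
      simp only [isSC]
      omega
    · rw [if_neg hb]
      simp only [inBox] at hb
      simp only [isSC]
      omega
  · rw [surfadv, hnu]
    by_cases hb : inBox q (2 * q, y, z) (0, 0, 1)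
    · rw [if_pos hb]
      simp only [inBox] at hb
      simp only [isSC]
      omega
    · rw [if_neg hb]
      simp only [inBox] at hb
      simp only [isSC]
      omega
  · rw [surfadv, hnu]
    by_cases hb : inBox q (2 * q, y, z) (0, 0, -1)
    · rw [if_pos hb]
      simp only [inBox] at hb
      simp only [isSC]
      omega
    · rw [if_neg hb]
      simp only [inBox] at hb
      simp only [isSC]
      omega

theorem surfadv_isSC (q : ℤ) (hq : 0 < q) (m h : ℤ × ℤ × ℤ) (hm : isSC q m) (ht : isTan q m h) :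
    isSC q (surfadv q m h) := by
  obtain ⟨T, U, y, z, hT, hU, hTU, hy, hy0, hy1, hz, hz0, hz1, rfl⟩ := ss_decomp q hq m hm
  rw [← hTU h] at ht ⊢
  rw [← hT.sadv]
  exact hT.sc _ (ss_isSC_X q hq y z hy hy0 hy1 hz hz0 hz1 (U h) ((hT.tanT _ _).1 ht))

theorem surf_conn (q : ℤ) (hq : 0 < q) (S : Set (ℤ × ℤ × ℤ)) (m0 : ℤ × ℤ × ℤ) (h0 : isSC q m0)
    (h1 : m0 ∈ S) (hS : ∀ m h, m ∈ S → isSC q m → isTan q m h → surfadv q m h ∈ S)
    (m : ℤ × ℤ × ℤ) (hm : isSC q m) : m ∈ S := by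
  obtain ⟨T, U, y, z, hT, hU, hTU, hy, hy0, hy1, hz, hz0, hz1, rfl⟩ := ss_decomp q hq m0 h0
  exact ss_all' q hq S hS T U hT hU hTU y z hy hy0 hy1 hz hz0 hz1 h1 m hm

end H70Net
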