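import Pool.Agent.H70.Net.Defs

/-!
MP_77daaf_co, module `Tau` : the triangle wave and the surface of a disphenoid.

`tau x = 1 - (2/π) arccos (cos (π x))`: continuous, even, 2-periodic, `tau x = 1 - 2x` on `[0,1]`.

PROOFS.
* `tau_eq_iff`: `arccos` is injective on `[-1,1]`: `tau x = tau y ↔ cos (π x) = cos (π y)`.
* `tau_Icc`: `Real.arccos_cos` (`0 ≤ π x ≤ π`).
* `tau_add_int`: for `k` even `tau (x + k) = tau x`; for `k` odd `tau (x + k) = - tau x`
  (`cos (π x + π k) = (-1)^k cos (π x)`, `arccos (-u) = π - arccos u`).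
* `tau_diff`: on `[k, k+1]`: `tau x = ε (1 - 2 (x - k))` with `ε = (-1)^k`.
* `tau_fiber`: `0 < t < 1`, `0 ≤ t' ≤ 1`, `tau t = tau t'` gives `t = t'`.  `cos π S = cos π S'` gives
  `S' = ± S + 2k` (`Real.cos_eq_cos_iff`).  If `S' = -S + 2k` then `cos π (S'+t) = cos π (t - S)`, so
  `cos π (S+t) = cos π (t-S)`, i.e. `sin πS sin πt = 0`, `sin π S = 0`, `S` an integer `j`, and
  `S' = S + 2 (k - j)`.
* `tet_mem`: `(X,Y,Z) = (tau t, tau S, tau (S+t))`, `0 ≤ t ≤ 1`: all four forms are `≥ 0` and one of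
  them is `0`: write `S = k + s`, `0 ≤ s ≤ 1` (`k = ⌊S⌋`), `ε = (-1)^k`: `X = 1 - 2t`, `Y = ε (1-2s)`,
  `Z = ε (1 - 2(s+t))` if `s + t ≤ 1`, `Z = -ε (1 - 2 (s+t-1))` if `s + t ≥ 1`.
* `tet_onto`: the four faces: `1 - X - Y + Z = 0`: `t = (1-X)/2`, `S = (1-Y)/2` (`S + t ≤ 1`);
   `1 + X + Y + Z = 0`: the same `t, S`, with `S + t ≥ 1`;
   `1 + X - Y - Z = 0`: `t = (1-X)/2`, `S = -(1-Y)/2`, `S + t ∈ [0,1]`;
   `1 - X + Y - Z = 0`: `t = (1-X)/2`, `S = -(1-Y)/2`, `S + t ∈ [-1, 0]`.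
   (Check the signs with `tau_Icc` and evenness.)
-/

namespace H70Net

open Real

noncomputable def tau (x : ℝ) : ℝ := 1 - 2 / π * arccos (cos (π * x))

theorem tau_continuous : Continuous tau := by
  unfold tau
  exact continuous_const.sub (continuous_const.mul (Real.continuous_arccos.comp
    (Real.continuous_cos.comp (continuous_const.mul continuous_id))))

theorem tau_eq_iff (x y : ℝ) : tau x = tau y ↔ cos (π * x) = cos (π * y) := by
  constructor
  · intro h
    unfold tau at h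
    have h2 : arccos (cos (π * x)) = arccos (cos (π * y)) := by
      have hp : (2 / π) ≠ 0 := by positivity
      have : 2 / π * arccos (cos (π * x)) = 2 / π * arccos (cos (π * y)) := by linarith
      exact mul_left_cancel₀ hp this
    have h3 := congrArg cos h2
    rwa [cos_arccos (neg_one_le_cos _) (cos_le_one _),
      cos_arccos (neg_one_le_cos _) (cos_le_one _)] at h3
  · intro h
    unfold tau
    rw [h]

theorem tau_Icc (x : ℝ) (h0 : 0 ≤ x) (h1 : x ≤ 1) : tau x = 1 - 2 * x := by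
  unfold tau
  have hpi := Real.pi_pos
  rw [arccos_cos (by positivity) (by nlinarith)]
  field_simp

theorem tau_neg (x : ℝ) : tau (-x) = tau x := by
  unfold tau
  rw [mul_neg, cos_neg]

theorem tau_add_int (x : ℝ) (k : ℤ) : tau (x + k) = if k % 2 = 0 then tau x else -tau x := by
  have hc : cos (π * (x + k)) = (-1) ^ k * cos (π * x) := by
    rw [← Real.cos_add_int_mul_pi]
    congr 1
    ring
  unfold tau
  rw [hc]
  split_ifs with hk
  · rw [Even.neg_one_zpow (Int.even_iff.mpr hk), one_mul]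
  · rw [Odd.neg_one_zpow (Int.odd_iff.mpr (by omega)), neg_one_mul, arccos_neg]
    have hpi := Real.pi_pos
    field_simp
    ring

theorem tau_diff (k : ℤ) (x y : ℝ) (hx : (k : ℝ) ≤ x) (hx' : x ≤ k + 1) (hy : (k : ℝ) ≤ y)
    (hy' : y ≤ k + 1) : (tau x - tau y) ^ 2 = 4 * (x - y) ^ 2 := by
  have h1 := tau_add_int (x - k) k
  have h2 := tau_add_int (y - k) k
  rw [sub_add_cancel, tau_Icc (x - k) (by linarith) (by linarith)] at h1
  rw [sub_add_cancel, tau_Icc (y - k) (by linarith) (by linarith)] at h2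
  rw [h1, h2]
  split_ifs <;> ring

theorem tau_fiber (S t S' t' : ℝ) (h0 : 0 < t) (h1 : t < 1) (h0' : 0 ≤ t') (h1' : t' ≤ 1)
    (e1 : tau t = tau t') (e2 : tau S = tau S') (e3 : tau (S + t) = tau (S' + t')) :
    t' = t ∧ ∃ k : ℤ, S' = S + 2 * k := by
  rw [tau_Icc t h0.le h1.le, tau_Icc t' h0' h1'] at e1
  have ht : t' = t := by linarith
  subst ht
  refine ⟨rfl, ?_⟩
  have hpi := Real.pi_pos
  rw [tau_eq_iff] at e2 e3
  rw [Real.cos_eq_cos_iff] at e2
  obtain ⟨k, hk | hk⟩ := e2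
  · refine ⟨k, ?_⟩
    have : π * S' = π * (S + 2 * k) := by linarith
    exact mul_left_cancel₀ hpi.ne' this
  · have hS' : S' = 2 * k - S := by
      have : π * S' = π * (2 * k - S) := by linarith
      exact mul_left_cancel₀ hpi.ne' this
    have e4 : cos (π * (S' + t')) = cos (π * t' - π * S) := by
      have : π * (S' + t') = (π * t' - π * S) + k * (2 * π) := by rw [hS']; ring
      rw [this, Real.cos_add_int_mul_two_pi]
    rw [e4, mul_add, cos_add, cos_sub] at e3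
    have hs : sin (π * t') * sin (π * S) = 0 := by linarith
    have ht : 0 < sin (π * t') := Real.sin_pos_of_pos_of_lt_pi (by positivity) (by nlinarith)
    have hs2 : sin (π * S) = 0 := by
      rcases mul_eq_zero.mp hs with h | h
      · exact absurd h ht.ne'
      · exact h
    rw [Real.sin_eq_zero_iff] at hs2
    obtain ⟨j, hj⟩ := hs2
    have hj2 : S = j := by
      have : π * S = π * j := by linarith
      exact mul_left_cancel₀ hpi.ne' this
    refine ⟨k - j, ?_⟩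
    rw [hS', hj2]
    push_cast
    ring

theorem tet_mem (S t : ℝ) (h0 : 0 ≤ t) (h1 : t ≤ 1) :
    (0 ≤ 1 + tau t + tau S + tau (S + t) ∧ 0 ≤ 1 + tau t - tau S - tau (S + t) ∧
      0 ≤ 1 - tau t + tau S - tau (S + t) ∧ 0 ≤ 1 - tau t - tau S + tau (S + t)) ∧
    (1 + tau t + tau S + tau (S + t) = 0 ∨ 1 + tau t - tau S - tau (S + t) = 0 ∨
      1 - tau t + tau S - tau (S + t) = 0 ∨ 1 - tau t - tau S + tau (S + t) = 0) := by
  have hs0 : 0 ≤ S - ⌊S⌋ := by linarith [Int.floor_le S]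
  have hs1 : S - ⌊S⌋ ≤ 1 := by linarith [(Int.lt_floor_add_one S).le]
  have a1 := tau_add_int (S - ⌊S⌋) ⌊S⌋
  have a2 := tau_add_int (S - ⌊S⌋ + t) ⌊S⌋
  have b1 := tau_Icc t h0 h1
  have b2 := tau_Icc (S - ⌊S⌋) hs0 hs1
  rw [sub_add_cancel] at a1
  rw [show S - (⌊S⌋ : ℝ) + t + ⌊S⌋ = S + t by ring] at a2
  generalize S - (⌊S⌋ : ℝ) = s at *
  generalize (⌊S⌋ : ℤ) = k at *
  rcases le_total (s + t) 1 with hst | hst
  · have b3 := tau_Icc (s + t) (by linarith) hst
    rw [a1, a2, b1, b2, b3]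
    split_ifs
    · refine ⟨⟨?_, ?_, ?_, ?_⟩, ?_⟩
      · linarith
      · linarith
      · linarith
      · linarith
      · right; right; right; ring
    · refine ⟨⟨?_, ?_, ?_, ?_⟩, ?_⟩
      · linarith
      · linarith
      · linarith
      · linarith
      · right; right; left; ring
  · have b3 := tau_add_int (s + t - 1) 1
    rw [tau_Icc (s + t - 1) (by linarith) (by linarith)] at b3
    norm_num at b3
    rw [a1, a2, b1, b2, b3]
    split_ifs
    · refine ⟨⟨?_, ?_, ?_, ?_⟩, ?_⟩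
      · linarith
      · linarith
      · linarith
      · linarith
      · left; ring
    · refine ⟨⟨?_, ?_, ?_, ?_⟩, ?_⟩
      · linarith
      · linarith
      · linarith
      · linarith
      · right; left; ring

theorem tet_onto (X Y Z : ℝ) (h0 : 0 ≤ 1 + X + Y + Z) (h1 : 0 ≤ 1 + X - Y - Z)
    (h2 : 0 ≤ 1 - X + Y - Z) (h3 : 0 ≤ 1 - X - Y + Z)
    (h : 1 + X + Y + Z = 0 ∨ 1 + X - Y - Z = 0 ∨ 1 - X + Y - Z = 0 ∨ 1 - X - Y + Z = 0) :
    ∃ S t : ℝ, 0 ≤ t ∧ t ≤ 1 ∧ tau t = X ∧ tau S = Y ∧ tau (S + t) = Z := by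
  have eX : tau ((1 - X) / 2) = X := by
    rw [tau_Icc _ (by linarith) (by linarith)]; ring
  have eY : tau ((1 - Y) / 2) = Y := by
    rw [tau_Icc _ (by linarith) (by linarith)]; ring
  have eZ : tau ((1 - Z) / 2) = Z := by
    rw [tau_Icc _ (by linarith) (by linarith)]; ring
  rcases h with h | h | h | h
  · refine ⟨(1 - Y) / 2, (1 - X) / 2, by linarith, by linarith, eX, eY, ?_⟩
    have b3 := tau_add_int ((1 + Z) / 2) 1
    rw [tau_Icc ((1 + Z) / 2) (by linarith) (by linarith)] at b3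
    norm_num at b3
    rw [show (1 - Y) / 2 + (1 - X) / 2 = (1 + Z) / 2 + 1 by linarith, b3]
    ring
  · refine ⟨-((1 - Y) / 2), (1 - X) / 2, by linarith, by linarith, eX, by rw [tau_neg, eY], ?_⟩
    rw [show -((1 - Y) / 2) + (1 - X) / 2 = (1 - Z) / 2 by linarith, eZ]
  · refine ⟨-((1 - Y) / 2), (1 - X) / 2, by linarith, by linarith, eX, by rw [tau_neg, eY], ?_⟩
    rw [show -((1 - Y) / 2) + (1 - X) / 2 = -((1 - Z) / 2) by linarith, tau_neg, eZ]
  · refine ⟨(1 - Y) / 2, (1 - X) / 2, by linarith, by linarith, eX, eY, ?_⟩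
    rw [show (1 - Y) / 2 + (1 - X) / 2 = (1 - Z) / 2 by linarith, eZ]

end H70Net
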