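import Pool.Agent.H70.Net.Zip
import Pool.Agent.H70.Net.SurfSym

/-!
MP_77daaf_co, module `TopMap` : the folding map of the cells of the upper half band.

`Top C cx cy` : cell below the curve and above the line `y = -2q` (doubled `-4q`).
`mm C cx cy` : the surface cell; `hd C cx cy a b` : the heading of the direction `(a,b)`.

PROOFS.
* `mm_shift` : `(cx + 4 q j) / (4q) = cx/(4q) + j`, `(cx + 4qj) % (4q) = cx % (4q)`, `rho4_add`.
* `mm_chart` : `-2q+p ≤ cx ≤ 6q - p`.  If `0 ≤ cx < 4q`: by definition.  If `cx < 0`: `cx / (4q) = -1`,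
  `cx % (4q) = cx + 4q ≥ 2q + p`, so `kap (cx + 4q) cy ∈ {3,4}` (`kap_right_far`) and
  `kap cx cy ∈ {2,1}` (`kap_left`), same alternative (`cy < -2q` or not); check
  `rho4 (-1) (Fi 3 (cx+4q)) = Fi 2 cx`, `rho4 (-1) (Fi 4 (cx+4q)) = Fi 1 cx`
  (both by computing components), and the same for `DF`.  If `4q ≤ cx`: `cx/(4q) = 1`,
  `cx % (4q) = cx - 4q ≤ 2q - p`: `kap (cx-4q) ∈ {2,1}` (use `total_shift`), `kap cx ∈ {3,4}`.
* `mm_isSC`, `hd_tan`, `hd_surj`: reduce to `0 ≤ cx < 4q` (`mm_shift`), `Fw_isSC`, `DF_tan`, `DF_surj`;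
  bounds: `X = cx - 2q ∈ [-2q, 2q)`, `Y = cy + 2q > -2q`, and `cy < p` by `total_above`, so
  `rx, ry < 4q`.
* `top_adj`: translate by a multiple of `4q` so that `0 ≤ cx < 4q`; then both cells are in the domain of
  `mm_chart` (`p < q`); the common edge is not in the curve (`edge_cells`: otherwise one of the cells
  would have `total = 0`), so `kap` changes by at most 1 (`kap_right`/`kap_up`), and `Fw_adv`
  (`kap_quad`).  For the directions `(-1,0)`, `(0,-1)` use `kap_right`, `kap_up` at the other cell.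
-/

namespace H70Net

noncomputable def Fi (C : Curve) (κ cx cy : ℤ) : ℤ × ℤ × ℤ :=
  Fw C.q κ (rx κ (cx - 2 * C.q) (cy + 2 * C.q)) (ry κ (cx - 2 * C.q) (cy + 2 * C.q))

def Top (C : Curve) (cx cy : ℤ) : Prop :=
  cx % 2 = 1 ∧ cy % 2 = 1 ∧ -4 * C.q < cy ∧ total C cx cy = 1

noncomputable def mm (C : Curve) (cx cy : ℤ) : ℤ × ℤ × ℤ :=
  rho4 (cx / (4 * C.q)) (Fi C (kap C (cx % (4 * C.q)) cy) (cx % (4 * C.q)) cy)

noncomputable def hd (C : Curve) (cx cy a b : ℤ) : ℤ × ℤ × ℤ :=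
  rho4 (cx / (4 * C.q)) (DF (kap C (cx % (4 * C.q)) cy) a b)

private theorem topM_div (C : Curve) (cx j : ℤ) :
    (cx + 4 * C.q * j) / (4 * C.q) = cx / (4 * C.q) + j ∧
    (cx + 4 * C.q * j) % (4 * C.q) = cx % (4 * C.q) := by
  have hq := C_q_pos C
  constructor
  · rw [Int.add_mul_ediv_left _ _ (by omega)]
  · rw [Int.add_mul_emod_self_left]

private theorem topM_zero (m : ℤ × ℤ × ℤ) : rho4 0 m = m := by
  unfold rho4
  rw [if_pos (by norm_num)]

theorem mm_shift (C : Curve) (cx cy j a b : ℤ) :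
    mm C (cx + 4 * C.q * j) cy = rho4 j (mm C cx cy) ∧
    hd C (cx + 4 * C.q * j) cy a b = rho4 j (hd C cx cy a b) := by
  obtain ⟨h1, h2⟩ := topM_div C cx j
  unfold mm hd
  rw [h1, h2, rho4_add, rho4_add, add_comm j]
  exact ⟨rfl, rfl⟩

theorem Top_shift (C : Curve) (cx cy j : ℤ) : Top C (cx + 4 * C.q * j) cy ↔ Top C cx cy := by
  unfold Top
  have h1 : (cx + 4 * C.q * j) % 2 = cx % 2 := by
    rw [show cx + 4 * C.q * j = cx + 2 * (2 * C.q * j) by ring]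
    omega
  have h2 : total C (cx + 4 * C.q * j) cy = total C cx cy := by
    rw [show cx + 4 * C.q * j = cx + 4 * j * C.q by ring]
    exact total_shift C cx cy j
  rw [h1, h2]

theorem Top_lt (C : Curve) (cx cy : ℤ) (h : Top C cx cy) : cy < C.p := by
  by_contra hc
  have h1 := total_above C cx cy (by omega)
  have h2 := h.2.2.2
  omega

private theorem topM_left (C : Curve) (cx cy : ℤ) :
    rho4 (-1) (Fi C 3 (cx + 4 * C.q) cy) = Fi C 2 cx cy ∧
    rho4 (-1) (Fi C 4 (cx + 4 * C.q) cy) = Fi C 1 cx cy ∧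
    (∀ a b : ℤ, rho4 (-1) (DF 3 a b) = DF 2 a b) ∧
    (∀ a b : ℤ, rho4 (-1) (DF 4 a b) = DF 1 a b) := by
  refine ⟨?_, ?_, ?_, ?_⟩
  · simp [Fi, Fw, e3, rx, ry, rho4, Prod.ext_iff]
    ring
  · simp [Fi, Fw, e3, rx, ry, rho4, Prod.ext_iff]
    ring
  · intro a b
    simp [DF, e3, rx, ry, rho4, Prod.ext_iff]
  · intro a b
    simp [DF, e3, rx, ry, rho4, Prod.ext_iff]

private theorem topM_right (C : Curve) (cx cy : ℤ) :
    rho4 1 (Fi C 2 (cx - 4 * C.q) cy) = Fi C 3 cx cy ∧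
    rho4 1 (Fi C 1 (cx - 4 * C.q) cy) = Fi C 4 cx cy ∧
    (∀ a b : ℤ, rho4 1 (DF 2 a b) = DF 3 a b) ∧
    (∀ a b : ℤ, rho4 1 (DF 1 a b) = DF 4 a b) := by
  refine ⟨?_, ?_, ?_, ?_⟩
  · simp [Fi, Fw, e3, rx, ry, rho4, Prod.ext_iff]
    ring
  · simp [Fi, Fw, e3, rx, ry, rho4, Prod.ext_iff]
    ring
  · intro a b
    simp [DF, e3, rx, ry, rho4, Prod.ext_iff]
  · intro a b
    simp [DF, e3, rx, ry, rho4, Prod.ext_iff]

theorem mm_chart (C : Curve) (cx cy : ℤ) (h : Top C cx cy) (h1 : -2 * C.q + C.p ≤ cx)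
    (h2 : cx ≤ 6 * C.q - C.p) :
    mm C cx cy = Fi C (kap C cx cy) cx cy ∧
    ∀ a b : ℤ, hd C cx cy a b = DF (kap C cx cy) a b := by
  have hq := C_q_pos C
  have hp := C.hp
  have hpq := C.hpq
  rcases lt_or_ge cx 0 with hc | hc
  · -- the chart on the left
    obtain ⟨d1, d2⟩ := topM_div C cx 1
    have e1 : (cx + 4 * C.q * 1) / (4 * C.q) = 0 := Int.ediv_eq_zero_of_lt (by omega) (by omega)
    have e2 : (cx + 4 * C.q * 1) % (4 * C.q) = cx + 4 * C.q * 1 :=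
      Int.emod_eq_of_lt (by omega) (by omega)
    have d3 : cx / (4 * C.q) = -1 := by omega
    have d4 : cx % (4 * C.q) = cx + 4 * C.q := by
      rw [← d2, e2]; ring
    have k1 := kap_right_far C (cx + 4 * C.q) cy (by omega)
    have k2 := kap_left C cx cy (by omega) h.2.2.2
    obtain ⟨f1, f2, f3, f4⟩ := topM_left C cx cy
    unfold mm hd
    rw [d3, d4, k1, k2]
    split_ifs
    · exact ⟨f1, f3⟩
    · exact ⟨f2, f4⟩
  · rcases lt_or_ge cx (4 * C.q) with hc' | hc'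
    · have d3 : cx / (4 * C.q) = 0 := Int.ediv_eq_zero_of_lt hc hc'
      have d4 : cx % (4 * C.q) = cx := Int.emod_eq_of_lt hc hc'
      unfold mm hd
      rw [d3, d4]
      exact ⟨topM_zero _, fun a b => topM_zero _⟩
    · obtain ⟨d1, d2⟩ := topM_div C cx (-1)
      have e1 : (cx + 4 * C.q * (-1)) / (4 * C.q) = 0 :=
        Int.ediv_eq_zero_of_lt (by omega) (by omega)
      have e2 : (cx + 4 * C.q * (-1)) % (4 * C.q) = cx + 4 * C.q * (-1) :=
        Int.emod_eq_of_lt (by omega) (by omega)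
      have d3 : cx / (4 * C.q) = 1 := by omega
      have d4 : cx % (4 * C.q) = cx - 4 * C.q := by
        rw [← d2, e2]; ring
      have ht : total C (cx - 4 * C.q) cy = 1 := by
        have h3 := total_shift C cx cy (-1)
        rw [h.2.2.2] at h3
        rw [← h3]
        congr 1
        ring
      have k1 := kap_left C (cx - 4 * C.q) cy (by omega) ht
      have k2 := kap_right_far C cx cy (by omega)
      obtain ⟨f1, f2, f3, f4⟩ := topM_right C cx cy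
      unfold mm hd
      rw [d3, d4, k1, k2]
      split_ifs
      · exact ⟨f1, f3⟩
      · exact ⟨f2, f4⟩

/-- the base cell: coordinates in the chart -/
private theorem topM_base (C : Curve) (cx cy : ℤ) (h : Top C cx cy) :
    rx (kap C (cx % (4 * C.q)) cy) (cx % (4 * C.q) - 2 * C.q) (cy + 2 * C.q) % 2 = 1 ∧
    ry (kap C (cx % (4 * C.q)) cy) (cx % (4 * C.q) - 2 * C.q) (cy + 2 * C.q) % 2 = 1 ∧
    0 < rx (kap C (cx % (4 * C.q)) cy) (cx % (4 * C.q) - 2 * C.q) (cy + 2 * C.q) ∧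
    rx (kap C (cx % (4 * C.q)) cy) (cx % (4 * C.q) - 2 * C.q) (cy + 2 * C.q) < 4 * C.q ∧
    0 < ry (kap C (cx % (4 * C.q)) cy) (cx % (4 * C.q) - 2 * C.q) (cy + 2 * C.q) ∧
    ry (kap C (cx % (4 * C.q)) cy) (cx % (4 * C.q) - 2 * C.q) (cy + 2 * C.q) < 4 * C.q := by
  have hq := C_q_pos C
  have hp := C.hp
  have hpq := C.hpq
  have hlt := Top_lt C cx cy h
  obtain ⟨h1, h2, h3, h4⟩ := h
  have r0 := Int.emod_nonneg cx (show 4 * C.q ≠ 0 by omega)
  have r1 := Int.emod_lt_of_pos cx (show 0 < 4 * C.q by omega)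
  have r2 : cx % (4 * C.q) % 2 = 1 := by
    rw [Int.emod_emod_of_dvd cx ⟨2 * C.q, by ring⟩]
    exact h1
  have hk := kap_quad C (cx % (4 * C.q)) cy r2 h2
  revert r0 r1 r2 hk
  generalize cx % (4 * C.q) = r
  intro r0 r1 r2 hk
  revert hk
  generalize kap C r cy = κ
  intro hk
  unfold rx ry at hk ⊢
  split_ifs at hk ⊢ <;> omega

theorem mm_isSC (C : Curve) (cx cy : ℤ) (h : Top C cx cy) : isSC C.q (mm C cx cy) := by
  obtain ⟨h1, h2, h3, h4, h5, h6⟩ := topM_base C cx cy h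
  unfold mm Fi
  exact rho4_isSC _ _ _ (Fw_isSC _ _ _ _ h1 h2 h3 h4 h5 h6)

theorem hd_tan (C : Curve) (cx cy a b : ℤ) (h : Top C cx cy) (hab : a * a + b * b = 1) :
    isTan C.q (mm C cx cy) (hd C cx cy a b) := by
  obtain ⟨h1, h2, h3, h4, h5, h6⟩ := topM_base C cx cy h
  unfold mm hd Fi
  rw [rho4_isTan _ (C_q_pos C)]
  exact DF_tan _ _ _ _ _ _ hab h1 h2 h3 h4 h5 h6

theorem hd_surj (C : Curve) (cx cy : ℤ) (h : Top C cx cy) (u : ℤ × ℤ × ℤ)
    (hu : isTan C.q (mm C cx cy) u) : ∃ a b : ℤ, a * a + b * b = 1 ∧ hd C cx cy a b = u := by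
  obtain ⟨h1, h2, h3, h4, h5, h6⟩ := topM_base C cx cy h
  have hu' : u = rho4 (cx / (4 * C.q)) (rho4 (-(cx / (4 * C.q))) u) := by
    rw [rho4_add, add_neg_cancel, topM_zero]
  rw [hu'] at hu
  unfold mm Fi at hu
  rw [rho4_isTan _ (C_q_pos C)] at hu
  obtain ⟨a, b, hab, hd'⟩ := DF_surj _ _ _ _ _ h1 h2 h3 h4 h5 h6 hu
  refine ⟨a, b, hab, ?_⟩
  unfold hd
  rw [hd', ← hu']

end H70Net
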