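import Pool.Agent.H70.Net.ZipA

/-!
MP_77daaf_co, module `Zip`.  PROOFS: see the header of module `ZipA`.
* `kap_zip'`: from `kap_zip`, `kap_edge` (edge `i`), `kap_edge_fut` (edge `2n-1-i`, whose right cell is
  `R (lc i)` and whose left cell is `R (rc i)`, `zip_rc`) and `kap_mod_rot` for `rc i`: the difference
  `kap (R (rc i)) - kap (rc i) - 3` is a multiple of 4 and of absolute value `≤ 2`.
-/

namespace H70Net

private def zipP (C : Curve) (cx cy : ℤ) : Prop :=
  kap C (4 * C.q + cy) (-cx) = kap C cx cy - 1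

private theorem zip_vtx (C : Curve) (i : ℤ) (h0 : 0 ≤ i) (h1 : i ≤ C.n) :
    C.vx (2 * C.n - i) = 2 * C.q + C.vy i ∧ C.vy (2 * C.n - i) = -C.vx i := by
  have hx := C.zx (C.n - i) (by omega) (by omega)
  have hy := C.zy (C.n - i) (by omega) (by omega)
  rw [show C.n + (C.n - i) = 2 * C.n - i by ring, show C.n - (C.n - i) = i by ring] at hx hy
  exact ⟨hx, hy⟩

/-- crossing the edge with direction `(ex, ey)` at the vertex `v i` -/
private theorem zip_cross (C : Curve) (i ex ey : ℤ) (h0 : 0 < i) (h1 : i < C.n)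
    (he : (ex = 0 ∧ (ey = 1 ∨ ey = -1)) ∨ (ey = 0 ∧ (ex = 1 ∨ ex = -1)))
    (hd : ¬ (dx C i = ex ∧ dy C i = ey)) (hd' : ¬ (dx C (i - 1) = -ex ∧ dy C (i - 1) = -ey)) :
    zipP C (2 * C.vx i + ex - ey) (2 * C.vy i + ey + ex) ↔
      zipP C (2 * C.vx i + ex + ey) (2 * C.vy i + ey - ex) := by
  obtain ⟨w1, w2⟩ := zip_vtx C i h0.le h1.le
  obtain ⟨z1, z2, -, -⟩ := zip_dir C i h0.le h1
  obtain ⟨z3, z4, -, -⟩ := zip_dir C (i - 1) (by omega) (by omega)
  rw [show 2 * C.n - 1 - (i - 1) = 2 * C.n - i by ring] at z3 z4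
  rw [show 2 * C.n - 1 - i = 2 * C.n - i - 1 by ring] at z1 z2
  have hno : ∀ j, ¬ (sx C j = 2 * C.vx i + ex ∧ sy C j = 2 * C.vy i + ey) := by
    rintro j ⟨j1, j2⟩
    rcases edge_at C i j ex ey (by rcases he with ⟨e1, e2 | e2⟩ | ⟨e1, e2 | e2⟩ <;> rw [e1, e2] <;>
      norm_num) j1 j2 with ⟨-, a1, a2⟩ | ⟨-, a1, a2⟩
    · exact hd ⟨a1, a2⟩
    · exact hd' ⟨a1, a2⟩
  have hno' : ∀ j, ¬ (sx C j = 4 * C.q + 2 * C.vy i + ey ∧ sy C j = -(2 * C.vx i) - ex) := by
    rintro j ⟨j1, j2⟩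
    rcases edge_at C (2 * C.n - i) j ey (-ex) (by
      rcases he with ⟨e1, e2 | e2⟩ | ⟨e1, e2 | e2⟩ <;> rw [e1, e2] <;> norm_num)
      (by rw [j1, w1]; ring) (by rw [j2, w2]; ring) with ⟨-, a1, a2⟩ | ⟨-, a1, a2⟩
    · rw [z3] at a1
      rw [z4] at a2
      exact hd' ⟨a2, by omega⟩
    · rw [z1] at a1
      rw [z2] at a2
      exact hd ⟨by omega, by omega⟩
  have cU : ex = 0 → (ey = 1 ∨ ey = -1) →
      (zipP C (2 * C.vx i - 1) (2 * C.vy i + ey) ↔ zipP C (2 * C.vx i + 1) (2 * C.vy i + ey)) := by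
    intro e1 e2
    have h := kap_rot_right C (2 * C.vx i - 1) (2 * C.vy i + ey) (by omega) (by omega)
      (fun j _ hj => hno j ⟨by omega, by omega⟩) (fun j _ hj => hno' j ⟨by omega, by omega⟩)
    rw [show 2 * C.vx i - 1 + 2 = 2 * C.vx i + 1 by ring] at h
    exact h
  have cR : ey = 0 → (ex = 1 ∨ ex = -1) →
      (zipP C (2 * C.vx i + ex) (2 * C.vy i - 1) ↔ zipP C (2 * C.vx i + ex) (2 * C.vy i + 1)) := by
    intro e1 e2
    have h := kap_rot_up C (2 * C.vx i + ex) (2 * C.vy i - 1) (by omega) (by omega)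
      (fun j _ hj => hno j ⟨by omega, by omega⟩) (fun j _ hj => hno' j ⟨by omega, by omega⟩)
    rw [show 2 * C.vy i - 1 + 2 = 2 * C.vy i + 1 by ring] at h
    exact h
  rcases he with ⟨e1, e2 | e2⟩ | ⟨e1, e2 | e2⟩
  · have h := cU e1 (Or.inl e2)
    rw [show 2 * C.vx i + ex - ey = 2 * C.vx i - 1 by omega,
      show 2 * C.vy i + ey + ex = 2 * C.vy i + ey by omega,
      show 2 * C.vx i + ex + ey = 2 * C.vx i + 1 by omega,
      show 2 * C.vy i + ey - ex = 2 * C.vy i + ey by omega]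
    exact h
  · have h := cU e1 (Or.inr e2)
    rw [show 2 * C.vx i + ex - ey = 2 * C.vx i + 1 by omega,
      show 2 * C.vy i + ey + ex = 2 * C.vy i + ey by omega,
      show 2 * C.vx i + ex + ey = 2 * C.vx i - 1 by omega,
      show 2 * C.vy i + ey - ex = 2 * C.vy i + ey by omega]
    exact h.symm
  · have h := cR e1 (Or.inl e2)
    rw [show 2 * C.vx i + ex - ey = 2 * C.vx i + ex by omega,
      show 2 * C.vy i + ey + ex = 2 * C.vy i + 1 by omega,
      show 2 * C.vx i + ex + ey = 2 * C.vx i + ex by omega,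
      show 2 * C.vy i + ey - ex = 2 * C.vy i - 1 by omega]
    exact h.symm
  · have h := cR e1 (Or.inr e2)
    rw [show 2 * C.vx i + ex - ey = 2 * C.vx i + ex by omega,
      show 2 * C.vy i + ey + ex = 2 * C.vy i - 1 by omega,
      show 2 * C.vx i + ex + ey = 2 * C.vx i + ex by omega,
      show 2 * C.vy i + ey - ex = 2 * C.vy i + 1 by omega]
    exact h

private theorem zip_parity (C : Curve) (i : ℤ) :
    lcx C i % 2 = 1 ∧ lcy C i % 2 = 1 ∧ rcx C i % 2 = 1 ∧ rcy C i % 2 = 1 := by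
  unfold lcx lcy rcx rcy
  rcases edge_cases C i with ⟨h1, h2, h3, h4⟩ | ⟨h1, h2, h3, h4⟩
  · rcases h1 with h1 | h1 <;> omega
  · rcases h2 with h2 | h2 <;> omega

private theorem zip_lc_start (C : Curve) (i : ℤ) : lcx C i = 2 * C.vx i + dx C i - dy C i ∧
    lcy C i = 2 * C.vy i + dy C i + dx C i := by
  unfold lcx lcy sx sy dx dy
  constructor <;> ring

private theorem zip_lc_end (C : Curve) (i : ℤ) : lcx C (i - 1) = 2 * C.vx i - dx C (i - 1) - dy C (i - 1) ∧
    lcy C (i - 1) = 2 * C.vy i - dy C (i - 1) + dx C (i - 1) := by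
  unfold lcx lcy sx sy dx dy
  rw [show i - 1 + 1 = i by ring]
  constructor <;> ring

private theorem zip_dirs (C : Curve) (i : ℤ) :
    (dx C i = 0 ∧ (dy C i = 1 ∨ dy C i = -1)) ∨ (dy C i = 0 ∧ (dx C i = 1 ∨ dx C i = -1)) := by
  rcases edge_cases C i with ⟨h1, h2, -, -⟩ | ⟨h1, h2, -, -⟩
  · exact Or.inr ⟨h2, h1⟩
  · exact Or.inl ⟨h1, h2⟩

private theorem zip_noback (C : Curve) (i : ℤ) : ¬ (dx C i = -dx C (i - 1) ∧ dy C i = -dy C (i - 1)) := by
  rintro ⟨h1, h2⟩
  unfold dx at h1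
  unfold dy at h2
  rw [show i - 1 + 1 = i by ring] at h1 h2
  have := C.inj (i + 1) (i - 1) (by omega) (by omega)
  omega

private theorem zip_base (C : Curve) : zipP C (lcx C (C.n - 1)) (lcy C (C.n - 1)) := by
  have hn := C.hn
  obtain ⟨r1, r2, -, -⟩ := zip_rc C (C.n - 1) (by omega) (by omega)
  obtain ⟨z1, z2, -, -⟩ := zip_dir C (C.n - 1) (by omega) (by omega)
  rw [show 2 * C.n - 1 - (C.n - 1) = C.n by ring] at r1 r2 z1 z2
  obtain ⟨s1, s2⟩ := zip_lc_start C C.n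
  obtain ⟨t1, t2⟩ := zip_lc_end C C.n
  obtain ⟨p1, p2, -, -⟩ := zip_parity C (C.n - 1)
  have hm := kap_mod_rot C (lcx C (C.n - 1)) (lcy C (C.n - 1)) p1 p2
  have hf := kap_edge_fut C C.n le_rfl
  have e1 : lcx C C.n = lcx C (C.n - 1) := by rw [s1, t1, z1, z2]; ring
  have e2 : lcy C C.n = lcy C (C.n - 1) := by rw [s2, t2, z1, z2]; ring
  rw [e1, e2, r1, r2] at hf
  unfold zipP
  omega

private theorem zip_step (C : Curve) (i : ℤ) (h0 : 0 < i) (h1 : i < C.n)
    (h : zipP C (lcx C i) (lcy C i)) : zipP C (lcx C (i - 1)) (lcy C (i - 1)) := by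
  obtain ⟨s1, s2⟩ := zip_lc_start C i
  obtain ⟨t1, t2⟩ := zip_lc_end C i
  have hb := zip_noback C i
  rw [s1, s2] at h
  rw [t1, t2]
  have d1 := zip_dirs C i
  have d2 := zip_dirs C (i - 1)
  have key : ∀ a b : ℤ, dx C (i - 1) = a → dy C (i - 1) = b →
      ((a = 0 ∧ (b = 1 ∨ b = -1)) ∨ (b = 0 ∧ (a = 1 ∨ a = -1))) →
      zipP C (2 * C.vx i - a - b) (2 * C.vy i - b + a) := by
    intro a b ha hb' hab
    rw [ha, hb'] at hb
    -- the three possible directions
    have htri : (dx C i = a ∧ dy C i = b) ∨ (dx C i = -b ∧ dy C i = a) ∨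
        (dx C i = b ∧ dy C i = -a) := by omega
    -- crossing the edge of direction `(-b, a)`
    have c2 : ¬ (dx C i = -b ∧ dy C i = a) →
        (zipP C (2 * C.vx i - a - b) (2 * C.vy i - b + a) ↔
          zipP C (2 * C.vx i + a - b) (2 * C.vy i + a + b)) := by
      intro hne
      have hc := zip_cross C i (-b) a h0 h1 (by omega) hne (by rw [ha, hb']; omega)
      rw [show 2 * C.vx i + -b - a = 2 * C.vx i - a - b by ring,
        show 2 * C.vy i + a + -b = 2 * C.vy i - b + a by ring,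
        show 2 * C.vx i + -b + a = 2 * C.vx i + a - b by ring,
        show 2 * C.vy i + a - -b = 2 * C.vy i + a + b by ring] at hc
      exact hc
    rcases htri with ⟨e1, e2⟩ | ⟨e1, e2⟩ | ⟨e1, e2⟩
    · rw [e1, e2] at h
      rw [show 2 * C.vy i + b + a = 2 * C.vy i + a + b by ring] at h
      exact (c2 (by rw [e1, e2]; omega)).2 h
    · rw [e1, e2] at h
      rw [show 2 * C.vx i + -b - a = 2 * C.vx i - a - b by ring,
        show 2 * C.vy i + a + -b = 2 * C.vy i - b + a by ring] at h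
      exact h
    · have hc := zip_cross C i a b h0 h1 hab (by rw [e1, e2]; omega) (by rw [ha, hb']; omega)
      rw [e1, e2] at h
      rw [show 2 * C.vx i + b - -a = 2 * C.vx i + a + b by ring,
        show 2 * C.vy i + -a + b = 2 * C.vy i + b - a by ring] at h
      have h' := hc.2 h
      rw [show 2 * C.vy i + b + a = 2 * C.vy i + a + b by ring] at h'
      exact (c2 (by rw [e1, e2]; omega)).2 h'
  exact key _ _ rfl rfl d2

theorem kap_zip (C : Curve) (i : ℤ) (h0 : 0 ≤ i) (h1 : i < C.n) :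
    kap C (4 * C.q + lcy C i) (-lcx C i) = kap C (lcx C i) (lcy C i) - 1 := by
  have key : ∀ k : ℕ, (k : ℤ) < C.n →
      zipP C (lcx C (C.n - 1 - k)) (lcy C (C.n - 1 - k)) := by
    intro k
    induction k with
    | zero =>
      intro _
      rw [show C.n - 1 - ((0 : ℕ) : ℤ) = C.n - 1 by push_cast; ring]
      exact zip_base C
    | succ k ih =>
      intro hk
      push_cast at hk
      have h := zip_step C (C.n - 1 - k) (by omega) (by omega) (ih (by omega))
      rw [show C.n - 1 - ((k + 1 : ℕ) : ℤ) = C.n - 1 - k - 1 by push_cast; ring]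
      exact h
  have h := key (C.n - 1 - i).toNat (by omega)
  rw [show C.n - 1 - ((C.n - 1 - i).toNat : ℤ) = i by omega] at h
  exact h

/-- the second form: `kap (R (rc i)) = kap (rc i) + 3` -/
theorem kap_zip' (C : Curve) (i : ℤ) (h0 : 0 ≤ i) (h1 : i < C.n) :
    kap C (4 * C.q + rcy C i) (-rcx C i) = kap C (rcx C i) (rcy C i) + 3 := by
  obtain ⟨-, -, p1, p2⟩ := zip_parity C i
  have hm := kap_mod_rot C (rcx C i) (rcy C i) p1 p2
  have he := kap_edge C i h1
  have hf := kap_edge_fut C (2 * C.n - 1 - i) (by omega)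
  obtain ⟨r1, r2, r3, r4⟩ := zip_rc C i h0 h1
  rw [r1, r2, r3, r4] at hf
  have hz := kap_zip C i h0 h1
  omega

end H70Net
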