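import Pool.Agent.H70.Net.Kappa

/-!
MP_77daaf_co, module `ZipA` : the rotation `R (x,y) = (4q + y, -x)` (doubled coordinates, by `-90` degrees
about `(2q,-2q)`) maps the first arm (edges `0 ≤ i < n`) to the second arm (edges `2n-1-i`), and
the lifted quadrant number behaves well.

PROOFS.
* `zip_mid`, `zip_rc`, `zip_lc`: `zx, zy` at `n - i` and `n - i - 1` (`C.zx (n - i)`: `vx (2n - i) = 2q +
  vy i`, `vy (2n-i) = - vx i`).  So `dx (2n-1-i) = -dy i`... precisely
  `dx C (2n-1-i) = vx (2n-i) - vx (2n-1-i) = vy i - vy (i+1) = - dy i`, `dy C (2n-1-i) = dx i`,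
  `sx (2n-1-i) = 4q + sy i`, `sy (2n-1-i) = - sx i`.
* `kap_zip`: `kap (rc (2n-1-i)) = kap (lc i) - 1` for `0 ≤ i < n`.  Downward induction on `i`.
  `i = n-1`: with `w = (dx (n-1), dy (n-1))`, `o = v n`: `lc (n-1)` is the cell between the directions `iw` and
  `-w` at `o`; the edge `n` has direction `u` with `(dx n, dy n) = (-dy (n-1), dx (n-1)) = i w`, so
  `lc n = lc (n-1)` and `rc n` is on the other side of the edge `n`: `kap (rc n) - kap (lc n)` is
  between `-1` and `1` (`kap_edge_fut`), and `kap (rc n) ≡ kap (lc n) - 1 mod 4` because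
  `rc n = R (lc (n-1))` (`kap_quad` and the quadrant of a rotated vector, `kap_mod_rot`).
  Step from `i` to `i - 1` (`1 ≤ i`): `lc i` and `lc (i-1)` are joined around the vertex `v i` through
  0, 1 or 2 edges which are not in the curve, and correspondingly `rc (2n-1-i)` and `rc (2n-i)` around
  the vertex `v (2n-i) = R (v i)`, through the rotated edges, not in the curve.  Each crossing changes
  `kap` by at most 1 in absolute value (`kap_right`, `kap_up`), so the difference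
  `kap (rc (2n-i)) - (kap (lc (i-1)) - 1)` has absolute value `≤ 4`... to conclude one follows the
  crossings one by one: after each crossing both cells `c` and `R c` satisfy
  `kap (R c) ≡ kap c - 1 mod 4` (`kap_mod_rot`) and the change is `≤ 1` on both sides, so the
  equality `kap (R c) = kap c - 1` is preserved (the difference is a multiple of 4 of absolute value
  `≤ 2`).  This is `kap_rot_right`, `kap_rot_up` below.
-/

namespace H70Net

private theorem zipA_v (C : Curve) (i : ℤ) (h0 : 0 ≤ i) (h1 : i ≤ C.n) :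
    C.vx (2 * C.n - i) = 2 * C.q + C.vy i ∧ C.vy (2 * C.n - i) = -C.vx i := by
  have h2 := C.zx (C.n - i) (by omega) (by omega)
  have h3 := C.zy (C.n - i) (by omega) (by omega)
  rw [show C.n + (C.n - i) = 2 * C.n - i by ring, show C.n - (C.n - i) = i by ring] at h2 h3
  exact ⟨h2, h3⟩

theorem zip_dir (C : Curve) (i : ℤ) (h0 : 0 ≤ i) (h1 : i < C.n) :
    dx C (2 * C.n - 1 - i) = -dy C i ∧ dy C (2 * C.n - 1 - i) = dx C i ∧
    sx C (2 * C.n - 1 - i) = 4 * C.q + sy C i ∧ sy C (2 * C.n - 1 - i) = -sx C i := by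
  obtain ⟨a1, a2⟩ := zipA_v C i h0 h1.le
  obtain ⟨b1, b2⟩ := zipA_v C (i + 1) (by omega) (by omega)
  have e1 : 2 * C.n - 1 - i + 1 = 2 * C.n - i := by ring
  have e2 : 2 * C.n - 1 - i = 2 * C.n - (i + 1) := by ring
  unfold dx dy sx sy
  rw [e1, e2, a1, a2, b1, b2]
  refine ⟨?_, ?_, ?_, ?_⟩ <;> ring

theorem zip_rc (C : Curve) (i : ℤ) (h0 : 0 ≤ i) (h1 : i < C.n) :
    rcx C (2 * C.n - 1 - i) = 4 * C.q + lcy C i ∧ rcy C (2 * C.n - 1 - i) = -lcx C i ∧
    lcx C (2 * C.n - 1 - i) = 4 * C.q + rcy C i ∧ lcy C (2 * C.n - 1 - i) = -rcx C i := by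
  obtain ⟨a1, a2, a3, a4⟩ := zip_dir C i h0 h1
  unfold rcx rcy lcx lcy
  rw [a1, a2, a3, a4]
  refine ⟨?_, ?_, ?_, ?_⟩ <;> ring

theorem rx_rot (κ x y : ℤ) : rx (κ + 3) y (-x) = rx κ x y ∧ ry (κ + 3) y (-x) = ry κ x y := by
  unfold rx ry
  split_ifs <;> omega

/-- a quadrant number is determined mod 4 -/
theorem quad_mod (κ κ' x y : ℤ) (h1 : 0 < rx κ x y) (h2 : 0 < ry κ x y) (h3 : 0 < rx κ' x y)
    (h4 : 0 < ry κ' x y) : (κ - κ') % 4 = 0 := by
  unfold rx at h1 h3
  unfold ry at h2 h4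
  split_ifs at h1 h2 h3 h4 <;> omega

theorem kap_mod_rot (C : Curve) (cx cy : ℤ) (hcx : cx % 2 = 1) (hcy : cy % 2 = 1) :
    (kap C (4 * C.q + cy) (-cx) - (kap C cx cy - 1)) % 4 = 0 := by
  have h1 := kap_quad C cx cy hcx hcy
  have h2 := kap_quad C (4 * C.q + cy) (-cx) (by omega) (by omega)
  rw [show 4 * C.q + cy - 2 * C.q = cy + 2 * C.q by ring,
    show -cx + 2 * C.q = -(cx - 2 * C.q) by ring] at h2
  have h3 := rx_rot (kap C cx cy) (cx - 2 * C.q) (cy + 2 * C.q)
  have h4 := quad_mod (kap C (4 * C.q + cy) (-cx)) (kap C cx cy + 3) (cy + 2 * C.q)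
    (-(cx - 2 * C.q)) h2.1 h2.2 (by rw [h3.1]; exact h1.1) (by rw [h3.2]; exact h1.2)
  omega

/-- moving from `c` to `c + (2,0)` (edge `(cx+1, cy)` not among the edges `< n`, and its rotated edge
`(4q + cy, -cx-1)` neither) preserves `kap (R c) = kap c - 1` in both directions -/
theorem kap_rot_right (C : Curve) (cx cy : ℤ) (hcx : cx % 2 = 1) (hcy : cy % 2 = 1)
    (h : ∀ i, i < C.n → ¬ (sx C i = cx + 1 ∧ sy C i = cy))
    (h' : ∀ i, i < C.n → ¬ (sx C i = 4 * C.q + cy ∧ sy C i = -cx - 1)) :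
    kap C (4 * C.q + cy) (-cx) = kap C cx cy - 1 ↔
      kap C (4 * C.q + cy) (-(cx + 2)) = kap C (cx + 2) cy - 1 := by
  have h1 := kap_right C cx cy hcx hcy h
  have h2 := kap_up C (4 * C.q + cy) (-(cx + 2)) (by omega) (by omega)
    (fun i hi hh => h' i hi ⟨hh.1, by rw [hh.2]; ring⟩)
  rw [show -(cx + 2) + 2 = -cx by ring] at h2
  have h3 := kap_mod_rot C cx cy hcx hcy
  have h4 := kap_mod_rot C (cx + 2) cy (by omega) hcy
  constructor <;> intro h5 <;> omega

theorem kap_rot_up (C : Curve) (cx cy : ℤ) (hcx : cx % 2 = 1) (hcy : cy % 2 = 1)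
    (h : ∀ i, i < C.n → ¬ (sx C i = cx ∧ sy C i = cy + 1))
    (h' : ∀ i, i < C.n → ¬ (sx C i = 4 * C.q + cy + 1 ∧ sy C i = -cx)) :
    kap C (4 * C.q + cy) (-cx) = kap C cx cy - 1 ↔
      kap C (4 * C.q + (cy + 2)) (-cx) = kap C cx (cy + 2) - 1 := by
  have h1 := kap_up C cx cy hcx hcy h
  have h2 := kap_right C (4 * C.q + cy) (-cx) (by omega) (by omega) h'
  rw [show 4 * C.q + cy + 2 = 4 * C.q + (cy + 2) by ring] at h2
  have h3 := kap_mod_rot C cx cy hcx hcy
  have h4 := kap_mod_rot C cx (cy + 2) hcx (by omega)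
  constructor <;> intro h5 <;> omega

end H70Net
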